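import Pool.Agent.MP_deef5c_ag.O.Sp0

/-! Linearisation and homomorphisms from relations. -/

open PowerSeries IsLocalRing Finset Function
open scoped Polynomial

namespace Pool.Agent.MP_deef5c_ag.O

universe u

variable {k : Type u} [Field k]

theorem GrpA_mem {a : k} : a ∈ maximalIdeal k ↔ a = 0 := by
  rw [maximalIdeal_eq_bot, Ideal.mem_bot]

theorem GrpA_order {f : k⟦X⟧} : order f = 1 ↔ constantCoeff f = 0 ∧ coeff 1 f ≠ 0 := by
  have h := order_eq_nat (φ := f) (n := 1)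
  rw [Nat.cast_one] at h
  rw [h]
  constructor
  · rintro ⟨h1, h2⟩
    exact ⟨by simpa using h2 0 one_pos, h1⟩
  · rintro ⟨h1, h2⟩
    refine ⟨h2, fun i hi => ?_⟩
    obtain rfl : i = 0 := by omega
    simpa using h1

theorem GrpA_pow {τ : En k} (h : constantCoeff (τ X) = 0) (i : ℕ) :
    constantCoeff ((τ ^ i) X) = 0 ∧ coeff 1 ((τ ^ i) X) = coeff 1 (τ X) ^ i := by
  induction i with
  | zero => simp
  | succ i ih =>
    rw [pow_succ', pow_succ']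
    refine ⟨GrpA_mem.mp (en_mem τ (GrpA_mem.mpr h) (GrpA_mem.mpr ih.1)), ?_⟩
    rw [coeff_one_mul h ih.1, ih.2]

theorem GrpA_le {f g : k⟦X⟧} (h : f ∣ g) : order f ≤ order g := by
  obtain ⟨c, rfl⟩ := h
  rw [order_mul]
  exact le_self_add

theorem GrpA_rel {N : Type*} [Monoid N] {s t : N} {α : ℕ} (h : t * s = s ^ α * t) (i j : ℕ) :
    t ^ j * s ^ i = s ^ (α ^ j * i) * t ^ j := by
  have h1 : ∀ i : ℕ, t * s ^ i = s ^ (α * i) * t := fun i => by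
    induction i with
    | zero => simp
    | succ i ih => rw [pow_succ, ← mul_assoc, ih, mul_assoc, h, ← mul_assoc, ← pow_add, mul_add,
        mul_one]
  induction j with
  | zero => simp
  | succ j ih =>
    rw [pow_succ' t, mul_assoc, ih, ← mul_assoc, h1, mul_assoc, pow_succ' α, mul_assoc]

/-- `Φ = sub t'` with `t' = (1/m) ∑_{i<m} ζ^(-i) τ^i X = X + ..`, `τ t' = ζ t'`; `exists_inv` -/
theorem lin {τ : En k} {m : ℕ} (hm : 0 < m) (hτ : τ ^ m = 1)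
    (hζ : IsPrimitiveRoot (coeff 1 (τ X)) m) :
    ∃ Φ Ψ : En k, Φ * Ψ = 1 ∧ Ψ * Φ = 1 ∧ order (Φ X) = 1 ∧ τ * Φ = Φ * tau (coeff 1 (τ X)) := by
  have h0 : constantCoeff (τ X) = 0 := (GrpA_order.mp (order_one hm hτ)).1
  have hp := GrpA_pow h0
  generalize coeff 1 (τ X) = ζ at hζ hp
  have hz : ζ ≠ 0 := hζ.ne_zero hm.ne'
  have : NeZero m := ⟨hm.ne'⟩
  have hmk : (m : k) ≠ 0 := hζ.neZero'.out
  obtain ⟨t, ht⟩ : ∃ t : k⟦X⟧, t = ∑ i ∈ range m, C (ζ⁻¹ ^ i) * (τ ^ i) X := ⟨_, rfl⟩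
  have c0 : constantCoeff t = 0 := by
    rw [ht, map_sum]
    exact sum_eq_zero fun i _ => by rw [map_mul, (hp i).1, mul_zero]
  have c1 : coeff 1 t = m := by
    rw [ht, map_sum, sum_congr rfl (g := fun _ => (1 : k)) fun i _ => by
      rw [coeff_C_mul, (hp i).2, ← mul_pow, inv_mul_cancel₀ hz, one_pow]]
    simp
  have hτt : τ t = C ζ * t := by
    have e1 : τ t = C ζ * ∑ i ∈ range m, C (ζ⁻¹ ^ (i + 1)) * (τ ^ (i + 1)) X := by
      rw [ht, map_sum, mul_sum]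
      refine sum_congr rfl fun i _ => ?_
      rw [map_mul, Base_en_C, ← mul_assoc, ← map_mul, pow_succ' ζ⁻¹, mul_inv_cancel_left₀ hz,
        pow_succ' τ, AlgHom.mul_apply]
    have e2 := sum_range_succ' (fun i => C (ζ⁻¹ ^ i) * (τ ^ i) X) m
    rw [sum_range_succ, hτ, inv_pow, hζ.pow_eq_one, inv_one, pow_zero, pow_zero, ← ht] at e2
    rw [e1, add_right_cancel e2]
  have hs : sub t X = t := sub_X (GrpA_mem.mpr c0)
  have ho : order (sub t X) = 1 := by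
    rw [hs]
    exact GrpA_order.mpr ⟨c0, by rw [c1]; exact hmk⟩
  obtain ⟨Ψ, h1, h2⟩ := exists_inv (RingHom.id k) surjective_id (sub t) (by
    rw [PowerSeries.map_id]; exact ho)
  refine ⟨sub t, Ψ, h1, h2, ho, en_ext ?_ ?_⟩
  · rw [AlgHom.mul_apply, AlgHom.mul_apply, tau_X, map_mul, Base_en_C, hs, hτt]
  · rw [AlgHom.mul_apply, hs, hτt, map_mul, c0, mul_zero]
    exact zero_mem _

/-- the order of `σ X - X` does not depend on the coordinate: both divide each other (`sub_dvd`) -/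
theorem order_conj {σ Φ Ψ : En k} (h1 : Φ * Ψ = 1) (h2 : Ψ * Φ = 1) (hΦ : order (Φ X) = 1)
    (hσ : constantCoeff (σ X) = 0) : order ((Ψ * σ * Φ) X - X) = order (σ X - X) := by
  have e1 : Φ (Ψ X) = X := by rw [← AlgHom.mul_apply, h1, AlgHom.one_apply]
  have e2 : Ψ (Φ X) = X := by rw [← AlgHom.mul_apply, h2, AlgHom.one_apply]
  have hΨ : order (Ψ X) = 1 := by
    have := order_en Φ 1 one_pos (by rw [hΦ, Nat.cast_one]) (Ψ X)
    rw [e1, order_X, Nat.cast_one, one_mul] at this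
    exact this.symm
  have e3 : (Ψ * σ * Φ) X - X = Ψ (σ (Φ X) - Φ X) := by
    rw [map_sub, e2, AlgHom.mul_apply, AlgHom.mul_apply]
  have m1 := GrpA_mem.mpr hσ
  have m2 := GrpA_mem.mpr (GrpA_order.mp hΦ).1
  rw [e3, order_en Ψ 1 one_pos (by rw [hΨ, Nat.cast_one]), Nat.cast_one, one_mul]
  refine le_antisymm (GrpA_le ?_) (GrpA_le ?_)
  · have := sub_dvd (σ * Φ) Φ (en_mem σ m1 m2) m2 (Ψ X)
    rwa [AlgHom.mul_apply, AlgHom.mul_apply, e1] at this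
  · exact sub_dvd σ 1 m1 (GrpA_mem.mpr constantCoeff_X) (Φ X)

/-- The subgroup `H` of `G × M` generated by `(σ, a)`, `(τ, b)` consists of the
`(σ^i τ^j, a^i b^j)`; its projection to `G` is bijective. -/
theorem hom_of_rel {G M : Type*} [Group G] [Group M] (σ τ : G) (a b : M) (q m α : ℕ) (hq : 0 < q)
    (hm : 0 < m) (hσ : σ ^ q = 1) (hτ : τ ^ m = 1) (ha : a ^ q = 1) (hb : b ^ m = 1)
    (h1 : τ * σ = σ ^ α * τ) (h2 : b * a = a ^ α * b) (hgen : ∀ g : G, ∃ i j : ℕ, g = σ ^ i * τ ^ j)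
    (hinj : ∀ i j : ℕ, σ ^ i * τ ^ j = 1 → q ∣ i ∧ m ∣ j) :
    ∃ φ : G →* M, φ σ = a ∧ φ τ = b := by
  obtain ⟨s, hs⟩ : ∃ s : G × M, s = (σ, a) := ⟨_, rfl⟩
  obtain ⟨t, ht⟩ : ∃ t : G × M, t = (τ, b) := ⟨_, rfl⟩
  have hsq : s ^ q = 1 := by rw [hs, Prod.pow_mk, hσ, ha, Prod.mk_one_one]
  have htm : t ^ m = 1 := by rw [ht, Prod.pow_mk, hτ, hb, Prod.mk_one_one]
  have hr : t * s = s ^ α * t := by
    rw [hs, ht, Prod.pow_mk, Prod.mk_mul_mk, Prod.mk_mul_mk, h1, h2]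
  have hmul : ∀ i j i' j' : ℕ, s ^ i * t ^ j * (s ^ i' * t ^ j') =
      s ^ (i + α ^ j * i') * t ^ (j + j') := fun i j i' j' => by
    rw [mul_assoc, ← mul_assoc (t ^ j), GrpA_rel hr, pow_add, pow_add]
    simp only [mul_assoc]
  have hinv : ∀ (x : G × M) (n i : ℕ), 0 < n → x ^ n = 1 → (x ^ i)⁻¹ = x ^ ((n - 1) * i) :=
    fun x n i hn hx => by
      obtain ⟨n, rfl⟩ : ∃ n', n = n' + 1 := ⟨n - 1, by omega⟩
      rw [_root_.inv_eq_iff_mul_eq_one, ← pow_add, Nat.add_sub_cancel,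
        show i + n * i = (n + 1) * i by ring, pow_mul, hx, one_pow]
  let H : Subgroup (G × M) :=
    { carrier := {x | ∃ i j : ℕ, x = s ^ i * t ^ j}
      mul_mem' := by
        rintro _ _ ⟨i, j, rfl⟩ ⟨i', j', rfl⟩
        exact ⟨_, _, hmul i j i' j'⟩
      one_mem' := ⟨0, 0, by simp⟩
      inv_mem' := by
        rintro _ ⟨i, j, rfl⟩
        exact ⟨_, _, by rw [mul_inv_rev, hinv t m j hm htm, hinv s q i hq hsq, GrpA_rel hr]⟩ }
  have hf : ∀ i j : ℕ, (s ^ i * t ^ j).1 = σ ^ i * τ ^ j := fun i j => by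
    rw [hs, ht]; rfl
  have hbij : Bijective ((MonoidHom.fst G M).comp H.subtype) := by
    refine ⟨(injective_iff_map_eq_one _).mpr ?_, fun g => ?_⟩
    · rintro ⟨_, i, j, rfl⟩ h
      obtain ⟨⟨c, rfl⟩, d, rfl⟩ := hinj i j ((hf i j).symm.trans h)
      exact Subtype.ext (by
        show s ^ (q * c) * t ^ (m * d) = 1
        rw [pow_mul, pow_mul, hsq, htm, one_pow, one_pow, one_mul])
    · obtain ⟨i, j, rfl⟩ := hgen g
      exact ⟨⟨_, i, j, rfl⟩, hf i j⟩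
  have key : ∀ x : H, (((MonoidHom.snd G M).comp H.subtype).comp
      (MulEquiv.ofBijective _ hbij).symm.toMonoidHom) x.1.1 = x.1.2 := fun x => by
    have : (MulEquiv.ofBijective _ hbij).symm x.1.1 = x :=
      (MulEquiv.symm_apply_eq _).mpr rfl
    show ((MulEquiv.ofBijective _ hbij).symm x.1.1).1.2 = _
    rw [this]
  have k1 := key ⟨s, 1, 0, by simp⟩
  have k2 := key ⟨t, 0, 1, by simp⟩
  have a1 : s.1 = σ := by rw [hs]
  have a2 : s.2 = a := by rw [hs]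
  have a3 : t.1 = τ := by rw [ht]
  have a4 : t.2 = b := by rw [ht]
  exact ⟨_, a1 ▸ a2 ▸ k1, a3 ▸ a4 ▸ k2⟩

end Pool.Agent.MP_deef5c_ag.O
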