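import Mathlib

open PowerSeries

namespace Pool.Agent.MP_deef5c_ag.O

/-- The action `ρ` of `G` on `k⟦X⟧` lifts along `π : A → k`: there is an `A`-linear action of `G` on
`A⟦X⟧` which reduces to `ρ`. -/
def LocLifts {k : Type*} [Field k] {G : Type*} [Group G] (ρ : G →* (k⟦X⟧ ≃ₐ[k] k⟦X⟧))
    {A : Type*} [CommRing A] (π : A →+* k) : Prop :=
  ∃ ρ' : G →* (A⟦X⟧ ≃ₐ[A] A⟦X⟧), ∀ g f, PowerSeries.map π (ρ' g f) = ρ g (PowerSeries.map π f)

end Pool.Agent.MP_deef5c_ag.O
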