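import Pool.Agent.MP_deef5c_ag.O.Qb2

/-! Freeness of power series over a subring of power series. -/

open PowerSeries IsLocalRing Finset Function
open scoped Polynomial

namespace Pool.Agent.MP_deef5c_ag.O

universe u

variable {D k : Type u} [CommRing D] [IsLocalRing D] [CL D] [Field k]

omit [CL D] in
theorem Qb_mem (π : D →+* k) (hπ : Surjective π) (x : D⟦X⟧) (d : ℕ) (hd : 0 < d)
    (hx : order (PowerSeries.map π x) = d) : constantCoeff x ∈ maximalIdeal D := by
  have h := coeff_of_lt_order (φ := PowerSeries.map π x) 0 (by rw [hx]; exact_mod_cast hd)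
  rw [coeff_map, coeff_zero_eq_constantCoeff_apply] at h
  exact (pi_eq_zero_iff π hπ _).mp h

omit [CL D] in
theorem Qb_ord (π : D →+* k) (hπ : Surjective π) (x : D⟦X⟧) (d : ℕ)
    (hx : order (PowerSeries.map π x) = d) : PowerSeries.map (residue D) x ≠ 0 ∧
      (PowerSeries.map (Ideal.Quotient.mk (maximalIdeal D)) x).order.toNat = d := by
  have h := (order_map_residue π hπ x).trans hx
  refine ⟨fun h0 => ?_, ?_⟩
  · rw [h0, order_zero] at h
    exact ENat.top_ne_natCast d h
  · change (PowerSeries.map (residue D) x).order.toNat = d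
    rw [h, ENat.toNat_natCast]

theorem Qb_step {x : D⟦X⟧} (hm : constantCoeff x ∈ maximalIdeal D) (g : D⟦X⟧) :
    sub x g = x * sub x (mk fun n => coeff (n + 1) g) + C (coeff 0 g) := by
  conv_lhs => rw [eq_X_mul_shift_add_const g]
  rw [map_add, map_mul, sub_X hm, coeff_zero_eq_constantCoeff_apply]
  exact congrArg _ ((sub x).commutes _)

theorem Qb_sum {x : D⟦X⟧} (hm : constantCoeff x ∈ maximalIdeal D) (d : ℕ) (g : ℕ → D⟦X⟧) :
    ∑ i ∈ range d, sub x (g i) * X ^ i =
      x * ∑ i ∈ range d, sub x (mk fun n => coeff (n + 1) (g i)) * X ^ i +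
        ((∑ i ∈ range d, Polynomial.monomial i (coeff 0 (g i)) : D[X]) : D⟦X⟧) := by
  rw [← Polynomial.coeToPowerSeries.ringHom_apply, map_sum, mul_sum, ← sum_add_distrib]
  refine sum_congr rfl fun i _ => ?_
  rw [Qb_step hm, Polynomial.coeToPowerSeries.ringHom_apply, ← Polynomial.C_mul_X_pow_eq_monomial,
    Polynomial.coe_mul, Polynomial.coe_C, Polynomial.coe_pow, Polynomial.coe_X]
  ring

/-- Weierstrass division by `x` (`exists_isWeierstrassDivision`, `order_map_residue`): `f = r₀ + x f₁`,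
`f₁ = r₁ + x f₂`, ... with `deg r_n < d`; put `g i = mk fun n => coeff i (r n)`.  Then
`f - ∑ sub x (g i) X^i ∈ (x^N)` for all `N`, and `x` lies in the maximal ideal. -/
theorem qspan (π : D →+* k) (hπ : Surjective π) (x : D⟦X⟧) (d : ℕ) (hd : 0 < d)
    (hx : order (PowerSeries.map π x) = d) (f : D⟦X⟧) :
    ∃ g : ℕ → D⟦X⟧, f = ∑ i ∈ range d, sub x (g i) * X ^ i := by
  have hm := Qb_mem π hπ x d hd hx
  obtain ⟨h0, hd'⟩ := Qb_ord π hπ x d hx
  choose q r hqr using fun f : D⟦X⟧ => exists_isWeierstrassDivision f h0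
  have hE : ∀ f : D⟦X⟧,
      f - ∑ i ∈ range d, sub x (mk fun n => (r (q^[n] f)).coeff i) * X ^ i =
        x * (q f - ∑ i ∈ range d, sub x (mk fun n => (r (q^[n] (q f))).coeff i) * X ^ i) := by
    intro f
    have h1 := (hqr f).1
    rw [hd'] at h1
    have h2 : r f = ∑ i ∈ range d, Polynomial.monomial i ((r f).coeff i) := by
      by_cases hr : r f = 0
      · simp [hr]
      · exact Polynomial.as_sum_range' _ _ ((Polynomial.natDegree_lt_iff_degree_lt hr).mpr h1)
    rw [Qb_sum hm]
    simp only [coeff_mk, iterate_succ_apply, iterate_zero, id]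
    rw [← h2, mul_sub]
    have h3 := (hqr f).2
    linear_combination h3
  have hN : ∀ (N : ℕ) (f : D⟦X⟧),
      f - ∑ i ∈ range d, sub x (mk fun n => (r (q^[n] f)).coeff i) * X ^ i ∈
        maximalIdeal D⟦X⟧ ^ N := by
    intro N
    induction N with
    | zero => simp
    | succ N ih =>
      intro f
      rw [hE, pow_succ']
      exact Ideal.mul_mem_mul ((mem_max_iff x).mpr hm) (ih _)
  refine ⟨fun i => mk fun n => (r (q^[n] f)).coeff i, sub_eq_zero.mp ?_⟩
  refine IsHausdorff.haus' (I := maximalIdeal D⟦X⟧) _ fun N => ?_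
  rw [SModEq.zero, smul_eq_mul, Ideal.mul_top]
  exact hN N f

/-- uniqueness of Weierstrass division by `x` kills the constant coefficients of the `g i`; divide by
`x` (a non-zero-divisor by the same uniqueness) and iterate -/
theorem qindep (π : D →+* k) (hπ : Surjective π) (x : D⟦X⟧) (d : ℕ) (hd : 0 < d)
    (hx : order (PowerSeries.map π x) = d) (g : ℕ → D⟦X⟧)
    (h : ∑ i ∈ range d, sub x (g i) * X ^ i = 0) : ∀ i < d, g i = 0 := by
  have hm := Qb_mem π hπ x d hd hx
  obtain ⟨h0, hd'⟩ := Qb_ord π hπ x d hx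
  have hs : ∀ g : ℕ → D⟦X⟧, ∑ i ∈ range d, sub x (g i) * X ^ i = 0 →
      ∑ i ∈ range d, sub x (mk fun n => coeff (n + 1) (g i)) * X ^ i = 0 ∧
        ∀ i < d, coeff 0 (g i) = 0 := by
    intro g h
    rw [Qb_sum hm, add_eq_zero_iff_eq_neg, ← Polynomial.coe_neg] at h
    obtain ⟨h1, h2⟩ := (IsWeierstrassDivisor.of_map_ne_zero h0).eq_zero_of_mul_eq (by
      rw [hd', Polynomial.degree_neg]
      refine (Polynomial.degree_sum_le _ _).trans_lt ?_
      refine (Finset.sup_lt_iff (WithBot.bot_lt_coe _)).mpr fun i hi => ?_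
      exact (Polynomial.degree_monomial_le _ _).trans_lt (by exact_mod_cast mem_range.mp hi)) h
    refine ⟨h1, fun i hi => ?_⟩
    have h3 := congrArg (fun P : D[X] => P.coeff i) (neg_eq_zero.mp h2)
    simpa [Polynomial.coeff_monomial, hi] using h3
  have hn : ∀ (n : ℕ) (g : ℕ → D⟦X⟧), ∑ i ∈ range d, sub x (g i) * X ^ i = 0 →
      ∀ i < d, coeff n (g i) = 0 := by
    intro n
    induction n with
    | zero => exact fun g h => (hs g h).2
    | succ n ih =>
      intro g h i hi
      have h1 := ih _ (hs g h).1 i hi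
      rwa [coeff_mk] at h1
  intro i hi
  ext n
  rw [hn n g h i hi, map_zero]

theorem sub_injective (π : D →+* k) (hπ : Surjective π) (x : D⟦X⟧) (d : ℕ) (hd : 0 < d)
    (hx : order (PowerSeries.map π x) = d) : Injective (sub x) := by
  refine (injective_iff_map_eq_zero (sub x)).mpr fun f hf => ?_
  have h := qindep π hπ x d hd hx (fun i => if i = 0 then f else 0)
    (sum_eq_zero fun i _ => by split_ifs <;> simp [hf]) 0 hd
  simpa using h

/-- an endomorphism whose reduction sends `X` to a series of order one is invertible -/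
theorem exists_inv (π : D →+* k) (hπ : Surjective π) (Φ : En D)
    (hΦ : order (PowerSeries.map π (Φ X)) = 1) : ∃ Ψ : En D, Φ * Ψ = 1 ∧ Ψ * Φ = 1 := by
  have hΦ' : order (PowerSeries.map π (Φ X)) = (1 : ℕ) := hΦ
  have he := eq_sub Φ (Qb_mem π hπ _ 1 one_pos hΦ')
  have hb : Bijective Φ := by
    rw [he]
    refine ⟨sub_injective π hπ _ 1 one_pos hΦ', fun f => ?_⟩
    obtain ⟨g, hg⟩ := qspan π hπ _ 1 one_pos hΦ' f
    exact ⟨g 0, by simpa using hg.symm⟩
  refine ⟨(AlgEquiv.ofBijective Φ hb).symm, AlgHom.ext fun f => ?_, AlgHom.ext fun f => ?_⟩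
  · exact (AlgEquiv.ofBijective Φ hb).apply_symm_apply f
  · exact (AlgEquiv.ofBijective Φ hb).symm_apply_apply f

/-- invariants: write `f = ∑ sub x (g i) X^i`; the polynomial `∑ sub x (g i) T^i - f` of degree `< d`
has the `d` distinct roots `σ^i X` in a domain -/
theorem qinv [IsDomain D] (π : D →+* k) (hπ : Surjective π) (x : D⟦X⟧) (d : ℕ) (hd : 0 < d)
    (hx : order (PowerSeries.map π x) = d) (σ : En D) (hσ : σ x = x)
    (hinj : ∀ i < d, ∀ j < d, (σ ^ i) X = (σ ^ j) X → i = j) (f : D⟦X⟧) (hf : σ f = f) :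
    ∃ g, sub x g = f := by
  have hm := Qb_mem π hπ x d hd hx
  obtain ⟨g, hg⟩ := qspan π hπ x d hd hx f
  have h1 : σ * sub x = sub x := by
    have h : (σ * sub x) X = x := by rw [AlgHom.mul_apply, sub_X hm, hσ]
    exact en_ext (h.trans (sub_X hm).symm) (by rwa [h])
  have h2 : ∀ (j : ℕ) (y : D⟦X⟧), σ y = y → (σ ^ j) y = y := by
    intro j y hy
    induction j with
    | zero => rfl
    | succ j ih => rw [pow_succ, AlgHom.mul_apply, hy, ih]
  have h3 : ∀ (j : ℕ) (y : D⟦X⟧), (σ ^ j) (sub x y) = sub x y := fun j y =>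
    h2 j _ (by rw [← AlgHom.mul_apply, h1])
  have hP : (∑ i ∈ range d, Polynomial.monomial i (sub x (g i)) - Polynomial.C f : D⟦X⟧[X]) = 0 := by
    refine Polynomial.eq_zero_of_natDegree_lt_card_of_eval_eq_zero _
      (f := fun j : Fin d => (σ ^ (j : ℕ)) X) (fun i j h => Fin.ext (hinj i i.2 j j.2 h))
      (fun j => ?_) ?_
    · have h4 := h2 j f hf
      rw [hg, map_sum] at h4
      simp only [map_mul, map_pow, h3] at h4
      rw [Polynomial.eval_sub, Polynomial.eval_C, Polynomial.eval_finsetSum, sub_eq_zero, hg, ← h4]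
      simp only [Polynomial.eval_monomial]
    · rw [Fintype.card_fin]
      refine (Polynomial.natDegree_sub_le _ _).trans_lt (max_lt ?_ (by simpa using hd))
      refine lt_of_le_of_lt (Polynomial.natDegree_sum_le_of_forall_le (n := d - 1) _ _
        fun i hi => (Polynomial.natDegree_monomial_le _).trans ?_) (by omega)
      have := mem_range.mp hi
      omega
  have h5 := congrArg (fun P : D⟦X⟧[X] => P.coeff 0) hP
  refine ⟨g 0, sub_eq_zero.mp ?_⟩
  simpa [Polynomial.coeff_monomial, hd] using h5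

end Pool.Agent.MP_deef5c_ag.O
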