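import Pool.Agent.MP_deef5c_ag.O.LauA
import Pool.Agent.MP_deef5c_ag.O.Qb

/-! Extension of maps to Laurent series. -/

open PowerSeries IsLocalRing Finset Function
open scoped Polynomial

namespace Pool.Agent.MP_deef5c_ag.O

universe u

open WithZero

variable {k : Type u} [Field k]

theorem Lau_ext {B : Type u} [Field B] {f g : LaurentSeries k →+* B}
    (h : ∀ a, f (lc k a) = g (lc k a)) : f = g :=
  IsLocalization.ringHom_ext (nonZeroDivisors k⟦X⟧) (RingHom.ext h)

theorem Lau_ex (z : LaurentSeries k) : ∃ (n : ℕ) (f : k⟦X⟧), z * lc k X ^ n = lc k f := by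
  obtain ⟨⟨f, _, n, rfl⟩, h⟩ := IsLocalization.surj (Submonoid.powers (X : k⟦X⟧)) z
  exact ⟨n, f, by rw [← map_pow]; exact h⟩

theorem Lau_ne {f : k⟦X⟧} (hf : f ≠ 0) : lc k f ≠ 0 :=
  (map_ne_zero_iff _ HahnSeries.ofPowerSeries_injective).2 hf

theorem Lau_inj {φ : En k} {d : ℕ} (hd : 0 < d) (hφ : order (φ X) = d) : Injective φ := by
  refine (injective_iff_map_eq_zero φ).2 fun f hf => ?_
  have := order_en φ d hd hφ f
  rw [hf, order_zero] at this
  by_contra h
  obtain ⟨n, hn⟩ := ENat.ne_top_iff_exists.1 (mt order_eq_top.1 h)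
  rw [← hn, ← Nat.cast_mul] at this
  exact ENat.top_ne_natCast _ this

theorem Lau_cc {x : k⟦X⟧} {d : ℕ} (hd : 0 < d) (hx : order x = d) : constantCoeff x = 0 := by
  rw [← coeff_zero_eq_constantCoeff_apply]
  exact coeff_of_lt_order 0 (by rw [hx]; exact_mod_cast hd)

theorem lext_lc {φ : En k} (hφ : Injective φ) (f : k⟦X⟧) : lext φ (lc k f) = lc k (φ f) := by
  have h : Injective ((lc k).comp (φ : k⟦X⟧ →+* k⟦X⟧)) :=
    HahnSeries.ofPowerSeries_injective.comp hφ
  rw [lext, dif_pos h]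
  exact IsFractionRing.lift_algebraMap h f

theorem lext_mul {φ ψ : En k} (hφ : Injective φ) (hψ : Injective ψ) (z : LaurentSeries k) :
    lext (φ * ψ) z = lext φ (lext ψ z) := by
  have h : lext (φ * ψ) = (lext φ).comp (lext ψ) := Lau_ext fun a => by
    rw [lext_lc (φ := φ * ψ) (hφ.comp hψ), RingHom.comp_apply, lext_lc hψ, lext_lc hφ]
    rfl
  rw [h]
  rfl

theorem lext_one (z : LaurentSeries k) : lext (1 : En k) z = z := by
  have h : lext (1 : En k) = RingHom.id _ := Lau_ext fun a => lext_lc (φ := 1) injective_id a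
  rw [h]
  rfl

theorem lext_pow {φ : En k} (hφ : Injective φ) (i : ℕ) : lext (φ ^ i) = lext φ ^ i := by
  induction i with
  | zero => exact RingHom.ext lext_one
  | succ i ih =>
    refine RingHom.ext fun z => ?_
    rw [pow_succ, pow_succ, lext_mul (by rw [AlgHom.coe_pow]; exact hφ.iterate i) hφ, ih]
    rfl

theorem lext_algebraMap {φ : En k} (hφ : Injective φ) (c : k) :
    lext φ (algebraMap k _ c) = algebraMap k _ c := by
  have h : algebraMap k (LaurentSeries k) c = lc k (algebraMap k _ c) := by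
    rw [LaurentSeries.algebraMap_apply]
    exact (PowerSeries.coe_C c).symm
  rw [h, lext_lc hφ, φ.commutes]

/-- from `order_en` -/
theorem vv_lext {φ : En k} {d : ℕ} (hd : 0 < d) (hφ : order (φ X) = d) (z : LaurentSeries k) :
    vv k (lext φ z) = vv k z ^ d := by
  have h : ∀ f, vv k (lext φ (lc k f)) = vv k (lc k f) ^ d := fun f => by
    rcases eq_or_ne f 0 with rfl | hf
    · simp [hd.ne']
    · obtain ⟨n, hn⟩ := ENat.ne_top_iff_exists.1 (mt order_eq_top.1 hf)
      rw [lext_lc (Lau_inj hd hφ), vv_lc_eq.2 hn.symm, (vv_lc_eq (d := d * n)).2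
        (by rw [order_en φ d hd hφ, ← hn, Nat.cast_mul]), ← exp_nsmul]
      simp
  obtain ⟨n, f, hz⟩ := Lau_ex z
  rw [eq_div_of_mul_eq (pow_ne_zero n (Lau_ne X_ne_zero)) hz, ← map_pow]
  simp only [map_div₀, h, div_pow]

/-- chain rule: `der_en` for power series, then the quotient rule -/
theorem th_lext {φ : En k} {d : ℕ} (hd : 0 < d) (hφ : order (φ X) = d) (z : LaurentSeries k) :
    th (lext φ z) * lc k (φ X) = lext φ (th z) * th (lc k (φ X)) := by
  have hi := Lau_inj hd hφ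
  have h : ∀ f, th (lext φ (lc k f)) * lc k (φ X) = lext φ (th (lc k f)) * th (lc k (φ X)) :=
    fun f => by
      rw [lext_lc hi, th_lc, th_lc, th_lc, lext_lc hi, der_en φ (by simp [Lau_cc hd hφ])]
      simp only [map_mul]
      ring
  obtain ⟨n, f, hz⟩ := Lau_ex z
  rw [← map_pow] at hz
  have h1 := h f
  rw [← hz, map_mul, th_mul, th_mul, map_add, map_mul, map_mul] at h1
  refine mul_left_cancel₀ ((map_ne_zero (lext φ)).2 (Lau_ne (pow_ne_zero n X_ne_zero))) ?_
  linear_combination h1 - lext φ z * h (X ^ n)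

theorem lmap_lc {Ω : Type u} [Field Ω] (φ : k →+* Ω) (f : k⟦X⟧) :
    lmap φ (lc k f) = lc Ω (PowerSeries.map φ f) := by
  exact IsFractionRing.lift_algebraMap (lmap_inj φ) f

theorem coeff_lmap {Ω : Type u} [Field Ω] (φ : k →+* Ω) (z : LaurentSeries k) (a : ℤ) :
    (lmap φ z).coeff a = φ (z.coeff a) := by
  obtain ⟨n, f, hz⟩ := Lau_ex z
  have h1 := congrArg (lmap φ) hz
  rw [map_mul, map_pow, lmap_lc, lmap_lc, map_X] at h1
  have h2 := congrArg (fun y => y.coeff (a + n)) hz
  have h3 := congrArg (fun y => y.coeff (a + n)) h1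
  simp only [HahnSeries.ofPowerSeries_X, HahnSeries.single_pow, one_pow, nsmul_eq_mul, mul_one,
    HahnSeries.coeff_mul_single_add, PowerSeries.coeff_coe] at h2 h3
  rw [h2, h3]
  split_ifs <;> simp

theorem vv_lmap {Ω : Type u} [Field Ω] (φ : k →+* Ω) (z : LaurentSeries k) :
    vv Ω (lmap φ z) = vv k z := by
  rcases eq_or_ne z 0 with rfl | hz
  · simp
  · have h := (exp_log ((map_ne_zero (vv k)).2 hz)).symm
    rw [h, vv_eq_iff]
    simpa only [coeff_lmap, ne_eq, _root_.map_eq_zero] using vv_eq_iff.1 h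

theorem th_lmap {Ω : Type u} [Field Ω] (φ : k →+* Ω) (z : LaurentSeries k) :
    th (lmap φ z) = lmap φ (th z) := by
  ext a
  rw [coeff_th, coeff_lmap, coeff_lmap, coeff_th, map_mul, map_intCast]

/-- invariant Laurent series: clear denominators with a power of `x` and use `qinv` -/
theorem linv (x : k⟦X⟧) (d : ℕ) (hd : 0 < d) (hx : order x = d) (σ : En k) (hi : Injective σ)
    (hσ : σ x = x) (hinj : ∀ i < d, ∀ j < d, (σ ^ i) X = (σ ^ j) X → i = j)
    (z : LaurentSeries k) (hz : lext σ z = z) : ∃ y, lext (sub x) y = z := by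
  have h0 := Lau_cc hd hx
  have hx' : order (PowerSeries.map (RingHom.id k) x) = d := by simpa using hx
  have hs := sub_injective (RingHom.id k) surjective_id x d hd hx'
  obtain ⟨w, hw⟩ := X_dvd_iff.2 h0
  obtain ⟨n, f, h1⟩ := Lau_ex z
  have h2 : z * lc k x ^ n = lc k (f * w ^ n) := by
    rw [hw, map_mul, mul_pow, ← mul_assoc, h1, map_mul, map_pow]
  obtain ⟨g, hg⟩ := qinv (RingHom.id k) surjective_id x d hd hx' σ hσ hinj (f * w ^ n)
    (HahnSeries.ofPowerSeries_injective (Γ := ℤ) (by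
      rw [← lext_lc hi, ← h2, map_mul, map_pow, hz, lext_lc hi, hσ]))
  have h3 : x ≠ 0 := fun h => by simp [h] at hx
  refine ⟨lc k g / lc k X ^ n, ?_⟩
  rw [map_div₀, map_pow, lext_lc hs, lext_lc hs, sub_X (by simp [h0]), hg, ← h2,
    mul_div_cancel_right₀ _ (pow_ne_zero n (Lau_ne h3))]

end Pool.Agent.MP_deef5c_ag.O
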