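import Pool.Agent.MP_deef5c_ag.O.GStm
import Pool.Agent.MP_deef5c_ag.O.Stm
import Pool.Agent.MP_deef5c_ag.O.Lau
import Pool.Agent.MP_deef5c_ag.Red

/-! Definitions for the passage from local to global lifts. -/

open CategoryTheory AlgebraicGeometry IsLocalRing Function
open scoped Polynomial PowerSeries

namespace Pool.Agent.MP_deef5c_ag.O

universe u

section Algebra

variable {k A K K' : Type u} [Field k] [CommRing A] [IsLocalRing A] [Field K] [Algebra k K]
  [CommRing K'] [Algebra A K']

/-- `K'` is the unramified lift to `A(f')` of the finite separable extension `K / k(f)` -/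
structure KL (π : A →+* k) (red : K' →+* K) (f : K) (f' : K') : Prop where
  flat : Module.Flat A K'
  surj : Surjective red
  ker : RingHom.ker red = (maximalIdeal A).map (algebraMap A K')
  alg : ∀ a, red (algebraMap A K' a) = algebraMap k K (π a)
  hf : red f' = f
  ex : ∀ (L' L : Type u) [CommRing L'] [Algebra A L'] [CommRing L] (r : L' →+* L), Surjective r →
    (∀ a, r a = 0 → IsNilpotent a) → ∀ j : K →+* L,
    (∀ a, r (algebraMap A L' a) = j (algebraMap k K (π a))) → ∀ F, r F = j f →
    ∃ e : K' →ₐ[A] L', (∀ b, r (e b) = j (red b)) ∧ e f' = F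
  uniq : ∀ (L' L : Type u) [CommRing L'] [Algebra A L'] [CommRing L] (r : L' →+* L),
    (∀ a, r a = 0 → IsNilpotent a) → ∀ e₁ e₂ : K' →ₐ[A] L', (∀ b, r (e₁ b) = r (e₂ b)) →
    e₁ f' = e₂ f' → e₁ = e₂
  fin : ∀ b' : K', ∃ Z : Finset K, ∀ S : Subalgebra A K', f' ∈ S →
    (∀ z ∈ Z, ∃ s ∈ S, red s = z) → b' ∈ S

/-- `j` embeds `K` in the completion at the valuation ring `O`, with uniformiser `t` -/
structure CP (O : Subring K) (j : K →+* LaurentSeries k) (t : K) : Prop where
  alg : ∀ c, j (algebraMap k K c) = algebraMap k _ c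
  mem : ∀ b, b ∈ O ↔ vv k (j b) ≤ 1
  uni : j t = lc k PowerSeries.X

/-- `O'` is a flat model of `O` -/
structure PM (red : K' →+* K) (O : Subring K) (f : K) (f' : K') (O' : Subalgebra A K') : Prop where
  mem : ∀ b, b ∈ O ↔ ∃ b' ∈ O', red b' = b
  flat : Module.Flat A (K' ⧸ Subalgebra.toSubmodule O')
  hf : f ∈ O → f' ∈ O'

/-- a right action by ring endomorphisms -/
structure RA {G R : Type*} [Group G] (T : G → R → R) : Prop where
  one : ∀ b, T 1 b = b
  mul : ∀ g h b, T (g * h) b = T h (T g b)

/-- the local action read on power series -/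
def LA {H : Type*} [Group H] (T : H → K →+* K) (j : K →+* LaurentSeries k)
    (ρx : H →* (k⟦X⟧ ≃ₐ[k] k⟦X⟧)) : Prop :=
  Injective ρx ∧ ∀ h b g, j b = lc k g → j (T h⁻¹ b) = lc k (ρx h g)

/-- the vanishing of the obstruction for a local action -/
def LC (p : ℕ) {H : Type*} [Group H] (ρx : H →* (k⟦X⟧ ≃ₐ[k] k⟦X⟧)) : Prop :=
  IsCyclic H ∨ ∀ σ : H, orderOf σ = ordProj[p] (Nat.card H) →
    ((ordCompl[p] (Nat.card H) : ℕ) : ℕ∞) ∣ (ρx σ PowerSeries.X - PowerSeries.X).order

end Algebra

/-- local domains finite over the Witt vectors, of characteristic zero -/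
structure FW (p : ℕ) [Fact p.Prime] {k : Type u} [Field k] {R : Type u} [CommRing R]
    [Algebra (WittVector p k) R] (π : R →+* k) : Prop where
  dom : IsDomain R
  fin : Module.Finite (WittVector p k) R
  alg : ∀ w, π (algebraMap (WittVector p k) R w) = w.coeff 0
  ne : (p : R) ≠ 0

section Scheme

variable {k : Type u} [Field k] {X : Scheme.{u}} [IsIntegral X]

/-- the structure map of the function field -/
noncomputable def fa (f : X ⟶ Spec (.of k)) : k →+* X.functionField :=
  (strMap f (genericPoint X)).hom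

/-- the local ring at `x` inside the function field -/
noncomputable def Ox (x : X) : Subring X.functionField :=
  (algebraMap (X.presheaf.stalk x) X.functionField).range

theorem aut_generic (e : Aut X) : e.hom (genericPoint X) = genericPoint X :=
  genericPoint_eq_of_isOpenImmersion e.hom

/-- pull-back of rational functions -/
noncomputable def fT (e : Aut X) : X.functionField →+* X.functionField :=
  (locMap e.hom (genericPoint X) (aut_generic e)).hom

/-- the vanishing of the obstruction at a point -/
def GC (p : ℕ) {G : Type*} [Group G] (ρ : G →* Aut X) (x : X) : Prop :=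
  IsCyclic (stab ρ x) ∨ ∀ σ : stab ρ x, orderOf σ = ordProj[p] (Nat.card (stab ρ x)) → ∀ d : ℕ,
    Ideal.span (Set.range fun y => (locMap (ρ σ).hom x σ.2).hom y - y) =
      maximalIdeal (X.presheaf.stalk x) ^ d → ordCompl[p] (Nat.card (stab ρ x)) ∣ d

end Scheme

end Pool.Agent.MP_deef5c_ag.O
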