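import Pool.Agent.MP_deef5c_ag.O.GrpA

/-! The structure of a finite group of automorphisms of a power series ring. -/

open PowerSeries IsLocalRing Finset Function
open scoped Polynomial

namespace Pool.Agent.MP_deef5c_ag.O

universe u

variable {k : Type u} [Field k] (p : ℕ) [Fact p.Prime] [CharP k p] {G : Type*} [Group G] [Finite G]

theorem Grp_pure (χ : G →* k) (hker : ∀ (g : G) (l : ℕ), χ g = 1 → g ^ l = 1 → ¬ p ∣ l → g = 1)
    (σ₀ : G) (hσ : orderOf σ₀ = ordProj[p] (Nat.card G)) : ∃ (τ₀ : G) (α : ℕ),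
      τ₀ ^ ordCompl[p] (Nat.card G) = 1 ∧ τ₀ * σ₀ = σ₀ ^ α * τ₀ ∧
      IsPrimitiveRoot (χ τ₀) (ordCompl[p] (Nat.card G)) ∧
      (∀ g : G, ∃ i j : ℕ, g = σ₀ ^ i * τ₀ ^ j) ∧ (IsCyclic G → α = 1) := by
  have hp : p.Prime := Fact.out
  have hN : Nat.card G ≠ 0 := Nat.card_pos.ne'
  have hqm := Nat.ordProj_mul_ordCompl_eq_self (Nat.card G) p
  have hfr : ∀ (x : k) (a : ℕ), x ^ p ^ a = 1 → x = 1 := fun x a h => by
    have := (ExpChar.pow_prime_pow_mul_eq_one_iff p a 1 x).1 (by rwa [mul_one])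
    rwa [pow_one] at this
  have hmem : ∀ g, g ∈ χ.toHomUnits.ker ↔ χ g = 1 := fun g => by
    rw [MonoidHom.mem_ker, Units.ext_iff]
    rfl
  have hall : ∀ g : G, (g ^ ordProj[p] (Nat.card G)) ^ ordCompl[p] (Nat.card G) = 1 := fun g => by
    rw [← pow_mul, hqm, pow_card_eq_one']
  have hK : IsPGroup p χ.toHomUnits.ker := fun g =>
    ⟨(Nat.card G).factorization p, Subtype.ext (hker _ _
      (by rw [Subgroup.coe_pow, map_pow, (hmem g).1 g.2, one_pow]) (hall g)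
      (Nat.not_dvd_ordCompl hp hN))⟩
  obtain ⟨b, hb⟩ := IsPGroup.iff_card.1 hK
  have hc := χ.toHomUnits.ker.card_mul_index
  rw [Subgroup.index_ker, hb] at hc
  have : Finite χ.toHomUnits.range :=
    Finite.of_surjective _ χ.toHomUnits.rangeRestrict_surjective
  have hR : ¬ p ∣ Nat.card χ.toHomUnits.range := fun h => by
    obtain ⟨x, hx⟩ := exists_prime_orderOf_dvd_card' p h
    have h1 : ((x : kˣ) : k) ^ p ^ 1 = 1 := by
      rw [pow_one, ← Units.val_pow_eq_pow_val, ← Subgroup.coe_pow, ← hx, pow_orderOf_eq_one]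
      rfl
    have h2 : x = 1 := Subtype.ext (Units.ext (hfr _ _ h1))
    rw [h2, orderOf_one] at hx
    exact hp.one_lt.ne hx
  have hm : ordCompl[p] (Nat.card G) = Nat.card χ.toHomUnits.range := by
    rw [← hc]
    exact Nat.ordCompl_pow_mul_of_not_dvd b hp hR
  have hm0 : 0 < ordCompl[p] (Nat.card G) := Nat.ordCompl_pos p hN
  have hq : ordProj[p] (Nat.card G) = p ^ b :=
    Nat.eq_of_mul_eq_mul_right hm0 (by rw [hqm, hm, hc])
  have hz : Subgroup.zpowers σ₀ = χ.toHomUnits.ker := by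
    refine Subgroup.eq_of_le_of_card_ge (Subgroup.zpowers_le.2 ((hmem _).2 (hfr _ b ?_))) ?_
    · rw [← map_pow, ← hq, ← hσ, pow_orderOf_eq_one, map_one]
    · rw [Nat.card_zpowers, hσ, hq, hb]
  have hpow : ∀ g, χ g = 1 → ∃ i : ℕ, σ₀ ^ i = g := fun g hg =>
    mem_powers_iff_mem_zpowers.2 (hz ▸ (hmem g).2 hg)
  obtain ⟨⟨_, g, rfl⟩, hg⟩ := IsCyclic.exists_ofOrder_eq_natCard (α := χ.toHomUnits.range)
  have h1 : IsPrimitiveRoot (χ g) (ordCompl[p] (Nat.card G)) := by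
    rw [hm, ← hg, ← Subgroup.orderOf_coe, ← orderOf_units]
    exact IsPrimitiveRoot.orderOf _
  have h2 : IsPrimitiveRoot (χ (g ^ ordProj[p] (Nat.card G))) (ordCompl[p] (Nat.card G)) := by
    rw [map_pow]
    exact h1.pow_of_coprime _ ((Nat.coprime_ordCompl hp hN).pow_left _)
  have h3 : ∀ x : G, ∃ i j : ℕ, x = σ₀ ^ i * (g ^ ordProj[p] (Nat.card G)) ^ j := fun x => by
    have : NeZero (ordCompl[p] (Nat.card G)) := ⟨hm0.ne'⟩
    have h4 : χ x ^ ordCompl[p] (Nat.card G) = 1 := by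
      have h5 := pow_card_eq_one' (x := χ.toHomUnits.rangeRestrict x)
      rw [← hm] at h5
      exact congrArg (fun y : χ.toHomUnits.range => ((y : kˣ) : k)) h5
    obtain ⟨j, -, hj⟩ := h2.eq_pow_of_pow_eq_one h4
    obtain ⟨i, hi⟩ := hpow (x * ((g ^ ordProj[p] (Nat.card G)) ^ j)⁻¹) (by
      rw [map_mul, ← hj, ← map_pow, ← map_mul, mul_inv_cancel, map_one])
    exact ⟨i, j, by rw [hi, inv_mul_cancel_right]⟩
  by_cases hcy : IsCyclic G
  · exact ⟨_, 1, hall g, by rw [pow_one]; exact hcy.isMulCommutative.is_comm.comm _ _, h2, h3,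
      fun _ => rfl⟩
  · obtain ⟨α, hα⟩ := hpow _ ((hmem _).1 (χ.toHomUnits.normal_ker.conj_mem σ₀
      (hz ▸ Subgroup.mem_zpowers σ₀) (g ^ ordProj[p] (Nat.card G))))
    exact ⟨_, α, hall g, by rw [hα, inv_mul_cancel_right], h2, h3, fun h => absurd h hcy⟩

omit [Fact p.Prime] in
theorem Grp_ker {σ : En k} (h0 : constantCoeff (σ X) = 0) (h1 : coeff 1 (σ X) = 1) {l : ℕ}
    (hl : σ ^ l = 1) (hp : ¬ p ∣ l) : σ = 1 := by
  by_contra hne
  have h2 : σ X - X ≠ 0 := fun h =>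
    hne (en_ext (sub_eq_zero.1 h) (by rw [h0]; exact zero_mem _))
  have h3 := coeff_order h2
  have h4 : ((order (σ X - X)).toNat : ℕ∞) = order (σ X - X) := coe_toNat_order h2
  generalize (order (σ X - X)).toNat = n at h3 h4
  match n with
  | 0 => exact h3 (by simp [h0])
  | 1 => exact h3 (by simp [h1])
  | n + 2 =>
    have h5 := (lead_pow (σ := σ) (l := n + 1) n.succ_pos h4.le l).2
    rw [hl, AlgHom.one_apply, sub_self, map_zero] at h5
    exact hp ((CharP.cast_eq_zero_iff k p l).1 ((mul_eq_zero.1 h5.symm).resolve_right h3))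

/-- `χ g = coeff 1 (ρ g X)` is a character (`coeff_one_mul`, `order_one`).  An element of `ker χ` of prime
order `ℓ` has `ℓ = 0` in `k` (`lead_pow`), so `P = ker χ` is a `p`-group; the image of `χ` is a finite
subgroup of `kˣ`, cyclic of order `m` prime to `p`; so `P` is a normal Sylow subgroup, cyclic, and
contains every element of `p`-power order.  For `g` with `χ g` a generator, `τ₀ = g^(p^a)` with
`p^a = ordProj[p] (orderOf g)` has `τ₀^m ∈ P` of order prime to `p`.  If `G` is cyclic take `α = 1`. -/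
theorem grp (hG : ∀ P : Sylow p G, IsCyclic P) (ρ : G →* (k⟦X⟧ ≃ₐ[k] k⟦X⟧)) (hρ : Injective ρ) :
    (∃ σ₀ : G, orderOf σ₀ = ordProj[p] (Nat.card G)) ∧
    ∀ σ₀ : G, orderOf σ₀ = ordProj[p] (Nat.card G) → ∃ (τ₀ : G) (α : ℕ),
      τ₀ ^ ordCompl[p] (Nat.card G) = 1 ∧ τ₀ * σ₀ = σ₀ ^ α * τ₀ ∧
      IsPrimitiveRoot (coeff 1 (ρ τ₀ X)) (ordCompl[p] (Nat.card G)) ∧
      (∀ g : G, ∃ i j : ℕ, g = σ₀ ^ i * τ₀ ^ j) ∧ (IsCyclic G → α = 1) := by
  refine ⟨?_, fun σ₀ hσ => ?_⟩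
  · obtain ⟨P⟩ : Nonempty (Sylow p G) := inferInstance
    obtain ⟨x, hx⟩ := (hG P).exists_ofOrder_eq_natCard
    exact ⟨x, by rw [Subgroup.orderOf_coe, hx, P.card_eq_multiplicity]⟩
  let ρ' : G →* En k :=
    { toFun := fun g => (ρ g : En k)
      map_one' := by rw [map_one]; rfl
      map_mul' := fun a b => by rw [map_mul]; rfl }
  have h0 : ∀ g, constantCoeff (ρ' g X) = 0 := fun g => by
    have h1 := order_one (σ := ρ' g) (Nat.card_pos (α := G))
      (by rw [← map_pow, pow_card_eq_one', map_one])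
    rw [← coeff_zero_eq_constantCoeff_apply]
    exact coeff_of_lt_order 0 (by rw [h1]; exact zero_lt_one)
  let χ : G →* k :=
    { toFun := fun g => coeff 1 (ρ' g X)
      map_one' := by rw [map_one, AlgHom.one_apply, coeff_one_X]
      map_mul' := fun a b => by rw [map_mul, coeff_one_mul (h0 a) (h0 b)] }
  refine Grp_pure p χ (fun g l h1 h2 h3 => hρ ?_) σ₀ hσ
  have h4 := Grp_ker p (h0 g) h1 (by rw [← map_pow, h2, map_one]) h3
  rw [map_one]
  exact AlgEquiv.ext fun f => DFunLike.congr_fun h4 f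

end Pool.Agent.MP_deef5c_ag.O
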