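import Pool.Agent.MP_deef5c_ag.O.Grp
import Pool.Agent.MP_deef5c_ag.O.Stm
import Pool.Agent.MP_deef5c_ag.Wt

/-! A lift beyond characteristic p forces the obstruction to vanish. -/

open PowerSeries IsLocalRing Finset Function
open scoped Polynomial

namespace Pool.Agent.MP_deef5c_ag.O

universe u

theorem TwoThree_flat (A : Type u) [CommRing A] [IsNoetherianRing A] : Module.Flat A A⟦X⟧ := by
  have h1 : Module.Flat (MvPolynomial Unit A) (MvPowerSeries Unit A) :=
    .of_linearEquiv (MvPowerSeries.toAdicCompletionAlgEquiv Unit A).toLinearEquiv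
  exact Module.Flat.trans A (MvPolynomial Unit A) (MvPowerSeries Unit A)

theorem TwoThree_setup {k : Type u} [Field k] (A : Type u) [CommRing A] [IsLocalRing A]
    [IsNoetherianRing A] (π : A →+* k) (hπ : Surjective π) :
    Setup A (PowerSeries.map π) (X : A⟦X⟧) where
  surj := PowerSeries.map_surjective π hπ
  ker := by
    refine le_antisymm (fun f hf => ?_) (Ideal.map_le_iff_le_comap.2 fun a ha => ?_)
    · have hf' : ∀ a, coeff a f ∈ maximalIdeal A := fun a => by
        rw [← pi_eq_zero_iff π hπ, ← coeff_map, RingHom.mem_ker.1 hf, map_zero]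
      obtain ⟨n, s, hs⟩ := Submodule.fg_iff_exists_fin_generating_family.1
        (IsNoetherian.noetherian (maximalIdeal A))
      have h1 : ∀ a, ∃ c : Fin n → A, ∑ i, c i • s i = coeff a f := fun a =>
        (Submodule.mem_span_range_iff_exists_fun A).1 (hs ▸ hf' a)
      choose c hc using h1
      have h2 : f = ∑ i, C (s i) * PowerSeries.mk fun a => c a i := by
        ext a
        rw [map_sum, ← hc a]
        exact sum_congr rfl fun i _ => by rw [coeff_C_mul, coeff_mk, smul_eq_mul, mul_comm]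
      rw [h2]
      exact sum_mem fun i _ => Ideal.mul_mem_right _ _
        (Ideal.mem_map_of_mem _ (hs ▸ Submodule.subset_span ⟨i, rfl⟩))
    · change PowerSeries.map π (C a) = 0
      rw [map_C, (pi_eq_zero_iff π hπ a).2 ha, map_zero]
  ne := by
    rw [map_X]
    exact X_ne_zero
  nu := by
    rw [map_X]
    exact X_prime.not_isUnit
  res := fun y => by
    obtain ⟨a, ha⟩ := hπ (constantCoeff y)
    refine ⟨a, ?_⟩
    change _ ∣ y - PowerSeries.map π (C a)
    rw [map_X, map_C, X_dvd_iff, map_sub, constantCoeff_C, ha, sub_self]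
  pw := fun y hy => by
    have hu : IsUnit (divXPowOrder y) := by
      rw [isUnit_iff_constantCoeff, isUnit_iff_ne_zero]
      exact fun h => hy (constantCoeff_divXPowOrder_eq_zero_iff.1 h)
    refine ⟨(order y).toNat, ?_⟩
    rw [map_X]
    conv_lhs => rw [← X_pow_order_mul_divXPowOrder (f := y)]
    exact associated_mul_unit_left _ _ hu

theorem TwoThree_add {G K : Type*} [Group G] [CommRing K] (φ : G → K)
    (h : ∀ g g', φ (g * g') = φ g + φ g') (g : G) (i : ℕ) : φ (g ^ i) = i * φ g := by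
  induction i with
  | zero =>
    have := h 1 1
    rw [mul_one, left_eq_add] at this
    rw [pow_zero, this, Nat.cast_zero, zero_mul]
  | succ i ih => rw [pow_succ, h, ih, Nat.cast_succ, add_one_mul]

variable {k : Type u} [Field k] (p : ℕ) [Fact p.Prime] [CharP k p] {G : Type*} [Group G] [Finite G]

/-- Suppose `G` is not cyclic and `m ∤ order (ρ σ₀ X - X) = l + 1`; with `τ₀, α, ζ` from `grp`,
`ζ^(l+1) = α ζ ≠ 1` (`lead`), and `ζ ≠ 1`.  Apply `Act.main_wt` (file `Wt.lean`, structures `Setup` in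
`Div.lean` and `Act` in `Alg.lean`) with `B = A⟦X⟧`, `ψ = map π`, `t = X`, `T g = ρ' g⁻¹`, `H = G`,
`P = zpowers σ₀`, `γ = τ₀`, `c` a lift of `ζ⁻¹`: an additive `φ` has
`α φ σ₀ = φ (τ₀ σ₀ τ₀⁻¹) = ζ⁻¹ φ σ₀`.  `A⟦X⟧` is flat over the Noetherian ring `A`
(`AdicCompletion.flat_of_isNoetherian` with `MvPowerSeries.toAdicCompletionAlgEquiv`, or as a
product of copies of `A`), and `ker (map π) = m A⟦X⟧` because `m` is finitely generated. -/
theorem two_three (hG : ∀ P : Sylow p G, IsCyclic P) (ρ : G →* (k⟦X⟧ ≃ₐ[k] k⟦X⟧))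
    (hρ : Injective ρ) (A : Type u) [CommRing A] [IsLocalRing A] [IsArtinianRing A] (π : A →+* k)
    (hπ : Surjective π) (hp : (p : A) ≠ 0) (h : LocLifts ρ π) :
    IsCyclic G ∨ ∀ σ : G, orderOf σ = ordProj[p] (Nat.card G) →
      ((ordCompl[p] (Nat.card G) : ℕ) : ℕ∞) ∣ order (ρ σ X - X) := by
  by_contra hh
  push Not at hh
  obtain ⟨hcy, σ₀, hσ₀, hnd⟩ := hh
  obtain ⟨τ₀, α, hτm, hrel, hprim, hgen, -⟩ := (grp p hG ρ hρ).2 σ₀ hσ₀
  generalize ordCompl[p] (Nat.card G) = m at *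
  generalize (Nat.card G).factorization p = n at *
  obtain ⟨ρ', hρ'⟩ := h
  let r : G →* En k := (Units.coeHom _).comp
    ((AlgEquiv.algHomUnitsEquiv k k⟦X⟧).symm.toMonoidHom.comp ρ)
  have hr : ∀ g f, r g f = ρ g f := fun _ _ => rfl
  have hri : Injective r := fun a b e => hρ (AlgEquiv.ext fun f => DFunLike.congr_fun e f)
  have h0 : ∀ g, constantCoeff (r g X) = 0 := fun g => (GrpA_order.1
    (order_one (Nat.card_pos (α := G)) (by rw [← map_pow, pow_card_eq_one', map_one]))).1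
  have hne : r σ₀ ≠ 1 := fun e => hcy ⟨τ₀, fun g => by
    obtain ⟨i, j, rfl⟩ := hgen g
    exact ⟨j, by simp [(map_eq_one_iff r hri).1 e]⟩⟩
  obtain ⟨l, hl, ho⟩ := exists_jump p n
    (by rw [← map_pow, ← hσ₀, pow_orderOf_eq_one, map_one]) hne
  have h3 := lead hl ho (h0 τ₀) (α := α) (by rw [← map_pow, ← map_mul, ← map_mul, hrel])
  have h4 := coeff_one_mul (h0 τ₀) (h0 τ₀⁻¹)
  rw [← map_mul, mul_inv_cancel, map_one, AlgHom.one_apply, coeff_one_X] at h4
  rw [← hr] at hprim hnd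
  generalize coeff 1 (r τ₀ X) = ζ at *
  have h5 : ζ ^ (l + 1) ≠ 1 := fun e => hnd (by
    rw [ho]
    exact Nat.cast_dvd_cast ((hprim.pow_eq_one_iff_dvd _).1 e))
  obtain ⟨c, hc⟩ := hπ (coeff 1 (r τ₀⁻¹ X))
  rw [← hc] at h4
  have hunit : ∀ a : A, π a ≠ 0 → IsUnit a := fun a ha => by
    by_contra hu
    exact ha ((pi_eq_zero_iff π hπ a).2 hu)
  have S := TwoThree_setup A π hπ
  have := TwoThree_flat A
  let T : G → A⟦X⟧ →ₐ[A] A⟦X⟧ := fun g => (ρ' g⁻¹ : A⟦X⟧ ≃ₐ[A] A⟦X⟧)
  have hT : ∀ g, PowerSeries.map π (T g X) = r g⁻¹ X := fun g => by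
    rw [hr, ← map_X π, ← hρ']
    rfl
  have hne' : ∀ g, g ≠ 1 → PowerSeries.map π (T g X - X) ≠ 0 := fun g hg e => by
    rw [map_sub, hT, map_X, sub_eq_zero] at e
    have e1 : r g⁻¹ = 1 := en_ext e (GrpA_mem.2 (h0 _))
    exact hg (inv_eq_one.1 ((map_eq_one_iff r hri).1 e1))
  have hone : ∀ b, T 1 b = b := fun b => by
    change ρ' 1⁻¹ b = b
    rw [inv_one, map_one, AlgEquiv.one_apply]
  have hact : Act (PowerSeries.map π) X T :=
    ⟨hone, fun g g' b => by
      change ρ' (g * g')⁻¹ b = ρ' g'⁻¹ (ρ' g⁻¹ b)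
      rw [mul_inv_rev, map_mul, AlgEquiv.mul_apply],
    fun g => (eq_or_ne g 1).symm.imp (hne' g) (by rintro rfl; exact hone),
    fun g => by rw [hT, map_X, X_dvd_iff, h0]⟩
  refine hp (hact.main_wt S hne' hcy (Subgroup.zpowers σ₀) τ₀ ?_ (fun g hg => ?_) c ?_ ?_
    (fun φ hφ1 hφ2 g => ?_) p (unit_of_prime_ne hπ p))
  · rw [eq_top_iff]
    rintro g -
    obtain ⟨i, j, rfl⟩ := hgen g
    exact mul_mem (pow_mem (Subgroup.subset_closure
      (Set.mem_insert_of_mem _ (Subgroup.mem_zpowers σ₀))) i)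
      (pow_mem (Subgroup.subset_closure (Set.mem_insert _ _)) j)
  · obtain ⟨i, hi⟩ := mem_powers_iff_mem_zpowers.2 (inv_mem hg)
    rw [map_sub, hT, map_X, ← hi, map_pow, X_pow_dvd_iff]
    intro j hj
    refine coeff_of_lt_order j (lt_of_lt_of_le ?_ (lead_pow hl ho.ge i).1)
    exact_mod_cast (by omega : j < l + 1)
  · change _ ∣ _ - PowerSeries.map π (C c) * _
    rw [hT, map_X, map_C, X_pow_dvd_iff]
    intro j hj
    obtain rfl | rfl : j = 0 ∨ j = 1 := by omega
    · rw [coeff_zero_eq_constantCoeff_apply, map_sub, h0, map_mul, constantCoeff_X, mul_zero,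
        sub_zero]
    · rw [map_sub, coeff_C_mul, coeff_one_X, mul_one, hc, sub_self]
  · refine hunit _ fun e => h5 ?_
    rw [map_sub, map_one, sub_eq_zero] at e
    rw [e, mul_one] at h4
    rw [← h4, one_pow]
  · have hu : IsUnit ((α : A) - c) := hunit _ fun e => h5 (by
      rw [map_sub, map_natCast, sub_eq_zero] at e
      rw [h3, e, mul_comm, ← h4])
    let s : Subgroup.zpowers σ₀ := ⟨σ₀, Subgroup.mem_zpowers σ₀⟩
    have e1 := hφ2 s (s ^ α) (eq_mul_inv_of_mul_eq hrel.symm)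
    rw [TwoThree_add φ hφ1, ← sub_eq_zero, ← sub_mul, ← map_natCast (residue A), ← map_sub,
      (hu.map (residue A)).mul_right_eq_zero] at e1
    obtain ⟨i, hi⟩ := mem_powers_iff_mem_zpowers.2 g.2
    have e2 : g = s ^ i := Subtype.ext hi.symm
    rw [e2, TwoThree_add φ hφ1, e1, mul_zero]

end Pool.Agent.MP_deef5c_ag.O
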