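import Pool.Agent.MP_deef5c_ag.O.GPt
import Pool.Agent.MP_deef5c_ag.O.Grp
import Pool.Agent.MP_deef5c_ag.O.TwoThree
import Pool.Agent.Results.MP_deef5c_ag.WeightObstruction

/-! The obstruction at a point of a curve. -/

open CategoryTheory AlgebraicGeometry IsLocalRing Function
open scoped Polynomial PowerSeries

namespace Pool.Agent.MP_deef5c_ag.O

universe u

section GTwoAlg

open PowerSeries

variable {k : Type u} [Field k] {R : Type*} [CommRing R] [IsLocalRing R] {J : R →+* k⟦X⟧} {t : R}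

theorem GTwo_max (hJ : ∀ a b, J a ∣ J b → a ∣ b) (ht : J t = X) :
    maximalIdeal R = Ideal.span {t} := by
  ext y
  rw [mem_maximalIdeal, mem_nonunits_iff, Ideal.mem_span_singleton]
  constructor
  · intro hy
    refine hJ _ _ ?_
    rw [ht, X_dvd_iff]
    by_contra h
    refine hy (isUnit_of_dvd_one (hJ _ _ ?_))
    exact (isUnit_iff_constantCoeff.2 (IsUnit.mk0 _ h)).dvd
  · intro hy hu
    have := (isUnit_of_dvd_unit hy hu).map J
    rw [ht] at this
    exact X_prime.not_isUnit this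

theorem GTwo_mem (hJ : ∀ a b, J a ∣ J b → a ∣ b) (ht : J t = X) (d : ℕ) (y : R) :
    y ∈ maximalIdeal R ^ d ↔ X ^ d ∣ J y := by
  rw [GTwo_max hJ ht, Ideal.span_singleton_pow, Ideal.mem_span_singleton, ← ht, ← map_pow]
  exact ⟨fun h => map_dvd J h, hJ _ _⟩

theorem GTwo_dvd {σ : En k} (h0 : constantCoeff (σ X) = 0) (g : k⟦X⟧) : σ X - X ∣ σ g - g :=
  sub_dvd σ 1 (GrpA_mem.2 h0) (GrpA_mem.2 constantCoeff_X) g

theorem GTwo_span (hJ : ∀ a b, J a ∣ J b → a ∣ b) (ht : J t = X) {L : R →+* R} {σ : En k}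
    (h0 : constantCoeff (σ X) = 0) (hL : ∀ y, J (L y) = σ (J y)) (d : ℕ) :
    Ideal.span (Set.range fun y => L y - y) = maximalIdeal R ^ d ↔ order (σ X - X) = d := by
  have ha : J (L t - t) = σ X - X := by rw [map_sub, hL, ht]
  have h1 : Ideal.span (Set.range fun y => L y - y) = Ideal.span {L t - t} := by
    refine le_antisymm (Ideal.span_le.2 ?_) (Ideal.span_mono ?_)
    · rintro _ ⟨y, rfl⟩
      refine Ideal.mem_span_singleton.2 (hJ _ _ ?_)
      rw [ha, map_sub, hL]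
      exact GTwo_dvd h0 _
    · rintro _ rfl
      exact ⟨t, rfl⟩
  have hb : J (t ^ d) = X ^ d := by rw [map_pow, ht]
  rw [h1, GTwo_max hJ ht, Ideal.span_singleton_pow, le_antisymm_iff,
    Ideal.span_singleton_le_span_singleton, Ideal.span_singleton_le_span_singleton]
  constructor
  · rintro ⟨h2, h3⟩
    have h4 := GrpA_le (map_dvd J h2)
    have h5 := GrpA_le (map_dvd J h3)
    rw [ha, hb, order_X_pow] at h4 h5
    exact le_antisymm h5 h4
  · intro h
    have hy : σ X - X ≠ 0 := fun e => by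
      rw [e, order_zero] at h
      exact ENat.top_ne_natCast _ h
    have hu : IsUnit (divXPowOrder (σ X - X)) := by
      rw [isUnit_iff_constantCoeff, isUnit_iff_ne_zero]
      exact fun h => hy (constantCoeff_divXPowOrder_eq_zero_iff.1 h)
    have h2 := X_pow_order_mul_divXPowOrder (f := σ X - X)
    rw [h, ENat.toNat_natCast] at h2
    have h3 := associated_mul_unit_left (X ^ d) _ hu
    rw [h2] at h3
    exact ⟨hJ _ _ (by rw [ha, hb]; exact h3.symm.dvd), hJ _ _ (by rw [ha, hb]; exact h3.dvd)⟩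

theorem GTwo_lin (hJ : ∀ a b, J a ∣ J b → a ∣ b) (ht : J t = X) {L : R →+* R} {σ : En k}
    (h0 : constantCoeff (σ X) = 0) (hL : ∀ y, J (L y) = σ (J y)) {c : R}
    (hc : J c = C (coeff 1 (σ X))) : ∀ y ∈ maximalIdeal R, L y - c * y ∈ maximalIdeal R ^ 2 := by
  intro y hy
  rw [GTwo_max hJ ht, Ideal.mem_span_singleton] at hy
  obtain ⟨z, rfl⟩ := hy
  have h1 : (X : k⟦X⟧) ^ 2 ∣ σ X - C (coeff 1 (σ X)) * X := by
    rw [X_pow_dvd_iff]
    intro j hj
    obtain rfl | rfl : j = 0 ∨ j = 1 := by omega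
    · rw [coeff_zero_eq_constantCoeff_apply, map_sub, h0, map_mul, constantCoeff_X, mul_zero,
        sub_zero]
    · rw [map_sub, coeff_C_mul, coeff_one_X, mul_one, sub_self]
  have h2 : (X : k⟦X⟧) ∣ σ (J z) - J z :=
    (X_dvd_iff.2 (by rw [map_sub, h0, constantCoeff_X, sub_zero])).trans (GTwo_dvd h0 _)
  have h3 := mul_dvd_mul_left X h2
  rw [← pow_two] at h3
  rw [GTwo_mem hJ ht, map_sub, hL, map_mul, map_mul, map_mul, map_mul, hc, ht]
  convert dvd_add (h1.mul_right (σ (J z))) (h3.mul_left (C (coeff 1 (σ X)))) using 1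
  ring

theorem GTwo_cast {m d : ℕ} (hm : 0 < m) (h : (m : ℕ∞) ∣ (d : ℕ∞)) : m ∣ d := by
  obtain ⟨c, hc⟩ := h
  induction c with
  | top =>
    rw [ENat.mul_top (by exact_mod_cast hm.ne')] at hc
    exact absurd hc (ENat.natCast_ne_top d)
  | coe c => exact ⟨c, by exact_mod_cast hc⟩

/-- the action by algebra endomorphisms -/
noncomputable def GTwo_en {H : Type*} [Group H] (ρx : H →* (k⟦X⟧ ≃ₐ[k] k⟦X⟧)) : H →* En k :=
  (Units.coeHom _).comp ((AlgEquiv.algHomUnitsEquiv k k⟦X⟧).symm.toMonoidHom.comp ρx)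

end GTwoAlg

theorem GTwo_ex {k : Type u} [Field k] {X : Scheme.{u}} [IsIntegral X] (f : X ⟶ Spec (.of k))
    {G : Type*} [Group G] (ρ : G →* Aut X) {x : X}
    {j : X.functionField →+* LaurentSeries k} {t : X.functionField}
    (C : letI := (fa f).toAlgebra; CP (Ox x) j t) {ρx : stab ρ x →* (k⟦X⟧ ≃ₐ[k] k⟦X⟧)}
    (hρ : LA (fun h : stab ρ x => fT (ρ h)) j ρx) :
    ∃ (J : X.presheaf.stalk x →+* k⟦X⟧) (t₀ : X.presheaf.stalk x),
      (∀ a b, J a ∣ J b → a ∣ b) ∧ J t₀ = PowerSeries.X ∧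
      (∀ (σ : stab ρ x) y, J ((locMap (ρ σ).hom x σ.2).hom y) = ρx σ⁻¹ (J y)) ∧
      ∀ c, J ((strMap f x).hom c) = PowerSeries.C c := by
  let := (fa f).toAlgebra
  have hi : Injective (lc k) := HahnSeries.ofPowerSeries_injective
  have hex : ∀ y : X.presheaf.stalk x, ∃ g, lc k g = j (algebraMap _ X.functionField y) :=
    fun y => exists_lc_of_le ((C.mem _).1 ⟨y, rfl⟩)
  choose J0 hJ0 using hex
  let J : X.presheaf.stalk x →+* k⟦X⟧ :=
    { toFun := J0
      map_one' := hi (by rw [hJ0, map_one, map_one, map_one])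
      map_mul' := fun a b => hi (by rw [map_mul, hJ0, hJ0, hJ0, map_mul, map_mul])
      map_zero' := hi (by rw [hJ0, map_zero, map_zero, map_zero])
      map_add' := fun a b => hi (by rw [map_add, hJ0, hJ0, hJ0, map_add, map_add]) }
  have hJ : ∀ y, lc k (J y) = j (algebraMap _ X.functionField y) := hJ0
  have hinj : Injective (algebraMap (X.presheaf.stalk x) X.functionField) :=
    IsFractionRing.injective _ _
  obtain ⟨t₀, ht₀⟩ : t ∈ Ox x := (C.mem t).2 (by rw [C.uni]; exact vv_lc_le _)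
  refine ⟨J, t₀, fun a b hab => ?_, hi (by rw [hJ, ht₀, C.uni]), fun σ y => hi ?_, fun c => hi ?_⟩
  · obtain ⟨w, hw⟩ := hab
    have h1 := congrArg (lc k) hw
    rw [map_mul, hJ, hJ] at h1
    rcases eq_or_ne a 0 with rfl | ha
    · rw [map_zero, map_zero, zero_mul, map_eq_zero, map_eq_zero_iff _ hinj] at h1
      rw [h1]
    · have ha' : algebraMap _ X.functionField a ≠ 0 := (map_ne_zero_iff _ hinj).2 ha
      obtain ⟨z, hz⟩ : algebraMap _ X.functionField b / algebraMap _ X.functionField a ∈ Ox x :=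
        (C.mem _).2 (by
          rw [map_div₀, h1, mul_div_cancel_left₀ _ ((map_ne_zero j).2 ha')]
          exact vv_lc_le _)
      exact ⟨z, hinj (by rw [map_mul, hz, mul_div_cancel₀ _ ha'])⟩
  · have h1 := hρ.2 σ⁻¹ _ _ (hJ y).symm
    rw [inv_inv] at h1
    rw [hJ, ← fT_locMap, h1]
  · rw [hJ, fa_stalk]
    refine (C.alg c).trans ?_
    rw [LaurentSeries.algebraMap_apply]
    exact (PowerSeries.coe_C c).symm

variable (p : ℕ) [Fact p.Prime] {k : Type u} [Field k] [CharP k p] {X : Scheme.{u}} [IsIntegral X]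
  (f : X ⟶ Spec (.of k)) {G : Type*} [Group G] [Finite G] (ρ : G →* Aut X)

/-- Let `i y = j (algebraMap y) = lc (j₀ y)`; `y ∈ m^d ↔ d ≤ order (j₀ y)` (`t` generates `m`), and
`j₀ (locMap σ y) = ρx σ⁻¹ (j₀ y)` (`fT_locMap`), which is `≡ j₀ y` modulo `ρx σ⁻¹ X - X` (`sub_dvd`).  So
the ideal is `m^d` iff `order (ρx σ⁻¹ X - X) = d`.  Use `σ ↔ σ⁻¹`; if `σ = 1` the group is cyclic by
`grp`. -/
theorem gc_iff {x : X} (hG : ∀ P : Sylow p (stab ρ x), IsCyclic P)
    {j : X.functionField →+* LaurentSeries k} {t : X.functionField}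
    (C : letI := (fa f).toAlgebra; CP (Ox x) j t) {ρx : stab ρ x →* (k⟦X⟧ ≃ₐ[k] k⟦X⟧)}
    (hρ : LA (fun h : stab ρ x => fT (ρ h)) j ρx) : GC p ρ x ↔ LC p ρx := by
  have _ := hG
  obtain ⟨J, t₀, hJ, ht, hL, -⟩ := GTwo_ex f ρ C hρ
  have h0 : ∀ g, PowerSeries.constantCoeff (ρx g PowerSeries.X) = 0 := fun g =>
    (GrpA_order.1 (order_one (σ := GTwo_en ρx g) (Nat.card_pos (α := stab ρ x))
      (by rw [← map_pow, pow_card_eq_one', map_one]))).1
  have key : ∀ (σ : stab ρ x) (d : ℕ),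
      Ideal.span (Set.range fun y => (locMap (ρ σ).hom x σ.2).hom y - y) =
        maximalIdeal (X.presheaf.stalk x) ^ d ↔
      (ρx σ⁻¹ PowerSeries.X - PowerSeries.X).order = (d : ℕ∞) := fun σ d =>
    GTwo_span hJ ht (σ := GTwo_en ρx σ⁻¹) (h0 _) (hL σ) d
  have hm : 0 < ordCompl[p] (Nat.card (stab ρ x)) := Nat.ordCompl_pos p Nat.card_pos.ne'
  refine or_congr_right ⟨fun h σ hσ => ?_, fun h σ hσ d hd => ?_⟩
  · have h1 := h σ⁻¹ (by rw [orderOf_inv, hσ])
    simp only [key, inv_inv] at h1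
    generalize (ρx σ PowerSeries.X - PowerSeries.X).order = e at h1
    induction e with
    | top => exact ⟨⊤, (ENat.mul_top (by exact_mod_cast hm.ne')).symm⟩
    | coe d => exact Nat.cast_dvd_cast (h1 d rfl)
  · have h1 := h σ⁻¹ (by rw [orderOf_inv, hσ])
    rw [(key σ d).1 hd] at h1
    exact GTwo_cast hm h1

/-- As `two_three`, but with `Pool.Agent.Results.MP_deef5c_ag.WeightObstruction.result` applied to
`P = zpowers σ₀`, `γ = τ₀` (from `grp` for `ρx`), `c = strMap f x ζ⁻¹`, `s = pointOfClosedPoint`. -/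
theorem lc_of_lifts [IsAlgClosed k] [IsSeparated f] [SmoothOfRelativeDimension 1 f]
    (hρi : Injective ρ) (hρk : ∀ g, (ρ g).hom ≫ f = f) {x : X} (hx : IsClosed {x})
    (hG : ∀ P : Sylow p (stab ρ x), IsCyclic P)
    {j : X.functionField →+* LaurentSeries k} {t : X.functionField}
    (C : letI := (fa f).toAlgebra; CP (Ox x) j t) {ρx : stab ρ x →* (k⟦X⟧ ≃ₐ[k] k⟦X⟧)}
    (hρ : LA (fun h : stab ρ x => fT (ρ h)) j ρx) (A : Type u) [CommRing A] [IsLocalRing A]
    [IsArtinianRing A] (π : A →+* k) (hπ : Surjective π) (hp : (p : A) ≠ 0)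
    (h : LiftsTo f ρ π) : LC p ρx := by
  obtain ⟨J, t₀, hJ, ht, hL, hC⟩ := GTwo_ex f ρ C hρ
  by_contra hh
  rw [LC] at hh
  push Not at hh
  obtain ⟨hcy, σ₀, hσ₀, hnd⟩ := hh
  obtain ⟨τ₀, α, hτm, hrel, hprim, hgen, -⟩ := (grp p hG ρx hρ.1).2 σ₀ hσ₀
  generalize ordCompl[p] (Nat.card (stab ρ x)) = m at *
  generalize (Nat.card (stab ρ x)).factorization p = n at *
  let r : stab ρ x →* En k := GTwo_en ρx
  have hr : ∀ g a, r g a = ρx g a := fun _ _ => rfl
  have hri : Injective r := fun a b e => hρ.1 (AlgEquiv.ext fun a => DFunLike.congr_fun e a)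
  have h0 : ∀ g, PowerSeries.constantCoeff (r g PowerSeries.X) = 0 := fun g => (GrpA_order.1
    (order_one (Nat.card_pos (α := stab ρ x))
      (by rw [← map_pow, pow_card_eq_one', map_one]))).1
  have hne : r σ₀ ≠ 1 := fun e => hcy ⟨τ₀, fun g => by
    obtain ⟨i, j, rfl⟩ := hgen g
    exact ⟨j, by simp [(map_eq_one_iff r hri).1 e]⟩⟩
  obtain ⟨l, hl, ho⟩ := exists_jump p n
    (by rw [← map_pow, ← hσ₀, pow_orderOf_eq_one, map_one]) hne
  have h3 := lead hl ho (h0 τ₀) (α := α) (by rw [← map_pow, ← map_mul, ← map_mul, hrel])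
  have h4 := coeff_one_mul (h0 τ₀) (h0 τ₀⁻¹)
  rw [← map_mul, mul_inv_cancel, map_one, AlgHom.one_apply, PowerSeries.coeff_one_X] at h4
  rw [← hr] at hprim hnd
  generalize PowerSeries.coeff 1 (r τ₀ PowerSeries.X) = ζ at *
  have h5 : ζ ^ (l + 1) ≠ 1 := fun e => hnd (by
    rw [ho]
    exact Nat.cast_dvd_cast ((hprim.pow_eq_one_iff_dvd _).1 e))
  have hlin := GTwo_lin hJ ht (h0 τ₀⁻¹) (hL τ₀) (hC _)
  generalize PowerSeries.coeff 1 (r τ₀⁻¹ PowerSeries.X) = c at *
  have hP : Subgroup.zpowers (σ₀ : G) ≤ stab ρ x := Subgroup.zpowers_le.2 σ₀.2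
  have hcl : Subgroup.closure (insert (τ₀ : G) (Subgroup.zpowers (σ₀ : G) : Set G)) =
      stab ρ x := by
    refine le_antisymm ((Subgroup.closure_le _).2 ?_) fun g hg => ?_
    · rintro g (rfl | hg)
      · exact τ₀.2
      · exact hP hg
    · obtain ⟨i, j, e⟩ := hgen ⟨g, hg⟩
      rw [show g = (σ₀ : G) ^ i * (τ₀ : G) ^ j from congrArg Subtype.val e]
      exact mul_mem (pow_mem (Subgroup.subset_closure
        (Set.mem_insert_of_mem _ (Subgroup.mem_zpowers (σ₀ : G)))) i)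
        (pow_mem (Subgroup.subset_closure (Set.mem_insert _ _)) j)
  have : Smooth f := SmoothOfRelativeDimension.smooth 1 f
  have hchar := Pool.Agent.Results.MP_deef5c_ag.WeightObstruction.result p k X f G ρ hρi hρk x
    (pointOfClosedPoint f x hx) (pointOfClosedPoint_comp f x hx)
    (pointOfClosedPoint_apply f x hx _) (Subgroup.zpowers (σ₀ : G)) τ₀ (fun g hg => hP hg) τ₀.2
    (by rw [hcl]; exact hcy) (fun g hg y _ => ?_) ((strMap f x).hom c) hlin ?_
    (fun φ hφ1 hφ2 g => ?_) A π hπ h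
  · exact hp (by rw [← hchar]; exact ringChar.Nat.cast_ringChar)
  · obtain ⟨i, hi⟩ := mem_powers_iff_mem_zpowers.2 (inv_mem hg)
    have e : (⟨g, hP hg⟩ : stab ρ x)⁻¹ = σ₀ ^ i := Subtype.ext hi.symm
    rw [GTwo_mem hJ ht, map_sub, hL ⟨g, hP hg⟩, ← hr]
    refine Dvd.dvd.trans ?_ (GTwo_dvd (h0 _) _)
    rw [e, map_pow, PowerSeries.X_pow_dvd_iff]
    intro j hj
    refine PowerSeries.coeff_of_lt_order j (lt_of_lt_of_le ?_ (lead_pow hl ho.ge i).1)
    exact_mod_cast (by omega : j < l + 1)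
  · have hc1 : c - 1 ≠ 0 := fun e => h5 (by
      rw [sub_eq_zero] at e
      rw [e, mul_one] at h4
      rw [← h4, one_pow])
    have hu := (IsUnit.mk0 _ hc1).map (strMap f x).hom
    rw [map_sub, map_one] at hu
    exact fun hm => (mem_maximalIdeal _).1 hm hu
  · have hc1 : (α : k) - c ≠ 0 := fun e => h5 (by
      rw [sub_eq_zero] at e
      rw [h3, e, mul_comm, ← h4])
    have hu := (IsUnit.mk0 _ hc1).map (strMap f x).hom
    rw [map_sub, map_natCast] at hu
    let s : Subgroup.zpowers (σ₀ : G) := ⟨σ₀, Subgroup.mem_zpowers _⟩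
    have e1 := hφ2 s (s ^ α) (eq_mul_inv_of_mul_eq (congrArg Subtype.val hrel).symm)
    rw [TwoThree_add φ hφ1, ← sub_eq_zero, ← sub_mul, ← map_natCast (residue _), ← map_sub,
      (hu.map (residue _)).mul_right_eq_zero] at e1
    obtain ⟨i, hi⟩ := mem_powers_iff_mem_zpowers.2 g.2
    have e2 : g = s ^ i := Subtype.ext hi.symm
    rw [e2, TwoThree_add φ hφ1, e1, mul_zero]

end Pool.Agent.MP_deef5c_ag.O
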