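import Pool.Agent.MP_deef5c_ag.O.Quot2

/-! The normalisation of a finite extension of the Witt vectors. -/

open PowerSeries IsLocalRing Finset Function
open scoped Polynomial

namespace Pool.Agent.MP_deef5c_ag.O

universe u

theorem Dvr_prec {A M : Type u} [CommRing A] (I : Ideal A) [IsPrecomplete I A] [AddCommGroup M]
    [Module A M] [Module.Finite A M] : IsPrecomplete I M := by
  rw [← AdicCompletion.of_surjective_iff]
  intro x
  obtain ⟨t, rfl⟩ := AdicCompletion.ofTensorProduct_surjective_of_finite I M x
  induction t with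
  | zero => exact ⟨0, by simp⟩
  | tmul r m =>
    obtain ⟨r, rfl⟩ := AdicCompletion.of_surjective I A r
    refine ⟨r • m, ?_⟩
    rw [AdicCompletion.ofTensorProduct_tmul, map_smul]
    exact (algebraMap_smul (AdicCompletion I A) r _).symm
  | add a b ha hb =>
    obtain ⟨a', ha⟩ := ha
    obtain ⟨b', hb⟩ := hb
    exact ⟨a' + b', by rw [map_add, map_add, ha, hb]⟩

theorem Dvr_pow {O : Type u} [CommRing O] (P : Ideal O) {e : ℕ} (he : e ≠ 0)
    [h : IsPrecomplete (P ^ e) O] : IsPrecomplete P O := by
  refine ⟨fun f hf => ?_⟩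
  obtain ⟨L, hL⟩ := h.prec (f := fun n => f (e * n)) fun {m n} hmn => by
    rw [← pow_mul]
    exact hf (Nat.mul_le_mul_left e hmn)
  have hle : ∀ n, n ≤ e * n := fun n => Nat.le_mul_of_pos_left n (Nat.pos_of_ne_zero he)
  refine ⟨L, fun n => (hf (hle n)).trans ?_⟩
  have := hL n
  rw [← pow_mul] at this
  exact this.mono (Submodule.pow_smul_top_le P O (hle n))

theorem Dvr_eq_pow {O : Type u} [CommRing O] [IsDedekindDomain O] (J P : Ideal O) (hJ : J ≠ ⊥)
    [hP : P.IsMaximal] (hJP : J ≤ P) [IsAdicComplete J O] : ∃ e ≠ 0, J = P ^ e := by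
  classical
  obtain ⟨Q, hQ, e1⟩ := Ideal.eq_prime_pow_mul_coprime hJ P
  set e := Multiset.count P (UniqueFactorizationMonoid.normalizedFactors J) with he
  have hco : IsCoprime (P ^ e) Q := (Ideal.isCoprime_iff_sup_eq.2 hQ).pow_left
  obtain ⟨a, ha, b, hb, hab⟩ := Ideal.isCoprime_iff_exists.1 hco
  have hb' : b = 1 - a := by rw [← hab]; ring
  have hmul : a * b ∈ J := by
    rw [e1]
    exact Ideal.mul_mem_mul ha hb
  have hunit : ∀ x ∈ J, IsUnit (1 - x) := fun x hx => by
    have := Ideal.mem_jacobson_bot.1 (IsAdicComplete.le_jacobson_bot J hx) (-1)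
    rwa [show x * -1 + 1 = 1 - x by ring] at this
  obtain ⟨c, hc, hca⟩ := HenselianRing.is_henselian (I := J)
    (Polynomial.X ^ 2 - Polynomial.X : O[X]) (by monicity!) a (by
      have : (Polynomial.X ^ 2 - Polynomial.X : O[X]).eval a = -(a * b) := by
        simp only [Polynomial.eval_sub, Polynomial.eval_pow, Polynomial.eval_X, hb']
        ring
      rw [this]
      exact J.neg_mem hmul) (by
      have h1 : (Polynomial.derivative (Polynomial.X ^ 2 - Polynomial.X : O[X])).eval a ^ 2 =
          1 - 4 * (a * b) := by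
        simp [hb']
        ring
      refine IsUnit.map _ (isUnit_pow_iff two_ne_zero |>.1 ?_)
      rw [h1]
      exact hunit _ (J.mul_mem_left _ hmul))
  have hc2 : c * (c - 1) = 0 := by
    have : c ^ 2 - c = 0 := by simpa using hc
    linear_combination this
  rcases mul_eq_zero.1 hc2 with h | h
  · rw [h, zero_sub, neg_mem_iff] at hca
    have hQt : Q = ⊤ := Ideal.eq_top_of_isUnit_mem _ hb (hb' ▸ hunit a hca)
    rw [hQt, Ideal.mul_top] at e1
    refine ⟨e, fun h0 => hP.ne_top ?_, e1⟩
    rw [h0, pow_zero, Ideal.one_eq_top] at e1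
    exact top_le_iff.1 (e1 ▸ hJP)
  · exfalso
    have h1 : IsUnit a := by
      have := hunit _ hca
      rwa [sub_eq_zero.1 h, sub_sub_cancel] at this
    rw [Ideal.eq_top_of_isUnit_mem _ ha h1, Ideal.top_mul] at e1
    rw [← e1, sup_eq_left.2 hJP] at hQ
    exact hP.ne_top hQ

attribute [local instance] FractionRing.liftAlgebra FractionRing.isScalarTower_liftAlgebra in
theorem Dvr_norm (A R : Type u) [CommRing A] [IsDedekindDomain A] [CharZero A] [CommRing R]
    [IsDomain R] [Algebra A R] [Module.Finite A R] [FaithfulSMul A R] :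
    ∃ (O : Type u) (_ : CommRing O) (_ : IsDedekindDomain O) (_ : Algebra A O)
      (_ : Module.Finite A O) (_ : FaithfulSMul A O), Nonempty (R →ₐ[A] O) := by
  have : FaithfulSMul A (FractionRing R) := inferInstance
  have : FiniteDimensional (FractionRing A) (FractionRing R) := inferInstance
  have : CharZero (FractionRing A) := inferInstance
  have : Algebra.IsSeparable (FractionRing A) (FractionRing R) := inferInstance
  exact ⟨integralClosure A (FractionRing R), inferInstance,
    IsIntegralClosure.isDedekindDomain A (FractionRing A) (FractionRing R) _, inferInstance,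
    IsIntegralClosure.finite A (FractionRing A) (FractionRing R) _, inferInstance,
    ⟨IsIntegralClosure.lift A _ (FractionRing R)⟩⟩

theorem Dvr_main {A k : Type u} [CommRing A] [IsDomain A] [IsDiscreteValuationRing A]
    [IsAdicComplete (maximalIdeal A) A] [CharZero A] [Field k] [IsAlgClosed k] (ρ : A →+* k)
    (hρ : Surjective ρ) (R : Type u) [CommRing R] [IsDomain R] [IsLocalRing R] [Algebra A R]
    [Module.Finite A R] [FaithfulSMul A R] (π : R →+* k) (hπ : ∀ w, π (algebraMap A R w) = ρ w) :
    ∃ (O : Type u) (_ : CommRing O) (_ : IsDomain O) (_ : IsDiscreteValuationRing O)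
      (_ : IsAdicComplete (maximalIdeal O) O) (_ : CharZero O) (πO : O →+* k) (φ : R →+* O),
      Surjective πO ∧ ∀ a, πO (φ a) = π a := by
  obtain ⟨O, _, _, _, _, _, ⟨φ⟩⟩ := Dvr_norm A R
  have hinj : Injective (algebraMap A O) := FaithfulSMul.algebraMap_injective A O
  obtain ⟨P, hP, hPm⟩ := Ideal.exists_ideal_over_maximal_of_isIntegral (S := O) (maximalIdeal A)
    (by rw [(RingHom.injective_iff_ker_eq_bot _).1 hinj]; exact bot_le)
  set J := (maximalIdeal A).map (algebraMap A O) with hJ
  have hJP : J ≤ P := Ideal.map_le_iff_le_comap.2 hPm.ge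
  have hJ0 : J ≠ ⊥ := fun h =>
    IsDiscreteValuationRing.not_a_field A ((Ideal.map_eq_bot_iff_of_injective hinj).1 h)
  have hpre : IsPrecomplete J O :=
    IsPrecomplete.map_algebraMap_iff.2 (Dvr_prec (maximalIdeal A))
  have : IsHausdorff J O := IsHausdorff.of_isDomain J fun h => hP.ne_top (top_le_iff.1 (h ▸ hJP))
  have : IsAdicComplete J O := {}
  obtain ⟨e, he, hJe⟩ := Dvr_eq_pow J P hJ0 hJP
  have : IsPrecomplete P O := Dvr_pow P he (h := hJe ▸ hpre)
  have : IsHausdorff P O := IsHausdorff.of_isDomain P hP.ne_top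
  have hc : IsAdicComplete P O := {}
  have : IsLocalRing O := isLocalRing_of_isAdicComplete_maximal P
  have hPO : P = maximalIdeal O := eq_maximalIdeal hP
  have hnf : ¬ IsField O := fun h => hJ0 (le_bot_iff.1 (hJP.trans
    (hPO.trans (isField_iff_maximalIdeal_eq.1 h)).le))
  have hdvr : IsDiscreteValuationRing O :=
    ((IsDiscreteValuationRing.TFAE O hnf).out 2 0).1 ‹IsDedekindDomain O›
  have hker : RingHom.ker ρ ≤ RingHom.ker ((residue O).comp (algebraMap A O)) := by
    intro a ha
    rw [ker_eq_maximalIdeal ρ hρ, ← hPm, Ideal.mem_comap, hPO] at ha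
    exact (residue_eq_zero_iff _).2 ha
  set ι : k →+* ResidueField O := ρ.liftOfSurjective hρ ⟨_, hker⟩ with hι
  have hιρ : ι.comp ρ = (residue O).comp (algebraMap A O) := ρ.liftOfSurjective_comp hρ _
  have hint : ι.IsIntegral := by
    refine RingHom.IsIntegral.tower_top ρ ι ?_
    rw [hιρ]
    exact RingHom.IsIntegral.trans _ _ (algebraMap_isIntegral_iff.2 inferInstance)
      (RingHom.isIntegral_of_surjective _ residue_surjective)
  set E := RingEquiv.ofBijective ι (IsAlgClosed.ringHom_bijective_of_isIntegral ι hint) with hE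
  set πO : O →+* k := (E.symm : ResidueField O →+* k).comp (residue O) with hπO
  have h1 : ∀ w, πO (algebraMap A O w) = ρ w := fun w =>
    E.symm_apply_eq.2 (RingHom.congr_fun hιρ w).symm
  have h2 : ∀ w, (πO.comp (φ : R →+* O)) (algebraMap A R w) = ρ w := fun w => by
    rw [← h1, ← φ.commutes]
    rfl
  have s1 : Surjective π := fun c => by
    obtain ⟨w, rfl⟩ := hρ c
    exact ⟨_, hπ w⟩
  have s2 : Surjective (πO.comp (φ : R →+* O)) := fun c => by
    obtain ⟨w, rfl⟩ := hρ c
    exact ⟨_, h2 w⟩
  refine ⟨O, inferInstance, inferInstance, hdvr, hPO ▸ hc, charZero_of_injective_algebraMap hinj,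
    πO, φ, E.symm.surjective.comp residue_surjective, fun a => ?_⟩
  obtain ⟨w, hw⟩ := hρ (π a)
  have h3 : a - algebraMap A R w ∈ RingHom.ker π := by
    rw [RingHom.mem_ker, map_sub, hπ, hw, sub_self]
  rw [ker_eq_maximalIdeal π s1, ← ker_eq_maximalIdeal _ s2, RingHom.mem_ker, map_sub, h2, hw,
    sub_eq_zero] at h3
  exact h3

/-- `W → R` is injective.  Let `O` be the integral closure of `W` in the fraction field of `R`: finite
over `W` (characteristic zero, `IsIntegralClosure.finite`) and Dedekind.  `O` is `p`-adically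
complete (finite over `W`), `O / p` is Artinian; a non-trivial idempotent of `O / p` would lift to
the domain `O` (Hensel), so `O` is local, hence a discrete valuation ring, complete because a power
of its maximal ideal lies in `(p)`.  Its residue field is finite over `k`, hence `k`.  The two maps
`R → k` have kernel the maximal ideal and agree on `W`. -/
theorem exists_dvr (p : ℕ) [Fact p.Prime] (k : Type u) [Field k] [IsAlgClosed k] [CharP k p]
    (R : Type u) [CommRing R] [IsDomain R] [IsLocalRing R] [Algebra (WittVector p k) R]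
    [Module.Finite (WittVector p k) R]
    (π : R →+* k) (hπ : ∀ w, π (algebraMap (WittVector p k) R w) = w.coeff 0) (hp : (p : R) ≠ 0) :
    ∃ (O : Type u) (_ : CommRing O) (_ : IsDomain O) (_ : IsDiscreteValuationRing O)
      (_ : IsAdicComplete (maximalIdeal O) O) (_ : CharZero O) (πO : O →+* k) (φ : R →+* O),
      Surjective πO ∧ ∀ a, πO (φ a) = π a := by
  have := (witt_cl p k).1.cpl
  have : FaithfulSMul (WittVector p k) R := by
    rw [faithfulSMul_iff_algebraMap_injective, injective_iff_map_eq_zero]
    intro w hw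
    by_contra h0
    obtain ⟨n, u, rfl⟩ := WittVector.exists_eq_pow_p_mul' w h0
    rw [map_mul, map_pow, map_natCast] at hw
    exact mul_ne_zero (pow_ne_zero _ hp) (u.isUnit.map _).ne_zero hw
  have : CharZero (WittVector p k) := by
    obtain ⟨q, hq⟩ := CharP.exists (WittVector p k)
    rcases CharP.char_is_prime_or_zero (WittVector p k) q with h | rfl
    · exfalso
      have h1 : (q : k) = 0 := by
        rw [← map_natCast (WittVector.constantCoeff : WittVector p k →+* k), CharP.cast_eq_zero,
          map_zero]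
      have h2 : p = q :=
        (Nat.prime_dvd_prime_iff_eq Fact.out h).1 ((CharP.cast_eq_zero_iff k p q).1 h1)
      subst h2
      refine hp ?_
      rw [← map_natCast (algebraMap (WittVector p k) R), CharP.cast_eq_zero, map_zero]
    · exact CharP.charP_to_charZero _
  exact Dvr_main WittVector.constantCoeff (fun c => ⟨WittVector.teichmuller p c, rfl⟩) R π hπ

end Pool.Agent.MP_deef5c_ag.O
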