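import Pool.Agent.MP_deef5c_ag.O.Sp0
import Pool.Agent.MP_deef5c_ag.O.Stm

/-! Base change of local lifts. -/

open PowerSeries IsLocalRing Finset Function
open scoped Polynomial

namespace Pool.Agent.MP_deef5c_ag.O

universe u

variable {k : Type u} [Field k] {G : Type*} [Group G]

theorem OneTwo_const (σ : k⟦X⟧ ≃ₐ[k] k⟦X⟧) : constantCoeff (σ X) = 0 := by
  by_contra h
  have h1 : IsUnit (σ X) := isUnit_iff_constantCoeff.2 (Ne.isUnit h)
  have h2 : IsUnit (X : k⟦X⟧) := by simpa using h1.map σ.symm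
  have h3 := isUnit_iff_constantCoeff.1 h2
  simp at h3

/-- `ρ'' g = sub (map φ (ρ' g X))`, multiplicative by `map_en` and `en_ext` -/
theorem LocLifts.map {ρ : G →* (k⟦X⟧ ≃ₐ[k] k⟦X⟧)} {A A' : Type u} [CommRing A] [CommRing A']
    [IsLocalRing A'] [CL A'] {π : A →+* k} (h : LocLifts ρ π) (φ : A →+* A') (π' : A' →+* k)
    (hπ' : Surjective π') (hφ : ∀ a, π' (φ a) = π a) : LocLifts ρ π' := by
  obtain ⟨ρ', hρ'⟩ := h
  have hc : π'.comp φ = π := RingHom.ext hφ
  have hred : ∀ g, PowerSeries.map π' (PowerSeries.map φ (ρ' g X)) = ρ g X := fun g => by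
    rw [← RingHom.comp_apply, ← PowerSeries.map_comp, hc, hρ', map_X]
  have hs : ∀ g, constantCoeff (PowerSeries.map φ (ρ' g X)) ∈ maximalIdeal A' := fun g => by
    rw [← pi_eq_zero_iff π' hπ', ← coeff_zero_eq_constantCoeff_apply, ← coeff_map, hred,
      coeff_zero_eq_constantCoeff_apply, OneTwo_const]
  let τ : G → En A' := fun g => sub (PowerSeries.map φ (ρ' g X))
  have hX : ∀ g, τ g X = PowerSeries.map φ (ρ' g X) := fun g => sub_X (hs g)
  have hm : ∀ g, constantCoeff (τ g X) ∈ maximalIdeal A' := fun g => by rw [hX]; exact hs g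
  have hmap : ∀ g f, PowerSeries.map φ (ρ' g f) = τ g (PowerSeries.map φ f) := fun g f =>
    map_en φ (ρ' g : En A) (τ g) (hX g).symm (hm g) f
  have hmul : ∀ g g', τ (g * g') = τ g * τ g' := fun g g' => by
    refine en_ext ?_ (hm _)
    rw [hX, AlgHom.mul_apply, hX, ← hmap, map_mul, AlgEquiv.mul_apply]
  have hone : τ 1 = 1 := by
    refine en_ext ?_ (hm _)
    rw [hX, map_one, AlgEquiv.one_apply, map_X, AlgHom.one_apply]
  have hinv : ∀ g g', g * g' = 1 → (τ g).comp (τ g') = AlgHom.id A' A'⟦X⟧ := fun g g' e => by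
    have h1 := hmul g g'
    rw [e, hone] at h1
    exact h1.symm
  refine ⟨MonoidHom.mk' (fun g => AlgEquiv.ofAlgHom (τ g) (τ g⁻¹) (hinv _ _ (mul_inv_cancel g))
    (hinv _ _ (inv_mul_cancel g))) fun g g' => AlgEquiv.ext fun f => ?_, fun g f => ?_⟩
  · change τ (g * g') f = τ g (τ g' f)
    rw [hmul, AlgHom.mul_apply]
  · change PowerSeries.map π' (τ g f) = _
    refine map_en π' (τ g) (ρ g : En k) (by rw [hX]; exact hred g) ?_ f
    change constantCoeff (ρ g X) ∈ _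
    rw [OneTwo_const]
    exact zero_mem _

/-- `A = O ⧸ m^M` with `p^N ∉ m^M` (Krull intersection) -/
theorem one_two (p N : ℕ) [Fact p.Prime] (ρ : G →* (k⟦X⟧ ≃ₐ[k] k⟦X⟧)) (O : Type u) [CommRing O]
    [IsDomain O] [IsDiscreteValuationRing O] [CharZero O] (π : O →+* k) (hπ : Surjective π)
    (h : LocLifts ρ π) :
    ∃ (A : Type u) (_ : CommRing A) (_ : IsLocalRing A) (_ : IsArtinianRing A) (π' : A →+* k),
      Surjective π' ∧ (p : A) ^ N ≠ 0 ∧ LocLifts ρ π' := by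
  have h0 : (p : O) ^ N ≠ 0 := pow_ne_zero N (Nat.cast_ne_zero.2 (Fact.out : p.Prime).ne_zero)
  have h1 : ∃ M : ℕ, (p : O) ^ N ∉ maximalIdeal O ^ M := by
    by_contra hc
    push Not at hc
    have h2 : (p : O) ^ N ∈ ⨅ M : ℕ, maximalIdeal O ^ M := Ideal.mem_iInf.2 hc
    rw [Ideal.iInf_pow_eq_bot_of_isLocalRing _ (maximalIdeal.isMaximal O).ne_top] at h2
    exact h0 h2
  obtain ⟨M, hM⟩ := h1
  have hJ : maximalIdeal O ^ M ≠ ⊤ := fun e => hM (by rw [e]; trivial)
  have := local_quot _ hJ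
  obtain ⟨π', hπ', hφ⟩ := exists_pi_quot π hπ _ hJ
  have : IsArtinianRing (O ⧸ maximalIdeal O ^ M) := by
    rw [isArtinianRing_iff_isNilpotent_maximalIdeal,
      ← map_maximalIdeal_of_surjective (Ideal.Quotient.mk (maximalIdeal O ^ M))
        Ideal.Quotient.mk_surjective]
    exact ⟨M, by rw [← Ideal.map_pow, Ideal.map_quotient_self]; rfl⟩
  have : CL (O ⧸ maximalIdeal O ^ M) := ⟨inferInstance, inferInstance⟩
  refine ⟨O ⧸ maximalIdeal O ^ M, inferInstance, inferInstance, inferInstance, π', hπ', ?_,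
    h.map (Ideal.Quotient.mk _) π' hπ' hφ⟩
  rw [← map_natCast (Ideal.Quotient.mk (maximalIdeal O ^ M)), ← map_pow, Ne,
    Ideal.Quotient.eq_zero_iff_mem]
  exact hM

end Pool.Agent.MP_deef5c_ag.O
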