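import Pool.Agent.MP_deef5c_ag.O.GDefs
import Pool.Agent.MP_deef5c_ag.O.OneTwo
import Pool.Agent.MP_deef5c_ag.O.Dvr

/-! A common base for finitely many local lifts. -/

open CategoryTheory AlgebraicGeometry IsLocalRing Function
open scoped Polynomial PowerSeries

namespace Pool.Agent.MP_deef5c_ag.O

universe u

theorem GCom_pow {O : Type u} [CommRing O] (P J : Ideal O) {e : ℕ} (he : P ^ e ≤ J) (hJ : J ≤ P)
    (h : IsPrecomplete J O) : IsPrecomplete P O := by
  refine ⟨fun f hf => ?_⟩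
  have h1 : ∀ m, P ^ ((e + 1) * m) ≤ J ^ m := fun m => by
    rw [pow_mul]
    exact Ideal.pow_right_mono ((Ideal.pow_le_pow_right (Nat.le_succ e)).trans he) m
  obtain ⟨L, hL⟩ := h.prec (f := fun n => f ((e + 1) * n)) fun {m n} hmn =>
    (hf (Nat.mul_le_mul_left (e + 1) hmn)).mono (Submodule.smul_mono_left (h1 m))
  have hle : ∀ n, n ≤ (e + 1) * n := fun n => Nat.le_mul_of_pos_left n (Nat.succ_pos e)
  exact ⟨L, fun n => (hf (hle n)).trans
    ((hL n).mono (Submodule.smul_mono_left (Ideal.pow_right_mono hJ n)))⟩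

theorem GCom_cl (A R : Type u) [CommRing A] [IsLocalRing A] [CL A] [CommRing R] [IsLocalRing R]
    [Algebra A R] [Module.Finite A R] : CL R := by
  have hN : IsNoetherianRing R := IsNoetherianRing.of_finite A R
  have hpre : IsPrecomplete ((maximalIdeal A).map (algebraMap A R)) R :=
    IsPrecomplete.map_algebraMap_iff.2 (Dvr_prec (maximalIdeal A))
  have hJ : (maximalIdeal A).map (algebraMap A R) ≤ maximalIdeal R :=
    Ideal.map_le_iff_le_comap.2 (eq_maximalIdeal
      (Ideal.isMaximal_comap_of_isIntegral_of_isMaximal (R := A) (maximalIdeal R))).ge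
  have hrad : maximalIdeal R ≤ ((maximalIdeal A).map (algebraMap A R)).radical := by
    rw [Ideal.radical_eq_sInf]
    refine le_sInf fun P hP => ?_
    have := hP.2
    have h1 : maximalIdeal A = P.comap (algebraMap A R) :=
      (maximalIdeal.isMaximal A).eq_of_le (Ideal.comap_ne_top _ hP.2.ne_top)
        (Ideal.map_le_iff_le_comap.1 hP.1)
    exact (eq_maximalIdeal (Ideal.isMaximal_of_isIntegral_of_isMaximal_comap (R := A) P
      (h1 ▸ maximalIdeal.isMaximal A))).ge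
  obtain ⟨e, he⟩ := Ideal.exists_pow_le_of_le_radical_of_fg_radical hrad
    (IsNoetherian.noetherian _)
  exact ⟨hN, { toIsHausdorff := inferInstance, toIsPrecomplete := GCom_pow _ _ he hJ hpre }⟩

theorem GCom_sub {A K R T : Type u} [CommRing A] [Field K] [CommRing R] [IsLocalRing R] [CommRing T]
    [Algebra A R] [Algebra A T] [Algebra.IsIntegral A T] (ρ : A →+* K) (hρ : Surjective ρ)
    (π : R →+* K) (hπ : ∀ w, π (algebraMap A R w) = ρ w) (φ : R →ₐ[A] T) (M : Ideal T)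
    [M.IsMaximal] (a : R) : ∃ w, φ a - algebraMap A T w ∈ M ∧ π a = ρ w := by
  obtain ⟨w, hw⟩ := hρ (π a)
  have hs : Surjective π := fun c => by
    obtain ⟨v, rfl⟩ := hρ c
    exact ⟨_, hπ v⟩
  have hint : (φ : R →+* T).IsIntegral := by
    refine RingHom.IsIntegral.tower_top (algebraMap A R) _ ?_
    rw [φ.comp_algebraMap]
    exact algebraMap_isIntegral_iff.2 inferInstance
  have h1 : M.comap (φ : R →+* T) = maximalIdeal R :=
    eq_maximalIdeal (Ideal.isMaximal_comap_of_isIntegral_of_isMaximal' _ hint M)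
  have h2 : a - algebraMap A R w ∈ M.comap (φ : R →+* T) := by
    rw [h1, ← ker_eq_maximalIdeal π hs, RingHom.mem_ker, map_sub, hπ, hw, sub_self]
  rw [Ideal.mem_comap, map_sub, RingHom.coe_coe, φ.commutes] at h2
  exact ⟨w, h2, hw.symm⟩

open scoped TensorProduct in
theorem GCom_common {A K R₁ R₂ : Type u} [CommRing A] [IsDedekindDomain A] [IsLocalRing A] [Field K]
    (ρ : A →+* K) (hρ : Surjective ρ) [CommRing R₁] [IsDomain R₁] [IsLocalRing R₁] [Algebra A R₁]
    [Module.Finite A R₁] [FaithfulSMul A R₁] [CommRing R₂] [IsLocalRing R₂] [Algebra A R₂]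
    [Module.Finite A R₂] [FaithfulSMul A R₂] (π₁ : R₁ →+* K) (π₂ : R₂ →+* K)
    (h₁ : ∀ w, π₁ (algebraMap A R₁ w) = ρ w) (h₂ : ∀ w, π₂ (algebraMap A R₂ w) = ρ w)
    (q : A) (hq : q ≠ 0) :
    ∃ (R : Type u) (_ : CommRing R) (_ : IsLocalRing R) (_ : Algebra A R) (π : R →+* K)
      (φ₁ : R₁ →+* R) (φ₂ : R₂ →+* R), IsDomain R ∧ Module.Finite A R ∧
      (∀ w, π (algebraMap A R w) = ρ w) ∧ algebraMap A R q ≠ 0 ∧ (∀ a, π (φ₁ a) = π₁ a) ∧
      ∀ a, π (φ₂ a) = π₂ a := by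
  let _ : Algebra A K := ρ.toAlgebra
  let a₁ : R₁ →ₐ[A] K := { π₁ with commutes' := h₁ }
  let a₂ : R₂ →ₐ[A] K := { π₂ with commutes' := h₂ }
  obtain ⟨τ, hτ⟩ : ∃ τ : R₁ ⊗[A] R₂ →ₐ[A] K, ∀ a b, τ (a ⊗ₜ b) = π₁ a * π₂ b :=
    ⟨Algebra.TensorProduct.productMap a₁ a₂, fun a b => rfl⟩
  have hτA : ∀ w, τ (algebraMap A _ w) = ρ w := fun w => τ.commutes w
  have hτs : Surjective (τ : R₁ ⊗[A] R₂ →+* K) := fun c => by
    obtain ⟨v, rfl⟩ := hρ c
    exact ⟨_, hτA v⟩
  have hker : ∀ M : Ideal (R₁ ⊗[A] R₂), M.IsMaximal → M = RingHom.ker (τ : R₁ ⊗[A] R₂ →+* K) := by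
    intro M hM
    have key : ∀ t, ∃ w, t - algebraMap A _ w ∈ M ∧ τ t = ρ w := fun t => by
      induction t with
      | zero => exact ⟨0, by simp, by simp⟩
      | tmul a b =>
        obtain ⟨w₁, e₁, f₁⟩ := GCom_sub ρ hρ π₁ h₁ Algebra.TensorProduct.includeLeft M a
        obtain ⟨w₂, e₂, f₂⟩ := GCom_sub ρ hρ π₂ h₂ Algebra.TensorProduct.includeRight M b
        refine ⟨w₁ * w₂, ?_, by rw [hτ, f₁, f₂, map_mul]⟩
        have e₃ : a ⊗ₜ[A] b = (Algebra.TensorProduct.includeLeft : R₁ →ₐ[A] R₁ ⊗[A] R₂) a *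
            (Algebra.TensorProduct.includeRight : R₂ →ₐ[A] R₁ ⊗[A] R₂) b := by simp
        have e₄ := M.add_mem (M.mul_mem_right
          ((Algebra.TensorProduct.includeRight : R₂ →ₐ[A] R₁ ⊗[A] R₂) b) e₁)
          (M.mul_mem_left (algebraMap A _ w₁) e₂)
        rw [e₃, map_mul]
        convert e₄ using 1
        ring
      | add s t hs ht =>
        obtain ⟨w₁, e₁, f₁⟩ := hs
        obtain ⟨w₂, e₂, f₂⟩ := ht
        refine ⟨w₁ + w₂, ?_, by rw [map_add, map_add, f₁, f₂]⟩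
        rw [map_add, add_sub_add_comm]
        exact M.add_mem e₁ e₂
    refine ((RingHom.ker_isMaximal_of_surjective _ hτs).eq_of_le hM.ne_top fun t ht => ?_).symm
    obtain ⟨w, e₁, f₁⟩ := key t
    have h3 : w ∈ M.comap (algebraMap A (R₁ ⊗[A] R₂)) := by
      rw [eq_maximalIdeal (Ideal.isMaximal_comap_of_isIntegral_of_isMaximal (R := A) M),
        ← ker_eq_maximalIdeal ρ hρ, RingHom.mem_ker, ← f₁]
      exact ht
    simpa using M.add_mem e₁ h3
  have hloc : IsLocalRing (R₁ ⊗[A] R₂) :=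
    IsLocalRing.of_unique_max_ideal ⟨_, RingHom.ker_isMaximal_of_surjective _ hτs, hker⟩
  have hinj : Injective (Algebra.TensorProduct.includeLeft : R₁ →ₐ[A] R₁ ⊗[A] R₂) :=
    Algebra.TensorProduct.includeLeft_injective (FaithfulSMul.algebraMap_injective A R₂)
  have hnil : ¬ IsNilpotent (algebraMap A (R₁ ⊗[A] R₂) q) := by
    rintro ⟨n, hn⟩
    rw [← (Algebra.TensorProduct.includeLeft : R₁ →ₐ[A] R₁ ⊗[A] R₂).commutes, ← map_pow,
      map_eq_zero_iff _ hinj, ← map_pow,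
      map_eq_zero_iff _ (FaithfulSMul.algebraMap_injective A R₁)] at hn
    exact pow_ne_zero n hq hn
  rw [nilpotent_iff_mem_prime] at hnil
  push Not at hnil
  obtain ⟨Q, hQ, hqQ⟩ := hnil
  have := local_quot Q hQ.ne_top
  obtain ⟨π, -, hπ⟩ := exists_pi_quot (τ : R₁ ⊗[A] R₂ →+* K) hτs Q hQ.ne_top
  refine ⟨(R₁ ⊗[A] R₂) ⧸ Q, inferInstance, inferInstance, inferInstance, π,
    (Ideal.Quotient.mk Q).comp
      (Algebra.TensorProduct.includeLeft : R₁ →ₐ[A] R₁ ⊗[A] R₂),
    (Ideal.Quotient.mk Q).comp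
      (Algebra.TensorProduct.includeRight : R₂ →ₐ[A] R₁ ⊗[A] R₂), inferInstance, inferInstance,
    fun w => (hπ _).trans (hτA w), fun e => hqQ (Ideal.Quotient.eq_zero_iff_mem.1 e),
    fun a => (hπ _).trans ?_, fun a => (hπ _).trans ?_⟩
  · exact (hτ a 1).trans (by simp)
  · exact (hτ 1 a).trans (by simp)

theorem GCom_art {K O : Type u} [Field K] [CommRing O] [IsDomain O] [IsLocalRing O]
    [IsNoetherianRing O] (π : O →+* K) (hπ : Surjective π) (q : O) (h0 : q ≠ 0) :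
    ∃ (A : Type u) (_ : CommRing A) (_ : IsLocalRing A) (_ : IsArtinianRing A) (π' : A →+* K)
      (φ : O →+* A), Surjective π' ∧ φ q ≠ 0 ∧ ∀ a, π' (φ a) = π a := by
  have h1 : ∃ M : ℕ, q ∉ maximalIdeal O ^ M := by
    by_contra hc
    push Not at hc
    have h2 : q ∈ ⨅ M : ℕ, maximalIdeal O ^ M := Ideal.mem_iInf.2 hc
    rw [Ideal.iInf_pow_eq_bot_of_isLocalRing _ (maximalIdeal.isMaximal O).ne_top] at h2
    exact h0 h2
  obtain ⟨M, hM⟩ := h1
  have hJ : maximalIdeal O ^ M ≠ ⊤ := fun e => hM (by rw [e]; trivial)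
  have := local_quot _ hJ
  obtain ⟨π', hπ', hφ⟩ := exists_pi_quot π hπ _ hJ
  have : IsArtinianRing (O ⧸ maximalIdeal O ^ M) := by
    rw [isArtinianRing_iff_isNilpotent_maximalIdeal,
      ← map_maximalIdeal_of_surjective (Ideal.Quotient.mk (maximalIdeal O ^ M))
        Ideal.Quotient.mk_surjective]
    exact ⟨M, by rw [← Ideal.map_pow, Ideal.map_quotient_self]; rfl⟩
  exact ⟨O ⧸ maximalIdeal O ^ M, inferInstance, inferInstance, inferInstance, π',
    Ideal.Quotient.mk _, hπ', fun e => hM (Ideal.Quotient.eq_zero_iff_mem.1 e), hφ⟩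

variable (p : ℕ) [Fact p.Prime] {k : Type u} [Field k] [CharP k p] [PerfectRing k p]

theorem GCom_surj {R : Type u} [CommRing R] [Algebra (WittVector p k) R] {π : R →+* k}
    (h : FW p π) : Surjective π := fun c =>
  ⟨algebraMap (WittVector p k) R (WittVector.teichmuller p c), h.alg _⟩

theorem GCom_faithful {R : Type u} [CommRing R] [Algebra (WittVector p k) R] {π : R →+* k}
    (h : FW p π) : FaithfulSMul (WittVector p k) R := by
  have := h.dom
  rw [faithfulSMul_iff_algebraMap_injective, injective_iff_map_eq_zero]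
  intro w hw
  by_contra h0
  obtain ⟨n, u, rfl⟩ := WittVector.exists_eq_pow_p_mul' w h0
  rw [map_mul, map_pow, map_natCast] at hw
  exact mul_ne_zero (pow_ne_zero _ h.ne) (u.isUnit.map _).ne_zero hw

theorem GCom_witt : FW p (WittVector.constantCoeff : WittVector p k →+* k) :=
  ⟨inferInstance, inferInstance, fun _ => rfl, WittVector.p_nonzero p k⟩

/-- a finite module over the complete Noetherian ring `W` is `p`-adically complete, and a power of the
maximal ideal lies in `(p)` -/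
theorem FW.cl {R : Type u} [CommRing R] [IsLocalRing R] [Algebra (WittVector p k) R] {π : R →+* k}
    (h : FW p π) : CL R := by
  have := (witt_cl p k).1
  have := h.fin
  exact GCom_cl (WittVector p k) R

/-- `T = R₁ ⊗_W R₂` is finite and flat over `W` (torsion-free modules over a valuation ring); every
maximal ideal of `T` contains `p` and the maximal ideals of the `R_i` (integrality), and
`R_i = W + m_i`, so it is the kernel of the map `T → k` induced by `π₁`, `π₂`; a minimal prime `Q` of `T`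
consists of zero-divisors, so `p ∉ Q`; `R = T ⧸ Q`. -/
theorem common {R₁ R₂ : Type u} [CommRing R₁] [IsLocalRing R₁] [Algebra (WittVector p k) R₁]
    [CommRing R₂] [IsLocalRing R₂] [Algebra (WittVector p k) R₂] {π₁ : R₁ →+* k} {π₂ : R₂ →+* k}
    (h₁ : FW p π₁) (h₂ : FW p π₂) :
    ∃ (R : Type u) (_ : CommRing R) (_ : IsLocalRing R) (_ : Algebra (WittVector p k) R)
      (π : R →+* k) (φ₁ : R₁ →+* R) (φ₂ : R₂ →+* R), FW p π ∧ (∀ a, π (φ₁ a) = π₁ a) ∧
      ∀ a, π (φ₂ a) = π₂ a := by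
  have := h₁.dom
  have := h₁.fin
  have := h₂.fin
  have := GCom_faithful p h₁
  have := GCom_faithful p h₂
  obtain ⟨R, _, _, _, π, φ₁, φ₂, e₁, e₂, e₃, e₄, e₅, e₆⟩ :=
    GCom_common (WittVector.constantCoeff : WittVector p k →+* k) (GCom_surj p (GCom_witt p))
      π₁ π₂ h₁.alg h₂.alg p (WittVector.p_nonzero p k)
  rw [map_natCast] at e₄
  exact ⟨R, inferInstance, inferInstance, inferInstance, π, φ₁, φ₂, ⟨e₁, e₂, e₃, e₄⟩, e₅, e₆⟩

theorem GCom_ind {Y : Type u} (S : Set Y) (hS : S.Finite) (H : Y → Type*) [∀ x, Group (H x)]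
    (ρx : ∀ x, H x →* (k⟦X⟧ ≃ₐ[k] k⟦X⟧))
    (h : ∀ x ∈ S, ∃ (R : Type u) (_ : CommRing R) (_ : IsLocalRing R)
      (_ : Algebra (WittVector p k) R) (π : R →+* k), FW p π ∧ LocLifts (ρx x) π) :
    ∃ (R : Type u) (_ : CommRing R) (_ : IsLocalRing R) (_ : Algebra (WittVector p k) R)
      (π : R →+* k), FW p π ∧ ∀ x ∈ S, LocLifts (ρx x) π := by
  induction S, hS using Set.Finite.induction_on with
  | empty =>
    exact ⟨WittVector p k, inferInstance, inferInstance, inferInstance, WittVector.constantCoeff,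
      GCom_witt p, fun x hx => hx.elim⟩
  | @insert a s _ _ ih =>
    obtain ⟨R₁, _, _, _, π₁, h₁, l₁⟩ := h a (Set.mem_insert a s)
    obtain ⟨R₂, _, _, _, π₂, h₂, l₂⟩ := ih fun x hx => h x (Set.mem_insert_of_mem a hx)
    obtain ⟨R, _, _, _, π, φ₁, φ₂, hR, e₁, e₂⟩ := common p h₁ h₂
    have := FW.cl p hR
    refine ⟨R, inferInstance, inferInstance, inferInstance, π, hR, fun x hx => ?_⟩
    rcases hx with rfl | hx
    · exact l₁.map φ₁ π (GCom_surj p hR) e₁
    · exact (l₂ x hx).map φ₂ π (GCom_surj p hR) e₂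

/-- induction on the finite set with `common`, `FW.cl`, `LocLifts.map`, starting from `W`; then
`A = R ⧸ m^M` with `p^N ∉ m^M` -/
theorem common_art {Y : Type u} (S : Set Y) (hS : S.Finite) (H : Y → Type*) [∀ x, Group (H x)]
    (ρx : ∀ x, H x →* (k⟦X⟧ ≃ₐ[k] k⟦X⟧))
    (h : ∀ x ∈ S, ∃ (R : Type u) (_ : CommRing R) (_ : IsLocalRing R)
      (_ : Algebra (WittVector p k) R) (π : R →+* k), FW p π ∧ LocLifts (ρx x) π) (N : ℕ) :
    ∃ (A : Type u) (_ : CommRing A) (_ : IsLocalRing A) (_ : IsArtinianRing A) (π : A →+* k),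
      Surjective π ∧ (p : A) ^ N ≠ 0 ∧ ∀ x ∈ S, LocLifts (ρx x) π := by
  obtain ⟨R, _, _, _, π, hR, l⟩ := GCom_ind p S hS H ρx h
  have := hR.dom
  have := FW.cl p hR
  obtain ⟨A, _, _, _, π', φ, e₁, e₂, e₃⟩ :=
    GCom_art π (GCom_surj p hR) ((p : R) ^ N) (pow_ne_zero N hR.ne)
  rw [map_pow, map_natCast] at e₂
  have : CL A := ⟨inferInstance, inferInstance⟩
  exact ⟨A, inferInstance, inferInstance, inferInstance, π', e₁, e₂,
    fun x hx => (l x hx).map φ π' e₁ e₃⟩

end Pool.Agent.MP_deef5c_ag.O
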