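import Pool.Agent.MP_deef5c_ag.O.GDefs

/-! The lift of the function field. -/

open CategoryTheory AlgebraicGeometry IsLocalRing Function
open scoped Polynomial PowerSeries

namespace Pool.Agent.MP_deef5c_ag.O

universe u

variable {k A K : Type u} [Field k] [CommRing A] [IsLocalRing A] [IsArtinianRing A] [Field K]
  [Algebra k K]

theorem GKl_unit {R L : Type*} [CommRing R] [CommRing L] (r : R →+* L)
    (hn : ∀ a, r a = 0 → IsNilpotent a) {x s : R} (h : r x * r s = 1) : IsUnit x := by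
  have h1 := (hn (x * s - 1) (by rw [map_sub, map_mul, h, map_one, sub_self])).isUnit_add_one
  rw [sub_add_cancel] at h1
  exact isUnit_of_mul_isUnit_left h1

theorem GKl_root {R L : Type*} [CommRing R] [CommRing L] (ψ : R →+* L) (p : R[X]) (x : L)
    (h : IsNilpotent (p.eval₂ ψ x)) (h' : IsUnit ((Polynomial.derivative p).eval₂ ψ x)) :
    ∃! y, IsNilpotent (x - y) ∧ p.eval₂ ψ y = 0 :=
  letI := ψ.toAlgebra
  Polynomial.existsUnique_nilpotent_sub_and_aeval_eq_zero (P := p) (x := x) h h'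

theorem GKl_root_eq {R L : Type*} [CommRing R] [CommRing L] (ψ : R →+* L) (p : R[X]) {x y : L}
    (hx : p.eval₂ ψ x = 0) (hy : p.eval₂ ψ y = 0) (hn : IsNilpotent (x - y))
    (h' : IsUnit ((Polynomial.derivative p).eval₂ ψ x)) : x = y :=
  (GKl_root ψ p x (by rw [hx]; exact IsNilpotent.zero) h').unique
    ⟨by rw [sub_self]; exact IsNilpotent.zero, hx⟩ ⟨hn, hy⟩

/-- the localisation at `N` of `A[X][T] / (P)` -/
structure GKlM {A K' : Type u} [CommRing A] [CommRing K'] [Algebra A K'] (P : A[X][X])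
    (N : Submonoid A[X]) (ψ : A[X] →+* K') (θ : K') : Prop where
  flat : Module.Flat A K'
  alg : ∀ a, ψ (Polynomial.C a) = algebraMap A K' a
  root : P.eval₂ ψ θ = 0
  unit : ∀ c ∈ N, IsUnit (ψ c)
  gen : ∀ b, ∃ Q : A[X][X], ∃ c ∈ N, ψ c * b = Q.eval₂ ψ θ
  lift : ∀ (L : Type u) [CommRing L] (χ : A[X] →+* L) (t : L), P.eval₂ χ t = 0 →
    (∀ c ∈ N, IsUnit (χ c)) → ∃ e : K' →+* L, e.comp ψ = χ ∧ e θ = t

theorem GKl_model {A : Type u} [CommRing A] (P : A[X][X]) (hP : P.Monic) (N : Submonoid A[X]) :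
    ∃ (K' : Type u) (_ : CommRing K') (_ : Algebra A K') (ψ : A[X] →+* K') (θ : K'),
      GKlM P N ψ θ := by
  let M : Submonoid (AdjoinRoot P) := N.map (AdjoinRoot.of P)
  let i := algebraMap (AdjoinRoot P) (Localization M)
  have hev : ∀ Q : A[X][X], Q.eval₂ (i.comp (AdjoinRoot.of P)) (i (AdjoinRoot.root P)) =
      i (AdjoinRoot.mk P Q) := fun Q => by
    rw [← Polynomial.hom_eval₂, ← AdjoinRoot.aeval_eq, Polynomial.aeval_def,
      AdjoinRoot.algebraMap_eq]
  refine ⟨Localization M, inferInstance, inferInstance, i.comp (AdjoinRoot.of P),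
    i (AdjoinRoot.root P), ?_, fun a => ?_, ?_, fun c hc => ?_, fun b => ?_,
    fun L _ χ t h1 h2 => ?_⟩
  · have := hP.free_adjoinRoot
    have : Module.Flat A (AdjoinRoot P) := Module.Flat.trans A A[X] (AdjoinRoot P)
    have : Module.Flat (AdjoinRoot P) (Localization M) := IsLocalization.flat _ M
    exact Module.Flat.trans A (AdjoinRoot P) (Localization M)
  · rw [IsScalarTower.algebraMap_apply A (AdjoinRoot P) (Localization M),
      AdjoinRoot.algebraMap_eq']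
    rfl
  · rw [hev, AdjoinRoot.mk_self, map_zero]
  · exact IsLocalization.map_units (Localization M) (⟨_, c, hc, rfl⟩ : M)
  · obtain ⟨⟨x, _, c, hc, rfl⟩, h⟩ := IsLocalization.surj M b
    obtain ⟨Q, rfl⟩ := AdjoinRoot.mk_surjective x
    exact ⟨Q, c, hc, by rw [hev, mul_comm]; exact h⟩
  · have hu : ∀ y : M, IsUnit (AdjoinRoot.lift χ t h1 y) := by
      rintro ⟨_, c, hc, rfl⟩
      have := h2 c hc
      rwa [← AdjoinRoot.lift_of h1] at this
    refine ⟨IsLocalization.lift (S := Localization M) hu, ?_, ?_⟩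
    · rw [← RingHom.comp_assoc, IsLocalization.lift_comp, AdjoinRoot.lift_comp_of]
    · rw [IsLocalization.lift_eq, AdjoinRoot.lift_root]

theorem GKlM.ext {A K' : Type u} [CommRing A] [CommRing K'] [Algebra A K'] {P : A[X][X]}
    {N : Submonoid A[X]} {ψ : A[X] →+* K'} {θ : K'} (H : GKlM P N ψ θ) {L : Type u} [CommRing L]
    {e₁ e₂ : K' →+* L} (h1 : e₁.comp ψ = e₂.comp ψ) (h2 : e₁ θ = e₂ θ) : e₁ = e₂ := by
  ext b
  obtain ⟨Q, c, hc, h⟩ := H.gen b
  refine ((H.unit c hc).map e₁).mul_left_cancel ?_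
  have h3 : e₁ (ψ c) = e₂ (ψ c) := RingHom.congr_fun h1 c
  rw [← map_mul, h3, ← map_mul, h, Polynomial.hom_eval₂, Polynomial.hom_eval₂, h1, h2]

theorem GKl_ker {K' : Type u} [CommRing K'] [Algebra A K'] (π : A →+* k) (hπ : Surjective π)
    {ψ : A[X] →+* K'} (hψ : ∀ a, ψ (Polynomial.C a) = algebraMap A K' a) (θ : K') {Q : A[X][X]}
    (hQ : Q.map (Polynomial.mapRingHom π) = 0) :
    Q.eval₂ ψ θ ∈ (maximalIdeal A).map (algebraMap A K') := by
  have h1 : Q ∈ RingHom.ker (Polynomial.mapRingHom (Polynomial.mapRingHom π)) := hQ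
  rw [Polynomial.ker_mapRingHom, Polynomial.ker_mapRingHom, ker_eq_maximalIdeal π hπ] at h1
  have h2 := Ideal.mem_map_of_mem (Polynomial.eval₂RingHom ψ θ) h1
  rw [Ideal.map_map, Ideal.map_map] at h2
  have h3 : ((Polynomial.eval₂RingHom ψ θ).comp Polynomial.C).comp Polynomial.C =
      algebraMap A K' := RingHom.ext fun a => by
    simp only [RingHom.comp_apply, Polynomial.coe_eval₂RingHom, Polynomial.eval₂_C, hψ]
  rwa [h3] at h2

theorem GKl_nil {K' : Type u} [CommRing K'] [Algebra A K'] {b : K'}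
    (hb : b ∈ (maximalIdeal A).map (algebraMap A K')) : IsNilpotent b := by
  obtain ⟨n, hn⟩ := IsArtinianRing.isNilpotent_jacobson_bot (R := A)
  rw [jacobson_eq_maximalIdeal _ bot_ne_top] at hn
  have h := Ideal.pow_mem_pow hb n
  rw [← Ideal.map_pow, hn, Ideal.zero_eq_bot, Ideal.map_bot] at h
  exact ⟨n, h⟩

/-- Let `P'` be a monic lift of `P` to `A[X][T]`, `B' = AdjoinRoot P'` (free over `A[X]`), and `K'` the
localisation of `B'` at the image of `{c : A[X] | c.map π ≠ 0}`.  For `ex`, `uniq`, `fin` use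
`Polynomial.existsUnique_nilpotent_sub_and_aeval_eq_zero` (a simple root of `P'(F, T)` lifts uniquely
along a nil kernel) and that an element with invertible image is invertible.  For `fin`, if
`c(f') b' = Q(f', θ')` take `Z = {θ, (P_T(f, θ))⁻¹, (c̄(f))⁻¹}` and solve inside `S`. -/
theorem exists_kl (π : A →+* k) (hπ : Surjective π) (f θ : K) (P : k[X][X])
    (hf : Transcendental k f) (hP : P.Monic)
    (h1 : ∀ Q : k[X][X], Q.eval₂ (Polynomial.aeval f : k[X] →ₐ[k] K) θ = 0 ↔ P ∣ Q)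
    (h2 : (Polynomial.derivative P).eval₂ (Polynomial.aeval f : k[X] →ₐ[k] K) θ ≠ 0)
    (h3 : ∀ b : K, ∃ (Q : k[X][X]) (c : k[X]), c ≠ 0 ∧
      Polynomial.aeval f c * b = Q.eval₂ (Polynomial.aeval f : k[X] →ₐ[k] K) θ) :
    ∃ (K' : Type u) (_ : CommRing K') (_ : Algebra A K') (red : K' →+* K) (f' : K'),
      KL π red f f' := by
  classical
  have hπ1 : Surjective (Polynomial.mapRingHom π) := Polynomial.map_surjective π hπ
  have hπ2 := Polynomial.map_surjective _ hπ1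
  obtain ⟨P', hP', -, hm⟩ := Polynomial.lifts_and_natDegree_eq_and_monic
    ((Polynomial.mem_lifts P).2 (hπ2 P)) hP
  obtain ⟨K', _, _, ψ, θ', H⟩ :=
    GKl_model P' hm ((nonZeroDivisors k[X]).comap (Polynomial.mapRingHom π))
  obtain ⟨γ, hγ⟩ : ∃ γ : A[X] →+* K, γ =
    ((Polynomial.aeval f : k[X] →ₐ[k] K) : k[X] →+* K).comp (Polynomial.mapRingHom π) := ⟨_, rfl⟩
  have hγ1 : ∀ Q : A[X][X], Q.eval₂ γ θ = (Q.map (Polynomial.mapRingHom π)).eval₂
      (Polynomial.aeval f : k[X] →ₐ[k] K) θ := fun Q => by rw [Polynomial.eval₂_map, hγ]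
  have hγ2 : ∀ c, γ c = Polynomial.aeval f (c.map π) := fun c => by rw [hγ]; rfl
  have hγC : ∀ a, γ (Polynomial.C a) = algebraMap k K (π a) := fun a => by
    rw [hγ2, Polynomial.map_C, Polynomial.aeval_C]
  have hγX : γ Polynomial.X = f := by rw [hγ2, Polynomial.map_X, Polynomial.aeval_X]
  have hγN : ∀ c ∈ (nonZeroDivisors k[X]).comap (Polynomial.mapRingHom π), γ c ≠ 0 :=
    fun c hc e => nonZeroDivisors.ne_zero hc
      ((transcendental_iff.1 hf) _ (by rw [← e, hγ2]; rfl))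
  have hroot : P'.eval₂ γ θ = 0 := by rw [hγ1, hP']; exact (h1 P).2 dvd_rfl
  have hD : (Polynomial.derivative P').eval₂ γ θ ≠ 0 := by
    rw [hγ1, ← Polynomial.derivative_map, hP']
    exact h2
  obtain ⟨red, hr1, hr2⟩ := H.lift K γ θ hroot fun c hc => (hγN c hc).isUnit
  have hrψ : ∀ c, red (ψ c) = γ c := fun c => RingHom.congr_fun hr1 c
  have hrev : ∀ (Q : A[X][X]) t, red (Q.eval₂ ψ t) = Q.eval₂ γ (red t) := fun Q t => by
    rw [Polynomial.hom_eval₂, hr1]
  have halg : ∀ a, red (algebraMap A K' a) = algebraMap k K (π a) := fun a => by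
    rw [← H.alg, hrψ, hγC]
  have hsurj : Surjective red := fun b => by
    obtain ⟨Q, c, hc, h⟩ := h3 b
    obtain ⟨Q', rfl⟩ := hπ2 Q
    obtain ⟨c', rfl⟩ := hπ1 c
    have hc' : c' ∈ (nonZeroDivisors k[X]).comap (Polynomial.mapRingHom π) :=
      mem_nonZeroDivisors_of_ne_zero hc
    obtain ⟨u, hu⟩ := (H.unit c' hc').exists_right_inv
    refine ⟨u * Q'.eval₂ ψ θ', mul_left_cancel₀ (hγN c' hc') ?_⟩
    rw [← hrψ, ← map_mul, ← mul_assoc, hu, one_mul, hrev, hr2, hrψ, hγ1, hγ2]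
    exact h.symm
  have hker : ∀ b, red b = 0 → b ∈ (maximalIdeal A).map (algebraMap A K') := fun b hb => by
    obtain ⟨Q, c, hc, h⟩ := H.gen b
    have h4 : Q.eval₂ γ θ = 0 := by rw [← hr2, ← hrev, ← h, map_mul, hb, mul_zero]
    rw [hγ1] at h4
    obtain ⟨G, hG⟩ := (h1 _).1 h4
    obtain ⟨G', rfl⟩ := hπ2 G
    have h5 := GKl_ker π hπ H.alg θ' (Q := Q - P' * G')
      (by rw [Polynomial.map_sub, Polynomial.map_mul, hP', hG, sub_self])
    rw [Polynomial.eval₂_sub, Polynomial.eval₂_mul, H.root, zero_mul, sub_zero, ← h] at h5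
    exact (Ideal.unit_mul_mem_iff_mem _ (H.unit c hc)).1 h5
  have hnil : ∀ b, red b = 0 → IsNilpotent b := fun b hb => GKl_nil (hker b hb)
  have hu : IsUnit ((Polynomial.derivative P').eval₂ ψ θ') := by
    obtain ⟨s, hs⟩ := hsurj ((Polynomial.derivative P').eval₂ γ θ)⁻¹
    exact GKl_unit red hnil (s := s) (by rw [hrev, hr2, hs, mul_inv_cancel₀ hD])
  refine ⟨K', inferInstance, inferInstance, red, ψ Polynomial.X, H.flat, hsurj,
    le_antisymm hker (Ideal.map_le_iff_le_comap.2 fun a ha => ?_), halg, by rw [hrψ, hγX],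
    fun L' L _ _ _ r hr hn j hj F hF => ?_, fun L' L _ _ _ r hn e₁ e₂ he hf' => ?_, fun b => ?_⟩
  · rw [← ker_eq_maximalIdeal π hπ, RingHom.mem_ker] at ha
    rw [Ideal.mem_comap, RingHom.mem_ker, halg, ha, map_zero]
  · obtain ⟨χ, hχC, hχX⟩ : ∃ χ : A[X] →+* L', (∀ a, χ (Polynomial.C a) = algebraMap A L' a) ∧
        χ Polynomial.X = F :=
      ⟨(Polynomial.aeval F : A[X] →ₐ[A] L'), Polynomial.aeval_C F, Polynomial.aeval_X F⟩
    have hc : r.comp χ = j.comp γ := Polynomial.ringHom_ext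
      (fun a => by rw [RingHom.comp_apply, RingHom.comp_apply, hχC, hγC, hj])
      (by rw [RingHom.comp_apply, RingHom.comp_apply, hχX, hγX, hF])
    have hun : ∀ (x : L') (y : K), y ≠ 0 → r x = j y → IsUnit x := fun x y hy e => by
      obtain ⟨s, hs⟩ := hr (j y⁻¹)
      exact GKl_unit r hn (s := s) (by rw [e, hs, ← map_mul, mul_inv_cancel₀ hy, map_one])
    obtain ⟨t, ht⟩ := hr (j θ)
    have hev : ∀ Q : A[X][X], r (Q.eval₂ χ t) = j (Q.eval₂ γ θ) := fun Q => by
      rw [Polynomial.hom_eval₂, Polynomial.hom_eval₂, hc, ht]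
    obtain ⟨t', ⟨h4, h5⟩, -⟩ := GKl_root χ P' t (hn _ (by rw [hev, hroot, map_zero]))
      (hun _ _ hD (hev _))
    have h6 : j θ = r t' := GKl_root_eq (j.comp γ) P'
      (by rw [← Polynomial.hom_eval₂, hroot, map_zero])
      (by rw [← hc, ← Polynomial.hom_eval₂, h5, map_zero])
      (by rw [← ht, ← map_sub]; exact h4.map r)
      (by rw [← Polynomial.hom_eval₂]; exact hD.isUnit.map j)
    obtain ⟨e, he1, he2⟩ := H.lift L' χ t' h5 fun c hc' =>
      hun _ _ (hγN c hc') (RingHom.congr_fun hc c)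
    have he3 : ∀ c, e (ψ c) = χ c := fun c => RingHom.congr_fun he1 c
    have h7 : r.comp e = j.comp red := H.ext
      (by rw [RingHom.comp_assoc, RingHom.comp_assoc, he1, hr1, hc])
      (by rw [RingHom.comp_apply, RingHom.comp_apply, he2, hr2, h6])
    exact ⟨{ e with commutes' := fun a => (congrArg e (H.alg a).symm).trans ((he3 _).trans (hχC a)) },
      fun b => RingHom.congr_fun h7 b, (he3 _).trans hχX⟩
  · have hc : (e₁ : K' →+* L').comp ψ = (e₂ : K' →+* L').comp ψ := Polynomial.ringHom_ext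
      (fun a => by
        rw [RingHom.comp_apply, RingHom.comp_apply, H.alg]
        exact (e₁.commutes a).trans (e₂.commutes a).symm) hf'
    have h4 : (e₁ : K' →+* L') θ' = (e₂ : K' →+* L') θ' :=
      GKl_root_eq ((e₁ : K' →+* L').comp ψ) P'
        (by rw [← Polynomial.hom_eval₂, H.root, map_zero])
        (by rw [hc, ← Polynomial.hom_eval₂, H.root, map_zero])
        (hn _ (by rw [map_sub]; exact sub_eq_zero.2 (he θ')))
        (by rw [← Polynomial.hom_eval₂]; exact hu.map _)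
    exact AlgHom.coe_ringHom_injective (H.ext hc h4)
  · obtain ⟨Q, c, hc, h⟩ := H.gen b
    refine ⟨{θ, ((Polynomial.derivative P').eval₂ γ θ)⁻¹, (γ c)⁻¹}, fun S hS hZ => ?_⟩
    obtain ⟨s₁, hs₁, e₁⟩ := hZ θ (by simp)
    obtain ⟨s₂, hs₂, e₂⟩ := hZ ((Polynomial.derivative P').eval₂ γ θ)⁻¹ (by simp)
    obtain ⟨s₃, hs₃, e₃⟩ := hZ (γ c)⁻¹ (by simp)
    obtain ⟨ι, hι, hιi⟩ : ∃ ι : S →+* K', (∀ x, ι x = x) ∧ Injective ι :=
      ⟨S.val, fun _ => rfl, Subtype.val_injective⟩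
    obtain ⟨χ, hχ⟩ : ∃ χ : A[X] →+* S, ι.comp χ = ψ :=
      ⟨(Polynomial.aeval (⟨_, hS⟩ : S) : A[X] →ₐ[A] S), Polynomial.ringHom_ext
        (fun a => by
          rw [RingHom.comp_apply, hι, H.alg, RingHom.coe_coe, Polynomial.aeval_C]
          rfl)
        (by rw [RingHom.comp_apply, hι, RingHom.coe_coe, Polynomial.aeval_X])⟩
    have hn : ∀ a, (red.comp ι) a = 0 → IsNilpotent a := fun a ha =>
      (IsNilpotent.map_iff hιi).1 (hnil _ ha)
    have hev : ∀ (G : A[X][X]) t, ι (G.eval₂ χ t) = G.eval₂ ψ (ι t) := fun G t => by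
      rw [Polynomial.hom_eval₂, hχ]
    have hev' : ∀ G : A[X][X], (red.comp ι) (G.eval₂ χ ⟨s₁, hs₁⟩) = G.eval₂ γ θ := fun G => by
      rw [RingHom.comp_apply, hev, hrev, hι, e₁]
    obtain ⟨t, ⟨h4, h5⟩, -⟩ := GKl_root χ P' ⟨s₁, hs₁⟩ (hn _ (by rw [hev', hroot]))
      (GKl_unit _ hn (s := ⟨s₂, hs₂⟩)
        (by rw [hev', RingHom.comp_apply, hι, e₂, mul_inv_cancel₀ hD]))
    have h6 : θ' = ι t := by
      refine GKl_root_eq ψ P' H.root (by rw [← hev, h5, map_zero]) ?_ hu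
      have h7 := h4.map ι
      rw [map_sub, hι] at h7
      have h8 := hnil (θ' - s₁) (by rw [map_sub, hr2, e₁, sub_self])
      have h9 := (Commute.all _ _).isNilpotent_add h8 h7
      rwa [sub_add_sub_cancel] at h9
    have h7 : ι (χ c) = ψ c := RingHom.congr_fun hχ c
    obtain ⟨u, hu'⟩ := (GKl_unit _ hn (x := χ c) (s := ⟨s₃, hs₃⟩) (by
      rw [RingHom.comp_apply, RingHom.comp_apply, h7, hrψ, hι, e₃,
        mul_inv_cancel₀ (hγN c hc)])).exists_left_inv
    have h8 : b = ι (u * Q.eval₂ χ t) := by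
      rw [map_mul, hev, ← h6, ← h, ← h7, ← mul_assoc, ← map_mul, hu', map_one, one_mul]
    rw [h8, hι]
    exact Subtype.property _

end Pool.Agent.MP_deef5c_ag.O
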