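import Pool.Agent.MP_deef5c_ag.O.GLau

/-! The flat model at a point attached to a local lift. -/

open CategoryTheory AlgebraicGeometry IsLocalRing Function
open scoped Polynomial PowerSeries

namespace Pool.Agent.MP_deef5c_ag.O

universe u

variable {k A K K' : Type u} [Field k] [CommRing A] [IsLocalRing A] [IsArtinianRing A] [Field K]
  [Algebra k K] [CommRing K'] [Algebra A K']

theorem GLoc_nil {A : Type u} [CommRing A] [IsLocalRing A] [IsArtinianRing A] :
    ∃ N : ℕ, maximalIdeal A ^ N = ⊥ :=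
  (isArtinianRing_iff_isNilpotent_maximalIdeal A).mp inferInstance

theorem GLoc_nilp {A L L' : Type u} [CommRing A] [IsLocalRing A] [IsArtinianRing A] [CommRing L]
    [CommRing L'] [Algebra A L'] {r : L' →+* L}
    (hr : RingHom.ker r = (maximalIdeal A).map (algebraMap A L')) (a : L') (ha : r a = 0) :
    IsNilpotent a := by
  obtain ⟨N, hN⟩ := GLoc_nil (A := A)
  have h1 : a ∈ (maximalIdeal A).map (algebraMap A L') := hr ▸ RingHom.mem_ker.2 ha
  have h2 := Ideal.pow_mem_pow h1 N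
  rw [← Ideal.map_pow, hN, Ideal.map_bot, Ideal.mem_bot] at h2
  exact ⟨N, h2⟩

theorem GLoc_unit {L L' : Type u} [Field L] [CommRing L'] {r : L' →+* L} (hs : Surjective r)
    (hn : ∀ a, r a = 0 → IsNilpotent a) {z : L'} (hz : r z ≠ 0) : IsUnit z := by
  obtain ⟨y, hy⟩ := hs (r z)⁻¹
  have h1 := (hn (z * y - 1) (by rw [map_sub, map_mul, hy, map_one, mul_inv_cancel₀ hz,
    sub_self])).isUnit_add_one
  rw [sub_add_cancel] at h1
  exact isUnit_of_mul_isUnit_left h1

theorem GLoc_model {A K K' L L' : Type u} [CommRing A] [IsLocalRing A] [IsArtinianRing A]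
    [CommRing K] [CommRing K'] [Algebra A K'] [CommRing L] [CommRing L'] [Algebra A L']
    (red : K' →+* K) (hs : Surjective red)
    (hk : RingHom.ker red = (maximalIdeal A).map (algebraMap A K')) (r : L' →+* L)
    (hr : RingHom.ker r = (maximalIdeal A).map (algebraMap A L')) (j : K →+* L)
    (e : K' →ₐ[A] L') (he : ∀ b, r (e b) = j (red b)) (P : Subalgebra A L')
    (hP : Module.Flat A (L' ⧸ Subalgebra.toSubmodule P))
    (hsum : ∀ z : L', ∃ b, ∃ g ∈ P, r z = j b + r g) :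
    Module.Flat A (K' ⧸ Subalgebra.toSubmodule (P.comap e)) ∧
      ∀ b, (∃ g ∈ P, r g = j b) → ∃ b' ∈ P.comap e, red b' = b := by
  have hm : ∀ z : L', r z = 0 → z ∈ maximalIdeal A • (⊤ : Submodule A L') := fun z hz => by
    rw [Ideal.smul_top_eq_map, Submodule.restrictScalars_mem, ← hr]
    exact hz
  let M : Submodule A L' := LinearMap.range e.toLinearMap ⊔ Subalgebra.toSubmodule P
  have h1 : (⊤ : Submodule A L') ≤ M ⊔ maximalIdeal A • ⊤ := fun z _ => by
    obtain ⟨b, g, hg, hz⟩ := hsum z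
    obtain ⟨b', rfl⟩ := hs b
    have h2 : z = (e b' + g) + (z - (e b' + g)) := by ring
    rw [h2]
    refine Submodule.add_mem_sup (Submodule.add_mem_sup ⟨b', rfl⟩ hg) (hm _ ?_)
    rw [map_sub, map_add, he, hz, sub_self]
  have h2 : ∀ i : ℕ, (⊤ : Submodule A L') ≤ M ⊔ maximalIdeal A ^ i • ⊤ := fun i => by
    induction i with
    | zero => rw [pow_zero, Ideal.one_eq_top, Submodule.top_smul]; exact le_sup_right
    | succ i ih =>
      refine ih.trans (sup_le le_sup_left ((Submodule.smul_mono le_rfl h1).trans ?_))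
      rw [Submodule.smul_sup, ← Submodule.mul_smul, ← pow_succ]
      exact sup_le_sup_right Submodule.smul_le_right _
  have h3 : ∀ z : L', ∃ b, ∃ g ∈ P, z = e b + g := fun z => by
    obtain ⟨N, hN⟩ := GLoc_nil (A := A)
    have h4 := h2 N (Submodule.mem_top (x := z))
    rw [hN, Submodule.bot_smul, sup_bot_eq] at h4
    obtain ⟨_, ⟨b, rfl⟩, g, hg, h5⟩ := Submodule.mem_sup.1 h4
    exact ⟨b, g, hg, h5.symm⟩
  have h4 : ∀ z : L', r z = 0 → ∃ c, red c = 0 ∧ ∃ g ∈ P, z = e c + g := fun z hz => by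
    refine Submodule.smul_induction_on (p := fun z => ∃ c, red c = 0 ∧ ∃ g ∈ P, z = e c + g)
      (hm z hz) (fun a ha y _ => ?_) ?_
    · obtain ⟨b, g, hg, rfl⟩ := h3 y
      refine ⟨a • b, ?_, a • g, P.smul_mem hg a, by rw [smul_add, map_smul]⟩
      rw [← RingHom.mem_ker, hk, Algebra.smul_def]
      exact Ideal.mul_mem_right _ _ (Ideal.mem_map_of_mem _ ha)
    · rintro _ _ ⟨c, hc, g, hg, rfl⟩ ⟨c', hc', g', hg', rfl⟩
      exact ⟨c + c', by rw [map_add, hc, hc', add_zero], g + g', add_mem hg hg', by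
        rw [map_add]; ring⟩
  refine ⟨?_, ?_⟩
  · let q : K' →ₗ[A] L' ⧸ Subalgebra.toSubmodule P :=
      (Subalgebra.toSubmodule P).mkQ ∘ₗ e.toLinearMap
    have hq : Surjective q := fun y => by
      obtain ⟨z, rfl⟩ := (Subalgebra.toSubmodule P).mkQ_surjective y
      obtain ⟨b, g, hg, rfl⟩ := h3 z
      refine ⟨b, (Submodule.Quotient.eq _).2 ?_⟩
      simpa using hg
    have hk' : Subalgebra.toSubmodule (P.comap e) = LinearMap.ker q := by
      ext b
      simp [q]
    exact Module.Flat.of_linearEquiv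
      ((Submodule.quotEquivOfEq _ _ hk').trans (q.quotKerEquivOfSurjective hq))
  · rintro b ⟨g, hg, hb⟩
    obtain ⟨b₀, rfl⟩ := hs b
    obtain ⟨c, hc, g', hg', h5⟩ := h4 (e b₀ - g) (by rw [map_sub, he, hb, sub_self])
    refine ⟨b₀ - c, ?_, by rw [map_sub, hc, sub_zero]⟩
    have h6 : e (b₀ - c) = g + g' := by
      rw [map_sub]
      linear_combination h5
    rw [Subalgebra.mem_comap, h6]
    exact add_mem hg hg'

theorem GLoc_ex {A : Type u} [CommRing A] (z : LaurentSeries A) :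
    ∃ (n : ℕ) (g : A⟦X⟧), z * lcA A PowerSeries.X ^ n = lcA A g := by
  obtain ⟨⟨g, _, n, rfl⟩, h⟩ :=
    IsLocalization.surj (Submonoid.powers (PowerSeries.X : A⟦X⟧)) z
  exact ⟨n, g, by rw [← map_pow]; exact h⟩

theorem GLoc_sum {k K : Type u} [Field k] [Field K] [Algebra k K] {O : Subring K}
    {j : K →+* LaurentSeries k} {t : K} (C : CP O j t) (z : LaurentSeries k) :
    ∃ b g, z = j b + lc k g := by
  obtain ⟨n, g, h⟩ := Lau_ex z
  have hX : lc k PowerSeries.X ≠ 0 := Lau_ne PowerSeries.X_ne_zero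
  induction n generalizing z g with
  | zero => exact ⟨0, g, by simpa using h⟩
  | succ n ih =>
    have h1 : lc k (PowerSeries.C (PowerSeries.constantCoeff g)) =
        j (algebraMap k K (PowerSeries.constantCoeff g)) := by
      rw [C.alg, LaurentSeries.algebraMap_apply]
      exact PowerSeries.coe_C _
    obtain ⟨b, g', h2⟩ := ih (z - j (algebraMap k K (PowerSeries.constantCoeff g) / t ^ (n + 1)))
      (PowerSeries.mk fun i => PowerSeries.coeff (i + 1) g) (by
        refine mul_left_cancel₀ hX ?_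
        rw [PowerSeries.eq_X_mul_shift_add_const g, map_add, map_mul, h1] at h
        have h2 := div_mul_cancel₀ (j (algebraMap k K (PowerSeries.constantCoeff g)))
          (pow_ne_zero (n + 1) hX)
        rw [map_div₀, map_pow, C.uni]
        linear_combination h - h2)
    exact ⟨algebraMap k K (PowerSeries.constantCoeff g) / t ^ (n + 1) + b, g', by
      rw [map_add]
      linear_combination h2⟩

/-- Let `L' = LaurentSeries A`, `r` from `exists_lred`, `ρ'` the local lift, `ψ h` its extension to `L'`,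
`y' = ∏ ρ' h X` lifting `y = ∏ ρx h X`.  `j f` is invariant: `y^M j f = lc (sub y g₀)` (`ginv`; `M = 0` if
`f ∈ O`), so `F = lcA (sub y' g₀') / y'^M` is an invariant lift of `j f`.  `KL.ex` gives `e : K' → L'`,
`KL.uniq` gives `e ∘ T' h⁻¹ = ψ h ∘ e`.  Put `O' = (lcA A).range.comap e`.  Since `j K + k⟦X⟧ = k((X))`
(polynomials in `1/t`) and `m` is nilpotent, `e K' + A⟦X⟧ = L'`, so `K' ⧸ O' ≃ L' ⧸ A⟦X⟧` is flat, and a
lift `b'` of `b ∈ O` can be corrected by an element of `m K'` to lie in `O'`. -/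
theorem loc_model {π : A →+* k} (hπ : Surjective π) {red : K' →+* K} {f : K} {f' : K'}
    (L : KL π red f f') {O : Subring K} {j : K →+* LaurentSeries k} {t : K} (C : CP O j t)
    {H : Type*} [Group H] [Finite H] (T : H → K →+* K) (T' : H → K' →ₐ[A] K')
    (hr : ∀ h b, red (T' h b) = T h (red b)) (hf' : ∀ h, T' h f' = f')
    {ρx : H →* (k⟦X⟧ ≃ₐ[k] k⟦X⟧)} (hρ : LA T j ρx) (hl : LocLifts ρx π) :
    ∃ O' : Subalgebra A K', PM red O f f' O' ∧ ∀ h, ∀ b ∈ O', T' h b ∈ O' := by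
  classical
  haveI := Fintype.ofFinite H
  haveI : CL A := ⟨inferInstance, inferInstance⟩
  obtain ⟨r, hrs, hrk, hrl⟩ := exists_lred π hπ
  obtain ⟨ρ', hρ'⟩ := hl
  have hn := GLoc_nilp hrk
  have hXne : ∀ h, lc k (ρx h PowerSeries.X) ≠ 0 := fun h =>
    Lau_ne ((map_ne_zero_iff _ (ρx h).injective).2 PowerSeries.X_ne_zero)
  have hψ : ∀ h, ∃ ψ : LaurentSeries A →ₐ[A] LaurentSeries A,
      ∀ g, ψ (lcA A g) = lcA A (ρ' h g) := fun h =>
    exists_lextA (ρ' h : En A) (GLoc_unit hrs hn (by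
      rw [hrl]
      change lc k (PowerSeries.map π (ρ' h PowerSeries.X)) ≠ 0
      rw [hρ', PowerSeries.map_X]
      exact hXne h))
  choose ψ hψ using hψ
  have hT : ∀ h b n g, j b * lc k PowerSeries.X ^ n = lc k g →
      j (T h⁻¹ b) * lc k (ρx h PowerSeries.X) ^ n = lc k (ρx h g) := fun h b n g hb => by
    rw [← hρ.2 h t _ C.uni, ← hρ.2 h (b * t ^ n) g (by rw [map_mul, map_pow, C.uni, hb]),
      map_mul, map_pow, map_mul, map_pow]
  have hc : ∀ h z b, r z = j b → r (ψ h z) = j (T h⁻¹ b) := fun h z b hz => by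
    obtain ⟨n, g, h1⟩ := GLoc_ex z
    have h2 := congrArg r h1
    rw [map_mul, map_pow, hrl, hrl, PowerSeries.map_X, hz] at h2
    have h3 := congrArg (fun y => r (ψ h y)) h1
    simp only [map_mul, map_pow, hψ, hrl, hρ', PowerSeries.map_X] at h3
    exact mul_right_cancel₀ (pow_ne_zero n (hXne h)) (h3.trans (hT h b n _ h2).symm)
  obtain ⟨ho, hinv⟩ := ginv ρx hρ.1
  have hd : 0 < Fintype.card H := Fintype.card_pos
  set y := ∏ h, ρx h PowerSeries.X with hy
  set y' := ∏ h, ρ' h PowerSeries.X with hy'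
  have hyy : PowerSeries.map π y' = y := by
    rw [hy', map_prod]
    exact Finset.prod_congr rfl fun h _ => by rw [hρ', PowerSeries.map_X]
  have hy1 : ∀ h, ρx h y = y := fun h => by
    rw [hy, map_prod]
    exact Fintype.prod_equiv (Equiv.mulLeft h) _ _ fun g => by
      rw [Equiv.coe_mulLeft, map_mul, AlgEquiv.mul_apply]
  have hy2 : ∀ h, ρ' h y' = y' := fun h => by
    rw [hy', map_prod]
    exact Fintype.prod_equiv (Equiv.mulLeft h) _ _ fun g => by
      rw [Equiv.coe_mulLeft, map_mul, AlgEquiv.mul_apply]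
  have hm' : PowerSeries.constantCoeff y' ∈ maximalIdeal A :=
    Qb_mem π hπ y' _ hd (by rw [hyy, ho])
  have h0 : PowerSeries.constantCoeff y = 0 := Lau_cc hd ho
  have hm : PowerSeries.constantCoeff y ∈ maximalIdeal k := by
    rw [h0]
    exact zero_mem _
  have hyne : lc k y ≠ 0 := Lau_ne fun h => by
    rw [h, PowerSeries.order_zero] at ho
    exact ENat.top_ne_natCast _ ho
  have hTf : ∀ h, T h f = f := fun h => by rw [← L.hf, ← hr, hf']
  obtain ⟨M, g₁, hg₁, hM⟩ : ∃ (M : ℕ) (g₁ : k⟦X⟧), j f * lc k y ^ M = lc k g₁ ∧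
      (f ∈ O → M = 0) := by
    by_cases hO : f ∈ O
    · obtain ⟨g, hg⟩ := exists_lc_of_le ((C.mem f).1 hO)
      exact ⟨0, g, by rw [hg, pow_zero, mul_one], fun _ => rfl⟩
    · obtain ⟨n, g, h1⟩ := Lau_ex (j f)
      obtain ⟨w, hw⟩ := PowerSeries.X_dvd_iff.2 h0
      refine ⟨n, g * w ^ n, ?_, fun h => absurd h hO⟩
      rw [hw, map_mul, mul_pow, ← mul_assoc, h1, map_mul, map_pow]
  have hjy : j (∏ h, T h⁻¹ t) = lc k y := by
    rw [hy, map_prod, map_prod]
    exact Finset.prod_congr rfl fun h _ => hρ.2 h t _ C.uni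
  obtain ⟨g₀, hg₀⟩ := hinv g₁ fun h => by
    have h1 := hρ.2 h (f * (∏ h, T h⁻¹ t) ^ M) g₁ (by rw [map_mul, map_pow, hjy, hg₁])
    rw [map_mul, map_pow, map_mul, map_pow, hTf, hρ.2 h _ _ hjy, hy1, hg₁] at h1
    exact HahnSeries.ofPowerSeries_injective (Γ := ℤ) h1.symm
  obtain ⟨g₀', rfl⟩ := PowerSeries.map_surjective π hπ g₀
  have hG : PowerSeries.map π (sub y' g₀') = g₁ := by
    rw [← hg₀]
    exact map_en π (sub y') (sub y) (by rw [sub_X hm', sub_X hm, hyy]) (by rwa [sub_X hm]) g₀'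
  have hG' : ∀ h, ρ' h (sub y' g₀') = sub y' g₀' := fun h => by
    have h1 : ((ρ' h : En A) * sub y') PowerSeries.X = y' := by
      rw [AlgHom.mul_apply, sub_X hm']
      exact hy2 h
    exact AlgHom.congr_fun (en_ext (h1.trans (sub_X hm').symm) (by rwa [h1])) g₀'
  obtain ⟨u, hu⟩ : IsUnit (lcA A y') := GLoc_unit hrs hn (by rwa [hrl, hyy])
  have hF : lcA A (sub y' g₀') * ↑u⁻¹ ^ M * lcA A y' ^ M = lcA A (sub y' g₀') := by
    rw [← hu, mul_assoc, ← mul_pow, u.inv_mul, one_pow, mul_one]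
  have hF0 : M = 0 → lcA A (sub y' g₀') * ↑u⁻¹ ^ M ∈ (lcA A).range := fun h =>
    ⟨sub y' g₀', by rw [h, pow_zero, mul_one]; rfl⟩
  generalize lcA A (sub y' g₀') * ↑u⁻¹ ^ M = F at hF hF0
  have hF1 : r F = j f := by
    have h1 := congrArg r hF
    rw [map_mul, map_pow, hrl, hrl, hyy, hG, ← hg₁] at h1
    exact mul_right_cancel₀ (pow_ne_zero M hyne) h1
  have hF2 : ∀ h, ψ h F = F := fun h => by
    have h1 := congrArg (ψ h) hF
    rw [map_mul, map_pow, hψ, hψ, hy2, hG', ← hF, ← hu] at h1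
    exact (u.isUnit.pow M).mul_right_cancel h1
  obtain ⟨e, he, hef⟩ := L.ex (LaurentSeries A) (LaurentSeries k) r hrs hn j (fun a => by
    rw [← (lcA A).commutes, hrl, C.alg, LaurentSeries.algebraMap_apply]
    change lc k (PowerSeries.map π (PowerSeries.C a)) = _
    rw [PowerSeries.map_C]
    exact PowerSeries.coe_C _) F hF1
  have hcomm : ∀ h b, e (T' h⁻¹ b) = ψ h (e b) := fun h =>
    AlgHom.congr_fun (L.uniq (LaurentSeries A) (LaurentSeries k) r hn (e.comp (T' h⁻¹))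
      ((ψ h).comp e) (fun b => by
        rw [AlgHom.comp_apply, AlgHom.comp_apply, he, hr, hc h _ _ (he b)]) (by
        rw [AlgHom.comp_apply, AlgHom.comp_apply, hf', hef, hF2]))
  obtain ⟨hfl, hmem⟩ := GLoc_model red L.surj L.ker r hrk j e he (lcA A).range flat_lquot
    fun z => by
      obtain ⟨b, g, h1⟩ := GLoc_sum C (r z)
      obtain ⟨g', rfl⟩ := PowerSeries.map_surjective π hπ g
      exact ⟨b, lcA A g', ⟨g', rfl⟩, by rw [hrl, h1]⟩
  refine ⟨(lcA A).range.comap e, ⟨fun b => ⟨fun hb => hmem b ?_, ?_⟩, hfl, fun h => ?_⟩, ?_⟩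
  · obtain ⟨g, hg⟩ := exists_lc_of_le ((C.mem b).1 hb)
    obtain ⟨g', rfl⟩ := PowerSeries.map_surjective π hπ g
    exact ⟨lcA A g', ⟨g', rfl⟩, by rw [hrl, hg]⟩
  · rintro ⟨b', ⟨g, hg⟩, rfl⟩
    have h1 : lcA A g = e b' := hg
    rw [C.mem, ← he, ← h1, hrl]
    exact vv_lc_le _
  · rw [Subalgebra.mem_comap, hef]
    exact hF0 (hM h)
  · rintro h b ⟨g, hg⟩
    have h1 : lcA A g = e b := hg
    have h2 := hcomm h⁻¹ b
    rw [inv_inv, ← h1, hψ] at h2
    exact ⟨_, h2.symm⟩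

end Pool.Agent.MP_deef5c_ag.O
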