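import Pool.Agent.MP_deef5c_ag.O.GPt

/-! Approximation on affine opens of a curve. -/

open CategoryTheory AlgebraicGeometry IsLocalRing Function
open scoped Polynomial PowerSeries

namespace Pool.Agent.MP_deef5c_ag.O

universe u

theorem GDed_fin {B : Type u} [CommRing B] [IsNoetherianRing B] [Ring.DimensionLEOne B] {d : B}
    (hd : d ≠ 0) : {P : PrimeSpectrum B | d ∈ P.asIdeal}.Finite := by
  refine Set.Finite.of_finite_image (f := fun P => P.asIdeal) ?_ fun P _ Q _ h => PrimeSpectrum.ext h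
  refine (Ideal.finite_minimalPrimes_of_isNoetherianRing B (Ideal.span {d})).subset ?_
  rintro _ ⟨P, hP, rfl⟩
  obtain ⟨Q, hQ, hQP⟩ := Ideal.exists_minimalPrimes_le (J := P.asIdeal)
    ((Ideal.span_singleton_le_iff_mem _).2 hP)
  have h1 : Q ≠ ⊥ := by
    rintro rfl
    exact hd ((Ideal.span_singleton_le_iff_mem _).1 hQ.1.2)
  have h2 := (Ring.DimensionLEOne.maximalOfPrime h1 hQ.1.1).eq_of_le P.2.ne_top hQP
  rwa [h2] at hQ

theorem GDed_sep {B : Type u} [CommRing B] [Ring.DimensionLEOne B] {d : B} (hd : d ≠ 0)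
    {Q P : PrimeSpectrum B} (h : Q ≠ P) : ∃ z ∉ P.asIdeal, ∃ s ∉ Q.asIdeal, d ∣ s * z := by
  by_cases hdQ : d ∈ Q.asIdeal
  swap
  · exact ⟨1, (Ideal.ne_top_iff_one _).1 P.2.ne_top, d, hdQ, dvd_mul_right _ _⟩
  have hmax : ∀ I : Ideal B, I.IsPrime → d ∈ I → I.IsMaximal := fun I hI hdI =>
    Ring.DimensionLEOne.maximalOfPrime (by rintro rfl; exact hd hdI) hI
  obtain ⟨y, hyQ, hyP⟩ : ∃ y ∈ Q.asIdeal, y ∉ P.asIdeal := by
    by_contra h1
    push Not at h1
    exact h (PrimeSpectrum.ext ((hmax _ Q.2 hdQ).eq_of_le P.2.ne_top h1))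
  by_contra h1
  push Not at h1
  have := Q.2
  obtain ⟨I, hI, hdI, hdis⟩ := (Ideal.span {d}).exists_le_prime_disjoint
    (Q.asIdeal.primeCompl ⊔ Submonoid.powers y) (by
      rw [Set.disjoint_left]
      intro a ha hb
      obtain ⟨s, hs, _, ⟨n, rfl⟩, rfl⟩ := Submonoid.mem_sup.1 hb
      exact h1 (y ^ n) (fun h2 => hyP (P.2.mem_of_pow_mem n h2)) s hs
        (Ideal.mem_span_singleton.1 ha))
  rw [Set.disjoint_left] at hdis
  have h2 : I ≤ Q.asIdeal := fun a ha => by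
    by_contra h3
    exact hdis ha (Submonoid.mem_sup_left h3)
  have h3 := (hmax I hI ((Ideal.span_singleton_le_iff_mem _).1 hdI)).eq_of_le Q.2.ne_top h2
  exact hdis (h3 ▸ hyQ : y ∈ I) (Submonoid.mem_sup_right (Submonoid.mem_powers y))

/-- the contraction of the ideal generated by `d` in the localisation at `P` -/
def GDed_loc {B : Type u} [CommRing B] (d : B) (P : PrimeSpectrum B) : Ideal B where
  carrier := {a | ∃ s ∉ P.asIdeal, d ∣ s * a}
  zero_mem' := ⟨1, (Ideal.ne_top_iff_one _).1 P.2.ne_top, by simp⟩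
  add_mem' := by
    rintro a b ⟨s, hs, h1⟩ ⟨t, ht, h2⟩
    refine ⟨s * t, fun h => (P.2.mem_or_mem h).elim hs ht, ?_⟩
    have : s * t * (a + b) = s * a * t + t * b * s := by ring
    rw [this]
    exact dvd_add (h1.mul_right _) (h2.mul_right _)
  smul_mem' := by
    rintro c a ⟨s, hs, h1⟩
    refine ⟨s, hs, ?_⟩
    rw [smul_eq_mul, mul_left_comm]
    exact h1.mul_left _

theorem GDed_one {B : Type u} [CommRing B] [IsNoetherianRing B] [Ring.DimensionLEOne B] {d : B}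
    (hd : d ≠ 0) (P : PrimeSpectrum B) :
    ∃ α β : B, α + β = 1 ∧ α ∈ GDed_loc d P ∧ ∀ Q ≠ P, β ∈ GDed_loc d Q := by
  classical
  have h1 : GDed_loc d P ⊔ (⨅ Q : {Q // Q ≠ P}, GDed_loc d Q.1) = ⊤ := by
    by_contra h
    obtain ⟨M, hM, hle⟩ := Ideal.exists_le_maximal _ h
    by_cases hMP : P = ⟨M, hM.isPrime⟩
    · have h2 : ∀ Q : {Q // Q ≠ P}, ∃ z ∉ P.asIdeal, z ∈ GDed_loc d Q.1 := fun Q => GDed_sep hd Q.2
      choose z hz1 hz2 using h2
      have hfin : {Q : {Q // Q ≠ P} | d ∈ Q.1.asIdeal}.Finite :=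
        (GDed_fin hd).preimage Subtype.val_injective.injOn
      have := P.2
      have h3 : ∏ Q ∈ hfin.toFinset, z Q ∈ P.asIdeal.primeCompl := prod_mem fun Q _ => hz1 Q
      refine h3 ?_
      have h4 : M = P.asIdeal := by rw [hMP]
      refine h4 ▸ hle (Submodule.mem_sup_right (Ideal.mem_iInf.2 fun Q => ?_))
      by_cases hQ : d ∈ Q.1.asIdeal
      · exact Ideal.mem_of_dvd _ (Finset.dvd_prod_of_mem z (hfin.mem_toFinset.2 hQ)) (hz2 Q)
      · exact ⟨d, hQ, dvd_mul_right _ _⟩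
    · obtain ⟨z, hz1, hz2⟩ := GDed_sep hd hMP
      exact hz1 (hle (Submodule.mem_sup_left hz2))
  obtain ⟨α, hα, β, hβ, h⟩ := Submodule.mem_sup.1 ((Ideal.eq_top_iff_one _).1 h1)
  exact ⟨α, β, h, hα, fun Q hQ => Ideal.mem_iInf.1 hβ ⟨Q, hQ⟩⟩

section Algebra

variable {B K : Type u} [CommRing B] [IsDomain B] [IsNoetherianRing B] [Ring.DimensionLEOne B]
  [Field K] [Algebra B K] [IsFractionRing B K]

/-- `b = a / d`; a prime containing `d ≠ 0` is minimal over `(d)` -/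
theorem ded_fin (b : K) : {P : PrimeSpectrum B |
    ¬ ∃ a d : B, d ∉ P.asIdeal ∧ algebraMap B K d * b = algebraMap B K a}.Finite := by
  obtain ⟨⟨a, d⟩, h⟩ := IsLocalization.surj (nonZeroDivisors B) b
  refine (GDed_fin (nonZeroDivisors.ne_zero d.2)).subset fun P hP => ?_
  by_contra h1
  exact hP ⟨a, d, h1, by rw [mul_comm]; exact h⟩

/-- `b = a / d`.  `I = {α | α ∈ d B_P}` contains a power of `P` (or `1`), `J = {β | ∀ Q ≠ P, β ∈ d B_Q}`
contains a product of powers of the primes `Q ≠ P` containing `d`; so `1 = α + β`; `b₀ = β b`. -/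
theorem ded_crt (P : PrimeSpectrum B) (b : K) : ∃ b₀ : K,
    (∃ a d : B, d ∉ P.asIdeal ∧ algebraMap B K d * (b₀ - b) = algebraMap B K a) ∧
    ∀ Q : PrimeSpectrum B, Q ≠ P →
      ∃ a d : B, d ∉ Q.asIdeal ∧ algebraMap B K d * b₀ = algebraMap B K a := by
  obtain ⟨⟨a, d⟩, h⟩ := IsLocalization.surj (nonZeroDivisors B) b
  obtain ⟨α, β, h1, ⟨s, hs, e, he⟩, hβ⟩ := GDed_one (nonZeroDivisors.ne_zero d.2) P
  refine ⟨algebraMap B K β * b, ⟨-(e * a), s, hs, ?_⟩, fun Q hQ => ?_⟩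
  · have h2 := congrArg (algebraMap B K) h1
    have h3 := congrArg (algebraMap B K) he
    rw [map_add, map_one] at h2
    rw [map_mul, map_mul] at h3
    rw [map_neg, map_mul, ← h]
    linear_combination algebraMap B K s * b * h2 - b * h3
  · obtain ⟨s', hs', e', he'⟩ := hβ Q hQ
    refine ⟨e' * a, s', hs', ?_⟩
    have h3 := congrArg (algebraMap B K) he'
    rw [map_mul, map_mul] at h3
    rw [map_mul, ← h]
    linear_combination b * h3

end Algebra

variable {k : Type u} [Field k] [IsAlgClosed k] {X : Scheme.{u}} [IsIntegral X]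
  (f : X ⟶ Spec (.of k)) [SmoothOfRelativeDimension 1 f]

theorem GDed_mem (U : X.Opens) (hU : IsAffineOpen U) [Nonempty U] (x : U) (b : X.functionField) :
    b ∈ Ox x.1 ↔ ∃ a d : Γ(X, U), d ∉ (hU.primeIdealOf x).asIdeal ∧
      algebraMap Γ(X, U) X.functionField d * b = algebraMap Γ(X, U) X.functionField a := by
  let _ := TopCat.Presheaf.algebra_section_stalk X.presheaf x
  have h1 := hU.isLocalization_stalk x
  have h2 := functionField_isScalarTower X U x
  constructor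
  · rintro ⟨y, rfl⟩
    obtain ⟨⟨a, d⟩, h⟩ := IsLocalization.surj (hU.primeIdealOf x).asIdeal.primeCompl y
    refine ⟨a, d, d.2, ?_⟩
    rw [IsScalarTower.algebraMap_apply Γ(X, U) (X.presheaf.stalk x.1) X.functionField,
      IsScalarTower.algebraMap_apply Γ(X, U) (X.presheaf.stalk x.1) X.functionField a, ← map_mul,
      mul_comm]
    exact congrArg _ h
  · rintro ⟨a, d, hd, h⟩
    obtain ⟨v, hv⟩ := (IsLocalization.map_units (X.presheaf.stalk x.1)
      (⟨d, hd⟩ : (hU.primeIdealOf x).asIdeal.primeCompl)).exists_left_inv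
    refine ⟨v * algebraMap Γ(X, U) (X.presheaf.stalk x.1) a, ?_⟩
    rw [map_mul, ← IsScalarTower.algebraMap_apply, ← h,
      IsScalarTower.algebraMap_apply Γ(X, U) (X.presheaf.stalk x.1) X.functionField d, ← mul_assoc,
      ← map_mul, hv, map_one, one_mul]

omit [IsIntegral X] in
theorem GDed_inj (U : X.Opens) (hU : IsAffineOpen U) : Function.Injective hU.primeIdealOf :=
  fun x y h => Subtype.ext ((hU.fromSpec_primeIdealOf x).symm.trans
    ((congrArg (fun P => hU.fromSpec P) h).trans (hU.fromSpec_primeIdealOf y)))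

include f in
/-- points of `U` are primes of `Γ(X, U)` (`IsAffineOpen.primeIdealOf`, `isLocalization_stalk`) -/
theorem aff_fin (U : X.Opens) (hU : IsAffineOpen U) (b : X.functionField) :
    {x : X | x ∈ U ∧ b ∉ Ox x}.Finite := by
  rcases isEmpty_or_nonempty U with h | h
  · exact Set.finite_empty.subset fun x hx => h.elim ⟨x, hx.1⟩
  obtain ⟨h1, h2⟩ := dim_le_one f U hU
  have h3 := functionField_isFractionRing_of_isAffineOpen X U hU
  have h4 := (ded_fin (B := Γ(X, U)) b).preimage (GDed_inj U hU).injOn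
  refine (h4.image Subtype.val).subset fun x hx => ⟨⟨x, hx.1⟩, fun h5 => hx.2 ?_, rfl⟩
  exact (GDed_mem U hU ⟨x, hx.1⟩ b).2 h5

include f in
theorem aff_crt (U : X.Opens) (hU : IsAffineOpen U) (x₀ : X) (hx₀ : x₀ ∈ U) (b : X.functionField) :
    ∃ b₀, b₀ - b ∈ Ox x₀ ∧ ∀ x ∈ U, x ≠ x₀ → b₀ ∈ Ox x := by
  have h : Nonempty U := ⟨⟨x₀, hx₀⟩⟩
  obtain ⟨h1, h2⟩ := dim_le_one f U hU
  have h3 := functionField_isFractionRing_of_isAffineOpen X U hU
  obtain ⟨b₀, h4, h5⟩ := ded_crt (B := Γ(X, U)) (hU.primeIdealOf ⟨x₀, hx₀⟩) b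
  refine ⟨b₀, (GDed_mem U hU ⟨x₀, hx₀⟩ _).2 h4, fun x hx hne => ?_⟩
  refine (GDed_mem U hU ⟨x, hx⟩ _).2 (h5 _ fun h6 => hne ?_)
  exact congrArg Subtype.val (GDed_inj U hU h6)

include f in
theorem GDed_all [QuasiCompact f] (b : X.functionField) : {x : X | b ∉ Ox x}.Finite := by
  have : CompactSpace X := QuasiCompact.compactSpace_of_compactSpace f
  obtain ⟨T, hT⟩ := isCompact_univ.elim_finite_subcover
    (fun U : X.affineOpens => (U.1 : Set X)) (fun U => U.1.isOpen) (fun x _ => by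
      obtain ⟨_, ⟨U, hU, rfl⟩, hx, -⟩ :=
        X.isBasis_affineOpens.exists_subset_of_mem_open (Set.mem_univ x) isOpen_univ
      exact Set.mem_iUnion.2 ⟨⟨U, hU⟩, hx⟩)
  refine (T.finite_toSet.biUnion fun U _ => aff_fin f U.1 U.2 b).subset fun x hx => ?_
  obtain ⟨U, hU, hxU⟩ := Set.mem_iUnion₂.1 (hT (Set.mem_univ x))
  exact Set.mem_biUnion hU ⟨hxU, hx⟩

theorem GDed_fix (e : Aut X) (he : e.hom ≫ f = f) {x : X} (hx : IsClosed {x}) (h : e.hom x = x)
    {b : X.functionField} (hb : b ∈ Ox x) (hc : fT e b - b ≠ 0) : (fT e b - b)⁻¹ ∉ Ox x := by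
  obtain ⟨y, rfl⟩ := hb
  rintro ⟨y', hy'⟩
  have := SmoothOfRelativeDimension.smooth 1 f
  obtain ⟨ε, -, h1, -⟩ := exists_retr (f := f) (pointOfClosedPoint f x hx)
    (pointOfClosedPoint_comp f x hx) (pointOfClosedPoint_apply f x hx _)
  have h2 : IsLocalHom (locMap e.hom x h).hom := by
    have : IsLocalHom (X.presheaf.stalkSpecializes (specializes_of_eq h)).hom :=
      isLocalHom_of_iso (X.presheaf.stalkCongr (Inseparable.of_eq h.symm))
    exact CommRingCat.isLocalHom_comp _ _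
  have h3 : (locMap e.hom x h).hom (y - (strMap f x).hom (ε.hom y)) ∈ maximalIdeal _ :=
    map_nonunit _ _ (h1 y)
  have h4 : (locMap e.hom x h).hom ((strMap f x).hom (ε.hom y)) = (strMap f x).hom (ε.hom y) :=
    congrArg (fun φ => φ.hom (ε.hom y)) (strMap_locMap f x e.hom h he)
  rw [map_sub, h4] at h3
  have h5 := sub_mem h3 (h1 y)
  rw [sub_sub_sub_cancel_right] at h5
  refine h5 (IsUnit.of_mul_eq_one y' ?_)
  apply IsFractionRing.injective (X.presheaf.stalk x) X.functionField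
  rw [map_mul, map_sub, ← fT_locMap, hy', map_one, mul_inv_cancel₀ hc]

/-- For `g ≠ 1` take `b` with `c = fT (ρ g) b - b ≠ 0`.  If `g` fixes a closed `x` and `b ∈ Ox x` then `c` is
in the maximal ideal (`exists_retr`, `strMap_locMap`), so `c⁻¹ ∉ Ox x`.  Cover `X` by finitely many
affine opens. -/
theorem ram_fin [IsSeparated f] [QuasiCompact f] {G : Type*} [Group G] [Finite G] (ρ : G →* Aut X)
    (hρ : Injective ρ) (hρk : ∀ g, (ρ g).hom ≫ f = f) :
    {x : X | IsClosed {x} ∧ stab ρ x ≠ ⊥}.Finite := by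
  have h1 : ∀ g : {g : G // g ≠ 1}, ∃ b, fT (ρ g.1) b - b ≠ 0 := fun g => by
    by_contra h
    push Not at h
    refine g.2 (hρ ?_)
    rw [map_one]
    exact fT_faithful f _ (hρk _) fun b => sub_eq_zero.1 (h b)
  choose b hb using h1
  refine (Set.finite_iUnion fun g => (GDed_all f (b g)).union
    (GDed_all f (fT (ρ g.1) (b g) - b g)⁻¹)).subset ?_
  rintro x ⟨hx, hs⟩
  obtain ⟨⟨g, hg⟩, hg1⟩ := Subgroup.ne_bot_iff_exists_ne_one.1 hs
  have hg2 : g ≠ 1 := fun h => hg1 (Subtype.ext h)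
  refine Set.mem_iUnion.2 ⟨⟨g, hg2⟩, ?_⟩
  by_cases h2 : b ⟨g, hg2⟩ ∈ Ox x
  · exact Or.inr (GDed_fix f (ρ g) (hρk g) hx hg h2 (hb ⟨g, hg2⟩))
  · exact Or.inl h2

end Pool.Agent.MP_deef5c_ag.O
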