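import Pool.Agent.MP_deef5c_ag.O.GDefs

/-! Intersections of flat models. -/

open CategoryTheory AlgebraicGeometry IsLocalRing Function
open scoped Polynomial PowerSeries

namespace Pool.Agent.MP_deef5c_ag.O

universe u

namespace GInt.Aux

open scoped TensorProduct

variable {A : Type u} [CommRing A]

theorem flat_of_exact {M N P : Type u} [AddCommGroup M] [Module A M] [AddCommGroup N] [Module A N]
    [AddCommGroup P] [Module A P] [Module.Flat A N] [Module.Flat A P] (f : N →ₗ[A] P)
    (hf : Surjective f) (g : M →ₗ[A] N) (hg : Injective g) (H : Function.Exact g f) :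
    Module.Flat A M := by
  rw [Module.Flat.iff_rTensor_injective']
  intro I
  have h1 := LinearMap.lTensor_injective_of_exact_of_flat f hf g hg H I
  have h2 := Module.Flat.iff_rTensor_injective'.1 (inferInstance : Module.Flat A N) I
  have h3 : Injective (g.lTensor A ∘ₗ I.subtype.rTensor M) := by
    rw [LinearMap.lTensor_comp_rTensor, ← LinearMap.rTensor_comp_lTensor]
    exact h2.comp h1
  exact Injective.of_comp (f := g.lTensor A) h3

theorem mem_smul_of_exact {M N P : Type u} [AddCommGroup M] [Module A M] [AddCommGroup N]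
    [Module A N] [AddCommGroup P] [Module A P] [Module.Flat A P] (f : N →ₗ[A] P)
    (hf : Surjective f) (g : M →ₗ[A] N) (hg : Injective g) (H : Function.Exact g f) (I : Ideal A)
    {x : M} (hx : g x ∈ I • (⊤ : Submodule A N)) : x ∈ I • (⊤ : Submodule A M) := by
  have h1 := LinearMap.lTensor_injective_of_exact_of_flat f hf g hg H (A ⧸ I)
  have h2 : (1 : A ⧸ I) ⊗ₜ[A] g x = 0 := by
    rw [← TensorProduct.quotTensorEquivQuotSMul_symm_mk, (Submodule.Quotient.mk_eq_zero _).2 hx,
      map_zero]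
  have h3 : (1 : A ⧸ I) ⊗ₜ[A] x = 0 := h1 (by rw [LinearMap.lTensor_tmul, h2, map_zero])
  rw [← Submodule.Quotient.mk_eq_zero, ← TensorProduct.quotTensorEquivQuotSMul_mk_one_tmul, h3,
    map_zero]

theorem map_mem_smul {M N : Type u} [AddCommGroup M] [Module A M] [AddCommGroup N] [Module A N]
    (f : M →ₗ[A] N) (I : Ideal A) {x : M} (hx : x ∈ I • (⊤ : Submodule A M)) :
    f x ∈ I • (⊤ : Submodule A N) := by
  have := Submodule.mem_map_of_mem (f := f) hx
  rw [Submodule.map_smul''] at this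
  exact Submodule.smul_mono le_rfl le_top this

theorem eq_top_of_nilpotent {M : Type u} [AddCommGroup M] [Module A M] {I : Ideal A}
    (hI : IsNilpotent I) {N : Submodule A M} (h : ⊤ ≤ N ⊔ I • ⊤) : N = ⊤ := by
  obtain ⟨n, hn⟩ := hI
  have key : ∀ k : ℕ, ⊤ ≤ N ⊔ I ^ k • (⊤ : Submodule A M) := by
    intro k
    induction k with
    | zero => simp
    | succ k ih =>
      refine ih.trans (sup_le le_sup_left ?_)
      refine (Submodule.smul_mono le_rfl h).trans ?_
      rw [Submodule.smul_sup, pow_succ, Submodule.mul_smul]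
      exact sup_le_sup_right Submodule.smul_le_right _
  have := key n
  rw [hn, Submodule.zero_eq_bot, Submodule.bot_smul, sup_bot_eq] at this
  exact top_le_iff.1 this

theorem dfinsupp_mem_smul {Y : Type u} {M : Y → Type u} [∀ x, AddCommGroup (M x)]
    [∀ x, Module A (M x)] (I : Ideal A) (z : Π₀ x, M x)
    (hz : ∀ x, z x ∈ I • (⊤ : Submodule A (M x))) : z ∈ I • (⊤ : Submodule A (Π₀ x, M x)) := by
  classical
  rw [← DFinsupp.sum_single (f := z), DFinsupp.sum]
  exact Submodule.sum_mem _ fun x _ => map_mem_smul (DFinsupp.lsingle x) I (hz x)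

/-- The map to the direct sum of the quotients. -/
noncomputable def qq {N Y : Type u} [AddCommGroup N] [Module A N] (O : Y → Submodule A N)
    (hfin : ∀ b, {x | b ∉ O x}.Finite) : N →ₗ[A] Π₀ x, N ⧸ O x where
  toFun b := ⟨fun x => Submodule.Quotient.mk b, Trunc.mk ⟨(hfin b).toFinset.val, fun x => by
    by_cases h : b ∈ O x
    · exact Or.inr ((Submodule.Quotient.mk_eq_zero _).2 h)
    · exact Or.inl ((hfin b).mem_toFinset.2 h)⟩⟩
  map_add' _ _ := DFinsupp.ext fun _ => rfl
  map_smul' _ _ := DFinsupp.ext fun _ => rfl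

theorem qq_apply {N Y : Type u} [AddCommGroup N] [Module A N] (O : Y → Submodule A N)
    (hfin : ∀ b, {x | b ∉ O x}.Finite) (b : N) (x : Y) :
    qq O hfin b x = Submodule.Quotient.mk b := rfl

end GInt.Aux

open GInt.Aux in
/-- Let `Q = ⨁_x K' ⧸ O' x`, a flat module, and `q : K' → Q` (finite support by `hfin`) with kernel
`B' = ⨅ O' x`.  `q` is surjective modulo `m Q` by `hcrt` (an element whose reduction lies in the image of
`O' x` is in `O' x + m K'`), hence surjective (`m` nilpotent).  From `0 → B' → K' → Q → 0` with `K'`, `Q`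
flat: `I ⊗ B' → I ⊗ K'` is injective (`LinearMap.lTensor_injective_of_exact_of_flat`), so `B'` is flat and
`B' ∩ m K' = m B'`.  If `red b' ∈ red (O' x)` for all `x` then `q b' ∈ m Q = q (m K')`. -/
theorem inter {A K K' Y : Type u} [CommRing A] [IsLocalRing A] [IsArtinianRing A] [CommRing K]
    [CommRing K'] [Algebra A K'] [Module.Flat A K'] (red : K' →+* K) (hs : Surjective red)
    (hk : RingHom.ker red = (maximalIdeal A).map (algebraMap A K')) (O' : Y → Subalgebra A K')
    (hfl : ∀ x, Module.Flat A (K' ⧸ Subalgebra.toSubmodule (O' x)))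
    (hfin : ∀ b', {x | b' ∉ O' x}.Finite)
    (hcrt : ∀ x₀ b, ∃ b₀, (∃ s ∈ O' x₀, red s = b₀ - b) ∧ ∀ x ≠ x₀, ∃ s ∈ O' x, red s = b₀) :
    Module.Flat A (⨅ x, O' x : Subalgebra A K') ∧
      (∀ b, (∀ x, ∃ s ∈ O' x, red s = b) → ∃ s ∈ ⨅ x, O' x, red s = b) ∧
      RingHom.ker (red.comp ((⨅ x, O' x : Subalgebra A K').val : _ →+* K')) =
        (maximalIdeal A).map (algebraMap A (⨅ x, O' x : Subalgebra A K')) := by
  classical
  have hm : IsNilpotent (maximalIdeal A) := by
    rw [← IsLocalRing.jacobson_eq_maximalIdeal ⊥ bot_ne_top]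
    exact IsArtinianRing.isNilpotent_jacobson_bot
  have hker : ∀ b : K', red b = 0 ↔ b ∈ maximalIdeal A • (⊤ : Submodule A K') := by
    intro b
    rw [Ideal.smul_top_eq_map, Submodule.restrictScalars_mem, ← hk, RingHom.mem_ker]
  let q : K' →ₗ[A] Π₀ x, K' ⧸ Subalgebra.toSubmodule (O' x) :=
    qq (fun x => Subalgebra.toSubmodule (O' x)) hfin
  have hQ : Module.Flat A (Π₀ x, K' ⧸ Subalgebra.toSubmodule (O' x)) :=
    Module.Flat.dfinsupp_iff.2 hfl
  have hq : ∀ (x : Y) (b : K'), (∃ s ∈ O' x, red s = red b) →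
      (Submodule.Quotient.mk b : K' ⧸ Subalgebra.toSubmodule (O' x)) ∈
        maximalIdeal A • (⊤ : Submodule A (K' ⧸ Subalgebra.toSubmodule (O' x))) := by
    rintro x b ⟨s, hs1, hs2⟩
    have h1 : b - s ∈ maximalIdeal A • (⊤ : Submodule A K') :=
      (hker _).1 (by rw [map_sub, hs2, sub_self])
    have h2 := map_mem_smul (Subalgebra.toSubmodule (O' x)).mkQ _ h1
    rwa [map_sub, Submodule.mkQ_apply, Submodule.mkQ_apply,
      (Submodule.Quotient.mk_eq_zero _).2 (show s ∈ Subalgebra.toSubmodule (O' x) from hs1),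
      sub_zero] at h2
  have hsurj : Surjective q := by
    rw [← LinearMap.range_eq_top]
    refine eq_top_of_nilpotent (M := Π₀ x, K' ⧸ Subalgebra.toSubmodule (O' x)) hm fun z _ => ?_
    rw [← DFinsupp.sum_single (f := z), DFinsupp.sum]
    refine Submodule.sum_mem _ fun x₀ _ => ?_
    obtain ⟨b', hb'⟩ := Submodule.Quotient.mk_surjective _ (z x₀)
    obtain ⟨b₀, h1, h2⟩ := hcrt x₀ (red b')
    obtain ⟨c, rfl⟩ := hs b₀
    have h3 : q c - DFinsupp.single x₀ (z x₀) ∈ maximalIdeal A •
        (⊤ : Submodule A (Π₀ x, K' ⧸ Subalgebra.toSubmodule (O' x))) := by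
      refine dfinsupp_mem_smul _ _ fun x => ?_
      rw [DFinsupp.sub_apply, qq_apply]
      by_cases e : x = x₀
      · subst e
        rw [DFinsupp.single_eq_same, ← hb', ← Submodule.Quotient.mk_sub]
        exact hq x _ (by rw [map_sub]; exact h1)
      · rw [DFinsupp.single_eq_of_ne e, sub_zero]
        exact hq x _ (h2 x e)
    rw [← sub_sub_cancel (q c) (DFinsupp.single x₀ (z x₀))]
    refine Submodule.sub_mem (M := Π₀ x, K' ⧸ Subalgebra.toSubmodule (O' x)) _ ?_ ?_
    · exact le_sup_left (α := Submodule A (Π₀ x, K' ⧸ Subalgebra.toSubmodule (O' x)))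
        (LinearMap.mem_range_self q c)
    · exact le_sup_right (α := Submodule A (Π₀ x, K' ⧸ Subalgebra.toSubmodule (O' x))) h3
  have hq0 : ∀ b, q b = 0 ↔ b ∈ ⨅ x, O' x := by
    intro b
    rw [Algebra.mem_iInf, DFinsupp.ext_iff]
    exact forall_congr' fun x => Submodule.Quotient.mk_eq_zero _
  have hex : Function.Exact (⨅ x, O' x : Subalgebra A K').val.toLinearMap q := fun b =>
    (hq0 b).trans ⟨fun h => ⟨⟨b, h⟩, rfl⟩, fun ⟨c, hc⟩ => hc ▸ c.2⟩
  have hinj : Injective (⨅ x, O' x : Subalgebra A K').val.toLinearMap := Subtype.val_injective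
  refine ⟨flat_of_exact (M := (⨅ x, O' x : Subalgebra A K')) (N := K')
    (P := Π₀ x, K' ⧸ Subalgebra.toSubmodule (O' x)) q hsurj _ hinj hex, fun b hb => ?_, ?_⟩
  · obtain ⟨b', rfl⟩ := hs b
    have h1 : q b' ∈ maximalIdeal A •
        (⊤ : Submodule A (Π₀ x, K' ⧸ Subalgebra.toSubmodule (O' x))) :=
      dfinsupp_mem_smul _ _ fun x => hq x _ (hb x)
    rw [← LinearMap.range_eq_top.2 hsurj, ← Submodule.map_top, ← Submodule.map_smul''] at h1
    obtain ⟨c, hc1, hc2⟩ := h1
    refine ⟨b' - c, (hq0 _).1 (by rw [map_sub, hc2, sub_self]), ?_⟩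
    rw [map_sub, (hker c).2 hc1, sub_zero]
  · ext b
    rw [RingHom.mem_ker, ← Submodule.restrictScalars_mem A, ← Ideal.smul_top_eq_map]
    refine (hker _).trans ⟨fun h => mem_smul_of_exact (M := (⨅ x, O' x : Subalgebra A K'))
      (N := K') (P := Π₀ x, K' ⧸ Subalgebra.toSubmodule (O' x)) q hsurj _ hinj hex _ h,
      fun h => map_mem_smul (⨅ x, O' x : Subalgebra A K').val.toLinearMap _ h⟩

end Pool.Agent.MP_deef5c_ag.O
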