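import Pool.Agent.MP_deef5c_ag.O.Glue
import Pool.Agent.MP_deef5c_ag.O.GInt
import Pool.Agent.MP_deef5c_ag.O.GDed

/-! A global lift from an equivariant family of flat local models. -/

open CategoryTheory AlgebraicGeometry IsLocalRing Function
open scoped Polynomial PowerSeries

namespace Pool.Agent.MP_deef5c_ag.O

universe u

section Algebra

variable {A K K' : Type u} [CommRing A] [CommRing K] [CommRing K'] [Algebra A K']

/-- constant functions with values in the given subalgebras -/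
def GMkrCS {Y : Type u} (O : Y → Subalgebra A K') : Subalgebra A (Y → K') where
  carrier := {s | (∀ x y, s x = s y) ∧ ∀ x, s x ∈ O x}
  mul_mem' := fun {a b} ha hb =>
    ⟨fun x y => by rw [Pi.mul_apply, Pi.mul_apply, ha.1 x y, hb.1 x y],
      fun x => mul_mem (ha.2 x) (hb.2 x)⟩
  add_mem' := fun {a b} ha hb =>
    ⟨fun x y => by rw [Pi.add_apply, Pi.add_apply, ha.1 x y, hb.1 x y],
      fun x => add_mem (ha.2 x) (hb.2 x)⟩
  algebraMap_mem' := fun a => ⟨fun _ _ => rfl, fun x => (O x).algebraMap_mem a⟩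

/-- transport of constant functions -/
def GMkrT {Y Z : Type u} (O : Y → Subalgebra A K') (O₂ : Z → Subalgebra A K') (φ : Z → Y)
    (t : K' →ₐ[A] K') (h : ∀ z, ∀ b ∈ O (φ z), t b ∈ O₂ z) : GMkrCS O →ₐ[A] GMkrCS O₂ where
  toFun s := ⟨fun z => t (s.1 (φ z)), fun _ _ => congrArg t (s.2.1 _ _), fun z => h z _ (s.2.2 _)⟩
  map_one' := Subtype.ext (funext fun _ => map_one t)
  map_mul' _ _ := Subtype.ext (funext fun _ => map_mul t _ _)
  map_zero' := Subtype.ext (funext fun _ => map_zero t)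
  map_add' _ _ := Subtype.ext (funext fun _ => map_add t _ _)
  commutes' a := Subtype.ext (funext fun _ => t.commutes a)

/-- evaluation at a point -/
def GMkrEv {Y : Type u} (O : Y → Subalgebra A K') (y : Y) :
    GMkrCS O ≃ₐ[A] (⨅ x, O x : Subalgebra A K') where
  toFun s := ⟨s.1 y, Algebra.mem_iInf.2 fun x => by rw [s.2.1 y x]; exact s.2.2 x⟩
  invFun b := ⟨fun _ => b.1, fun _ _ => rfl, fun x => Algebra.mem_iInf.1 b.2 x⟩
  left_inv s := Subtype.ext (funext fun x => s.2.1 y x)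
  right_inv _ := rfl
  map_mul' _ _ := rfl
  map_add' _ _ := rfl
  commutes' _ := rfl

theorem GMkr_alg [IsLocalRing A] [IsArtinianRing A] [Module.Flat A K'] {Y : Type u}
    (red : K' →+* K) (hs : Surjective red)
    (hk : RingHom.ker red = (maximalIdeal A).map (algebraMap A K')) (O : Y → Subalgebra A K')
    (hfl : ∀ x, Module.Flat A (K' ⧸ Subalgebra.toSubmodule (O x)))
    (hfin : ∀ b', {x | b' ∉ O x}.Finite)
    (hcrt : ∀ x₀ b, ∃ b₀, (∃ s ∈ O x₀, red s = b₀ - b) ∧ ∀ x ≠ x₀, ∃ s ∈ O x, red s = b₀)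
    {B : Type u} [CommRing B] (γ : B →+* K) (hγ : Injective γ)
    (hB : ∀ b, (∃ s, γ s = b) ↔ ∀ x, ∃ s ∈ O x, red s = b) (y : Y) :
    ∃ r : GMkrCS O →+* B, (∀ s x, γ (r s) = red (s.1 x)) ∧ Surjective r ∧
      RingHom.ker r = (maximalIdeal A).map (algebraMap A (GMkrCS O)) ∧
      Module.Flat A (GMkrCS O) := by
  obtain ⟨h1, h2, h3⟩ := inter red hs hk O hfl hfin hcrt
  have hex : ∀ s : GMkrCS O, ∃ b, γ b = red (s.1 y) := fun s =>
    (hB _).2 fun x => ⟨s.1 x, s.2.2 x, by rw [s.2.1 x y]⟩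
  choose r hr using hex
  let r' : GMkrCS O →+* B :=
    { toFun := r
      map_one' := hγ (by rw [hr, map_one]; exact map_one red)
      map_mul' := fun a b => hγ (by rw [map_mul, hr, hr, hr]; exact map_mul red _ _)
      map_zero' := hγ (by rw [hr, map_zero]; exact map_zero red)
      map_add' := fun a b => hγ (by rw [map_add, hr, hr, hr]; exact map_add red _ _) }
  refine ⟨r', fun s x => (hr s).trans (by rw [s.2.1 y x]), fun b => ?_, ?_,
    Module.Flat.of_linearEquiv (GMkrEv O y).toLinearEquiv⟩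
  · obtain ⟨s, hs1, hs2⟩ := h2 (γ b) ((hB _).1 ⟨b, rfl⟩)
    exact ⟨(GMkrEv O y).symm ⟨s, hs1⟩, hγ ((hr _).trans hs2)⟩
  · apply le_antisymm
    · intro s hs1
      have h4 : GMkrEv O y s ∈
          (maximalIdeal A).map (algebraMap A (⨅ x, O x : Subalgebra A K')) := by
        rw [← h3, RingHom.mem_ker]
        change red (s.1 y) = 0
        rw [← hr, show r s = 0 from hs1, map_zero]
      have h5 := Ideal.mem_map_of_mem ((GMkrEv O y).symm : _ →+* GMkrCS O) h4
      have h6 : ((GMkrEv O y).symm : _ →+* GMkrCS O).comp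
          (algebraMap A (⨅ x, O x : Subalgebra A K')) = algebraMap A (GMkrCS O) :=
        RingHom.ext fun a => (GMkrEv O y).symm.commutes a
      rw [Ideal.map_map, h6] at h5
      rw [← (GMkrEv O y).symm_apply_apply s]
      exact h5
    · rw [Ideal.map_le_iff_le_comap]
      intro a ha
      rw [Ideal.mem_comap, RingHom.mem_ker]
      refine hγ ((hr _).trans ?_)
      rw [map_zero]
      have h4 : algebraMap A K' a ∈ RingHom.ker red := hk ▸ Ideal.mem_map_of_mem _ ha
      exact h4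

theorem GMkr_empty [IsLocalRing A] {R B : Type u} [CommRing R] [Algebra A R] [Subsingleton R]
    [CommRing B] [Subsingleton B] : ∃ r : R →+* B, Surjective r ∧
      RingHom.ker r = (maximalIdeal A).map (algebraMap A R) ∧ Module.Flat A R :=
  ⟨{ toFun := fun _ => 0
     map_one' := Subsingleton.elim _ _
     map_mul' := fun _ _ => Subsingleton.elim _ _
     map_zero' := rfl
     map_add' := fun _ _ => Subsingleton.elim _ _ },
    fun _ => ⟨0, Subsingleton.elim _ _⟩, Subsingleton.elim _ _, inferInstance⟩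

end Algebra

theorem GMkr_sub {X : Scheme.{u}} (U : X.Opens) (h : ¬ ∃ x, x ∈ U) : Subsingleton Γ(X, U) := by
  have : U = ⊥ := eq_bot_iff.2 fun x hx => (h ⟨x, hx⟩).elim
  subst this
  infer_instance

theorem GMkr_ext {X : Scheme.{u}} [IsIntegral X] (U : X.Opens) (a b : Γ(X, U))
    (h : ∀ (x : X) (_ : x ∈ U) [Nonempty U],
      (X.germToFunctionField U).hom a = (X.germToFunctionField U).hom b) : a = b := by
  by_cases hU : ∃ x, x ∈ U
  · obtain ⟨x, hx⟩ := hU
    have : Nonempty U := ⟨⟨x, hx⟩⟩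
    exact X.germToFunctionField_injective U (h x hx)
  · exact (GMkr_sub U hU).elim a b

theorem GMkr_red {k : Type u} [Field k] [IsAlgClosed k] {X : Scheme.{u}} [IsIntegral X]
    (f : X ⟶ Spec (.of k)) [SmoothOfRelativeDimension 1 f]
    {A K' : Type u} [CommRing A] [IsLocalRing A] [IsArtinianRing A] [CommRing K'] [Algebra A K']
    [Module.Flat A K'] (red : K' →+* X.functionField)
    (hs : Surjective red) (hk : RingHom.ker red = (maximalIdeal A).map (algebraMap A K'))
    (O' : X → Subalgebra A K') (hO : ∀ x b, b ∈ Ox x ↔ ∃ b' ∈ O' x, red b' = b)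
    (hfl : ∀ x, Module.Flat A (K' ⧸ Subalgebra.toSubmodule (O' x))) (U : X.affineOpens)
    (hfin : ∀ b', {x : X | x ∈ U.1 ∧ b' ∉ O' x}.Finite) :
    ∃ r : GMkrCS (fun x : {x : X // x ∈ U.1} => O' x.1) →+* Γ(X, U.1),
      (∀ [Nonempty U.1] s x, (X.germToFunctionField U.1).hom (r s) = red (s.1 x)) ∧ Surjective r ∧
      RingHom.ker r = (maximalIdeal A).map (algebraMap A _) ∧
      Module.Flat A (GMkrCS fun x : {x : X // x ∈ U.1} => O' x.1) := by
  by_cases hU : ∃ x, x ∈ U.1
  · obtain ⟨y, hy⟩ := hU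
    have : Nonempty U.1 := ⟨⟨y, hy⟩⟩
    obtain ⟨r, h1, h2⟩ := GMkr_alg red hs hk (fun x : {x : X // x ∈ U.1} => O' x.1)
      (fun x => hfl x.1)
      (fun b' => ((hfin b').preimage Subtype.val_injective.injOn).subset fun x hx => ⟨x.2, hx⟩)
      (fun x₀ b => by
        obtain ⟨b₀, h1, h2⟩ := aff_crt f U.1 U.2 x₀.1 x₀.2 b
        exact ⟨b₀, (hO _ _).1 h1, fun x hx => (hO _ _).1 (h2 x.1 x.2 fun e => hx (Subtype.ext e))⟩)
      (X.germToFunctionField U.1).hom (X.germToFunctionField_injective U.1)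
      (fun b => (range_germ U.1 U.2 b).trans
        ⟨fun h x => (hO _ _).1 (h x.1 x.2), fun h x hx => (hO _ _).2 (h ⟨x, hx⟩)⟩) ⟨y, hy⟩
    exact ⟨r, fun s x => h1 s x, h2⟩
  · have := GMkr_sub U.1 hU
    have : IsEmpty {x : X // x ∈ U.1} := ⟨fun x => hU ⟨x.1, x.2⟩⟩
    obtain ⟨r, h⟩ := GMkr_empty (A := A) (R := GMkrCS fun x : {x : X // x ∈ U.1} => O' x.1)
      (B := Γ(X, U.1))
    exact ⟨r, fun _ x => isEmptyElim x, h⟩

/-- Apply `glue` with `R U` the subalgebra of `U → K'` of the constant functions `s` with `s x ∈ O' x`,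
`T g U V s x = T' g (s (ρ g x))`.  For empty `U` everything is trivial; for non-empty `U` evaluation at
a point identifies `R U` with `⨅ x : U, O' x`, `red U s` is the section with germ `red (s x)`
(`range_germ`, `germToFunctionField_injective`), and `inter`, `aff_crt`, `fT_germ`, `fa_germ` apply. -/
theorem lifts_of_model {k : Type u} [Field k] [IsAlgClosed k] {X : Scheme.{u}} [IsIntegral X]
    (f : X ⟶ Spec (.of k)) [SmoothOfRelativeDimension 1 f] {G : Type*} [Group G] (ρ : G →* Aut X)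
    {A K' : Type u} [CommRing A] [IsLocalRing A] [IsArtinianRing A] [CommRing K'] [Algebra A K']
    [Module.Flat A K'] (π : A →+* k) (hπ : Surjective π) (red : K' →+* X.functionField)
    (hs : Surjective red) (hk : RingHom.ker red = (maximalIdeal A).map (algebraMap A K'))
    (ha : ∀ a, red (algebraMap A K' a) = fa f (π a)) (T' : G → K' →ₐ[A] K')
    (hT' : RA fun g b => T' g b) (hr : ∀ g b, red (T' g b) = fT (ρ g) (red b))
    (O' : X → Subalgebra A K') (hO : ∀ x b, b ∈ Ox x ↔ ∃ b' ∈ O' x, red b' = b)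
    (hfl : ∀ x, Module.Flat A (K' ⧸ Subalgebra.toSubmodule (O' x)))
    (hG : ∀ g x, ∀ b ∈ O' ((ρ g).hom x), T' g b ∈ O' x)
    (hfin : ∀ U : X.affineOpens, ∀ b', {x : X | x ∈ U.1 ∧ b' ∉ O' x}.Finite) : LiftsTo f ρ π := by
  have := SmoothOfRelativeDimension.smooth 1 f
  choose r h1 h2 h3 h4 using fun U => GMkr_red f red hs hk O' hO hfl U (hfin U)
  refine glue f ρ π hπ (fun U => GMkrCS fun x : {x : X // x ∈ U.1} => O' x.1)
    (fun g U V h => GMkrT _ _ (fun x => ⟨(ρ g).hom x.1, h x.2⟩) (T' g) fun x => hG g x.1) r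
    (fun U h s => Subtype.ext (funext fun x => (hT'.one _).trans (s.2.1 _ _)))
    (fun g g' U V W h h' h'' s => Subtype.ext (funext fun x =>
      (hT'.mul g g' _).symm.trans (congrArg (T' (g * g')) (s.2.1 _ _))))
    (fun g U V h s => GMkr_ext _ _ _ fun x hx _ => ?_) (fun U a => GMkr_ext _ _ _ fun x hx _ => ?_)
    h2 h3 h4
  · have : Nonempty U.1 := ⟨⟨(ρ g).hom x, h hx⟩⟩
    rw [h1 V _ ⟨x, hx⟩, ← fT_germ (ρ g) U.1 V.1 h, h1 U s ⟨(ρ g).hom x, h hx⟩]
    exact hr g _
  · rw [h1 U _ ⟨x, hx⟩, ← fa_germ f U.1]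
    exact ha a

end Pool.Agent.MP_deef5c_ag.O
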