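import Pool.Agent.MP_deef5c_ag.O.GDefs

/-! Group actions on the lifted function field and transport of local models. -/

open CategoryTheory AlgebraicGeometry IsLocalRing Function
open scoped Polynomial PowerSeries

namespace Pool.Agent.MP_deef5c_ag.O

universe u

variable {k A K K' : Type u} [Field k] [CommRing A] [IsLocalRing A] [IsArtinianRing A] [Field K]
  [Algebra k K] [CommRing K'] [Algebra A K']

/-- `T' g` from `KL.ex` with `j = T g`, `F = f'`; the laws from `KL.uniq` -/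
theorem kl_act {π : A →+* k} {red : K' →+* K} {f : K} {f' : K'} (L : KL π red f f')
    {G : Type*} [Group G] (T : G → K →+* K) (hT : RA fun g b => T g b)
    (hk : ∀ g c, T g (algebraMap k K c) = algebraMap k K c) (hf : ∀ g, T g f = f) :
    ∃ T' : G → K' →ₐ[A] K', (RA fun g b => T' g b) ∧ (∀ g b, red (T' g b) = T g (red b)) ∧
      ∀ g, T' g f' = f' := by
  have hn : ∀ a, red a = 0 → IsNilpotent a := fun a ha => by
    obtain ⟨n, hn⟩ := IsArtinianRing.isNilpotent_jacobson_bot (R := A)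
    rw [jacobson_eq_maximalIdeal ⊥ bot_ne_top] at hn
    have h1 : a ∈ (maximalIdeal A).map (algebraMap A K') := L.ker ▸ (RingHom.mem_ker.2 ha)
    have h2 := Ideal.pow_mem_pow h1 n
    rw [← Ideal.map_pow, hn, Ideal.zero_eq_bot, Ideal.map_bot] at h2
    exact ⟨n, h2⟩
  choose T' h1 h2 using fun g => L.ex K' K red L.surj hn (T g)
    (fun a => by rw [L.alg, hk]) f' (by rw [L.hf, hf])
  refine ⟨T', ⟨fun b => ?_, fun g h b => ?_⟩, h1, h2⟩
  · have e := L.uniq K' K red hn (T' 1) (AlgHom.id A K') (fun b => (h1 1 b).trans (hT.one _))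
      (h2 1)
    exact DFunLike.congr_fun e b
  · have e := L.uniq K' K red hn (T' (g * h)) ((T' h).comp (T' g)) (fun b => by
      rw [AlgHom.comp_apply, h1, h1, h1]
      exact hT.mul g h _) (by rw [AlgHom.comp_apply, h2, h2, h2])
    exact DFunLike.congr_fun e b

theorem GMod_inv {G R : Type*} [Group G] {T : G → R → R} (hT : RA T) (g : G) (b : R) :
    T g (T g⁻¹ b) = b ∧ T g⁻¹ (T g b) = b :=
  ⟨by rw [← hT.mul, inv_mul_cancel, hT.one], by rw [← hT.mul, mul_inv_cancel, hT.one]⟩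

omit [IsLocalRing A] [IsArtinianRing A] in
theorem GMod_move {red : K' →+* K} {f : K} {f' : K'} {G : Type*} [Group G]
    (T : G → K →+* K) (hT : RA fun g b => T g b) (hf : ∀ g, T g f = f) (T' : G → K' →ₐ[A] K')
    (hT' : RA fun g b => T' g b) (hr : ∀ g b, red (T' g b) = T g (red b)) (hf' : ∀ g, T' g f' = f')
    (g : G) {O₁ O₂ : Subring K} (hO : ∀ b, b ∈ O₁ ↔ T g b ∈ O₂) {O' : Subalgebra A K'}
    (h : PM red O₁ f f' O') : PM red O₂ f f' (O'.map (T' g)) := by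
  refine ⟨fun b => ⟨fun hb => ?_, ?_⟩, ?_, fun hb => ?_⟩
  · have e : T g (T g⁻¹ b) = b := (GMod_inv hT g b).1
    obtain ⟨c, hc, hc'⟩ := (h.mem (T g⁻¹ b)).1 ((hO _).2 (e.symm ▸ hb))
    exact ⟨T' g c, ⟨c, hc, rfl⟩, by rw [hr, hc', e]⟩
  · rintro ⟨_, ⟨c, hc, rfl⟩, rfl⟩
    have := (hO _).1 ((h.mem (red c)).2 ⟨c, hc, rfl⟩)
    rw [← hr] at this
    exact this
  · let e : K' ≃ₐ[A] K' := AlgEquiv.ofAlgHom (T' g) (T' g⁻¹)
      (AlgHom.ext fun b => (GMod_inv hT' g b).1) (AlgHom.ext fun b => (GMod_inv hT' g b).2)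
    have := h.flat
    exact Module.Flat.of_linearEquiv (Submodule.Quotient.equiv (Subalgebra.toSubmodule O')
      (Subalgebra.toSubmodule (O'.map (T' g))) e.toLinearEquiv rfl).symm
  · exact ⟨f', h.hf ((hO f).2 ((hf g).symm ▸ hb)), hf' g⟩

omit [IsLocalRing A] [IsArtinianRing A] in
/-- Choose a representative `r` in each orbit and `g x` with `act (g x) x = r`; put
`O' x = (O'_r).map (T' (g x))`.  For `y = act g x`, `g y * g * (g x)⁻¹` fixes `r`. -/
theorem model {red : K' →+* K} {f : K} {f' : K'} {G : Type*} [Group G] {Y : Type u}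
    (act : G → Y → Y) (h1 : ∀ x, act 1 x = x) (hm : ∀ g h x, act (g * h) x = act g (act h x))
    (T : G → K →+* K) (hT : RA fun g b => T g b) (hf : ∀ g, T g f = f) (T' : G → K' →ₐ[A] K')
    (hT' : RA fun g b => T' g b) (hr : ∀ g b, red (T' g b) = T g (red b)) (hf' : ∀ g, T' g f' = f')
    (O : Y → Subring K) (hO : ∀ g x b, b ∈ O (act g x) ↔ T g b ∈ O x)
    (h : ∀ x, ∃ O' : Subalgebra A K', PM red (O x) f f' O' ∧
      ∀ g, act g x = x → ∀ b ∈ O', T' g b ∈ O') :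
    ∃ O' : Y → Subalgebra A K', (∀ x, PM red (O x) f f' (O' x)) ∧
      ∀ g x, ∀ b ∈ O' (act g x), T' g b ∈ O' x := by
  have hi : ∀ g x, act g⁻¹ (act g x) = x := fun g x => by rw [← hm, inv_mul_cancel, h1]
  let S : Setoid Y := ⟨fun x y => ∃ g, act g x = y, fun x => ⟨1, h1 x⟩,
    fun ⟨g, e⟩ => ⟨g⁻¹, e ▸ hi g _⟩, fun ⟨g, e⟩ ⟨g', e'⟩ => ⟨g' * g, by rw [hm, e, e']⟩⟩
  obtain ⟨r, hr1, hr2⟩ : ∃ r : Y → Y, (∀ x, ∃ g, act g x = r x) ∧ ∀ g x, r (act g x) = r x :=
    ⟨fun x => (Quotient.mk S x).out, fun x => S.symm (Quotient.mk_out (s := S) x),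
      fun g x => congrArg Quotient.out (Quotient.sound (s := S) ⟨g⁻¹, hi g x⟩)⟩
  choose γ hγ using hr1
  choose P hP hP' using h
  refine ⟨fun x => (P (r x)).map (T' (γ x)), fun x =>
    GMod_move T hT hf T' hT' hr hf' (γ x) (fun b => hγ x ▸ hO (γ x) x b) (hP (r x)), ?_⟩
  rintro g x _ ⟨c, hc, rfl⟩
  rw [hr2] at hc
  have e : act (γ (act g x) * g * (γ x)⁻¹) (r x) = r x := by
    rw [hm, hm, ← hγ x, hi, hγ, hr2, hγ]
  refine ⟨_, hP' _ _ e c hc, ?_⟩
  have e1 := hT'.mul (γ (act g x) * g * (γ x)⁻¹) (γ x) c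
  have e2 := hT'.mul (γ (act g x)) g c
  rw [inv_mul_cancel_right] at e1
  exact e1.symm.trans e2

omit [IsLocalRing A] [IsArtinianRing A] in
theorem pm_top {red : K' →+* K} (hs : Surjective red) (f : K) (f' : K') :
    PM red ⊤ f f' (⊤ : Subalgebra A K') := by
  refine ⟨fun b => ⟨fun _ => ?_, fun _ => Subring.mem_top b⟩, ?_, fun _ => Algebra.mem_top⟩
  · obtain ⟨c, hc⟩ := hs b
    exact ⟨c, Algebra.mem_top, hc⟩
  · have : Subsingleton (K' ⧸ Subalgebra.toSubmodule (⊤ : Subalgebra A K')) :=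
      Submodule.Quotient.subsingleton_iff.2 Algebra.top_toSubmodule
    infer_instance

end Pool.Agent.MP_deef5c_ag.O
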