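import Pool.Agent.MP_deef5c_ag.O.GDefs

/-! An invariant separating element. -/

open CategoryTheory AlgebraicGeometry IsLocalRing Function
open scoped Polynomial PowerSeries

namespace Pool.Agent.MP_deef5c_ag.O

universe u

theorem GSep_exists_D_ne {k K : Type u} [Field k] [Field K] [Algebra k K]
    (h1 : Module.finrank K (KaehlerDifferential k K) = 1) :
    ∃ b : K, KaehlerDifferential.D k K b ≠ 0 := by
  by_contra hcon
  push Not at hcon
  have htop := KaehlerDifferential.span_range_derivation k K
  have hbot : Submodule.span K (Set.range (KaehlerDifferential.D k K)) = ⊥ := by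
    rw [Submodule.span_eq_bot]
    rintro _ ⟨b, rfl⟩
    exact hcon b
  have hsub : Subsingleton (KaehlerDifferential k K) := by
    refine ⟨fun x y => ?_⟩
    have hx : x ∈ (⊥ : Submodule K (KaehlerDifferential k K)) := by
      rw [← hbot, htop]; exact Submodule.mem_top
    have hy : y ∈ (⊥ : Submodule K (KaehlerDifferential k K)) := by
      rw [← hbot, htop]; exact Submodule.mem_top
    rw [Submodule.mem_bot] at hx hy
    rw [hx, hy]
  rw [Module.finrank_zero_of_subsingleton] at h1
  exact zero_ne_one h1

theorem GSep_exists_inv {k K M : Type u} [Field k] [Field K] [Algebra k K] [AddCommGroup M]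
    [Module k M] [Module K M] (d : Derivation k K M) {G : Type*} [Group G] [Finite G]
    (T : G → K →+* K) (hT : RA fun g b => T g b) {f₀ : K} (hf₀ : d f₀ ≠ 0) :
    ∃ f : K, (∀ g, T g f = f) ∧ d f ≠ 0 := by
  classical
  have := Fintype.ofFinite G
  set S : Finset K := Finset.univ.image fun g => T g f₀ with hS
  set q : K[X] := ∏ y ∈ S, (Polynomial.X - Polynomial.C y) with hq
  have hmem : f₀ ∈ S := by
    rw [hS, Finset.mem_image]
    exact ⟨1, Finset.mem_univ _, hT.one f₀⟩
  have himg : ∀ g, S.image (T g) = S := by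
    intro g
    refine Finset.eq_of_subset_of_card_le ?_ ?_
    · intro y hy
      rw [Finset.mem_image] at hy
      obtain ⟨z, hz, rfl⟩ := hy
      rw [hS, Finset.mem_image] at hz ⊢
      obtain ⟨h, -, rfl⟩ := hz
      exact ⟨h * g, Finset.mem_univ _, hT.mul h g f₀⟩
    · rw [Finset.card_image_of_injective _ (T g).injective]
  have hmap : ∀ g, q.map (T g) = q := by
    intro g
    rw [hq, Polynomial.map_prod]
    conv_rhs => rw [← himg g]
    rw [Finset.prod_image fun x _ y _ h => (T g).injective h]
    simp
  have hsep : q.Separable := by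
    rw [hq]
    exact Polynomial.separable_prod_X_sub_C_iff'.mpr fun x _ y _ h => h
  have hroot : q.eval f₀ = 0 := by
    rw [hq, Polynomial.eval_prod]
    exact Finset.prod_eq_zero hmem (by simp)
  have hder : (Polynomial.derivative q).eval f₀ ≠ 0 := by
    have := hsep.aeval_derivative_ne_zero (x := f₀) (by simpa using hroot)
    simpa using this
  by_contra hcon
  push Not at hcon
  have hc : ∀ i, d (q.coeff i) = 0 := fun i => hcon _ fun g => by
    conv_rhs => rw [← hmap g]
    rw [Polynomial.coeff_map]
  have h0 : d.mapCoeffs q = 0 := by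
    ext i
    simp [hc i]
  have e := d.apply_eval_eq f₀ q
  rw [hroot, h0, map_zero, map_zero, zero_add] at e
  rcases smul_eq_zero.mp e.symm with h | h
  · exact hder h
  · exact hf₀ h

theorem GSep_sep {k L K : Type u} [Field k] [Field L] [Field K] [Algebra k L] [Algebra k K]
    [Algebra L K] [IsScalarTower k L K] [Algebra.EssFiniteType k K]
    (h1 : Module.finrank K (KaehlerDifferential k K) = 1) (f : L)
    (hf : KaehlerDifferential.D k K (algebraMap L K f) ≠ 0) :
    Algebra.IsSeparable L K ∧ Module.Finite L K := by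
  have hE : Algebra.EssFiniteType L K := Algebra.EssFiniteType.of_comp k L K
  have hU : Algebra.FormallyUnramified L K := by
    refine ⟨⟨fun x y => ?_⟩⟩
    have hz : ∀ x : KaehlerDifferential L K, x = 0 := by
      intro x
      obtain ⟨z, rfl⟩ := KaehlerDifferential.map_surjective k L K x
      obtain ⟨c, rfl⟩ := (finrank_eq_one_iff_of_nonzero' _ hf).mp h1 z
      rw [map_smul, KaehlerDifferential.map_D]
      simp
    rw [hz x, hz y]
  have hS : Algebra.IsSeparable L K := (Algebra.FormallyUnramified.iff_isSeparable L K).mp hU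
  exact ⟨hS, Algebra.finite_of_essFiniteType_of_isAlgebraic⟩

theorem GSep_core {A L K : Type u} [CommRing A] [IsDomain A] [IsIntegrallyClosed A] [Field L]
    [Algebra A L] [IsFractionRing A L] [Field K] [Algebra A K] [Algebra L K]
    [IsScalarTower A L K] [Module.Finite L K] [Algebra.IsSeparable L K] :
    ∃ (θ : K) (P : A[X]), P.Monic ∧ (∀ Q : A[X], Polynomial.aeval θ Q = 0 ↔ P ∣ Q) ∧
      Polynomial.aeval θ (Polynomial.derivative P) ≠ 0 ∧
      ∀ b : K, ∃ (Q : A[X]) (c : A), c ≠ 0 ∧ algebraMap A K c * b = Polynomial.aeval θ Q := by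
  have hinj : Injective (algebraMap A K) := by
    rw [IsScalarTower.algebraMap_eq A L K]
    exact (algebraMap L K).injective.comp (IsFractionRing.injective A L)
  have hF : FaithfulSMul A K := (faithfulSMul_iff_algebraMap_injective A K).mpr hinj
  obtain ⟨θ₀, hθ₀⟩ := Field.exists_primitive_element L K
  have halg : IsAlgebraic A θ₀ :=
    (IsFractionRing.isAlgebraic_iff A L K).mpr (Algebra.IsAlgebraic.isAlgebraic θ₀)
  obtain ⟨c, hc, hint⟩ := halg.exists_integral_multiple
  have hcL : algebraMap A L c ≠ 0 := fun h => hc (IsFractionRing.injective A L (by simpa using h))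
  set θ := c • θ₀ with hθ
  have hmin := minpoly.isIntegrallyClosed_eq_field_fractions' L hint
  refine ⟨θ, minpoly A θ, minpoly.monic hint, fun Q => minpoly.isIntegrallyClosed_dvd_iff hint Q,
    ?_, fun b => ?_⟩
  · have hs : (minpoly L θ).Separable := Algebra.IsSeparable.isSeparable L θ
    have := hs.aeval_derivative_ne_zero (x := θ) (minpoly.aeval L θ)
    rwa [hmin, Polynomial.derivative_map, Polynomial.aeval_map_algebraMap] at this
  · have hb : b ∈ Algebra.adjoin L {θ₀} := by
      rw [← IntermediateField.adjoin_simple_toSubalgebra_of_isAlgebraic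
        (Algebra.IsAlgebraic.isAlgebraic θ₀), hθ₀]
      exact Algebra.mem_top
    have hle : Algebra.adjoin L {θ₀} ≤ Algebra.adjoin L {θ} := by
      refine Algebra.adjoin_le (Set.singleton_subset_iff.mpr ?_)
      have e : θ₀ = (algebraMap A L c)⁻¹ • θ := by
        rw [hθ, ← algebraMap_smul L c θ₀, smul_smul, inv_mul_cancel₀ hcL, one_smul]
      have hm : (algebraMap A L c)⁻¹ • θ ∈ Algebra.adjoin L {θ} :=
        Subalgebra.smul_mem _ (Algebra.subset_adjoin (Set.mem_singleton _)) _
      rw [← e] at hm
      exact hm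
    have hb' := hle hb
    rw [Algebra.adjoin_singleton_eq_range_aeval] at hb'
    obtain ⟨Q', hQ'⟩ := hb'
    obtain ⟨s, hs, hsQ⟩ := IsLocalization.integerNormalization_spec (nonZeroDivisors A) Q'
    refine ⟨IsLocalization.integerNormalization (nonZeroDivisors A) Q', s,
      nonZeroDivisors.ne_zero hs, ?_⟩
    rw [← Polynomial.aeval_map_algebraMap L, hsQ, ← algebraMap_smul L s Q', map_smul,
      Algebra.smul_def, ← IsScalarTower.algebraMap_apply]
    congr 1
    exact hQ'.symm

/-- The differentials `d b` span `Ω[K⁄k] ≠ 0`; take `f₀` with `d f₀ ≠ 0` and the separable polynomial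
`∏ (T - y)` over the orbit of `f₀`, whose coefficients are invariant; differentiating, some coefficient
`f` has `d f ≠ 0`.  Then `f ∉ k`, so `f` is transcendental, and `Ω[K⁄k(f)] = 0`
(`KaehlerDifferential.exact_mapBaseChange_map`), so `K / k(f)` is separable
(`Algebra.FormallyUnramified.iff_isSeparable`) and finite.  Take a primitive element `θ`, integral over
`k[f]` after scaling, and `P` its minimal polynomial over the normal ring `k[f]`. -/
theorem exists_sep {k K : Type u} [Field k] [IsAlgClosed k] [Field K] [Algebra k K]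
    [Algebra.EssFiniteType k K] (h1 : Module.finrank K (KaehlerDifferential k K) = 1)
    {G : Type*} [Group G] [Finite G] (T : G → K →+* K) (hT : RA fun g b => T g b)
    (hk : ∀ g c, T g (algebraMap k K c) = algebraMap k K c) :
    ∃ (f θ : K) (P : k[X][X]), (∀ g, T g f = f) ∧ Transcendental k f ∧ P.Monic ∧
      (∀ Q : k[X][X], Q.eval₂ (Polynomial.aeval f : k[X] →ₐ[k] K) θ = 0 ↔ P ∣ Q) ∧
      (Polynomial.derivative P).eval₂ (Polynomial.aeval f : k[X] →ₐ[k] K) θ ≠ 0 ∧
      ∀ b : K, ∃ (Q : k[X][X]) (c : k[X]), c ≠ 0 ∧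
        Polynomial.aeval f c * b = Q.eval₂ (Polynomial.aeval f : k[X] →ₐ[k] K) θ := by
  obtain ⟨f₀, hf₀⟩ := GSep_exists_D_ne h1
  obtain ⟨f, hfT, hf⟩ := GSep_exists_inv (KaehlerDifferential.D k K) T hT hf₀
  have htr : Transcendental k f := by
    intro halg
    obtain ⟨c, hc⟩ := minpoly.mem_range_of_degree_eq_one k f
      (IsAlgClosed.degree_eq_one_of_irreducible k (minpoly.irreducible halg.isIntegral))
    exact hf (hc ▸ Derivation.map_algebraMap _ c)
  let _ : Algebra k[X] K := (Polynomial.aeval f : k[X] →ₐ[k] K).toRingHom.toAlgebra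
  have hA : ∀ c : k[X], algebraMap k[X] K c = Polynomial.aeval f c := fun _ => rfl
  have hinj : Injective (algebraMap k[X] K) := transcendental_iff_injective.mp htr
  have hF : FaithfulSMul k[X] K := (faithfulSMul_iff_algebraMap_injective _ _).mpr hinj
  let _ : Algebra (FractionRing k[X]) K := FractionRing.liftAlgebra k[X] K
  have hT1 : IsScalarTower k[X] (FractionRing k[X]) K := FractionRing.isScalarTower_liftAlgebra _ _
  have hT2 : IsScalarTower k (FractionRing k[X]) K := by
    refine IsScalarTower.of_algebraMap_eq fun c => ?_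
    rw [IsScalarTower.algebraMap_apply k k[X] (FractionRing k[X]),
      ← IsScalarTower.algebraMap_apply k[X] (FractionRing k[X]) K, hA]
    simp
  obtain ⟨hS, hFin⟩ := GSep_sep (k := k) (L := FractionRing k[X]) h1
    (algebraMap k[X] (FractionRing k[X]) Polynomial.X) (by
      rw [← IsScalarTower.algebraMap_apply k[X] (FractionRing k[X]) K, hA, Polynomial.aeval_X]
      exact hf)
  obtain ⟨θ, P, h2, h3, h4, h5⟩ := GSep_core (A := k[X]) (L := FractionRing k[X]) (K := K)
  exact ⟨f, θ, P, hfT, htr, h2, h3, h4, h5⟩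

end Pool.Agent.MP_deef5c_ag.O
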