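import Pool.Agent.MP_deef5c_ag.O.GFin
import Pool.Agent.MP_deef5c_ag.O.GSep
import Pool.Agent.MP_deef5c_ag.O.GKl
import Pool.Agent.MP_deef5c_ag.O.GMod
import Pool.Agent.MP_deef5c_ag.O.GLoc
import Pool.Agent.MP_deef5c_ag.O.GMkr
import Pool.Agent.MP_deef5c_ag.O.GCom
import Pool.Agent.MP_deef5c_ag.O.GTwo

/-! The local-global principle and the global theorem. -/

open CategoryTheory AlgebraicGeometry IsLocalRing Function
open scoped Polynomial PowerSeries

namespace Pool.Agent.MP_deef5c_ag.O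

universe u

variable {k : Type u} [Field k] [IsAlgClosed k] {X : Scheme.{u}} [IsIntegral X]
  (f : X ⟶ Spec (.of k)) [IsSeparated f] [SmoothOfRelativeDimension 1 f]
  {G : Type*} [Group G] (ρ : G →* Aut X)

/-- the local data at a point -/
def LD (x : X) (ρx : stab ρ x →* (k⟦X⟧ ≃ₐ[k] k⟦X⟧)) : Prop :=
  Ox x = ⊤ ∨ (IsClosed {x} ∧ ∃ (j : X.functionField →+* LaurentSeries k) (t : X.functionField),
    (letI := (fa f).toAlgebra; CP (Ox x) j t) ∧ LA (fun h : stab ρ x => fT (ρ h)) j ρx)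

theorem exists_ld (hρ : Injective ρ) (hρk : ∀ g, (ρ g).hom ≫ f = f) (x : X) :
    ∃ ρx, LD f ρ x ρx := by
  letI := (fa f).toAlgebra
  rcases point_cases f x with h | ⟨hx, j, t, C⟩
  · exact ⟨1, Or.inl h⟩
  · obtain ⟨ρx, h⟩ := exists_la C (fun h : stab ρ x => fT (ρ h))
      ⟨fun b => (fT_ra ρ).one b, fun g h b => (fT_ra ρ).mul g h b⟩
      (fun g c => fT_fa f _ (hρk g) c)
      (fun h b hb => (fT_mem (ρ h) x b).1 (by rwa [show (ρ h).hom x = x from h.2]))
      (fun h hh => Subtype.ext (hρ ((fT_faithful f _ (hρk h) hh).trans (map_one ρ).symm)))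
    exact ⟨ρx, Or.inr ⟨hx, j, t, C, h⟩⟩

/-- local-global principle: local lifts at all points give a global lift -/
theorem loc_glob [Finite G] (hρk : ∀ g, (ρ g).hom ≫ f = f)
    (ρx : ∀ x, stab ρ x →* (k⟦X⟧ ≃ₐ[k] k⟦X⟧)) (hd : ∀ x, LD f ρ x (ρx x))
    {A : Type u} [CommRing A] [IsLocalRing A] [IsArtinianRing A] (π : A →+* k) (hπ : Surjective π)
    (hl : ∀ x, IsClosed {x} → LocLifts (ρx x) π) : LiftsTo f ρ π := by
  letI := (fa f).toAlgebra
  obtain ⟨h1, h2⟩ := omega_rank f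
  have hk : ∀ g c, fT (ρ g) (algebraMap k X.functionField c) = algebraMap k X.functionField c :=
    fun g c => fT_fa f _ (hρk g) c
  obtain ⟨F, θ, P, hF, ht, hP, e1, e2, e3⟩ := exists_sep h2 (fun g => fT (ρ g)) (fT_ra ρ) hk
  obtain ⟨K', _, _, red, F', L⟩ := exists_kl π hπ F θ P ht hP e1 e2 e3
  obtain ⟨T', hT', hr, hF'⟩ := kl_act L (fun g => fT (ρ g)) (fT_ra ρ) hk hF
  obtain ⟨O', hO, hG⟩ := model (red := red) (f := F) (f' := F') (fun g x => (ρ g).hom x)
    (fun x => by rw [map_one]; rfl)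
    (fun g h x => by
      rw [map_mul]
      exact Scheme.Hom.comp_apply (ρ h).hom (ρ g).hom x)
    (fun g => fT (ρ g)) (fT_ra ρ) hF T' hT' hr hF' Ox (fun g x b => fT_mem (ρ g) x b) fun x => by
      rcases hd x with h | ⟨hx, j, t, C, h⟩
      · exact ⟨⊤, h ▸ pm_top L.surj F F', fun _ _ _ _ => trivial⟩
      · obtain ⟨O', h1, h2⟩ := loc_model hπ L C (fun h : stab ρ x => fT (ρ h)) (fun h => T' h)
          (fun h b => hr h b) (fun h => hF' h) h (hl x hx)
        exact ⟨O', h1, fun g hg => h2 ⟨g, hg⟩⟩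
  have := L.flat
  refine lifts_of_model f ρ π hπ red L.surj L.ker L.alg T' hT' hr O' (fun x => (hO x).mem)
    (fun x => (hO x).flat) hG fun U b' => ?_
  obtain ⟨Z, hZ⟩ := L.fin b'
  refine ((aff_fin f U.1 U.2 F).union (Z.finite_toSet.biUnion fun z _ => aff_fin f U.1 U.2 z)).subset
    fun x hx => ?_
  by_contra hn
  simp only [Set.mem_union, Set.mem_setOf_eq, Set.mem_iUnion, not_or, not_and, not_not,
    not_exists] at hn
  exact hx.2 (hZ _ ((hO x).hf (hn.1 hx.1)) fun z hz => ((hO x).mem z).1 (hn.2 z hz hx.1))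

theorem gfinal (p : ℕ) [Fact p.Prime] [CharP k p] [QuasiCompact f] [Finite G] (hρ : Injective ρ)
    (hρk : ∀ g, (ρ g).hom ≫ f = f)
    (hG : ∀ x : X, IsClosed {x} → ∀ P : Sylow p (stab ρ x), IsCyclic P) :
    List.TFAE [
      ∀ N : ℕ, ∃ (A : Type u) (_ : CommRing A) (_ : IsLocalRing A) (_ : IsArtinianRing A)
        (π : A →+* k), Surjective π ∧ (p : A) ^ N ≠ 0 ∧ LiftsTo f ρ π,
      ∃ (A : Type u) (_ : CommRing A) (_ : IsLocalRing A) (_ : IsArtinianRing A)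
        (π : A →+* k), Surjective π ∧ (p : A) ≠ 0 ∧ LiftsTo f ρ π,
      ∀ x : X, IsClosed {x} → GC p ρ x] := by
  choose ρx hd using exists_ld f ρ hρ hρk
  tfae_have 1 → 2 := fun h => by
    obtain ⟨A, _, _, _, π, hπ, h1, h2⟩ := h 1
    exact ⟨A, _, ‹_›, ‹_›, π, hπ, by simpa using h1, h2⟩
  tfae_have 2 → 3 := by
    rintro ⟨A, _, _, _, π, hπ, h1, h2⟩ x hx
    rcases hd x with h | ⟨-, j, t, C, h⟩
    · left
      rw [stab_bot f ρ hρ hρk x hx h]
      infer_instance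
    · exact (gc_iff p f ρ (hG x hx) C h).2
        (lc_of_lifts p f ρ hρ hρk hx (hG x hx) C h A π hπ h1 h2)
  tfae_have 3 → 1 := fun h N => by
    obtain ⟨A, _, _, _, π, hπ, h1, h2⟩ := common_art p _ (ram_fin f ρ hρ hρk)
      (fun x => stab ρ x) ρx (fun x hx => by
        rcases hd x with h' | ⟨-, j, t, C, h'⟩
        · exact absurd (stab_bot f ρ hρ hρk x hx.1 h') hx.2
        · exact three_one' p (hG x hx.1) (ρx x) h'.1
            ((gc_iff p f ρ (hG x hx.1) C h').1 (h x hx.1))) N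
    refine ⟨A, _, ‹_›, ‹_›, π, hπ, h1, loc_glob f ρ hρk ρx hd π hπ fun x hx => ?_⟩
    by_cases hb : stab ρ x = ⊥
    · refine ⟨1, fun g φ => ?_⟩
      have : g = 1 := Subtype.ext (Subgroup.mem_bot.1 (hb ▸ g.2))
      simp [this]
    · exact h2 x ⟨hx, hb⟩
  tfae_finish

end Pool.Agent.MP_deef5c_ag.O
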