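import Pool.Agent.MP_deef5c_ag.O.Defs

/-! Interpolation and Hilbert 90. -/

open PowerSeries IsLocalRing Finset Function
open scoped Polynomial

namespace Pool.Agent.MP_deef5c_ag.O

universe u

namespace Abs.Aux

theorem sum_shift {M : Type u} [AddCommGroup M] (f : ℕ → M) (q : ℕ) (h : f q = f 0) :
    ∑ i ∈ range q, f (i + 1) = ∑ i ∈ range q, f i := by
  have h1 := Finset.sum_range_succ f q
  have h2 := Finset.sum_range_succ' f q
  rw [h1, h] at h2
  exact (add_right_cancel h2).symm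

theorem pow_succ_apply {A : Type u} [CommRing A] (σ : A →+* A) (i : ℕ) (a : A) :
    (σ ^ (i + 1)) a = σ ((σ ^ i) a) := by
  rw [pow_succ']
  rfl

theorem pow_add_apply {A : Type u} [CommRing A] (σ : A →+* A) (i j : ℕ) (a : A) :
    (σ ^ (i + j)) a = (σ ^ i) ((σ ^ j) a) := by
  rw [pow_add]
  rfl

theorem pow_fix {A : Type u} [CommRing A] (σ : A →+* A) {a : A} (h : σ a = a) (i : ℕ) :
    (σ ^ i) a = a := by
  induction i with
  | zero => rfl
  | succ i ih => rw [pow_succ_apply, ih, h]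

theorem pow_shift {A : Type u} [CommRing A] (σ : A →+* A) {Y e : A} (he : σ e = e)
    (hY : σ Y = Y + e) (i : ℕ) : (σ ^ i) Y = Y + (i : A) * e := by
  induction i with
  | zero => simp
  | succ i ih =>
    rw [pow_succ_apply, ih, map_add, map_mul, map_natCast, hY, he]
    push_cast
    ring

theorem prod_reindex {A : Type u} [CommRing A] (σ : A →+* A) (q : ℕ) (hσ : σ ^ q = 1) (t : A)
    (i : ℕ) (hi : i < q) :
    ∏ j ∈ Ico 1 q, ((σ ^ i) t - (σ ^ (i + j)) t) =
      ∏ j ∈ (range q).erase i, ((σ ^ i) t - (σ ^ j) t) := by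
  refine Finset.prod_nbij' (fun j => if i + j < q then i + j else i + j - q)
    (fun j => if i < j then j - i else j + q - i) ?_ ?_ ?_ ?_ ?_
  · intro j hj
    simp only [mem_Ico, mem_erase, mem_range] at hj ⊢
    split_ifs <;> omega
  · intro j hj
    simp only [mem_Ico, mem_erase, mem_range] at hj ⊢
    split_ifs <;> omega
  · intro j hj
    simp only [mem_Ico] at hj
    split_ifs <;> omega
  · intro j hj
    simp only [mem_erase, mem_range] at hj
    split_ifs <;> omega
  · intro j hj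
    simp only [mem_Ico] at hj
    split_ifs with h
    · rfl
    · have : i + j = (i + j - q) + q := by omega
      conv_lhs => rw [this, pow_add, hσ, mul_one]

end Abs.Aux

open Abs.Aux

/-- Lagrange interpolation: `a = c * ∑_j ρ^j z * ∏_{j' ≠ j} (T - Y - j' e)` over `j, j' < p`, where `c`
is an integer inverse mod `p` to `∏_{0<j'<p} (-j')`; `ρ` permutes the summands cyclically. -/
theorem interp (p : ℕ) [Fact p.Prime] {A : Type u} [CommRing A] [CharP A p] (ρ : A →+* A)
    (hρ : ∀ a, (ρ ^ p) a = a) (Y e : A) (he : ρ e = e) (hY : ρ Y = Y + e) (z : A) :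
    ∃ a : A[X], a.natDegree < p ∧ a.map ρ = a ∧ a.eval Y = e ^ (p - 1) * z := by
  classical
  have hp : p.Prime := Fact.out
  let φ : ZMod p →+* A := ZMod.castHom (dvd_refl p) A
  let S : Finset (ZMod p) := univ.erase 0
  have hS : S.card = p - 1 := by
    simp only [S]
    rw [Finset.card_erase_of_mem (mem_univ _), Finset.card_univ, ZMod.card]
  let u : ZMod p := ∏ j ∈ S, (-j)
  have hu : u ≠ 0 := by
    refine Finset.prod_ne_zero_iff.2 fun j hj => ?_
    exact neg_ne_zero.2 (Finset.ne_of_mem_erase hj)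
  let b : A[X] := Polynomial.C (φ u⁻¹ * z) *
    ∏ j ∈ S, (Polynomial.X - Polynomial.C (Y + φ j * e))
  have hφ : ∀ (ψ : A →+* A) (j : ZMod p), ψ (φ j) = φ j := fun ψ j =>
    RingHom.congr_fun (RingHom.ext_zmod (ψ.comp φ) φ) j
  have hb : b.natDegree < p := by
    have h1 : (∏ j ∈ S, (Polynomial.X - Polynomial.C (Y + φ j * e))).natDegree ≤ p - 1 := by
      refine (Polynomial.natDegree_prod_le _ _).trans ?_
      refine (Finset.sum_le_card_nsmul _ _ 1 fun j _ => ?_).trans ?_
      · exact Polynomial.natDegree_X_sub_C_le _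
      · simp [hS]
    have h2 := (Polynomial.natDegree_C_mul_le (φ u⁻¹ * z) _).trans h1
    have := hp.pos
    simp only [b]
    omega
  refine ⟨∑ i ∈ range p, b.map (ρ ^ i : A →+* A), ?_, ?_, ?_⟩
  · have : (∑ i ∈ range p, b.map (ρ ^ i : A →+* A)).natDegree ≤ p - 1 := by
      refine Polynomial.natDegree_sum_le_of_forall_le _ _ fun i _ => ?_
      have := Polynomial.natDegree_map_le (p := b) (f := (ρ ^ i : A →+* A))
      omega
    have := hp.pos
    omega
  · rw [Polynomial.map_sum]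
    have h1 : ∀ i : ℕ, (b.map (ρ ^ i : A →+* A)).map ρ = b.map (ρ ^ (i + 1) : A →+* A) := by
      intro i
      rw [Polynomial.map_map, pow_succ']
      rfl
    simp only [h1]
    refine sum_shift (fun i => b.map (ρ ^ i : A →+* A)) p ?_
    have : (ρ ^ p : A →+* A) = ρ ^ 0 := RingHom.ext fun a => hρ a
    simp only [this]
  · rw [Polynomial.eval_finsetSum, Finset.sum_eq_single 0]
    · have h0 : (ρ ^ 0 : A →+* A) = RingHom.id A := rfl
      rw [h0, Polynomial.map_id]
      simp only [b, Polynomial.eval_mul, Polynomial.eval_C, Polynomial.eval_prod,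
        Polynomial.eval_sub, Polynomial.eval_X]
      have h1 : ∀ j ∈ S, Y - (Y + φ j * e) = φ (-j) * e := by
        intro j _
        rw [map_neg]
        ring
      rw [Finset.prod_congr rfl h1, Finset.prod_mul_distrib, ← map_prod, Finset.prod_const, hS]
      have h2 : φ u⁻¹ * φ u = 1 := by rw [← map_mul, inv_mul_cancel₀ hu, map_one]
      change φ u⁻¹ * z * (φ u * e ^ (p - 1)) = _
      linear_combination (z * e ^ (p - 1)) * h2
    · intro i hi hi0
      have hip : i < p := mem_range.1 hi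
      have hne : (-(i : ZMod p)) ∈ S := by
        refine Finset.mem_erase.2 ⟨neg_ne_zero.2 ?_, mem_univ _⟩
        rw [Ne, ZMod.natCast_eq_zero_iff]
        exact fun h => hi0 (Nat.eq_zero_of_dvd_of_lt h hip)
      simp only [b, Polynomial.map_mul, Polynomial.map_prod, Polynomial.eval_mul,
        Polynomial.eval_prod]
      rw [Finset.prod_eq_zero hne, mul_zero]
      simp only [Polynomial.map_sub, Polynomial.map_X, Polynomial.map_C, Polynomial.eval_sub,
        Polynomial.eval_X, Polynomial.eval_C]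
      rw [map_add, map_mul, hφ, pow_shift ρ he hY, pow_fix ρ he, map_neg, map_natCast]
      ring
    · intro h
      exact absurd (mem_range.2 hp.pos) h

/-- additive Hilbert 90: `Y = - ∑_{i<q} (∑_{a<i} σ^a w) σ^i Θ` -/
theorem h90 {A : Type u} [CommRing A] (σ : A →+* A) (q : ℕ) (hσ : ∀ a, (σ ^ q) a = a)
    (Θ Δ w : A) (hΘ : ∑ i ∈ range q, (σ ^ i) Θ = Δ) (hw : ∑ i ∈ range q, (σ ^ i) w = 0) :
    ∃ Y, σ Y - Y = Δ * w := by
  let T : ℕ → A := fun i => ∑ a ∈ range i, (σ ^ a) w
  have hT : ∀ i, σ (T i) = T (i + 1) - w := by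
    intro i
    simp only [T]
    rw [Finset.sum_range_succ', map_sum]
    simp only [pow_succ_apply]
    have : (σ ^ 0) w = w := rfl
    rw [this, add_sub_cancel_right]
  refine ⟨-∑ i ∈ range q, T i * (σ ^ i) Θ, ?_⟩
  rw [map_neg, map_sum]
  have h1 : ∀ i ∈ range q, σ (T i * (σ ^ i) Θ) =
      T (i + 1) * (σ ^ (i + 1)) Θ - (σ ^ (i + 1)) Θ * w := by
    intro i _
    rw [map_mul, hT, pow_succ_apply]
    ring
  rw [Finset.sum_congr rfl h1, Finset.sum_sub_distrib, ← Finset.sum_mul,
    sum_shift (fun i => T i * (σ ^ i) Θ) q, sum_shift (fun i => (σ ^ i) Θ) q, hΘ]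
  · ring
  · exact hσ Θ
  · have h2 : T q = 0 := hw
    have h3 : T 0 = 0 := by simp [T]
    simp only [h2, h3, zero_mul]

/-- the identity `∑_i t_i^(q-1) / ∏_{j ≠ i} (t_i - t_j) = 1` (`Lagrange.coeff_eq_sum` in the
fraction field) for `t_i = σ^i t`, with `Θ = t^(q-1) Ξ` where `Δ = Ξ ∏_{0<j<q} (t - σ^j t)` -/
theorem exists_trace {A : Type u} [CommRing A] [IsDomain A] (σ : A →+* A) (q : ℕ) (hq : 0 < q)
    (hσ : ∀ a, (σ ^ q) a = a) (t : A) (hinj : ∀ i < q, ∀ j < q, (σ ^ i) t = (σ ^ j) t → i = j)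
    (Δ : A) (hΔ : σ Δ = Δ) (hdvd : ∏ j ∈ Ico 1 q, (t - (σ ^ j) t) ∣ Δ) :
    ∃ Θ, ∑ i ∈ range q, (σ ^ i) Θ = Δ := by
  classical
  obtain ⟨Ξ, hΞ⟩ := hdvd
  have hσ1 : σ ^ q = 1 := RingHom.ext fun a => hσ a
  refine ⟨t ^ (q - 1) * Ξ, ?_⟩
  let K := FractionRing A
  let ι : A →+* K := algebraMap A K
  have hι : Injective ι := IsFractionRing.injective A K
  let v : ℕ → K := fun i => ι ((σ ^ i) t)
  have hv : Set.InjOn v (range q : Finset ℕ) := by
    intro i hi j hj h
    exact hinj i (by simpa using hi) j (by simpa using hj) (hι h)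
  have hdeg : ((Polynomial.X : K[X]) ^ (q - 1)).degree < ((range q).card : ℕ) := by
    rw [Polynomial.degree_X_pow, card_range]
    exact_mod_cast Nat.sub_lt hq one_pos
  have hL := Lagrange.coeff_eq_sum hv hdeg
  rw [card_range, Polynomial.coeff_X_pow_self] at hL
  apply hι
  rw [map_sum, ← mul_one (ι Δ), hL, Finset.mul_sum]
  refine Finset.sum_congr rfl fun i hi => ?_
  have hiq : i < q := mem_range.1 hi
  have h1 : Δ = (∏ j ∈ (range q).erase i, ((σ ^ i) t - (σ ^ j) t)) * (σ ^ i) Ξ := by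
    rw [← prod_reindex σ q hσ1 t i hiq]
    conv_lhs => rw [← pow_fix σ hΔ i, hΞ, map_mul, map_prod]
    simp only [map_sub, pow_add_apply]
  have h2 : ∏ j ∈ (range q).erase i, (v i - v j) ≠ 0 := by
    refine Finset.prod_ne_zero_iff.2 fun j hj => sub_ne_zero.2 fun h => ?_
    have hj' := Finset.mem_erase.1 hj
    exact hj'.1 (hv (by simpa using hi) (by simpa using hj'.2) h).symm
  have h3 : ι Δ = (∏ j ∈ (range q).erase i, (v i - v j)) * ι ((σ ^ i) Ξ) := by
    conv_lhs => rw [h1, map_mul, map_prod]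
    simp only [map_sub, v]
  have h4 : ι ((σ ^ i) (t ^ (q - 1) * Ξ)) = v i ^ (q - 1) * ι ((σ ^ i) Ξ) := by
    rw [map_mul, map_mul, map_pow, map_pow]
  rw [h3, h4, Polynomial.eval_pow, Polynomial.eval_X]
  generalize ∏ j ∈ (range q).erase i, (v i - v j) = P at h2
  rw [mul_comm P, mul_assoc, mul_div_cancel₀ _ h2, mul_comm]

end Pool.Agent.MP_deef5c_ag.O
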