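import Pool.Agent.MP_deef5c_ag.O.Desc

/-! An equivariant Artin-Schreier generator. -/

open PowerSeries IsLocalRing Finset Function
open scoped Polynomial

namespace Pool.Agent.MP_deef5c_ag.O

universe u

variable {k : Type u} [Field k] {p n m α : ℕ} [Fact p.Prime] [CharP k p] {ζ : k} {σ σ' : En k}
  {s : k⟦X⟧}

theorem Asd_iter {L : Type u} [CommRing L] (R : L →+* L) {y : L} (hy : R y = y + 1) (c : ℕ) :
    (R ^ c) y = y + c := by
  induction c with
  | zero => simp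
  | succ c ih =>
    rw [pow_succ', RingHom.coe_mul, comp_apply, ih, map_add, hy, map_natCast]
    push_cast
    ring

omit [Fact p.Prime] [CharP k p] in
theorem Asd_tau_pow (S : Sp p n m α ζ σ) : tau ζ ^ m = 1 := by
  rw [tau_pow, S.prim.pow_eq_one, tau_one]

theorem Asd_step (S : Sp p (n + 1) m α ζ σ) {y : LaurentSeries k}
    (hy : lext (σ ^ p ^ n) y = y + 1) :
    lext (σ ^ p ^ n) (α * lext (tau ζ) y) = α * lext (tau ζ) y + 1 := by
  have hp : 0 < p ^ (n + 1) := pow_pos (Fact.out : p.Prime).pos _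
  have hτ : Injective (tau ζ) := en_inj S.mpos (Asd_tau_pow S)
  have hσ : ∀ i : ℕ, Injective (σ ^ i : En k) := fun i =>
    en_inj hp (by rw [← pow_mul, mul_comm, pow_mul, S.pow, one_pow])
  obtain ⟨l, rfl⟩ : ∃ l, m = l + 1 := ⟨m - 1, by have := S.mpos; omega⟩
  have h1 := rel_pow S.rel (p ^ n * α ^ l) 1
  have h2 : α ^ 1 * (p ^ n * α ^ l) ≡ p ^ n [MOD p ^ (n + 1)] := by
    have := S.apow.mul_left (p ^ n)
    rw [mul_one] at this
    convert this using 1
    ring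
  rw [pow_eq_pow_of_modEq h2 S.pow, pow_one, pow_mul] at h1
  have h3 : ((α : LaurentSeries k)) ^ (l + 1) = 1 := by
    rw [← map_natCast (algebraMap k (LaurentSeries k)), ← map_pow, S.alpha_pow, map_one]
  rw [map_mul, map_natCast, ← lext_mul (hσ _) hτ, ← h1,
    lext_mul hτ (by rw [← pow_mul]; exact hσ _), lext_pow (hσ _), Asd_iter _ hy, map_add,
    map_natCast, mul_add, Nat.cast_pow, ← pow_succ', h3]

theorem Asd_avg (S : Sp p (n + 1) m α ζ σ) {y : LaurentSeries k}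
    (hy : lext (σ ^ p ^ n) y = y + 1) : ∃ y₁ : LaurentSeries k,
      lext (σ ^ p ^ n) y₁ = y₁ + 1 ∧ α * lext (tau ζ) y₁ = y₁ := by
  have hτ : ∀ i : ℕ, Injective (tau ζ ^ i : En k) := fun i =>
    en_inj S.mpos (by rw [← pow_mul, mul_comm, pow_mul, Asd_tau_pow S, one_pow])
  have hτ1 : Injective (tau ζ) := en_inj S.mpos (Asd_tau_pow S)
  set v : ℕ → LaurentSeries k := fun i => (α : LaurentSeries k) ^ i * lext (tau ζ ^ i) y with hv
  have h1 : ∀ i, v (i + 1) = α * lext (tau ζ) (v i) := fun i => by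
    simp only [hv]
    rw [map_mul, map_pow, map_natCast, ← lext_mul hτ1 (hτ i), ← pow_succ', pow_succ', mul_assoc]
  have h0 : v 0 = y := by simp only [hv, pow_zero, one_mul, lext_one]
  have h2 : ∀ i, lext (σ ^ p ^ n) (v i) = v i + 1 := fun i => by
    induction i with
    | zero => rwa [h0]
    | succ i ih => rw [h1]; exact Asd_step S ih
  have h3 : v m = v 0 := by
    simp only [hv]
    rw [Asd_tau_pow S, pow_zero, pow_zero, ← map_natCast (algebraMap k (LaurentSeries k)),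
      ← map_pow, S.alpha_pow, map_one]
  have hm : (m : LaurentSeries k) ≠ 0 := by
    rw [← map_natCast (algebraMap k (LaurentSeries k))]
    exact (map_ne_zero _).2 S.m_ne
  refine ⟨(m : LaurentSeries k)⁻¹ * ∑ i ∈ range m, v i, ?_, ?_⟩
  · rw [map_mul, map_inv₀, map_natCast, map_sum]
    simp only [h2]
    rw [sum_add_distrib, sum_const, card_range, nsmul_eq_mul, mul_one, mul_add,
      inv_mul_cancel₀ hm]
  · have h4 := (sum_range_succ v m).symm.trans (sum_range_succ' v m)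
    rw [h3, add_left_inj] at h4
    rw [map_mul, map_inv₀, map_natCast, map_sum, mul_left_comm, mul_sum]
    simp only [← h1]
    rw [← h4]

/-- With `ρ̂ = lext (σ^(p^n))`, `τ̂ = lext (tau ζ)`: if `ρ̂ y = y + 1` then `ρ̂ (α τ̂ y) = α τ̂ y + 1`
(`ρ^α τ = τ ρ` and `ρ = (ρ^α)^α'` with `α α' ≡ 1 mod p`).  So `y₁ = (1/m) ∑_{i<m} α^i τ̂^i y` satisfies
`ρ̂ y₁ = y₁ + 1`, `α τ̂ y₁ = y₁`, and `y₁ - y = lext (sub s) z` (`Desc.lfix`).  Choose `N ≥ p^(n+1)` with
`lc Y = (lc x)^N y₁`; `W`, `G` come from `Desc.fix`. -/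
theorem asd (S : Sp p (n + 1) m α ζ σ) (h : Desc p n σ σ' s) (S' : Sp p n m α (ζ ^ p) σ')
    (y f : LaurentSeries k) (hy : lext (σ ^ p ^ n) y = y + 1) (hf : y ^ p - y = lext (sub s) f) :
    ∃ (N : ℕ) (Y W G : k⟦X⟧) (z : LaurentSeries k), ASD p n α ζ σ s N Y W G ∧
      lc k G = lc k (xb p n σ') ^ (p * N) * (f + (z ^ p - z)) := by
  have hp0 : 0 < p := (Fact.out : p.Prime).pos
  have hp : 0 < p ^ (n + 1) := pow_pos hp0 _
  have hlc : Injective (lc k) := HahnSeries.ofPowerSeries_injective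
  have : CharP k⟦X⟧ p := charP_of_injective_algebraMap (algebraMap k k⟦X⟧).injective p
  have : CharP (LaurentSeries k) p :=
    charP_of_injective_algebraMap (algebraMap k (LaurentSeries k)).injective p
  have hτ : Injective (tau ζ) := en_inj S.mpos (Asd_tau_pow S)
  have hρ : Injective (σ ^ p ^ n) :=
    en_inj hp (by rw [← pow_mul, mul_comm, pow_mul, S.pow, one_pow])
  have hs0 : sub s X = s := sub_X (by rw [Lau_cc hp0 (h.order_s S)]; exact zero_mem _)
  have hs : Injective (sub s) := Lau_inj hp0 (by rw [hs0]; exact h.order_s S)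
  obtain ⟨y₁, h1, h2⟩ := Asd_avg S hy
  obtain ⟨z, hz⟩ := (h.lfix S (y₁ - y)).1 (by rw [map_sub, h1, hy]; ring)
  set x := xb p (n + 1) σ with hx
  have hσx : σ x = x := nrm_inv S.pow X
  have hρx : ∀ i, (σ ^ i) x = x := fun i => by
    induction i with
    | zero => rfl
    | succ i ih => rw [pow_succ, AlgHom.mul_apply, hσx, ih]
  have hτx : tau ζ x = C (ζ ^ p ^ (n + 1)) * x := tau_nrm ⟨S.pow, S.rel⟩ (S.cop _)
  obtain ⟨x₁, hx₁⟩ : X ∣ x := X_dvd_iff.2 (Lau_cc hp S.order_xb)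
  obtain ⟨b, g, hg⟩ := Lau_ex y₁
  obtain ⟨Y, hY⟩ : ∃ Y, lc k Y = lc k x ^ (p ^ (n + 1) + b) * y₁ :=
    ⟨x ^ p ^ (n + 1) * x₁ ^ b * g, by
      have h3 : lc k x ^ b = lc k X ^ b * lc k x₁ ^ b := by rw [hx₁, map_mul, mul_pow]
      rw [map_mul, map_mul, map_pow, map_pow, ← hg, pow_add (lc k x), h3]
      ring⟩
  set N := p ^ (n + 1) + b with hN
  have e1 : (σ ^ p ^ n) Y = Y + x ^ N := hlc (by
    rw [← lext_lc hρ, hY, map_mul, map_pow, lext_lc hρ, hρx, h1, map_add, hY, map_pow]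
    ring)
  have hpp : (x ^ N) ^ (p - 1) * x ^ N = (x ^ N) ^ p := by
    rw [← pow_succ, Nat.sub_add_cancel hp0]
  obtain ⟨W, hW⟩ := (h.fix S (σ Y - Y)).1 (by
    rw [map_sub, ← AlgHom.mul_apply, ← pow_succ, pow_succ', AlgHom.mul_apply, e1, map_add,
      map_pow, hσx]
    ring)
  obtain ⟨G, hG⟩ := (h.fix S (Y ^ p - (x ^ N) ^ (p - 1) * Y)).1 (by
    rw [map_sub, map_mul, map_pow, map_pow, map_pow, e1, hρx, add_pow_char, mul_add, hpp]
    ring)
  refine ⟨N, Y, W, G, z, ⟨Nat.le_add_right _ _, e1, hW.symm, hG.symm, hlc ?_⟩,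
    (lext (sub s)).injective ?_⟩
  · rw [map_mul, map_natCast, map_natCast, ← lext_lc hτ, hY, map_mul, map_pow, lext_lc hτ, hτx,
      mul_left_comm, h2, map_mul, map_mul, hY, map_pow C _ N, map_pow (lc k) _ N, mul_pow,
      mul_assoc]
  · have h3 : lc k x ^ (p * N) = (lc k x ^ N) ^ (p - 1) * lc k x ^ N := by
      rw [← pow_succ, Nat.sub_add_cancel hp0, ← pow_mul, mul_comm]
    rw [lext_lc hs, hG, map_mul, map_pow, lext_lc hs, h.hx, map_add, map_sub, map_sub, map_pow,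
      map_pow, hz, ← hf, sub_pow_char, map_mul, map_pow, map_pow, hY, ← hx, mul_pow, ← pow_mul,
      mul_comm N p, h3]
    ring

end Pool.Agent.MP_deef5c_ag.O
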