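import Pool.Agent.MP_deef5c_ag.O.LauA

/-! Artin-Schreier reduction of Laurent series. -/

open PowerSeries IsLocalRing Finset Function
open scoped Polynomial

namespace Pool.Agent.MP_deef5c_ag.O

universe u

open WithZero

variable (p : ℕ) [Fact p.Prime] {k : Type u} [Field k] [CharP k p]

theorem AsrPow [IsAlgClosed k] (g : k⟦X⟧) : ∃ u : k⟦X⟧, g = u ^ p - u := by
  have hp : 1 < p := (Fact.out : p.Prime).one_lt
  have : CharP k⟦X⟧ p := charP_of_injective_algebraMap (algebraMap k k⟦X⟧).injective p
  have hd : ∀ {R : Type u} [CommRing R] [Nontrivial R] (c : R),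
      (Polynomial.X + Polynomial.C c : R[X]).degree < (p : ℕ) := fun c => by
    rw [Polynomial.degree_X_add_C]
    exact_mod_cast hp
  obtain ⟨c, hc⟩ := IsAlgClosed.exists_root
    (Polynomial.X ^ p - (Polynomial.X + Polynomial.C (constantCoeff g)) : k[X]) (by
      rw [Polynomial.degree_sub_eq_left_of_degree_lt (by
        rw [Polynomial.degree_X_pow]; exact hd _), Polynomial.degree_X_pow]
      exact_mod_cast (by omega : p ≠ 0))
  obtain ⟨u, hu, -⟩ := HenselianRing.is_henselian (I := Ideal.span {(X : k⟦X⟧)})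
    (Polynomial.X ^ p - (Polynomial.X + Polynomial.C g)) (Polynomial.monic_X_pow_sub (hd g)) (C c)
    (by
      rw [Ideal.mem_span_singleton, X_dvd_iff]
      simpa using hc)
    (by simp [Polynomial.derivative_X_pow])
  refine ⟨u, ?_⟩
  simp only [Polynomial.IsRoot.def, Polynomial.eval_sub, Polynomial.eval_pow, Polynomial.eval_X,
    Polynomial.eval_add, Polynomial.eval_C] at hu
  linear_combination -hu

omit [Fact p.Prime] [CharP k p] in
theorem AsrMon (n : ℕ) (c : k) : Polynomial.aeval (lc k X)⁻¹ (Polynomial.monomial n c) =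
    HahnSeries.single (-(n : ℤ)) c := by
  rw [Polynomial.aeval_monomial, HahnSeries.ofPowerSeries_X, HahnSeries.inv_single,
    HahnSeries.single_pow, LaurentSeries.algebraMap_apply, HahnSeries.C_apply,
    HahnSeries.single_mul_single]
  simp

theorem AsrInd [IsAlgClosed k] (N : ℕ) : ∀ z : LaurentSeries k,
    (∀ n < -(N : ℤ), z.coeff n = 0) → ∃ (r : k[X]) (u : LaurentSeries k), Red p r ∧
      z = Polynomial.aeval (lc k X)⁻¹ r + (u ^ p - u) := by
  have hp : 1 < p := (Fact.out : p.Prime).one_lt
  have : CharP (LaurentSeries k) p :=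
    charP_of_injective_algebraMap (algebraMap k (LaurentSeries k)).injective p
  induction N with
  | zero =>
    intro z hz
    obtain ⟨g, rfl⟩ := exists_lc_of_le (z := z) (by
      simpa using (LaurentSeries.valuation_le_iff_coeff_lt_eq_zero k (D := 0)).2
        (by simpa using hz))
    obtain ⟨u, rfl⟩ := AsrPow p g
    exact ⟨0, lc k u, fun _ _ => rfl, by simp⟩
  | succ N ih =>
    intro z hz
    set c := z.coeff (-((N + 1 : ℕ) : ℤ)) with hc
    have h1 : ∀ n < -(N : ℤ), (z - HahnSeries.single (-((N + 1 : ℕ) : ℤ)) c).coeff n = 0 := by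
      intro n hn
      rw [HahnSeries.coeff_sub, HahnSeries.coeff_single]
      split_ifs with h
      · rw [h, sub_self]
      · rw [hz n (by omega), sub_zero]
    by_cases h : p ∣ N + 1
    · obtain ⟨j, hj⟩ := h
      obtain ⟨d, hd⟩ := IsAlgClosed.exists_pow_nat_eq c (n := p) (by omega)
      have hjN : j ≤ N := by
        rcases j with _ | j
        · omega
        · nlinarith
      obtain ⟨r, u, hr, e⟩ := ih (z - HahnSeries.single (-((N + 1 : ℕ) : ℤ)) c +
        HahnSeries.single (-(j : ℤ)) d) fun n hn => by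
          rw [HahnSeries.coeff_add, h1 n hn, HahnSeries.coeff_single_of_ne (by omega), add_zero]
      refine ⟨r, u + HahnSeries.single (-(j : ℤ)) d, hr, ?_⟩
      have e2 : (HahnSeries.single (-(j : ℤ)) d : LaurentSeries k) ^ p =
          HahnSeries.single (-((N + 1 : ℕ) : ℤ)) c := by
        rw [HahnSeries.single_pow, hd, hj]
        simp
      rw [add_pow_char, e2]
      linear_combination e
    · obtain ⟨r, u, hr, e⟩ := ih _ h1
      refine ⟨r + Polynomial.monomial (N + 1) c, u, fun j hj => ?_, ?_⟩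
      · rw [Polynomial.coeff_add, hr j hj, Polynomial.coeff_monomial, if_neg, add_zero]
        rintro rfl
        exact h hj
      · rw [map_add, AsrMon]
        linear_combination e

/-- A power series is `u^p - u` (constant term: `k` algebraically closed; rest: Hensel or
`u = - ∑ g^(p^i)`).  Induction on the pole order: a leading term `c X^(-p j)` is replaced by
`c^(1/p) X^(-j)`, a leading term of order prime to `p` goes to `r`. -/
theorem asr [IsAlgClosed k] (z : LaurentSeries k) :
    ∃ (r : k[X]) (u : LaurentSeries k), Red p r ∧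
      z = Polynomial.aeval (lc k X)⁻¹ r + (u ^ p - u) :=
  AsrInd p (-z.order).toNat z fun _ hn => HahnSeries.coeff_eq_zero_of_lt_order (by omega)

omit [Fact p.Prime] [CharP k p] in
theorem AsrThC (c : k) : th (algebraMap k (LaurentSeries k) c) = 0 := by
  ext a
  rw [coeff_th, LaurentSeries.algebraMap_apply, HahnSeries.C_apply, HahnSeries.coeff_single]
  split_ifs with h <;> simp [h]

omit [Fact p.Prime] [CharP k p] in
theorem AsrTh (y : LaurentSeries k) (r : k[X]) :
    th (Polynomial.aeval y r) = Polynomial.aeval y r.derivative * th y := by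
  induction r using Polynomial.induction_on with
  | C c => simp [AsrThC]
  | add r s hr hs => rw [map_add, th_add, hr, hs, map_add, map_add, add_mul]
  | monomial n c ih =>
    rw [pow_succ, ← mul_assoc]
    generalize Polynomial.C c * Polynomial.X ^ n = s at ih
    rw [map_mul, th_mul, ih, Polynomial.derivative_mul]
    simp only [Polynomial.aeval_X, map_add, map_mul, Polynomial.derivative_X, mul_one]
    ring

/-- valuation of a reduced polynomial in `1/x` and of its image under `th` -/
theorem vv_red (x : k⟦X⟧) (q κ : ℕ) (hq : 0 < q) (hx : order x = q)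
    (hκ : order (d⁄dX k x) + 1 = ((κ + q : ℕ) : ℕ∞)) (r : k[X]) (hr : Red p r) (h0 : r ≠ 0) :
    ¬ p ∣ r.natDegree ∧
    vv k (Polynomial.aeval (lc k x)⁻¹ r) = exp ((q * r.natDegree : ℕ) : ℤ) ∧
    vv k (th (Polynomial.aeval (lc k x)⁻¹ r)) = exp (((q * r.natDegree : ℕ) : ℤ) - κ) := by
  have : (vv k).IsTrivialOn k := ⟨fun c hc => by
    rw [LaurentSeries.algebraMap_apply, ← HahnSeries.ofPowerSeries_C (Γ := ℤ)]
    exact (vv_lc_eq (d := 0)).2 (order_eq_nat.2 ⟨by simpa using hc, by simp⟩)⟩
  have hn : ¬ p ∣ r.natDegree := fun h => Polynomial.leadingCoeff_ne_zero.2 h0 (hr _ h)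
  have h1 : vv k (lc k x) = exp (-(q : ℤ)) := vv_lc_eq.2 hx
  have h2 : vv k (lc k x)⁻¹ = exp (q : ℤ) := by rw [map_inv₀, h1, ← exp_neg, neg_neg]
  have h3 : 1 < vv k (lc k x)⁻¹ := by
    rw [h2, ← exp_zero, exp_lt_exp]
    omega
  have h4 : ∀ s : k[X], s ≠ 0 →
      vv k (Polynomial.aeval (lc k x)⁻¹ s) = exp ((q * s.natDegree : ℕ) : ℤ) := fun s hs => by
    rw [Polynomial.valuation_aeval_eq_valuation_X_pow_natDegree_of_one_lt_valuation_X _ h3 hs, h2,
      ← exp_nsmul]
    simp [mul_comm]
  refine ⟨hn, h4 r h0, ?_⟩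
  obtain ⟨m, hm⟩ : ∃ m, r.natDegree = m + 1 :=
    Nat.exists_eq_succ_of_ne_zero fun h => hn (h ▸ dvd_zero p)
  have h5 : r.derivative.coeff m ≠ 0 := by
    rw [Polynomial.coeff_derivative, ← Nat.cast_succ, Nat.succ_eq_add_one, ← hm]
    exact mul_ne_zero (Polynomial.leadingCoeff_ne_zero.2 h0)
      fun h => hn ((CharP.cast_eq_zero_iff k p _).1 h)
  have h6 : r.derivative.natDegree = m :=
    le_antisymm ((Polynomial.natDegree_derivative_le r).trans (by omega))
      (Polynomial.le_natDegree_of_ne_zero h5)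
  have hx0 : lc k x ≠ 0 := fun h => by
    rw [h, map_zero] at h1
    exact exp_ne_zero h1.symm
  have h7 : th (lc k x)⁻¹ = -((lc k x)⁻¹ ^ 2 * lc k (X * d⁄dX k x)) := by
    have e := th_mul (lc k x) (lc k x)⁻¹
    have e1 := AsrThC (1 : k)
    rw [map_one] at e1
    rw [mul_inv_cancel₀ hx0, e1, th_lc] at e
    field_simp at e ⊢
    linear_combination -e
  have h8 : vv k (lc k (X * d⁄dX k x)) = exp (-((κ + q : ℕ) : ℤ)) :=
    vv_lc_eq.2 (by rw [order_mul, order_X, add_comm, hκ])
  rw [AsrTh, map_mul, h4 _ fun h => h5 (by rw [h, Polynomial.coeff_zero]), h7, Valuation.map_neg,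
    map_mul, map_pow, h2, h8, h6, hm, ← exp_nsmul, ← exp_add, ← exp_add]
  congr 1
  push_cast
  ring

end Pool.Agent.MP_deef5c_ag.O
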