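import Pool.Agent.MP_deef5c_ag.O.BaseA

/-! Substitution into power series over complete local rings. -/

open PowerSeries IsLocalRing Finset Function
open scoped Polynomial

namespace Pool.Agent.MP_deef5c_ag.O

universe u

section Local
variable {D : Type u} [CommRing D] [IsLocalRing D]

theorem mem_max_iff (f : D⟦X⟧) : f ∈ maximalIdeal D⟦X⟧ ↔ constantCoeff f ∈ maximalIdeal D := by
  rw [mem_maximalIdeal, mem_maximalIdeal, mem_nonunits_iff, mem_nonunits_iff,
    PowerSeries.isUnit_iff_constantCoeff]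

theorem pi_eq_zero_iff {k : Type u} [Field k] (π : D →+* k) (hπ : Surjective π) (a : D) :
    π a = 0 ↔ a ∈ maximalIdeal D := by
  rw [← ker_eq_maximalIdeal π hπ, RingHom.mem_ker]

theorem order_map_residue {k : Type u} [Field k] (π : D →+* k) (hπ : Surjective π) (f : D⟦X⟧) :
    order (PowerSeries.map (residue D) f) = order (PowerSeries.map π f) := by
  have h : ∀ i, coeff i (PowerSeries.map (residue D) f) = 0 ↔
      coeff i (PowerSeries.map π f) = 0 := fun i => by
    rw [coeff_map, coeff_map, pi_eq_zero_iff π hπ, residue_eq_zero_iff]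
  exact le_antisymm (le_order _ _ fun i hi => (h i).1 (coeff_of_lt_order i hi))
    (le_order _ _ fun i hi => (h i).2 (coeff_of_lt_order i hi))

theorem isUnit_of_map {k : Type u} [Field k] (π : D →+* k) (hπ : Surjective π) (f : D⟦X⟧) :
    IsUnit f ↔ IsUnit (PowerSeries.map π f) := by
  rw [PowerSeries.isUnit_iff_constantCoeff, PowerSeries.isUnit_iff_constantCoeff,
    ← coeff_zero_eq_constantCoeff_apply (PowerSeries.map π f), coeff_map,
    coeff_zero_eq_constantCoeff_apply, isUnit_iff_ne_zero, Ne, pi_eq_zero_iff π hπ,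
    mem_maximalIdeal, mem_nonunits_iff, not_not]

omit [IsLocalRing D] in
theorem Base_en_C (σ : En D) (a : D) : σ (C a) = C a := σ.commutes a

theorem Base_coeff_mem {N : ℕ} {f : D⟦X⟧} (hf : f ∈ maximalIdeal D⟦X⟧ ^ N) (a : ℕ) :
    coeff a f ∈ maximalIdeal D ^ (N - a) := by
  induction N generalizing f a with
  | zero => simp
  | succ N ih =>
    rw [pow_succ] at hf
    refine Submodule.mul_induction_on hf (fun g hg h hh => ?_) fun x y hx hy => ?_
    · rw [coeff_mul]
      refine sum_mem fun ij hij => ?_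
      have h1 := mem_antidiagonal.1 hij
      rcases Nat.eq_zero_or_pos ij.2 with h2 | h2
      · have h3 : coeff ij.2 h ∈ maximalIdeal D := by
          rw [h2, coeff_zero_eq_constantCoeff_apply]
          exact (mem_max_iff h).1 hh
        have h4 := Ideal.mul_mem_mul (ih hg ij.1) h3
        rw [← pow_succ] at h4
        exact Ideal.pow_le_pow_right (by omega) h4
      · exact Ideal.pow_le_pow_right (by omega) (Ideal.mul_mem_right _ _ (ih hg ij.1))
    · rw [map_add]
      exact add_mem hx hy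

theorem Base_mem_pow (N : ℕ) (f : D⟦X⟧) (hf : ∀ a, coeff a f ∈ maximalIdeal D ^ (N - a)) :
    f ∈ maximalIdeal D⟦X⟧ ^ N := by
  induction N generalizing f with
  | zero => simp
  | succ N ih =>
    rw [eq_X_mul_shift_add_const f]
    refine add_mem ?_ ?_
    · rw [pow_succ']
      refine Ideal.mul_mem_mul ((mem_max_iff _).2 (by simp)) (ih _ fun a => ?_)
      have := hf (a + 1)
      rwa [Nat.add_sub_add_right, ← coeff_mk a fun p => coeff (p + 1) f] at this
    · have h1 := hf 0
      rw [Nat.sub_zero, coeff_zero_eq_constantCoeff_apply] at h1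
      have h2 := Ideal.mem_map_of_mem (C : D →+* D⟦X⟧) h1
      rw [Ideal.map_pow] at h2
      refine Ideal.pow_right_mono (Ideal.map_le_iff_le_comap.2 fun x hx => ?_) _ h2
      exact Ideal.mem_comap.2 ((mem_max_iff _).2 (by rwa [constantCoeff_C]))

/-- `f ∈ M^N` forces `coeff a f ∈ m^(N-a)`; conversely such `f` lie in `M^N`
(write `f = ∑_{a<N} c_a X^a + X^N g`). -/
instance CL.powerSeries [CL D] : CL D⟦X⟧ := by
  have hp : IsPrecomplete (maximalIdeal D⟦X⟧) D⟦X⟧ := by
    refine ⟨fun f hf => ?_⟩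
    simp only [SModEq.sub_mem, smul_eq_mul, Ideal.mul_top] at hf ⊢
    have h1 : ∀ a, ∃ L : D, ∀ n, coeff a (f (n + a)) - L ∈ maximalIdeal D ^ n := fun a => by
      have := IsPrecomplete.prec (I := maximalIdeal D) (M := D) inferInstance
        (f := fun n => coeff a (f (n + a))) fun {m n} hmn => by
          have h2 := Base_coeff_mem (hf (Nat.add_le_add_right hmn a)) a
          rw [Nat.add_sub_cancel, map_sub] at h2
          simpa only [SModEq.sub_mem, smul_eq_mul, Ideal.mul_top] using h2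
      simpa only [SModEq.sub_mem, smul_eq_mul, Ideal.mul_top] using this
    choose L hL using h1
    refine ⟨PowerSeries.mk L, fun n => Base_mem_pow n _ fun a => ?_⟩
    rcases le_total a n with h | h
    · have := hL a (n - a)
      rwa [Nat.sub_add_cancel h, ← coeff_mk a L, ← map_sub] at this
    · rw [Nat.sub_eq_zero_of_le h, pow_zero, Ideal.one_eq_top]
      trivial
  exact ⟨inferInstance, {}⟩

variable [CL D]

theorem sub_X {a : D⟦X⟧} (ha : constantCoeff a ∈ maximalIdeal D) : sub a X = a := by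
  have h : ∃ φ : En D, φ X = a := exists_algHom (maximalIdeal D⟦X⟧) a ((mem_max_iff a).2 ha)
  rw [sub, dif_pos h]
  exact h.choose_spec

theorem en_ext {φ ψ : En D} (h : φ X = ψ X) (hm : constantCoeff (φ X) ∈ maximalIdeal D) :
    φ = ψ := by
  refine AlgHom.coe_ringHom_injective (ringHom_ext_of_mem (maximalIdeal D⟦X⟧) _ _ (fun a => ?_) h
    ((mem_max_iff _).2 hm))
  exact (φ.commutes a).trans (ψ.commutes a).symm

theorem eq_sub (φ : En D) (hm : constantCoeff (φ X) ∈ maximalIdeal D) : φ = sub (φ X) := by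
  exact en_ext (sub_X hm).symm hm

/-- compatibility of substitutions with a change of coefficients; `D₀` is arbitrary -/
theorem map_en {D₀ : Type u} [CommRing D₀] (φ : D₀ →+* D) (σ₀ : En D₀) (σ : En D)
    (h : PowerSeries.map φ (σ₀ X) = σ X) (hm : constantCoeff (σ X) ∈ maximalIdeal D)
    (f : D₀⟦X⟧) : PowerSeries.map φ (σ₀ f) = σ (PowerSeries.map φ f) := by
  have h1 : (PowerSeries.map φ).comp (σ₀ : D₀⟦X⟧ →+* D₀⟦X⟧) =
      (σ : D⟦X⟧ →+* D⟦X⟧).comp (PowerSeries.map φ) := by
    refine ringHom_ext_of_mem (maximalIdeal D⟦X⟧) _ _ (fun a => ?_) ?_ ?_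
    · show PowerSeries.map φ (σ₀ (C a)) = σ (PowerSeries.map φ (C a))
      rw [Base_en_C, map_C, Base_en_C]
    · show PowerSeries.map φ (σ₀ X) = σ (PowerSeries.map φ X)
      rw [map_X, h]
    · show PowerSeries.map φ (σ₀ X) ∈ _
      rw [h]
      exact (mem_max_iff _).2 hm
  exact RingHom.congr_fun h1 f

theorem map_en_pow {D₀ : Type u} [CommRing D₀] (φ : D₀ →+* D) (σ₀ : En D₀) (σ : En D)
    (h : PowerSeries.map φ (σ₀ X) = σ X) (hm : constantCoeff (σ X) ∈ maximalIdeal D)
    (i : ℕ) (f : D₀⟦X⟧) : PowerSeries.map φ ((σ₀ ^ i) f) = (σ ^ i) (PowerSeries.map φ f) := by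
  induction i with
  | zero => rfl
  | succ i ih => rw [pow_succ', pow_succ', AlgHom.mul_apply, AlgHom.mul_apply, map_en φ σ₀ σ h hm, ih]

/-- endomorphisms with `σ X` in the maximal ideal preserve the maximal ideal -/
theorem en_mem (σ : En D) (hm : constantCoeff (σ X) ∈ maximalIdeal D) {f : D⟦X⟧}
    (hf : constantCoeff f ∈ maximalIdeal D) : constantCoeff (σ f) ∈ maximalIdeal D := by
  rw [eq_X_mul_shift_add_const f, map_add, map_mul, Base_en_C, map_add, map_mul, constantCoeff_C]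
  exact add_mem (Ideal.mul_mem_right _ _ hm) hf

/-- chain rule -/
theorem der_en (σ : En D) (hm : constantCoeff (σ X) ∈ maximalIdeal D) (f : D⟦X⟧) :
    d⁄dX D (σ f) = σ (d⁄dX D f) * d⁄dX D (σ X) := by
  refine der_eq (maximalIdeal D⟦X⟧) (σ : D⟦X⟧ →+* D⟦X⟧) ((mem_max_iff _).2 hm)
    ((d⁄dX D).toLinearMap.toAddMonoidHom.comp (σ : D⟦X⟧ →+* D⟦X⟧).toAddMonoidHom)
    (fun a => ?_) (fun f g => ?_) f
  · show d⁄dX D (σ (C a)) = 0
    rw [Base_en_C, derivative_C]
  · show d⁄dX D (σ (f * g)) = σ f * d⁄dX D (σ g) + σ g * d⁄dX D (σ f)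
    rw [map_mul, Derivation.leibniz, smul_eq_mul, smul_eq_mul]

/-- `σ f - ψ f` is divisible by `σ X - ψ X`: the ideal generated by that element is closed
(Krull intersection in the Noetherian local ring `D⟦X⟧`), or apply `ringHom_ext_of_mem` to the
quotient. -/
theorem sub_dvd (σ ψ : En D) (hσ : constantCoeff (σ X) ∈ maximalIdeal D)
    (hψ : constantCoeff (ψ X) ∈ maximalIdeal D) (f : D⟦X⟧) : σ X - ψ X ∣ σ f - ψ f := by
  set J : Ideal D⟦X⟧ := Ideal.span {σ X - ψ X} with hJ
  have hH : IsHausdorff ((maximalIdeal D⟦X⟧).map (algebraMap D⟦X⟧ (D⟦X⟧ ⧸ J))) (D⟦X⟧ ⧸ J) :=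
    IsHausdorff.map_algebraMap_iff.2 inferInstance
  have h1 : (Ideal.Quotient.mk J).comp (σ : D⟦X⟧ →+* D⟦X⟧) =
      (Ideal.Quotient.mk J).comp (ψ : D⟦X⟧ →+* D⟦X⟧) := by
    refine ringHom_ext_of_mem ((maximalIdeal D⟦X⟧).map (algebraMap D⟦X⟧ (D⟦X⟧ ⧸ J))) _ _
      (fun a => ?_) ?_ ?_
    · show Ideal.Quotient.mk J (σ (C a)) = Ideal.Quotient.mk J (ψ (C a))
      rw [Base_en_C, Base_en_C]
    · exact Ideal.Quotient.eq.2 (Ideal.mem_span_singleton_self _)
    · exact Ideal.mem_map_of_mem _ ((mem_max_iff _).2 hσ)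
  exact Ideal.mem_span_singleton.1 (Ideal.Quotient.eq.1 (RingHom.congr_fun h1 f))

end Local

end Pool.Agent.MP_deef5c_ag.O
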