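import Pool.Agent.MP_deef5c_ag.O.Defs

/-! Homomorphisms out of power series rings. -/

open PowerSeries IsLocalRing Finset Function
open scoped Polynomial

namespace Pool.Agent.MP_deef5c_ag.O

universe u

section General
variable {D : Type u} [CommRing D]

theorem BaseA_haus {B : Type u} [CommRing B] (I : Ideal B) [IsHausdorff I B] {x : B}
    (h : ∀ n, x ∈ I ^ n) : x = 0 := by
  refine IsHausdorff.haus' (I := I) x fun n => ?_
  rw [SModEq.zero, smul_eq_mul, Ideal.mul_top]
  exact h n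

theorem BaseA_poly {M : D⟦X⟧ → Prop} (hC : ∀ a, M (C a)) (hadd : ∀ f g, M f → M g → M (f + g))
    (hX : ∀ f, M f → M (f * X)) (p : D[X]) : M (p : D⟦X⟧) := by
  induction p using Polynomial.induction_on with
  | C a => rw [Polynomial.coe_C]; exact hC a
  | add p q hp hq => rw [Polynomial.coe_add]; exact hadd _ _ hp hq
  | monomial n a h =>
    rw [pow_succ, ← mul_assoc, Polynomial.coe_mul, Polynomial.coe_X]
    exact hX _ h

theorem BaseA_key {B : Type u} [CommRing B] [Algebra D B] (I : Ideal B) (a : B) (ha : a ∈ I)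
    (n : ℕ) (p q : D[X]) (h : ∀ m < n, p.coeff m = q.coeff m) :
    Ideal.Quotient.mk (I ^ n) (Polynomial.aeval a p) =
      Ideal.Quotient.mk (I ^ n) (Polynomial.aeval a q) := by
  rw [Ideal.Quotient.eq, ← map_sub]
  obtain ⟨r, hr⟩ : Polynomial.X ^ n ∣ p - q :=
    Polynomial.X_pow_dvd_iff.2 fun m hm => by rw [Polynomial.coeff_sub, h m hm, sub_self]
  rw [hr, map_mul, map_pow, Polynomial.aeval_X]
  exact Ideal.mul_mem_right _ _ (Ideal.pow_mem_pow ha n)

/-- evaluation modulo a power of the ideal -/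
noncomputable def BaseA_ev {B : Type u} [CommRing B] [Algebra D B] (I : Ideal B) (a : B)
    (ha : a ∈ I) (n : ℕ) : D⟦X⟧ →ₐ[D] B ⧸ I ^ n :=
  AlgHom.ofLinearMap
    ((Ideal.Quotient.mkₐ D (I ^ n)).toLinearMap ∘ₗ (Polynomial.aeval a).toLinearMap ∘ₗ trunc n)
    (by
      have := BaseA_key I a ha n (trunc n (1 : D⟦X⟧)) 1 fun m hm => by
        rw [coeff_trunc, if_pos hm, coeff_one, Polynomial.coeff_one]
      simpa using this)
    (fun f g => by
      have := BaseA_key I a ha n (trunc n (f * g)) (trunc n f * trunc n g) fun m hm => by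
        rw [coeff_trunc, if_pos hm, coeff_mul_eq_coeff_trunc_mul_trunc f g hm,
          ← Polynomial.coe_mul, Polynomial.coeff_coe]
      simpa using this)

theorem BaseA_ev_apply {B : Type u} [CommRing B] [Algebra D B] (I : Ideal B) (a : B)
    (ha : a ∈ I) (n : ℕ) (f : D⟦X⟧) :
    BaseA_ev I a ha n f = Ideal.Quotient.mk (I ^ n) (Polynomial.aeval a (trunc n f)) := rfl

theorem BaseA_der_zero {B : Type u} [CommRing B] (I : Ideal B) [IsHausdorff I B]
    (φ : D⟦X⟧ →+* B) (hI : φ X ∈ I) (δ : D⟦X⟧ →+ B) (hC : ∀ a, δ (C a) = 0) (hX : δ X = 0)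
    (hδ : ∀ f g, δ (f * g) = φ f * δ g + φ g * δ f) (f : D⟦X⟧) : δ f = 0 := by
  have hp : ∀ p : D[X], δ (p : D⟦X⟧) = 0 :=
    BaseA_poly (M := fun f => δ f = 0) hC (fun f g hf hg => by rw [map_add, hf, hg, add_zero])
      fun f hf => by rw [hδ, hf, hX, mul_zero, mul_zero, add_zero]
  refine BaseA_haus I fun n => ?_
  have h1 := hp (Polynomial.X ^ n)
  rw [Polynomial.coe_pow, Polynomial.coe_X] at h1
  rw [eq_X_pow_mul_shift_add_trunc n f, map_add, hp, add_zero, hδ, h1, mul_zero, add_zero, map_pow]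
  exact Ideal.mul_mem_right _ _ (Ideal.pow_mem_pow hI n)

/-- `f = poly + X^N g`, so both sides agree modulo `I^N` for every `N`. -/
theorem ringHom_ext_of_mem {B : Type u} [CommRing B] (I : Ideal B) [IsHausdorff I B]
    (φ ψ : D⟦X⟧ →+* B) (hC : ∀ a, φ (C a) = ψ (C a)) (hX : φ X = ψ X) (hI : φ X ∈ I) :
    φ = ψ := by
  have hp : ∀ p : D[X], φ (p : D⟦X⟧) = ψ (p : D⟦X⟧) :=
    BaseA_poly (M := fun f => φ f = ψ f) hC (fun f g hf hg => by rw [map_add, map_add, hf, hg])
      fun f hf => by rw [map_mul, map_mul, hf, hX]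
  refine RingHom.ext fun f => sub_eq_zero.1 (BaseA_haus I fun n => ?_)
  rw [eq_X_pow_mul_shift_add_trunc n f, map_add, map_add, hp, add_sub_add_right_eq_sub, map_mul,
    map_mul, map_pow, map_pow, ← hX, ← mul_sub]
  exact Ideal.mul_mem_right _ _ (Ideal.pow_mem_pow hI n)

/-- use `IsAdicComplete.liftRingHom` on the maps `f ↦ aeval a (trunc n f) mod I^n`. -/
theorem exists_algHom {B : Type u} [CommRing B] [Algebra D B] (I : Ideal B) [IsAdicComplete I B]
    (a : B) (ha : a ∈ I) : ∃ φ : D⟦X⟧ →ₐ[D] B, φ X = a := by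
  have hf : ∀ {m n : ℕ} (hle : m ≤ n),
      (Ideal.Quotient.factorPow I hle).comp (BaseA_ev (D := D) I a ha n : D⟦X⟧ →+* B ⧸ I ^ n) =
        (BaseA_ev (D := D) I a ha m : D⟦X⟧ →+* B ⧸ I ^ m) := by
    intro m n hle
    refine RingHom.ext fun f => ?_
    have h1 := BaseA_key I a ha m (trunc n f) (trunc m f) fun j hj => by
      rw [coeff_trunc, coeff_trunc, if_pos hj, if_pos (lt_of_lt_of_le hj hle)]
    rw [RingHom.comp_apply, RingHom.coe_coe, RingHom.coe_coe, BaseA_ev_apply, BaseA_ev_apply, ← h1,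
      Ideal.Quotient.factor_mk]
  obtain ⟨φ, hφ⟩ : ∃ φ : D⟦X⟧ →+* B, ∀ n f,
      Ideal.Quotient.mk (I ^ n) (φ f) = BaseA_ev (D := D) I a ha n f :=
    ⟨IsAdicComplete.liftRingHom I _ hf, fun n f => IsAdicComplete.mk_liftRingHom I _ hf n f⟩
  refine ⟨{ φ with commutes' := fun r => ?_ }, ?_⟩
  · refine sub_eq_zero.1 (BaseA_haus I fun n => ?_)
    rw [← Ideal.Quotient.eq]
    exact (hφ n _).trans (AlgHom.commutes _ r)
  · refine sub_eq_zero.1 (BaseA_haus I fun n => ?_)
    rw [← Ideal.Quotient.eq]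
    refine (hφ n X).trans ?_
    have h1 := BaseA_key I a ha n (trunc n (X : D⟦X⟧)) Polynomial.X fun j hj => by
      rw [coeff_trunc, if_pos hj, ← Polynomial.coe_X, Polynomial.coeff_coe]
    rw [BaseA_ev_apply, h1, Polynomial.aeval_X]

/-- a derivation along `φ` is determined by its value at `X` -/
theorem der_eq {B : Type u} [CommRing B] (I : Ideal B) [IsHausdorff I B]
    (φ : D⟦X⟧ →+* B) (hI : φ X ∈ I) (δ : D⟦X⟧ →+ B) (hC : ∀ a, δ (C a) = 0)
    (hδ : ∀ f g, δ (f * g) = φ f * δ g + φ g * δ f) (f : D⟦X⟧) :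
    δ f = φ (d⁄dX D f) * δ X := by
  let E : D⟦X⟧ →+ B :=
    { toFun := fun f => δ f - φ (d⁄dX D f) * δ X
      map_zero' := by simp
      map_add' := fun f g => by rw [map_add, map_add, map_add]; ring }
  have hE : ∀ f, E f = δ f - φ (d⁄dX D f) * δ X := fun _ => rfl
  have h := BaseA_der_zero I φ hI E (fun a => by rw [hE, hC, derivative_C]; simp)
    (by rw [hE, derivative_X]; simp)
    (fun f g => by
      rw [hE, hE, hE, hδ, Derivation.leibniz, smul_eq_mul, smul_eq_mul, map_add, map_mul, map_mul]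
      ring) f
  exact sub_eq_zero.1 h

theorem tau_apply (z : D) (f : D⟦X⟧) : tau z f = rescale z f := rfl

theorem tau_X (z : D) : tau z X = C z * X := by
  rw [tau_apply, rescale_X]

theorem coeff_tau (z : D) (f : D⟦X⟧) (a : ℕ) : coeff a (tau z f) = z ^ a * coeff a f := by
  rw [tau_apply, coeff_rescale]

theorem tau_mul (a b : D) : tau a * tau b = tau (a * b) := by
  refine AlgHom.ext fun f => ?_
  rw [AlgHom.mul_apply, tau_apply, tau_apply, tau_apply, rescale_rescale, mul_comm]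

theorem tau_one : tau (1 : D) = 1 := by
  refine AlgHom.ext fun f => ?_
  rw [tau_apply, rescale_one]
  rfl

theorem tau_pow (a : D) (i : ℕ) : tau a ^ i = tau (a ^ i) := by
  induction i with
  | zero => rw [pow_zero, pow_zero, tau_one]
  | succ i ih => rw [pow_succ, pow_succ, ih, tau_mul]

theorem map_tau {D' : Type u} [CommRing D'] (φ : D →+* D') (z : D) (f : D⟦X⟧) :
    PowerSeries.map φ (tau z f) = tau (φ z) (PowerSeries.map φ f) := by
  rw [tau_apply, tau_apply, rescale_map]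

theorem der_tau (z : D) (f : D⟦X⟧) : d⁄dX D (tau z f) = C z * tau z (d⁄dX D f) := by
  ext n
  rw [coeff_derivative, coeff_C_mul, coeff_tau, coeff_tau, coeff_derivative]
  ring

theorem map_der {D' : Type u} [CommRing D'] (φ : D →+* D') (f : D⟦X⟧) :
    PowerSeries.map φ (d⁄dX D f) = d⁄dX D' (PowerSeries.map φ f) := by
  ext n
  rw [coeff_map, coeff_derivative, coeff_derivative, coeff_map]
  simp

theorem cin_iff (J : Ideal D) (f : D⟦X⟧) :
    CIn J f ↔ PowerSeries.map (Ideal.Quotient.mk J) f = 0 := by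
  rw [PowerSeries.ext_iff]
  refine forall_congr' fun a => ?_
  rw [coeff_map, map_zero, Ideal.Quotient.eq_zero_iff_mem]

theorem cin_span_singleton (ε : D) (f : D⟦X⟧) :
    CIn (Ideal.span {ε}) f ↔ ∃ g, f = C ε * g := by
  constructor
  · intro h
    choose c hc using fun a => Ideal.mem_span_singleton'.1 (h a)
    refine ⟨PowerSeries.mk c, ?_⟩
    ext n
    rw [coeff_C_mul, coeff_mk, ← hc n, mul_comm]
  · rintro ⟨g, rfl⟩ a
    rw [coeff_C_mul]
    exact Ideal.mul_mem_right _ _ (Ideal.mem_span_singleton_self ε)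

theorem cin_mul {I J : Ideal D} {f g : D⟦X⟧} (hf : CIn I f) (hg : CIn J g) :
    CIn (I * J) (f * g) := by
  intro a
  rw [coeff_mul]
  exact sum_mem fun x _ => Ideal.mul_mem_mul (hf _) (hg _)

/-- a finitely generated `J`: `f = ∑ C c_i * g_i` -/
theorem cin_map [IsNoetherianRing D] (σ : En D) {J : Ideal D} {f : D⟦X⟧} (hf : CIn J f) :
    CIn J (σ f) := by
  obtain ⟨n, s, hs⟩ := Submodule.fg_iff_exists_fin_generating_family.1 (IsNoetherian.noetherian J)
  have h1 : ∀ a, ∃ c : Fin n → D, ∑ i, c i • s i = coeff a f := fun a =>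
    (Submodule.mem_span_range_iff_exists_fun D).1 (hs ▸ hf a)
  choose c hc using h1
  have h2 : f = ∑ i, s i • PowerSeries.mk fun a => c a i := by
    ext a
    rw [map_sum, ← hc a]
    exact sum_congr rfl fun i _ => by rw [coeff_smul, coeff_mk, smul_eq_mul, smul_eq_mul, mul_comm]
  intro a
  rw [h2, map_sum, map_sum]
  refine sum_mem fun i _ => ?_
  rw [map_smul, coeff_smul, smul_eq_mul]
  exact Ideal.mul_mem_right _ _ (hs ▸ Submodule.subset_span ⟨i, rfl⟩)

end General

end Pool.Agent.MP_deef5c_ag.O
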