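import Pool.Agent.MP_deef5c_ag.O.CalcA

/-! The relations modulo an ideal. -/

open PowerSeries IsLocalRing Finset Function
open scoped Polynomial

namespace Pool.Agent.MP_deef5c_ag.O

universe u

variable {D k : Type u} [CommRing D] [IsLocalRing D] [CL D] [Field k]

theorem Calc_core {D₀ : Type u} [CommRing D₀] (φ : D₀ →+* D) (q α : ℕ) (z : D₀) (σ₀ : En D₀)
    (σ : En D) (h : PowerSeries.map φ (σ₀ X) = σ X) (hm : constantCoeff (σ X) ∈ maximalIdeal D) :
    Rel q α (φ z) σ ↔ PowerSeries.map φ ((σ₀ ^ q) X - X) = 0 ∧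
      PowerSeries.map φ (tau z (σ₀ X) - (σ₀ ^ α) (C z * X)) = 0 := by
  rw [map_sub, map_sub, map_en_pow φ σ₀ σ h hm, map_en_pow φ σ₀ σ h hm, map_tau, h, map_mul, map_C,
    map_X, sub_eq_zero, sub_eq_zero, ← tau_X, ← AlgHom.mul_apply, ← AlgHom.mul_apply]
  refine and_congr ⟨fun h => by rw [h]; rfl, fun h => en_ext h ?_⟩
    ⟨fun h => by rw [h], fun h => en_ext h ?_⟩
  · rw [h, constantCoeff_X]
    exact zero_mem _
  · rw [AlgHom.mul_apply, ← coeff_zero_eq_constantCoeff_apply, coeff_tau, pow_zero, one_mul,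
      coeff_zero_eq_constantCoeff_apply]
    exact hm

omit [CL D] in
theorem Calc_mem {D' : Type u} [CommRing D'] [IsLocalRing D'] (φ : D →+* D') (hφ : Surjective φ)
    {s : D⟦X⟧} (hs : constantCoeff s ∈ maximalIdeal D) :
    constantCoeff (PowerSeries.map φ s) ∈ maximalIdeal D' := by
  have := IsLocalHom.of_surjective φ hφ
  rw [← coeff_zero_eq_constantCoeff_apply, coeff_map, coeff_zero_eq_constantCoeff_apply]
  exact map_nonunit φ _ hs

/-- `Good` means that the relations hold after base change -/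
theorem good_iff {D' : Type u} [CommRing D'] [IsLocalRing D'] [CL D'] (φ : D →+* D')
    (hφ : Surjective φ) (q α : ℕ) (z : D) (s : D⟦X⟧) (hs : constantCoeff s ∈ maximalIdeal D) :
    Good q α z (RingHom.ker φ) s ↔ Rel q α (φ z) (sub (PowerSeries.map φ s)) := by
  have hm := Calc_mem φ hφ hs
  have hc : ∀ f : D⟦X⟧, CIn (RingHom.ker φ) f ↔ PowerSeries.map φ f = 0 := fun f => by
    rw [PowerSeries.ext_iff]
    refine forall_congr' fun a => ?_
    rw [coeff_map, map_zero, RingHom.mem_ker]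
  rw [Calc_core φ q α z (sub s) _ (by rw [sub_X hs, sub_X hm]) (by rwa [sub_X hm]), Good, hc, hc,
    sub_X hs]

theorem good_congr {q α : ℕ} {z : D} {J : Ideal D} (hJ : J ≠ ⊤) {s s' : D⟦X⟧}
    (hs : constantCoeff s ∈ maximalIdeal D) (h : CIn J (s' - s)) (hg : Good q α z J s) :
    Good q α z J s' := by
  have := local_quot J hJ
  have : CL (D ⧸ J) := CL.of_surj (Ideal.Quotient.mk J) Ideal.Quotient.mk_surjective
  have hs' : constantCoeff s' ∈ maximalIdeal D := by
    have h1 := le_maximalIdeal hJ (h 0)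
    rw [coeff_zero_eq_constantCoeff_apply, map_sub] at h1
    simpa using add_mem h1 hs
  rw [cin_iff, map_sub, sub_eq_zero] at h
  have h1 := good_iff (Ideal.Quotient.mk J) Ideal.Quotient.mk_surjective q α z s hs
  have h2 := good_iff (Ideal.Quotient.mk J) Ideal.Quotient.mk_surjective q α z s' hs'
  rw [Ideal.mk_ker] at h1 h2
  rw [h2, h]
  exact h1.1 hg

/-- base change of the relations along any map with `σ' X` in the maximal ideal -/
theorem Rel.map {D₀ : Type u} [CommRing D₀] (φ : D₀ →+* D) {q α : ℕ} {z : D₀} {σ₀ : En D₀}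
    (h : Rel q α z σ₀) (hm : constantCoeff (PowerSeries.map φ (σ₀ X)) ∈ maximalIdeal D) :
    Rel q α (φ z) (sub (PowerSeries.map φ (σ₀ X))) := by
  rw [Calc_core φ q α z σ₀ _ (sub_X hm).symm (by rwa [sub_X hm]), h.1, ← tau_X,
    ← AlgHom.mul_apply, ← AlgHom.mul_apply, h.2]
  simp

end Pool.Agent.MP_deef5c_ag.O
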