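import Pool.Agent.MP_deef5c_ag.O.Sp0

/-! First order variation of the powers of a substitution. -/

open PowerSeries IsLocalRing Finset Function
open scoped Polynomial

namespace Pool.Agent.MP_deef5c_ag.O

universe u

variable {D k : Type u} [CommRing D] [IsLocalRing D] [CL D] [Field k]

/-- the linear maps that describe the first order variation -/
noncomputable def CalcA_L (σ : En D) : ℕ → D⟦X⟧ →ₗ[D] D⟦X⟧
  | 0 => 0
  | a + 1 => LinearMap.mulRight D (σ (d⁄dX D ((σ ^ a) X))) + σ.toLinearMap ∘ₗ CalcA_L σ a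

omit [IsLocalRing D] [CL D] in
theorem CalcA_succ (σ : En D) (a : ℕ) (g : D⟦X⟧) :
    CalcA_L σ (a + 1) g = g * σ (d⁄dX D ((σ ^ a) X)) + σ (CalcA_L σ a g) := rfl

theorem CalcA_cin (σ : En D) {I : Ideal D} {e : D⟦X⟧} (he : CIn I e) (a : ℕ) :
    CIn I (CalcA_L σ a e) := by
  induction a with
  | zero => exact fun _ => by simp [CalcA_L]
  | succ a ih =>
    intro n
    rw [CalcA_succ, map_add]
    refine add_mem ?_ (cin_map σ ih n)
    have := cin_mul (J := ⊤) (g := σ (d⁄dX D ((σ ^ a) X))) he (fun _ => Submodule.mem_top) n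
    rwa [Ideal.mul_top] at this

omit [IsLocalRing D] [CL D] in
theorem CalcA_zero {I : Ideal D} (hI : I * I = ⊥) {f g : D⟦X⟧} (hf : CIn I f) (hg : CIn I g) :
    f * g = 0 := by
  ext n
  have := cin_mul hf hg n
  rwa [hI, Ideal.mem_bot] at this

/-- `der_eq` for `δ = sub (s + e) - sub s` along `sub s`; `δ f ∈ (e)` by `sub_dvd` -/
theorem sub_add (s e : D⟦X⟧) (hs : constantCoeff s ∈ maximalIdeal D) (he : e * e = 0)
    (f : D⟦X⟧) : sub (s + e) f = sub s f + e * sub s (d⁄dX D f) := by
  have h1 : constantCoeff e ∈ maximalIdeal D := by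
    refine (maximalIdeal.isMaximal D).isPrime.mem_of_pow_mem 2 ?_
    rw [sq, ← map_mul, he, map_zero]
    exact zero_mem _
  have h2 : constantCoeff (s + e) ∈ maximalIdeal D := by
    rw [map_add]
    exact add_mem hs h1
  have h3 : ∀ g, e ∣ sub (s + e) g - sub s g := fun g => by
    have := sub_dvd (sub (s + e)) (sub s) (by rwa [sub_X h2]) (by rwa [sub_X hs]) g
    rwa [sub_X h2, sub_X hs, add_sub_cancel_left] at this
  have h4 := der_eq (maximalIdeal D⟦X⟧) (sub s : D⟦X⟧ →+* D⟦X⟧)
    ((mem_max_iff _).2 (by rw [RingHom.coe_coe, sub_X hs]; exact hs))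
    ((sub (s + e) : D⟦X⟧ →+* D⟦X⟧).toAddMonoidHom - (sub s : D⟦X⟧ →+* D⟦X⟧).toAddMonoidHom)
    (fun a => by
      show sub (s + e) (C a) - sub s (C a) = 0
      rw [Base_en_C, Base_en_C, sub_self])
    (fun f g => by
      show sub (s + e) (f * g) - sub s (f * g) =
        sub s f * (sub (s + e) g - sub s g) + sub s g * (sub (s + e) f - sub s f)
      obtain ⟨a, ha⟩ := h3 f
      obtain ⟨b, hb⟩ := h3 g
      rw [map_mul, map_mul, ha, hb, sub_eq_iff_eq_add'.1 ha, sub_eq_iff_eq_add'.1 hb]
      linear_combination a * b * he) f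
  change sub (s + e) f - sub s f = sub s (d⁄dX D f) * (sub (s + e) X - sub s X) at h4
  rw [sub_X h2, sub_X hs] at h4
  linear_combination h4

/-- `L 0 = 0`, `L (a+1) g = g * σ' (d (σ'^a X)) + σ' (L a g)` with `σ' = sub s`.  For the reduction use
the chain rule `d x = d (σ^a x) = σ^a (d x) * d (σ^a X)`. -/
theorem calc_pow (π : D →+* k) (hπ : Surjective π) (σ : En k) (h0 : constantCoeff (σ X) = 0)
    (x : k⟦X⟧) (hx : σ x = x) (s : D⟦X⟧) (hs : PowerSeries.map π s = σ X) :
    ∃ L : ℕ → D⟦X⟧ →ₗ[D] D⟦X⟧,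
      (∀ I : Ideal D, I * I = ⊥ → ∀ e, CIn I e → ∀ a, (sub (s + e) ^ a) X = (sub s ^ a) X + L a e) ∧
      ∀ a g, PowerSeries.map π (L a g) * (σ ^ a) (d⁄dX k x) =
        trc σ a (PowerSeries.map π g * σ (d⁄dX k x)) := by
  have h1 : constantCoeff s ∈ maximalIdeal D := by
    rw [← pi_eq_zero_iff π hπ, ← h0, ← hs, ← coeff_zero_eq_constantCoeff_apply,
      ← coeff_zero_eq_constantCoeff_apply, coeff_map]
  have h2 : constantCoeff (σ X) ∈ maximalIdeal k := by
    rw [h0]
    exact zero_mem _
  have h3 : PowerSeries.map π (sub s X) = σ X := by rw [sub_X h1, hs]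
  refine ⟨CalcA_L (sub s), fun I hI e he a => ?_, fun a g => ?_⟩
  · induction a with
    | zero => simp [CalcA_L]
    | succ a ih =>
      have h4 : e * sub s (d⁄dX D (CalcA_L (sub s) a e)) = 0 :=
        CalcA_zero hI he (cin_map _ fun n => by
          rw [coeff_derivative]
          exact Ideal.mul_mem_right _ _ (CalcA_cin _ he a _))
      rw [pow_succ', pow_succ', AlgHom.mul_apply, AlgHom.mul_apply, ih,
        sub_add s e h1 (CalcA_zero hI he he), CalcA_succ, map_add, map_add, map_add, mul_add, h4]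
      ring
  · induction a with
    | zero => simp [CalcA_L, trc]
    | succ a ih =>
      have h4 : constantCoeff ((σ ^ a) X) ∈ maximalIdeal k := by
        clear ih
        induction a with
        | zero => simp
        | succ a ih => rw [pow_succ', AlgHom.mul_apply]; exact en_mem σ h2 ih
      have h5 : (σ ^ a) x = x := by
        clear ih h4
        induction a with
        | zero => rfl
        | succ a ih => rw [pow_succ, AlgHom.mul_apply, hx, ih]
      have h6 := der_en (σ ^ a) h4 x
      rw [h5] at h6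
      have h7 : ∀ h, trc σ (a + 1) h = σ (trc σ a h) + h := fun h => by
        rw [trc, trc, sum_range_succ', map_sum]
        simp only [pow_succ', AlgHom.mul_apply, pow_zero, AlgHom.one_apply]
      rw [h7, ← ih, CalcA_succ, map_add, map_mul, map_en π _ σ h3 h2, map_en π _ σ h3 h2, map_der,
        map_en_pow π _ σ h3 h2, PowerSeries.map_X, pow_succ', AlgHom.mul_apply, map_mul]
      have h8 := congrArg σ h6
      rw [map_mul] at h8
      linear_combination (-PowerSeries.map π g) * h8

/-- if `ε m = 0` then `C ε * g` only depends on the reduction of `g` -/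
theorem eps_mul_eq (π : D →+* k) (hπ : Surjective π) {ε : D} (hε : ∀ a ∈ maximalIdeal D, a * ε = 0)
    {g g' : D⟦X⟧} (h : PowerSeries.map π g = PowerSeries.map π g') : C ε * g = C ε * g' := by
  ext n
  have h1 : coeff n g - coeff n g' ∈ maximalIdeal D := by
    rw [← pi_eq_zero_iff π hπ, map_sub, ← coeff_map, ← coeff_map, h, sub_self]
  rw [coeff_C_mul, coeff_C_mul]
  linear_combination hε _ h1

theorem eps_cancel (π : D →+* k) (hπ : Surjective π) {ε : D} (h0 : ε ≠ 0)
    {g g' : D⟦X⟧} (h : C ε * g = C ε * g') : PowerSeries.map π g = PowerSeries.map π g' := by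
  ext n
  have h1 := congrArg (coeff n) h
  rw [coeff_C_mul, coeff_C_mul] at h1
  rw [coeff_map, coeff_map, ← sub_eq_zero, ← map_sub, pi_eq_zero_iff π hπ, mem_maximalIdeal,
    mem_nonunits_iff]
  exact fun hu => h0 (hu.mul_left_eq_zero.1 (by rw [mul_sub, h1, sub_self]))

end Pool.Agent.MP_deef5c_ag.O
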