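import Pool.Agent.MP_deef5c_ag.O.Defs2

/-! Tangent vectors minus obstructions. -/

open PowerSeries IsLocalRing Finset Function
open scoped Polynomial

namespace Pool.Agent.MP_deef5c_ag.O

universe u

theorem Cnt2_int (c : ℕ → ℕ) (h0 : c 0 = 0) (N j : ℕ) (hj : j < c N) :
    ∃ i < N, c i ≤ j ∧ j < c (i + 1) := by
  induction N with
  | zero => omega
  | succ N ih =>
    by_cases h : j < c N
    · obtain ⟨i, hi, h'⟩ := ih h
      exact ⟨i, by omega, h'⟩
    · exact ⟨N, by omega, by omega, hj⟩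

theorem Cnt2_mono (c : ℕ → ℕ) (q : ℕ) (hmono : ∀ i < q, c i ≤ c (i + 1)) (d i : ℕ)
    (h : i + d ≤ q) : c i ≤ c (i + d) := by
  induction d with
  | zero => exact le_rfl
  | succ d ih => exact (ih (by omega)).trans (hmono (i + d) (by omega))

theorem Cnt2_enum (c : ℕ → ℕ) (h0 : c 0 = 0) (N a : ℕ) (ha : a < N + c N) :
    ∃ i < N, a = c (i + 1) + i ∨ ∃ j, c i ≤ j ∧ j < c (i + 1) ∧ a = j + i := by
  induction N with
  | zero => omega
  | succ N ih =>
    by_cases h : a < N + c N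
    · obtain ⟨i, hi, h'⟩ := ih h
      exact ⟨i, by omega, h'⟩
    · refine ⟨N, by omega, ?_⟩
      by_cases h' : a = c (N + 1) + N
      · exact Or.inl h'
      · exact Or.inr ⟨a - N, by omega, by omega, by omega⟩

open Classical in
theorem Cnt2_low {k : Type u} [Field k] {m : ℕ} (hm : 0 < m) {ξ η : k} (hξ : ξ ^ m = 1) (w : ℕ)
    (hw : ξ ^ w = η) : w / m ≤ ((range w).filter fun j => ξ ^ j = η).card := by
  have h1 : ξ ^ (w % m) = η := by
    rw [← hw]
    conv_rhs => rw [← Nat.mod_add_div w m, pow_add, pow_mul, hξ, one_pow, mul_one]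
  conv_lhs => rw [← card_range (w / m)]
  refine card_le_card_of_injOn (fun t => w % m + m * t) (fun t ht => ?_) fun t _ t' _ h => ?_
  · have ht' : t + 1 ≤ w / m := mem_range.1 (mem_coe.1 ht)
    have h2 : m * (t + 1) ≤ m * (w / m) := Nat.mul_le_mul_left m ht'
    have h3 := Nat.mod_add_div w m
    have h4 := Nat.mod_lt w hm
    rw [Nat.mul_succ] at h2
    have h5 : w % m + m * t < w := by
      generalize m * (w / m) = A at h2 h3
      generalize m * t = B at h2 ⊢
      generalize w % m = R at h3 h4 ⊢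
      omega
    refine mem_coe.2 (mem_filter.2 ⟨mem_range.2 h5, ?_⟩)
    rw [pow_add, pow_mul, hξ, one_pow, mul_one, h1]
  · exact Nat.eq_of_mul_eq_mul_left hm (Nat.add_left_cancel h)

open Classical in
theorem Cnt2_split {k : Type u} [Field k] (ξ α : k) (w N : ℕ) (hw : w ≤ N) :
    (JJ w N ξ α).card + ((range w).filter fun j => ξ ^ j = α * ξ).card ≤
      ((range N).filter fun j => ξ ^ j = α * ξ).card := by
  rw [JJ, ← card_union_of_disjoint]
  · refine card_le_card fun j hj => ?_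
    simp only [mem_union, mem_filter, mem_Ico, mem_range] at hj ⊢
    rcases hj with h | h
    · exact ⟨h.1.2, h.2⟩
    · exact ⟨by omega, h.2⟩
  · refine disjoint_left.2 fun j h1 h2 => ?_
    simp only [mem_filter, mem_Ico, mem_range] at h1 h2
    omega

open Classical in
theorem Cnt2_one {k : Type u} [Field k] (ξ : k) (c : ℕ → ℕ) (h0 : c 0 = 0) (q : ℕ) :
    ((range (c q)).filter fun j => ξ ^ j = 1 * ξ).card ≤ (TT q c ξ 1).card := by
  refine card_le_card_of_surjOn Prod.snd fun j hj => ?_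
  obtain ⟨h1, h2⟩ := mem_filter.1 (mem_coe.1 hj)
  obtain ⟨i, hi, h3, h4⟩ := Cnt2_int c h0 q j (mem_range.1 h1)
  refine ⟨(i, j), mem_coe.2 (mem_filter.2 ⟨mem_product.2 ⟨mem_range.2 hi, h1⟩, h3, h4, ?_⟩), rfl⟩
  rw [h2, one_pow, one_mul, mul_one]

open Classical in
theorem Cnt2_two {k : Type u} [Field k] {ζ α : k} (hα : α * ζ = 1) (q : ℕ) (hq : ζ ^ q = ζ)
    (c v : ℕ → ℕ) (β : ℕ) (h0 : c 0 = 0) (hmono : ∀ i < q, c i ≤ c (i + 1)) (hβ : ζ ^ β = 1)
    (hinj : Set.InjOn v (range q : Finset ℕ))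
    (hv : ∀ i < q, β ≤ v i ∧ v i < β + q ∧ ζ ^ v i * α ^ i = ζ ^ c (i + 1)) :
    ((range (c q)).filter fun j => ζ ^ j = α * ζ).card ≤ (TT q c ζ α).card := by
  have hz : ζ ≠ 0 := right_ne_zero_of_mul_eq_one hα
  have hp : ∀ i, α ^ i * ζ ^ i = 1 := fun i => by rw [← mul_pow, hα, one_pow]
  have h1 : ((range (q + c q)).filter fun a => ζ ^ a = ζ).card =
      ((range q).filter fun a => ζ ^ a = ζ).card +
        ((range (c q)).filter fun j => ζ ^ j = α * ζ).card := by
    rw [← Nat.count_eq_card_filter_range, ← Nat.count_eq_card_filter_range,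
      ← Nat.count_eq_card_filter_range, Nat.count_add]
    congr 1
    rw [Nat.count_eq_card_filter_range, Nat.count_eq_card_filter_range]
    congr 1
    refine filter_congr fun j _ => ?_
    rw [pow_add, hq, hα, mul_eq_left₀ hz]
  have h2 : ((range q).filter fun i => ζ ^ (c (i + 1) + i) = ζ).card ≤
      ((range q).filter fun a => ζ ^ a = ζ).card := by
    refine card_le_card_of_injOn (fun i => v i - β) (fun i hi => ?_) fun i hi i' hi' h => ?_
    · obtain ⟨h3, h4⟩ := mem_filter.1 (mem_coe.1 hi)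
      obtain ⟨h5, h6, h7⟩ := hv i (mem_range.1 h3)
      refine mem_coe.2 (mem_filter.2 ⟨mem_range.2 (by show v i - β < q; omega), ?_⟩)
      rw [pow_add, ← h7, mul_assoc, hp, mul_one, ← Nat.sub_add_cancel h5, pow_add, hβ,
        mul_one] at h4
      exact h4
    · have h3 := (mem_filter.1 (mem_coe.1 hi)).1
      have h4 := (mem_filter.1 (mem_coe.1 hi')).1
      have h5 := (hv i (mem_range.1 h3)).1
      have h6 := (hv i' (mem_range.1 h4)).1
      have h7 : v i - β = v i' - β := h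
      exact hinj (mem_coe.2 h3) (mem_coe.2 h4) (by omega)
  have h3 : ((range (q + c q)).filter fun a => ζ ^ a = ζ) ⊆
      ((range q).filter fun i => ζ ^ (c (i + 1) + i) = ζ).image (fun i => c (i + 1) + i) ∪
        (TT q c ζ α).image fun t => t.2 + t.1 := by
    intro a ha
    obtain ⟨h4, h5⟩ := mem_filter.1 ha
    obtain ⟨i, hi, h | ⟨j, h6, h7, h⟩⟩ := Cnt2_enum c h0 q a (mem_range.1 h4)
    · exact mem_union_left _ (mem_image.2 ⟨i, mem_filter.2 ⟨mem_range.2 hi, h ▸ h5⟩, h.symm⟩)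
    · have h8 := Cnt2_mono c q hmono (q - (i + 1)) (i + 1) (by omega)
      rw [show i + 1 + (q - (i + 1)) = q by omega] at h8
      refine mem_union_right _ (mem_image.2 ⟨(i, j), mem_filter.2 ⟨mem_product.2
        ⟨mem_range.2 hi, mem_range.2 (by show j < c q; omega)⟩, h6, h7, ?_⟩, h.symm⟩)
      show ζ ^ j = ζ * α ^ i
      rw [h, pow_add] at h5
      calc ζ ^ j = ζ ^ j * (α ^ i * ζ ^ i) := by rw [hp, mul_one]
        _ = ζ ^ j * ζ ^ i * α ^ i := by ring
        _ = ζ * α ^ i := by rw [h5]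
  have h4 := (card_le_card h3).trans ((card_union_le _ _).trans
    (Nat.add_le_add card_image_le card_image_le))
  omega

/-- Every `j < c q` lies in exactly one interval `[c i, c (i+1))`, call it `i(j)`.  Case `α = 1`: all
conditions read `j ≡ 1 mod m`, and `[0, w)` contains at least `w / m` such `j`.  Case `α ξ = 1`,
`m > 1`: `α` is in the prime field, so `ξ^p = ξ`, `ζ = ξ`, `q ≡ 1`, `β ≡ 0`, `w ≡ 0 mod m`.  The numbers
`j + i(j)` (`j < c q`) and `g i = c (i+1) + i` (`i < q`) enumerate `[0, c q + q)` without repetition;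
`t ∈ TT` iff `j + i(j) ≡ 1`; `g i ≡ v i`, and the `v i` enumerate `[β, β + q)`, which contains `q / m`
numbers `≡ 1`.  So `|TT| = |{a < c q + q : a ≡ 1}| - q / m = |{j < c q : m ∣ j}| = |JJ| + w / m`. -/
theorem cnt2 (p n : ℕ) [Fact p.Prime] {k : Type u} [Field k] [CharP k p] {m α : ℕ} (hm : 0 < m)
    {ζ : k} (hζ : IsPrimitiveRoot ζ m) (hα : (α : k) = 1 ∨ (α : k) * ζ ^ p ^ n = 1)
    (c v : ℕ → ℕ) (β w : ℕ) (h0 : c 0 = 0) (hmono : ∀ i < p ^ n, c i ≤ c (i + 1))
    (hw : w ≤ c (p ^ n)) (hβ : ζ ^ (β + 1) = ζ ^ p ^ n)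
    (hξ : (ζ ^ p ^ n) ^ w = (α : k) * ζ ^ p ^ n) (hinj : Set.InjOn v (range (p ^ n) : Finset ℕ))
    (hv : ∀ i < p ^ n, β ≤ v i ∧ v i < β + p ^ n ∧
      ζ ^ v i * (α : k) ^ i = (ζ ^ p ^ n) ^ c (i + 1)) :
    (JJ w (c (p ^ n)) (ζ ^ p ^ n) (α : k)).card + w / m ≤
      (TT (p ^ n) c (ζ ^ p ^ n) (α : k)).card := by
  classical
  have hm1 : (ζ ^ p ^ n) ^ m = 1 := by rw [← pow_mul, mul_comm, pow_mul, hζ.pow_eq_one, one_pow]
  have h1 := Cnt2_low hm hm1 w hξ
  have h2 := Cnt2_split (ζ ^ p ^ n) (α : k) w _ hw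
  refine le_trans (le_trans (Nat.add_le_add_left h1 _) h2) ?_
  rcases hα with hα | hα
  · rw [hα]
    exact Cnt2_one _ c h0 _
  · have ha : (α : k) ^ p ^ n = α := by
      rw [← iterateFrobenius_def, map_natCast]
    have ha0 : (α : k) ≠ 0 := left_ne_zero_of_mul_eq_one hα
    have h3 : (ζ ^ p ^ n) ^ p ^ n = ζ ^ p ^ n := by
      refine mul_left_cancel₀ ha0 ?_
      rw [hα]
      conv_lhs => rw [← ha, ← mul_pow, hα, one_pow]
    have h4 : ζ ^ p ^ n = ζ := (iterateFrobenius k p n).injective h3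
    rw [h4] at hα hβ ⊢
    simp only [h4] at hv
    have hz : ζ ≠ 0 := right_ne_zero_of_mul_eq_one hα
    rw [pow_succ, mul_eq_right₀ hz] at hβ
    exact Cnt2_two hα _ h4 c v β h0 hmono hβ hinj hv

end Pool.Agent.MP_deef5c_ag.O
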