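import Pool.Agent.MP_deef5c_ag.O.Defs

/-! Counting parameters. -/

open PowerSeries IsLocalRing Finset Function
open scoped Polynomial

namespace Pool.Agent.MP_deef5c_ag.O

universe u

/-- orbit representatives for multiplication by a primitive root of unity -/
theorem orb {Ω : Type u} [Field Ω] {m : ℕ} (hm : 0 < m) {ξ : Ω} (hξ : IsPrimitiveRoot ξ m)
    (Z : Finset Ω) (h0 : (0 : Ω) ∉ Z) (hZ : ∀ b ∈ Z, ξ * b ∈ Z) (μ : Ω → ℕ)
    (hμ : ∀ b ∈ Z, μ (ξ * b) = μ b) :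
    ∃ Z₀ ⊆ Z, (∀ b ∈ Z, ∃ i : ℕ, ∃ b₀ ∈ Z₀, b = ξ ^ i * b₀) ∧ m * ∑ b ∈ Z₀, μ b = ∑ b ∈ Z, μ b := by
  classical
  induction Z using Finset.strongInduction with
  | H Z ih =>
    rcases Z.eq_empty_or_nonempty with rfl | ⟨b, hb⟩
    · exact ⟨∅, Subset.rfl, by simp, by simp⟩
    have hb0 : b ≠ 0 := fun e => h0 (e ▸ hb)
    have hx0 : ξ ≠ 0 := hξ.ne_zero hm.ne'
    have h1 : ∀ i : ℕ, ξ ^ i * b ∈ Z ∧ μ (ξ ^ i * b) = μ b := fun i => by
      induction i with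
      | zero => simpa using hb
      | succ i ih => rw [pow_succ', mul_assoc, hμ _ ih.1]; exact ⟨hZ _ ih.1, ih.2⟩
    let P := (range m).image fun i => ξ ^ i * b
    have hP : ∀ c, c ∈ P ↔ ∃ i : ℕ, c = ξ ^ i * b := fun c => by
      simp only [P, mem_image, mem_range]
      refine ⟨fun ⟨i, _, e⟩ => ⟨i, e.symm⟩, fun ⟨i, e⟩ => ⟨i % m, Nat.mod_lt _ hm, ?_⟩⟩
      rw [e, ← pow_eq_pow_mod i hξ.pow_eq_one]
    have hPZ : P ⊆ Z := fun c hc => by
      obtain ⟨i, rfl⟩ := (hP c).1 hc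
      exact (h1 i).1
    have hbP : b ∈ P := (hP b).2 ⟨0, by simp⟩
    obtain ⟨Z₀, h2, h3, h4⟩ := ih (Z \ P) (sdiff_ssubset hPZ ⟨b, hbP⟩)
      (fun h => h0 (mem_sdiff.1 h).1) (fun c hc => mem_sdiff.2 ⟨hZ c (mem_sdiff.1 hc).1, fun h => by
        obtain ⟨i, e⟩ := (hP _).1 h
        refine (mem_sdiff.1 hc).2 ((hP c).2 ⟨m - 1 + i, ?_⟩)
        rw [pow_add, mul_assoc, ← e, ← mul_assoc, pow_sub_one_mul hm.ne', hξ.pow_eq_one, one_mul]⟩)
      fun c hc => hμ c (mem_sdiff.1 hc).1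
    refine ⟨insert b Z₀, insert_subset hb (h2.trans sdiff_subset), fun c hc => ?_, ?_⟩
    · by_cases h : c ∈ P
      · obtain ⟨i, e⟩ := (hP c).1 h
        exact ⟨i, b, mem_insert_self _ _, e⟩
      · obtain ⟨i, b₀, h5, e⟩ := h3 c (mem_sdiff.2 ⟨hc, h⟩)
        exact ⟨i, b₀, mem_insert_of_mem h5, e⟩
    · rw [sum_insert fun h => (mem_sdiff.1 (h2 h)).2 hbP, mul_add, h4, ← sum_sdiff hPZ, add_comm,
        sum_image fun i hi j hj e => hξ.pow_inj (by simpa using hi) (by simpa using hj)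
          (mul_right_cancel₀ hb0 e), sum_congr rfl fun i _ => (h1 i).2]
      simp

theorem Cnt3_aux {p r : ℕ} {A S : Finset ℕ} (hA : ∀ j ∈ A, j ∈ S ∧ ¬ p ∣ j) (f : ℕ → ℕ)
    (hf : Injective f) (h : ∀ i < r, f i ∈ S ∧ p ∣ f i) : A.card + r ≤ S.card := by
  have h1 : Disjoint A ((range r).image f) := disjoint_left.2 fun j hj hj' => by
    obtain ⟨i, hi, rfl⟩ := mem_image.1 hj'
    exact (hA _ hj).2 (h i (mem_range.1 hi)).2
  have h2 := card_union_of_disjoint h1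
  rw [card_image_of_injective _ hf, card_range] at h2
  rw [← h2]
  refine card_le_card (union_subset (fun j hj => (hA j hj).1) fun j hj => ?_)
  obtain ⟨i, hi, rfl⟩ := mem_image.1 hj
  exact (h i (mem_range.1 hi)).1

open Classical in
/-- Case `α = 1` (so `m ∣ j`): for `m = 1` count the `j < w''` prime to `p`; for `m > 1`, `m ∣ u'`.
Case `α ξ = 1`, `m > 1`: there are `w'' / m` numbers `j < w''` with `j ≡ -1 mod m`, and the `j = p j'`
with `0 < j' ≤ u'` in the non-zero class `-1/p` number at least `(u' + 1) / m`. -/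
theorem cnt3 (p : ℕ) [Fact p.Prime] {k : Type u} [Field k] [CharP k p] {m : ℕ} (hm : 0 < m)
    {ξ α : k} (hξ : IsPrimitiveRoot ξ m) (hα : α = 1 ∨ α * ξ = 1) (u' w' w'' : ℕ)
    (h : w' = 0 ∨ (w' = u' + 1 ∧ ξ ^ w' = α * ξ ∧ p * u' + 1 ≤ w'')) :
    ((range w'').filter fun j => ¬ p ∣ j ∧ ξ ^ j = α).card + w' / m ≤ w'' / m := by
  have hp : p.Prime := Fact.out
  have hx0 : ξ ≠ 0 := hξ.ne_zero hm.ne'
  by_cases h1 : α * ξ = 1
  · have hpm : Nat.Coprime m p := by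
      refine ((Nat.Prime.coprime_iff_not_dvd hp).2 fun h => ?_).symm
      have : NeZero m := ⟨hm.ne'⟩
      exact hξ.neZero'.out ((CharP.cast_eq_zero_iff k p m).2 h)
    obtain ⟨v, hv, hv'⟩ : ∃ v < m, m ∣ p * v + 1 := by
      obtain ⟨v, h1, h2⟩ := Nat.chineseRemainder hpm (m - 1) 0
      obtain ⟨v, rfl⟩ := (Nat.modEq_zero_iff_dvd).1 h2
      refine ⟨v % m, Nat.mod_lt _ hm, (Nat.modEq_zero_iff_dvd).1 ?_⟩
      refine ((((Nat.mod_modEq v m).mul_left p).trans h1).add_right 1).trans ?_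
      rw [Nat.sub_add_cancel hm]
      exact Nat.modulus_modEq_zero
    rw [← Nat.card_multiples w'' m]
    refine Cnt3_aux (p := p) (fun j hj => ?_) (fun i => p * (v + m * i)) (fun i j e => ?_)
      fun i hi => ⟨?_, dvd_mul_right _ _⟩
    · simp only [mem_filter] at hj ⊢
      refine ⟨⟨hj.1, (hξ.pow_eq_one_iff_dvd _).1 ?_⟩, hj.2.1⟩
      rw [pow_succ, hj.2.2, h1]
    · exact Nat.eq_of_mul_eq_mul_left hm (Nat.add_left_cancel (Nat.eq_of_mul_eq_mul_left hp.pos e))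
    · rcases h with rfl | ⟨rfl, -, h3⟩
      · simp at hi
      have h4 : (i + 1) * m ≤ u' + 1 := (Nat.le_div_iff_mul_le hm).1 hi
      have h5 : p * (v + m * i) ≤ p * u' := Nat.mul_le_mul_left _ (by nlinarith)
      rw [mem_filter, mem_range, mul_add, add_right_comm]
      exact ⟨by rw [← mul_add]; omega, dvd_add hv' ((dvd_mul_right m i).mul_left p)⟩
  · obtain rfl := hα.resolve_right h1
    have hm1 : 1 < m := by
      by_contra h2
      obtain rfl : m = 1 := by omega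
      exact h1 (by simpa using hξ.pow_eq_one)
    rw [← Nat.Ioc_filter_dvd_card_eq_div w'' m]
    refine Cnt3_aux (p := p) (fun j hj => ?_) (fun i => p * (m * (i + 1))) (fun i j e => ?_)
      fun i hi => ⟨?_, dvd_mul_right _ _⟩
    · simp only [mem_filter, mem_range, mem_Ioc] at hj ⊢
      exact ⟨⟨⟨Nat.pos_of_ne_zero fun e => hj.2.1 (e ▸ dvd_zero p), hj.1.le⟩,
        (hξ.pow_eq_one_iff_dvd _).1 hj.2.2⟩, hj.2.1⟩
    · exact Nat.add_right_cancel
        (Nat.eq_of_mul_eq_mul_left hm (Nat.eq_of_mul_eq_mul_left hp.pos e))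
    · rcases h with rfl | ⟨rfl, h2, h3⟩
      · simp at hi
      rw [pow_succ] at h2
      obtain ⟨r, rfl⟩ := (hξ.pow_eq_one_iff_dvd _).1 (mul_right_cancel₀ hx0 h2)
      rw [Nat.mul_add_div hm, Nat.div_eq_of_lt hm1, add_zero] at hi
      have h5 : p * (m * (i + 1)) ≤ p * (m * r) :=
        Nat.mul_le_mul_left _ (Nat.mul_le_mul_left _ hi)
      rw [mem_filter, mem_Ioc]
      exact ⟨⟨Nat.mul_pos hp.pos (Nat.mul_pos hm i.succ_pos), by omega⟩,
        (dvd_mul_right m _).mul_left p⟩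

end Pool.Agent.MP_deef5c_ag.O
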