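import Mathlib

/-! Definitions for the local lifting theorem for groups with cyclic `p`-Sylow subgroup. -/

open PowerSeries IsLocalRing Finset
open scoped Polynomial

namespace Pool.Agent.MP_deef5c_ag.O

universe u

/-- complete Noetherian local rings -/
class CL (D : Type u) [CommRing D] [IsLocalRing D] : Prop where
  noeth : IsNoetherianRing D
  cpl : IsAdicComplete (maximalIdeal D) D

attribute [instance] CL.noeth CL.cpl

instance CL.field (k : Type u) [Field k] : CL k := ⟨inferInstance, inferInstance⟩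

/-- algebra endomorphisms of `D⟦X⟧`, a monoid under composition: `(φ * ψ) f = φ (ψ f)` -/
abbrev En (D : Type u) [CommRing D] : Type u := D⟦X⟧ →ₐ[D] D⟦X⟧

section Ring

variable {D : Type u} [CommRing D]

open Classical in
/-- the substitution `X ↦ a` (junk unless `D` is complete local and `a(0)` is not a unit) -/
noncomputable def sub (a : D⟦X⟧) : En D :=
  if h : ∃ φ : En D, φ X = a then h.choose else 1

/-- the substitution `X ↦ z X` -/
noncomputable def tau (z : D) : En D :=
  { rescale z with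
    commutes' := fun r => by
      show rescale z (C r) = C r
      ext n
      rw [coeff_rescale, coeff_C]
      split_ifs with h <;> simp [h] }

/-- the norm `∏_{i<q} σ^i f` -/
noncomputable def nrm (σ : En D) (q : ℕ) (f : D⟦X⟧) : D⟦X⟧ := ∏ i ∈ range q, (σ ^ i) f

/-- the sum `∑_{i<a} σ^i f` -/
noncomputable def trc (σ : En D) (a : ℕ) (f : D⟦X⟧) : D⟦X⟧ := ∑ i ∈ range a, (σ ^ i) f

/-- the operator `σ - 1` -/
noncomputable def dl (σ : En D) : Module.End D D⟦X⟧ := σ.toLinearMap - 1

/-- all coefficients of `f` lie in `J` -/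
def CIn (J : Ideal D) (f : D⟦X⟧) : Prop := ∀ a, coeff a f ∈ J

/-- the relations `σ^q = 1`, `τ σ = σ^α τ` with `τ X = z X` -/
def Rel (q α : ℕ) (z : D) (σ : En D) : Prop := σ ^ q = 1 ∧ tau z * σ = σ ^ α * tau z

/-- the relations hold modulo `J` for the substitution `X ↦ s` -/
def Good (q α : ℕ) (z : D) (J : Ideal D) (s : D⟦X⟧) : Prop :=
  CIn J ((sub s ^ q) X - X) ∧ CIn J (tau z s - (sub s ^ α) (C z * X))

/-- only monomials of degree prime to `p` occur -/
def Red (p : ℕ) (r : D[X]) : Prop := ∀ j, p ∣ j → r.coeff j = 0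

/-- `(∏ (X-b)^(e b))^p * ∑_b ∑_j c b j / (X-b)^j` -/
noncomputable def polar [DecidableEq D] (p : ℕ) (Z : Finset D) (e : D → ℕ) (c : D → ℕ → D) : D[X] :=
  ∑ b ∈ Z, (∑ j ∈ Icc 1 (p * e b), Polynomial.C (c b j) * (Polynomial.X - Polynomial.C b) ^ (p * e b - j)) *
    ∏ b' ∈ Z.erase b, (Polynomial.X - Polynomial.C b') ^ (p * e b')

end Ring

/-- `UU p d i = max_{j<i} p^(i-1-j) d j` -/
def UU (p : ℕ) (d : ℕ → ℕ) : ℕ → ℕ
  | 0 => 0
  | i + 1 => max (p * UU p d i) (d i)

section Field

variable {k : Type u} [Field k]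

/-- power series as Laurent series -/
noncomputable abbrev lc (k : Type u) [Field k] : k⟦X⟧ →+* LaurentSeries k :=
  HahnSeries.ofPowerSeries ℤ k

/-- the valuation of Laurent series, `vv k (lc k X) = exp (-1)` -/
noncomputable abbrev vv (k : Type u) [Field k] :
    Valuation (LaurentSeries k) (WithZero (Multiplicative ℤ)) := Valued.v

/-- the operator `X d/dX` on Laurent series -/
noncomputable def th (z : LaurentSeries k) : LaurentSeries k :=
  lc k X * LaurentSeries.derivative k z

open Classical in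
/-- extension of an injective endomorphism to Laurent series -/
noncomputable def lext (φ : En k) : LaurentSeries k →+* LaurentSeries k :=
  if h : Function.Injective ((lc k).comp (φ : k⟦X⟧ →+* k⟦X⟧)) then
    IsFractionRing.lift (A := k⟦X⟧) (K := LaurentSeries k) h else RingHom.id _

theorem lmap_inj {Ω : Type u} [Field Ω] (φ : k →+* Ω) :
    Function.Injective ((lc Ω).comp (PowerSeries.map φ)) := fun _ _ h =>
  PowerSeries.map_injective φ φ.injective (HahnSeries.ofPowerSeries_injective h)

/-- coefficientwise extension of scalars of Laurent series -/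
noncomputable def lmap {Ω : Type u} [Field Ω] (φ : k →+* Ω) :
    LaurentSeries k →+* LaurentSeries Ω :=
  IsFractionRing.lift (A := k⟦X⟧) (K := LaurentSeries k) (lmap_inj φ)

/-- special fibre datum of level `n`: `σ` of order `p^n` normalised by `τ : X ↦ ζ X` -/
structure Sp (p n m α : ℕ) (ζ : k) (σ : En k) : Prop where
  ord : orderOf σ = p ^ n
  mpos : 0 < m
  prim : IsPrimitiveRoot ζ m
  rel : tau ζ * σ = σ ^ α * tau ζ
  hyp : (α : k) = 1 ∨ (α : k) * ζ ^ p ^ n = 1

/-- the norm of `X`, a coordinate of the quotient -/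
noncomputable def xb (p n : ℕ) (σ : En k) : k⟦X⟧ := nrm σ (p ^ n) X

/-- `w = 1 +` last upper jump (and `0` at level `0`) -/
def IsW (p n : ℕ) (σ : En k) (w : ℕ) : Prop :=
  (n = 0 ∧ w = 0) ∨ (0 < n ∧ ((p ^ n * w : ℕ) : ℕ∞) =
    order (d⁄dX k (xb p n σ)) + order ((σ ^ p ^ (n - 1)) X - X))

/-- `σ'` (level `n`) is induced by `σ` (level `n+1`) on the coordinate `s = N_ρ X` -/
structure Desc (p n : ℕ) (σ σ' : En k) (s : k⟦X⟧) : Prop where
  hs : s = nrm (σ ^ p ^ n) p X
  comm : sub s * σ' = σ * sub s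
  hx : sub s (xb p n σ') = xb p (n + 1) σ

variable {D : Type u} [CommRing D] [Algebra k D]

/-- constant extension of a series -/
noncomputable abbrev cst (D : Type u) [CommRing D] [Algebra k D] : k⟦X⟧ →+* D⟦X⟧ :=
  PowerSeries.map (algebraMap k D)

/-- a framed family over `D` with special fibre `σ` -/
structure Fam (p n α : ℕ) (ζ : k) (σ : En k) (π : D →ₐ[k] k) (σD : En D) (x : D⟦X⟧) : Prop where
  red : PowerSeries.map (π : D →+* k) (σD X) = σ X
  redx : PowerSeries.map (π : D →+* k) x = xb p n σ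
  rel : Rel (p ^ n) α (algebraMap k D ζ) σD
  inv : σD x = x
  eig : tau (algebraMap k D ζ) x = C (algebraMap k D (ζ ^ p ^ n)) * x

/-- `x` is `g` up to a change of coordinate congruent to the identity -/
def Triv (π : D →ₐ[k] k) (g : k⟦X⟧) (x : D⟦X⟧) : Prop :=
  ∃ Φ : En D, PowerSeries.map (π : D →+* k) (Φ X) = X ∧ Φ (cst D g) = x

end Field

end Pool.Agent.MP_deef5c_ag.O
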