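import Pool.Agent.MP_deef5c_ag.O.Lau

/-! Further definitions: data attached to one step of the tower. -/

open PowerSeries IsLocalRing Finset Function
open scoped Polynomial

namespace Pool.Agent.MP_deef5c_ag.O

universe u

open WithZero

variable {k : Type u} [Field k]

/-- Artin-Schreier-Witt data of level `n` -/
structure WD (p n : ℕ) [Fact p.Prime] (σ : En k) (y f : WittVector p (LaurentSeries k))
    (r : ℕ → k[X]) : Prop where
  sig : ∀ j < n, lext σ (y.coeff j) = (y + 1).coeff j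
  frob : ∀ j < n, y.coeff j ^ p = (y + f).coeff j
  hf : ∀ j < n, f.coeff j = Polynomial.aeval (lc k (xb p n σ))⁻¹ (r j)
  red : ∀ j < n, Red p (r j)
  pos : 0 < n → r 0 ≠ 0

/-- an equivariant Artin-Schreier generator `Y / x^N` of the top step (level `n+1`) -/
structure ASD (p n α : ℕ) (ζ : k) (σ : En k) (s : k⟦X⟧) (N : ℕ) (Y W G : k⟦X⟧) : Prop where
  hN : p ^ (n + 1) ≤ N
  rho : (σ ^ p ^ n) Y = Y + xb p (n + 1) σ ^ N
  sig : σ Y - Y = sub s W
  art : Y ^ p - (xb p (n + 1) σ ^ N) ^ (p - 1) * Y = sub s G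
  eig : C (α : k) * tau ζ Y = C ((ζ ^ p ^ (n + 1)) ^ N) * Y

/-- pole orders of the term `c` coming from the lower levels; `x` has order `q` -/
structure PO (p q : ℕ) (x : k⟦X⟧) (κ u' : ℕ) (c : LaurentSeries k) : Prop where
  hκ : order (d⁄dX k x) + 1 = ((κ + q : ℕ) : ℕ∞)
  hc : vv k c ≤ exp ((q * (p * u') : ℕ) : ℤ)
  hc' : (u' = 0 ∧ c = 0 ∧ κ = 0) ∨
    (κ < q * u' ∧ vv k (th c) = exp (((q * (p * u') : ℕ) : ℤ) - κ))

/-- the symbols of the filtration of `M = (dx/dX)` by the kernels of the powers of `σ - 1` -/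
structure SL (p n : ℕ) (σ : En k) (c : ℕ → ℕ) : Prop where
  zero : c 0 = 0
  mono : ∀ i < p ^ n, c i ≤ c (i + 1)
  dvd : ∀ i < p ^ n, ∀ a, d⁄dX k (xb p n σ) ∣ a → (dl σ ^ (i + 1)) a = 0 →
    xb p n σ ^ c (i + 1) ∣ (dl σ ^ i) a
  ex : ∀ i < p ^ n, ∃ a, d⁄dX k (xb p n σ) ∣ a ∧ (dl σ ^ (i + 1)) a = 0 ∧
    (dl σ ^ i) a = xb p n σ ^ c (i + 1)

open Classical in
/-- indices of tangent vectors (`i ≥ 1`) and of framings (`i = 0`) -/
noncomputable def TT (q : ℕ) (c : ℕ → ℕ) (ξ α : k) : Finset (ℕ × ℕ) :=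
  (range q ×ˢ range (c q)).filter fun t => c t.1 ≤ t.2 ∧ t.2 < c (t.1 + 1) ∧ ξ ^ t.2 = ξ * α ^ t.1

open Classical in
/-- indices of obstructions -/
noncomputable def JJ (w cq : ℕ) (ξ α : k) : Finset ℕ := (Ico w cq).filter fun j => ξ ^ j = α * ξ

/-- `e` is an equivariant first order deformation of `σ X` with symbol `x^j` in degree `i + 1` -/
structure TV (p n α : ℕ) (ζ : k) (σ : En k) (i j : ℕ) (e : k⟦X⟧) : Prop where
  ker : (dl σ ^ (i + 1)) (e * σ (d⁄dX k (xb p n σ))) = 0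
  sym : (dl σ ^ i) (e * σ (d⁄dX k (xb p n σ))) = xb p n σ ^ j
  eqv : tau ζ (e * σ (d⁄dX k (xb p n σ))) =
    C (ζ ^ p ^ n) * trc σ α (e * σ (d⁄dX k (xb p n σ)))

variable {D : Type u} [CommRing D] [Algebra k D]

/-- the first order family with parameters `a t`, `t ∈ T` -/
noncomputable def sfam (σ : En k) (T : Finset (ℕ × ℕ)) (e : ℕ × ℕ → k⟦X⟧) (a : ℕ × ℕ → D) : D⟦X⟧ :=
  cst D (σ X) + ∑ t ∈ T.filter (fun t => t.1 ≠ 0), C (a t) * cst D (e t)

/-- the framing with parameters `a (0, j)` of the substitution `X ↦ s` -/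
noncomputable def xfam (q : ℕ) (T : Finset (ℕ × ℕ)) (a : ℕ × ℕ → D) (s : D⟦X⟧) : D⟦X⟧ :=
  nrm (sub s) q X + ∑ t ∈ T.filter (fun t => t.1 = 0), C (a t) * nrm (sub s) q X ^ t.2

/-- the family becomes trivial on a quotient domain of codimension at most `d` -/
def TrivCut (π : D →ₐ[k] k) (d : ℕ) (g : k⟦X⟧) (x : D⟦X⟧) : Prop :=
  ∃ (D' : Type u) (_ : CommRing D') (_ : IsDomain D') (_ : IsLocalRing D') (_ : CL D')
    (_ : Algebra k D') (φ : D →ₐ[k] D') (π' : D' →ₐ[k] k), Surjective φ ∧ (∀ a, π' (φ a) = π a) ∧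
    ringKrullDim D ≤ ringKrullDim D' + d ∧ Triv π' g (PowerSeries.map (φ : D →+* D') x)

/-- a family of level `n+1` whose level `n` part is constant in the coordinate `sD` -/
structure Lev (p n α : ℕ) (ζ : k) (σ σ' : En k) (s : k⟦X⟧) (π : D →ₐ[k] k) (σD : En D)
    (x sD : D⟦X⟧) : Prop where
  fam : Fam p (n + 1) α ζ σ π σD x
  red : PowerSeries.map (π : D →+* k) sD = s
  hx : sub sD (cst D (xb p n σ')) = x
  inv : (σD ^ p ^ n) sD = sD
  comm : ∀ g, sub sD (cst D (σ' g)) = σD (sub sD (cst D g))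
  tcomm : ∀ g, sub sD (cst D (tau (ζ ^ p) g)) = tau (algebraMap k D ζ) (sub sD (cst D g))

/-- the branch polynomial `Wf` of the top step -/
structure WF [IsLocalRing D] (p n l : ℕ) (ξ : D) (σD : En D) (x sD x' : D⟦X⟧) (Wf : D[X])
    (GF υ : D⟦X⟧) : Prop where
  dist : Wf.IsDistinguishedAt (maximalIdeal D)
  deg : Wf.natDegree = l + 1
  eqv : Wf.comp (Polynomial.C ξ * Polynomial.X) = Polynomial.C (ξ ^ (l + 1)) * Wf
  dvd : ∀ j, 0 < j → j < p ^ (n + 1) → X - (σD ^ j) X ∣ Polynomial.aeval x Wf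
  hG : sub sD GF = ∏ i ∈ range p, (((σD ^ p ^ n) ^ (i + 1)) X - ((σD ^ p ^ n) ^ i) X)
  unit : IsUnit υ
  hW : Polynomial.aeval x' Wf = υ * GF ^ p ^ n

/-- the normalised Artin-Schreier generator `Y / g(x)`, `g = (X Wf)^N`, of the family -/
structure NF (p n N : ℕ) (π : D →ₐ[k] k) (σD : En D) (x sD : D⟦X⟧) (G : k⟦X⟧) (Wf P₀ : D[X])
    (Y : D⟦X⟧) : Prop where
  rho : (σD ^ p ^ n) Y = Y + Polynomial.aeval x ((Polynomial.X * Wf) ^ N)
  art : Y ^ p - Polynomial.aeval x ((Polynomial.X * Wf) ^ N) ^ (p - 1) * Y =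
    Polynomial.aeval x Wf ^ (p * N) * sub sD (cst D G) + Polynomial.aeval x P₀
  deg : P₀.degree < (((p - 1) * ((Polynomial.X * Wf) ^ N).natDegree : ℕ) : WithBot ℕ)
  red : P₀.map (π : D →+* k) = 0

/-- the expansion of `P / g^p` at every point has reduced principal part given by `c` -/
def Pol (p : ℕ) (g P : k[X]) (c : k → ℕ → k) : Prop :=
  ∀ (xb : k⟦X⟧) (b : k) (d : ℕ), 0 < d → order (xb - C b) = d →
    ∃ (r : k[X]) (h u : LaurentSeries k), (∀ j, r.coeff j = c b j) ∧ vv k h ≤ 1 ∧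
      lc k (Polynomial.aeval xb P) / lc k (Polynomial.aeval xb g) ^ p =
        Polynomial.aeval (lc k (xb - C b))⁻¹ r + h + (u ^ p - u)

end Pool.Agent.MP_deef5c_ag.O
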