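import Pool.Agent.MP_deef5c_ag.O.DescA

/-! Base change and descent of families. -/

open PowerSeries IsLocalRing Finset Function
open scoped Polynomial

namespace Pool.Agent.MP_deef5c_ag.O

universe u

variable {k : Type u} [Field k] {p n m α : ℕ} [Fact p.Prime] [CharP k p] {ζ : k} {σ σ' : En k}
  {s : k⟦X⟧}

variable {D : Type u} [CommRing D] [IsLocalRing D] [CL D] [Algebra k D]

omit [IsLocalRing D] [CL D] in
theorem Desc_surj (π : D →ₐ[k] k) : Surjective (π : D →+* k) :=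
  fun y => ⟨algebraMap k D y, π.commutes y⟩

omit [IsLocalRing D] [CL D] in
theorem Desc_mm {D₀ : Type u} [CommRing D₀] [Algebra k D₀] {π₀ : D₀ →ₐ[k] k} (φ : D₀ →ₐ[k] D)
    (π : D →ₐ[k] k) (hπ : ∀ a, π (φ a) = π₀ a) (f : D₀⟦X⟧) :
    PowerSeries.map (π : D →+* k) (PowerSeries.map (φ : D₀ →+* D) f) =
      PowerSeries.map (π₀ : D₀ →+* k) f := by
  ext a
  simp only [coeff_map, RingHom.coe_coe, hπ]

theorem Desc_fix {ψ : En D} {x : D⟦X⟧} (hm : constantCoeff x ∈ maximalIdeal D) (h : ψ x = x) :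
    ψ * sub x = sub x :=
  (en_ext (by rw [AlgHom.mul_apply, sub_X hm, h]) (by rwa [sub_X hm])).symm

theorem Desc_tau (z : D) {f : D⟦X⟧} (hf : constantCoeff f ∈ maximalIdeal D) :
    constantCoeff (tau z f) ∈ maximalIdeal D :=
  en_mem _ (by simp [tau_X]) hf

theorem Desc_one (S : Sp p n m α ζ σ) : order (σ X) = (1 : ℕ) :=
  order_one (pow_pos (Fact.out : p.Prime).pos n) S.pow

omit [IsLocalRing D] [CL D] in
theorem Desc_pow (S : Sp p n m α ζ σ) {π : D →ₐ[k] k} {σD : En D}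
    (h : PowerSeries.map (π : D →+* k) (σD X) = σ X) (i : ℕ) (f : D⟦X⟧) :
    PowerSeries.map (π : D →+* k) ((σD ^ i) f) = (σ ^ i) (PowerSeries.map (π : D →+* k) f) :=
  map_en_pow _ σD σ h (by simp [Lau_cc one_pos (Desc_one S)]) i f

omit [IsLocalRing D] [CL D] in
theorem Desc_inj (S : Sp p n m α ζ σ) {π : D →ₐ[k] k} {σD : En D}
    (h : PowerSeries.map (π : D →+* k) (σD X) = σ X) :
    ∀ i < p ^ n, ∀ j < p ^ n, (σD ^ i) X = (σD ^ j) X → i = j := fun i hi j hj e => by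
  refine pow_X_inj (pow_pos (Fact.out : p.Prime).pos n) S.ord i hi j hj ?_
  have h1 := Desc_pow S h i X
  rwa [e, Desc_pow S h, map_X, eq_comm] at h1

/-- base change of a family, by `map_en` and `en_ext` -/
theorem Fam.map {D₀ : Type u} [CommRing D₀] [Algebra k D₀] (S : Sp p n m α ζ σ)
    {π₀ : D₀ →ₐ[k] k} {σD : En D₀} {x : D₀⟦X⟧} (F : Fam p n α ζ σ π₀ σD x) (φ : D₀ →ₐ[k] D)
    (π : D →ₐ[k] k) (hπ : ∀ a, π (φ a) = π₀ a) :
    Fam p n α ζ σ π (sub (PowerSeries.map (φ : D₀ →+* D) (σD X)))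
      (PowerSeries.map (φ : D₀ →+* D) x) := by
  have h1 := (Desc_mm φ π hπ (σD X)).trans F.red
  have hm := Qb_mem _ (Desc_surj π) _ 1 one_pos (h1 ▸ Desc_one S)
  have hX := sub_X hm
  have h2 := map_en_pow (φ : D₀ →+* D) σD _ hX.symm (by rwa [hX])
  have h3 := map_en (φ : D₀ →+* D) σD _ hX.symm (by rwa [hX])
  have hz : ∀ c, (φ : D₀ →+* D) (algebraMap k D₀ c) = algebraMap k D c := φ.commutes
  refine ⟨by rw [hX, h1], (Desc_mm φ π hπ x).trans F.redx, ⟨?_, ?_⟩, ?_, ?_⟩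
  · refine (en_ext ?_ (by simp)).symm
    have := h2 (p ^ n) X
    rwa [F.rel.1, AlgHom.one_apply, map_X] at this
  · refine en_ext ?_ (by rw [AlgHom.mul_apply, hX]; exact Desc_tau _ hm)
    have := h2 α (tau (algebraMap k D₀ ζ) X)
    rw [← AlgHom.mul_apply, ← F.rel.2, AlgHom.mul_apply, map_tau, map_tau, hz, map_X] at this
    rw [AlgHom.mul_apply, AlgHom.mul_apply, hX, this]
  · rw [← h3, F.inv]
  · rw [← hz, ← map_tau, F.eig, map_mul, map_C, hz]

theorem Triv.map {D₀ : Type u} [CommRing D₀] [Algebra k D₀] {π₀ : D₀ →ₐ[k] k} {g : k⟦X⟧}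
    {x : D₀⟦X⟧} (T : Triv π₀ g x) (φ : D₀ →ₐ[k] D) (π : D →ₐ[k] k) (hπ : ∀ a, π (φ a) = π₀ a) :
    Triv π g (PowerSeries.map (φ : D₀ →+* D) x) := by
  obtain ⟨Φ, h1, h2⟩ := T
  have h3 := (Desc_mm φ π hπ (Φ X)).trans h1
  have hm := Qb_mem _ (Desc_surj π) _ 1 one_pos (by rw [h3]; exact order_X)
  have hX := sub_X hm
  refine ⟨sub (PowerSeries.map (φ : D₀ →+* D) (Φ X)), by rw [hX, h3], ?_⟩
  rw [← h2, map_en (φ : D₀ →+* D) Φ _ hX.symm (by rwa [hX]) (cst D₀ g)]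
  refine congrArg (sub (PowerSeries.map (φ : D₀ →+* D) (Φ X))) (PowerSeries.ext fun a => ?_)
  simp only [coeff_map, RingHom.coe_coe, AlgHom.commutes]

/-- the invariants of a family: `qinv`, the `σD^i X` being distinct because their reductions are -/
theorem Fam.fix [IsDomain D] (S : Sp p n m α ζ σ) {π : D →ₐ[k] k} {σD : En D} {x : D⟦X⟧}
    (F : Fam p n α ζ σ π σD x) (f : D⟦X⟧) : σD f = f ↔ ∃ g, sub x g = f := by
  have hq := pow_pos (Fact.out : p.Prime).pos n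
  have ho := F.redx ▸ S.order_xb
  refine ⟨qinv _ (Desc_surj π) x _ hq ho σD F.inv (Desc_inj S F.red) f, ?_⟩
  rintro ⟨g, rfl⟩
  rw [← AlgHom.mul_apply, Desc_fix (Qb_mem _ (Desc_surj π) x _ hq ho) F.inv]

/-- the invariants of the subgroup of order `p` -/
theorem Fam.rho_fix [IsDomain D] (S : Sp p (n + 1) m α ζ σ) (h : Desc p n σ σ' s) {π : D →ₐ[k] k}
    {σD : En D} {x : D⟦X⟧} (F : Fam p (n + 1) α ζ σ π σD x) {sD : D⟦X⟧}
    (hs : PowerSeries.map (π : D →+* k) sD = s) (hi : (σD ^ p ^ n) sD = sD) (f : D⟦X⟧) :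
    (σD ^ p ^ n) f = f ↔ ∃ g, sub sD g = f := by
  have hp := (Fact.out : p.Prime).pos
  have ho := hs ▸ h.order_s S
  refine ⟨qinv _ (Desc_surj π) sD p hp ho _ hi (fun i h1 j h2 e => ?_) f, ?_⟩
  · rw [← pow_mul, ← pow_mul] at e
    exact Nat.eq_of_mul_eq_mul_left (pow_pos hp n) (Desc_inj S F.red _
      (by rw [pow_succ]; gcongr) _ (by rw [pow_succ]; gcongr) e)
  · rintro ⟨g, rfl⟩
    rw [← AlgHom.mul_apply, Desc_fix (Qb_mem _ (Desc_surj π) sD _ hp ho) hi]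

/-- as `exists_desc`, with `sD = nrm (σD^(p^n)) p X`, `Fam.rho_fix` and injectivity of `sub sD` -/
theorem Fam.desc [IsDomain D] (S : Sp p (n + 1) m α ζ σ) (h : Desc p n σ σ' s)
    (S' : Sp p n m α (ζ ^ p) σ') {π : D →ₐ[k] k} {σD : En D} {x : D⟦X⟧}
    (F : Fam p (n + 1) α ζ σ π σD x) :
    ∃ (σD' : En D) (x' sD : D⟦X⟧), Fam p n α (ζ ^ p) σ' π σD' x' ∧
      PowerSeries.map (π : D →+* k) sD = s ∧ (σD ^ p ^ n) sD = sD ∧ sub sD x' = x := by
  have hp := (Fact.out : p.Prime).pos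
  have hρ : (σD ^ p ^ n) ^ p = 1 := by rw [← pow_mul, ← pow_succ, F.rel.1]
  have hR : Rel p α (algebraMap k D ζ) (σD ^ p ^ n) := ⟨hρ, by
    have := rel_pow F.rel.2 (p ^ n) 1
    rwa [pow_one, pow_one, mul_comm α, pow_mul] at this⟩
  have ht := tau_nrm hR (by simpa using S.cop 1)
  have hi := nrm_inv hρ X
  have hs : PowerSeries.map (π : D →+* k) (nrm (σD ^ p ^ n) p X) = s := by
    rw [h.hs, nrm, nrm, map_prod]
    refine prod_congr rfl fun i _ => ?_
    rw [← pow_mul, ← pow_mul, Desc_pow S F.red, map_X]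
  generalize nrm (σD ^ p ^ n) p X = sD at ht hi hs
  have ho := hs ▸ h.order_s S
  have hm := Qb_mem _ (Desc_surj π) sD p hp ho
  have hms : constantCoeff s ∈ maximalIdeal k := by simp [Lau_cc hp (h.order_s S)]
  have inj := sub_injective _ (Desc_surj π) sD p hp ho
  have inj' := sub_injective (RingHom.id k) surjective_id s p hp (by simpa using h.order_s S)
  have hc : ∀ {a b : En D}, sub sD * a = sub sD * b → a = b := fun e =>
    AlgHom.ext fun f => inj (by rw [← AlgHom.mul_apply, e, AlgHom.mul_apply])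
  have hmap := map_en (π : D →+* k) (sub sD) (sub s) (by rw [sub_X hm, sub_X hms, hs])
    (by rwa [sub_X hms])
  obtain ⟨g, hg⟩ := (F.rho_fix S h hs hi (σD sD)).1 (by
    rw [← AlgHom.mul_apply, ← pow_succ, pow_succ', AlgHom.mul_apply, hi])
  obtain ⟨x', hx⟩ := (F.rho_fix S h hs hi x).1 (by
    rw [AlgHom.coe_pow]
    exact iterate_fixed F.inv _)
  have hred : PowerSeries.map (π : D →+* k) g = σ' X := inj' (by
    have := Desc_pow S F.red 1 sD
    rw [pow_one, pow_one, hs] at this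
    rw [← hmap, hg, this, ← AlgHom.mul_apply, h.comm, AlgHom.mul_apply, sub_X hms])
  have hmg := Qb_mem _ (Desc_surj π) g 1 one_pos (hred ▸ Desc_one S')
  have h1 : sub sD * sub g = σD * sub sD := en_ext
    (by rw [AlgHom.mul_apply, AlgHom.mul_apply, sub_X hmg, sub_X hm, hg])
    (by rw [AlgHom.mul_apply, sub_X hmg]; exact en_mem _ (by rwa [sub_X hm]) hmg)
  have h2 : ∀ i, sub sD * sub g ^ i = σD ^ i * sub sD := fun i => SemiconjBy.pow_right h1 i
  have h3 : tau (algebraMap k D ζ) * sub sD = sub sD * tau (algebraMap k D (ζ ^ p)) := en_ext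
    (by rw [AlgHom.mul_apply, AlgHom.mul_apply, tau_X, map_mul, Base_en_C, sub_X hm, ht,
      map_pow (algebraMap k D)])
    (by rw [AlgHom.mul_apply, sub_X hm]; exact Desc_tau _ hm)
  refine ⟨sub g, x', sD, ⟨by rw [sub_X hmg, hred], inj' ?_, ⟨hc ?_, hc ?_⟩, inj ?_, inj ?_⟩, hs,
    hi, hx⟩
  · rw [← hmap, hx, F.redx, h.hx]
  · rw [h2, Desc_fix hm hi, mul_one]
  · rw [← mul_assoc, ← h3, mul_assoc, h1, ← mul_assoc, F.rel.2, ← mul_assoc, h2, mul_assoc,
      mul_assoc, h3]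
  · rw [← AlgHom.mul_apply, h1, AlgHom.mul_apply, hx, F.inv]
  · rw [← AlgHom.mul_apply, ← h3, AlgHom.mul_apply, map_mul, Base_en_C, hx, F.eig, ← pow_mul,
      ← pow_succ']

end Pool.Agent.MP_deef5c_ag.O
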