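import Pool.Agent.MP_deef5c_ag.O.Sp0
import Pool.Agent.MP_deef5c_ag.O.Defs2

/-! Passing to the quotient by the subgroup of order p. -/

open PowerSeries IsLocalRing Finset Function
open scoped Polynomial

namespace Pool.Agent.MP_deef5c_ag.O

universe u

variable {k : Type u} [Field k] {p n m α : ℕ} [Fact p.Prime] [CharP k p] {ζ : k} {σ σ' : En k}
  {s : k⟦X⟧}

theorem DescA_prod {M : Type*} [CommMonoid M] (f : ℕ → M) (a b : ℕ) :
    ∏ t ∈ range (a * b), f t = ∏ i ∈ range a, ∏ j ∈ range b, f (i + a * j) := by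
  induction b with
  | zero => simp
  | succ b ih =>
    rw [Nat.mul_succ, prod_range_add, ih]
    simp only [prod_range_succ, prod_mul_distrib, add_comm (a * b)]

theorem DescA_mem {x : k⟦X⟧} {d : ℕ} (hd : 0 < d) (hx : order x = d) :
    constantCoeff x ∈ maximalIdeal k := by
  rw [Lau_cc hd hx]
  exact zero_mem _

theorem DescA_pos : 0 < p := (Fact.out : p.Prime).pos

theorem DescA_pow (S : Sp p (n + 1) m α ζ σ) : (σ ^ p ^ n) ^ p = 1 := by
  rw [← pow_mul, ← pow_succ, S.pow]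

theorem DescA_ord (S : Sp p (n + 1) m α ζ σ) : orderOf (σ ^ p ^ n) = p := by
  refine orderOf_eq_prime (DescA_pow S) fun h => ?_
  have h1 := orderOf_dvd_of_pow_eq_one h
  rw [S.ord, Nat.pow_dvd_pow_iff_le_right (Fact.out : p.Prime).one_lt] at h1
  omega

theorem DescA_order (S : Sp p (n + 1) m α ζ σ) (hs : s = nrm (σ ^ p ^ n) p X) : order s = p := by
  rw [hs, order_nrm DescA_pos (DescA_pow S), order_X, mul_one]

theorem DescA_subX (S : Sp p (n + 1) m α ζ σ) (hs : s = nrm (σ ^ p ^ n) p X) : sub s X = s :=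
  sub_X (DescA_mem DescA_pos (DescA_order S hs))

theorem DescA_inj (S : Sp p (n + 1) m α ζ σ) (hs : s = nrm (σ ^ p ^ n) p X) :
    Injective (sub s) :=
  Lau_inj DescA_pos ((congrArg order (DescA_subX S hs)).trans (DescA_order S hs))

theorem DescA_cancel (S : Sp p (n + 1) m α ζ σ) (hs : s = nrm (σ ^ p ^ n) p X) {φ ψ : En k}
    (h : sub s * φ = sub s * ψ) : φ = ψ :=
  AlgHom.ext fun f => DescA_inj S hs (AlgHom.congr_fun h f)

theorem DescA_ext (S : Sp p (n + 1) m α ζ σ) (hs : s = nrm (σ ^ p ^ n) p X) :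
    σ ^ p ^ n * sub s = sub s := by
  refine (en_ext ?_ ?_).symm
  · rw [AlgHom.mul_apply, DescA_subX S hs, hs, nrm_inv (DescA_pow S)]
  · rw [DescA_subX S hs]
    exact DescA_mem DescA_pos (DescA_order S hs)

theorem DescA_tau (S : Sp p (n + 1) m α ζ σ) (hs : s = nrm (σ ^ p ^ n) p X) :
    tau ζ * sub s = sub s * tau (ζ ^ p) := by
  have h1 : Rel p α ζ (σ ^ p ^ n) := ⟨DescA_pow S, by
    have := rel_pow S.rel (p ^ n) 1
    rwa [pow_one, pow_one, mul_comm α, pow_mul] at this⟩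
  have h2 := tau_nrm h1 (by simpa using S.cop 1)
  rw [← hs] at h2
  refine en_ext ?_ ?_
  · rw [AlgHom.mul_apply, AlgHom.mul_apply, DescA_subX S hs, h2, tau_X, map_mul, Base_en_C,
      DescA_subX S hs]
  · rw [AlgHom.mul_apply, DescA_subX S hs, h2, map_mul]
    exact Ideal.mul_mem_left _ _ (DescA_mem DescA_pos (DescA_order S hs))

theorem DescA_fix (S : Sp p (n + 1) m α ζ σ) (hs : s = nrm (σ ^ p ^ n) p X) {f : k⟦X⟧}
    (hf : (σ ^ p ^ n) f = f) : ∃ g, sub s g = f :=
  qinv (RingHom.id k) surjective_id s p DescA_pos (by simpa using DescA_order S hs) _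
    (by rw [hs, nrm_inv (DescA_pow S)]) (pow_X_inj DescA_pos (DescA_ord S)) f hf

theorem DescA_root (S : Sp p (n + 1) m α ζ σ) (hs : s = nrm (σ ^ p ^ n) p X) {ψ : En k}
    (h : ψ * sub s = sub s) : ∃ j, ψ X = ((σ ^ p ^ n) ^ j) X := by
  classical
  obtain ⟨g, hg⟩ := qspan (RingHom.id k) surjective_id s p DescA_pos
    (by simpa using DescA_order S hs) (X ^ p)
  set Q : (k⟦X⟧)[X] := ∑ i ∈ range p, Polynomial.C (sub s (g i)) * Polynomial.X ^ i with hQ
  have hd : Q.degree < p := by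
    refine (Polynomial.degree_sum_le _ _).trans_lt ((Finset.sup_lt_iff (WithBot.bot_lt_coe _)).2
      fun i hi => (Polynomial.degree_C_mul_X_pow_le _ _).trans_lt ?_)
    exact_mod_cast mem_range.1 hi
  have hm : (Polynomial.X ^ p - Q).Monic := Polynomial.monic_X_pow_sub hd
  have hn : (Polynomial.X ^ p - Q).natDegree = p := by
    refine Polynomial.natDegree_eq_of_degree_eq_some ?_
    rw [Polynomial.degree_sub_eq_left_of_degree_lt (by rwa [Polynomial.degree_X_pow]),
      Polynomial.degree_X_pow]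
  have hr : ∀ φ : En k, φ * sub s = sub s → φ X ∈ (Polynomial.X ^ p - Q).roots := by
    intro φ hφ
    rw [Polynomial.mem_roots hm.ne_zero, Polynomial.IsRoot.def, Polynomial.eval_sub,
      Polynomial.eval_pow, Polynomial.eval_X, sub_eq_zero, ← map_pow, hg, map_sum, hQ,
      Polynomial.eval_finsetSum]
    refine sum_congr rfl fun i _ => ?_
    rw [map_mul, map_pow, ← AlgHom.mul_apply, hφ]
    simp
  have hj : ∀ j, (σ ^ p ^ n) ^ j * sub s = sub s := by
    intro j
    induction j with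
    | zero => rw [pow_zero, one_mul]
    | succ j ih => rw [pow_succ, mul_assoc, DescA_ext S hs, ih]
  by_contra hc
  push Not at hc
  have h1 := Polynomial.card_le_degree_of_subset_roots (p := Polynomial.X ^ p - Q)
    (Z := insert (ψ X) ((range p).image fun j => ((σ ^ p ^ n) ^ j) X)) fun z hz => by
      rcases mem_insert.1 (mem_def.2 hz) with rfl | hz
      · exact hr ψ h
      · obtain ⟨j, -, rfl⟩ := mem_image.1 hz
        exact hr _ (hj j)
  rw [hn, card_insert_of_notMem, card_image_of_injOn, card_range] at h1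
  · omega
  · intro i hi j hj
    exact pow_X_inj DescA_pos (DescA_ord S) i (mem_range.1 hi) j (mem_range.1 hj)
  · intro hz
    obtain ⟨j, -, e⟩ := mem_image.1 hz
    exact hc j e.symm

/-- `ρ = σ^(p^n)` has order `p`; `σ s` is `ρ`-invariant, so `σ s = sub s g` (`qinv` with `π = id`); put
`σ' = sub g`.  If `σ'^i = 1` then `σ^i` fixes the coefficients of `∏_j (T - ρ^j X)`, so `σ^i X = ρ^j X`
for some `j` and `p^n ∣ i`. -/
theorem exists_desc (S : Sp p (n + 1) m α ζ σ) :
    ∃ σ' s, Desc p n σ σ' s ∧ Sp p n m α (ζ ^ p) σ' := by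
  obtain ⟨s, hs⟩ : ∃ s, s = nrm (σ ^ p ^ n) p X := ⟨_, rfl⟩
  have hq : 0 < p ^ (n + 1) := pow_pos DescA_pos _
  have ho := DescA_order S hs
  obtain ⟨g, hg⟩ := DescA_fix S hs (f := σ s) (by
    rw [← AlgHom.mul_apply, ← pow_succ, pow_succ', AlgHom.mul_apply, hs, nrm_inv (DescA_pow S)])
  have h1 : order (σ s) = p := by
    rw [order_en σ 1 one_pos (order_one hq S.pow), ho, Nat.cast_one, one_mul]
  have h2 : constantCoeff g ∈ maximalIdeal k := by
    have h3 := order_en (sub s) p DescA_pos (by rw [DescA_subX S hs, ho]) g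
    rw [hg, h1] at h3
    have h4 : order g ≠ 0 := fun h4 => by
      rw [h4, mul_zero] at h3
      exact DescA_pos.ne' (by exact_mod_cast h3)
    rw [order_ne_zero_iff_constCoeff_eq_zero.1 h4]
    exact zero_mem _
  have hc : sub s * sub g = σ * sub s := by
    refine en_ext ?_ ?_
    · rw [AlgHom.mul_apply, AlgHom.mul_apply, sub_X h2, hg, DescA_subX S hs]
    · rw [AlgHom.mul_apply, sub_X h2, hg]
      exact DescA_mem DescA_pos h1
  have hi : ∀ i, sub s * sub g ^ i = σ ^ i * sub s := fun i => SemiconjBy.pow_right hc i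
  refine ⟨sub g, s, ⟨hs, hc, ?_⟩, Nat.dvd_antisymm ?_ ?_, S.mpos, ?_, ?_, ?_⟩
  · rw [xb, xb, nrm, nrm, map_prod, pow_succ, DescA_prod]
    refine prod_congr rfl fun i _ => ?_
    rw [← AlgHom.mul_apply, hi, AlgHom.mul_apply, DescA_subX S hs, hs, nrm, map_prod]
    refine prod_congr rfl fun j _ => ?_
    rw [← AlgHom.mul_apply, ← pow_mul, ← pow_add]
  · refine orderOf_dvd_of_pow_eq_one (DescA_cancel S hs ?_)
    rw [hi, DescA_ext S hs, mul_one]
  · have h3 := hi (orderOf (sub g))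
    rw [pow_orderOf_eq_one, mul_one] at h3
    obtain ⟨j, hj⟩ := DescA_root S hs h3.symm
    have h4 : (σ ^ orderOf (sub g)) ^ p ^ (n + 1) = 1 := by
      rw [← pow_mul, mul_comm, pow_mul, S.pow, one_pow]
    have h5 := en_ext hj (DescA_mem one_pos (order_one hq h4))
    have h6 : IsOfFinOrder σ := isOfFinOrder_iff_pow_eq_one.2 ⟨_, hq, S.pow⟩
    rw [← pow_mul, h6.pow_eq_pow_iff_modEq, S.ord] at h5
    exact ((h5.of_dvd (pow_dvd_pow p n.le_succ)).dvd_iff dvd_rfl).2 (dvd_mul_right _ _)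
  · simpa using S.prim_pow 1
  · refine DescA_cancel S hs ?_
    rw [← mul_assoc, ← DescA_tau S hs, mul_assoc, hc, ← mul_assoc, S.rel, ← mul_assoc, hi,
      mul_assoc, mul_assoc, DescA_tau S hs]
  · rw [← pow_mul, ← pow_succ']
    exact S.hyp

theorem Desc.order_s (S : Sp p (n + 1) m α ζ σ) (h : Desc p n σ σ' s) : order s = p := by
  exact DescA_order S h.hs

theorem Desc.tau_s (S : Sp p (n + 1) m α ζ σ) (h : Desc p n σ σ' s) :
    tau ζ * sub s = sub s * tau (ζ ^ p) := by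
  exact DescA_tau S h.hs

theorem Desc.fix (S : Sp p (n + 1) m α ζ σ) (h : Desc p n σ σ' s) (f : k⟦X⟧) :
    (σ ^ p ^ n) f = f ↔ ∃ g, sub s g = f := by
  refine ⟨DescA_fix S h.hs, ?_⟩
  rintro ⟨g, rfl⟩
  rw [← AlgHom.mul_apply, DescA_ext S h.hs]

theorem Desc.lfix (S : Sp p (n + 1) m α ζ σ) (h : Desc p n σ σ' s) (z : LaurentSeries k) :
    lext (σ ^ p ^ n) z = z ↔ ∃ y, lext (sub s) y = z := by
  have hi : Injective (σ ^ p ^ n : En k) := en_inj DescA_pos (DescA_pow S)
  refine ⟨linv s p DescA_pos (DescA_order S h.hs) _ hi (by rw [h.hs, nrm_inv (DescA_pow S)])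
    (pow_X_inj DescA_pos (DescA_ord S)) z, ?_⟩
  rintro ⟨y, rfl⟩
  rw [← lext_mul hi (DescA_inj S h.hs), DescA_ext S h.hs]

end Pool.Agent.MP_deef5c_ag.O
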