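import Pool.Agent.MP_deef5c_ag.O.Quot

/-! Cutting a local domain along elements of small transcendence degree. -/

open PowerSeries IsLocalRing Finset Function
open scoped Polynomial

namespace Pool.Agent.MP_deef5c_ag.O

universe u

theorem Dim_le_card {k Ω : Type u} [Field k] [CommRing Ω] [Algebra k Ω] {s : ℕ}
    (f : MvPolynomial (Fin s) k →ₐ[k] Ω) (hf : Injective f) (P : Finset Ω)
    (h : ∀ x, f x ∈ Algebra.adjoin k (P : Set Ω)) : s ≤ P.card := by
  have h1 := lift_trdeg_le_of_injective (f.codRestrict _ h)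
    (fun x y hxy => hf (congrArg Subtype.val hxy))
  have hr : ∀ x, MvPolynomial.aeval (R := k) (fun a : P => (a : Ω)) x ∈
      Algebra.adjoin k (P : Set Ω) := fun x => by
    have := Algebra.adjoin_range_eq_range_aeval k (fun a : P => (a : Ω))
    rw [Subtype.range_coe_subtype] at this
    exact this.ge ⟨x, rfl⟩
  have h2 := lift_trdeg_le_of_surjective
    ((MvPolynomial.aeval (R := k) (fun a : P => (a : Ω))).codRestrict _ hr) (by
      rintro ⟨y, hy⟩
      have := Algebra.adjoin_range_eq_range_aeval k (fun a : P => (a : Ω))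
      rw [Subtype.range_coe_subtype] at this
      obtain ⟨x, hx⟩ := this.le hy
      exact ⟨x, Subtype.ext hx⟩)
  simp only [MvPolynomial.trdeg_of_isDomain, Cardinal.mk_fintype, Fintype.card_fin,
    Fintype.card_coe, Cardinal.lift_natCast, Cardinal.lift_id] at h1 h2
  exact_mod_cast h1.trans h2

/-- Noether normalisation (`exists_finite_inj_algHom_of_fg`) of `adjoin k T ⊆ D` gives algebraically
independent `z_1 .. z_e` over which `T` is integral; `e ≤ P.card` because `adjoin k T` embeds in
`adjoin k P` (transcendence degree).  Replace `z_i` by `z_i - π z_i ∈ m`, take `Q` from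
`exists_prime_dim` over the ideal they generate and use
`ringKrullDim_le_ringKrullDim_quotient_add_card`.  Modulo `Q` an `a ∈ T` is a root of a monic
`X^e g` over `k` with `g 0 ≠ 0`, and `g a` is a unit, so `a ∈ Q`. -/
theorem dim_cut {k D Ω : Type u} [Field k] [CommRing D] [IsDomain D] [IsLocalRing D]
    [IsNoetherianRing D] [Algebra k D] (π : D →ₐ[k] k) [Field Ω] [Algebra k Ω] (ι : D →ₐ[k] Ω)
    (hι : Injective ι) (P : Finset Ω) (T : Set D) (hT : T.Finite) (hTm : ∀ a ∈ T, π a = 0)
    (hTP : ∀ a ∈ T, ι a ∈ Algebra.adjoin k (P : Set Ω)) :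
    ∃ Q : Ideal D, Q.IsPrime ∧ T ⊆ Q ∧ ringKrullDim D ≤ ringKrullDim (D ⧸ Q) + (P.card : ℕ) := by
  classical
  have : Algebra.FiniteType k (Algebra.adjoin k T) := Algebra.FiniteType.adjoin_of_finite hT
  obtain ⟨s, g, hg, hint⟩ := exists_integral_inj_algHom_of_fg k (Algebra.adjoin k T)
  let G : MvPolynomial (Fin s) k →ₐ[k] D := (Algebra.adjoin k T).val.comp g
  have hs : s ≤ P.card := by
    refine Dim_le_card (ι.comp G) (hι.comp (Subtype.val_injective.comp hg)) P fun x => ?_
    have : Algebra.adjoin k T ≤ (Algebra.adjoin k (P : Set Ω)).comap ι := Algebra.adjoin_le hTP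
    exact this (g x).2
  let c : Fin s → k := fun i => π (G (MvPolynomial.X i))
  let z : Fin s → D := fun i => G (MvPolynomial.X i) - algebraMap k D (c i)
  have hz : ((univ.image z : Finset D) : Set D) ⊆ maximalIdeal D := by
    intro a ha
    obtain ⟨i, -, rfl⟩ := mem_image.1 (mem_coe.1 ha)
    intro hu
    have := (hu.map π).ne_zero
    simp [z, c] at this
  have hJ : Ideal.span ((univ.image z : Finset D) : Set D) ≠ ⊤ :=
    ne_top_of_le_ne_top (maximalIdeal.isMaximal D).ne_top (Ideal.span_le.2 hz)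
  obtain ⟨Q, hQ, hJQ, hd⟩ := exists_prime_dim _ hJ
  refine ⟨Q, hQ, fun a ha => ?_, ?_⟩
  · obtain ⟨π', hπ'⟩ := exists_piAlg_quot π Q hQ.ne_top
    have hG : (Ideal.Quotient.mkₐ k Q).comp G =
        (Algebra.ofId k (D ⧸ Q)).comp (MvPolynomial.aeval c) := by
      ext i
      have : z i ∈ Q := hJQ (Ideal.subset_span (mem_coe.2 (mem_image_of_mem _ (mem_univ i))))
      simpa using Ideal.Quotient.eq.2 this
    obtain ⟨p, hp, hpa⟩ := hint ⟨a, Algebra.subset_adjoin ha⟩
    have hi : IsIntegral k (Ideal.Quotient.mk Q a) := by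
      refine ⟨p.map (MvPolynomial.aeval c : MvPolynomial (Fin s) k →ₐ[k] k), hp.map _, ?_⟩
      have h1 := congrArg ((Ideal.Quotient.mk Q).comp (Algebra.adjoin k T).val.toRingHom) hpa
      rw [Polynomial.hom_eval₂, map_zero] at h1
      rw [Polynomial.eval₂_map, ← h1]
      congr 1
      exact congrArg AlgHom.toRingHom hG.symm
    by_contra hna
    have := ((hi.isUnit fun h => hna (Ideal.Quotient.eq_zero_iff_mem.1 h)).map π').ne_zero
    exact this ((hπ' a).trans (hTm a ha))
  · refine (ringKrullDim_le_ringKrullDim_quotient_add_card (univ.image z)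
      (by rwa [ringJacobson_eq_maximalIdeal])).trans (add_le_add hd ?_)
    have : (univ.image z).card ≤ P.card := card_image_le.trans (by simpa using hs)
    exact_mod_cast this

end Pool.Agent.MP_deef5c_ag.O
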