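import Pool.Agent.MP_deef5c_ag.O.Calc
import Pool.Agent.MP_deef5c_ag.O.Desc

/-! The first order family is effective. -/

open PowerSeries IsLocalRing Finset Function
open scoped Polynomial

namespace Pool.Agent.MP_deef5c_ag.O

universe u

namespace TanE

variable {k : Type u} [Field k] {A : Type u} [CommRing A] [Algebra k A]

/-- coefficientwise action of a linear form -/
noncomputable def lam (l : A →ₗ[k] k) : A⟦X⟧ →+ k⟦X⟧ where
  toFun f := PowerSeries.mk fun a => l (coeff a f)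
  map_zero' := by ext a; simp
  map_add' f g := by ext a; simp

theorem coeff_lam (l : A →ₗ[k] k) (f : A⟦X⟧) (a : ℕ) : coeff a (lam l f) = l (coeff a f) :=
  coeff_mk a fun a => l (coeff a f)

theorem lam_C (l : A →ₗ[k] k) (c : A) : lam l (C c) = C (l c) := by
  ext a
  rw [coeff_lam, coeff_C, coeff_C]
  split_ifs <;> simp

theorem pi_surj (π : A →ₐ[k] k) : Surjective (π : A →+* k) := fun c =>
  ⟨algebraMap k A c, π.commutes c⟩

theorem map_cst (π : A →ₐ[k] k) (g : k⟦X⟧) : PowerSeries.map (π : A →+* k) (cst A g) = g := by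
  ext a
  rw [coeff_map, coeff_map]
  exact π.commutes _

variable [IsLocalRing A]

theorem cin_C {c : A} (hc : c ∈ maximalIdeal A) : CIn (maximalIdeal A) (C c) := fun a => by
  rw [coeff_C]
  split_ifs
  exacts [hc, zero_mem _]

theorem l_mul (l : A →ₗ[k] k) (π : A →ₐ[k] k) (h2 : maximalIdeal A * maximalIdeal A = ⊥)
    {c : A} (hc : c ∈ maximalIdeal A) (d : A) : l (c * d) = l c * π d := by
  have h1 : d - algebraMap k A (π d) ∈ maximalIdeal A := by
    rw [← pi_eq_zero_iff (π : A →+* k) (pi_surj π), map_sub, sub_eq_zero]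
    exact (π.commutes _).symm
  have h3 : c * (d - algebraMap k A (π d)) = 0 := by
    rw [← Ideal.mem_bot, ← h2]
    exact Ideal.mul_mem_mul hc h1
  have h4 : c * d = π d • c := by
    rw [mul_sub, sub_eq_zero] at h3
    rw [h3, Algebra.smul_def, mul_comm]
  rw [h4, map_smul, smul_eq_mul, mul_comm]

theorem lam_mul (l : A →ₗ[k] k) (π : A →ₐ[k] k) (h2 : maximalIdeal A * maximalIdeal A = ⊥)
    {f : A⟦X⟧} (hf : CIn (maximalIdeal A) f) (g : A⟦X⟧) :
    lam l (f * g) = lam l f * PowerSeries.map (π : A →+* k) g := by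
  ext a
  rw [coeff_lam, coeff_mul, coeff_mul, map_sum]
  refine sum_congr rfl fun x _ => ?_
  rw [l_mul l π h2 (hf _), coeff_lam, coeff_map]
  rfl

theorem lam_C_mul (l : A →ₗ[k] k) (π : A →ₐ[k] k) (h2 : maximalIdeal A * maximalIdeal A = ⊥)
    {c : A} (hc : c ∈ maximalIdeal A) (g : A⟦X⟧) :
    lam l (C c * g) = C (l c) * PowerSeries.map (π : A →+* k) g := by
  rw [lam_mul l π h2 (cin_C hc), lam_C]

theorem lam_en [CL A] (l : A →ₗ[k] k) (π : A →ₐ[k] k)
    (h2 : maximalIdeal A * maximalIdeal A = ⊥) (ψ : En A) (σ : En k)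
    (h : PowerSeries.map (π : A →+* k) (ψ X) = σ X) (h0 : constantCoeff (σ X) ∈ maximalIdeal k)
    {f : A⟦X⟧} (hf : CIn (maximalIdeal A) f) : lam l (ψ f) = σ (lam l f) := by
  obtain ⟨n, s, hs⟩ := Submodule.fg_iff_exists_fin_generating_family.1
    (IsNoetherian.noetherian (maximalIdeal A))
  have h1 : ∀ a, ∃ c : Fin n → A, ∑ i, c i • s i = coeff a f := fun a =>
    (Submodule.mem_span_range_iff_exists_fun A).1 (hs ▸ hf a)
  choose c hc using h1
  have h3 : f = ∑ i, C (s i) * PowerSeries.mk fun a => c a i := by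
    ext a
    rw [map_sum, ← hc a]
    exact sum_congr rfl fun i _ => by rw [coeff_C_mul, coeff_mk, smul_eq_mul, mul_comm]
  have hm : ∀ i, s i ∈ maximalIdeal A := fun i => hs ▸ Submodule.subset_span ⟨i, rfl⟩
  rw [h3, map_sum, map_sum, map_sum, map_sum]
  refine sum_congr rfl fun i _ => ?_
  rw [map_mul, Base_en_C, lam_C_mul l π h2 (hm i), lam_C_mul l π h2 (hm i), map_mul, Base_en_C,
    map_en (π : A →+* k) ψ σ h h0]

theorem poly_zero {x : k⟦X⟧} (h0 : constantCoeff x = 0) (hx : x ≠ 0) (N : ℕ) :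
    ∀ P : k[X], P.degree < N → x ^ N ∣ Polynomial.aeval x P → P = 0 := by
  induction N with
  | zero =>
    intro P hP _
    by_contra h
    exact absurd (Polynomial.zero_le_degree_iff.2 h) (not_le.2 hP)
  | succ N ih =>
    intro P hP hd
    have e : Polynomial.aeval x P = Polynomial.aeval x P.divX * x + C (P.coeff 0) := by
      conv_lhs => rw [← Polynomial.divX_mul_X_add P]
      rw [map_add, map_mul, Polynomial.aeval_X, Polynomial.aeval_C]
      rfl
    have h1 : P.coeff 0 = 0 := by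
      obtain ⟨g, hg⟩ := hd
      have := congrArg constantCoeff (e.symm.trans hg)
      simpa [h0] using this
    have h3 : x ^ N ∣ Polynomial.aeval x P.divX := by
      rw [e, h1, map_zero, add_zero, pow_succ] at hd
      exact (mul_dvd_mul_iff_right hx).1 hd
    have h4 : P.divX.degree < N := by
      rw [Polynomial.degree_lt_iff_coeff_zero] at hP ⊢
      intro j hj
      rw [Polynomial.coeff_divX]
      exact hP _ (by omega)
    rw [← Polynomial.divX_mul_X_add P, ih _ h4 h3, h1]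
    simp

theorem indep {x : k⟦X⟧} (h0 : constantCoeff x = 0) (hx : x ≠ 0) {N i : ℕ} (T : Finset (ℕ × ℕ))
    (c : ℕ × ℕ → k) (hT : ∀ t ∈ T, t.1 = i → t.2 < N)
    (h : x ^ N ∣ ∑ t ∈ T.filter (fun t => t.1 = i), C (c t) * x ^ t.2) :
    ∀ t ∈ T, t.1 = i → c t = 0 := by
  have h1 := poly_zero h0 hx N (∑ t ∈ T.filter (fun t => t.1 = i), Polynomial.monomial t.2 (c t))
    (by
      rw [Polynomial.degree_lt_iff_coeff_zero]
      intro j hj
      rw [Polynomial.finsetSum_coeff]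
      refine sum_eq_zero fun t ht => ?_
      have := hT t (mem_filter.1 ht).1 (mem_filter.1 ht).2
      rw [Polynomial.coeff_monomial, if_neg (by omega)])
    (by
      rw [map_sum]
      simp only [Polynomial.aeval_monomial]
      exact h)
  intro t ht hi
  have h2 := congrArg (fun P : k[X] => P.coeff t.2) h1
  simp only [Polynomial.finsetSum_coeff, Polynomial.coeff_monomial, Polynomial.coeff_zero] at h2
  rw [sum_eq_single t, if_pos rfl] at h2
  · exact h2
  · intro t' ht' hne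
    exact if_neg fun h3 => hne (Prod.ext ((mem_filter.1 ht').2.trans hi.symm) h3)
  · intro h3
    exact absurd (mem_filter.2 ⟨ht, hi⟩) h3

theorem dl_apply (σ : En k) (f : k⟦X⟧) : dl σ f = σ f - f := rfl

theorem lin_C (L : Module.End k k⟦X⟧) (c : k) (f : k⟦X⟧) : L (C c * f) = C c * L f := by
  rw [← smul_eq_C_mul, ← smul_eq_C_mul, map_smul]

end TanE

variable {k : Type u} [Field k] {p n m α : ℕ} [Fact p.Prime] [CharP k p] {ζ : k} {σ : En k}

variable {A : Type u} [CommRing A] [IsLocalRing A] [CL A] [Algebra k A]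

/-- `Φ X = X + θ` with `θ` in `m⟦X⟧`, `Φ f = f + θ * d f` (`sub_add` with `s = X`).  Fix a `k`-linear
`λ : A → k` and let `λ_*` act coefficientwise; `λ_* (f * g) = λ_* f * map π g` and
`λ_* (sub s f) = σ (λ_* f)` for `f` in `m⟦X⟧`.  With `b = λ_* θ * d x ∈ M`, `hΦ` at `X` gives
`∑ λ (a t) * (e t * σ (d x)) = - dl σ b`.  If some `λ (a t) ≠ 0` with `t.1 ≠ 0`, take `i = t.1` maximal:
`dl^(i+1) b = 0`, so `x^(c (i+1))` divides `dl^i b = - ∑_j λ (a (i, j)) x^j` with all `j < c (i+1)`,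
absurd.  Hence all these `a t` vanish, `sfam = cst (σ X)`, `dl b = 0`, `x^(c 1) ∣ b`, and `hx` gives
`b = ∑_j λ (a (0, j)) x^j` with `j < c 1`. -/
theorem tan_eff (S : Sp p n m α ζ σ) {c : ℕ → ℕ} (hc : SL p n σ c) (π : A →ₐ[k] k)
    (h2 : maximalIdeal A * maximalIdeal A = ⊥) (T : Finset (ℕ × ℕ)) (e : ℕ × ℕ → k⟦X⟧)
    (a : ℕ × ℕ → A) (ha : ∀ t ∈ T, π (a t) = 0)
    (hT : ∀ t ∈ T, t.1 < p ^ n ∧ t.2 < c (t.1 + 1))
    (he : ∀ t ∈ T, t.1 ≠ 0 → TV p n α ζ σ (t.1 - 1) t.2 (e t)) (Φ : En A)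
    (h1 : PowerSeries.map (π : A →+* k) (Φ X) = X)
    (hΦ : Φ * sub (cst A (σ X)) = sub (sfam σ T e a) * Φ)
    (hx : Φ (cst A (xb p n σ)) = xfam (p ^ n) T a (sfam σ T e a)) : ∀ t ∈ T, a t = 0 := by
  have hπ := TanE.pi_surj π
  have hq : 0 < p ^ n := pow_pos (Fact.out : p.Prime).pos n
  have h0 : constantCoeff (σ X) = 0 := Lau_cc one_pos (order_one hq S.pow)
  have h0' : constantCoeff (σ X) ∈ maximalIdeal k := by rw [h0]; exact zero_mem _
  have hx0 : constantCoeff (xb p n σ) = 0 := Lau_cc hq S.order_xb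
  have hx1 : xb p n σ ≠ 0 := fun h => by
    have := S.order_xb
    rw [h, order_zero] at this
    exact ENat.top_ne_natCast _ this
  have hσx : σ (xb p n σ) = xb p n σ := nrm_inv S.pow X
  have ham : ∀ t ∈ T, a t ∈ maximalIdeal A := fun t ht =>
    (pi_eq_zero_iff (π : A →+* k) hπ _).1 (ha t ht)
  have hmem : ∀ f : A⟦X⟧, constantCoeff (PowerSeries.map (π : A →+* k) f) = 0 →
      constantCoeff f ∈ maximalIdeal A := fun f hf => by
    rw [← pi_eq_zero_iff (π : A →+* k) hπ, ← hf, ← coeff_zero_eq_constantCoeff_apply,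
      ← coeff_zero_eq_constantCoeff_apply, coeff_map]
  obtain ⟨θ, hθ⟩ : ∃ θ, Φ X = X + θ := ⟨Φ X - X, by ring⟩
  have hθm : CIn (maximalIdeal A) θ := fun j => by
    rw [hθ, map_add, map_X, add_eq_left] at h1
    rw [← pi_eq_zero_iff (π : A →+* k) hπ, ← coeff_map, h1, map_zero]
  have hθ2 : θ * θ = 0 := by
    ext j
    have := cin_mul hθm hθm j
    rwa [h2, Ideal.mem_bot] at this
  have hXm : constantCoeff (X : A⟦X⟧) ∈ maximalIdeal A := by
    rw [constantCoeff_X]; exact zero_mem _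
  have hsubX : sub (X : A⟦X⟧) = 1 := (eq_sub (1 : En A) hXm).symm
  have hΦf : ∀ f, Φ f = f + θ * d⁄dX A f := fun f => by
    have hm : constantCoeff (Φ X) ∈ maximalIdeal A := hmem _ (by rw [h1, constantCoeff_X])
    rw [eq_sub Φ hm, hθ, sub_add X θ hXm hθ2, hsubX]
    rfl
  have hs0 : sub (cst A (σ X)) X = cst A (σ X) :=
    sub_X (hmem _ (by rw [TanE.map_cst, h0]))
  have hsred : PowerSeries.map (π : A →+* k) (sfam σ T e a) = σ X := by
    rw [sfam, map_add, TanE.map_cst, map_sum, sum_eq_zero, add_zero]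
    intro t ht
    rw [map_mul, map_C]
    change C (π (a t)) * _ = 0
    rw [ha t (mem_filter.1 ht).1, map_zero, zero_mul]
  have hs : sub (sfam σ T e a) X = sfam σ T e a := sub_X (hmem _ (by rw [hsred, h0]))
  have hchain : σ (d⁄dX k (xb p n σ)) * d⁄dX k (σ X) = d⁄dX k (xb p n σ) := by
    rw [← der_en σ h0', hσx]
  have key : ∀ l : A →ₗ[k] k, dl σ (TanE.lam l θ * d⁄dX k (xb p n σ)) =
      -∑ t ∈ T.filter (fun t => t.1 ≠ 0), C (l (a t)) * (e t * σ (d⁄dX k (xb p n σ))) := by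
    intro l
    have e1 : Φ (sub (cst A (σ X)) X) = sub (sfam σ T e a) (Φ X) := congrArg (fun φ => φ X) hΦ
    rw [hs0, hΦf, hθ, map_add, hs] at e1
    have e2 : θ * d⁄dX A (cst A (σ X)) = ∑ t ∈ T.filter (fun t => t.1 ≠ 0),
        C (a t) * cst A (e t) + sub (sfam σ T e a) θ := by
      apply add_left_cancel (a := cst A (σ X))
      rw [e1, ← add_assoc]
      rfl
    have e3 := congrArg (TanE.lam l) e2
    rw [TanE.lam_mul l π h2 hθm, map_der, TanE.map_cst, map_add, map_sum,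
      TanE.lam_en l π h2 _ σ (hs.symm ▸ hsred) h0' hθm,
      sum_congr rfl fun t ht => TanE.lam_C_mul l π h2 (ham t (mem_filter.1 ht).1) _] at e3
    simp only [TanE.map_cst] at e3
    simp only [← mul_assoc, ← sum_mul]
    rw [TanE.dl_apply, map_mul]
    linear_combination (-σ (d⁄dX k (xb p n σ))) * e3 + TanE.lam l θ * hchain
  have hfix : ∀ (c : k) (j : ℕ), dl σ (C c * xb p n σ ^ j) = 0 := fun c j => by
    rw [TanE.dl_apply, map_mul, map_pow, hσx, Base_en_C, sub_self]
  have step1 : ∀ (l : A →ₗ[k] k), ∀ t ∈ T, t.1 ≠ 0 → l (a t) = 0 := by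
    intro l
    classical
    by_contra hne
    push Not at hne
    obtain ⟨t₁, ht₁, ht₁', hl₁⟩ := hne
    obtain ⟨t₀, ht₀, hmax⟩ := exists_max_image (T.filter fun t => t.1 ≠ 0 ∧ l (a t) ≠ 0)
      (fun t => t.1) ⟨t₁, mem_filter.2 ⟨ht₁, ht₁', hl₁⟩⟩
    obtain ⟨ht₀, hi0, hl₀⟩ := mem_filter.1 ht₀
    obtain ⟨i, hi⟩ : ∃ i, t₀.1 = i + 1 := Nat.exists_eq_succ_of_ne_zero hi0
    have e4 : (dl σ ^ (i + 1)) (TanE.lam l θ * d⁄dX k (xb p n σ)) =
        -∑ t ∈ T.filter (fun t => t.1 = i + 1), C (l (a t)) * xb p n σ ^ t.2 := by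
      rw [pow_succ, Module.End.mul_apply, key, map_neg, map_sum, sum_filter, sum_filter]
      congr 1
      refine sum_congr rfl fun t ht => ?_
      by_cases h3 : t.1 = i + 1
      · have h4 := (he t ht (by omega)).sym
        rw [h3, Nat.add_sub_cancel] at h4
        rw [if_pos (by omega), if_pos h3, TanE.lin_C, h4]
      · rw [if_neg h3]
        split_ifs with h4
        · by_cases h5 : l (a t) = 0
          · rw [h5, map_zero, zero_mul, map_zero]
          · have h6 := hmax t (mem_filter.2 ⟨ht, h4, h5⟩)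
            have h7 := (he t ht h4).ker
            obtain ⟨r, hr⟩ : ∃ r, i = r + (t.1 - 1 + 1) := ⟨i - t.1, by omega⟩
            rw [TanE.lin_C, hr, pow_add, Module.End.mul_apply, h7, map_zero, mul_zero]
        · rfl
    have e5 : (dl σ ^ (i + 1 + 1)) (TanE.lam l θ * d⁄dX k (xb p n σ)) = 0 := by
      rw [pow_succ', Module.End.mul_apply, e4, map_neg, map_sum, sum_eq_zero, neg_zero]
      exact fun t _ => hfix _ _
    have e6 := hc.dvd (i + 1) (hi ▸ (hT t₀ ht₀).1) _ (dvd_mul_left _ _) e5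
    rw [e4, dvd_neg] at e6
    exact hl₀ (TanE.indep hx0 hx1 T (fun t => l (a t))
      (fun t ht h3 => h3 ▸ (hT t ht).2) e6 t₀ ht₀ hi)
  have hz : ∀ t ∈ T, t.1 ≠ 0 → a t = 0 := fun t ht h3 =>
    (Module.forall_dual_apply_eq_zero_iff k _).1 fun l => step1 l t ht h3
  have hsf : sfam σ T e a = cst A (σ X) := by
    rw [sfam, sum_eq_zero, add_zero]
    intro t ht
    rw [hz t (mem_filter.1 ht).1 (mem_filter.1 ht).2, map_zero, zero_mul]
  have hn : nrm (sub (cst A (σ X))) (p ^ n) X = cst A (xb p n σ) := by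
    rw [xb, nrm, nrm, map_prod]
    refine prod_congr rfl fun i _ => ?_
    rw [map_en_pow (algebraMap k A) σ (sub (cst A (σ X))) hs0.symm
      (hmem _ (by rw [hs0, TanE.map_cst, h0])), map_X]
  rw [hΦf, hsf, xfam, hn, add_right_inj] at hx
  intro t ht
  by_cases h3 : t.1 = 0
  · refine (Module.forall_dual_apply_eq_zero_iff k _).1 fun l => ?_
    have e3 := congrArg (TanE.lam l) hx
    rw [TanE.lam_mul l π h2 hθm, map_der, TanE.map_cst, map_sum,
      sum_congr rfl fun t ht => TanE.lam_C_mul l π h2 (ham t (mem_filter.1 ht).1) _] at e3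
    simp only [map_pow, TanE.map_cst] at e3
    have e5 : (dl σ ^ (0 + 1)) (TanE.lam l θ * d⁄dX k (xb p n σ)) = 0 := by
      rw [zero_add, pow_one, key, sum_eq_zero, neg_zero]
      intro t ht
      rw [step1 l t (mem_filter.1 ht).1 (mem_filter.1 ht).2, map_zero, zero_mul]
    have e6 := hc.dvd 0 hq _ (dvd_mul_left _ _) e5
    rw [pow_zero, Module.End.one_apply, e3] at e6
    exact TanE.indep hx0 hx1 T (fun t => l (a t)) (fun t ht h3 => h3 ▸ (hT t ht).2) e6 t ht h3
  · exact hz t ht h3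

end Pool.Agent.MP_deef5c_ag.O
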