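import Pool.Agent.MP_deef5c_ag.O.Up
import Pool.Agent.MP_deef5c_ag.O.TanE

/-! Effective families in characteristic p have small dimension. -/

open PowerSeries IsLocalRing Finset Function
open scoped Polynomial

namespace Pool.Agent.MP_deef5c_ag.O

universe u

section Aux

variable {k : Type u} [Field k]

theorem Eff_surj {D : Type u} [CommRing D] [Algebra k D] (π : D →ₐ[k] k) :
    Surjective (π : D →+* k) := fun c => ⟨algebraMap k D c, π.commutes c⟩

theorem Eff_map_cst {D D' : Type u} [CommRing D] [Algebra k D] [CommRing D'] [Algebra k D']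
    (ψ : D →ₐ[k] D') (g : k⟦X⟧) : PowerSeries.map (ψ : D →+* D') (cst D g) = cst D' g := by
  ext j
  simp [coeff_map]

theorem Eff_cst_self (g : k⟦X⟧) : cst k g = g := by
  ext j
  simp [coeff_map]

theorem Eff_map_sfam {D D' : Type u} [CommRing D] [Algebra k D] [CommRing D'] [Algebra k D']
    (ψ : D →ₐ[k] D') (σ : En k) (T : Finset (ℕ × ℕ)) (e : ℕ × ℕ → k⟦X⟧) (a : ℕ × ℕ → D) :
    PowerSeries.map (ψ : D →+* D') (sfam σ T e a) = sfam σ T e fun t => ψ (a t) := by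
  simp only [sfam, map_add, map_sum, map_mul, Eff_map_cst, map_C, RingHom.coe_coe]

theorem Eff_map_xfam {D D' : Type u} [CommRing D] [IsLocalRing D] [CL D] [CommRing D']
    [IsLocalRing D'] [CL D'] (φ : D →+* D') (q : ℕ) (T : Finset (ℕ × ℕ)) (a : ℕ × ℕ → D) {s : D⟦X⟧}
    (hs : constantCoeff s ∈ maximalIdeal D)
    (hs' : constantCoeff (PowerSeries.map φ s) ∈ maximalIdeal D') :
    PowerSeries.map φ (xfam q T a s) = xfam q T (fun t => φ (a t)) (PowerSeries.map φ s) := by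
  have h : PowerSeries.map φ (nrm (sub s) q X) = nrm (sub (PowerSeries.map φ s)) q X := by
    rw [nrm, nrm, map_prod]
    refine prod_congr rfl fun i _ => ?_
    rw [map_en_pow φ (sub s) (sub (PowerSeries.map φ s)) (by rw [sub_X hs, sub_X hs'])
      (by rwa [sub_X hs']), map_X]
  simp only [xfam, map_add, map_sum, map_mul, map_pow, map_C, h]

theorem Eff_map_map {D D' D'' : Type u} [CommRing D] [CommRing D'] [CommRing D''] (φ : D →+* D')
    (ψ : D' →+* D'') (χ : D →+* D'') (h : ∀ a, ψ (φ a) = χ a) (f : D⟦X⟧) :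
    PowerSeries.map ψ (PowerSeries.map φ f) = PowerSeries.map χ f := by
  ext j
  simp only [coeff_map, h]

theorem Eff_map_eq {D D' : Type u} [CommRing D] [CommRing D'] (φ : D →+* D') {J : Ideal D}
    (h : ∀ a ∈ J, φ a = 0) {f g : D⟦X⟧} (hf : CIn J (f - g)) :
    PowerSeries.map φ f = PowerSeries.map φ g := by
  rw [← sub_eq_zero, ← map_sub]
  ext j
  rw [coeff_map, h _ (hf j), map_zero]

end Aux

variable {k : Type u} [Field k] {p n m α : ℕ} [Fact p.Prime] [CharP k p] {ζ : k} {σ : En k}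

variable {D : Type u} [CommRing D] [IsDomain D] [IsLocalRing D] [CL D] [Algebra k D]

omit [IsDomain D] in
/-- the parameters of a trivial family lie in the square of the maximal ideal -/
theorem Eff_sq (S : Sp p n m α ζ σ) {c : ℕ → ℕ} (hc : SL p n σ c) (T : Finset (ℕ × ℕ))
    (e : ℕ × ℕ → k⟦X⟧) (hT : ∀ t ∈ T, t.1 < p ^ n ∧ t.2 < c (t.1 + 1))
    (he : ∀ t ∈ T, t.1 ≠ 0 → TV p n α ζ σ (t.1 - 1) t.2 (e t)) (π : D →ₐ[k] k) (a : ℕ × ℕ → D)
    (ha : ∀ t ∈ T, π (a t) = 0) (s : D⟦X⟧) (hred : PowerSeries.map (π : D →+* k) s = σ X)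
    (hs : CIn (maximalIdeal D * maximalIdeal D) (s - sfam σ T e a)) (Φ : En D)
    (h1 : PowerSeries.map (π : D →+* k) (Φ X) = X) (hΦ : Φ * sub (cst D (σ X)) = sub s * Φ)
    (hx : Φ (cst D (xb p n σ)) = xfam (p ^ n) T a s) :
    ∀ t ∈ T, a t ∈ maximalIdeal D * maximalIdeal D := by
  have hσ : order (σ X) = ((1 : ℕ) : ℕ∞) :=
    order_one (pow_pos (Fact.out : p.Prime).pos n) S.pow
  set J := maximalIdeal D * maximalIdeal D with hJd
  have hJ : J ≠ ⊤ := fun h => (maximalIdeal.isMaximal D).ne_top (top_le_iff.1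
    (h ▸ (Ideal.mul_le_right : J ≤ maximalIdeal D)))
  have := local_quot J hJ
  have := CL.of_surj (Ideal.Quotient.mk J) Ideal.Quotient.mk_surjective
  obtain ⟨π', hπ'⟩ := exists_piAlg_quot π J hJ
  let ψ : D →ₐ[k] D ⧸ J := Ideal.Quotient.mkₐ k J
  have hmm : ∀ f, PowerSeries.map (π' : D ⧸ J →+* k) (PowerSeries.map (ψ : D →+* D ⧸ J) f) =
      PowerSeries.map (π : D →+* k) f := Eff_map_map _ _ _ hπ'
  have m1 : constantCoeff s ∈ maximalIdeal D :=
    Qb_mem _ (Eff_surj π) s 1 one_pos (by rw [hred, hσ])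
  have m2 : constantCoeff (PowerSeries.map (ψ : D →+* D ⧸ J) s) ∈ maximalIdeal (D ⧸ J) :=
    Qb_mem _ (Eff_surj π') _ 1 one_pos (by rw [hmm, hred, hσ])
  have m3 : constantCoeff (PowerSeries.map (ψ : D →+* D ⧸ J) (Φ X)) ∈ maximalIdeal (D ⧸ J) :=
    Qb_mem _ (Eff_surj π') _ 1 one_pos (by rw [hmm, h1, order_X]; rfl)
  have m4 : constantCoeff (cst D (σ X)) ∈ maximalIdeal D :=
    Qb_mem _ (Eff_surj π) _ 1 one_pos (by rw [Eff_map_cst, Eff_cst_self, hσ])
  have m5 : constantCoeff (cst (D ⧸ J) (σ X)) ∈ maximalIdeal (D ⧸ J) :=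
    Qb_mem _ (Eff_surj π') _ 1 one_pos (by rw [Eff_map_cst, Eff_cst_self, hσ])
  have e1 : PowerSeries.map (ψ : D →+* D ⧸ J) s = sfam σ T e fun t => ψ (a t) := by
    rw [Eff_map_eq (ψ : D →+* D ⧸ J) (fun b hb => Ideal.Quotient.eq_zero_iff_mem.2 hb) hs,
      Eff_map_sfam]
  have e2 := map_en (ψ : D →+* D ⧸ J) Φ (sub (PowerSeries.map (ψ : D →+* D ⧸ J) (Φ X)))
    (sub_X m3).symm (by rwa [sub_X m3])
  have e3 := map_en (ψ : D →+* D ⧸ J) (sub s) (sub (PowerSeries.map (ψ : D →+* D ⧸ J) s))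
    (by rw [sub_X m1, sub_X m2]) (by rwa [sub_X m2])
  have key := tan_eff S hc π' (by
      rw [← IsLocalRing.map_maximalIdeal_of_surjective (Ideal.Quotient.mk J)
        Ideal.Quotient.mk_surjective, ← Ideal.map_mul]
      exact Ideal.map_quotient_self J) T e (fun t => ψ (a t))
    (fun t ht => (hπ' _).trans (ha t ht)) hT he
    (sub (PowerSeries.map (ψ : D →+* D ⧸ J) (Φ X))) (by rw [sub_X m3, hmm, h1]) ?_ ?_
  · exact fun t ht => Ideal.Quotient.eq_zero_iff_mem.1 (key t ht)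
  · refine en_ext ?_ ?_
    · have h3 := congrArg (fun F : En D => PowerSeries.map (ψ : D →+* D ⧸ J) (F X)) hΦ
      simp only [AlgHom.mul_apply] at h3 ⊢
      rw [sub_X m4, e2, e3, Eff_map_cst, e1] at h3
      rw [sub_X m5, sub_X m3, h3]
    · rw [AlgHom.mul_apply, sub_X m5]
      exact en_mem _ (by rwa [sub_X m3]) m5
  · rw [← Eff_map_cst ψ, ← e2, hx, Eff_map_xfam _ _ _ _ m1 m2, e1]
    rfl

/-- `x = xfam q T a s` makes `(sub s, x)` a `Fam` (`nrm_inv`, `tau_nrm`, `ξ^j = ξ` for `(0, j) ∈ TT`).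
`up` gives `φ : D → D'`, `Φ`; `triv_comm` for `Fam.map`.  Let `n'` be the maximal ideal of `D'`,
`A = D' ⧸ n'^2`; transport `Φ`, `s`, `x` to `A` (`map_en`), where `s` becomes `sfam`, and apply `tan_eff`:
all `φ (a t) ∈ n'^2`, so `n' ≤ n'^2`, `n' = ⊥` (Nakayama), `D'` is a field of dimension zero. -/
theorem eff [IsAlgClosed k] (S : Sp p n m α ζ σ) {w : ℕ} (hw : IsW p n σ w) {c : ℕ → ℕ}
    (hc : SL p n σ c) (e : ℕ × ℕ → k⟦X⟧)
    (he : ∀ t ∈ TT (p ^ n) c (ζ ^ p ^ n) (α : k), t.1 ≠ 0 → TV p n α ζ σ (t.1 - 1) t.2 (e t))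
    (π : D →ₐ[k] k) (a : ℕ × ℕ → D)
    (ha : maximalIdeal D = Ideal.span (a '' (TT (p ^ n) c (ζ ^ p ^ n) (α : k) : Finset (ℕ × ℕ))))
    (s : D⟦X⟧) (hs : CIn (maximalIdeal D * maximalIdeal D)
      (s - sfam σ (TT (p ^ n) c (ζ ^ p ^ n) (α : k)) e a))
    (hr : Rel (p ^ n) α (algebraMap k D ζ) (sub s)) : ringKrullDim D ≤ (w / m : ℕ) := by
  have hσ : order (σ X) = ((1 : ℕ) : ℕ∞) :=
    order_one (pow_pos (Fact.out : p.Prime).pos n) S.pow
  have hTm : ∀ t ∈ TT (p ^ n) c (ζ ^ p ^ n) (α : k), t.1 < p ^ n ∧ t.2 < c (t.1 + 1) ∧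
      (ζ ^ p ^ n) ^ t.2 = ζ ^ p ^ n * (α : k) ^ t.1 := by
    intro t ht
    simp only [TT, mem_filter, mem_product, mem_range] at ht
    exact ⟨ht.1.1, ht.2.2⟩
  generalize TT (p ^ n) c (ζ ^ p ^ n) (α : k) = T at he ha hs hTm
  have ha0 : ∀ t ∈ T, π (a t) = 0 := fun t ht =>
    (pi_eq_zero_iff _ (Eff_surj π) _).2 (ha ▸ Ideal.subset_span ⟨t, ht, rfl⟩)
  have hred : PowerSeries.map (π : D →+* k) s = σ X := by
    rw [Eff_map_eq (π : D →+* k) (fun b hb => (pi_eq_zero_iff _ (Eff_surj π) _).2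
      (Ideal.mul_le_right hb)) hs, Eff_map_sfam, sfam, Eff_cst_self, sum_eq_zero, add_zero]
    intro t ht
    rw [ha0 t (mem_filter.1 ht).1, map_zero, zero_mul]
  have m1 : constantCoeff s ∈ maximalIdeal D :=
    Qb_mem _ (Eff_surj π) s 1 one_pos (by rw [hred, hσ])
  have m0 : constantCoeff (σ X) ∈ maximalIdeal k :=
    Qb_mem (RingHom.id k) surjective_id _ 1 one_pos (by rw [PowerSeries.map_id]; exact hσ)
  have F : Fam p n α ζ σ π (sub s) (xfam (p ^ n) T a s) := by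
    refine ⟨by rw [sub_X m1, hred], ?_, hr, ?_, ?_⟩
    · rw [Eff_map_xfam _ _ _ _ m1 (by rwa [hred]), hred, xfam, ← eq_sub σ m0, sum_eq_zero, add_zero]
      · rfl
      · intro t ht
        have : (π : D →+* k) (a t) = 0 := ha0 t (mem_filter.1 ht).1
        rw [this, map_zero, zero_mul]
    · simp only [xfam, map_add, map_sum, map_mul, map_pow, nrm_inv hr.1, Base_en_C]
    · simp only [xfam, map_add, map_sum, map_mul, map_pow, tau_nrm hr (S.cop n), Base_en_C]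
      rw [mul_add, mul_sum]
      congr 1
      refine sum_congr rfl fun t ht => ?_
      obtain ⟨h1, h2⟩ := mem_filter.1 ht
      have h3 := (hTm t h1).2.2
      rw [h2, pow_zero, mul_one] at h3
      have h4 := congrArg (fun z => (C (algebraMap k D z) : D⟦X⟧)) h3
      simp only [map_pow] at h4
      rw [mul_pow, h4]
      ring
  obtain ⟨D', _, _, _, _, _, φ, π', hφ, hπ', hdim, Φ, h1, h2⟩ := up n S hw D π _ _ F
  have hmm : ∀ f, PowerSeries.map (π' : D' →+* k) (PowerSeries.map (φ : D →+* D') f) =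
      PowerSeries.map (π : D →+* k) f := Eff_map_map _ _ _ hπ'
  have m2 : constantCoeff (PowerSeries.map (φ : D →+* D') s) ∈ maximalIdeal D' :=
    Qb_mem _ (Eff_surj π') _ 1 one_pos (by rw [hmm, hred, hσ])
  have hΦ := triv_comm S (F.map S φ π' hπ') Φ h1 h2
  rw [sub_X m1] at hΦ
  rw [Eff_map_xfam _ _ _ _ m1 m2] at h2
  have hmax : Ideal.map (φ : D →+* D') (maximalIdeal D) = maximalIdeal D' :=
    IsLocalRing.map_maximalIdeal_of_surjective _ hφ
  have key := Eff_sq S hc T e (fun t ht => ⟨(hTm t ht).1, (hTm t ht).2.1⟩) he π'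
    (fun t => φ (a t)) (fun t ht => (hπ' _).trans (ha0 t ht)) _ (by rw [hmm, hred]) (by
      intro j
      rw [← Eff_map_sfam, ← map_sub, coeff_map, ← hmax, ← Ideal.map_mul]
      exact Ideal.mem_map_of_mem _ (hs j)) Φ h1 hΦ h2
  have hle : maximalIdeal D' ≤ maximalIdeal D' • maximalIdeal D' := by
    conv_lhs => rw [← hmax, ha, Ideal.map_span]
    refine Ideal.span_le.2 ?_
    rintro _ ⟨_, ⟨t, ht, rfl⟩, rfl⟩
    exact key t ht
  have hbot := Submodule.eq_bot_of_le_smul_of_le_jacobson_bot _ _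
    (IsNoetherian.noetherian _) hle (maximalIdeal_le_jacobson _)
  rw [ringKrullDim_eq_zero_of_isField (isField_iff_maximalIdeal_eq.2 hbot), zero_add] at hdim
  exact hdim

end Pool.Agent.MP_deef5c_ag.O
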