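import Pool.Agent.MP_deef5c_ag.O.Base

/-! Power series rings in several variables, as an existence statement. -/

open PowerSeries IsLocalRing Finset Function
open scoped Polynomial

namespace Pool.Agent.MP_deef5c_ag.O

universe u

theorem ExS_max {S : Type u} [CommRing S] [IsLocalRing S] :
    maximalIdeal S⟦X⟧ = (maximalIdeal S).map (C : S →+* S⟦X⟧) ⊔ Ideal.span {X} := by
  refine le_antisymm (fun f hf => ?_) (sup_le ?_ ?_)
  · rw [mem_max_iff] at hf
    rw [eq_X_mul_shift_add_const f]
    exact add_mem (Ideal.mem_sup_right (Ideal.mul_mem_right _ _ (Ideal.subset_span rfl)))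
      (Ideal.mem_sup_left (Ideal.mem_map_of_mem _ hf))
  · rw [Ideal.map_le_iff_le_comap]
    intro a ha
    rw [Ideal.mem_comap, mem_max_iff, constantCoeff_C]
    exact ha
  · rw [Ideal.span_singleton_le_iff_mem, mem_max_iff, constantCoeff_X]
    exact zero_mem _

/-- induction on `h`, replacing `S` by `S⟦X⟧`; use `CL.powerSeries`, `mem_max_iff` and
`ringKrullDim_succ_le_ringKrullDim_powerseries`. -/
theorem exists_S (W : Type u) [CommRing W] [IsLocalRing W] [CL W] (h : ℕ) :
    ∃ (S : Type u) (_ : CommRing S) (_ : IsLocalRing S) (_ : CL S) (_ : Algebra W S)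
      (r : S →ₐ[W] W) (x : Fin h → S), (∀ i, r (x i) = 0) ∧
      maximalIdeal S = (maximalIdeal W).map (algebraMap W S) ⊔ Ideal.span (Set.range x) ∧
      ringKrullDim W + h ≤ ringKrullDim S := by
  induction h with
  | zero =>
    refine ⟨W, inferInstance, inferInstance, inferInstance, inferInstance, AlgHom.id W W,
      Fin.elim0, fun i => i.elim0, ?_, by simp⟩
    simp
  | succ h ih =>
    obtain ⟨S, _, _, _, _, r, x, h1, h2, h3⟩ := ih
    let c : S⟦X⟧ →ₐ[W] S :=
      { (constantCoeff : S⟦X⟧ →+* S) with
        commutes' := fun a => by simp [PowerSeries.algebraMap_apply] }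
    refine ⟨S⟦X⟧, inferInstance, inferInstance, inferInstance, inferInstance, r.comp c,
      Fin.cons X fun i => C (x i), fun i => ?_, ?_, ?_⟩
    · refine Fin.cases ?_ (fun i => ?_) i
      · simp [c]
      · simpa [c] using h1 i
    · have ha : algebraMap W S⟦X⟧ = (C : S →+* S⟦X⟧).comp (algebraMap W S) := by
        ext1 a
        simp [PowerSeries.algebraMap_apply]
      rw [ExS_max, h2, Ideal.map_sup, Ideal.map_map, ha, Fin.range_cons, Ideal.span_insert,
        Ideal.map_span, ← Set.range_comp, sup_assoc, sup_comm (Ideal.span {X})]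
      rfl
    · refine le_trans ?_ ringKrullDim_succ_le_ringKrullDim_powerseries
      rw [Nat.cast_succ, ← add_assoc]
      gcongr

end Pool.Agent.MP_deef5c_ag.O
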