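import Pool.Agent.MP_deef5c_ag.O.Quot2

/-! A quotient finite over the Witt vectors. -/

open PowerSeries IsLocalRing Finset Function
open scoped Polynomial

namespace Pool.Agent.MP_deef5c_ag.O

universe u

theorem FinQ_prime_eq {R : Type u} [CommRing R] [IsDomain R] [IsLocalRing R] [IsNoetherianRing R]
    {x : R} (hx : x ≠ 0) (h : ∀ P : Ideal R, P.IsPrime → P ≠ ⊥ → x ∈ P)
    (P : Ideal R) (hP : P.IsPrime) (hxP : x ∈ P) : P = maximalIdeal R := by
  by_contra hne
  have hPm : P ≤ maximalIdeal R := le_maximalIdeal hP.ne_top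
  have hfin := Ideal.finite_minimalPrimes_of_isNoetherianRing R (Ideal.span {x})
  have hns : ¬ ((maximalIdeal R : Set R) ⊆ ⋃ i ∈ (Ideal.span {x}).minimalPrimes, (i : Set R)) := by
    rw [Ideal.subset_union_prime_finite (f := fun i => i) hfin ⊥ ⊥ (fun i hi _ _ => hi.isPrime)]
    rintro ⟨i, hi, hle⟩
    have h1 : P ≤ i := hPm.trans hle
    have h2 : i ≤ P := hi.2 ⟨hP, (Ideal.span_singleton_le_iff_mem _).mpr hxP⟩ h1
    exact hne (le_antisymm hPm (hle.trans h2))
  obtain ⟨a, ham, ha⟩ := Set.not_subset.mp hns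
  have ha' : ∀ i ∈ (Ideal.span {x}).minimalPrimes, a ∉ i := fun i hi hai =>
    ha (Set.mem_biUnion hi hai)
  obtain ⟨P0, hP0, -⟩ := Ideal.exists_minimalPrimes_le (I := Ideal.span {x}) (J := P)
    ((Ideal.span_singleton_le_iff_mem _).mpr hxP)
  have ha0 : a ≠ 0 := fun e => ha' P0 hP0 (e ▸ P0.zero_mem)
  obtain ⟨P1, hP1, -⟩ := Ideal.exists_minimalPrimes_le (I := Ideal.span {a}) (J := maximalIdeal R)
    ((Ideal.span_singleton_le_iff_mem _).mpr ham)
  have hP1p := hP1.isPrime
  have haP1 : a ∈ P1 := hP1.1.2 (Ideal.mem_span_singleton_self a)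
  have hxP1 : x ∈ P1 := h P1 hP1p fun e => ha0 (by rwa [e, Ideal.mem_bot] at haP1)
  obtain ⟨P2, hP2, hle⟩ := Ideal.exists_minimalPrimes_le (I := Ideal.span {x}) (J := P1)
    ((Ideal.span_singleton_le_iff_mem _).mpr hxP1)
  have hP2p := hP2.isPrime
  have hlt : P2 < P1 := lt_of_le_of_ne hle fun e => ha' P2 hP2 (e ▸ haP1)
  have hbot : (⊥ : Ideal R) < P2 := bot_lt_iff_ne_bot.mpr fun e => hx (by
    have : x ∈ P2 := hP2.1.2 (Ideal.mem_span_singleton_self x)
    rwa [e, Ideal.mem_bot] at this)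
  have h1 := Ideal.height_le_one_of_isPrincipal_of_mem_minimalPrimes _ P1 hP1
  have h2 := Ideal.height_add_one_le_of_lt_of_isPrime hlt
  have h3 := Ideal.height_add_one_le_of_lt_of_isPrime hbot
  have h4 : (1 : ℕ∞) ≤ P2.height := le_trans le_add_self h3
  have h5 : (1 : ℕ∞) + 1 ≤ 1 := (add_le_add h4 le_rfl).trans (h2.trans h1)
  exact absurd h5 (by decide)

theorem FinQ_approx {W R : Type u} [CommRing W] [CommRing R] [IsNoetherianRing R] [Algebra W R]
    (m : Ideal R) (h : ∀ r : R, ∃ w : W, r - algebraMap W R w ∈ m) (N : ℕ) :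
    ∃ M : Submodule W R, M.FG ∧ ∀ r : R, ∃ y ∈ M, r - y ∈ m ^ N := by
  induction N with
  | zero => exact ⟨⊥, Submodule.fg_bot, fun r => ⟨0, Submodule.zero_mem _, by simp⟩⟩
  | succ N ih =>
    obtain ⟨M, hM, hr⟩ := ih
    obtain ⟨S, hS⟩ : (m ^ N).FG := IsNoetherian.noetherian _
    have hsub : ∀ z ∈ Submodule.span W (S : Set R), z ∈ m ^ N := by
      intro z hz
      rw [← hS]
      exact Submodule.span_le_restrictScalars W R (S : Set R) hz
    have key : ∀ y ∈ Ideal.span (S : Set R),
        ∃ z ∈ Submodule.span W (S : Set R), y - z ∈ m ^ (N + 1) := by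
      intro y hy
      induction hy using Submodule.span_induction with
      | mem y hy => exact ⟨y, Submodule.subset_span hy, by simp⟩
      | zero => exact ⟨0, Submodule.zero_mem _, by simp⟩
      | add y y' _ _ hy hy' =>
        obtain ⟨z, hz, e⟩ := hy
        obtain ⟨z', hz', e'⟩ := hy'
        refine ⟨z + z', Submodule.add_mem _ hz hz', ?_⟩
        have := Ideal.add_mem _ e e'
        rwa [show y - z + (y' - z') = y + y' - (z + z') by ring] at this
      | smul r y _ hy =>
        obtain ⟨z, hz, e⟩ := hy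
        obtain ⟨w, hw⟩ := h r
        refine ⟨w • z, Submodule.smul_mem _ _ hz, ?_⟩
        have h1 : z * (r - algebraMap W R w) ∈ m ^ (N + 1) := by
          rw [pow_succ]
          exact Ideal.mul_mem_mul (hsub z hz) hw
        have := Ideal.add_mem _ (Ideal.mul_mem_left _ r e) h1
        rwa [show r * (y - z) + z * (r - algebraMap W R w) = r • y - w • z by
          rw [smul_eq_mul, Algebra.smul_def]; ring] at this
    refine ⟨M ⊔ Submodule.span W (S : Set R), hM.sup ⟨S, rfl⟩, fun r => ?_⟩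
    obtain ⟨y, hy, e⟩ := hr r
    obtain ⟨z, hz, e'⟩ := key (r - y) (hS ▸ e)
    refine ⟨y + z, Submodule.add_mem_sup hy hz, ?_⟩
    rwa [show r - (y + z) = r - y - z by ring]

theorem FinQ_mem_pi {W ι : Type*} [CommRing W] [Fintype ι] (J : Ideal W) (x : ι → W) :
    x ∈ (J • ⊤ : Submodule W (ι → W)) ↔ ∀ i, x i ∈ J := by
  classical
  constructor
  · intro hx i
    refine Submodule.smul_induction_on hx (fun r hr n _ => ?_) (fun a b ha hb => ?_)
    · exact J.mul_mem_right _ hr
    · exact J.add_mem ha hb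
  · intro hx
    have e : x = ∑ i, x i • (Pi.single i (1 : W) : ι → W) := by
      ext j
      simp [Finset.sum_apply, Pi.single_apply]
    rw [e]
    exact Submodule.sum_mem _ fun i _ => Submodule.smul_mem_smul (hx i) trivial

theorem FinQ_precomplete {W ι : Type*} [CommRing W] [Fintype ι] (I : Ideal W)
    [hI : IsPrecomplete I W] : IsPrecomplete I (ι → W) := by
  refine ⟨fun f hf => ?_⟩
  have h : ∀ i, ∃ L : W, ∀ n, f n i ≡ L [SMOD (I ^ n • ⊤ : Submodule W W)] := fun i =>
    hI.prec (f := fun n => f n i) fun {m n} hmn => by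
      have := (FinQ_mem_pi _ _).mp (SModEq.sub_mem.mp (hf hmn)) i
      rw [SModEq.sub_mem, smul_eq_mul, Ideal.mul_top]
      exact this
  choose L hL using h
  refine ⟨L, fun n => SModEq.sub_mem.mpr ((FinQ_mem_pi _ _).mpr fun i => ?_)⟩
  have := SModEq.sub_mem.mp (hL i n)
  rwa [smul_eq_mul, Ideal.mul_top] at this

theorem FinQ_finite {W R : Type u} [CommRing W] [CommRing R] [IsDomain R] [IsLocalRing R]
    [IsNoetherianRing R] [Algebra W R] (t : W) [IsPrecomplete (Ideal.span {t}) W]
    (h : ∀ r : R, ∃ w : W, r - algebraMap W R w ∈ maximalIdeal R)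
    (ht : algebraMap W R t ∈ maximalIdeal R)
    (hP : ∀ P : Ideal R, P.IsPrime → algebraMap W R t ∈ P → P = maximalIdeal R) :
    Module.Finite W R := by
  have hrad : maximalIdeal R ≤ (Ideal.span {algebraMap W R t}).radical := by
    rw [Ideal.radical_eq_sInf]
    refine le_sInf fun J hJ => ?_
    rw [hP J hJ.2 (hJ.1 (Ideal.mem_span_singleton_self _))]
  obtain ⟨N, hN⟩ := Ideal.exists_pow_le_of_le_radical_of_fg hrad (IsNoetherian.noetherian _)
  obtain ⟨M, hM, hr⟩ := FinQ_approx (W := W) (maximalIdeal R) h N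
  obtain ⟨n, v, hv⟩ := Submodule.fg_iff_exists_fin_generating_family.mp hM
  have hpre := FinQ_precomplete (ι := Fin n) (Ideal.span {t})
  have hhaus : IsHausdorff (Ideal.span {t}) R := by
    rw [← IsHausdorff.map_algebraMap_iff (S := R)]
    refine IsHausdorff.of_isLocalRing _ _ (ne_top_of_le_ne_top (maximalIdeal.isMaximal R).ne_top ?_)
    rw [Ideal.map_span, Set.image_singleton]
    exact (Ideal.span_singleton_le_iff_mem _).mpr ht
  refine Module.Finite.of_surjective (Fintype.linearCombination W v)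
    (surjective_of_mkQ_comp_surjective (I := Ideal.span {t}) ?_)
  intro y
  obtain ⟨r, rfl⟩ := Submodule.mkQ_surjective _ y
  obtain ⟨z, hz, e⟩ := hr r
  rw [← hv, ← Fintype.range_linearCombination] at hz
  obtain ⟨c, rfl⟩ := hz
  refine ⟨c, ?_⟩
  rw [LinearMap.comp_apply, Submodule.mkQ_apply, Submodule.mkQ_apply, eq_comm,
    Submodule.Quotient.eq]
  obtain ⟨s, hs⟩ := Ideal.mem_span_singleton'.mp (hN e)
  rw [← hs, mul_comm, ← Algebra.smul_def]
  exact Submodule.smul_mem_smul (Ideal.mem_span_singleton_self t) trivial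

/-- Take `Q` maximal among the primes not containing `p`.  In `R₁ = R ⧸ Q` every non-zero prime
contains `p`.  If the maximal ideal were not minimal over `p`, pick (prime avoidance) `a` in it
outside the minimal primes of `p`; a prime minimal over `a` has height at most one, contains `p`,
hence equals a minimal prime of `p`, absurd.  So `R₁ / p` is Artinian with residue field `k`, hence
finite over `k`, and `R₁` is `p`-adically separated: complete Nakayama
(`surjective_of_mkQ_comp_surjective` or a direct limit argument) gives finiteness. -/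
theorem exists_fin_quot (p : ℕ) [Fact p.Prime] (k : Type u) [Field k] [CharP k p] [PerfectRing k p]
    (R : Type u) [CommRing R] [IsDomain R] [IsLocalRing R] [CL R] [Algebra (WittVector p k) R]
    (π : R →+* k) (hπ : ∀ w, π (algebraMap (WittVector p k) R w) = w.coeff 0) (hp : (p : R) ≠ 0) :
    ∃ Q : Ideal R, Q.IsPrime ∧ (p : R) ∉ Q ∧ Module.Finite (WittVector p k) (R ⧸ Q) := by
  have hsurj : Surjective π := fun c =>
    ⟨algebraMap _ R (WittVector.teichmuller p c), by rw [hπ, WittVector.teichmuller_coeff_zero]⟩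
  have hker : RingHom.ker π = maximalIdeal R :=
    eq_maximalIdeal (RingHom.ker_isMaximal_of_surjective π hsurj)
  obtain ⟨Q, ⟨hQ, hpQ⟩, hmax⟩ := set_has_maximal_iff_noetherian.mpr
    (inferInstance : IsNoetherian R R) {Q : Ideal R | Q.IsPrime ∧ (p : R) ∉ Q}
    ⟨⊥, Ideal.isPrime_bot, by simpa using hp⟩
  refine ⟨Q, hQ, hpQ, ?_⟩
  have hsq : Surjective (Ideal.Quotient.mk Q) := Ideal.Quotient.mk_surjective
  have : Nontrivial (R ⧸ Q) := Ideal.Quotient.nontrivial_iff.mpr hQ.ne_top
  have : IsLocalRing (R ⧸ Q) := IsLocalRing.of_surjective' _ hsq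
  have hloc : ∀ r ∈ maximalIdeal R, Ideal.Quotient.mk Q r ∈ maximalIdeal (R ⧸ Q) := by
    intro r hr
    have : IsLocalHom (Ideal.Quotient.mk Q) := IsLocalHom.of_surjective _ hsq
    exact map_nonunit _ r hr
  have hpm : (p : R) ∈ maximalIdeal R := by
    rw [← hker, RingHom.mem_ker, map_natCast, CharP.cast_eq_zero]
  have hpa : algebraMap (WittVector p k) (R ⧸ Q) p = Ideal.Quotient.mk Q p := by
    rw [map_natCast, map_natCast]
  have hp0 : Ideal.Quotient.mk Q p ≠ 0 := fun e => hpQ (Ideal.Quotient.eq_zero_iff_mem.mp e)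
  refine FinQ_finite (p : WittVector p k) (fun r => ?_) (hpa ▸ hloc _ hpm) (fun P hP hpP => ?_)
  · obtain ⟨r, rfl⟩ := hsq r
    refine ⟨WittVector.teichmuller p (π r), ?_⟩
    have : r - algebraMap _ R (WittVector.teichmuller p (π r)) ∈ maximalIdeal R := by
      rw [← hker, RingHom.mem_ker, map_sub, hπ, WittVector.teichmuller_coeff_zero, sub_self]
    have h2 := hloc _ this
    rw [map_sub] at h2
    exact h2
  · refine FinQ_prime_eq hp0 (fun P' hP' hne => ?_) P hP (hpa ▸ hpP)
    by_contra hn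
    have hle : Q ≤ P'.comap (Ideal.Quotient.mk Q) := fun a ha => by
      rw [Ideal.mem_comap, Ideal.Quotient.eq_zero_iff_mem.mpr ha]
      exact P'.zero_mem
    refine hmax (P'.comap (Ideal.Quotient.mk Q)) ⟨hP'.comap _, hn⟩ (lt_of_le_of_ne hle fun e => hne ?_)
    rw [eq_bot_iff]
    intro y hy
    obtain ⟨a, rfl⟩ := hsq y
    have : a ∈ Q := by rw [e]; exact hy
    exact Ideal.Quotient.eq_zero_iff_mem.mpr this

end Pool.Agent.MP_deef5c_ag.O
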