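import Pool.Agent.MP_deef5c_ag.O.ThreeOne
import Pool.Agent.MP_deef5c_ag.O.TwoThree
import Pool.Agent.MP_deef5c_ag.O.OneTwo

open PowerSeries IsLocalRing

universe u v

namespace Pool.Agent.MP_deef5c_ag.O

theorem final (p : ℕ) [Fact p.Prime] (k : Type u) [Field k] [IsAlgClosed k] [CharP k p]
    (G : Type v) [Group G] [Finite G] (hG : ∀ P : Sylow p G, IsCyclic P)
    (ρ : G →* (k⟦X⟧ ≃ₐ[k] k⟦X⟧)) (hρ : Function.Injective ρ) :
    List.TFAE [
      ∃ (O : Type u) (_ : CommRing O) (_ : IsDomain O) (_ : IsDiscreteValuationRing O)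
        (_ : IsAdicComplete (maximalIdeal O) O) (_ : CharZero O) (π : O →+* k),
        Function.Surjective π ∧ LocLifts ρ π,
      ∀ N : ℕ, ∃ (A : Type u) (_ : CommRing A) (_ : IsLocalRing A) (_ : IsArtinianRing A)
        (π : A →+* k), Function.Surjective π ∧ (p : A) ^ N ≠ 0 ∧ LocLifts ρ π,
      ∃ (A : Type u) (_ : CommRing A) (_ : IsLocalRing A) (_ : IsArtinianRing A)
        (π : A →+* k), Function.Surjective π ∧ (p : A) ≠ 0 ∧ LocLifts ρ π,
      IsCyclic G ∨ ∀ σ : G, orderOf σ = ordProj[p] (Nat.card G) →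
        ((ordCompl[p] (Nat.card G) : ℕ) : ℕ∞) ∣ (ρ σ X - X).order] := by
  tfae_have 1 → 2 := by
    rintro ⟨O, _, _, _, _, _, π, hπ, h⟩ N
    exact one_two p N ρ O π hπ h
  tfae_have 2 → 3 := fun h => by
    obtain ⟨A, _, _, _, π, hπ, h1, h2⟩ := h 1
    exact ⟨A, _, ‹_›, ‹_›, π, hπ, by simpa using h1, h2⟩
  tfae_have 3 → 4 := by
    rintro ⟨A, _, _, _, π, hπ, h1, h2⟩
    exact two_three p hG ρ hρ A π hπ h1 h2
  tfae_have 4 → 1 := three_one p hG ρ hρ
  tfae_finish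

end Pool.Agent.MP_deef5c_ag.O
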