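import Pool.Agent.MP_deef5c_ag.O.GDefs

/-! Flat lifts of smooth algebras and of localisations. -/

open CategoryTheory AlgebraicGeometry IsLocalRing Function
open scoped Polynomial PowerSeries

namespace Pool.Agent.MP_deef5c_ag.O

universe u

variable {k A : Type u} [Field k] [CommRing A] [IsLocalRing A] [IsArtinianRing A]

theorem GAlg_nil : IsNilpotent (maximalIdeal A) := by
  rw [← jacobson_eq_maximalIdeal (⊥ : Ideal A) bot_ne_top]
  exact IsArtinianRing.isNilpotent_jacobson_bot

theorem GAlg_nak {M : Type u} [AddCommGroup M] [Module A M] (N : Submodule A M)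
    (h : ⊤ ≤ N ⊔ maximalIdeal A • (⊤ : Submodule A M)) : N = ⊤ := by
  have h1 : ∀ n : ℕ, ⊤ ≤ N ⊔ maximalIdeal A ^ n • (⊤ : Submodule A M) := by
    intro n
    induction n with
    | zero =>
      rw [pow_zero, Ideal.one_eq_top, Submodule.top_smul]
      exact le_sup_right
    | succ n ih =>
      refine h.trans (sup_le le_sup_left ((Submodule.smul_mono le_rfl ih).trans ?_))
      rw [Submodule.smul_sup, pow_succ', Submodule.mul_smul]
      exact sup_le_sup_right Submodule.smul_le_right _
  obtain ⟨n, hn⟩ := GAlg_nil (A := A)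
  have h2 := h1 n
  rwa [hn, Submodule.zero_eq_bot, Submodule.bot_smul, sup_bot_eq, top_le_iff] at h2

omit [IsArtinianRing A] in
theorem GAlg_mem {B : Type u} [CommRing B] [Algebra A B] {x : B}
    (h : x ∈ (maximalIdeal A).map (algebraMap A B)) :
    x ∈ maximalIdeal A • (⊤ : Submodule A B) := by
  rw [Ideal.smul_top_eq_map]
  exact h

theorem GAlg_unit {B C : Type u} [CommRing B] [CommRing C] [Algebra A B] (r : B →+* C)
    (hr : Surjective r) (hk : RingHom.ker r = (maximalIdeal A).map (algebraMap A B)) {x : B}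
    (hx : IsUnit (r x)) : IsUnit x := by
  obtain ⟨y, hy⟩ := hx.exists_right_inv
  obtain ⟨y, rfl⟩ := hr y
  have h1 : x * y - 1 ∈ (maximalIdeal A).map (algebraMap A B) := by
    rw [← hk, RingHom.mem_ker, map_sub, map_mul, hy, map_one, sub_self]
  obtain ⟨n, hn⟩ := GAlg_nil (A := A)
  have h2 := Ideal.pow_mem_pow h1 n
  rw [← Ideal.map_pow, hn, Ideal.zero_eq_bot, Ideal.map_bot, Ideal.mem_bot] at h2
  have h3 := IsNilpotent.isUnit_add_one ⟨n, h2⟩
  rw [sub_add_cancel] at h3
  exact isUnit_of_mul_isUnit_left h3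

/-- a map to a flat module that is bijective modulo the maximal ideal is bijective -/
theorem GAlg_bij {L P : Type u} [AddCommGroup L] [Module A L] [AddCommGroup P] [Module A P]
    [Module.Flat A P] (f : L →ₗ[A] P)
    (hs : ∀ z, ∃ x, z - f x ∈ maximalIdeal A • (⊤ : Submodule A P))
    (hi : ∀ x, f x = 0 → x ∈ maximalIdeal A • (⊤ : Submodule A L)) : Bijective f := by
  have h1 : Surjective f := by
    rw [← LinearMap.range_eq_top]
    refine GAlg_nak _ fun z _ => ?_
    obtain ⟨x, hx⟩ := hs z
    have := Submodule.add_mem_sup (LinearMap.mem_range_self f x) hx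
    rwa [add_sub_cancel] at this
  refine ⟨?_, h1⟩
  have h2 := LinearMap.lTensor_injective_of_exact_of_flat f h1 _
    (LinearMap.ker f).subtype_injective (LinearMap.exact_subtype_ker_map f) (A ⧸ maximalIdeal A)
  have h3 : (⊥ : Submodule A (LinearMap.ker f)) = ⊤ := by
    refine GAlg_nak _ fun x _ => Submodule.mem_sup_right ?_
    have h4 := hi x.1 x.2
    rw [← LinearMap.ker_tensorProductMk, LinearMap.mem_ker] at h4 ⊢
    apply h2
    rw [map_zero]
    exact h4
  rw [← LinearMap.ker_eq_bot, eq_bot_iff]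
  intro x hx
  have h5 : (⟨x, hx⟩ : LinearMap.ker f) ∈ (⊥ : Submodule A (LinearMap.ker f)) := by
    rw [h3]
    exact Submodule.mem_top
  exact congrArg Subtype.val ((Submodule.mem_bot A).1 h5)

omit [IsArtinianRing A] in
theorem GAlg_pushout (π : A →+* k) (hπ : Surjective π) {R' R : Type u} [CommRing R'] [CommRing R]
    (a : A →+* R') (b : k →+* R) (r : R' →+* R) (hr : Surjective r)
    (hk : RingHom.ker r = (maximalIdeal A).map a) (hc : ∀ x, r (a x) = b (π x)) :
    IsPushout (CommRingCat.ofHom a) (CommRingCat.ofHom π) (CommRingCat.ofHom r)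
      (CommRingCat.ofHom b) := by
  have w : CommRingCat.ofHom a ≫ CommRingCat.ofHom r =
      CommRingCat.ofHom π ≫ CommRingCat.ofHom b := CommRingCat.hom_ext (RingHom.ext hc)
  have hw : ∀ (s : Limits.PushoutCocone (CommRingCat.ofHom a) (CommRingCat.ofHom π)) (x : A),
      s.inl.hom (a x) = s.inr.hom (π x) := fun s x =>
    congrArg (fun f : CommRingCat.of A ⟶ s.pt => f.hom x) s.condition
  have hs : ∀ s : Limits.PushoutCocone (CommRingCat.ofHom a) (CommRingCat.ofHom π),
      RingHom.ker r ≤ RingHom.ker s.inl.hom := by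
    intro s
    rw [hk, Ideal.map_le_iff_le_comap]
    intro x hx
    rw [← ker_eq_maximalIdeal π hπ, RingHom.mem_ker] at hx
    rw [Ideal.mem_comap, RingHom.mem_ker, hw, hx, map_zero]
  refine ⟨⟨w⟩, ⟨Limits.PushoutCocone.IsColimit.mk w
    (fun s => CommRingCat.ofHom (r.liftOfSurjective hr ⟨s.inl.hom, hs s⟩)) (fun s => ?_)
    (fun s => ?_) fun s m h1 _ => ?_⟩⟩
  · exact CommRingCat.hom_ext (r.liftOfSurjective_comp hr ⟨s.inl.hom, hs s⟩)
  · refine CommRingCat.hom_ext (RingHom.ext fun c => ?_)
    obtain ⟨x, rfl⟩ := hπ c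
    change r.liftOfSurjective hr ⟨s.inl.hom, hs s⟩ (b (π x)) = s.inr.hom (π x)
    rw [← hc, r.liftOfSurjective_comp_apply hr ⟨s.inl.hom, hs s⟩, ← hw]
  · exact CommRingCat.hom_ext (r.eq_liftOfSurjective hr _ (hs s) m.hom
      (congrArg CommRingCat.Hom.hom h1))

theorem GAlg_ft (π : A →+* k) (hπ : Surjective π) {R' R : Type u} [CommRing R'] [Algebra A R']
    [CommRing R] [Algebra k R] [Algebra.FiniteType k R] (r : R' →+* R)
    (hr : Surjective r) (hk : RingHom.ker r = (maximalIdeal A).map (algebraMap A R'))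
    (ha : ∀ a, r (algebraMap A R' a) = algebraMap k R (π a)) : Algebra.FiniteType A R' := by
  classical
  obtain ⟨s, hs⟩ := Algebra.FiniteType.out (R := k) (A := R)
  choose g hg using hr
  refine ⟨s.image g, ?_⟩
  have h1 : ∀ y ∈ Algebra.adjoin k (s : Set R),
      ∃ x ∈ Algebra.adjoin A (s.image g : Set R'), r x = y := by
    intro y hy
    induction hy using Algebra.adjoin_induction with
    | mem y hy =>
      exact ⟨g y, Algebra.subset_adjoin (Finset.mem_coe.2 (Finset.mem_image_of_mem g hy)), hg y⟩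
    | algebraMap c =>
      obtain ⟨c, rfl⟩ := hπ c
      exact ⟨_, Subalgebra.algebraMap_mem _ c, ha c⟩
    | add _ _ _ _ h1 h2 =>
      obtain ⟨x, hx, rfl⟩ := h1
      obtain ⟨y, hy, rfl⟩ := h2
      exact ⟨x + y, add_mem hx hy, map_add r x y⟩
    | mul _ _ _ _ h1 h2 =>
      obtain ⟨x, hx, rfl⟩ := h1
      obtain ⟨y, hy, rfl⟩ := h2
      exact ⟨x * y, mul_mem hx hy, map_mul r x y⟩
  have h2 : Subalgebra.toSubmodule (Algebra.adjoin A (s.image g : Set R')) = ⊤ := by
    refine GAlg_nak _ fun z _ => ?_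
    obtain ⟨x, hx, e⟩ := h1 (r z) (by rw [hs]; exact Algebra.mem_top)
    have h3 : z - x ∈ (maximalIdeal A).map (algebraMap A R') := by
      rw [← hk, RingHom.mem_ker, map_sub, e, sub_self]
    have := Submodule.add_mem_sup
      (S := Subalgebra.toSubmodule (Algebra.adjoin A (s.image g : Set R'))) hx (GAlg_mem h3)
    rwa [add_sub_cancel] at this
  exact Algebra.toSubmodule_eq_top.1 h2

/-- `R'` is of finite type over `A` (lift generators, the maximal ideal of `A` is nilpotent), hence of
finite presentation; its only fibre is `R`; `Algebra.Smooth.of_formallySmooth_fiber`. -/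
theorem smooth_of_flat (π : A →+* k) (hπ : Surjective π) {R' R : Type u} [CommRing R'] [Algebra A R']
    [Module.Flat A R'] [CommRing R] [Algebra k R] [Algebra.Smooth k R] (r : R' →+* R)
    (hr : Surjective r) (hk : RingHom.ker r = (maximalIdeal A).map (algebraMap A R'))
    (ha : ∀ a, r (algebraMap A R' a) = algebraMap k R (π a)) : Algebra.Smooth A R' := by
  have := GAlg_ft π hπ r hr hk ha
  have : Algebra.FinitePresentation A R' := Algebra.FinitePresentation.of_finiteType.1 this
  let _ : Algebra A k := π.toAlgebra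
  let _ : Algebra R' R := r.toAlgebra
  let _ : Algebra A R := ((algebraMap k R).comp π).toAlgebra
  have : IsScalarTower A k R := .of_algebraMap_eq' rfl
  have : IsScalarTower A R' R := .of_algebraMap_eq fun a => (ha a).symm
  have : Algebra.IsPushout A k R' R := (CommRingCat.isPushout_iff_isPushout.1
    (GAlg_pushout π hπ (algebraMap A R') (algebraMap k R) r hr hk ha)).symm
  have : Algebra.FormallySmooth k (TensorProduct A k R') :=
    .of_equiv (Algebra.IsPushout.equiv A k R' R).symm
  refine Algebra.Smooth.of_formallySmooth_fiber fun I _ => ?_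
  have hI : RingHom.ker π ≤ RingHom.ker (algebraMap A I.ResidueField) := by
    rw [ker_eq_maximalIdeal π hπ, Ideal.ker_algebraMap_residueField,
      eq_maximalIdeal (IsArtinianRing.isMaximal_of_isPrime I)]
  let _ : Algebra k I.ResidueField := (π.liftOfSurjective hπ ⟨_, hI⟩).toAlgebra
  have : IsScalarTower A k I.ResidueField :=
    .of_algebraMap_eq' (π.liftOfSurjective_comp hπ ⟨_, hI⟩).symm
  exact .of_equiv (Algebra.TensorProduct.cancelBaseChange A k I.ResidueField I.ResidueField R')

/-- The image of `h'` is a unit (nilpotent kernel).  The map `R₁'[1/h'] → R₂'` is bijective modulo the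
maximal ideal `m` of `A`, so surjective (`m` nilpotent); its kernel `N` satisfies `N = m N` because `R₂'`
is flat (`LinearMap.lTensor_injective_of_exact_of_flat`), so `N = 0`. -/
theorem away_of_flat {R₁' R₂' R₁ R₂ : Type u} [CommRing R₁'] [CommRing R₂'] [CommRing R₁]
    [CommRing R₂] [Algebra A R₁'] [Algebra A R₂'] [Module.Flat A R₂'] (φ' : R₁' →ₐ[A] R₂')
    (φ : R₁ →+* R₂) (r₁ : R₁' →+* R₁) (r₂ : R₂' →+* R₂) (h₁ : Surjective r₁) (h₂ : Surjective r₂)
    (hk₁ : RingHom.ker r₁ = (maximalIdeal A).map (algebraMap A R₁'))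
    (hk₂ : RingHom.ker r₂ = (maximalIdeal A).map (algebraMap A R₂'))
    (hc : ∀ s, r₂ (φ' s) = φ (r₁ s)) (h' : R₁')
    (hφ : letI := φ.toAlgebra; IsLocalization.Away (r₁ h') R₂) :
    letI := (φ' : R₁' →+* R₂').toAlgebra; IsLocalization.Away h' R₂' := by
  let _ := φ.toAlgebra
  let _ := (φ' : R₁' →+* R₂').toAlgebra
  have : IsScalarTower A R₁' R₂' := .of_algebraMap_eq fun a => (φ'.commutes a).symm
  have hu : IsUnit (Algebra.ofId R₁' R₂' h') := by
    refine GAlg_unit r₂ h₂ hk₂ ?_
    exact (hc h').symm ▸ IsLocalization.Away.algebraMap_isUnit (S := R₂) (r₁ h')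
  let ψ : Localization.Away h' →ₐ[R₁'] R₂' := IsLocalization.Away.liftAlgHom h' hu
  have hψ : ∀ a, ψ (algebraMap R₁' _ a) = φ' a := ψ.commutes
  have hb : Bijective (ψ.restrictScalars A).toLinearMap := by
    refine GAlg_bij _ (fun z => ?_) fun x hx => ?_
    · obtain ⟨n, a, e⟩ := IsLocalization.Away.surj (r₁ h') (r₂ z)
      obtain ⟨a, rfl⟩ := h₁ a
      obtain ⟨v, hv⟩ := (IsLocalization.Away.algebraMap_pow_isUnit
        (S := Localization.Away h') h' n).exists_right_inv
      refine ⟨algebraMap R₁' _ a * v, GAlg_mem ?_⟩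
      have e1 : z * φ' h' ^ n - φ' a ∈ (maximalIdeal A).map (algebraMap A R₂') := by
        rw [← hk₂, RingHom.mem_ker, map_sub, map_mul, map_pow, hc, hc, sub_eq_zero]
        exact e
      have e2 := congrArg ψ hv
      rw [map_mul, map_pow, hψ, map_one] at e2
      have e3 := Ideal.mul_mem_right (ψ v) _ e1
      rw [sub_mul, mul_assoc, e2, mul_one, ← hψ, ← map_mul] at e3
      exact e3
    · obtain ⟨n, a, e⟩ := IsLocalization.Away.surj h' x
      have e1 : φ' a = 0 := by
        have hx' : ψ x = 0 := hx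
        rw [← hψ, ← e, map_mul, hx', zero_mul]
      have e2 : algebraMap R₁ R₂ (r₁ a) = algebraMap R₁ R₂ 0 := by
        rw [map_zero]
        exact (hc a).symm.trans (by rw [e1, map_zero])
      obtain ⟨j, hj⟩ := IsLocalization.Away.exists_of_eq (r₁ h') e2
      have e3 : h' ^ j * a ∈ (maximalIdeal A).map (algebraMap A R₁') := by
        rw [← hk₁, RingHom.mem_ker, map_mul, map_pow, hj, mul_zero]
      have e4 := Ideal.mem_map_of_mem (algebraMap R₁' (Localization.Away h')) e3
      rw [Ideal.map_map, ← IsScalarTower.algebraMap_eq, map_mul, map_pow, ← e,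
        Ideal.unit_mul_mem_iff_mem _ (IsLocalization.Away.algebraMap_pow_isUnit h' j),
        Ideal.mul_unit_mem_iff_mem _ (IsLocalization.Away.algebraMap_pow_isUnit h' n)] at e4
      exact GAlg_mem e4
  exact IsLocalization.isLocalization_of_algEquiv _ (AlgEquiv.ofBijective ψ hb)

/-- `R = R' ⊗_A k` -/
theorem pushout_of_ker (π : A →+* k) (hπ : Surjective π) {R' R : Type u} [CommRing R'] [CommRing R]
    (a : A →+* R') (b : k →+* R) (r : R' →+* R) (hr : Surjective r)
    (hk : RingHom.ker r = (maximalIdeal A).map a) (hc : ∀ x, r (a x) = b (π x)) :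
    IsPushout (CommRingCat.ofHom a) (CommRingCat.ofHom π) (CommRingCat.ofHom r)
      (CommRingCat.ofHom b) :=
  GAlg_pushout π hπ a b r hr hk hc

end Pool.Agent.MP_deef5c_ag.O
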