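import Pool.Agent.MP_deef5c_ag.O.GDefs

/-! Completions of discrete valuation rings containing their residue field. -/

open CategoryTheory AlgebraicGeometry IsLocalRing Function
open scoped Polynomial PowerSeries

namespace Pool.Agent.MP_deef5c_ag.O

universe u

variable {k K : Type u} [Field k] [Field K] [Algebra k K]

section Aux

open PowerSeries

variable {O : Type u} [CommRing O]

theorem GCp_dvd [IsDomain O] (s : k →+* O) {ϖ : O} (h0 : ϖ ≠ 0) (hu : ¬IsUnit ϖ) (n : ℕ) :
    ∀ P : k[X], ϖ ^ n ∣ P.eval₂ s ϖ → Polynomial.X ^ n ∣ P := by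
  induction n with
  | zero => simp
  | succ n ih =>
    intro P hP
    rw [← P.X_mul_divX_add, Polynomial.eval₂_add, Polynomial.eval₂_mul, Polynomial.eval₂_X,
      Polynomial.eval₂_C] at hP
    have hc : P.coeff 0 = 0 := by_contra fun hc => hu (isUnit_of_dvd_unit
      ((dvd_add_right (dvd_mul_right _ _)).1 ((dvd_pow_self ϖ n.succ_ne_zero).trans hP))
      ((Ne.isUnit hc).map s))
    rw [hc, map_zero, add_zero, pow_succ', mul_dvd_mul_iff_left h0] at hP
    rw [← P.X_mul_divX_add, hc, map_zero, add_zero, pow_succ']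
    exact mul_dvd_mul_left _ (ih _ hP)

theorem GCp_ext {g g' : k⟦X⟧} (h : ∀ n, X ^ n ∣ g - g') : g = g' := by
  ext n
  rw [← sub_eq_zero, ← map_sub]
  exact X_pow_dvd_iff.1 (h (n + 1)) n n.lt_succ_self

/-- `g` is the expansion of `y` -/
def GCpR (s : k →+* O) (ϖ y : O) (g : k⟦X⟧) : Prop :=
  ∀ n, ∃ P : k[X], ϖ ^ n ∣ y - P.eval₂ s ϖ ∧ X ^ n ∣ g - (P : k⟦X⟧)

theorem GCp_hom [IsDomain O] (s : k →+* O) {ϖ : O} (h0 : ϖ ≠ 0) (hu : ¬IsUnit ϖ)
    (hres : ∀ y, ∃ c z, y = s c + ϖ * z) :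
    ∃ φ : O →+* k⟦X⟧, (∀ c, φ (s c) = C c) ∧ φ ϖ = X := by
  choose c z hz using hres
  have hG : ∀ y, GCpR s ϖ y (mk fun n => c (z^[n] y)) := fun y n => by
    induction n generalizing y with
    | zero => exact ⟨0, by simp, by simp⟩
    | succ n ih =>
      obtain ⟨P, h1, h2⟩ := ih (z y)
      refine ⟨Polynomial.X * P + Polynomial.C (c y), ?_, ?_⟩
      · rw [Polynomial.eval₂_add, Polynomial.eval₂_mul, Polynomial.eval₂_X, Polynomial.eval₂_C,
          pow_succ']
        convert mul_dvd_mul_left ϖ h1 using 1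
        linear_combination hz y
      · rw [eq_X_mul_shift_add_const (mk _), pow_succ']
        convert mul_dvd_mul_left X h2 using 1
        simp [mul_sub, ← coeff_zero_eq_constantCoeff_apply]
  have hU : ∀ {y g}, GCpR s ϖ y g → (mk fun n => c (z^[n] y)) = g := fun {y g} h =>
    GCp_ext fun n => by
      obtain ⟨P, h1, h2⟩ := hG y n
      obtain ⟨Q, h3, h4⟩ := h n
      have h5 := GCp_dvd s h0 hu n (P - Q) (by
        rw [Polynomial.eval₂_sub]
        convert dvd_sub h3 h1 using 1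
        ring)
      have h6 := map_dvd (Polynomial.coeToPowerSeries.ringHom (R := k)) h5
      simp only [map_pow, map_sub, Polynomial.coeToPowerSeries.ringHom_apply,
        Polynomial.coe_X] at h6
      convert dvd_add (dvd_sub h2 h4) h6 using 1
      ring
  refine ⟨{ toFun := fun y => mk fun n => c (z^[n] y)
            map_one' := hU fun n => ⟨1, by simp, by simp⟩
            map_zero' := hU fun n => ⟨0, by simp, by simp⟩
            map_mul' := fun a b => hU fun n => ?_
            map_add' := fun a b => hU fun n => ?_ },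
    fun a => hU fun n => ⟨Polynomial.C a, by simp, by simp⟩,
    hU fun n => ⟨Polynomial.X, by simp, by simp⟩⟩
  · obtain ⟨P, h1, h2⟩ := hG a n
    obtain ⟨Q, h3, h4⟩ := hG b n
    refine ⟨P * Q, ?_, ?_⟩
    · rw [Polynomial.eval₂_mul]
      convert dvd_add (h1.mul_right b) (h3.mul_left (P.eval₂ s ϖ)) using 1
      ring
    · rw [Polynomial.coe_mul]
      convert dvd_add (h2.mul_right (mk fun n => c (z^[n] b))) (h4.mul_left P) using 1
      ring
  · obtain ⟨P, h1, h2⟩ := hG a n
    obtain ⟨Q, h3, h4⟩ := hG b n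
    refine ⟨P + Q, ?_, ?_⟩
    · rw [Polynomial.eval₂_add]
      convert dvd_add h1 h3 using 1
      ring
    · rw [Polynomial.coe_add]
      convert dvd_add h2 h4 using 1
      ring

theorem GCp_C (c : k) : lc k (C c) = algebraMap k (LaurentSeries k) c := by
  rw [LaurentSeries.algebraMap_apply]
  exact PowerSeries.coe_C c

theorem GCp_X : vv k (lc k X) < 1 := by
  rw [(vv_lc_eq (d := 1)).2 order_X, ← WithZero.exp_zero, WithZero.exp_lt_exp]
  simp

theorem GCp_key {O : Subring K} {j : K →+* LaurentSeries k} {t : K} (h : CP O j t)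
    (T : K →+* K) (hk : ∀ c, T (algebraMap k K c) = algebraMap k K c) (hO : ∀ b ∈ O, T b ∈ O)
    {a : k⟦X⟧} (ha : lc k a = j (T t)) (h0 : constantCoeff a = 0) {b : K} {g : k⟦X⟧}
    (hb : j b = lc k g) : j (T b) = lc k (sub a g) := by
  have hm : constantCoeff a ∈ maximalIdeal k := h0 ▸ zero_mem _
  have hX : lc k X ≠ 0 := Lau_ne X_ne_zero
  have ht : t ≠ 0 := fun e => hX (by rw [← h.uni, e, map_zero])
  have he : ∀ {b g}, j b = lc k g → ∃ g', lc k g' = j (T b) := fun hb =>
    exists_lc_of_le ((h.mem _).1 (hO _ ((h.mem _).2 (hb ▸ vv_lc_le _))))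
  obtain ⟨g', hg'⟩ := he hb
  rw [← hg']
  refine congrArg _ (GCp_ext fun n => ?_)
  induction n generalizing b g g' with
  | zero => simp
  | succ n ih =>
    have e := eq_X_mul_shift_add_const g
    generalize (mk fun p => coeff (p + 1) g) = g₁ at e
    generalize constantCoeff g = c at e
    have h1 : j ((b - algebraMap k K c) / t) = lc k g₁ := by
      rw [map_div₀, map_sub, hb, h.alg, h.uni, e, map_add, GCp_C, add_sub_cancel_right, map_mul,
        mul_div_cancel_left₀ _ hX]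
    obtain ⟨g₁', h2⟩ := he h1
    have h3 : g' = a * g₁' + C c := HahnSeries.ofPowerSeries_injective (Γ := ℤ) (by
      change lc k _ = lc k _
      rw [map_add, map_mul, hg', h2, ha, GCp_C, ← h.alg, ← map_mul, ← map_mul,
        mul_div_cancel₀ _ ht, map_sub, hk, ← map_add, sub_add_cancel])
    rw [h3, e, map_add, map_mul, sub_X hm, Base_en_C, add_sub_add_right_eq_sub, ← mul_sub,
      pow_succ']
    exact mul_dvd_mul (X_dvd_iff.2 h0) (ih h1 _ h2)

end Aux

/-- `k[X] / X^n → O / m^n`, `X ↦ t`, is bijective; the inverses are compatible and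
`IsAdicComplete.liftRingHom` gives `j₀ : O → k⟦X⟧` (or construct the coefficients recursively).  It is
injective, extends to `K`, and `b = t^a u` lies in `O` iff `a ≥ 0`. -/
theorem exists_cp {O : Type u} [CommRing O] [IsDomain O] [IsDiscreteValuationRing O] [Algebra O K]
    [IsFractionRing O K] (s : k →+* O) (hs : ∀ c, algebraMap O K (s c) = algebraMap k K c)
    (hres : ∀ y : O, ∃ c, y - s c ∈ maximalIdeal O) :
    ∃ (j : K →+* LaurentSeries k) (t : K), CP (algebraMap O K).range j t := by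
  obtain ⟨ϖ, hϖ⟩ := IsDiscreteValuationRing.exists_irreducible O
  have hm : ∀ y, y ∈ maximalIdeal O ↔ ϖ ∣ y := fun y => by
    rw [hϖ.maximalIdeal_eq, Ideal.mem_span_singleton]
  obtain ⟨φ, h1, h2⟩ := GCp_hom s hϖ.ne_zero hϖ.not_isUnit fun y => by
    obtain ⟨c, hc⟩ := hres y
    obtain ⟨z, hz⟩ := (hm _).1 hc
    exact ⟨c, z, by rw [← hz, add_sub_cancel]⟩
  have hi : Injective ((lc k).comp φ) := (injective_iff_map_eq_zero _).2 fun y hy => by
    by_contra h0
    obtain ⟨n, u, rfl⟩ := IsDiscreteValuationRing.eq_unit_mul_pow_irreducible h0 hϖ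
    refine Lau_ne ?_ hy
    rw [map_mul, map_pow, h2]
    exact mul_ne_zero (u.isUnit.map φ).ne_zero (pow_ne_zero _ PowerSeries.X_ne_zero)
  have hj : ∀ y, IsFractionRing.lift (K := K) hi (algebraMap O K y) = lc k (φ y) := fun y =>
    IsFractionRing.lift_algebraMap hi y
  refine ⟨IsFractionRing.lift hi, algebraMap O K ϖ, fun c => by rw [← hs, hj, h1, GCp_C],
    fun b => ⟨?_, fun hb => ?_⟩, by rw [hj, h2]⟩
  · rintro ⟨y, rfl⟩
    exact hj y ▸ vv_lc_le _
  rcases ValuationRing.isInteger_or_isInteger O b with h | ⟨y, hy⟩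
  · exact h
  by_cases hu : IsUnit y
  · obtain ⟨u, rfl⟩ := hu
    exact ⟨↑u⁻¹, by rw [map_units_inv, hy, inv_inv]⟩
  by_cases hb0 : b = 0
  · exact hb0 ▸ zero_mem _
  obtain ⟨z, rfl⟩ := (hm y).1 hu
  have e := congrArg (fun x => vv k (IsFractionRing.lift (K := K) hi (x * b))) hy
  simp only [inv_mul_cancel₀ hb0, map_one, map_mul, hj, h2] at e
  exact absurd e (mul_lt_one_of_lt_of_le (mul_lt_one_of_lt_of_le GCp_X (vv_lc_le _)) hb).ne

/-- Let `lc (a h) = j (T h⁻¹ t)`, with zero constant term since `T h⁻¹` preserves non-units of `O`, and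
`ρx h = sub (a h)`.  If `j b = lc g`, write `g = poly + X^N g₁`, `b = poly(t) + t^N b₁` with `b₁ ∈ O`; then
`j (T h⁻¹ b) ≡ sub (a h) g mod X^N`.  Multiplicativity by `en_ext`. -/
theorem exists_la {O : Subring K} {j : K →+* LaurentSeries k} {t : K} (C : CP O j t)
    {H : Type*} [Group H] (T : H → K →+* K) (hT : RA fun g b => T g b)
    (hk : ∀ g c, T g (algebraMap k K c) = algebraMap k K c) (hO : ∀ h, ∀ b ∈ O, T h b ∈ O)
    (hfaith : ∀ h, (∀ b, T h b = b) → h = 1) :
    ∃ ρx : H →* (k⟦X⟧ ≃ₐ[k] k⟦X⟧), LA T j ρx := by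
  have hX : lc k PowerSeries.X ≠ 0 := Lau_ne PowerSeries.X_ne_zero
  have ht : t ∈ O := (C.mem t).2 (C.uni ▸ vv_lc_le _)
  choose a ha using fun h : H => exists_lc_of_le ((C.mem _).1 (hO h⁻¹ t ht))
  have h0 : ∀ h, PowerSeries.constantCoeff (a h) = 0 := fun h => by_contra fun hc => by
    obtain ⟨u, hu⟩ := PowerSeries.isUnit_iff_constantCoeff.2 (Ne.isUnit hc)
    have h1 := hO h _ ((C.mem (T h⁻¹ t)⁻¹).2 (by
      rw [map_inv₀, ← ha, ← hu, ← map_units_inv]
      exact vv_lc_le _))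
    rw [map_inv₀, ← hT.mul, inv_mul_cancel, hT.one, C.mem, map_inv₀, C.uni, map_inv₀,
      inv_le_one₀ (zero_lt_iff.2 ((map_ne_zero _).2 hX))] at h1
    exact h1.not_gt GCp_X
  have hm : ∀ h, PowerSeries.constantCoeff (a h) ∈ maximalIdeal k := fun h => h0 h ▸ zero_mem _
  have key : ∀ h {b g}, j b = lc k g → j (T h⁻¹ b) = lc k (sub (a h) g) := fun h _ _ hb =>
    GCp_key C _ (hk _) (hO _) (ha h) (h0 h) hb
  have hi : Injective (lc k) := HahnSeries.ofPowerSeries_injective
  let ρ : H →* En k :=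
    { toFun := fun h => sub (a h)
      map_one' := en_ext (hi (by rw [sub_X (hm 1), ha, inv_one, hT.one, C.uni, AlgHom.one_apply]))
        (by rw [sub_X (hm 1)]; exact hm 1)
      map_mul' := fun g h => en_ext (hi (by
        rw [sub_X (hm _), ha, mul_inv_rev, hT.mul, key g (ha h).symm, AlgHom.mul_apply,
          sub_X (hm h)])) (by rw [sub_X (hm _)]; exact hm _) }
  refine ⟨(AlgEquiv.algHomUnitsEquiv k k⟦X⟧).toMonoidHom.comp ρ.toHomUnits,
    (injective_iff_map_eq_one _).2 fun h e => inv_eq_one.1 (hfaith _ fun b => ?_),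
    fun h _ _ hb => key h hb⟩
  have h1 : ∀ b, vv k (j b) ≤ 1 → T h⁻¹ b = b := fun b hb => by
    obtain ⟨g, hg⟩ := exists_lc_of_le hb
    have e' : sub (a h) g = g := DFunLike.congr_fun e g
    exact j.injective (by rw [key h hg.symm, e', hg])
  rcases le_total (vv k (j b)) 1 with hb | hb
  · exact h1 b hb
  · have h2 := h1 b⁻¹ (by rw [map_inv₀, map_inv₀]; exact inv_le_one_of_one_le₀ hb)
    rwa [map_inv₀, inv_inj] at h2

end Pool.Agent.MP_deef5c_ag.O
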