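import Pool.Agent.MP_deef5c_ag.O.ThreeOne
import Pool.Agent.MP_deef5c_ag.O.GDefs

/-! Lifting local actions to finite extensions of the Witt vectors. -/

open PowerSeries IsLocalRing Finset Function
open scoped Polynomial

namespace Pool.Agent.MP_deef5c_ag.O

universe u

variable {k : Type u} [Field k] (p : ℕ) [Fact p.Prime] [CharP k p] {G : Type*} [Group G] [Finite G]

theorem main_fin [IsAlgClosed k] {n m α : ℕ} {ζ : k} {σ : En k} (S : Sp p n m α ζ σ) :
    ∃ (O : Type u) (_ : CommRing O) (_ : IsLocalRing O) (_ : CL O) (_ : Algebra (WittVector p k) O)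
      (π : O →+* k) (z : O) (σO : En O), FW p π ∧
      Surjective π ∧ z ^ m = 1 ∧ π z = ζ ∧ PowerSeries.map π (σO X) = σ X ∧ Rel (p ^ n) α z σO := by
  have hσ0 : constantCoeff (σ X) = 0 := by
    have := order_one (pow_pos (Fact.out : p.Prime).pos n) S.pow
    exact coeff_zero_eq_constantCoeff_apply (σ X) ▸ coeff_of_lt_order 0 (by rw [this]; norm_num)
  obtain ⟨R, _, _, _, _, _, π, z, σR, hπ, hp, hz, hπz, hs, hr⟩ :
      ∃ (R : Type u) (_ : CommRing R) (_ : IsDomain R) (_ : IsLocalRing R) (_ : CL R)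
      (_ : Algebra (WittVector p k) R) (π : R →+* k) (z : R) (σR : En R),
      (∀ w, π (algebraMap (WittVector p k) R w) = w.coeff 0) ∧ (p : R) ≠ 0 ∧ z ^ m = 1 ∧ π z = ζ ∧
      PowerSeries.map π (σR X) = σ X ∧ Rel (p ^ n) α z σR := by
    rcases Nat.eq_zero_or_pos n with rfl | hn
    · have h1 : σ = 1 := by simpa using S.pow
      refine ⟨WittVector p k, _, inferInstance, inferInstance, (witt_cl p k).1, inferInstance,
        WittVector.constantCoeff, WittVector.teichmuller p ζ, 1, fun w => rfl,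
        WittVector.p_nonzero p k, by rw [← map_pow, S.prim.pow_eq_one, map_one], rfl,
        by simp [h1], by simp [Rel]⟩
    · obtain ⟨R, _, _, _, _, _, π, z, s, hπ, hp, hz, hπz, hs, hr⟩ := exists_dom S hn
      have hsj : Surjective π := fun c => ⟨_, (hπ (WittVector.teichmuller p c)).trans rfl⟩
      refine ⟨R, _, ‹_›, ‹_›, ‹_›, ‹_›, π, z, sub s, hπ, hp, hz, hπz, ?_, hr⟩
      rw [sub_X ((pi_eq_zero_iff π hsj _).1 (by
        rw [← hσ0, ← hs, ← coeff_zero_eq_constantCoeff_apply, ← coeff_zero_eq_constantCoeff_apply,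
          coeff_map])), hs]
  have hsj : Surjective π := fun c => ⟨_, (hπ (WittVector.teichmuller p c)).trans rfl⟩
  obtain ⟨Q, hQ, hpQ, hfin⟩ := exists_fin_quot p k R π hπ hp
  have := local_quot Q hQ.ne_top
  obtain ⟨π', -, h1⟩ := exists_pi_quot π hsj Q hQ.ne_top
  have : CL (R ⧸ Q) := CL.of_surj (Ideal.Quotient.mk Q) Ideal.Quotient.mk_surjective
  let ψ : R →+* R ⧸ Q := Ideal.Quotient.mk Q
  have hψ : ∀ a, π' (ψ a) = π a := h1
  have hO : Surjective π' := fun c => by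
    obtain ⟨a, rfl⟩ := hsj c
    exact ⟨ψ a, hψ a⟩
  have h3 : PowerSeries.map π' (PowerSeries.map ψ (σR X)) = σ X := by
    rw [← hs]
    ext i
    simp [hψ]
  have hm : constantCoeff (PowerSeries.map ψ (σR X)) ∈ maximalIdeal (R ⧸ Q) :=
    (pi_eq_zero_iff π' hO _).1 (by
      rw [← hσ0, ← h3, ← coeff_zero_eq_constantCoeff_apply, ← coeff_zero_eq_constantCoeff_apply,
        coeff_map π'])
  exact ⟨R ⧸ Q, _, ‹_›, ‹_›, inferInstance, π', ψ z, _,
    ⟨inferInstance, hfin, fun w => by rw [← hπ, ← h1]; rfl,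
      fun h => hpQ (by rwa [← Ideal.Quotient.eq_zero_iff_mem, map_natCast])⟩, hO,
    by rw [← map_pow, hz, map_one], by rw [hψ, hπz], by rw [sub_X hm, h3], hr.map ψ hm⟩

theorem three_one' [IsAlgClosed k] (hG : ∀ P : Sylow p G, IsCyclic P)
    (ρ : G →* (k⟦X⟧ ≃ₐ[k] k⟦X⟧)) (hρ : Injective ρ) (h : LC p ρ) :
    ∃ (O : Type u) (_ : CommRing O) (_ : IsLocalRing O) (_ : Algebra (WittVector p k) O)
      (π : O →+* k), FW p π ∧ LocLifts ρ π := by
  obtain ⟨⟨σ₀, hσ₀⟩, H⟩ := grp p hG ρ hρ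
  obtain ⟨τ₀, α, hτm, hrel, hprim, hgen, hcyc⟩ := H σ₀ hσ₀
  have hm : 0 < ordCompl[p] (Nat.card G) := Nat.ordCompl_pos p Nat.card_pos.ne'
  replace h := h.imp_right fun h => h σ₀ hσ₀
  generalize ordCompl[p] (Nat.card G) = m at *
  generalize (Nat.card G).factorization p = n at *
  have hq : 0 < p ^ n := pow_pos (Fact.out : p.Prime).pos n
  have hσq : σ₀ ^ p ^ n = 1 := hσ₀ ▸ pow_orderOf_eq_one σ₀
  let r : G →* En k := (Units.coeHom _).comp
    ((AlgEquiv.algHomUnitsEquiv k k⟦X⟧).symm.toMonoidHom.comp ρ)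
  have hr : ∀ g f, r g f = ρ g f := fun _ _ => rfl
  obtain ⟨Φ, Ψ, h1, h2, hΦ, hlin⟩ := lin (τ := r τ₀) hm (by rw [← map_pow, hτm, map_one]) hprim
  rw [hr] at hlin
  generalize coeff 1 (ρ τ₀ X) = ζ at *
  have h1' : ∀ f, Φ (Ψ f) = f := fun f => DFunLike.congr_fun h1 f
  have h2' : ∀ f, Ψ (Φ f) = f := fun f => DFunLike.congr_fun h2 f
  let c : G →* En k :=
    { toFun := fun g => Ψ * r g * Φ
      map_one' := by rw [map_one, mul_one, h2]
      map_mul' := fun a b => by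
        rw [map_mul]
        exact AlgHom.ext fun f => by simp only [AlgHom.mul_apply, h1'] }
  have hc : ∀ g f, c g f = Ψ (ρ g (Φ f)) := fun _ _ => rfl
  have hci : Injective c := fun a b e => hρ (AlgEquiv.ext fun f => by
    have := congrArg Φ (DFunLike.congr_fun e (Ψ f))
    simpa only [hc, h1'] using this)
  have hcτ : c τ₀ = tau ζ := by
    change Ψ * r τ₀ * Φ = _
    rw [mul_assoc, hlin, ← mul_assoc, h2, one_mul]
  have hcq : ∀ i, (c σ₀ ^ i) ^ p ^ n = 1 := fun i => by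
    rw [← pow_mul, mul_comm, pow_mul, ← map_pow, hσq, map_one, one_pow]
  have hc1 : c σ₀ ^ p ^ n = 1 := by simpa using hcq 1
  have hcrel : tau ζ * c σ₀ = c σ₀ ^ α * tau ζ := by
    rw [← hcτ, ← map_pow, ← map_mul, ← map_mul, hrel]
  have hτ0 : ∀ a : k, constantCoeff (tau a X) = 0 := fun a => by simp [tau_X]
  have hτ1 : ∀ a : k, coeff 1 (tau a X) = a := fun a => by simp [tau_X]
  have S : Sp p n m α ζ (c σ₀) := by
    refine ⟨(orderOf_injective c hci σ₀).trans hσ₀, hm, hprim, hcrel, ?_⟩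
    by_cases hcy : IsCyclic G
    · exact Or.inl (by rw [hcyc hcy, Nat.cast_one])
    have hne : c σ₀ ≠ 1 := fun e => hcy ⟨τ₀, fun g => by
      obtain ⟨i, j, rfl⟩ := hgen g
      exact ⟨j, by simp [(map_eq_one_iff c hci).1 e]⟩⟩
    obtain ⟨l, hl, ho⟩ := exists_jump p n hc1 hne
    have h3 := lead hl ho (hτ0 ζ) hcrel
    have h4 := h.resolve_left hcy
    rw [← hr, ← order_conj h1 h2 hΦ (Lau_cc one_pos
      (order_one hq (by rw [← map_pow, hσq, map_one])))] at h4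
    rw [hτ1, (hprim.pow_eq_one_iff_dvd _).2 (ThreeOne_dvd hm (ho ▸ h4))] at h3
    have h5 : (α : k) ^ p ^ n = α := map_natCast (iterateFrobenius k p n) α
    exact Or.inr (by rw [← h5, ← mul_pow, ← h3, one_pow])
  obtain ⟨O, _, _, _, _, π, z, σO, hfw, hπ, hz, hπz, hσO, hR⟩ := main_fin p S
  have hΦ0 := Lau_cc one_pos hΦ
  obtain ⟨t, ht⟩ := PowerSeries.map_surjective π hπ (Φ X)
  have ht' : PowerSeries.map π (sub t X) = Φ X := by
    rw [sub_X ((pi_eq_zero_iff π hπ _).1 (by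
      rw [← hΦ0, ← ht, ← coeff_zero_eq_constantCoeff_apply, ← coeff_zero_eq_constantCoeff_apply,
        coeff_map])), ht]
  obtain ⟨Ψ', g1, g2⟩ := exists_inv π hπ (sub t) (by rw [ht', hΦ])
  have g3 := map_en π (sub t) Φ ht' (by simp [hΦ0])
  obtain ⟨φ, hφσ, hφτ⟩ := hom_of_rel σ₀ τ₀ (Units.ofPowEqOne σO _ hR.1 hq.ne')
    (Units.ofPowEqOne (tau z) m (by rw [tau_pow, hz, tau_one]) hm.ne') (p ^ n) m α hq hm hσq hτm
    (Units.pow_ofPowEqOne _ _) (Units.pow_ofPowEqOne _ _) hrel (Units.ext hR.2) hgen fun i j e => by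
      have e1 := congrArg (fun g => coeff 1 (c g X)) e
      simp only [map_mul, map_pow, map_one, hcτ, tau_pow] at e1
      rw [coeff_one_mul (Lau_cc one_pos (order_one hq (hcq i))) (hτ0 _), ThreeOne_one p n (hcq i),
        hτ1, one_mul, AlgHom.one_apply, coeff_one_X, hprim.pow_eq_one_iff_dvd] at e1
      obtain ⟨j', rfl⟩ := e1
      rw [pow_mul, hτm, one_pow, mul_one] at e
      exact ⟨hσ₀ ▸ orderOf_dvd_of_pow_eq_one e, dvd_mul_right _ _⟩
  have hφ : ∀ g f, PowerSeries.map π ((φ g : En O) f) = c g (PowerSeries.map π f) := fun g f => by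
    obtain ⟨i, j, rfl⟩ := hgen g
    simp only [map_mul, map_pow, hφσ, hφτ, hcτ, Units.val_mul, Units.val_pow_eq_pow_val,
      Units.val_ofPowEqOne, AlgHom.mul_apply, tau_pow]
    rw [map_en_pow π σO (c σ₀) hσO (by simp [Lau_cc one_pos (order_one hq hc1)]), map_tau, map_pow,
      hπz]
  refine ⟨O, _, ‹_›, ‹_›, π, hfw, (AlgEquiv.algHomUnitsEquiv O O⟦X⟧).toMonoidHom.comp
    ((MulAut.conj (⟨sub t, Ψ', g1, g2⟩ : (En O)ˣ)).toMonoidHom.comp φ), fun g f => ?_⟩
  change PowerSeries.map π (sub t ((φ g : En O) (Ψ' f))) = _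
  rw [g3, hφ, hc, h1', ← g3]
  exact congrArg (fun x => ρ g (PowerSeries.map π x)) (DFunLike.congr_fun g1 f)

end Pool.Agent.MP_deef5c_ag.O
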