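import Pool.Agent.MP_deef5c_ag.O.GDefs

/-! The action on the function field. -/

open CategoryTheory AlgebraicGeometry IsLocalRing Function
open scoped Polynomial PowerSeries

namespace Pool.Agent.MP_deef5c_ag.O

universe u

variable {k : Type u} [Field k] {X : Scheme.{u}} [IsIntegral X] (f : X ⟶ Spec (.of k))

theorem fT_ra {G : Type*} [Group G] (ρ : G →* Aut X) : RA fun g b => fT (ρ g) b := by
  refine ⟨fun b => ?_, fun g h b => ?_⟩
  · exact congrArg (fun φ => φ.hom b) (locMap_id _ (genericPoint X) (aut_generic (ρ 1))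
      (by rw [map_one]; rfl))
  · exact congrArg (fun φ => φ.hom b) (locMap_comp _ _ _ (genericPoint X) (aut_generic (ρ g))
      (aut_generic (ρ h)) (aut_generic (ρ (g * h))) (by rw [map_mul]; rfl))

theorem fT_fa (e : Aut X) (he : e.hom ≫ f = f) (c : k) : fT e (fa f c) = fa f c := by
  exact congrArg (fun φ => φ.hom c) (strMap_locMap f (genericPoint X) e.hom (aut_generic e) he)

/-- naturality of stalk maps under specialisation (`Scheme.Hom.stalkSpecializes_stalkMap`) -/
theorem fT_stalk (e : Aut X) (x : X) (y : X.presheaf.stalk (e.hom x)) :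
    fT e (algebraMap _ X.functionField y) =
      algebraMap _ X.functionField ((e.hom.stalkMap x).hom y) := by
  have h : X.presheaf.stalkSpecializes (genericPoint_specializes (e.hom x)) ≫
      locMap e.hom (genericPoint X) (aut_generic e) =
      e.hom.stalkMap x ≫ X.presheaf.stalkSpecializes (genericPoint_specializes x) := by
    apply stalk_ext
    rw [Spec.map_comp, Spec.map_comp, Category.assoc, Category.assoc,
      Scheme.SpecMap_stalkSpecializes_fromSpecStalk, spec_locMap,
      Scheme.SpecMap_stalkMap_fromSpecStalk, Scheme.SpecMap_stalkSpecializes_fromSpecStalk_assoc]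
  exact congrArg (fun φ => φ.hom y) h

theorem fT_mem (e : Aut X) (x : X) (b : X.functionField) : b ∈ Ox (e.hom x) ↔ fT e b ∈ Ox x := by
  constructor
  · rintro ⟨y, rfl⟩
    exact ⟨_, (fT_stalk e x y).symm⟩
  · rintro ⟨z, hz⟩
    obtain ⟨y, rfl⟩ := (ConcreteCategory.bijective_of_isIso (e.hom.stalkMap x)).2 z
    exact ⟨y, (fT e).injective ((fT_stalk e x y).trans hz)⟩

theorem fT_locMap (e : Aut X) (x : X) (h : e.hom x = x) (y : X.presheaf.stalk x) :
    fT e (algebraMap _ X.functionField y) =
      algebraMap _ X.functionField ((locMap e.hom x h).hom y) := by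
  have h : X.presheaf.stalkSpecializes (genericPoint_specializes x) ≫
      locMap e.hom (genericPoint X) (aut_generic e) =
      locMap e.hom x h ≫ X.presheaf.stalkSpecializes (genericPoint_specializes x) := by
    apply stalk_ext
    rw [Spec.map_comp, Spec.map_comp, Category.assoc, Category.assoc,
      Scheme.SpecMap_stalkSpecializes_fromSpecStalk, spec_locMap, spec_locMap,
      Scheme.SpecMap_stalkSpecializes_fromSpecStalk_assoc]
  exact congrArg (fun φ => φ.hom y) h

theorem fT_germ (e : Aut X) (U V : X.Opens) [Nonempty U] [Nonempty V] (h : V ≤ e.hom ⁻¹ᵁ U)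
    (s : Γ(X, U)) : fT e ((X.germToFunctionField U).hom s) =
      (X.germToFunctionField V).hom ((e.hom.appLE U V h).hom s) := by
  obtain ⟨⟨x, hx⟩⟩ := id ‹Nonempty V›
  have hx' : e.hom x ∈ U := h hx
  rw [← Scheme.algebraMap_germ_eq_germToFunctionField X hx' s, fT_stalk,
    ← Scheme.algebraMap_germ_eq_germToFunctionField X hx, Scheme.Hom.germ_stalkMap_apply,
    Scheme.Hom.appLE, CommRingCat.hom_comp, RingHom.comp_apply, TopCat.Presheaf.germ_res_apply]

theorem fa_germ (U : X.Opens) [Nonempty U] (c : k) : fa f c = (X.germToFunctionField U).hom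
    ((f.appLE ⊤ U le_top).hom ((Scheme.ΓSpecIso (.of k)).inv.hom c)) := by
  have h1 : strMap f (genericPoint X) = (Scheme.ΓSpecIso (.of k)).inv ≫
      (Spec (.of k)).presheaf.germ ⊤ (f (genericPoint X)) trivial ≫
        f.stalkMap (genericPoint X) := by
    apply Spec.map_injective
    rw [spec_strMap, ← Category.assoc, Spec.map_comp, ← Spec.fromSpecStalk_eq,
      Scheme.SpecMap_stalkMap_fromSpecStalk]
  rw [fa, h1, CommRingCat.hom_comp, RingHom.comp_apply, CommRingCat.hom_comp, RingHom.comp_apply,
    Scheme.Hom.germ_stalkMap_apply, Scheme.Hom.appLE, CommRingCat.hom_comp, RingHom.comp_apply,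
    TopCat.Presheaf.germ_res_apply]

theorem fa_stalk (x : X) (c : k) :
    algebraMap _ X.functionField ((strMap f x).hom c) = fa f c := by
  have h : strMap f x ≫ X.presheaf.stalkSpecializes (genericPoint_specializes x) =
      strMap f (genericPoint X) := by
    apply Spec.map_injective
    rw [Spec.map_comp, spec_strMap, spec_strMap,
      Scheme.SpecMap_stalkSpecializes_fromSpecStalk_assoc]
  exact congrArg (fun φ => φ.hom c) h

/-- `eq_id_of_locMap` at the generic point -/
theorem fT_faithful [IsSeparated f] (e : Aut X) (he : e.hom ≫ f = f) (h : ∀ b, fT e b = b) :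
    e = 1 := by
  refine Iso.ext (eq_id_of_locMap f e.hom he (genericPoint X) (aut_generic e) ?_)
  ext b
  exact h b

/-- `Γ(X, U)` is the intersection of its localisations (`IsAffineOpen.isLocalization_stalk`,
`PrimeSpectrum.iInf_localization_eq_bot`) -/
theorem range_germ (U : X.Opens) (hU : IsAffineOpen U) [Nonempty U] (b : X.functionField) :
    (∃ s, (X.germToFunctionField U).hom s = b) ↔ ∀ x ∈ U, b ∈ Ox x := by
  constructor
  · rintro ⟨s, rfl⟩ x hx
    exact ⟨_, Scheme.algebraMap_germ_eq_germToFunctionField X hx s⟩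
  · intro h
    have hF := functionField_isFractionRing_of_isAffineOpen X U hU
    have h1 : b ∈ (⊥ : Subalgebra Γ(X, U) X.functionField) := by
      rw [← PrimeSpectrum.iInf_localization_eq_bot Γ(X, U) X.functionField, Algebra.mem_iInf]
      intro v
      have hv : hU.fromSpec v ∈ U := by
        have : hU.fromSpec v ∈ Set.range hU.fromSpec := Set.mem_range_self v
        rwa [hU.range_fromSpec] at this
      obtain ⟨y, rfl⟩ := h _ hv
      let _ : Algebra Γ(X, U) (X.presheaf.stalk (hU.fromSpec v)) :=
        TopCat.Presheaf.algebra_section_stalk X.presheaf ⟨hU.fromSpec v, hv⟩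
      have hL : IsLocalization v.asIdeal.primeCompl (X.presheaf.stalk (hU.fromSpec v)) :=
        hU.isLocalization_stalk' v hv
      obtain ⟨⟨a, s⟩, has⟩ := IsLocalization.surj v.asIdeal.primeCompl y
      have h2 := congrArg (algebraMap (X.presheaf.stalk (hU.fromSpec v)) X.functionField) has
      have h3 : ∀ r : Γ(X, U), algebraMap (X.presheaf.stalk (hU.fromSpec v)) X.functionField
          (algebraMap Γ(X, U) (X.presheaf.stalk (hU.fromSpec v)) r) =
          algebraMap Γ(X, U) X.functionField r := fun r =>
        Scheme.algebraMap_germ_eq_germToFunctionField X hv r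
      rw [map_mul, h3, h3] at h2
      have h4 : algebraMap Γ(X, U) X.functionField (s : Γ(X, U)) ≠ 0 :=
        IsFractionRing.to_map_ne_zero_of_mem_nonZeroDivisors
          (v.asIdeal.primeCompl_le_nonZeroDivisors s.2)
      exact ⟨a, s, s.2, by rw [← h2, mul_inv_cancel_right₀ h4]⟩
    exact Algebra.mem_bot.1 h1

end Pool.Agent.MP_deef5c_ag.O
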