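import Pool.Agent.MP_deef5c_ag.O.GDefs

/-! Laurent series over an Artinian local ring. -/

open CategoryTheory AlgebraicGeometry IsLocalRing Function
open scoped Polynomial PowerSeries

namespace Pool.Agent.MP_deef5c_ag.O

universe u

open PowerSeries

variable {k A : Type u} [Field k] [CommRing A] [IsLocalRing A] [IsArtinianRing A]

/-- power series as Laurent series -/
noncomputable def lcA (A : Type u) [CommRing A] : A⟦X⟧ →ₐ[A] LaurentSeries A :=
  { HahnSeries.ofPowerSeries ℤ A with commutes' := fun _ => rfl }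

omit [IsLocalRing A] [IsArtinianRing A] in
theorem GLau_unit : IsUnit (lcA A X) :=
  IsLocalization.map_units (LaurentSeries A) (⟨X, Submonoid.mem_powers _⟩ : Submonoid.powers X)

omit [IsLocalRing A] [IsArtinianRing A] in
theorem GLau_ex (z : LaurentSeries A) : ∃ (n : ℕ) (f : A⟦X⟧), z * lcA A X ^ n = lcA A f := by
  obtain ⟨⟨f, _, n, rfl⟩, h⟩ := IsLocalization.surj (Submonoid.powers (X : A⟦X⟧)) z
  exact ⟨n, f, by rw [← map_pow]; exact h⟩

omit [IsLocalRing A] [IsArtinianRing A] in
theorem GLau_lift {B : Type u} [CommRing B] (φ : A⟦X⟧ →+* B) (h : IsUnit (φ X)) :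
    ∃ r : LaurentSeries A →+* B, ∀ g, r (lcA A g) = φ g := by
  have h1 : ∀ y : Submonoid.powers (X : A⟦X⟧), IsUnit (φ y) := by
    rintro ⟨_, n, rfl⟩
    show IsUnit (φ (X ^ n))
    rw [map_pow]
    exact h.pow n
  exact ⟨IsLocalization.lift h1, fun g => IsLocalization.lift_eq h1 g⟩

omit [IsLocalRing A] in
theorem GLau_mem {J : Ideal A} {f : A⟦X⟧} (hf : ∀ a, coeff a f ∈ J) :
    lcA A f ∈ J.map (algebraMap A (LaurentSeries A)) := by
  obtain ⟨n, s, hs⟩ := Submodule.fg_iff_exists_fin_generating_family.1 (IsNoetherian.noetherian J)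
  have h1 : ∀ a, ∃ c : Fin n → A, ∑ i, c i • s i = coeff a f := fun a =>
    (Submodule.mem_span_range_iff_exists_fun A).1 (hs ▸ hf a)
  choose c hc using h1
  have h2 : f = ∑ i, algebraMap A _ (s i) * PowerSeries.mk fun a => c a i := by
    ext a
    rw [map_sum, ← hc a]
    exact Finset.sum_congr rfl fun i _ => by
      rw [← Algebra.smul_def, coeff_smul, coeff_mk, smul_eq_mul, smul_eq_mul, mul_comm]
  rw [h2, map_sum]
  refine sum_mem fun i _ => ?_
  rw [map_mul, AlgHom.commutes]
  exact Ideal.mul_mem_right _ _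
    (Ideal.mem_map_of_mem _ (hs ▸ Submodule.subset_span ⟨i, rfl⟩))

omit [IsLocalRing A] [IsArtinianRing A] in
theorem GLau_fin (z : LaurentSeries A) :
    (support fun n : ℕ => z.coeff (-(n : ℤ) - 1)).Finite := by
  refine (Set.finite_lt_nat z.order.natAbs).subset fun n hn => ?_
  have := HahnSeries.order_le_of_coeff_ne_zero (x := z) hn
  show n < _
  omega

/-- the coefficients of negative index -/
noncomputable def GLau_neg (A : Type u) [CommRing A] : LaurentSeries A →+ (ℕ →₀ A) where
  toFun z := Finsupp.ofSupportFinite _ (GLau_fin z)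
  map_zero' := Finsupp.ext fun _ => rfl
  map_add' _ _ := Finsupp.ext fun _ => HahnSeries.coeff_add

omit [IsLocalRing A] [IsArtinianRing A] in
theorem GLau_flat {L : Type u} [CommRing L] [Algebra A L] (S : Subalgebra A L)
    (φ : L →+ (ℕ →₀ A)) (h0 : ∀ a z, φ (algebraMap A L a * z) = a • φ z) (h1 : Surjective φ)
    (h2 : ∀ z, z ∈ S ↔ φ z = 0) : Module.Flat A (L ⧸ Subalgebra.toSubmodule S) := by
  let ψ : L →ₗ[A] (ℕ →₀ A) :=
    { φ with map_smul' := fun a z => (congrArg φ (Algebra.smul_def a z)).trans (h0 a z) }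
  have h3 : Subalgebra.toSubmodule S = LinearMap.ker ψ := Submodule.ext h2
  exact Module.Flat.of_linearEquiv
    ((Submodule.quotEquivOfEq _ _ h3).trans (ψ.quotKerEquivOfSurjective h1))

omit [IsLocalRing A] [IsArtinianRing A] in
theorem GLau_neg_apply (z : LaurentSeries A) (n : ℕ) :
    GLau_neg A z n = z.coeff (-(n : ℤ) - 1) := rfl

theorem GLau_order (e : k⟦X⟧ ≃ₐ[k] k⟦X⟧) : order (e X) = 1 := by
  have h0 : constantCoeff (e X) = 0 := by
    by_contra h
    have h1 : IsUnit (e X) := PowerSeries.isUnit_iff_constantCoeff.2 (isUnit_iff_ne_zero.2 h)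
    have h2 := PowerSeries.isUnit_iff_constantCoeff.1 (h1.map e.symm)
    simp at h2
  have h1 : e X ≠ 0 := (map_ne_zero_iff _ e.injective).2 X_ne_zero
  obtain ⟨d, hd⟩ := ENat.ne_top_iff_exists.1 (mt order_eq_top.1 h1)
  have h2 := one_le_order_iff_constCoeff_eq_zero.2 h0
  have h3 := order_en (e : En k) d (by rw [← hd] at h2; exact_mod_cast h2) hd.symm (e.symm X)
  have h4 : (e : En k) (e.symm X) = X := e.apply_symm_apply X
  rw [h4, order_X] at h3
  rw [← hd]
  exact (mul_eq_one.1 h3.symm).1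

/-- `LaurentSeries A` is the localisation away from `X` (`LaurentSeries.of_powerSeries_localization`);
`ker (map π) = m A⟦X⟧` as `m` is finitely generated -/
theorem exists_lred (π : A →+* k) (hπ : Surjective π) :
    ∃ r : LaurentSeries A →+* LaurentSeries k, Surjective r ∧
      RingHom.ker r = (maximalIdeal A).map (algebraMap A (LaurentSeries A)) ∧
      ∀ g, r (lcA A g) = lc k (PowerSeries.map π g) := by
  have hX : lc k X ≠ 0 := Lau_ne X_ne_zero
  obtain ⟨r, hr⟩ := GLau_lift ((lc k).comp (PowerSeries.map π)) (by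
    rw [RingHom.comp_apply, map_X]; exact isUnit_iff_ne_zero.2 hX)
  have hr' : ∀ g, r (lcA A g) = lc k (PowerSeries.map π g) := hr
  obtain ⟨u, hu⟩ := (GLau_unit (A := A)).exists_right_inv
  refine ⟨r, fun z => ?_, le_antisymm (fun z hz => ?_) ?_, hr'⟩
  · obtain ⟨n, f, h⟩ := Lau_ex z
    obtain ⟨g, rfl⟩ := PowerSeries.map_surjective π hπ f
    refine ⟨lcA A g * u ^ n, ?_⟩
    have h1 := congrArg r hu
    rw [map_mul, hr', map_X, map_one] at h1
    rw [map_mul, map_pow, hr', ← h, mul_assoc, ← mul_pow, h1, one_pow, mul_one]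
  · obtain ⟨n, f, h⟩ := GLau_ex z
    have h1 := congrArg r h
    rw [map_mul, RingHom.mem_ker.1 hz, zero_mul, hr'] at h1
    have h2 : PowerSeries.map π f = 0 := by
      by_contra h2
      exact Lau_ne h2 h1.symm
    have h3 : z = lcA A f * u ^ n := by rw [← h, mul_assoc, ← mul_pow, hu, one_pow, mul_one]
    rw [h3]
    refine Ideal.mul_mem_right _ _ (GLau_mem fun a => (pi_eq_zero_iff π hπ _).1 ?_)
    rw [← coeff_map, h2, map_zero]
  · rw [Ideal.map_le_iff_le_comap]
    intro a ha
    rw [Ideal.mem_comap, RingHom.mem_ker, ← (lcA A).commutes, hr', ← C_eq_algebraMap, map_C,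
      (pi_eq_zero_iff π hπ a).2 ha, map_zero, map_zero]

omit [IsLocalRing A] [IsArtinianRing A] in
/-- the quotient is free on the classes of the `X^(-n)`, `n > 0`: the map to the coefficients of
negative index is onto `ℕ →₀ A` with kernel the power series -/
theorem flat_lquot :
    Module.Flat A (LaurentSeries A ⧸ Subalgebra.toSubmodule (lcA A).range) := by
  have h1 : Surjective (GLau_neg A) := by
    intro f
    induction f using Finsupp.induction_linear with
    | zero => exact ⟨0, map_zero _⟩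
    | add f g hf hg =>
      obtain ⟨a, rfl⟩ := hf
      obtain ⟨b, rfl⟩ := hg
      exact ⟨a + b, map_add _ _ _⟩
    | single n a =>
      refine ⟨HahnSeries.single (-(n : ℤ) - 1) a, Finsupp.ext fun m => ?_⟩
      rw [GLau_neg_apply]
      by_cases h : m = n
      · rw [h, HahnSeries.coeff_single_same, Finsupp.single_eq_same]
      · rw [HahnSeries.coeff_single_of_ne (by omega), Finsupp.single_eq_of_ne h]
  refine GLau_flat _ (GLau_neg A) (fun a z => Finsupp.ext fun n => ?_) h1 fun z => ?_
  · have h : algebraMap A (LaurentSeries A) a = HahnSeries.C a := PowerSeries.coe_C a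
    rw [h, HahnSeries.C_mul_eq_smul]
    exact HahnSeries.coeff_smul
  · rw [Finsupp.ext_iff]
    constructor
    · rintro ⟨g, rfl⟩ n
      exact (PowerSeries.coeff_coe g _).trans (if_pos (by omega))
    · intro h
      refine ⟨PowerSeries.mk fun n => z.coeff n, HahnSeries.ext (funext fun i => ?_)⟩
      refine (PowerSeries.coeff_coe _ i).trans ?_
      split_ifs with hi
      · have := h (-i - 1).toNat
        rw [GLau_neg_apply, show -(((-i - 1).toNat : ℕ) : ℤ) - 1 = i by omega] at this
        exact this.symm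
      · rw [coeff_mk, show ((i.natAbs : ℕ) : ℤ) = i by omega]

omit [IsLocalRing A] [IsArtinianRing A] in
theorem lcA_injective : Injective (lcA A) := by
  exact HahnSeries.ofPowerSeries_injective

omit [IsLocalRing A] [IsArtinianRing A] in
/-- an endomorphism sending `X` to a unit of the Laurent series ring extends -/
theorem exists_lextA (φ : En A) (h : IsUnit (lcA A (φ X))) :
    ∃ ψ : LaurentSeries A →ₐ[A] LaurentSeries A, ∀ g, ψ (lcA A g) = lcA A (φ g) := by
  obtain ⟨r, hr⟩ := GLau_lift (((lcA A).comp φ : A⟦X⟧ →ₐ[A] LaurentSeries A) :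
    A⟦X⟧ →+* LaurentSeries A) h
  refine ⟨{ r with commutes' := fun a => ?_ }, hr⟩
  exact ((congrArg r ((lcA A).commutes a).symm).trans (hr _)).trans (((lcA A).comp φ).commutes a)

/-- group version of `qinv` -/
theorem ginv {H : Type*} [Group H] [Fintype H] (ρx : H →* (k⟦X⟧ ≃ₐ[k] k⟦X⟧)) (hρ : Injective ρx) :
    order (∏ h, ρx h X) = (Fintype.card H : ℕ) ∧
      ∀ g, (∀ h, ρx h g = g) → ∃ g₀, sub (∏ h, ρx h X) g₀ = g := by
  have hx : order (∏ h, ρx h X) = (Fintype.card H : ℕ) := by
    rw [order_prod]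
    simp only [GLau_order, Finset.sum_const, Finset.card_univ, nsmul_one]
  refine ⟨hx, fun f hf => ?_⟩
  obtain ⟨x, hxe⟩ : ∃ x, x = ∏ h, ρx h X := ⟨_, rfl⟩
  have hinv : ∀ h, ρx h x = x := fun h => by
    rw [hxe, map_prod]
    refine Fintype.prod_equiv (Equiv.mulLeft h) _ _ fun a => ?_
    rw [Equiv.coe_mulLeft, map_mul, AlgEquiv.mul_apply]
  rw [← hxe] at hx ⊢
  obtain ⟨d, hde⟩ : ∃ d, d = Fintype.card H := ⟨_, rfl⟩
  have hd : 0 < d := hde ▸ Fintype.card_pos
  rw [← hde] at hx
  have hm : constantCoeff x ∈ maximalIdeal k := by rw [Lau_cc hd hx]; exact zero_mem _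
  have hm1 : ∀ h, constantCoeff (ρx h X) ∈ maximalIdeal k := fun h => by
    rw [Lau_cc one_pos (GLau_order _)]; exact zero_mem _
  obtain ⟨g, hg⟩ := qspan (RingHom.id k) surjective_id x d hd (by simpa using hx) f
  have h3 : ∀ (h : H) (y : k⟦X⟧), ρx h (sub x y) = sub x y := fun h y => by
    have h0 : ((ρx h : En k) * sub x) X = x := by
      rw [AlgHom.mul_apply, sub_X hm]; exact hinv h
    exact DFunLike.congr_fun (en_ext (h0.trans (sub_X hm).symm) (by rwa [h0])) y
  have hP : (∑ i ∈ Finset.range d, Polynomial.monomial i (sub x (g i)) - Polynomial.C f :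
      k⟦X⟧[X]) = 0 := by
    refine Polynomial.eq_zero_of_natDegree_lt_card_of_eval_eq_zero _
      (f := fun h : H => ρx h X) (fun i j h => hρ (AlgEquiv.ext fun y => DFunLike.congr_fun
        (en_ext (φ := (ρx i : En k)) (ψ := (ρx j : En k)) h (hm1 i)) y)) (fun j => ?_) ?_
    · have h4 := hf j
      rw [hg, map_sum] at h4
      simp only [map_mul, map_pow, h3] at h4
      rw [Polynomial.eval_sub, Polynomial.eval_C, Polynomial.eval_finsetSum, sub_eq_zero, hg, ← h4]
      simp only [Polynomial.eval_monomial]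
    · rw [← hde]
      refine (Polynomial.natDegree_sub_le _ _).trans_lt (max_lt ?_ (by simpa using hd))
      refine lt_of_le_of_lt (Polynomial.natDegree_sum_le_of_forall_le (n := d - 1) _ _
        fun i hi => (Polynomial.natDegree_monomial_le _).trans ?_) (by omega)
      have := Finset.mem_range.mp hi
      omega
  have h5 := congrArg (fun P : k⟦X⟧[X] => P.coeff 0) hP
  refine ⟨g 0, sub_eq_zero.mp ?_⟩
  simpa [Polynomial.coeff_monomial, hd] using h5

end Pool.Agent.MP_deef5c_ag.O
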