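import Pool.Agent.MP_deef5c_ag.O.GFt
import Pool.Agent.MP_deef5c_ag.O.GCp

/-! Points of a smooth curve. -/

open CategoryTheory AlgebraicGeometry IsLocalRing Function
open scoped Polynomial PowerSeries

namespace Pool.Agent.MP_deef5c_ag.O

universe u

namespace GPt.Aux

/-- a Noetherian local domain with principal maximal ideal has dimension at most one -/
theorem dim_of_principal {O : Type u} [CommRing O] [IsDomain O] [IsLocalRing O] [IsNoetherianRing O]
    (hP : (maximalIdeal O).IsPrincipal) : Ring.DimensionLEOne O := by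
  by_cases hF : IsField O
  · refine ⟨fun {p} hp hp' => ?_⟩
    have h1 : p ≤ maximalIdeal O := IsLocalRing.le_maximalIdeal hp'.ne_top
    rw [IsLocalRing.isField_iff_maximalIdeal_eq.1 hF] at h1
    exact absurd (le_bot_iff.1 h1) hp
  · have hD : IsDiscreteValuationRing O := ((IsDiscreteValuationRing.TFAE O hF).out 0 4).2 hP
    infer_instance

/-- a nonzero prime contained in a prime with one-dimensional localisation is equal to it -/
theorem eq_of_loc {S O : Type u} [CommRing S] [IsDomain S] [CommRing O] [IsDomain O] [IsLocalRing O]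
    [Algebra S O] (m : Ideal S) [m.IsPrime] [IsLocalization.AtPrime O m] [Ring.DimensionLEOne O]
    (p : Ideal S) [hp : p.IsPrime] (hpm : p ≤ m) (hp0 : p ≠ ⊥) : p = m := by
  have hdisj : Disjoint (m.primeCompl : Set S) (p : Set S) := by
    rw [Set.disjoint_left]
    intro a ha hap
    exact ha (hpm hap)
  have h1 : (p.map (algebraMap S O)).IsPrime :=
    IsLocalization.isPrime_of_isPrime_disjoint m.primeCompl O p hp hdisj
  have hinj : Injective (algebraMap S O) :=
    IsLocalization.injective O (Ideal.primeCompl_le_nonZeroDivisors m)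
  have h2 : p.map (algebraMap S O) ≠ ⊥ := fun h =>
    hp0 ((Ideal.map_eq_bot_iff_of_injective hinj).1 h)
  have h3 := IsLocalRing.eq_maximalIdeal (h1.isMaximal h2)
  have h4 : (p.map (algebraMap S O)).comap (algebraMap S O) = p :=
    IsLocalization.under_map_of_isPrime_disjoint m.primeCompl O hp hdisj
  rw [← h4, h3]
  exact IsLocalization.AtPrime.under_maximalIdeal O m

/-- a domain which is a field surjects onto its fraction field -/
theorem range_top_iff {O K : Type u} [CommRing O] [IsDomain O] [Field K] [Algebra O K]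
    [IsFractionRing O K] : (algebraMap O K).range = ⊤ ↔ IsField O := by
  rw [RingHom.range_eq_top]
  constructor
  · intro h
    exact (RingEquiv.ofBijective (algebraMap O K)
      ⟨IsFractionRing.injective O K, h⟩).toMulEquiv.isField (Field.toIsField K)
  · intro h b
    obtain ⟨a, c, hc, rfl⟩ := IsFractionRing.div_surjective (A := O) b
    obtain ⟨d, hd⟩ := h.mul_inv_cancel (nonZeroDivisors.ne_zero hc)
    refine ⟨a * d, ?_⟩
    have h1 : algebraMap O K c * algebraMap O K d = 1 := by rw [← map_mul, hd, map_one]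
    rw [map_mul, div_eq_mul_inv, eq_inv_of_mul_eq_one_right h1]

/-- differentials of the fraction field of a standard smooth algebra -/
theorem omega_alg {k S K : Type u} [Field k] [CommRing S] [IsDomain S] [Field K] [Algebra k S]
    [Algebra S K] [Algebra k K] [IsScalarTower k S K] [IsFractionRing S K]
    [Algebra.IsStandardSmoothOfRelativeDimension 1 k S] :
    Algebra.EssFiniteType k K ∧ Module.finrank K (KaehlerDifferential k K) = 1 := by
  have := Algebra.IsStandardSmoothOfRelativeDimension.isStandardSmooth 1 (R := k) (S := S)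
  have h1 : Algebra.EssFiniteType S K := Algebra.EssFiniteType.of_isLocalization K (nonZeroDivisors S)
  have h2 : Algebra.EssFiniteType k S := inferInstance
  refine ⟨Algebra.EssFiniteType.comp k S K, ?_⟩
  have := Algebra.FormallyEtale.of_isLocalization (Rₘ := K) (nonZeroDivisors S)
  rw [(KaehlerDifferential.isBaseChange_of_formallyEtale k S K).finrank_eq, Module.finrank,
    Algebra.IsStandardSmoothOfRelativeDimension.rank_kaehlerDifferential (R := k) (S := S) 1]
  simp

variable {k : Type u} [Field k] {X : Scheme.{u}} (f : X ⟶ Spec (.of k))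

theorem closed_principal [IsAlgClosed k] [SmoothOfRelativeDimension 1 f] (x : X)
    (hx : IsClosed {x}) :
    IsNoetherianRing (X.presheaf.stalk x) ∧ (maximalIdeal (X.presheaf.stalk x)).IsPrincipal ∧
      ∀ y, ∃ c, y - (strMap f x).hom c ∈ maximalIdeal (X.presheaf.stalk x) := by
  have : Smooth f := SmoothOfRelativeDimension.smooth 1 f
  have hs := pointOfClosedPoint_comp f x hx
  have hp := pointOfClosedPoint_apply f x hx (closedPoint k)
  obtain ⟨h1, h2⟩ := principal_stalk _ hs hp
  obtain ⟨ε, -, hε, -⟩ := exists_retr _ hs hp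
  exact ⟨h1, h2, fun y => ⟨_, hε y⟩⟩

theorem closed_of_max [LocallyOfFiniteType f] {U : X.Opens} (hU : IsAffineOpen U)
    (y : PrimeSpectrum Γ(X, U)) (hy : y.asIdeal.IsMaximal) : IsClosed {hU.fromSpec y} := by
  have : JacobsonSpace X := LocallyOfFiniteType.jacobsonSpace f
  have h1 := hU.fromSpec.isOpenEmbedding.preimage_closedPoints
  have h2 : y ∈ closedPoints (Spec Γ(X, U)) := y.isClosed_singleton_iff_isMaximal.2 hy
  rw [← h1] at h2
  exact h2

end GPt.Aux

open GPt.Aux

variable {k : Type u} [Field k] {X : Scheme.{u}} [IsIntegral X] (f : X ⟶ Spec (.of k))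

theorem dim_le_one [IsAlgClosed k] [SmoothOfRelativeDimension 1 f] (U : X.Opens)
    (hU : IsAffineOpen U) [Nonempty U] :
    IsNoetherianRing Γ(X, U) ∧ Ring.DimensionLEOne Γ(X, U) := by
  have : Smooth f := SmoothOfRelativeDimension.smooth 1 f
  have : IsLocallyNoetherian X := LocallyOfFiniteType.isLocallyNoetherian f
  refine ⟨IsLocallyNoetherian.component_noetherian ⟨U, hU⟩, ⟨fun {p} hp0 hp => ?_⟩⟩
  obtain ⟨m, hm, hpm⟩ := Ideal.exists_le_maximal p hp.ne_top
  let y : PrimeSpectrum Γ(X, U) := ⟨m, hm.isPrime⟩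
  have hy : hU.fromSpec y ∈ U := (hU.isoSpec.inv _).2
  obtain ⟨hN, hP, -⟩ := closed_principal f _ (closed_of_max f hU y hm)
  let _ : Algebra Γ(X, U) (X.presheaf.stalk (hU.fromSpec y)) :=
    TopCat.Presheaf.algebra_section_stalk X.presheaf (⟨hU.fromSpec y, hy⟩ : U)
  have h1 : IsLocalization.AtPrime (X.presheaf.stalk (hU.fromSpec y)) m :=
    hU.isLocalization_stalk' y hy
  have h2 := dim_of_principal hP
  rw [eq_of_loc (O := X.presheaf.stalk (hU.fromSpec y)) m p hpm hp0]
  exact hm

/-- A closed point is rational (`pointOfClosedPoint`), its stalk has principal maximal ideal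
(`principal_stalk`, `exists_retr`), so is a field or a discrete valuation ring; use `exists_cp`.  A
non-closed point `x` of an affine open `U` is a non-maximal prime (`X` is Jacobson), contained in a
maximal ideal whose localisation has dimension at most one, so it is the zero ideal. -/
theorem point_cases [IsAlgClosed k] [SmoothOfRelativeDimension 1 f] (x : X) :
    letI := (fa f).toAlgebra
    Ox x = ⊤ ∨ (IsClosed {x} ∧ ∃ (j : X.functionField →+* LaurentSeries k) (t : X.functionField),
      CP (Ox x) j t) := by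
  let _ := (fa f).toAlgebra
  have : Smooth f := SmoothOfRelativeDimension.smooth 1 f
  by_cases hF : IsField (X.presheaf.stalk x)
  · exact Or.inl (range_top_iff.2 hF)
  right
  have hx : IsClosed {x} := by
    obtain ⟨_, ⟨U, hU, rfl⟩, hxU, -⟩ :=
      X.isBasis_affineOpens.exists_subset_of_mem_open (Set.mem_univ x) isOpen_univ
    have : Nonempty U := ⟨⟨x, hxU⟩⟩
    obtain ⟨-, hd⟩ := dim_le_one f U hU
    have h1 := IsAffineOpen.isLocalization_stalk hU ⟨x, hxU⟩
    have h2 : (IsAffineOpen.primeIdealOf hU ⟨x, hxU⟩).asIdeal ≠ ⊥ := fun h0 => hF (by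
      let _ : Algebra Γ(X, U) (X.presheaf.stalk x) :=
        TopCat.Presheaf.algebra_section_stalk X.presheaf (⟨x, hxU⟩ : U)
      have h3 : IsLocalization.AtPrime (X.presheaf.stalk x)
        (IsAffineOpen.primeIdealOf hU ⟨x, hxU⟩).asIdeal := h1
      rw [IsLocalRing.isField_iff_maximalIdeal_eq,
        ← IsLocalization.AtPrime.map_eq_maximalIdeal (IsAffineOpen.primeIdealOf hU ⟨x, hxU⟩).asIdeal
          (X.presheaf.stalk x), h0, Ideal.map_bot])
    have h4 := closed_of_max f hU _ ((IsAffineOpen.primeIdealOf hU ⟨x, hxU⟩).isPrime.isMaximal h2)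
    rwa [IsAffineOpen.fromSpec_primeIdealOf] at h4
  obtain ⟨hN, hP, hres⟩ := closed_principal f x hx
  have hD : IsDiscreteValuationRing (X.presheaf.stalk x) :=
    ((IsDiscreteValuationRing.TFAE (X.presheaf.stalk x) hF).out 0 4).2 hP
  exact ⟨hx, exists_cp (K := X.functionField) (strMap f x).hom (fun c => fa_stalk f x c) hres⟩

/-- on a standard smooth affine open `Ω` is free of rank one; localise -/
theorem omega_rank [SmoothOfRelativeDimension 1 f] :
    letI := (fa f).toAlgebra
    Algebra.EssFiniteType k X.functionField ∧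
      Module.finrank X.functionField (KaehlerDifferential k X.functionField) = 1 := by
  let _ := (fa f).toAlgebra
  obtain ⟨U, hU, V, hV, hxV, e, hsm⟩ :=
    SmoothOfRelativeDimension.exists_isStandardSmoothOfRelativeDimension (n := 1) (f := f)
      (genericPoint X)
  obtain rfl : U = ⊤ := by
    refine eq_top_iff.2 fun z _ => ?_
    rw [Subsingleton.elim z (f (genericPoint X))]
    exact e hxV
  have : Nonempty V := ⟨⟨_, hxV⟩⟩
  let g : k →+* Γ(X, V) := (f.appLE ⊤ V e).hom.comp (Scheme.ΓSpecIso (.of k)).inv.hom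
  have hg : g.IsStandardSmoothOfRelativeDimension 1 :=
    hsm.comp (RingHom.IsStandardSmoothOfRelativeDimension.equiv
      (Scheme.ΓSpecIso (.of k)).symm.commRingCatIsoToRingEquiv)
  let _ := g.toAlgebra
  have : Algebra.IsStandardSmoothOfRelativeDimension 1 k Γ(X, V) := hg
  have : IsScalarTower k Γ(X, V) X.functionField :=
    IsScalarTower.of_algebraMap_eq fun c => fa_germ f V c
  have := functionField_isFractionRing_of_isAffineOpen X V hV
  exact omega_alg (S := Γ(X, V))

/-- if the stalk at a closed point is a field it is `k`, on which the stabiliser acts trivially -/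
theorem stab_bot [IsAlgClosed k] [SmoothOfRelativeDimension 1 f] [IsSeparated f] {G : Type*}
    [Group G] (ρ : G →* Aut X) (hρ : Injective ρ) (hρk : ∀ g, (ρ g).hom ≫ f = f) (x : X)
    (hx : IsClosed {x}) (h : Ox x = ⊤) : stab ρ x = ⊥ := by
  have hF : IsField (X.presheaf.stalk x) := range_top_iff.1 h
  obtain ⟨-, -, hres⟩ := closed_principal f x hx
  refine eq_bot_iff.2 fun g hg => ?_
  have hg' : (ρ g).hom x = x := hg
  have h0 : locMap (ρ g).hom x hg' = 𝟙 _ := by
    ext y
    obtain ⟨c, h1⟩ := hres y
    rw [IsLocalRing.isField_iff_maximalIdeal_eq.1 hF, Ideal.mem_bot, sub_eq_zero] at h1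
    have h2 := congrArg (fun φ => φ.hom c) (strMap_locMap f x _ hg' (hρk g))
    simp only [CommRingCat.hom_comp, RingHom.comp_apply, ← h1] at h2
    simpa using h2
  have h1 := eq_id_of_locMap f _ (hρk g) x _ h0
  have h2 : ρ g = ρ 1 := by rw [map_one]; exact Iso.ext h1
  exact Subgroup.mem_bot.2 (hρ h2)

end Pool.Agent.MP_deef5c_ag.O
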