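import Pool.Agent.MP_deef5c_ag.Defs

open CategoryTheory AlgebraicGeometry

universe u

namespace Pool.Agent.MP_deef5c_ag.O

/-- The stabiliser (inertia group) `{g | ρ(g) x = x}` of a point `x`. -/
def stab {X : Scheme.{u}} {G : Type*} [Group G] (ρ : G →* Aut X) (x : X) : Subgroup G where
  carrier := {g | (ρ g).hom x = x}
  one_mem' := by
    change (ρ 1).hom x = x
    rw [map_one]
    rfl
  mul_mem' := fun {g h} hg hh => by
    change (ρ (g * h)).hom x = x
    rw [map_mul]
    change ((ρ h).hom ≫ (ρ g).hom) x = x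
    rw [Scheme.Hom.comp_apply, hh, hg]
  inv_mem' := fun {g} hg => by
    change (ρ g⁻¹).hom x = x
    have h1 : (ρ g).hom ≫ (ρ g⁻¹).hom = 𝟙 X := by
      rw [map_inv]
      exact (ρ g).hom_inv_id
    have h2 := congrArg (fun φ : X ⟶ X => φ x) h1
    simp only [Scheme.Hom.comp_apply] at h2
    rwa [hg] at h2

end Pool.Agent.MP_deef5c_ag.O
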