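import Pool.Agent.MP_deef5c_ag.O.Defs

/-! Bounding the number of generators of an ideal. -/

open PowerSeries IsLocalRing Finset Function
open scoped Polynomial

namespace Pool.Agent.MP_deef5c_ag.O

universe u

open TensorProduct in
theorem Gen_nak {S k M : Type u} [CommRing S] [IsLocalRing S] [Field k] [Algebra S k]
    (hs : Surjective (algebraMap S k)) [AddCommGroup M] [Module S M] [Module.Finite S M]
    (N : Submodule S M) (hN : N.map (TensorProduct.mk S k M 1) = ⊤) : N = ⊤ := by
  have hk : RingHom.ker (Algebra.ofId S k) = maximalIdeal S :=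
    IsLocalRing.eq_maximalIdeal (RingHom.ker_isMaximal_of_surjective (algebraMap S k) hs)
  let e : k ≃ₐ[S] ResidueField S :=
    (Ideal.quotientKerAlgEquivOfSurjective (f := Algebra.ofId S k) hs).symm.trans
      (Ideal.quotientEquivAlgOfEq S hk)
  have h1 : TensorProduct.mk S (ResidueField S) M 1 =
      LinearMap.rTensor M e.toLinearMap ∘ₗ TensorProduct.mk S k M 1 := by
    ext x
    simp
  rw [← IsLocalRing.map_tensorProduct_mk_eq_top, h1, Submodule.map_comp, hN, Submodule.map_top,
    LinearMap.range_eq_top]
  exact LinearMap.rTensor_surjective M e.surjective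

open TensorProduct in
/-- `J →ₗ[S] k` is the dual of the `k`-vector space `J / m J`; so that space has dimension at most
`card ι`, and Nakayama's lemma lifts a basis to generators. -/
theorem gen_le {S k : Type u} [CommRing S] [IsLocalRing S] [IsNoetherianRing S] [Field k]
    [Algebra S k] (hs : Surjective (algebraMap S k)) (J : Ideal S) {ι : Type} [Fintype ι]
    (L : (J →ₗ[S] k) →ₗ[k] (ι → k)) (hL : Injective L) :
    ∃ T : Finset S, T.card ≤ Fintype.card ι ∧ Ideal.span (T : Set S) = J := by
  classical
  have hn : Module.finrank k (k ⊗[S] J) ≤ Fintype.card ι := by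
    rw [← Subspace.dual_finrank_eq, ← (LinearMap.liftBaseChangeEquiv k).finrank_eq,
      ← Module.finrank_fintype_fun_eq_card k]
    exact LinearMap.finrank_le_finrank_of_injective hL
  let b := Module.finBasis k (k ⊗[S] J)
  choose f hf using fun i => TensorProduct.mk_surjective S J k hs (b i)
  have h1 : Submodule.span S (Set.range f) = ⊤ := by
    refine Gen_nak hs _ ?_
    rw [Submodule.map_span, ← Submodule.restrictScalars_span S k hs,
      Submodule.restrictScalars_eq_top_iff, ← Set.range_comp, Function.comp_def, funext hf,
      b.span_eq]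
  refine ⟨univ.image fun i => (f i : S), card_image_le.trans (by simpa using hn), ?_⟩
  have h2 := congrArg (Submodule.map J.subtype) h1
  rw [Submodule.map_span, Submodule.map_top, Submodule.range_subtype, ← Set.range_comp] at h2
  rw [coe_image, coe_univ, Set.image_univ]
  exact h2

end Pool.Agent.MP_deef5c_ag.O
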