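import Pool.Agent.MP_deef5c_ag.O.Qb

/-! Expansion of power series at a root of a distinguished polynomial. -/

open PowerSeries IsLocalRing Finset Function
open scoped Polynomial

namespace Pool.Agent.MP_deef5c_ag.O

universe u

variable {D k Ω : Type u} [CommRing D] [IsDomain D] [IsLocalRing D] [CL D] [Field k] [Field Ω]

omit [IsDomain D] in
theorem Pt_hom (ι : D →+* Ω) (W : D[X]) (hW : W.IsDistinguishedAt (maximalIdeal D)) (b : Ω)
    (hb : W.eval₂ ι b = 0) :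
    ∃ ρ : D⟦X⟧ →+* Ω, (∀ a, ρ (C a) = ι a) ∧ ρ X = b := by
  let l : (D[X] ⧸ Ideal.span {W}) →+* Ω :=
    Ideal.Quotient.lift _ (Polynomial.eval₂RingHom ι b) fun a ha => by
      obtain ⟨c, rfl⟩ := Ideal.mem_span_singleton'.1 ha
      rw [map_mul, Polynomial.coe_eval₂RingHom, hb, mul_zero]
  let e := hW.algEquivQuotient
  have he : ∀ p : D[X], e.symm (Ideal.Quotient.mk _ (p : D⟦X⟧)) = Ideal.Quotient.mk _ p := by
    intro p
    rw [AlgEquiv.symm_apply_eq]
    change _ = Ideal.Quotient.mk _ (Polynomial.coeToPowerSeries.algHom D p)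
    rw [Polynomial.coeToPowerSeries.algHom_apply, Algebra.algebraMap_self, PowerSeries.map_id]
    rfl
  have key : ∀ p : D[X], l (e.symm (Ideal.Quotient.mk _ (p : D⟦X⟧))) = p.eval₂ ι b := by
    intro p
    rw [he]
    rfl
  refine ⟨l.comp (e.symm.toRingEquiv.toRingHom.comp (Ideal.Quotient.mk _)), fun a => ?_, ?_⟩
  · have := key (Polynomial.C a)
    rw [Polynomial.coe_C, Polynomial.eval₂_C] at this
    exact this
  · have := key Polynomial.X
    rw [Polynomial.coe_X, Polynomial.eval₂_X] at this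
    exact this

/-- `D⟦X⟧ → D⟦X⟧ / W ≃ D[X] / W → Ω`, `X ↦ b` (`Polynomial.IsDistinguishedAt.algEquivQuotient`); take
`D'` the quotient of `D⟦X⟧` by the kernel, `CL.of_surj`, `exists_pi_quot` for `π ∘ constantCoeff`. -/
theorem adjoin_root (π : D →+* k) (hπ : Surjective π) (ι : D →+* Ω) (W : D[X])
    (hW : W.IsDistinguishedAt (maximalIdeal D)) (b : Ω) (hb : W.eval₂ ι b = 0) :
    ∃ (D' : Type u) (_ : CommRing D') (_ : IsDomain D') (_ : IsLocalRing D') (_ : CL D')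
      (φ : D →+* D') (ι' : D' →+* Ω) (π' : D' →+* k) (b₀ : D'), Injective ι' ∧
      (∀ a, ι' (φ a) = ι a) ∧ (∀ a, π' (φ a) = π a) ∧ π' b₀ = 0 ∧ ι' b₀ = b := by
  obtain ⟨ρ, hρC, hρX⟩ := Pt_hom ι W hW b hb
  have hp : (RingHom.ker ρ).IsPrime := RingHom.ker_isPrime ρ
  have hl : IsLocalRing (D⟦X⟧ ⧸ RingHom.ker ρ) := local_quot _ hp.ne_top
  have hc : CL (D⟦X⟧ ⧸ RingHom.ker ρ) :=
    CL.of_surj (Ideal.Quotient.mk (RingHom.ker ρ)) Ideal.Quotient.mk_surjective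
  have hs : Surjective (π.comp (constantCoeff : D⟦X⟧ →+* D)) := fun z => by
    obtain ⟨a, rfl⟩ := hπ z
    exact ⟨C a, by rw [RingHom.comp_apply, constantCoeff_C]⟩
  obtain ⟨π', -, hπ'⟩ := exists_pi_quot _ hs (RingHom.ker ρ) hp.ne_top
  refine ⟨D⟦X⟧ ⧸ RingHom.ker ρ, inferInstance, inferInstance, hl, hc,
    (Ideal.Quotient.mk (RingHom.ker ρ)).comp (C : D →+* D⟦X⟧), RingHom.kerLift ρ, π',
    Ideal.Quotient.mk _ X, RingHom.kerLift_injective ρ, fun a => ?_, fun a => ?_, ?_, ?_⟩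
  · rw [RingHom.comp_apply, RingHom.kerLift_mk, hρC]
  · rw [RingHom.comp_apply, hπ', RingHom.comp_apply, constantCoeff_C]
  · rw [hπ', RingHom.comp_apply, constantCoeff_X, map_zero]
  · rw [RingHom.kerLift_mk, hρX]

omit [CL D] [IsLocalRing D] [IsDomain D] in
/-- the shifted expansion over a ring which contains the centre -/
theorem Pt_shift {D' : Type u} [CommRing D'] [IsLocalRing D'] [CL D'] (ι : D →+* Ω)
    (hι : Injective ι) (φ : D →+* D') (ι' : D' →+* Ω) (hι' : Injective ι') (π' : D' →+* k)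
    (hπ' : Surjective π') (b₀ : D') (h1 : ∀ a, ι' (φ a) = ι a) (h2 : π' b₀ = 0) :
    ∃ ev : D⟦X⟧ →+* Ω⟦X⟧, Injective ev ∧ (∀ a, ev (C a) = C (ι a)) ∧
      ev X = C (ι' b₀) + X ∧ ∀ f, d⁄dX Ω (ev f) = ev (d⁄dX D f) := by
  have hm : constantCoeff (C b₀ + X : D'⟦X⟧) ∈ maximalIdeal D' := by
    rw [map_add, constantCoeff_C, constantCoeff_X, add_zero]
    exact (pi_eq_zero_iff π' hπ' _).1 h2
  have hX : sub (C b₀ + X : D'⟦X⟧) X = C b₀ + X := sub_X hm
  have ho : order (PowerSeries.map π' (C b₀ + X : D'⟦X⟧)) = (1 : ℕ) := by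
    rw [map_add, map_C, h2, map_zero, zero_add, map_X, order_X, Nat.cast_one]
  have hφ : Injective φ := fun a a' h => hι (by rw [← h1, ← h1, h])
  refine ⟨(PowerSeries.map ι').comp (((sub (C b₀ + X : D'⟦X⟧) : En D') : D'⟦X⟧ →+* D'⟦X⟧).comp
    (PowerSeries.map φ)), ?_, fun a => ?_, ?_, fun f => ?_⟩
  · exact (PowerSeries.map_injective ι' hι').comp
      ((sub_injective π' hπ' _ 1 one_pos ho).comp (PowerSeries.map_injective φ hφ))
  · change PowerSeries.map ι' (sub (C b₀ + X : D'⟦X⟧) (PowerSeries.map φ (C a))) = _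
    rw [map_C, Base_en_C, map_C, h1]
  · change PowerSeries.map ι' (sub (C b₀ + X : D'⟦X⟧) (PowerSeries.map φ X)) = _
    rw [map_X, hX, map_add, map_C, map_X]
  · change d⁄dX Ω (PowerSeries.map ι' (sub (C b₀ + X : D'⟦X⟧) (PowerSeries.map φ f))) =
      PowerSeries.map ι' (sub (C b₀ + X : D'⟦X⟧) (PowerSeries.map φ (d⁄dX D f)))
    rw [← map_der, der_en _ (by rw [hX]; exact hm), hX, map_add, derivative_C, derivative_X,
      zero_add, mul_one, map_der φ]

/-- Adjoin `b`, then a root `b'` of the Weierstrass polynomial of `g - b` (degree `d > 0`); over the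
resulting `D''` put `ev = map ι'' ∘ sub (C b' + X) ∘ map φ`; the shift is invertible (`exists_inv`),
`der_en`, `map_der`. -/
theorem exists_ev [IsAlgClosed Ω] (π : D →+* k) (hπ : Surjective π) (ι : D →+* Ω)
    (hι : Injective ι) (W : D[X]) (hW : W.IsDistinguishedAt (maximalIdeal D)) (b : Ω)
    (hb : W.eval₂ ι b = 0) (g : D⟦X⟧) (d : ℕ) (hd : 0 < d) (hg : order (PowerSeries.map π g) = d) :
    ∃ (ev : D⟦X⟧ →+* Ω⟦X⟧) (b' : Ω), Injective ev ∧ (∀ a, ev (C a) = C (ι a)) ∧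
      ev X = C b' + X ∧ (∀ f, d⁄dX Ω (ev f) = ev (d⁄dX D f)) ∧ constantCoeff (ev g) = b := by
  obtain ⟨D₁, _, _, _, _, φ₁, ι₁, π₁, b₁, hι₁, h1, h2, h3, h4⟩ := adjoin_root π hπ ι W hW b hb
  have hπ₁ : Surjective π₁ := fun z => by
    obtain ⟨a, rfl⟩ := hπ z
    exact ⟨φ₁ a, h2 a⟩
  have ho : order (PowerSeries.map π₁ (PowerSeries.map φ₁ g - C b₁)) = d := by
    have e : PowerSeries.map π₁ (PowerSeries.map φ₁ g) = PowerSeries.map π g := by
      ext n
      rw [coeff_map, coeff_map, coeff_map, h2]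
    rw [map_sub, map_C, h3, map_zero, sub_zero, e, hg]
  obtain ⟨hne, hdeg⟩ := Qb_ord π₁ hπ₁ _ d ho
  obtain ⟨V, w, hV⟩ := exists_isWeierstrassFactorization hne
  have hVd : V.natDegree = d := by
    rw [hV.natDegree_eq_toNat_order_map]
    exact hdeg
  have hV0 : V.degree ≠ 0 := fun h => by
    rw [Polynomial.natDegree_eq_zero_iff_degree_le_zero.2 h.le] at hVd
    omega
  obtain ⟨b', hb'⟩ := IsAlgClosed.exists_eval₂_eq_zero_of_injective ι₁ hι₁ V hV0
  obtain ⟨D₂, _, _, _, _, φ₂, ι₂, π₂, b₂, hι₂, k1, k2, k3, k4⟩ :=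
    adjoin_root π₁ hπ₁ ι₁ V hV.isDistinguishedAt b' hb'
  have hπ₂ : Surjective π₂ := fun z => by
    obtain ⟨a, rfl⟩ := hπ₁ z
    exact ⟨φ₂ a, k2 a⟩
  obtain ⟨ev, e1, e2, e3, e4⟩ := Pt_shift ι₁ hι₁ φ₂ ι₂ hι₂ π₂ hπ₂ b₂ k1 k3
  rw [k4] at e3
  have hφ₁ : Injective φ₁ := fun a a' h => hι (by rw [← h1, ← h1, h])
  have hp : ∀ p : D₁[X], constantCoeff (ev (p : D₁⟦X⟧)) = p.eval₂ ι₁ b' := by
    intro p
    have : ((constantCoeff : Ω⟦X⟧ →+* Ω).comp ev).comp Polynomial.coeToPowerSeries.ringHom =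
        Polynomial.eval₂RingHom ι₁ b' := by
      refine Polynomial.ringHom_ext (fun a => ?_) ?_
      · change constantCoeff (ev ((Polynomial.C a : D₁[X]) : D₁⟦X⟧)) = Polynomial.eval₂ _ _ _
        rw [Polynomial.coe_C, e2, constantCoeff_C, Polynomial.eval₂_C]
      · change constantCoeff (ev ((Polynomial.X : D₁[X]) : D₁⟦X⟧)) = Polynomial.eval₂ _ _ _
        rw [Polynomial.coe_X, e3, map_add, constantCoeff_C, constantCoeff_X, add_zero,
          Polynomial.eval₂_X]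
    exact DFunLike.congr_fun this p
  refine ⟨ev.comp (PowerSeries.map φ₁), b', e1.comp (PowerSeries.map_injective φ₁ hφ₁),
    fun a => ?_, ?_, fun f => ?_, ?_⟩
  · rw [RingHom.comp_apply, map_C, e2, h1]
  · rw [RingHom.comp_apply, map_X, e3]
  · rw [RingHom.comp_apply, RingHom.comp_apply, e4, map_der]
  · have e : PowerSeries.map φ₁ g = (V : D₁⟦X⟧) * w + C b₁ := by
      rw [← hV.eq_mul, sub_add_cancel]
    rw [RingHom.comp_apply, e, map_add, map_mul, map_add, map_mul, hp, hb', zero_mul, zero_add,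
      e2, constantCoeff_C, h4]

end Pool.Agent.MP_deef5c_ag.O
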