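import Pool.Agent.MP_deef5c_ag.O.GenP
import Pool.Agent.MP_deef5c_ag.O.Pt

/-! Branch points of the generic fibre. -/

open PowerSeries IsLocalRing Finset Function
open scoped Polynomial

namespace Pool.Agent.MP_deef5c_ag.O

universe u

open WithZero

variable {k : Type u} [Field k] {p n m α : ℕ} [Fact p.Prime] [CharP k p] {ζ : k} {σ σ' : En k}
  {s : k⟦X⟧}

variable {D : Type u} [CommRing D] [IsDomain D] [IsLocalRing D] [CL D] [Algebra k D]

variable {Ω : Type u} [Field Ω] [IsAlgClosed Ω] [Algebra k Ω]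

/-- Take `ev`, `b'` from `exists_ev` with `g = cst x'`.  `b' ≠ 0` because `X ∣ x'`.  As `d x' = X^β u`
with `u` a unit, `d (ev x') = ev (d x')` is a unit, so `ev x' - b` has order one.  In `gen_pt` the
first term is a power series since `ev x'` is a unit; if `r ≠ 0` apply `loc0` to `x = ev x' - b` with
`q = 1`, `κ = u' = 0`, `c = 0`. -/
theorem gen_loc (S : Sp p (n + 1) m α ζ σ) (h : Desc p n σ σ' s) (S' : Sp p n m α (ζ ^ p) σ')
    {π : D →ₐ[k] k} {σD : En D} {x sD : D⟦X⟧} (L : Lev p n α ζ σ σ' s π σD x sD)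
    {N l : ℕ} {G : k⟦X⟧} {ξ : D} {Wf P₀ : D[X]} {GF υ Y : D⟦X⟧}
    (B : WF p n l ξ σD x sD (cst D (xb p n σ')) Wf GF υ) (H : NF p n N π σD x sD G Wf P₀ Y)
    (hd : d⁄dX k (xb p n σ') ≠ 0) (ι : D →ₐ[k] Ω) (hι : Injective ι) (c : Ω → ℕ → Ω)
    (hc : Pol p (((Polynomial.X * Wf) ^ N).map (ι : D →+* Ω)) (P₀.map (ι : D →+* Ω)) c)
    (hp : ∀ b j, p ∣ j → c b j = 0) (b : Ω) (hb0 : b ≠ 0)
    (hb : (Wf.map (ι : D →+* Ω)).IsRoot b) :
    ∃ μ : ℕ, (Wf.map (ι : D →+* Ω)).rootMultiplicity b = p ^ n * μ ∧ 0 < μ ∧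
      ∀ j, c b j ≠ 0 → j + 1 ≤ μ := by
  have hp0 : 0 < p ^ n := pow_pos (Fact.out : p.Prime).pos n
  have hΩ : CharP Ω p := charP_of_injective_algebraMap (algebraMap k Ω).injective p
  have hπ : Surjective (π : D →+* k) := fun a => ⟨algebraMap k D a, π.commutes a⟩
  have hx := S'.order_xb
  have hred : PowerSeries.map (π : D →+* k) (cst D (xb p n σ')) = xb p n σ' := by
    ext i
    simp
  obtain ⟨ev, b', hev, hC, hX, hder, hcc⟩ := exists_ev (π : D →+* k) hπ (ι : D →+* Ω) hι Wf B.dist b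
    (by rw [← Polynomial.eval_map]; exact hb) (cst D (xb p n σ')) (p ^ n) hp0 (by rw [hred, hx])
  have hcX : ev (cst D (X : k⟦X⟧)) = C b' + X := by rw [map_X, hX]
  have hb' : b' ≠ 0 := by
    rintro rfl
    obtain ⟨v, hv⟩ := X_dvd_iff.2 (Lau_cc hp0 hx)
    apply hb0
    rw [← hcc, hv, map_mul, map_mul, map_mul, hcX]
    simp
  have hdu : constantCoeff (d⁄dX Ω (ev (cst D (xb p n σ')) - C b)) ≠ 0 := by
    rw [← isUnit_iff_ne_zero, ← isUnit_iff_constantCoeff, map_sub, derivative_C, sub_zero, hder,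
      ← map_der, ← X_pow_order_mul_divXPowOrder (f := d⁄dX k (xb p n σ')), map_mul, map_mul,
      map_pow, map_pow, hcX]
    refine IsUnit.mul (IsUnit.pow _ ?_) (((isUnit_divided_by_X_pow_order hd).map _).map _)
    rw [isUnit_iff_constantCoeff]
    simpa using hb'
  have ho : order (ev (cst D (xb p n σ')) - C b) = (1 : ℕ) := by
    rw [order_eq_nat]
    refine ⟨?_, fun i hi => ?_⟩
    · rw [← coeff_zero_eq_constantCoeff_apply, coeff_derivative] at hdu
      exact left_ne_zero_of_mul hdu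
    · obtain rfl : i = 0 := by omega
      rw [coeff_zero_eq_constantCoeff_apply, map_sub, hcc, constantCoeff_C, sub_self]
  have ho0 : ∀ f : Ω⟦X⟧, constantCoeff f ≠ 0 → order f = (0 : ℕ) := by
    intro f hf
    rw [order_eq_nat]
    exact ⟨by simpa using hf, fun i hi => absurd hi (Nat.not_lt_zero i)⟩
  obtain ⟨μ, hμ, r, h₀, hr, hh, hl⟩ := gen_pt S h S' L B H ι c hc ev hev hC b 1 one_pos ho
  rw [one_mul] at hμ
  refine ⟨μ, hμ, ?_, fun j hj => ?_⟩
  · have := (Polynomial.rootMultiplicity_pos (B.dist.monic.map (ι : D →+* Ω)).ne_zero).2 hb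
    rw [hμ] at this
    exact Nat.pos_of_mul_pos_left this
  · have hjr : j ≤ r.natDegree := Polynomial.le_natDegree_of_ne_zero (by rw [hr]; exact hj)
    have hj0 : j ≠ 0 := by
      rintro rfl
      exact hj (hp b 0 (dvd_zero p))
    have h1 : vv Ω (lc Ω (ev (cst D (xb p n σ')))) = 1 := by
      have := vv_lc_eq.2 (ho0 _ (hcc ▸ hb0))
      simpa using this
    have h2 : vv Ω (lc Ω (ev (cst D G)) / lc Ω (ev (cst D (xb p n σ'))) ^ (p * N) + h₀) ≤ 1 := by
      refine Valuation.map_add_le _ ?_ hh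
      rw [map_div₀, map_pow, h1, one_pow, div_one]
      exact vv_lc_le _
    obtain ⟨lam, u, e1, e2, e3⟩ := loc0 (p := p) (ev (cst D (xb p n σ')) - C b) 1 0 0 one_pos ho
      (by rw [ho0 _ hdu]; rfl) 0 _ (by simp) (Or.inl ⟨rfl, rfl, rfl⟩) h2 r
      (fun i hi => (hr i).trans (hp b i hi)) (by omega)
    have e4 := hl lam u e2 (by rw [← e3]; congr 1; ring)
    omega

end Pool.Agent.MP_deef5c_ag.O
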