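import Pool.Agent.MP_deef5c_ag.O.Gl
import Pool.Agent.MP_deef5c_ag.O.Qb

/-! Normal form of invariant Artin-Schreier terms. -/

open PowerSeries IsLocalRing Finset Function
open scoped Polynomial

namespace Pool.Agent.MP_deef5c_ag.O

universe u

namespace Nf.Aux

section
variable {A : Type u} [CommRing A] [IsLocalRing A] {g : A[X]}

theorem ord (hg : g.IsDistinguishedAt (maximalIdeal A)) :
    ((g : A⟦X⟧).map (Ideal.Quotient.mk (maximalIdeal A))).order.toNat = g.natDegree :=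
  (congrArg ENat.toNat (hg.coe_natDegree_eq_order_map (g : A⟦X⟧) 1
    (by rw [constantCoeff_one, ← Ideal.ne_top_iff_one]; exact (maximalIdeal.isMaximal A).ne_top)
    (by simp))).symm

theorem pow (hg : g.IsDistinguishedAt (maximalIdeal A)) (n : ℕ) :
    (g ^ n).IsDistinguishedAt (maximalIdeal A) := by
  induction n with
  | zero =>
    rw [pow_zero]
    exact ⟨⟨fun h => by simp at h⟩, Polynomial.monic_one⟩
  | succ n ih => rw [pow_succ]; exact ih.mul hg

theorem div [CL A] (hg : g.IsDistinguishedAt (maximalIdeal A)) (f : A⟦X⟧) :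
    ∃ (q : A⟦X⟧) (r : A[X]), r.degree < (g.natDegree : ℕ) ∧ f = g * q + r := by
  obtain ⟨h1, h2⟩ := hg.isWeierstrassDivisorAt'.isWeierstrassDivisionAt_div_mod f
  rw [ord hg] at h1
  exact ⟨_, _, h1, h2⟩

theorem uniq [CL A] (hg : g.IsDistinguishedAt (maximalIdeal A)) {q : A⟦X⟧} {r : A[X]}
    (hr : r.degree < (g.natDegree : ℕ)) (h : (g : A⟦X⟧) * q = r) : q = 0 ∧ r = 0 :=
  hg.isWeierstrassDivisorAt'.eq_zero_of_mul_eq (by rwa [ord hg]) h

theorem fix {p : ℕ} (hp : 2 ≤ p) {h : A} (hm : h ∈ maximalIdeal A) (e : h ^ p = h) : h = 0 := by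
  obtain ⟨q, rfl⟩ : ∃ q, p = q + 2 := ⟨p - 2, by omega⟩
  have hu : IsUnit (1 - h ^ (q + 1)) :=
    isUnit_one_sub_self_of_mem_nonunits _ (Ideal.pow_mem_of_mem _ hm _ (Nat.succ_pos q))
  refine hu.mul_right_eq_zero.1 ?_
  linear_combination -e

theorem hensel [CL A] (p : ℕ) [Fact p.Prime] [CharP A p] {Q : A} (hQ : Q ∈ maximalIdeal A) :
    ∃ h ∈ maximalIdeal A, h ^ p - h = Q := by
  have hp := (Fact.out : p.Prime).two_le
  have hm : (Polynomial.X ^ p - (Polynomial.X + Polynomial.C Q) : A[X]).Monic := by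
    refine Polynomial.monic_X_pow_sub ?_
    rw [Polynomial.degree_X_add_C]
    exact_mod_cast (by omega : 1 < p)
  obtain ⟨a, h1, h2⟩ := HenselianRing.is_henselian (I := maximalIdeal A) _ hm 0
    (by simpa [zero_pow (show p ≠ 0 by omega)] using hQ) (by simp [Polynomial.derivative_X_pow])
  refine ⟨a, by simpa using h2, ?_⟩
  have h3 : a ^ p - (a + Q) = 0 := by simpa using h1
  linear_combination h3

end

theorem deg {A : Type u} [CommRing A] [Nontrivial A] {p : ℕ} (hp : 2 ≤ p) {g Z : A[X]}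
    (hg : g.Monic) (hZ : Z.degree < (g.natDegree : ℕ)) :
    (Z ^ p - Z * g ^ (p - 1)).degree < ((p * g.natDegree : ℕ) : WithBot ℕ) := by
  obtain ⟨q, rfl⟩ : ∃ q, p = q + 1 := ⟨p - 1, by omega⟩
  by_cases h0 : Z = 0
  · rw [h0, zero_pow (by omega), zero_mul, sub_zero, Polynomial.degree_zero]
    exact WithBot.bot_lt_coe _
  rw [Polynomial.degree_eq_natDegree h0, Nat.cast_lt] at hZ
  refine lt_of_le_of_lt (Polynomial.degree_sub_le _ _) (max_lt ?_ ?_)
  · refine lt_of_le_of_lt (Polynomial.degree_le_of_natDegree_le Polynomial.natDegree_pow_le) ?_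
    rw [Nat.cast_lt]
    exact Nat.mul_lt_mul_of_pos_left hZ (by omega)
  · refine lt_of_le_of_lt (Polynomial.degree_le_of_natDegree_le Polynomial.natDegree_mul_le) ?_
    rw [Nat.cast_lt, hg.natDegree_pow, Nat.add_sub_cancel, add_mul, one_mul]
    omega

variable {D k : Type u} [CommRing D] [IsLocalRing D] [Field k] (π : D →+* k) (hπ : Surjective π)
  {g : D[X]}

include hπ in
theorem dist (hg : g.IsDistinguishedAt (maximalIdeal D)) :
    (g.map π).IsDistinguishedAt (maximalIdeal k) := by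
  refine ⟨⟨fun {n} h => ?_⟩, hg.monic.map π⟩
  rw [hg.monic.natDegree_map] at h
  rw [Polynomial.coeff_map, (pi_eq_zero_iff π hπ _).2 (hg.mem h)]
  exact zero_mem _

include hπ in
theorem red (hg : g.IsDistinguishedAt (maximalIdeal D)) {q : D⟦X⟧} {r : D[X]}
    (hr : r.degree < (g.natDegree : ℕ)) (h : PowerSeries.map π ((g : D⟦X⟧) * q + r) = 0) :
    PowerSeries.map π q = 0 ∧ r.map π = 0 := by
  rw [map_add, map_mul, ← Polynomial.polynomial_map_coe, ← Polynomial.polynomial_map_coe,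
    add_eq_zero_iff_eq_neg, ← Polynomial.coe_neg] at h
  obtain ⟨h1, h2⟩ := uniq (dist π hπ hg) (by
    rw [Polynomial.degree_neg, hg.monic.natDegree_map]
    exact lt_of_le_of_lt Polynomial.degree_map_le hr) h
  exact ⟨h1, neg_eq_zero.1 h2⟩

include hπ in
theorem mem {h : D⟦X⟧} (h0 : PowerSeries.map π h = 0) : h ∈ maximalIdeal D⟦X⟧ := by
  rw [mem_max_iff, ← pi_eq_zero_iff π hπ, ← coeff_zero_eq_constantCoeff_apply, ← coeff_map, h0,
    map_zero]

include hπ in
theorem mem' {h : D⟦X⟧} (h0 : h ∈ maximalIdeal D⟦X⟧) :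
    PowerSeries.map π h ∈ maximalIdeal k⟦X⟧ := by
  rw [mem_max_iff, ← pi_eq_zero_iff π hπ] at h0
  rw [mem_max_iff, ← coeff_zero_eq_constantCoeff_apply, coeff_map,
    coeff_zero_eq_constantCoeff_apply, h0]
  exact zero_mem _

end Nf.Aux

variable {D k : Type u} [CommRing D] [IsLocalRing D] [CL D] [Field k] (p : ℕ) [Fact p.Prime]
  [CharP D p]

/-- Weierstrass division `Ψ = g^p Q + P₁`; both have zero reduction (uniqueness over `k`, where `g`
becomes `X^E`).  Hensel in the complete local ring `D⟦X⟧` gives `h^p - h = Q` with `h` in the maximal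
ideal, so `h` has zero reduction.  With `Z` from `gl_exists` (zero reduction by `gl_unique` over `k`)
put `V = g h - Z`. -/
theorem nf_exists (π : D →+* k) (hπ : Surjective π) (g : D[X])
    (hg : g.IsDistinguishedAt (maximalIdeal D)) (Ψ : D⟦X⟧) (hΨ : PowerSeries.map π Ψ = 0) :
    ∃ (V : D⟦X⟧) (P : D[X]), PowerSeries.map π V = 0 ∧ P.map π = 0 ∧
      P.degree < (((p - 1) * g.natDegree : ℕ) : WithBot ℕ) ∧
      Ψ = (P : D⟦X⟧) + (V ^ p - (g : D⟦X⟧) ^ (p - 1) * V) := by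
  have hp := (Fact.out : p.Prime).two_le
  have : CharP D⟦X⟧ p := charP_of_injective_ringHom (C_injective (R := D)) p
  obtain ⟨Q, P₁, hP₁, hd⟩ := Nf.Aux.div (Nf.Aux.pow hg p) Ψ
  obtain ⟨hQ, hP⟩ := Nf.Aux.red π hπ (Nf.Aux.pow hg p) hP₁ (hd ▸ hΨ)
  obtain ⟨h, hm, hh⟩ := Nf.Aux.hensel p (Nf.Aux.mem π hπ hQ)
  have h0 : PowerSeries.map π h = 0 := by
    refine Nf.Aux.fix hp (Nf.Aux.mem' π hπ hm) ?_
    rw [← map_pow, ← sub_eq_zero, ← map_sub, hh, hQ]
  rw [hg.monic.natDegree_pow] at hP₁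
  obtain ⟨Z, hZ, hZ'⟩ := gl_exists p g P₁ hg.monic hP₁
  have e : (P₁ + Z ^ p - Z * g ^ (p - 1)).map π =
      (Z.map π) ^ p - Z.map π * (g.map π) ^ (p - 1) := by
    simp [hP]
  have hZ0 : Z.map π = 0 := by
    refine gl_unique p (g.map π) _ (hg.monic.map π) ?_ ?_
    · rw [hg.monic.natDegree_map]
      exact lt_of_le_of_lt Polynomial.degree_map_le hZ
    · rw [hg.monic.natDegree_map, ← e]
      exact lt_of_le_of_lt Polynomial.degree_map_le hZ'
  refine ⟨g * h - Z, P₁ + Z ^ p - Z * g ^ (p - 1), ?_, ?_, hZ', ?_⟩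
  · rw [map_sub, map_mul, h0, ← Polynomial.polynomial_map_coe (f := Z), hZ0]
    simp
  · rw [e, hZ0, zero_pow (by omega), zero_mul, sub_zero]
  · rw [hd, sub_pow_char, ← hh, mul_pow]
    obtain ⟨q, rfl⟩ : ∃ q, p = q + 1 := ⟨p - 1, by omega⟩
    simp only [Polynomial.coe_pow, Polynomial.coe_sub, Polynomial.coe_add, Polynomial.coe_mul,
      Nat.add_sub_cancel]
    ring

/-- Weierstrass division `V = g h + Z`; uniqueness of the division by `g^p` gives `h^p = h`, so `h = 0`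
(`h^(p-1) - 1` is a unit), then `gl_unique`. -/
theorem nf_unique (π : D →+* k) (hπ : Surjective π) (g : D[X])
    (hg : g.IsDistinguishedAt (maximalIdeal D)) (V : D⟦X⟧) (P : D[X])
    (hV : PowerSeries.map π V = 0) (hP : P.degree < (((p - 1) * g.natDegree : ℕ) : WithBot ℕ))
    (h : V ^ p - (g : D⟦X⟧) ^ (p - 1) * V = (P : D⟦X⟧)) : V = 0 := by
  have hp := (Fact.out : p.Prime).two_le
  have : CharP D⟦X⟧ p := charP_of_injective_ringHom (C_injective (R := D)) p
  obtain ⟨a, Z, hZ, hd⟩ := Nf.Aux.div hg V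
  obtain ⟨ha, _⟩ := Nf.Aux.red π hπ hg hZ (hd ▸ hV)
  have e : ((g ^ p : D[X]) : D⟦X⟧) * (a ^ p - a) =
      ((P - (Z ^ p - Z * g ^ (p - 1)) : D[X]) : D⟦X⟧) := by
    rw [Polynomial.coe_sub, ← h, hd, add_pow_char, mul_pow]
    obtain ⟨q, rfl⟩ : ∃ q, p = q + 1 := ⟨p - 1, by omega⟩
    simp only [Polynomial.coe_pow, Polynomial.coe_sub, Polynomial.coe_mul, Nat.add_sub_cancel]
    ring
  obtain ⟨h1, h2⟩ := Nf.Aux.uniq (Nf.Aux.pow hg p) (by
    rw [hg.monic.natDegree_pow]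
    refine lt_of_le_of_lt (Polynomial.degree_sub_le _ _) (max_lt (lt_of_lt_of_le hP ?_)
      (Nf.Aux.deg hp hg.monic hZ))
    exact_mod_cast Nat.mul_le_mul_right _ (Nat.sub_le p 1)) e
  have h3 : a = 0 := Nf.Aux.fix hp (Nf.Aux.mem π hπ ha) (sub_eq_zero.1 h1)
  have h4 : Z = 0 := gl_unique p g Z hg.monic hZ (sub_eq_zero.1 h2 ▸ hP)
  rw [hd, h3, h4]
  simp

omit [CharP D p] in
theorem sub_coe {x : D⟦X⟧} (hx : constantCoeff x ∈ maximalIdeal D) (P : D[X]) :
    sub x (P : D⟦X⟧) = Polynomial.aeval x P := by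
  induction P using Polynomial.induction_on with
  | C a => rw [Polynomial.coe_C, Polynomial.aeval_C]; exact (sub x).commutes a
  | add a b ha hb => rw [Polynomial.coe_add, map_add, map_add, ha, hb]
  | monomial n a ih =>
    rw [pow_succ, ← mul_assoc, Polynomial.coe_mul, map_mul, map_mul, ih, Polynomial.coe_X,
      sub_X hx, Polynomial.aeval_X]

end Pool.Agent.MP_deef5c_ag.O
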