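import Pool.Agent.MP_deef5c_ag.O.Defs2

/-! Local expansion of principal parts. -/

open PowerSeries IsLocalRing Finset Function
open scoped Polynomial

namespace Pool.Agent.MP_deef5c_ag.O

universe u

theorem PolL_div {ι L : Type*} [Field L] [DecidableEq ι] (p : ℕ) (Z : Finset ι) (e : ι → ℕ)
    (t : ι → L) (ht : ∀ b, t b ≠ 0) (a : ι → ℕ → L) :
    (∑ b ∈ Z, (∑ j ∈ Icc 1 (p * e b), a b j * t b ^ (p * e b - j)) *
      ∏ b' ∈ Z.erase b, t b' ^ (p * e b')) / (∏ b ∈ Z, t b ^ e b) ^ p =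
      ∑ b ∈ Z, ∑ j ∈ Icc 1 (p * e b), a b j * (t b)⁻¹ ^ j := by
  rw [sum_div]
  refine sum_congr rfl fun b hb => ?_
  have h1 : (∏ b ∈ Z, t b ^ e b) ^ p = t b ^ (p * e b) * ∏ b' ∈ Z.erase b, t b' ^ (p * e b') := by
    rw [mul_prod_erase Z (fun b' => t b' ^ (p * e b')) hb, ← prod_pow]
    exact prod_congr rfl fun b' _ => by rw [← pow_mul, mul_comm]
  rw [h1, mul_div_mul_right _ _ (prod_ne_zero_iff.mpr fun b' _ => pow_ne_zero _ (ht b')), sum_div]
  refine sum_congr rfl fun j hj => ?_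
  rw [pow_sub₀ _ (ht b) (mem_Icc.mp hj).2, inv_pow]
  have := ht b
  field_simp

theorem PolL_cc {Ω : Type u} [Field Ω] (xb : Ω⟦X⟧) (W : Polynomial Ω) :
    constantCoeff (Polynomial.aeval xb W) = W.eval (constantCoeff xb) := by
  induction W using Polynomial.induction_on' with
  | add a b ha hb => simp [ha, hb]
  | monomial n a => simp [Polynomial.aeval_monomial]

theorem PolL_C {Ω : Type u} [Field Ω] (a : Ω) :
    algebraMap Ω (LaurentSeries Ω) a = lc Ω (C a) := by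
  rw [LaurentSeries.algebraMap_apply]
  exact (PowerSeries.coe_C a).symm

/-- divide the identity by `g(xb)^p`; the terms with `b' ≠ b` have unit denominators -/
theorem pol_of (p : ℕ) [Fact p.Prime] {Ω : Type u} [Field Ω] [CharP Ω p] [DecidableEq Ω]
    (Z : Finset Ω) (e : Ω → ℕ) (g P Z₁ : Polynomial Ω)
    (hg : g = ∏ b ∈ Z, (Polynomial.X - Polynomial.C b) ^ e b) (c : Ω → ℕ → Ω)
    (h0 : ∀ b, c b 0 = 0) (hc : ∀ b j, c b j ≠ 0 → b ∈ Z ∧ j ≤ p * e b)
    (hP : P = polar p Z e c + Z₁ ^ p - Z₁ * g ^ (p - 1)) : Pol p g P c := by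
  intro xb b d hd hx
  have hp : p ≠ 0 := (Fact.out : p.Prime).ne_zero
  have hb : constantCoeff xb = b := by simpa [sub_eq_zero] using Lau_cc hd hx
  have hu : ∀ b', b' ≠ b → IsUnit (xb - C b') := fun b' h => by
    rw [isUnit_iff_constantCoeff, map_sub, hb, constantCoeff_C, isUnit_iff_ne_zero]
    exact sub_ne_zero.mpr h.symm
  have ht : ∀ b', lc Ω (xb - C b') ≠ 0 := fun b' => Lau_ne (by
    by_cases h : b' = b
    · intro h1
      rw [← h, h1, order_zero] at hx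
      exact ENat.top_ne_natCast d hx
    · exact (hu b' h).ne_zero)
  have hv : ∀ b', b' ≠ b → vv Ω (lc Ω (xb - C b'))⁻¹ ≤ 1 := fun b' h => by
    obtain ⟨w, hw⟩ := (hu b' h).exists_right_inv
    rw [← eq_inv_of_mul_eq_one_right (b := lc Ω w) (by rw [← map_mul, hw, map_one])]
    exact vv_lc_le w
  have hG : lc Ω (Polynomial.aeval xb g) = ∏ b' ∈ Z, lc Ω (xb - C b') ^ e b' := by
    simp only [hg, map_prod, map_pow, map_sub, Polynomial.aeval_X, Polynomial.aeval_C,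
      ← C_eq_algebraMap]
  have hG0 : lc Ω (Polynomial.aeval xb g) ≠ 0 := by
    rw [hG]
    exact prod_ne_zero_iff.mpr fun b' _ => pow_ne_zero _ (ht b')
  have hpol : lc Ω (Polynomial.aeval xb (polar p Z e c)) / lc Ω (Polynomial.aeval xb g) ^ p =
      ∑ b' ∈ Z, ∑ j ∈ Icc 1 (p * e b'), lc Ω (C (c b' j)) * (lc Ω (xb - C b'))⁻¹ ^ j := by
    rw [← PolL_div p Z e _ ht, hG]
    simp only [polar, map_sum, map_mul, map_prod, map_pow, map_sub, Polynomial.aeval_X,
      Polynomial.aeval_C, ← C_eq_algebraMap]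
  refine ⟨∑ j ∈ Icc 1 (p * e b), Polynomial.monomial j (c b j),
    ∑ b' ∈ Z.erase b, ∑ j ∈ Icc 1 (p * e b'), lc Ω (C (c b' j)) * (lc Ω (xb - C b'))⁻¹ ^ j,
    lc Ω (Polynomial.aeval xb Z₁) / lc Ω (Polynomial.aeval xb g), fun j => ?_, ?_, ?_⟩
  · simp only [Polynomial.finsetSum_coeff, Polynomial.coeff_monomial, sum_ite_eq']
    split_ifs with h
    · rfl
    · by_contra h1
      refine h (mem_Icc.mpr ⟨Nat.pos_of_ne_zero ?_, (hc b j (Ne.symm h1)).2⟩)
      rintro rfl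
      exact h1 (h0 b).symm
  · refine Valuation.map_sum_le _ fun b' hb' => Valuation.map_sum_le _ fun j _ => ?_
    rw [map_mul, map_pow]
    exact mul_le_one' (vv_lc_le _) (pow_le_one' (hv b' (mem_erase.mp hb').1) j)
  · have h1 : Polynomial.aeval (lc Ω (xb - C b))⁻¹
        (∑ j ∈ Icc 1 (p * e b), Polynomial.monomial j (c b j)) =
        ∑ j ∈ Icc 1 (p * e b), lc Ω (C (c b j)) * (lc Ω (xb - C b))⁻¹ ^ j := by
      simp only [map_sum, Polynomial.aeval_monomial, PolL_C]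
    have h2 : ∑ b' ∈ Z, ∑ j ∈ Icc 1 (p * e b'), lc Ω (C (c b' j)) * (lc Ω (xb - C b'))⁻¹ ^ j =
        ∑ j ∈ Icc 1 (p * e b), lc Ω (C (c b j)) * (lc Ω (xb - C b))⁻¹ ^ j + ∑ b' ∈ Z.erase b,
          ∑ j ∈ Icc 1 (p * e b'), lc Ω (C (c b' j)) * (lc Ω (xb - C b'))⁻¹ ^ j := by
      by_cases h : b ∈ Z
      · exact (add_sum_erase Z _ h).symm
      · rw [erase_eq_of_notMem h, sum_eq_zero (s := Icc 1 (p * e b)), zero_add]
        intro j _
        have : c b j = 0 := by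
          by_contra h3
          exact h (hc b j h3).1
        rw [this, map_zero, map_zero, zero_mul]
    rw [h1, ← h2, ← hpol, hP]
    simp only [map_sub, map_add, map_mul, map_pow]
    rw [pow_sub₀ _ hG0 (Nat.pos_of_ne_zero hp), div_pow]
    field_simp
    ring

/-- `W = (X - b)^μ W₁` with `W₁(b) ≠ 0` -/
theorem order_aeval {Ω : Type u} [Field Ω] (W : Polynomial Ω) (hW : W ≠ 0) (xb : Ω⟦X⟧) (b : Ω)
    (d : ℕ) (hd : 0 < d) (hx : order (xb - C b) = d) :
    order (Polynomial.aeval xb W) = ((d * W.rootMultiplicity b : ℕ) : ℕ∞) := by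
  have hb : constantCoeff xb = b := by simpa [sub_eq_zero] using Lau_cc hd hx
  obtain ⟨W₁, h1, h2⟩ := Polynomial.exists_eq_pow_rootMultiplicity_mul_and_not_dvd W hW b
  have h3 : order (Polynomial.aeval xb W₁) = (0 : ℕ) := by
    refine order_eq_nat.mpr ⟨?_, fun i hi => absurd hi (Nat.not_lt_zero i)⟩
    rw [coeff_zero_eq_constantCoeff_apply, PolL_cc, hb]
    exact fun h => h2 (Polynomial.dvd_iff_isRoot.mpr h)
  conv_lhs => rw [h1]
  rw [map_mul, map_pow, map_sub, Polynomial.aeval_X, Polynomial.aeval_C, ← C_eq_algebraMap,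
    order_mul, order_pow, hx, h3]
  simp [mul_comm]

end Pool.Agent.MP_deef5c_ag.O
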