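import Pool.Agent.MP_deef5c_ag.O.Asr

/-! Reduced pole orders. -/

open PowerSeries IsLocalRing Finset Function
open scoped Polynomial

namespace Pool.Agent.MP_deef5c_ag.O

universe u

open WithZero

variable (p : ℕ) [Fact p.Prime] {k : Type u} [Field k] [CharP k p]

theorem RedP_th_zero : th (0 : LaurentSeries k) = 0 := by
  ext a
  rw [coeff_th]
  simp

theorem RedP_th_sub (y z : LaurentSeries k) : th (y - z) = th y - th z := by
  have h := th_add (y - z) z
  rw [sub_add_cancel] at h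
  rw [h]
  ring

theorem RedP_add_eq {y z : LaurentSeries k} {b : ℤ} (hy : vv k y = exp b) (hz : vv k z < exp b) :
    vv k (y + z) = exp b := by
  rw [← hy] at hz ⊢
  exact Valuation.map_add_eq_of_lt_left _ hz

theorem RedP_one_lt {b : ℤ} (hb : 0 < b) : (1 : WithZero (Multiplicative ℤ)) < exp b := by
  rw [← exp_zero]
  exact exp_lt_exp.mpr hb

/-- Write `f = f₀ + u^p - u` with `f₀` from `asr`, so `th f = th f₀ - th u`, and `f₀ = 0` or
`vv f₀ = vv (th f₀) = exp λ`, `p ∤ λ`.  If `vv u ≤ 1` then `vv (th u) < 1 < exp b`.  If `vv u = exp c`,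
`c > 0`, then either `p c ≤ a` and `c < b`, or `p c < λ`. In all cases `λ = b`. -/
theorem red_pole [IsAlgClosed k] (f : LaurentSeries k) (a b : ℤ) (hf : vv k f ≤ exp a)
    (hb : vv k (th f) = exp b) (hab : a < p * b) :
    ¬ (p : ℤ) ∣ b ∧ 0 < b ∧ ∃ u, vv k (f - (u ^ p - u)) = exp b := by
  have hp : 2 ≤ p := (Fact.out : p.Prime).two_le
  have hpz : (2 : ℤ) ≤ (p : ℤ) := by exact_mod_cast hp
  have hba : b ≤ a := by
    have h1 := (vv_th_le f).trans hf
    rw [hb] at h1
    exact exp_le_exp.mp h1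
  have hb0 : 0 < b := by nlinarith
  obtain ⟨r, u, hr, hz⟩ := asr p f
  have hX : order (X : k⟦X⟧) = ((1 : ℕ) : ℕ∞) := by simp [order_X]
  have hX' : order (d⁄dX k (X : k⟦X⟧)) + 1 = ((0 + 1 : ℕ) : ℕ∞) := by
    simp [derivative_X, order_one]
  set f0 := Polynomial.aeval (lc k X)⁻¹ r with hf0
  have hf0' : f - (u ^ p - u) = f0 := by rw [hz]; ring
  have hred : r ≠ 0 → ¬ p ∣ r.natDegree ∧ vv k f0 = exp (r.natDegree : ℤ) ∧
      vv k (th f0) = exp (r.natDegree : ℤ) := by
    intro h0
    have h := vv_red p (X : k⟦X⟧) 1 0 one_pos hX hX' r hr h0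
    simpa only [one_mul, Nat.cast_zero, sub_zero] using h
  have hr0 : r = 0 → f0 = 0 := by
    intro h0
    rw [hf0, h0, map_zero]
  have hu : vv k (th u) < exp b := by
    by_cases h1 : vv k u ≤ 1
    · exact (vv_th_lt h1).trans (RedP_one_lt hb0)
    · push Not at h1
      have hu0 : vv k u ≠ 0 := (zero_lt_one.trans h1).ne'
      obtain ⟨c, hc⟩ : ∃ c : ℤ, vv k u = exp c := ⟨log (vv k u), (exp_log hu0).symm⟩
      have hc0 : 0 < c := by
        rw [hc, ← exp_zero] at h1
        exact exp_lt_exp.mp h1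
      have hup : vv k (u ^ p) = exp ((p : ℤ) * c) := by
        rw [map_pow, hc, ← exp_nsmul]
        simp
      have hW : vv k (u ^ p - u) = exp ((p : ℤ) * c) := by
        rw [sub_eq_add_neg]
        refine RedP_add_eq hup ?_
        rw [Valuation.map_neg, hc]
        exact exp_lt_exp.mpr (by nlinarith)
      by_cases h2 : (p : ℤ) * c ≤ a
      · have hcb : c < b := by nlinarith
        exact (vv_th_le u).trans_lt (by rw [hc]; exact exp_lt_exp.mpr hcb)
      · exfalso
        push Not at h2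
        have h3 : vv k f0 = exp ((p : ℤ) * c) := by
          rw [← hf0', sub_eq_add_neg, add_comm]
          refine RedP_add_eq (by rw [Valuation.map_neg, hW]) ?_
          exact hf.trans_lt (exp_lt_exp.mpr h2)
        have h0 : r ≠ 0 := by
          intro h0
          rw [hr0 h0, map_zero] at h3
          exact exp_ne_zero h3.symm
        obtain ⟨h4, h5, -⟩ := hred h0
        rw [h5] at h3
        have h6 : (r.natDegree : ℤ) = p * c := exp_injective h3
        exact h4 (Int.natCast_dvd_natCast.mp ⟨c, h6⟩)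
  have hth : th f0 = th f + th u := by
    rw [← hf0', RedP_th_sub, RedP_th_sub, th_pow_char p]
    ring
  have h7 : vv k (th f0) = exp b := by
    rw [hth]
    exact RedP_add_eq hb hu
  have h0 : r ≠ 0 := by
    intro h0
    rw [hr0 h0, RedP_th_zero, map_zero] at h7
    exact exp_ne_zero h7.symm
  obtain ⟨h4, h5, h6⟩ := hred h0
  rw [h6] at h7
  have h8 : (r.natDegree : ℤ) = b := exp_injective h7
  refine ⟨?_, hb0, u, ?_⟩
  · rw [← h8]
    exact fun h => h4 (Int.natCast_dvd_natCast.mp h)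
  · rw [hf0', h5, h8]

/-- The reduced pole order at a point over a constant tower.  With `U = max (p u') (deg r)`, the series
`g = c + r(1/x) + h` has `vv g ≤ exp (q U)` and `vv (th g) = exp (q U - κ)` (`vv_red`; `p u' ≠ deg r`
unless `r = 0`); apply `red_pole`, where `p κ < (p-1) q U`. -/
theorem loc0 [IsAlgClosed k] (x : k⟦X⟧) (q κ u' : ℕ) (hq : 0 < q) (hx : order x = q)
    (hκ : order (d⁄dX k x) + 1 = ((κ + q : ℕ) : ℕ∞)) (c h : LaurentSeries k)
    (hc : vv k c ≤ exp ((q * (p * u') : ℕ) : ℤ))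
    (hc' : (u' = 0 ∧ c = 0 ∧ κ = 0) ∨
      (κ < q * u' ∧ vv k (th c) = exp (((q * (p * u') : ℕ) : ℤ) - κ)))
    (hh : vv k h ≤ 1) (r : k[X]) (hr : Red p r) (hU : 0 < max (p * u') r.natDegree) :
    ∃ (lam : ℕ) (u : LaurentSeries k), lam + κ = q * max (p * u') r.natDegree ∧ ¬ p ∣ lam ∧
      vv k (c + Polynomial.aeval (lc k x)⁻¹ r + h - (u ^ p - u)) = exp (lam : ℤ) := by
  have hp : 2 ≤ p := (Fact.out : p.Prime).two_le
  set U := max (p * u') r.natDegree with hUdef
  set R := Polynomial.aeval (lc k x)⁻¹ r with hR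
  have hU1 : p * u' ≤ U := le_max_left _ _
  have hU2 : r.natDegree ≤ U := le_max_right _ _
  have hR0 : r = 0 → R = 0 := by
    intro h0
    rw [hR, h0, map_zero]
  have hκU : p * κ < (p - 1) * (q * U) := by
    obtain ⟨p', rfl⟩ : ∃ p', p = p' + 2 := ⟨p - 2, by omega⟩
    have e : p' + 2 - 1 = p' + 1 := by omega
    rw [e]
    rcases hc' with ⟨-, -, h0⟩ | ⟨h1, -⟩
    · rw [h0, mul_zero]
      positivity
    · have h2 : (p' + 2) * κ < (p' + 2) * (q * u') := Nat.mul_lt_mul_of_pos_left h1 (by omega)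
      have h3 : q * ((p' + 2) * u') ≤ q * U := Nat.mul_le_mul_left q hU1
      nlinarith [Nat.zero_le (p' * (q * U))]
  have hκU' : ((q * U : ℕ) : ℤ) < p * (((q * U : ℕ) : ℤ) - κ) := by
    have h1 : ((p * κ : ℕ) : ℤ) < (((p - 1) * (q * U) : ℕ) : ℤ) := by exact_mod_cast hκU
    rw [Nat.cast_mul (p - 1), Nat.cast_sub (by omega : 1 ≤ p)] at h1
    push_cast at h1 ⊢
    linarith
  have hpos : (0 : ℤ) < ((q * U : ℕ) : ℤ) - κ := by
    have hpz : (2 : ℤ) ≤ (p : ℤ) := by exact_mod_cast hp
    have h0 : (0 : ℤ) ≤ ((q * U : ℕ) : ℤ) := Int.natCast_nonneg _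
    by_contra hneg
    push Not at hneg
    nlinarith
  have hle : vv k (c + R + h) ≤ exp ((q * U : ℕ) : ℤ) := by
    refine Valuation.map_add_le _ (Valuation.map_add_le _ ?_ ?_) ?_
    · refine hc.trans (exp_le_exp.mpr ?_)
      exact_mod_cast Nat.mul_le_mul_left q hU1
    · by_cases h0 : r = 0
      · rw [hR0 h0, map_zero]
        exact zero_le
      · rw [(vv_red p x q κ hq hx hκ r hr h0).2.1]
        refine exp_le_exp.mpr ?_
        exact_mod_cast Nat.mul_le_mul_left q hU2
    · refine hh.trans ?_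
      rw [← exp_zero]
      exact exp_le_exp.mpr (Int.natCast_nonneg _)
  have hth : vv k (th (c + R + h)) = exp (((q * U : ℕ) : ℤ) - κ) := by
    rw [th_add, th_add]
    refine RedP_add_eq ?_ ((vv_th_lt hh).trans (RedP_one_lt hpos))
    rcases hc' with ⟨h1, h2, h3⟩ | ⟨h1, h2⟩
    · have hUr : U = r.natDegree := by rw [hUdef, h1]; simp
      have h0 : r ≠ 0 := by
        intro h0
        rw [h0, Polynomial.natDegree_zero] at hUr
        omega
      rw [h2, RedP_th_zero, zero_add, (vv_red p x q κ hq hx hκ r hr h0).2.2, hUr]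
    · by_cases h0 : r = 0
      · have hUr : U = p * u' := by rw [hUdef, h0]; simp
        rw [hR0 h0, RedP_th_zero, add_zero, h2, hUr]
      · obtain ⟨h3, -, h4⟩ := vv_red p x q κ hq hx hκ r hr h0
        rcases lt_trichotomy (p * u') r.natDegree with h5 | h5 | h5
        · have hUr : U = r.natDegree := max_eq_right h5.le
          rw [add_comm, hUr]
          refine RedP_add_eq h4 ?_
          rw [h2]
          refine exp_lt_exp.mpr ?_
          have h6 : q * (p * u') < q * r.natDegree := Nat.mul_lt_mul_of_pos_left h5 hq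
          have h7 : ((q * (p * u') : ℕ) : ℤ) < ((q * r.natDegree : ℕ) : ℤ) := by exact_mod_cast h6
          linarith
        · exact absurd ⟨u', h5.symm⟩ h3
        · have hUr : U = p * u' := max_eq_left h5.le
          rw [hUr]
          refine RedP_add_eq h2 ?_
          rw [h4]
          refine exp_lt_exp.mpr ?_
          have h6 : q * r.natDegree < q * (p * u') := Nat.mul_lt_mul_of_pos_left h5 hq
          have h7 : ((q * r.natDegree : ℕ) : ℤ) < ((q * (p * u') : ℕ) : ℤ) := by exact_mod_cast h6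
          linarith
  obtain ⟨h1, h2, u, h3⟩ := red_pole p (c + R + h) _ _ hle hth hκU'
  obtain ⟨lam, hlam⟩ := Int.eq_ofNat_of_zero_le h2.le
  refine ⟨lam, u, ?_, ?_, ?_⟩
  · have h4 : ((lam + κ : ℕ) : ℤ) = ((q * U : ℕ) : ℤ) := by
      rw [Nat.cast_add, ← hlam]
      ring
    exact_mod_cast h4
  · rw [hlam] at h1
    exact fun h => h1 (Int.natCast_dvd_natCast.mpr h)
  · rw [h3, hlam]

end Pool.Agent.MP_deef5c_ag.O
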