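import Pool.Agent.MP_deef5c_ag.O.Desc

/-! Rigidity of maps over the quotient. -/

open PowerSeries IsLocalRing Finset Function
open scoped Polynomial

namespace Pool.Agent.MP_deef5c_ag.O

universe u

variable {k : Type u} [Field k] {D : Type u} [CommRing D] [IsDomain D] [IsLocalRing D] [CL D]
  [Algebra k D]

omit [IsDomain D] [IsLocalRing D] [CL D] in
theorem Uniq_surj (π : D →ₐ[k] k) : Surjective (π : D →+* k) := fun c =>
  ⟨algebraMap k D c, π.commutes c⟩

omit [IsDomain D] [IsLocalRing D] [CL D] in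
theorem Uniq_cst (π : D →ₐ[k] k) (f : k⟦X⟧) : PowerSeries.map (π : D →+* k) (cst D f) = f := by
  ext n
  simp

theorem Uniq_mem {x : k⟦X⟧} {d : ℕ} (hd : 0 < d) (hx : order x = d) :
    constantCoeff x ∈ maximalIdeal k :=
  Qb_mem (RingHom.id k) surjective_id x d hd (by rw [map_id]; exact hx)

omit [IsDomain D] [CL D] in
theorem Uniq_mem' {x : k⟦X⟧} {d : ℕ} (hd : 0 < d) (hx : order x = d) :
    constantCoeff (cst D x) ∈ maximalIdeal D := by
  have h := Uniq_mem hd hx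
  rw [maximalIdeal_eq_bot, Ideal.mem_bot] at h
  rw [← coeff_zero_eq_constantCoeff_apply, coeff_map, coeff_zero_eq_constantCoeff_apply, h,
    map_zero]
  exact zero_mem _

omit [IsDomain D] in
theorem Uniq_pow (σ : En k) {d : ℕ} (hd : 0 < d) (hσ : order (σ X) = d) (i : ℕ) (f : k⟦X⟧) :
    cst D ((σ ^ i) f) = (sub (cst D (σ X)) ^ i) (cst D f) := by
  have h := Uniq_mem' (D := D) hd hσ
  exact map_en_pow _ σ _ (sub_X h).symm (by rwa [sub_X h]) i f

omit [IsDomain D] in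
theorem Uniq_one (σ : En k) {d : ℕ} (hd : 0 < d) (hσ : order (σ X) = d) (f : k⟦X⟧) :
    cst D (σ f) = sub (cst D (σ X)) (cst D f) := by
  simpa using Uniq_pow (D := D) σ hd hσ 1 f

omit [IsDomain D] [IsLocalRing D] [CL D] in
theorem Uniq_red (π : D →ₐ[k] k) (Φ : En D) {a : k⟦X⟧} {d : ℕ} (hd : 0 < d) (ha : order a = d)
    (h : PowerSeries.map (π : D →+* k) (Φ X) = a) (f : D⟦X⟧) :
    PowerSeries.map (π : D →+* k) (Φ f) = sub a (PowerSeries.map (π : D →+* k) f) := by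
  have h' := Uniq_mem hd ha
  exact map_en _ Φ _ (by rw [sub_X h', h]) (by rwa [sub_X h']) f

/-- The coefficients of `H = ∏_i (T - σ^i X)` are series in `x = nrm σ q X` (`qinv` over `k`), so `Φ₁` and
`Φ₂` agree on their constant extensions (`map_en`, `en_ext`).  Hence `Φ₁ X` is a root of
`∏_i (T - Φ₂ (cst (σ^i X)))`; reducing, `sub a (σ^i X) = sub a X` for the common reduction `a`, and
`sub a` is injective. -/
theorem uniq (π : D →ₐ[k] k) (σ : En k) (q : ℕ) (hq : 0 < q) (hσ : orderOf σ = q) (Φ₁ Φ₂ : En D)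
    (hx : Φ₁ (cst D (nrm σ q X)) = Φ₂ (cst D (nrm σ q X)))
    (hr : PowerSeries.map (π : D →+* k) (Φ₁ X) = PowerSeries.map (π : D →+* k) (Φ₂ X))
    (d : ℕ) (hd : 0 < d) (ho : order (PowerSeries.map (π : D →+* k) (Φ₁ X)) = d) : Φ₁ = Φ₂ := by
  have hp : σ ^ q = 1 := hσ ▸ pow_orderOf_eq_one σ
  have ox : order (nrm σ q X) = q := by rw [order_nrm hq hp, order_X, mul_one]
  have m1 := Qb_mem _ (Uniq_surj π) _ d hd ho
  have mx := Uniq_mem hq ox
  have mx' := Uniq_mem' (D := D) hq ox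
  have hA : ∀ f, σ f = f → Φ₁ (cst D f) = Φ₂ (cst D f) := fun f hf => by
    obtain ⟨g, rfl⟩ := qinv (RingHom.id k) surjective_id _ q hq (by rw [map_id]; exact ox) σ
      (nrm_inv hp X) (pow_X_inj hq hσ) f hf
    have e : Φ₁ * sub (cst D (nrm σ q X)) = Φ₂ * sub (cst D (nrm σ q X)) :=
      en_ext (by rw [AlgHom.mul_apply, AlgHom.mul_apply, sub_X mx', hx])
        (by rw [AlgHom.mul_apply, sub_X mx']; exact en_mem _ m1 mx')
    rw [Uniq_one (sub (nrm σ q X)) hq (by rw [sub_X mx, ox]), sub_X mx]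
    exact DFunLike.congr_fun e _
  have hH : ∀ {R : Type u} [CommRing R] (φ : k⟦X⟧ →+* R),
      (∏ i ∈ range q, (Polynomial.X - Polynomial.C ((σ ^ i) X))).map φ =
        ∏ i ∈ range q, (Polynomial.X - Polynomial.C (φ ((σ ^ i) X))) := fun φ => by
    simp only [Polynomial.map_prod, Polynomial.map_sub, Polynomial.map_X, Polynomial.map_C]
  have hB : (∏ i ∈ range q, (Polynomial.X - Polynomial.C ((σ ^ i) X))).map
      (σ : k⟦X⟧ →+* k⟦X⟧) = ∏ i ∈ range q, (Polynomial.X - Polynomial.C ((σ ^ i) X)) := by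
    have e := prod_range_succ' (fun i => Polynomial.X - Polynomial.C ((σ ^ i) X)) q
    rw [prod_range_succ, hp, pow_zero] at e
    rw [hH, mul_right_cancel₀ (Polynomial.X_sub_C_ne_zero _) e]
    exact prod_congr rfl fun i _ => by rw [pow_succ']; rfl
  have hC : (∏ i ∈ range q, (Polynomial.X - Polynomial.C ((σ ^ i) X))).map
      ((Φ₁ : D⟦X⟧ →+* D⟦X⟧).comp (cst D)) =
      (∏ i ∈ range q, (Polynomial.X - Polynomial.C ((σ ^ i) X))).map
      ((Φ₂ : D⟦X⟧ →+* D⟦X⟧).comp (cst D)) := by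
    ext1 j
    rw [Polynomial.coeff_map, Polynomial.coeff_map]
    exact hA _ (by simpa only [Polynomial.coeff_map, RingHom.coe_coe] using congrArg (Polynomial.coeff · j) hB)
  have hD := congrArg (Polynomial.eval (Φ₁ X)) hC
  rw [hH, hH, Polynomial.eval_prod, Polynomial.eval_prod,
    prod_eq_zero (mem_range.2 hq) (by simp), eq_comm, prod_eq_zero_iff] at hD
  obtain ⟨i, -, hi⟩ := hD
  rw [Polynomial.eval_sub, Polynomial.eval_X, Polynomial.eval_C, sub_eq_zero] at hi
  change Φ₁ X = Φ₂ (cst D ((σ ^ i) X)) at hi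
  have h1 := congrArg (PowerSeries.map (π : D →+* k)) hi
  rw [Uniq_red π Φ₂ hd ho hr.symm, Uniq_cst] at h1
  have h2 := sub_injective (RingHom.id k) surjective_id _ d hd (by rw [map_id]; exact ho)
    ((sub_X (Uniq_mem hd ho)).trans h1)
  rw [← h2, map_X] at hi
  exact en_ext hi m1

variable {p n m α : ℕ} [Fact p.Prime] [CharP k p] {ζ : k} {σ σ' : En k} {s : k⟦X⟧}

/-- `uniq` for `σD * sub sD` and `sub sD * sub (cst (σ' X))`, and for `tau ζ * sub sD` and
`sub sD * tau (ζ^p)` -/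
theorem lev_of (S : Sp p (n + 1) m α ζ σ) (h : Desc p n σ σ' s) (S' : Sp p n m α (ζ ^ p) σ')
    {π : D →ₐ[k] k} {σD : En D} {x sD : D⟦X⟧} (F : Fam p (n + 1) α ζ σ π σD x)
    (hs : PowerSeries.map (π : D →+* k) sD = s) (hx : sub sD (cst D (xb p n σ')) = x) :
    Lev p n α ζ σ σ' s π σD x sD := by
  have hp : 0 < p := (Fact.out : p.Prime).pos
  have os := h.order_s S
  have o1 : order (σ X) = (1 : ℕ) := order_one (pow_pos hp _) S.pow
  have o2 : order (σ' X) = (1 : ℕ) := order_one (pow_pos hp _) S'.pow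
  have ms := Uniq_mem hp os
  have mD : constantCoeff sD ∈ maximalIdeal D := Qb_mem _ (Uniq_surj π) _ p hp (by rw [hs, os])
  have r1 : ∀ f, PowerSeries.map (π : D →+* k) (sub sD f) =
      sub s (PowerSeries.map (π : D →+* k) f) := Uniq_red π _ hp os (by rw [sub_X mD, hs])
  have r2 : PowerSeries.map (π : D →+* k) ((σD * sub sD) X) = σ s := by
    rw [AlgHom.mul_apply, sub_X mD, map_en _ σD σ F.red (Uniq_mem one_pos o1), hs]
  have e1 : σD * sub sD = sub sD * sub (cst D (σ' X)) := by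
    refine uniq π σ' _ (pow_pos hp _) S'.ord _ _ ?_ ?_ p hp ?_
    · rw [AlgHom.mul_apply, AlgHom.mul_apply, ← Uniq_one σ' one_pos o2, nrm_inv S'.pow]
      change σD (sub sD (cst D (xb p n σ'))) = sub sD (cst D (xb p n σ'))
      rw [hx, F.inv]
    · rw [r2, AlgHom.mul_apply, sub_X (Uniq_mem' one_pos o2), r1, Uniq_cst, ← AlgHom.mul_apply,
        h.comm, AlgHom.mul_apply, sub_X ms]
    · rw [r2, order_en σ 1 one_pos o1, os, Nat.cast_one, one_mul]
  have r3 : PowerSeries.map (π : D →+* k) ((tau (algebraMap k D ζ) * sub sD) X) =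
      C (ζ ^ p) * s := by
    have e := DFunLike.congr_fun (h.tau_s S) X
    rw [AlgHom.mul_apply, AlgHom.mul_apply, sub_X ms, tau_X, map_mul, Base_en_C, sub_X ms] at e
    rw [AlgHom.mul_apply, sub_X mD, map_tau, hs, ← e]
    exact congrArg (tau · s) (π.commutes ζ)
  have e2 : tau (algebraMap k D ζ) * sub sD = sub sD * tau (algebraMap k D (ζ ^ p)) := by
    refine uniq π σ' _ (pow_pos hp _) S'.ord _ _ ?_ ?_ p hp ?_
    · rw [AlgHom.mul_apply, AlgHom.mul_apply, ← map_tau, tau_nrm ⟨S'.pow, S'.rel⟩ (S'.cop n),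
        map_mul, map_C, map_mul, Base_en_C]
      change tau _ (sub sD (cst D (xb p n σ'))) = _ * sub sD (cst D (xb p n σ'))
      rw [hx, F.eig, ← pow_mul, ← pow_succ']
    · rw [r3, AlgHom.mul_apply, r1, map_tau, map_X, tau_X, map_mul, Base_en_C, sub_X ms]
      exact congrArg (C · * s) (π.commutes _).symm
    · rw [r3, order_mul, os, order_zero_of_unit
        (((S.prim.isUnit S.mpos.ne').pow p).map (C (R := k))), zero_add]
  refine ⟨F, hs, hx, ?_, fun g => ?_, fun g => ?_⟩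
  · have e := DFunLike.congr_fun (SemiconjBy.pow_right e1.symm (p ^ n)).eq X
    rw [AlgHom.mul_apply, AlgHom.mul_apply, sub_X mD] at e
    have e' := Uniq_pow (D := D) σ' one_pos o2 (p ^ n) X
    rw [S'.pow, AlgHom.one_apply, map_X] at e'
    rw [← e, ← e', sub_X mD]
  · rw [Uniq_one σ' one_pos o2]
    exact (DFunLike.congr_fun e1 _).symm
  · rw [map_tau]
    exact (DFunLike.congr_fun e2 _).symm

/-- a trivialisation intertwines the actions -/
theorem triv_comm (S : Sp p n m α ζ σ) {π : D →ₐ[k] k} {σD : En D} {x : D⟦X⟧}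
    (F : Fam p n α ζ σ π σD x) (Φ : En D) (h1 : PowerSeries.map (π : D →+* k) (Φ X) = X)
    (h2 : Φ (cst D (xb p n σ)) = x) : Φ * sub (cst D (σ X)) = σD * Φ := by
  have hp : 0 < p := (Fact.out : p.Prime).pos
  have o1 : order (σ X) = (1 : ℕ) := order_one (pow_pos hp _) S.pow
  have r1 : PowerSeries.map (π : D →+* k) ((Φ * sub (cst D (σ X))) X) = σ X := by
    rw [AlgHom.mul_apply, sub_X (Uniq_mem' one_pos o1),
      map_en _ Φ 1 h1 (Uniq_mem one_pos order_X), Uniq_cst, AlgHom.one_apply]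
  refine uniq π σ _ (pow_pos hp _) S.ord _ _ ?_ ?_ 1 one_pos (by rw [r1, o1])
  · rw [AlgHom.mul_apply, AlgHom.mul_apply, ← Uniq_one σ one_pos o1, nrm_inv S.pow]
    change Φ (cst D (xb p n σ)) = σD (Φ (cst D (xb p n σ)))
    rw [h2, F.inv]
  · rw [r1, AlgHom.mul_apply, map_en _ σD σ F.red (Uniq_mem one_pos o1), h1]

/-- level zero: `Φ = sub x` -/
theorem triv_zero (S : Sp p 0 m α ζ σ) {π : D →ₐ[k] k} {σD : En D} {x : D⟦X⟧}
    (F : Fam p 0 α ζ σ π σD x) : Triv π (xb p 0 σ) x := by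
  have mD : constantCoeff x ∈ maximalIdeal D :=
    Qb_mem _ (Uniq_surj π) _ _ (pow_pos (Fact.out : p.Prime).pos 0) (by rw [F.redx, S.order_xb])
  have e : xb p 0 σ = X := by simp [xb, nrm]
  exact ⟨sub x, by rw [sub_X mD, F.redx, e], by rw [e, map_X, sub_X mD]⟩

end Pool.Agent.MP_deef5c_ag.O
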