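import Pool.Agent.MP_deef5c_ag.O.Lasc
import Pool.Agent.MP_deef5c_ag.O.PolL
import Pool.Agent.MP_deef5c_ag.O.Uniq
import Pool.Agent.MP_deef5c_ag.O.RedP
import Pool.Agent.MP_deef5c_ag.O.Nf

/-! Ramification at a point of the generic fibre. -/

open PowerSeries IsLocalRing Finset Function
open scoped Polynomial

namespace Pool.Agent.MP_deef5c_ag.O

universe u

open WithZero

variable {k : Type u} [Field k] {p n m α : ℕ} [Fact p.Prime] [CharP k p] {ζ : k} {σ σ' : En k}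
  {s : k⟦X⟧}

variable {D : Type u} [CommRing D] [IsDomain D] [IsLocalRing D] [CL D] [Algebra k D]

variable {Ω : Type u} [Field Ω] [IsAlgClosed Ω] [Algebra k Ω]

/-- Put `xb = ev (cst x')`.  First part: apply `ev` to `WF.hW` (`ev υ` is a unit,
`ev (aeval (cst x') Wf) = aeval xb (Wf.map ι)`) and use `order_aeval`.  Second part: take `r, h, u` from
`Pol`; apply `lasc` with `A = B = D⟦X⟧`, `j = sub sD`, `ρ = σD^(p^n)` (`Fam.rho_fix`), `t = X`,
`e = aeval (cst x') ((X Wf)^N)`, `H = (aeval (cst x') Wf)^(pN) cst G + aeval (cst x') P₀`; here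
`ev H / (ev e)^p = ev (cst G) / xb^(pN) + P₀(xb) / g(xb)^p`. -/
theorem gen_pt (S : Sp p (n + 1) m α ζ σ) (h : Desc p n σ σ' s) (S' : Sp p n m α (ζ ^ p) σ')
    {π : D →ₐ[k] k} {σD : En D} {x sD : D⟦X⟧} (L : Lev p n α ζ σ σ' s π σD x sD)
    {N l : ℕ} {G : k⟦X⟧} {ξ : D} {Wf P₀ : D[X]} {GF υ Y : D⟦X⟧}
    (B : WF p n l ξ σD x sD (cst D (xb p n σ')) Wf GF υ) (H : NF p n N π σD x sD G Wf P₀ Y)
    (ι : D →ₐ[k] Ω) (c : Ω → ℕ → Ω)
    (hc : Pol p (((Polynomial.X * Wf) ^ N).map (ι : D →+* Ω)) (P₀.map (ι : D →+* Ω)) c)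
    (ev : D⟦X⟧ →+* Ω⟦X⟧) (hev : Injective ev) (hC : ∀ a, ev (C a) = C (ι a)) (b : Ω) (d : ℕ)
    (hd : 0 < d) (hb : order (ev (cst D (xb p n σ')) - C b) = d) :
    ∃ μ : ℕ, d * (Wf.map (ι : D →+* Ω)).rootMultiplicity b = p ^ n * μ ∧
      ∃ (r : Polynomial Ω) (h₀ : LaurentSeries Ω), (∀ j, r.coeff j = c b j) ∧ vv Ω h₀ ≤ 1 ∧
        ∀ (lam : ℕ) (u : LaurentSeries Ω), ¬ p ∣ lam →
          vv Ω (lc Ω (ev (cst D G)) / lc Ω (ev (cst D (xb p n σ'))) ^ (p * N) +
            Polynomial.aeval (lc Ω (ev (cst D (xb p n σ')) - C b))⁻¹ r + h₀ - (u ^ p - u)) =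
            exp (lam : ℤ) → lam + 1 ≤ μ := by
  have hp : 0 < p := (Fact.out : p.Prime).pos
  have hΩ : CharP Ω p := charP_of_injective_algebraMap (algebraMap k Ω).injective p
  have hL : CharP (LaurentSeries Ω) p :=
    charP_of_injective_algebraMap (algebraMap Ω (LaurentSeries Ω)).injective p
  have hD : CharP D⟦X⟧ p := charP_of_injective_algebraMap (algebraMap k D⟦X⟧).injective p
  have hπ : Surjective (π : D →+* k) := fun a => ⟨algebraMap k D a, π.commutes a⟩
  have hx0 : cst D (xb p n σ') ≠ 0 := by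
    rw [map_ne_zero_iff _ (PowerSeries.map_injective _ (algebraMap k D).injective)]
    intro e
    have := S'.order_xb
    rw [e, order_zero] at this
    exact ENat.top_ne_natCast _ this
  have hx := L.hx
  have hW := B.hW
  generalize cst D (xb p n σ') = x' at hx0 hx hW hb ⊢
  have hae : ∀ P : D[X], ev (Polynomial.aeval x' P) =
      Polynomial.aeval (ev x') (P.map (ι : D →+* Ω)) := fun P =>
    Polynomial.map_aeval_eq_aeval_map (RingHom.ext fun a => (hC a).symm) P x'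
  have hje : ∀ P : D[X], sub sD (Polynomial.aeval x' P) = Polynomial.aeval x P := fun P => by
    rw [← Polynomial.aeval_algHom_apply, hx]
  have ho := order_aeval _ (B.dist.monic.map (ι : D →+* Ω)).ne_zero (ev x') b d hd hb
  have hW0 : Polynomial.aeval (ev x') (Wf.map (ι : D →+* Ω)) ≠ 0 := by
    intro e
    rw [e, order_zero] at ho
    exact ENat.top_ne_natCast _ ho
  have hu0 : order (ev υ) = 0 := order_zero_of_unit (B.unit.map ev)
  have hG0 : ev GF ≠ 0 := by
    intro e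
    apply hW0
    rw [← hae, hW, map_mul, map_pow, e, zero_pow (pow_pos hp n).ne', mul_zero]
  obtain ⟨μ, hμ⟩ := ENat.ne_top_iff_exists.1 (order_eq_top.not.2 hG0)
  rw [← hae, hW, map_mul, map_pow, order_mul, order_pow, hu0, zero_add, ← hμ, nsmul_eq_mul,
    ← Nat.cast_mul, Nat.cast_inj] at ho
  obtain ⟨r, h₀, u₀, hr, hh, hP⟩ := hc (ev x') b d hd hb
  refine ⟨μ, ho.symm, r, h₀, hr, hh, fun lam u hl hu => ?_⟩
  have hρ : ∀ (i : ℕ) a, (((σD ^ p ^ n : En D) : D⟦X⟧ →+* D⟦X⟧) ^ i) a = ((σD ^ p ^ n) ^ i) a := by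
    intro i a
    rw [RingHom.coe_pow, AlgHom.coe_pow]
    rfl
  have he : ev (Polynomial.aeval x' ((Polynomial.X * Wf) ^ N)) =
      (ev x' * Polynomial.aeval (ev x') (Wf.map (ι : D →+* Ω))) ^ N := by
    rw [map_pow, map_pow, map_mul, map_mul, Polynomial.aeval_X, hae]
  have hx1 : ev x' ≠ 0 := (map_ne_zero_iff _ hev).2 hx0
  have key := lasc p (sub sD : D⟦X⟧ →+* D⟦X⟧)
    (sub_injective (π : D →+* k) hπ sD p hp (by rw [L.red, h.order_s S]))
    ((σD ^ p ^ n : En D) : D⟦X⟧ →+* D⟦X⟧)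
    (fun a => by rw [hρ, ← pow_mul, ← pow_succ, L.fam.rel.1]; rfl)
    (fun a => L.fam.rho_fix S h L.red L.inv a) Y X
    (Polynomial.aeval x' ((Polynomial.X * Wf) ^ N))
    (Polynomial.aeval x' Wf ^ (p * N) * cst D G + Polynomial.aeval x' P₀) GF
    (fun e => by
      rw [e, map_zero] at he
      exact pow_ne_zero N (mul_ne_zero hx1 hW0) he.symm)
    (by rw [RingHom.coe_coe, RingHom.coe_coe, hje]; exact H.rho)
    (by rw [RingHom.coe_coe, hje, map_add, map_mul, map_pow, hje, hje, H.art])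
    (by simp only [hρ]; exact B.hG) ev hev lam hl (u + u₀) (by
      rw [← hu, map_add ev, map_add (lc Ω), add_div, hae P₀, hae ((Polynomial.X * Wf) ^ N), hP,
        ← hae, he, map_mul, map_pow, hae, add_pow_char]
      congr 1
      have h1 := Lau_ne hx1
      have h2 := Lau_ne hW0
      simp only [map_mul, map_pow]
      generalize lc Ω (ev x') = a at h1 ⊢
      generalize lc Ω (Polynomial.aeval (ev x') (Wf.map (ι : D →+* Ω))) = w at h2 ⊢
      have e1 : w ^ (p * N) * lc Ω (ev (cst D G)) / ((a * w) ^ N) ^ p =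
          lc Ω (ev (cst D G)) / a ^ (p * N) := by
        rw [← pow_mul, mul_comm N p, mul_pow]
        field_simp
      rw [e1]
      ring)
  rw [← hμ] at key
  exact_mod_cast key

end Pool.Agent.MP_deef5c_ag.O
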