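import Pool.Agent.MP_deef5c_ag.O.GenP

/-! The origin of the generic fibre. -/

open PowerSeries IsLocalRing Finset Function
open scoped Polynomial

namespace Pool.Agent.MP_deef5c_ag.O

universe u

open WithZero

variable {k : Type u} [Field k] {p n m α : ℕ} [Fact p.Prime] [CharP k p] {ζ : k} {σ σ' : En k}
  {s : k⟦X⟧}

variable {D : Type u} [CommRing D] [IsDomain D] [IsLocalRing D] [CL D] [Algebra k D]

variable {Ω : Type u} [Field Ω] [IsAlgClosed Ω] [Algebra k Ω]

theorem GenZ_order {k Ω : Type u} [Field k] [Field Ω] (φ : k →+* Ω) {f : k⟦X⟧} {d : ℕ}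
    (h : order f = d) : order (PowerSeries.map φ f) = d := by
  rw [← vv_lc_eq, ← lmap_lc, vv_lmap, vv_lc_eq, h]

theorem GenZ_aeval {k Ω : Type u} [Field k] [Field Ω] (φ : k →+* Ω) (y : LaurentSeries k)
    (r : k[X]) : lmap φ (Polynomial.aeval y r) = Polynomial.aeval (lmap φ y) (r.map φ) := by
  refine Polynomial.map_aeval_eq_aeval_map ?_ r y
  ext1 c
  have e : ∀ (K : Type u) [Field K] (c : K), algebraMap K (LaurentSeries K) c = lc K (C c) :=
    fun K _ c => rfl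
  rw [RingHom.comp_apply, RingHom.comp_apply, e, e, lmap_lc, PowerSeries.map_C]

/-- `gen_pt` with `ev = map ι`, `b = 0`, `d = p^n`.  Then `lc (ev (cst G)) = lmap (lc G)`, so the series
is `lmap c + r₁(1/x') + h₀` up to `z^p - z`, with `r₁ = r + r₀.map`; `r₁` is reduced.  Let
`U = max (p u') (deg r₁)`; if `U = 0` take `w'' = 0`, else `w'' = U + 1` and use `loc0` over `Ω`
(`vv_lmap`, `th_lmap`). For `j > deg r₁`, `c 0 j = - r₀.coeff j`. -/
theorem gen_zero (S : Sp p (n + 1) m α ζ σ) (h : Desc p n σ σ' s) (S' : Sp p n m α (ζ ^ p) σ')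
    {π : D →ₐ[k] k} {σD : En D} {x sD : D⟦X⟧} (L : Lev p n α ζ σ σ' s π σD x sD)
    {N l : ℕ} {G : k⟦X⟧} {ξ : D} {Wf P₀ : D[X]} {GF υ Y : D⟦X⟧}
    (B : WF p n l ξ σD x sD (cst D (xb p n σ')) Wf GF υ) (H : NF p n N π σD x sD G Wf P₀ Y)
    {κ u' : ℕ} {c₀ z : LaurentSeries k} {r₀ : k[X]} (O : PO p (p ^ n) (xb p n σ') κ u' c₀)
    (hr : Red p r₀) (hG : lc k G = lc k (xb p n σ') ^ (p * N) *
      (c₀ + Polynomial.aeval (lc k (xb p n σ'))⁻¹ r₀ + (z ^ p - z)))
    (ι : D →ₐ[k] Ω) (hι : Injective ι) (c : Ω → ℕ → Ω)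
    (hc : Pol p (((Polynomial.X * Wf) ^ N).map (ι : D →+* Ω)) (P₀.map (ι : D →+* Ω)) c)
    (hp : ∀ b j, p ∣ j → c b j = 0) :
    ∃ w'' : ℕ, p ^ n * w'' + 1 ≤ (Wf.map (ι : D →+* Ω)).rootMultiplicity 0 + κ + p ^ n ∧
      (∀ j, w'' ≤ j → c 0 j ∈ Set.range (algebraMap k Ω)) ∧
      ((u' = 0 ∧ w'' = 0) ∨ p * u' + 1 ≤ w'') := by
  have hpp : p.Prime := Fact.out
  have hq : 0 < p ^ n := pow_pos hpp.pos n
  have : CharP Ω p := charP_of_injective_algebraMap (algebraMap k Ω).injective p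
  have : CharP (LaurentSeries Ω) p :=
    charP_of_injective_algebraMap (algebraMap Ω (LaurentSeries Ω)).injective p
  have hm : ∀ f : k⟦X⟧, PowerSeries.map (ι : D →+* Ω) (cst D f) =
      PowerSeries.map (algebraMap k Ω) f := by
    intro f
    ext a
    simp
  have hx : order (PowerSeries.map (algebraMap k Ω) (xb p n σ')) = ((p ^ n : ℕ) : ℕ∞) :=
    GenZ_order _ S'.order_xb
  obtain ⟨μ, hμ, r, h₀, hrc, hh, hmain⟩ := gen_pt S h S' L B H ι c hc
    (PowerSeries.map (ι : D →+* Ω)) (PowerSeries.map_injective _ hι)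
    (fun a => PowerSeries.map_C _ a) 0 (p ^ n) hq (by rw [hm, map_zero, sub_zero, hx])
  have hμ' := Nat.eq_of_mul_eq_mul_left hq hμ
  simp only [hm, map_zero, sub_zero] at hmain
  set φ := algebraMap k Ω with hφ
  set x' := xb p n σ' with hx'
  set r₁ := r + r₀.map φ with hr₁
  have hred : Red p r₁ := by
    intro j hj
    rw [hr₁, Polynomial.coeff_add, Polynomial.coeff_map, hrc, hp 0 j hj, hr j hj, map_zero,
      add_zero]
  have hrange : ∀ j, r₁.natDegree < j → c 0 j ∈ Set.range φ := by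
    intro j hj
    have h1 := Polynomial.coeff_eq_zero_of_natDegree_lt hj
    rw [hr₁, Polynomial.coeff_add, Polynomial.coeff_map, hrc] at h1
    exact ⟨- r₀.coeff j, by rw [map_neg]; exact (eq_neg_of_add_eq_zero_left h1).symm⟩
  rcases Nat.eq_zero_or_pos (max (p * u') r₁.natDegree) with hU | hU
  · refine ⟨0, by omega, fun j _ => ?_, Or.inl ⟨?_, rfl⟩⟩
    · rcases Nat.eq_zero_or_pos j with rfl | hj
      · exact ⟨0, by rw [map_zero, hp 0 0 (dvd_zero p)]⟩
      · exact hrange j (by omega)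
    · have h1 : p * u' = 0 := by omega
      exact (Nat.mul_eq_zero.1 h1).resolve_left hpp.ne_zero
  · have hκ : order (d⁄dX Ω (PowerSeries.map φ x')) + 1 = ((κ + p ^ n : ℕ) : ℕ∞) := by
      have h1 := O.hκ
      have h2 : order (d⁄dX k x') ≠ ⊤ := by
        intro h2
        rw [h2, top_add] at h1
        exact ENat.top_ne_natCast _ h1
      obtain ⟨β, hβ⟩ := ENat.ne_top_iff_exists.1 h2
      rw [← map_der, GenZ_order φ hβ.symm, hβ, h1]
    obtain ⟨lam, u, h1, h2, h3⟩ := loc0 p (PowerSeries.map φ x') (p ^ n) κ u' hq hx hκ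
      (lmap φ c₀) h₀ (by rw [vv_lmap]; exact O.hc)
      (O.hc'.imp (fun h => ⟨h.1, by rw [h.2.1, map_zero], h.2.2⟩)
        (fun h => ⟨h.1, by rw [th_lmap, vv_lmap]; exact h.2⟩)) hh r₁ hred hU
    have hne : lc Ω (PowerSeries.map φ x') ≠ 0 := by
      refine Lau_ne fun h0 => ?_
      rw [h0, order_zero] at hx
      exact ENat.top_ne_natCast _ hx
    have h4 := hmain lam (u + lmap φ z) h2 (by
      rw [← h3]
      congr 1
      rw [← lmap_lc φ G, hG, map_mul, map_pow, lmap_lc,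
        mul_div_cancel_left₀ _ (pow_ne_zero _ hne), map_add, map_add, map_sub, map_pow, GenZ_aeval,
        map_inv₀, lmap_lc, add_pow_char, hr₁, map_add]
      ring)
    refine ⟨max (p * u') r₁.natDegree + 1, ?_, fun j hj => hrange j (by omega), Or.inr (by omega)⟩
    rw [mul_add, ← h1, hμ']
    omega

end Pool.Agent.MP_deef5c_ag.O
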