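import Pool.Agent.MP_deef5c_ag.O.Defs

/-! Normal form of numerators. -/

open PowerSeries IsLocalRing Finset Function
open scoped Polynomial

namespace Pool.Agent.MP_deef5c_ag.O

universe u

variable {A : Type u} [CommRing A] (p : ℕ) [Fact p.Prime]

/-- if `Z ≠ 0` has degree `a < E` then `Z * g^(p-1)` has degree `a + (p-1) E > p a` -/
theorem gl_unique (g Z : A[X]) (hg : g.Monic) (hZ : Z.degree < (g.natDegree : ℕ))
    (h : (Z ^ p - Z * g ^ (p - 1)).degree < (((p - 1) * g.natDegree : ℕ) : WithBot ℕ)) :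
    Z = 0 := by
  by_contra h0
  have : Nontrivial A := Polynomial.Nontrivial.of_polynomial_ne h0
  have hp : 1 ≤ p - 1 := by have := (Fact.out : p.Prime).two_le; omega
  rw [Polynomial.degree_eq_natDegree h0, Nat.cast_lt] at hZ
  have h1 : (Z * g ^ (p - 1)).degree = ((Z.natDegree + (p - 1) * g.natDegree : ℕ) : WithBot ℕ) := by
    rw [(hg.pow _).degree_mul, Polynomial.degree_eq_natDegree h0,
      Polynomial.degree_eq_natDegree (hg.pow _).ne_zero, hg.natDegree_pow]
    rfl
  have h2 : (Z ^ p).degree < (Z * g ^ (p - 1)).degree := by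
    rw [h1]
    refine lt_of_le_of_lt (Polynomial.degree_le_of_natDegree_le Polynomial.natDegree_pow_le) ?_
    rw [Nat.cast_lt]
    have e : p * Z.natDegree = Z.natDegree + (p - 1) * Z.natDegree := by
      obtain ⟨q, rfl⟩ : ∃ q, p = q + 1 := ⟨p - 1, by omega⟩
      simp only [Nat.add_sub_cancel]; ring
    rw [e]
    exact Nat.add_lt_add_left (Nat.mul_lt_mul_of_pos_left hZ (by omega)) _
  rw [Polynomial.degree_sub_eq_right_of_degree_lt h2, h1, Nat.cast_lt] at h
  omega

/-- downward induction on `a ≤ E`: the degree can be made `< (p-1) E + a`, adding `c X^a` to `Z` -/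
theorem gl_exists [CharP A p] (g P : A[X]) (hg : g.Monic)
    (hP : P.degree < ((p * g.natDegree : ℕ) : WithBot ℕ)) :
    ∃ Z : A[X], Z.degree < (g.natDegree : ℕ) ∧
      (P + Z ^ p - Z * g ^ (p - 1)).degree < (((p - 1) * g.natDegree : ℕ) : WithBot ℕ) := by
  have hp2 := (Fact.out : p.Prime).two_le
  have : Nontrivial A := CharP.nontrivial_of_char_ne_one (R := A) (v := p) (by omega)
  have e : ∀ a : ℕ, p * a = (p - 1) * a + a := by
    intro a
    obtain ⟨q, rfl⟩ : ∃ q, p = q + 1 := ⟨p - 1, by omega⟩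
    simp only [Nat.add_sub_cancel]; ring
  have key : ∀ n a : ℕ, a + n = g.natDegree → ∃ Z : A[X], Z.degree < (g.natDegree : ℕ) ∧
      (P + Z ^ p - Z * g ^ (p - 1)).degree < (((p - 1) * g.natDegree + a : ℕ) : WithBot ℕ) := by
    intro n
    induction n with
    | zero =>
      intro a ha
      refine ⟨0, by simp, ?_⟩
      rw [zero_pow (by omega), zero_mul, add_zero, sub_zero, show a = g.natDegree by omega, ← e]
      exact hP
    | succ n ih =>
      intro a ha
      obtain ⟨Z, hZ, hR⟩ := ih (a + 1) (by omega)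
      set R := P + Z ^ p - Z * g ^ (p - 1) with hRd
      set c := R.coeff ((p - 1) * g.natDegree + a) with hc
      have hW : (Polynomial.monomial a c).degree ≤ a := Polynomial.degree_monomial_le a c
      refine ⟨Z + Polynomial.monomial a c, ?_, ?_⟩
      · refine lt_of_le_of_lt (Polynomial.degree_add_le _ _) (max_lt hZ (lt_of_le_of_lt hW ?_))
        rw [Nat.cast_lt]; omega
      · have e1 : P + (Z + Polynomial.monomial a c) ^ p - (Z + Polynomial.monomial a c) * g ^ (p - 1)
            = (R - Polynomial.monomial a c * g ^ (p - 1)) + (Polynomial.monomial a c) ^ p := by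
          rw [add_pow_char, hRd]; ring
        rw [e1]
        refine lt_of_le_of_lt (Polynomial.degree_add_le _ _) (max_lt ?_ ?_)
        · rw [Polynomial.degree_lt_iff_coeff_zero] at hR ⊢
          intro m hm
          obtain ⟨j, rfl⟩ : ∃ j, m = j + a := ⟨m - a, by omega⟩
          rw [Polynomial.coeff_sub, Polynomial.coeff_monomial_mul]
          rcases (show (p - 1) * g.natDegree ≤ j by omega).eq_or_lt with hj | hj
          · rw [← hj, ← hc]
            conv_lhs => rw [← hg.natDegree_pow, (hg.pow _).coeff_natDegree]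
            ring
          · rw [hR _ (by omega), Polynomial.coeff_eq_zero_of_natDegree_lt
              (by rwa [hg.natDegree_pow])]
            ring
        · rw [Polynomial.monomial_pow]
          refine lt_of_le_of_lt (Polynomial.degree_monomial_le _ _) ?_
          rw [Nat.cast_lt, mul_comm a p, e]
          exact Nat.add_lt_add_right (Nat.mul_lt_mul_of_pos_left (by omega) (by omega)) _
  simpa using key g.natDegree 0 (zero_add _)

/-- descent to a subalgebra: lift `g`, `P` to `B[X]`, apply `gl_exists` there and `gl_unique` in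
`(Polynomial Ω)` to the difference of the two solutions -/
theorem gl_descend {k Ω : Type u} [Field k] [Field Ω] [Algebra k Ω] [CharP Ω p]
    (B : Subalgebra k Ω) (g P Z : (Polynomial Ω)) (hg : g.Monic) (hgB : ∀ i, g.coeff i ∈ B)
    (hPB : ∀ i, P.coeff i ∈ B) (hP : P.degree < ((p * g.natDegree : ℕ) : WithBot ℕ))
    (hZ : Z.degree < (g.natDegree : ℕ))
    (h : (P + Z ^ p - Z * g ^ (p - 1)).degree < (((p - 1) * g.natDegree : ℕ) : WithBot ℕ)) :
    ∀ i, (P + Z ^ p - Z * g ^ (p - 1)).coeff i ∈ B := by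
  have hinj : Function.Injective (algebraMap B Ω) := Subtype.val_injective
  have : CharP B p := RingHom.charP (algebraMap B Ω) hinj p
  obtain ⟨g', rfl⟩ : g ∈ Polynomial.lifts (algebraMap B Ω) :=
    (Polynomial.lifts_iff_coeff_lifts g).2 fun i => ⟨⟨_, hgB i⟩, rfl⟩
  obtain ⟨P', rfl⟩ : P ∈ Polynomial.lifts (algebraMap B Ω) :=
    (Polynomial.lifts_iff_coeff_lifts P).2 fun i => ⟨⟨_, hPB i⟩, rfl⟩
  simp only [Polynomial.coe_mapRingHom] at hg hP hZ h ⊢
  have hg' : g'.Monic := Polynomial.monic_of_injective hinj hg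
  have hd := Polynomial.natDegree_map_eq_of_injective hinj g'
  obtain ⟨Z', hZ', h'⟩ := gl_exists p g' P' hg'
    (by rwa [Polynomial.degree_map_eq_of_injective hinj, hd] at hP)
  rw [← Polynomial.degree_map_eq_of_injective hinj, ← hd] at hZ' h'
  have e : Polynomial.map (algebraMap B Ω) (P' + Z' ^ p - Z' * g' ^ (p - 1)) =
      P'.map (algebraMap B Ω) + Z'.map (algebraMap B Ω) ^ p -
        Z'.map (algebraMap B Ω) * g'.map (algebraMap B Ω) ^ (p - 1) := by
    simp
  have hz : Z - Z'.map (algebraMap B Ω) = 0 := by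
    refine gl_unique p _ _ hg (lt_of_le_of_lt (Polynomial.degree_sub_le _ _) (max_lt hZ hZ')) ?_
    rw [e] at h'
    refine lt_of_le_of_lt (le_of_eq (congrArg _ ?_))
      (lt_of_le_of_lt (Polynomial.degree_sub_le _ _) (max_lt h h'))
    rw [sub_pow_char]; ring
  intro i
  rw [sub_eq_zero.1 hz, ← e, Polynomial.coeff_map]
  exact Subtype.mem _

end Pool.Agent.MP_deef5c_ag.O
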