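import Pool.Agent.MP_deef5c_ag.O.Defs

/-! Reduced principal parts of a rational function. -/

open PowerSeries IsLocalRing Finset Function
open scoped Polynomial

namespace Pool.Agent.MP_deef5c_ag.O

universe u

namespace Pf.Aux

variable {Ω : Type u} [Field Ω] [DecidableEq Ω]

/-- principal parts with pole orders `n b` -/
noncomputable def pol (Z : Finset Ω) (n : Ω → ℕ) (c : Ω → ℕ → Ω) : (Polynomial Ω) :=
  ∑ b ∈ Z, (∑ j ∈ Icc 1 (n b), Polynomial.C (c b j) * (Polynomial.X - Polynomial.C b) ^ (n b - j)) *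
    ∏ b' ∈ Z.erase b, (Polynomial.X - Polynomial.C b') ^ (n b')

omit [DecidableEq Ω] in
theorem natDegree_den (Z : Finset Ω) (n : Ω → ℕ) :
    (∏ b ∈ Z, (Polynomial.X - Polynomial.C b) ^ n b : (Polynomial Ω)).natDegree = ∑ b ∈ Z, n b := by
  rw [Polynomial.natDegree_prod_of_monic _ _ fun b _ => (Polynomial.monic_X_sub_C b).pow _]
  refine Finset.sum_congr rfl fun b _ => ?_
  rw [Polynomial.natDegree_pow, Polynomial.natDegree_X_sub_C, mul_one]

omit [DecidableEq Ω] in
theorem monic_den (Z : Finset Ω) (n : Ω → ℕ) :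
    (∏ b ∈ Z, (Polynomial.X - Polynomial.C b) ^ n b : (Polynomial Ω)).Monic :=
  Polynomial.monic_prod_of_monic _ _ fun b _ => (Polynomial.monic_X_sub_C b).pow _

theorem pol_deg (Z : Finset Ω) (n : Ω → ℕ) (c : Ω → ℕ → Ω) :
    (pol Z n c).degree < ((∑ b ∈ Z, n b : ℕ) : WithBot ℕ) := by
  unfold pol
  refine (Polynomial.degree_sum_le _ _).trans_lt ?_
  rw [Finset.sup_lt_iff (WithBot.bot_lt_coe _)]
  intro b hb
  rw [Finset.sum_mul]
  refine (Polynomial.degree_sum_le _ _).trans_lt ?_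
  rw [Finset.sup_lt_iff (WithBot.bot_lt_coe _)]
  intro j hj
  rw [Finset.mem_Icc] at hj
  have h1 : (Polynomial.C (c b j) * (Polynomial.X - Polynomial.C b) ^ (n b - j) *
      ∏ b' ∈ Z.erase b, (Polynomial.X - Polynomial.C b') ^ (n b') : (Polynomial Ω)).natDegree ≤
      0 + (n b - j) + ∑ b' ∈ Z.erase b, n b' := by
    refine Polynomial.natDegree_mul_le.trans (add_le_add (Polynomial.natDegree_mul_le.trans
      (add_le_add (by simp) ?_)) (natDegree_den _ _).le)
    rw [Polynomial.natDegree_pow, Polynomial.natDegree_X_sub_C, mul_one]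
  refine Polynomial.degree_le_natDegree.trans_lt ?_
  have h2 := Finset.add_sum_erase Z n hb
  exact_mod_cast (by omega : _ < ∑ b ∈ Z, n b)

omit [DecidableEq Ω] in
theorem cop (Z : Finset Ω) : Set.Pairwise (Z : Set Ω) fun i j =>
    IsCoprime (Polynomial.X - Polynomial.C i : (Polynomial Ω)) (Polynomial.X - Polynomial.C j) :=
  fun _ _ _ _ hij => Polynomial.isCoprime_X_sub_C_of_isUnit_sub (sub_ne_zero.2 hij).isUnit

theorem pol_fin (Z : Finset Ω) (n : Ω → ℕ) (c : Ω → ℕ → Ω) :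
    pol Z n c = ∑ b ∈ Z, ∑ j : Fin (n b), Polynomial.C (c b (n b - j.1)) *
      (Polynomial.X - Polynomial.C b) ^ j.1 *
        ∏ b' ∈ Z.erase b, (Polynomial.X - Polynomial.C b') ^ (n b') := by
  unfold pol
  refine Finset.sum_congr rfl fun b _ => ?_
  rw [← Finset.sum_mul]
  congr 1
  rw [Fin.sum_univ_eq_sum_range (fun j => Polynomial.C (c b (n b - j)) *
    (Polynomial.X - Polynomial.C b) ^ j)]
  refine Finset.sum_nbij' (fun j => n b - j) (fun j => n b - j) ?_ ?_ ?_ ?_ ?_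
  · intro j hj; simp only [Finset.mem_Icc, Finset.mem_range] at hj ⊢; omega
  · intro j hj; simp only [Finset.mem_Icc, Finset.mem_range] at hj ⊢; omega
  · intro j hj; simp only [Finset.mem_Icc] at hj ⊢; omega
  · intro j hj; simp only [Finset.mem_range] at hj ⊢; omega
  · intro j hj
    simp only [Finset.mem_Icc] at hj
    rw [show n b - (n b - j) = j by omega]

theorem pol_unique (Z : Finset Ω) (n : Ω → ℕ) (c c' : Ω → ℕ → Ω) (h : pol Z n c = pol Z n c')
    (b : Ω) (hb : b ∈ Z) (j : ℕ) (h1 : 1 ≤ j) (h2 : j ≤ n b) : c b j = c' b j := by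
  rw [pol_fin, pol_fin] at h
  have key := Polynomial.quo_mul_prod_pow_add_sum_rem_mul_prod_pow_unique (s := Z)
    (g := fun b => Polynomial.X - Polynomial.C b) (fun b _ => Polynomial.monic_X_sub_C b) (cop Z)
    (n := n) (q₁ := 0) (q₂ := 0) (r₁ := fun b j => Polynomial.C (c b (n b - j.1)))
    (r₂ := fun b j => Polynomial.C (c' b (n b - j.1)))
    (fun b _ j => by
      rw [Polynomial.degree_X_sub_C]; exact Polynomial.degree_C_le.trans_lt zero_lt_one)
    (fun b _ j => by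
      rw [Polynomial.degree_X_sub_C]; exact Polynomial.degree_C_le.trans_lt zero_lt_one)
    (by rw [h])
  have h3 := congrFun (key.2 b hb) ⟨n b - j, by omega⟩
  simp only [show n b - (n b - j) = j by omega] at h3
  exact Polynomial.C_injective h3

theorem pol_exists (Z : Finset Ω) (n : Ω → ℕ) (P : (Polynomial Ω))
    (hP : P.degree < ((∑ b ∈ Z, n b : ℕ) : WithBot ℕ)) :
    ∃ a : Ω → ℕ → Ω, (∀ b j, a b j ≠ 0 → b ∈ Z ∧ 1 ≤ j ∧ j ≤ n b) ∧ P = pol Z n a := by
  obtain ⟨q, r, hr, hf⟩ := Polynomial.eq_quo_mul_prod_pow_add_sum_rem_mul_prod_pow (s := Z) P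
    (g := fun b => Polynomial.X - Polynomial.C b) (fun b _ => Polynomial.monic_X_sub_C b) (cop Z) n
  let a : Ω → ℕ → Ω := fun b j =>
    if h : b ∈ Z ∧ 1 ≤ j ∧ j ≤ n b then (r b ⟨n b - j, by omega⟩).coeff 0 else 0
  have ha : pol Z n a = ∑ b ∈ Z, ∑ j : Fin (n b), r b j * (Polynomial.X - Polynomial.C b) ^ j.1 *
      ∏ b' ∈ Z.erase b, (Polynomial.X - Polynomial.C b') ^ (n b') := by
    rw [pol_fin]
    refine Finset.sum_congr rfl fun b hb => Finset.sum_congr rfl fun j _ => ?_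
    have hj := j.2
    have h1 : b ∈ Z ∧ 1 ≤ n b - j.1 ∧ n b - j.1 ≤ n b := ⟨hb, by omega, by omega⟩
    have h2 : a b (n b - j.1) = (r b j).coeff 0 := by
      simp only [a, dif_pos h1]
      congr 3
      omega
    have h3 : (r b j).degree ≤ 0 := by
      have := hr b hb j
      rw [Polynomial.degree_X_sub_C] at this
      exact Nat.WithBot.lt_one_iff_le_zero.1 this
    rw [h2, ← Polynomial.eq_C_of_degree_le_zero h3]
  refine ⟨a, fun b j h => ?_, ?_⟩
  · by_contra h1
    exact h (dif_neg h1)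
  · rw [← ha] at hf
    have hq : q = 0 := by
      by_contra hq
      have h1 : q * ∏ b ∈ Z, (Polynomial.X - Polynomial.C b) ^ n b = P - pol Z n a := by
        rw [hf]; ring
      have h2 : (P - pol Z n a).degree < ((∑ b ∈ Z, n b : ℕ) : WithBot ℕ) :=
        (Polynomial.degree_sub_le _ _).trans_lt (max_lt hP (pol_deg Z n a))
      rw [← h1, (monic_den Z n).degree_mul, Polynomial.degree_eq_natDegree (monic_den Z n).ne_zero,
        natDegree_den, Polynomial.degree_eq_natDegree hq] at h2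
      have h3 : q.natDegree + ∑ b ∈ Z, n b < ∑ b ∈ Z, n b := by exact_mod_cast h2
      omega
    rw [hf, hq, zero_mul, zero_add]

theorem pol_comp (Z : Finset Ω) (n : Ω → ℕ) (a : Ω → ℕ → Ω) (ξ : Ω) (hξ : ξ ≠ 0)
    (hZ : ∀ b, ξ * b ∈ Z ↔ b ∈ Z) (hn : ∀ b, n (ξ * b) = n b) :
    (pol Z n a).comp (Polynomial.C ξ * Polynomial.X) =
      Polynomial.C (ξ ^ ∑ b ∈ Z, n b) * pol Z n fun b j => a (ξ * b) j * ξ⁻¹ ^ j := by
  have hl : ∀ b : Ω, (Polynomial.X - Polynomial.C (ξ * b) : (Polynomial Ω)).comp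
      (Polynomial.C ξ * Polynomial.X) = Polynomial.C ξ * (Polynomial.X - Polynomial.C b) := by
    intro b
    rw [Polynomial.sub_comp, Polynomial.X_comp, Polynomial.C_comp, map_mul]
    ring
  have hinj : Function.Injective fun b : Ω => ξ * b := fun _ _ h => mul_left_cancel₀ hξ h
  have hZe : Z.image (fun b => ξ * b) = Z := by
    refine Finset.eq_of_subset_of_card_le (fun c hc => ?_) (Finset.card_image_of_injective _ hinj).ge
    obtain ⟨b, hb, rfl⟩ := Finset.mem_image.1 hc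
    exact (hZ b).2 hb
  have h0 : pol Z n a = ∑ b ∈ Z, (∑ j ∈ Icc 1 (n b), Polynomial.C (a (ξ * b) j) *
      (Polynomial.X - Polynomial.C (ξ * b)) ^ (n b - j)) *
      ∏ b' ∈ Z.erase b, (Polynomial.X - Polynomial.C (ξ * b')) ^ (n b') := by
    unfold pol
    conv_lhs => rw [← hZe]
    rw [Finset.sum_image fun _ _ _ _ h => hinj h]
    refine Finset.sum_congr rfl fun b _ => ?_
    rw [hn, ← Finset.image_erase hinj, Finset.prod_image fun _ _ _ _ h => hinj h]
    simp only [hn]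
  rw [h0]
  unfold pol
  rw [Polynomial.sum_comp, Finset.mul_sum]
  refine Finset.sum_congr rfl fun b hb => ?_
  rw [Polynomial.mul_comp, Polynomial.sum_comp, Polynomial.prod_comp]
  simp only [Polynomial.mul_comp, Polynomial.pow_comp, Polynomial.C_comp, hl, mul_pow]
  rw [Finset.prod_mul_distrib, Finset.prod_pow_eq_pow_sum, Finset.sum_mul, Finset.sum_mul,
    Finset.mul_sum]
  refine Finset.sum_congr rfl fun j hj => ?_
  rw [Finset.mem_Icc] at hj
  have h1 : ξ ^ (∑ b ∈ Z, n b) * ξ⁻¹ ^ j = ξ ^ (n b - j) * ξ ^ (∑ b' ∈ Z.erase b, n b') := by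
    rw [← Finset.add_sum_erase Z n hb, show n b + ∑ b' ∈ Z.erase b, n b' =
      (n b - j) + (∑ b' ∈ Z.erase b, n b') + j by omega, pow_add, pow_add, mul_assoc, ← mul_pow,
      mul_inv_cancel₀ hξ, one_pow, mul_one]
  have h2 := congrArg (Polynomial.C (R := Ω)) h1
  simp only [map_mul, map_pow] at h2 ⊢
  linear_combination (-(Polynomial.C (a (ξ * b) j) * (Polynomial.X - Polynomial.C b) ^ (n b - j) *
    ∏ b' ∈ Z.erase b, (Polynomial.X - Polynomial.C b') ^ (n b'))) * h2

theorem pol_smul (Z : Finset Ω) (n : Ω → ℕ) (a : Ω → ℕ → Ω) (t : Ω) :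
    Polynomial.C t * pol Z n a = pol Z n fun b j => t * a b j := by
  unfold pol
  rw [Finset.mul_sum]
  refine Finset.sum_congr rfl fun b _ => ?_
  rw [← mul_assoc, Finset.mul_sum]
  simp only [map_mul, mul_assoc]

/-- the inverse of `X - b` -/
noncomputable def uu (b : Ω) : FractionRing (Polynomial Ω) :=
  (algebraMap (Polynomial Ω) (FractionRing (Polynomial Ω)) (Polynomial.X - Polynomial.C b))⁻¹

theorem pol_frac (Z : Finset Ω) (n : Ω → ℕ) (a : Ω → ℕ → Ω) :
    algebraMap (Polynomial Ω) (FractionRing (Polynomial Ω)) (pol Z n a) =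
      algebraMap (Polynomial Ω) (FractionRing (Polynomial Ω)) (∏ b ∈ Z, (Polynomial.X - Polynomial.C b) ^ n b) *
        ∑ b ∈ Z, ∑ j ∈ Icc 1 (n b),
          algebraMap (Polynomial Ω) (FractionRing (Polynomial Ω)) (Polynomial.C (a b j)) * uu b ^ j := by
  unfold pol
  rw [map_sum, Finset.mul_sum]
  refine Finset.sum_congr rfl fun b hb => ?_
  rw [Finset.sum_mul, map_sum, Finset.mul_sum]
  refine Finset.sum_congr rfl fun j hj => ?_
  rw [Finset.mem_Icc] at hj
  have h0 : algebraMap (Polynomial Ω) (FractionRing (Polynomial Ω)) (Polynomial.X - Polynomial.C b) * uu b = 1 :=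
    mul_inv_cancel₀ ((map_ne_zero_iff _ (IsFractionRing.injective _ _)).2
      (Polynomial.monic_X_sub_C b).ne_zero)
  rw [← Finset.mul_prod_erase Z _ hb]
  simp only [map_mul, map_pow]
  have h1 : algebraMap (Polynomial Ω) (FractionRing (Polynomial Ω)) (Polynomial.X - Polynomial.C b) ^ n b * uu b ^ j =
      algebraMap (Polynomial Ω) (FractionRing (Polynomial Ω)) (Polynomial.X - Polynomial.C b) ^ (n b - j) := by
    conv_lhs => rw [show n b = (n b - j) + j by omega]
    rw [pow_add, mul_assoc, ← mul_pow, h0, one_pow, mul_one]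
  rw [← h1]
  ring

section Frob

variable (p : ℕ) [Fact p.Prime] [IsAlgClosed Ω] [CharP Ω p]

/-- the inverse of Frobenius -/
noncomputable def ps : Ω →+* Ω := (frobeniusEquiv Ω p).symm

omit [DecidableEq Ω] in
theorem ps_pow (x : Ω) : ps p x ^ p = x := (frobeniusEquiv Ω p).apply_symm_apply x

omit [DecidableEq Ω] in
theorem ps_pow' (x : Ω) : ps p (x ^ p) = x := (frobeniusEquiv Ω p).symm_apply_apply x

omit [DecidableEq Ω] in
theorem psi_succ (i : ℕ) (x : Ω) : (ps p ^ (i + 1)) x = ps p ((ps p ^ i) x) := by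
  rw [pow_succ']; rfl

omit [DecidableEq Ω] in
theorem psi_pow (i : ℕ) (x : Ω) : (ps p ^ i) (x ^ p ^ i) = x := by
  induction i with
  | zero => simp
  | succ i ih => rw [psi_succ, pow_succ, pow_mul, map_pow, ih, ps_pow']

omit [DecidableEq Ω] in
theorem psi_fix (i : ℕ) (x : Ω) (hx : x ^ p = x) : (ps p ^ i) x = x := by
  induction i with
  | zero => simp
  | succ i ih =>
    rw [psi_succ, ih]
    conv_lhs => rw [← hx]
    exact ps_pow' p x

/-- the sum `∑_{i ≥ 1} φ^i (a (p^i j))` -/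
noncomputable def zz (N : ℕ) (a : ℕ → Ω) (j : ℕ) : Ω :=
  ∑ i ∈ range N, (ps p ^ (i + 1)) (a (p ^ (i + 1) * j))

omit [DecidableEq Ω] in
theorem zz_zero (N e : ℕ) (a : ℕ → Ω) (ha : ∀ j, a j ≠ 0 → j ≤ p * e) (j : ℕ) (hj : e < j) :
    zz p N a j = 0 := by
  refine Finset.sum_eq_zero fun i _ => ?_
  have hp : 0 < p := (Fact.out : p.Prime).pos
  have : a (p ^ (i + 1) * j) = 0 := by
    by_contra h
    have h1 := ha _ h
    have h2 : p * j ≤ p ^ (i + 1) * j :=
      Nat.mul_le_mul_right _ (Nat.le_self_pow (Nat.succ_ne_zero i) p)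
    have h3 : p * e < p * j := Nat.mul_lt_mul_of_pos_left hj hp
    omega
  rw [this, map_zero]

omit [DecidableEq Ω] in
theorem zz_rec (M : ℕ) (a : ℕ → Ω) (ha : ∀ j, a j ≠ 0 → j ≤ M) (j : ℕ) (hj : 1 ≤ j) :
    zz p (M + 1) a j ^ p = a (p * j) + zz p (M + 1) a (p * j) := by
  have hp : 1 < p := (Fact.out : p.Prime).one_lt
  unfold zz
  rw [sum_pow_char, Finset.sum_range_succ', Finset.sum_range_succ]
  have h0 : a (p ^ (M + 1) * (p * j)) = 0 := by
    by_contra h
    have h1 := ha _ h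
    have h2 : M + 1 < p ^ (M + 1) := Nat.lt_pow_self hp
    have h3 : p ^ (M + 1) * 1 ≤ p ^ (M + 1) * (p * j) :=
      Nat.mul_le_mul_left _ (Nat.mul_pos (by omega) hj)
    omega
  rw [h0, map_zero, add_zero, add_comm]
  congr 1
  · rw [psi_succ, ps_pow]; simp
  · refine Finset.sum_congr rfl fun i _ => ?_
    rw [psi_succ, ps_pow, pow_succ p (i + 1), mul_assoc]

omit [DecidableEq Ω] in
theorem one_var {K : Type*} [CommRing K] (ι : Ω →+* K) (u : K) (e : ℕ) (a : ℕ → Ω)
    (ha : ∀ j, a j ≠ 0 → j ≤ p * e) :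
    ∑ j ∈ Icc 1 (p * e), ι (a j) * u ^ j =
      ∑ j ∈ Icc 1 (p * e), ι (if p ∣ j then 0 else a j + zz p (p * e + 1) a j) * u ^ j +
        ∑ j ∈ Icc 1 e, (ι (zz p (p * e + 1) a j) * u ^ j) ^ p -
        ∑ j ∈ Icc 1 e, ι (zz p (p * e + 1) a j) * u ^ j := by
  have hp : 0 < p := (Fact.out : p.Prime).pos
  have h1 : ∑ j ∈ Icc 1 e, ι (zz p (p * e + 1) a j) * u ^ j =
      ∑ j ∈ Icc 1 (p * e), ι (zz p (p * e + 1) a j) * u ^ j := by
    refine Finset.sum_subset (Finset.Icc_subset_Icc_right (Nat.le_mul_of_pos_left e hp)) ?_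
    intro j hj hj'
    simp only [Finset.mem_Icc] at hj hj'
    rw [zz_zero p _ e a ha j (by omega), map_zero, zero_mul]
  have h2 : ∑ j ∈ Icc 1 e, (ι (zz p (p * e + 1) a j) * u ^ j) ^ p =
      ∑ j ∈ Icc 1 (p * e), ι (if p ∣ j then a j + zz p (p * e + 1) a j else 0) * u ^ j := by
    have h3 : ∀ j, ι (if p ∣ j then a j + zz p (p * e + 1) a j else 0) * u ^ j =
        if p ∣ j then ι (a j + zz p (p * e + 1) a j) * u ^ j else 0 := by
      intro j; split_ifs <;> simp
    simp only [h3]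
    rw [← Finset.sum_filter]
    refine Finset.sum_bij (fun j _ => p * j) ?_ ?_ ?_ ?_
    · intro j hj
      simp only [Finset.mem_Icc, Finset.mem_filter] at hj ⊢
      exact ⟨⟨Nat.mul_pos hp hj.1, Nat.mul_le_mul_left _ hj.2⟩, dvd_mul_right _ _⟩
    · intro i _ j _ h
      exact Nat.eq_of_mul_eq_mul_left hp h
    · intro j hj
      simp only [Finset.mem_Icc, Finset.mem_filter] at hj
      obtain ⟨⟨h4, h5⟩, i, rfl⟩ := hj
      refine ⟨i, Finset.mem_Icc.2 ⟨Nat.pos_of_mul_pos_left h4, Nat.le_of_mul_le_mul_left h5 hp⟩, rfl⟩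
    · intro j hj
      rw [Finset.mem_Icc] at hj
      rw [mul_pow, ← map_pow, zz_rec p (p * e) a ha j hj.1, ← pow_mul, mul_comm j p]
  rw [h1, h2, ← Finset.sum_add_distrib, ← Finset.sum_sub_distrib]
  refine Finset.sum_congr rfl fun j _ => ?_
  split_ifs <;> simp only [map_add, map_zero] <;> ring

end Frob

end Pf.Aux

open Pf.Aux in
/-- The linear map `a ↦ polar p Z e a` on families `a b j` (`b ∈ Z`, `1 ≤ j ≤ p * e b`) is injective
(reduce modulo `(X-b)^(p e b)`) hence bijective onto the polynomials of degree `< p E`.  Let `a` be the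
family of `P`, extended by zero; uniqueness gives `a b j * ξ^j = α * a (ξ b) j`.  With `φ` the inverse
of Frobenius put `c b j = ∑_{i ≥ 0} φ^i (a b (p^i j))` for `p ∤ j`, `z b j = ∑_{i ≥ 1} φ^i (a b (p^i j))`
(zero unless `j ≤ e b`), and `Z₁ = g * ∑ z b j / (X-b)^j`.  Then
`a b j = c b j + [p ∣ j] (z b (j/p))^p - z b j`. -/
theorem pf (p : ℕ) [Fact p.Prime] {Ω : Type u} [Field Ω] [IsAlgClosed Ω] [CharP Ω p]
    [DecidableEq Ω] (Z : Finset Ω) (e : Ω → ℕ) (g P : (Polynomial Ω))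
    (hg : g = ∏ b ∈ Z, (Polynomial.X - Polynomial.C b) ^ e b)
    (hP : P.degree < ((p * g.natDegree : ℕ) : WithBot ℕ))
    (ξ α : Ω) (hξ : ξ ≠ 0) (hα : α ^ p = α) (hZ : ∀ b, ξ * b ∈ Z ↔ b ∈ Z)
    (he : ∀ b, e (ξ * b) = e b)
    (hPξ : Polynomial.C α * P.comp (Polynomial.C ξ * Polynomial.X) =
      Polynomial.C (ξ ^ (p * g.natDegree)) * P) :
    ∃ (c : Ω → ℕ → Ω) (Z₁ : (Polynomial Ω)), (∀ b j, p ∣ j → c b j = 0) ∧
      (∀ b j, c b j ≠ 0 → b ∈ Z ∧ j ≤ p * e b) ∧ (∀ b j, c b j * ξ ^ j = α * c (ξ * b) j) ∧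
      Z₁.degree < (g.natDegree : ℕ) ∧ (polar p Z e c).degree < ((p * g.natDegree : ℕ) : WithBot ℕ) ∧
      P = polar p Z e c + Z₁ ^ p - Z₁ * g ^ (p - 1) := by
  have hp : 0 < p := (Fact.out : p.Prime).pos
  have hd : g.natDegree = ∑ b ∈ Z, e b := by rw [hg, natDegree_den]
  have hd' : p * g.natDegree = ∑ b ∈ Z, p * e b := by rw [hd, Finset.mul_sum]
  rw [hd'] at hP hPξ
  obtain ⟨a, ha, hPa⟩ := pol_exists Z (fun b => p * e b) P hP
  have hequi : ∀ b j, a b j * ξ ^ j = α * a (ξ * b) j := by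
    intro b j
    by_cases h : b ∈ Z ∧ 1 ≤ j ∧ j ≤ p * e b
    · rw [hPa, pol_comp Z _ a ξ hξ hZ (fun b => by simp only [he]), mul_left_comm, pol_smul] at hPξ
      have h1 := mul_left_cancel₀ (Polynomial.C_ne_zero.2 (pow_ne_zero _ hξ)) hPξ
      have h2 := pol_unique Z _ _ _ h1 b h.1 j h.2.1 h.2.2
      rw [← h2, mul_assoc, mul_assoc, ← mul_pow, inv_mul_cancel₀ hξ, one_pow, mul_one]
    · have h1 : a b j = 0 := by
        by_contra h1
        exact h (ha b j h1)
      have h2 : a (ξ * b) j = 0 := by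
        by_contra h2
        have := ha _ j h2
        rw [hZ, he] at this
        exact h this
      rw [h1, h2, zero_mul, mul_zero]
  have ha' : ∀ b j, a b j ≠ 0 → j ≤ p * e b := fun b j h => (ha b j h).2.2
  let z : Ω → ℕ → Ω := fun b j => zz p (p * e b + 1) (a b) j
  let c : Ω → ℕ → Ω := fun b j => if p ∣ j then 0 else a b j + z b j
  have hz : ∀ b j, z b j * ξ ^ j = α * z (ξ * b) j := by
    intro b j
    simp only [z, zz, he]
    rw [Finset.sum_mul, Finset.mul_sum]
    refine Finset.sum_congr rfl fun i _ => ?_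
    have h1 := congrArg (ps p ^ (i + 1)) (hequi b (p ^ (i + 1) * j))
    rw [map_mul, map_mul, psi_fix p _ α hα, mul_comm (p ^ (i + 1)) j, pow_mul, psi_pow] at h1
    rw [mul_comm (p ^ (i + 1)) j]
    exact h1
  refine ⟨c, pol Z e z, fun b j h => if_pos h, fun b j h => ?_, fun b j => ?_, ?_, ?_, ?_⟩
  · by_contra h1
    apply h
    simp only [c]
    split_ifs
    · rfl
    by_cases hb : b ∈ Z
    · have h2 : p * e b < j := by
        by_contra h2
        exact h1 ⟨hb, by omega⟩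
      have h3 : a b j = 0 := by
        by_contra h3
        have := ha' b j h3
        omega
      have h4 : e b ≤ p * e b := Nat.le_mul_of_pos_left _ hp
      rw [h3, zero_add]
      exact zz_zero p _ (e b) (a b) (ha' b) j (by omega)
    · have h3 : ∀ j, a b j = 0 := fun j => by
        by_contra h3
        exact hb (ha b j h3).1
      simp [z, zz, h3]
  · simp only [c]
    split_ifs
    · simp
    · rw [add_mul, mul_add, hequi, hz]
  · rw [hd]; exact pol_deg Z e z
  · rw [hd']; exact pol_deg Z (fun b => p * e b) c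
  · have : CharP (FractionRing (Polynomial Ω)) p :=
      charP_of_injective_algebraMap (IsFractionRing.injective (Polynomial Ω) _) p
    apply IsFractionRing.injective (Polynomial Ω) (FractionRing (Polynomial Ω))
    have hgp : (∏ b ∈ Z, (Polynomial.X - Polynomial.C b) ^ (p * e b) : (Polynomial Ω)) = g ^ p := by
      rw [hg, ← Finset.prod_pow]
      exact Finset.prod_congr rfl fun b _ => by rw [← pow_mul, mul_comm]
    have hc : polar p Z e c = pol Z (fun b => p * e b) c := rfl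
    rw [hc, map_sub, map_add, map_mul, map_pow, map_pow]
    conv_lhs => rw [hPa]
    rw [pol_frac, pol_frac, pol_frac, hgp, ← hg, mul_pow, sum_pow_char, map_pow]
    simp only [sum_pow_char]
    have h1 : ∀ b ∈ Z, _ := fun b (_ : b ∈ Z) => one_var p
      ((algebraMap (Polynomial Ω) (FractionRing (Polynomial Ω))).comp Polynomial.C) (uu b) (e b) (a b) (ha' b)
    simp only [RingHom.comp_apply] at h1
    rw [Finset.sum_congr rfl h1, Finset.sum_sub_distrib, Finset.sum_add_distrib]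
    obtain ⟨q, hq⟩ : ∃ q, p = q + 1 := ⟨p - 1, by omega⟩
    have h2 : algebraMap (Polynomial Ω) (FractionRing (Polynomial Ω)) g ^ p =
        algebraMap (Polynomial Ω) (FractionRing (Polynomial Ω)) g * algebraMap (Polynomial Ω) (FractionRing (Polynomial Ω)) g ^ (p - 1) := by
      rw [← pow_succ', Nat.sub_add_cancel hp]
    simp only [c, z]
    rw [h2]
    ring

end Pool.Agent.MP_deef5c_ag.O
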