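import Pool.Agent.MP_deef5c_ag.O.GenL
import Pool.Agent.MP_deef5c_ag.O.GenZ
import Pool.Agent.MP_deef5c_ag.O.Cnt3
import Pool.Agent.MP_deef5c_ag.O.Gl
import Pool.Agent.MP_deef5c_ag.O.Pf

/-! The number of parameters of one step. -/

open PowerSeries IsLocalRing Finset Function
open scoped Polynomial

namespace Pool.Agent.MP_deef5c_ag.O

universe u

variable {k : Type u} [Field k] {p n m α : ℕ} [Fact p.Prime] [CharP k p] {ζ : k} {σ σ' : En k}
  {s : k⟦X⟧}

variable {D : Type u} [CommRing D] [IsDomain D] [IsLocalRing D] [CL D] [Algebra k D]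

variable {Ω : Type u} [Field Ω] [IsAlgClosed Ω] [Algebra k Ω]

section Aux
variable {E : Type u} [Field E]

theorem Genf_mult (F : Polynomial E) (hF : F ≠ 0) {ξ t : E} (hξ : ξ ≠ 0) (ht : t ≠ 0)
    (h : F.comp (Polynomial.C ξ * Polynomial.X) = Polynomial.C t * F) (b : E) :
    F.rootMultiplicity (ξ * b) = F.rootMultiplicity b := by
  have h1 := Polynomial.rootMultiplicity_comp_C_mul_X_add_C F ξ 0 b hξ.isUnit
  rw [map_zero, add_zero, add_zero, h, Polynomial.rootMultiplicity_mul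
    (mul_ne_zero (Polynomial.C_ne_zero.2 ht) hF), Polynomial.rootMultiplicity_C, zero_add] at h1
  exact h1.symm

theorem Genf_prod [IsAlgClosed E] [DecidableEq E] (F : Polynomial E) (hF : F.Monic) :
    F = ∏ b ∈ F.roots.toFinset, (Polynomial.X - Polynomial.C b) ^ F.rootMultiplicity b := by
  conv_lhs => rw [(IsAlgClosed.splits F).eq_prod_roots_of_monic hF]
  rw [Finset.prod_multiset_map_count]
  exact Finset.prod_congr rfl fun b _ => by rw [Polynomial.count_roots]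

theorem Genf_deg [IsAlgClosed E] [DecidableEq E] (F : Polynomial E) :
    F.natDegree = F.rootMultiplicity 0 + ∑ b ∈ F.roots.toFinset.erase 0, F.rootMultiplicity b := by
  rw [← IsAlgClosed.card_roots_eq_natDegree, ← Multiset.toFinset_sum_count_eq]
  simp only [Polynomial.count_roots]
  by_cases h : (0 : E) ∈ F.roots.toFinset
  · rw [Finset.add_sum_erase _ (fun b => F.rootMultiplicity b) h]
  · rw [Finset.erase_eq_of_notMem h, ← Polynomial.count_roots, Multiset.count_eq_zero.2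
      (fun h' => h (Multiset.mem_toFinset.2 h')), zero_add]

variable {F : Type u} [Field F] [Algebra F E] (A : Subalgebra F E)

theorem Genf_mem (Q : Polynomial E) :
    Q ∈ Polynomial.liftsRing (algebraMap A E) ↔ ∀ i, Q.coeff i ∈ A := by
  rw [← Polynomial.lifts_iff_liftsRing, Polynomial.lifts_iff_coeff_lifts]
  exact forall_congr' fun i => ⟨fun ⟨a, ha⟩ => ha ▸ a.2, fun h => ⟨⟨_, h⟩, rfl⟩⟩

theorem Genf_C {a : E} (ha : a ∈ A) : Polynomial.C a ∈ Polynomial.liftsRing (algebraMap A E) := by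
  rw [← Polynomial.lifts_iff_liftsRing]
  exact Polynomial.C'_mem_lifts ⟨⟨a, ha⟩, rfl⟩

theorem Genf_lin {a : E} (ha : a ∈ A) (i : ℕ) :
    (Polynomial.X - Polynomial.C a) ^ i ∈ Polynomial.liftsRing (algebraMap A E) := by
  refine pow_mem (sub_mem ?_ (Genf_C A ha)) i
  rw [← Polynomial.lifts_iff_liftsRing]
  exact Polynomial.X_mem_lifts _

theorem Genf_den (Z : Finset E) (hZ : ∀ b ∈ Z, b ∈ A) (e : E → ℕ) :
    ∏ b ∈ Z, (Polynomial.X - Polynomial.C b) ^ e b ∈ Polynomial.liftsRing (algebraMap A E) :=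
  prod_mem fun b hb => Genf_lin A (hZ b hb) _

theorem Genf_polar [DecidableEq E] (q : ℕ) (Z : Finset E) (hZ : ∀ b ∈ Z, b ∈ A) (e : E → ℕ)
    (c : E → ℕ → E) (hc : ∀ b j, c b j ∈ A) :
    polar q Z e c ∈ Polynomial.liftsRing (algebraMap A E) := by
  unfold polar
  refine sum_mem fun b hb => mul_mem (sum_mem fun j _ => mul_mem (Genf_C A (hc b j))
    (Genf_lin A (hZ b hb) _)) ?_
  exact Genf_den A _ (fun b' hb' => hZ b' (Finset.mem_of_mem_erase hb')) _

end Aux

/-- Let `W = Wf.map ι`, `Z = insert 0 W.roots.toFinset`, `e b = N (mult_b W + [b = 0])`,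
`g = ((X Wf)^N).map ι = ∏ (X - b)^(e b)`; `Z` and `mult` are invariant under `ξ` (`WF.eqv`).  Take `c`, `Z₁`
from `pf`, `pol_of`, then `μ b` from `gen_loc` (for `b ∈ Z \ {0}`, invariant), `w''` from `gen_zero`,
`Z₀` from `orb`.  `P` consists of the `b ∈ Z₀`, the `c b j` with `b ∈ Z₀`, `0 < j < μ b`, and the `c 0 j`
with `j < w''`, `p ∤ j`, `ξ^j = α`; so `#P ≤ ∑_{Z₀} μ b + N₀`, `N₀ + w'/m ≤ w''/m` (`cnt3`), and
`l + 1 = deg W = mult_0 + p^n m ∑_{Z₀} μ b` gives `w'' + m ∑ μ b ≤ w`.  All `b ∈ Z` and all `c b j` lie in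
`adjoin k P` (equivariance of `c`; `c 0 j (ξ^j - α) = 0`), hence the coefficients of `W`, `g`, `polar`;
finish with `gl_descend`. -/
theorem genf (S : Sp p (n + 1) m α ζ σ) (h : Desc p n σ σ' s) (S' : Sp p n m α (ζ ^ p) σ')
    {π : D →ₐ[k] k} {σD : En D} {x sD : D⟦X⟧} (L : Lev p n α ζ σ σ' s π σD x sD)
    {N l : ℕ} {G : k⟦X⟧} {Wf P₀ : D[X]} {GF υ Y : D⟦X⟧}
    (B : WF p n l (algebraMap k D (ζ ^ p ^ (n + 1))) σD x sD (cst D (xb p n σ')) Wf GF υ)
    (H : NF p n N π σD x sD G Wf P₀ Y)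
    (hE : Polynomial.C (α : D) *
        P₀.comp (Polynomial.C (algebraMap k D (ζ ^ p ^ (n + 1))) * Polynomial.X) =
      Polynomial.C (algebraMap k D (ζ ^ p ^ (n + 1)) ^
        (p * ((Polynomial.X * Wf) ^ N).natDegree)) * P₀)
    {κ u' : ℕ} {c₀ z : LaurentSeries k} {r₀ : k[X]} (O : PO p (p ^ n) (xb p n σ') κ u' c₀)
    (hr : Red p r₀) (hG : lc k G = lc k (xb p n σ') ^ (p * N) *
      (c₀ + Polynomial.aeval (lc k (xb p n σ'))⁻¹ r₀ + (z ^ p - z)))
    {w w' : ℕ} (hw : p ^ n * w = κ + p ^ n + l)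
    (hw' : w' = 0 ∨ (0 < u' ∧ w' = u' + 1 ∧ (ζ ^ p ^ (n + 1)) ^ w' = (α : k) * ζ ^ p ^ (n + 1)))
    (ι : D →ₐ[k] Ω) (hι : Injective ι) :
    ∃ P : Finset Ω, P.card + w' / m ≤ w / m ∧
      (∀ i, ι (Wf.coeff i) ∈ Algebra.adjoin k (P : Set Ω)) ∧
      (∀ i, ι (P₀.coeff i) ∈ Algebra.adjoin k (P : Set Ω)) := by
  classical
  have hp1 : 1 < p := (Fact.out : p.Prime).one_lt
  have hq0 : 0 < p ^ n := pow_pos (by omega) n
  have hΩ : CharP Ω p := charP_of_injective_algebraMap (algebraMap k Ω).injective p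
  have hinj : Injective (algebraMap k Ω) := (algebraMap k Ω).injective
  set ξ₀ : k := ζ ^ p ^ (n + 1) with hξ₀
  have hprim₀ : IsPrimitiveRoot ξ₀ m := S.prim_pow (n + 1)
  set ξ : Ω := algebraMap k Ω ξ₀ with hξd
  have hprim : IsPrimitiveRoot ξ m := hprim₀.map_of_injective hinj
  have hξ : ξ ≠ 0 := hprim.ne_zero S.mpos.ne'
  have hα0 : (α : k) ≠ 0 := by
    intro h0
    have := S.alpha_pow
    rw [h0, zero_pow S.mpos.ne'] at this
    exact zero_ne_one this
  have hιξ : (ι : D →+* Ω) (algebraMap k D ξ₀) = ξ := ι.commutes ξ₀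
  set W : Polynomial Ω := Wf.map (ι : D →+* Ω) with hWd
  have hWm : W.Monic := B.dist.monic.map _
  have hWdeg : W.natDegree = l + 1 := by rw [hWd, B.dist.monic.natDegree_map, B.deg]
  have hWe : W.comp (Polynomial.C ξ * Polynomial.X) = Polynomial.C (ξ ^ (l + 1)) * W := by
    have := congrArg (Polynomial.map (ι : D →+* Ω)) B.eqv
    rwa [Polynomial.map_comp, Polynomial.map_mul, Polynomial.map_mul, Polynomial.map_C,
      Polynomial.map_C, Polynomial.map_X, hιξ, map_pow (ι : D →+* Ω), hιξ] at this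
  have hWμ := Genf_mult W hWm.ne_zero hξ (pow_ne_zero _ hξ) hWe
  set V : Polynomial Ω := Polynomial.X * W with hVd
  have hVm : V.Monic := Polynomial.monic_X.mul hWm
  have hVe : V.comp (Polynomial.C ξ * Polynomial.X) = Polynomial.C (ξ ^ (l + 2)) * V := by
    rw [hVd, Polynomial.mul_comp, Polynomial.X_comp, hWe, pow_succ ξ (l + 1), map_mul]
    ring
  have hVμ := Genf_mult V hVm.ne_zero hξ (pow_ne_zero _ hξ) hVe
  set Z : Finset Ω := V.roots.toFinset with hZd
  have hZm : ∀ b, b ∈ Z ↔ 0 < V.rootMultiplicity b := fun b => by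
    rw [hZd, Multiset.mem_toFinset, Polynomial.mem_roots hVm.ne_zero,
      Polynomial.rootMultiplicity_pos hVm.ne_zero]
  have hZW : ∀ b, b ∈ Z ↔ b = 0 ∨ W.IsRoot b := fun b => by
    rw [hZd, Multiset.mem_toFinset, Polynomial.mem_roots hVm.ne_zero, hVd, Polynomial.root_mul,
      Polynomial.IsRoot.def, Polynomial.eval_X]
  set g : Polynomial Ω := ((Polynomial.X * Wf) ^ N).map (ι : D →+* Ω) with hgd
  have hgV : g = V ^ N := by
    rw [hgd, Polynomial.map_pow, Polynomial.map_mul, Polynomial.map_X]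
  have hgm : g.Monic := hgV ▸ hVm.pow N
  have hgn : g.natDegree = ((Polynomial.X * Wf) ^ N).natDegree :=
    ((Polynomial.monic_X.mul B.dist.monic).pow N).natDegree_map _
  set e : Ω → ℕ := fun b => V.rootMultiplicity b * N with hed
  have hg : g = ∏ b ∈ Z, (Polynomial.X - Polynomial.C b) ^ e b := by
    rw [hgV]
    conv_lhs => rw [Genf_prod V hVm]
    rw [← Finset.prod_pow]
    exact Finset.prod_congr rfl fun b _ => by rw [← pow_mul]
  set P : Polynomial Ω := P₀.map (ι : D →+* Ω) with hPd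
  have hPdeg : P.degree < (((p - 1) * g.natDegree : ℕ) : WithBot ℕ) := by
    rw [hgn]
    exact (Polynomial.degree_map_le).trans_lt H.deg
  have hPe : Polynomial.C (α : Ω) * P.comp (Polynomial.C ξ * Polynomial.X) =
      Polynomial.C (ξ ^ (p * g.natDegree)) * P := by
    have := congrArg (Polynomial.map (ι : D →+* Ω)) hE
    rwa [Polynomial.map_mul, Polynomial.map_mul, Polynomial.map_comp, Polynomial.map_mul,
      Polynomial.map_C, Polynomial.map_C, Polynomial.map_C, Polynomial.map_X, hιξ,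
      map_pow (ι : D →+* Ω), hιξ, map_natCast, ← hgn] at this
  obtain ⟨c, Z₁, hcp, hcZ, hce, hZ₁, hpol, hP⟩ := pf p Z e g P hg
    (hPdeg.trans_le (by exact_mod_cast Nat.mul_le_mul_right _ (Nat.sub_le p 1))) ξ α hξ
    (map_natCast (frobenius Ω p) α) (fun b => by rw [hZm, hZm, hVμ])
    (fun b => by simp only [hed, hVμ]) hPe
  have hPol : Pol p g P c := pol_of p Z e g P Z₁ hg c (fun b => hcp b 0 (dvd_zero p)) hcZ hP
  have hd : d⁄dX k (xb p n σ') ≠ 0 := by
    intro h0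
    have := O.hκ
    rw [h0, order_zero, top_add] at this
    exact ENat.top_ne_natCast _ this
  set Z' : Finset Ω := W.roots.toFinset.erase 0 with hZ'd
  have hZ'm : ∀ b, b ∈ Z' ↔ b ≠ 0 ∧ W.IsRoot b := fun b => by
    rw [hZ'd, Finset.mem_erase, Multiset.mem_toFinset, Polynomial.mem_roots hWm.ne_zero]
  set μ : Ω → ℕ := fun b => W.rootMultiplicity b / p ^ n with hμd
  have hμ : ∀ b ∈ Z', W.rootMultiplicity b = p ^ n * μ b ∧ 0 < μ b ∧
      ∀ j, c b j ≠ 0 → j + 1 ≤ μ b := by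
    intro b hb
    obtain ⟨h1, h2⟩ := (hZ'm b).1 hb
    obtain ⟨ν, e1, e2, e3⟩ := gen_loc S h S' L B H hd ι hι c hPol hcp b h1 h2
    have : μ b = ν := by
      simp only [hμd]
      rw [hWd, e1, Nat.mul_div_cancel_left _ hq0]
    rw [this]
    exact ⟨e1, e2, e3⟩
  obtain ⟨w'', hw1, hw2, hw3⟩ := gen_zero S h S' L B H O hr hG ι hι c hPol hcp
  obtain ⟨Z₀, hZ₀, horb, hsum⟩ := orb S.mpos hprim Z' (Finset.notMem_erase _ _)
    (fun b hb => by
      obtain ⟨h1, h2⟩ := (hZ'm b).1 hb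
      refine (hZ'm _).2 ⟨mul_ne_zero hξ h1, ?_⟩
      rw [← Polynomial.rootMultiplicity_pos hWm.ne_zero] at h2 ⊢
      rwa [hWμ]) μ (fun b _ => by simp only [hμd, hWμ])
  have hcnt := cnt3 p S.mpos hprim₀ S.hyp u' w' w'' (by
    rcases hw' with h0 | ⟨h1, h2, h3⟩
    · exact Or.inl h0
    · refine Or.inr ⟨h2, h3, ?_⟩
      rcases hw3 with ⟨h4, -⟩ | h4
      · omega
      · exact h4)
  set J : Finset ℕ := (range w'').filter fun j => ¬ p ∣ j ∧ ξ₀ ^ j = (α : k) with hJd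
  have hw4 : w'' + m * ∑ b ∈ Z₀, μ b ≤ w := by
    have h1 := Genf_deg W
    rw [hWdeg, ← hZ'd, Finset.sum_congr rfl (fun b hb => (hμ b hb).1), ← Finset.mul_sum,
      ← hsum] at h1
    refine Nat.le_of_mul_le_mul_left ?_ hq0
    rw [mul_add, hw]
    change p ^ n * w'' + 1 ≤ W.rootMultiplicity 0 + κ + p ^ n at hw1
    omega
  let P₁ : Finset Ω := Z₀.biUnion fun b => (range (μ b)).image fun j => if j = 0 then b else c b j
  let P₂ : Finset Ω := J.image (c 0)
  set A : Subalgebra k Ω := Algebra.adjoin k ((P₁ ∪ P₂ : Finset Ω) : Set Ω) with hAd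
  have hA1 : ∀ a ∈ P₁, a ∈ A := fun a ha =>
    Algebra.subset_adjoin (Finset.mem_coe.2 (Finset.mem_union_left _ ha))
  have hA2 : ∀ a ∈ P₂, a ∈ A := fun a ha =>
    Algebra.subset_adjoin (Finset.mem_coe.2 (Finset.mem_union_right _ ha))
  have hξA : ξ ∈ A := A.algebraMap_mem ξ₀
  have hstep : ∀ b j, c b j ∈ A → c (ξ * b) j ∈ A := by
    intro b j hb
    have h1 : c (ξ * b) j = algebraMap k Ω (α : k)⁻¹ * (c b j * ξ ^ j) := by
      rw [hce, ← mul_assoc, ← map_natCast (algebraMap k Ω) α, ← map_mul, inv_mul_cancel₀ hα0,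
        map_one, one_mul]
    rw [h1]
    exact mul_mem (A.algebraMap_mem _) (mul_mem hb (pow_mem hξA j))
  have hZ'A : ∀ b ∈ Z', b ∈ A ∧ ∀ j, c b j ∈ A := by
    intro b hb
    obtain ⟨i, b₀, hb₀, rfl⟩ := horb b hb
    obtain ⟨-, h2, h3⟩ := hμ b₀ (hZ₀ hb₀)
    refine ⟨mul_mem (pow_mem hξA i) (hA1 _ (Finset.mem_biUnion.2 ⟨b₀, hb₀,
      Finset.mem_image.2 ⟨0, Finset.mem_range.2 h2, if_pos rfl⟩⟩)), fun j => ?_⟩
    clear hb
    induction i with
    | zero =>
      rw [pow_zero, one_mul]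
      by_cases h0 : c b₀ j = 0
      · rw [h0]; exact zero_mem A
      · have hj : j ≠ 0 := by
          rintro rfl
          exact h0 (hcp b₀ 0 (dvd_zero p))
        exact hA1 _ (Finset.mem_biUnion.2 ⟨b₀, hb₀,
          Finset.mem_image.2 ⟨j, Finset.mem_range.2 (h3 j h0), if_neg hj⟩⟩)
    | succ i ih =>
      rw [pow_succ', mul_assoc]
      exact hstep _ _ ih
  have h0A : ∀ j, c 0 j ∈ A := by
    intro j
    by_cases h0 : c 0 j = 0
    · rw [h0]; exact zero_mem A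
    by_cases hj : w'' ≤ j
    · obtain ⟨a, ha⟩ := hw2 j hj
      rw [← ha]
      exact A.algebraMap_mem a
    refine hA2 _ (Finset.mem_image.2 ⟨j, Finset.mem_filter.2 ⟨Finset.mem_range.2 (by omega),
      fun hpj => h0 (hcp 0 j hpj), hinj ?_⟩, rfl⟩)
    have h1 := hce 0 j
    rw [mul_zero, mul_comm (α : Ω)] at h1
    rw [map_pow, map_natCast]
    exact mul_left_cancel₀ h0 h1
  have hZA : ∀ b ∈ Z, b ∈ A ∧ ∀ j, c b j ∈ A := by
    intro b hb
    by_cases h0 : b = 0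
    · rw [h0]
      exact ⟨zero_mem A, h0A⟩
    · exact hZ'A b ((hZ'm b).2 ⟨h0, ((hZW b).1 hb).resolve_left h0⟩)
  have hcA : ∀ b j, c b j ∈ A := by
    intro b j
    by_cases h0 : c b j = 0
    · rw [h0]; exact zero_mem A
    · exact (hZA b (hcZ b j h0).1).2 j
  refine ⟨P₁ ∪ P₂, ?_, fun i => ?_, fun i => ?_⟩
  · have h1 : P₁.card ≤ ∑ b ∈ Z₀, μ b := Finset.card_biUnion_le.trans
      (Finset.sum_le_sum fun b _ => Finset.card_image_le.trans (Finset.card_range _).le)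
    have h2 : P₂.card ≤ J.card := Finset.card_image_le
    have h3 := Finset.card_union_le P₁ P₂
    have h4 : (w'' + m * ∑ b ∈ Z₀, μ b) / m ≤ w / m := Nat.div_le_div_right hw4
    rw [Nat.add_mul_div_left _ _ S.mpos] at h4
    have h5 : J.card + w' / m ≤ w'' / m := by convert hcnt
    omega
  · have h1 : W ∈ Polynomial.liftsRing (algebraMap A Ω) := by
      rw [Genf_prod W hWm]
      refine Genf_den A _ (fun b hb => (hZA b ((hZW b).2 (Or.inr ?_))).1) _
      rwa [Multiset.mem_toFinset, Polynomial.mem_roots hWm.ne_zero] at hb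
    have h2 := (Genf_mem A W).1 h1 i
    rwa [hWd, Polynomial.coeff_map] at h2
  · have h1 : g ∈ Polynomial.liftsRing (algebraMap A Ω) := by
      rw [hg]
      exact Genf_den A _ (fun b hb => (hZA b hb).1) _
    have h2 := gl_descend p A g (polar p Z e c) Z₁ hgm ((Genf_mem A g).1 h1)
      ((Genf_mem A _).1 (Genf_polar A p Z (fun b hb => (hZA b hb).1) e c hcA)) hpol hZ₁
      (hP ▸ hPdeg) i
    rwa [← hP, hPd, Polynomial.coeff_map] at h2

end Pool.Agent.MP_deef5c_ag.O
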