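import Pool.Agent.MP_deef5c_ag.Defs

/-! Gluing schemes indexed by the affine opens of a scheme, with a group action. -/

open CategoryTheory AlgebraicGeometry Limits Function

namespace Pool.Agent.MP_deef5c_ag.O

universe u

/-- thickenings of the affine opens of `X` over `Y`, compatible with the action -/
structure GlueD {X : Scheme.{u}} {G : Type*} [Group G] (ρ : G →* Aut X) (Y : Scheme.{u}) where
  S : X.AffineZariskiSite → Scheme.{u}
  t : ∀ (g : G) (U V : X.AffineZariskiSite), V.1 ≤ (ρ g).hom ⁻¹ᵁ U.1 → (S V ⟶ S U)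
  r : ∀ U : X.AffineZariskiSite, Spec Γ(X, U.1) ⟶ S U
  a : ∀ U, S U ⟶ Y
  t1 : ∀ U h, t 1 U U h = 𝟙 _
  tc : ∀ g g' U V W h h' h'', t g' V W h' ≫ t g U V h = t (g * g') U W h''
  tr : ∀ g U V h, r V ≫ t g U V h = Spec.map ((ρ g).hom.appLE U.1 V.1 h) ≫ r U
  ta : ∀ g U V h, t g U V h ≫ a U = a V
  op : ∀ U V h, V ≤ U → IsOpenImmersion (t 1 U V h)
  bij : ∀ U, Bijective (r U)

variable {X Y : Scheme.{u}} {G : Type*} [Group G] {ρ : G →* Aut X}

theorem GlueOne (ρ : G →* Aut X) : (ρ 1).hom = 𝟙 X := by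
  rw [map_one]
  rfl

theorem GlueMul (ρ : G →* Aut X) (g g' : G) : (ρ (g * g')).hom = (ρ g').hom ≫ (ρ g).hom := by
  rw [map_mul]
  rfl

theorem GlueLe (ρ : G →* Aut X) {U V : X.Opens} (h : V ≤ U) : V ≤ (ρ 1).hom ⁻¹ᵁ U := by
  rw [GlueOne]
  exact h

theorem GlueApp (e : X ⟶ X) (he : e = 𝟙 X) {U V : X.Opens} (h : V ≤ e ⁻¹ᵁ U) (i : V ⟶ U) :
    e.appLE U V h = X.presheaf.map i.op := by
  subst he
  simp only [Scheme.Hom.appLE, Scheme.Hom.id_app]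
  rfl

/-- the translate of an affine open -/
def GlueAct (ρ : G →* Aut X) (g : G) (V : X.AffineZariskiSite) : X.AffineZariskiSite :=
  ⟨(ρ g⁻¹).hom ⁻¹ᵁ V.1,
    haveI : IsIso (ρ g⁻¹).hom := Iso.isIso_hom (ρ g⁻¹)
    V.2.preimage_of_isIso _⟩

theorem GlueAct_le (ρ : G →* Aut X) (g : G) (V : X.AffineZariskiSite) :
    V.1 ≤ (ρ g).hom ⁻¹ᵁ (GlueAct ρ g V).1 := by
  change V.1 ≤ ((ρ g).hom ≫ (ρ g⁻¹).hom) ⁻¹ᵁ V.1
  rw [← GlueMul, inv_mul_cancel]
  exact GlueLe ρ le_rfl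

theorem GlueAct_mono (ρ : G →* Aut X) (g : G) {U V : X.AffineZariskiSite} (h : U ≤ V) :
    GlueAct ρ g U ≤ GlueAct ρ g V := by
  obtain ⟨s, hs⟩ := h
  refine ⟨(ρ g⁻¹).hom.app V.1 s, ?_⟩
  change X.basicOpen ((ρ g⁻¹).hom.app V.1 s) = (ρ g⁻¹).hom ⁻¹ᵁ U.1
  rw [← Scheme.preimage_basicOpen]
  exact congrArg (fun W => (ρ g⁻¹).hom ⁻¹ᵁ W) hs

theorem GlueAct_one (ρ : G →* Aut X) (V : X.AffineZariskiSite) : GlueAct ρ 1 V = V := by
  refine Subtype.ext ?_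
  change (ρ 1⁻¹).hom ⁻¹ᵁ V.1 = V.1
  rw [inv_one, GlueOne]
  rfl

theorem GlueAct_mul (ρ : G →* Aut X) (g g' : G) (V : X.AffineZariskiSite) :
    GlueAct ρ (g * g') V = GlueAct ρ g (GlueAct ρ g' V) := by
  refine Subtype.ext ?_
  change (ρ (g * g')⁻¹).hom ⁻¹ᵁ V.1 = ((ρ g⁻¹).hom ≫ (ρ g'⁻¹).hom) ⁻¹ᵁ V.1
  rw [mul_inv_rev, GlueMul]

namespace GlueD

variable (D : GlueD ρ Y)

theorem tc1 (g U V W h h' h'') : D.t 1 V W h' ≫ D.t g U V h = D.t g U W h'' := by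
  have : ∀ g₀, g₀ = g → ∀ h₀, D.t g₀ U W h₀ = D.t g U W h'' := by
    rintro _ rfl _
    rfl
  exact (D.tc g 1 U V W h h' (by rw [mul_one]; exact h'')).trans (this _ (mul_one g) _)

theorem tc2 (g U V W h h' h'') : D.t g V W h' ≫ D.t 1 U V h = D.t g U W h'' := by
  have : ∀ g₀, g₀ = g → ∀ h₀, D.t g₀ U W h₀ = D.t g U W h'' := by
    rintro _ rfl _
    rfl
  exact (D.tc 1 g U V W h h' (by rw [one_mul]; exact h'')).trans (this _ (one_mul g) _)

/-- the diagram of thickenings -/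
def F : X.AffineZariskiSite ⥤ Scheme.{u} where
  obj := D.S
  map {U V} i := D.t 1 V U (GlueLe ρ (Scheme.AffineZariskiSite.toOpens_mono i.le))
  map_id U := D.t1 U _
  map_comp _ _ := (D.tc1 1 _ _ _ _ _ _).symm

instance {U V : X.AffineZariskiSite} (i : U ⟶ V) : IsOpenImmersion (D.F.map i) :=
  D.op V U _ i.le

theorem pt {U V : X.AffineZariskiSite} (i : V ⟶ U) (y : Spec Γ(X, V.1)) (y' : Spec Γ(X, U.1)) :
    D.F.map i (D.r V y) = D.r U y' ↔ V.2.fromSpec y = U.2.fromSpec y' := by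
  have h := GlueLe ρ (Scheme.AffineZariskiSite.toOpens_mono i.le)
  have h1 : D.F.map i (D.r V y) = D.r U (Spec.map ((ρ 1).hom.appLE U.1 V.1 h) y) :=
    congrArg (fun φ : Spec Γ(X, V.1) ⟶ D.S U => φ y) (D.tr 1 U V h)
  have h2 : U.2.fromSpec (Spec.map ((ρ 1).hom.appLE U.1 V.1 h) y) = V.2.fromSpec y := by
    rw [← Scheme.Hom.comp_apply, IsAffineOpen.SpecMap_appLE_fromSpec _ U.2 V.2,
      Scheme.Hom.comp_apply, GlueOne]
    rfl
  rw [h1, ← h2]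
  exact (D.bij U).1.eq_iff.trans U.2.fromSpec.isOpenEmbedding.injective.eq_iff.symm

instance : (D.F ⋙ Scheme.forget).IsLocallyDirected where
  cond {i j k} fi fj xi xj heq := by
    obtain ⟨yi, rfl⟩ := (D.bij i).2 xi
    obtain ⟨yj, rfl⟩ := (D.bij j).2 xj
    change D.F.map fi (D.r i yi) = D.F.map fj (D.r j yj) at heq
    obtain ⟨yk, hk⟩ := (D.bij k).2 (D.F.map fj (D.r j yj))
    have h1 := (D.pt fi yi yk).1 (heq.trans hk.symm)
    have h2 := (D.pt fj yj yk).1 hk.symm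
    have hi : i.2.fromSpec yi ∈ i.1 := by
      rw [← SetLike.mem_coe, ← i.2.range_fromSpec]
      exact ⟨yi, rfl⟩
    have hj : i.2.fromSpec yi ∈ j.1 := by
      rw [← SetLike.mem_coe, ← j.2.range_fromSpec]
      exact ⟨yj, h2.trans h1.symm⟩
    obtain ⟨s, s', e, hx⟩ := exists_basicOpen_le_affine_inter i.2 j.2 _ ⟨hi, hj⟩
    have hx' : i.2.fromSpec yi ∈ Set.range (i.basicOpen s).2.fromSpec := by
      rw [(i.basicOpen s).2.range_fromSpec]
      exact hx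
    obtain ⟨z, hz⟩ := hx'
    have l1 : i.basicOpen s ≤ i := i.basicOpen_le s
    have l2 : i.basicOpen s ≤ j := ⟨s', e.symm⟩
    exact ⟨i.basicOpen s, homOfLE l1, homOfLE l2, D.r _ z, (D.pt _ z yi).2 hz,
      (D.pt _ z yj).2 (hz.trans (h1.trans h2.symm))⟩

/-- the inclusion of a piece -/
noncomputable def j (U : X.AffineZariskiSite) : D.S U ⟶ colimit D.F := colimit.ι D.F U

instance (U : X.AffineZariskiSite) : IsOpenImmersion (D.j U) :=
  inferInstanceAs (IsOpenImmersion (colimit.ι D.F U))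

theorem jw {U V : X.AffineZariskiSite} (i : U ≤ V) (h) : D.t 1 V U h ≫ D.j V = D.j U :=
  colimit.w D.F (homOfLE i)

theorem ext {Z : Scheme.{u}} {φ ψ : colimit D.F ⟶ Z} (h : ∀ U, D.j U ≫ φ = D.j U ≫ ψ) : φ = ψ :=
  colimit.hom_ext h

theorem desc {Z : Scheme.{u}} (φ : ∀ U, D.S U ⟶ Z)
    (hφ : ∀ U V h, U ≤ V → D.t 1 V U h ≫ φ V = φ U) :
    ∃ Φ : colimit D.F ⟶ Z, ∀ U, D.j U ≫ Φ = φ U :=
  ⟨colimit.desc D.F ⟨Z, φ, fun U V i => (hφ U V _ i.le).trans (Category.comp_id _).symm⟩,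
    fun U => colimit.ι_desc _ U⟩

theorem ex_f : ∃ f' : colimit D.F ⟶ Y, ∀ U, D.j U ≫ f' = D.a U :=
  D.desc D.a fun U V h _ => D.ta 1 V U h

theorem ex_phi (g : G) : ∃ φ : colimit D.F ⟶ colimit D.F,
    ∀ V W h, W = GlueAct ρ g V → D.j V ≫ φ = D.t g W V h ≫ D.j W := by
  obtain ⟨φ, hφ⟩ := D.desc (fun V => D.t g (GlueAct ρ g V) V (GlueAct_le ρ g V) ≫ D.j _)
    fun U V h hUV => by
      have h1 := GlueAct_mono ρ g hUV
      have h2 : U.1 ≤ (ρ g).hom ⁻¹ᵁ (GlueAct ρ g V).1 :=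
        (Scheme.AffineZariskiSite.toOpens_mono hUV).trans (GlueAct_le ρ g V)
      rw [← Category.assoc, D.tc1 g _ _ _ _ _ h2,
        ← D.jw h1 (GlueLe ρ (Scheme.AffineZariskiSite.toOpens_mono h1)), ← Category.assoc,
        D.tc2 g _ _ _ _ _ h2]
  refine ⟨φ, ?_⟩
  rintro V _ h rfl
  exact hφ V

theorem xext {Z : Scheme.{u}} {φ ψ : X ⟶ Z}
    (h : ∀ U : X.AffineZariskiSite, U.2.fromSpec ≫ φ = U.2.fromSpec ≫ ψ) : φ = ψ :=
  (Scheme.AffineZariskiSite.isColimitCocone X).hom_ext h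

theorem ex_iota : ∃ ι : X ⟶ colimit D.F, ∀ U : X.AffineZariskiSite,
    U.2.fromSpec ≫ ι = D.r U ≫ D.j U := by
  refine ⟨(Scheme.AffineZariskiSite.isColimitCocone X).desc
    ⟨colimit D.F, fun U => D.r U ≫ D.j U, fun U V i => ?_⟩, fun U =>
      (Scheme.AffineZariskiSite.isColimitCocone X).fac _ U⟩
  have h0 := Scheme.AffineZariskiSite.toOpens_mono i.le
  have h := GlueLe ρ h0
  change Spec.map (X.presheaf.map (homOfLE h0).op) ≫ D.r V ≫ D.j V = (D.r U ≫ D.j U) ≫ 𝟙 _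
  rw [Category.comp_id, ← D.jw i.le h, ← GlueApp _ (GlueOne ρ) h, ← Category.assoc, ← D.tr,
    Category.assoc]

theorem pre {ι : X ⟶ colimit D.F}
    (hι : ∀ U : X.AffineZariskiSite, U.2.fromSpec ≫ ι = D.r U ≫ D.j U)
    (U : X.AffineZariskiSite) : IsPullback (D.r U) U.2.fromSpec (D.j U) ι := by
  refine IsOpenImmersion.isPullback _ _ _ _ (hι U) ?_
  have hp : ∀ (V : X.AffineZariskiSite) y, ι (V.2.fromSpec y) = D.j V (D.r V y) := fun V y => by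
    rw [← Scheme.Hom.comp_apply, hι, Scheme.Hom.comp_apply]
  ext x
  constructor
  · rintro ⟨z, hz⟩
    obtain ⟨V, hxV⟩ := TopologicalSpace.Opens.mem_iSup.1
      ((iSup_affineOpens_eq_top X).ge (Set.mem_univ x))
    let V' : X.AffineZariskiSite := ⟨V.1, V.2⟩
    have hx' : x ∈ Set.range V'.2.fromSpec := by
      rw [V'.2.range_fromSpec]
      exact hxV
    obtain ⟨y, rfl⟩ := hx'
    obtain ⟨z, rfl⟩ := (D.bij U).2 z
    rw [hp] at hz
    obtain ⟨l, f1, f2, w, e1, e2⟩ := (Scheme.IsLocallyDirected.ι_eq_ι_iff D.F).1 hz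
    obtain ⟨w, rfl⟩ := (D.bij l).2 w
    exact ⟨z, ((D.pt f1 w z).1 e1).symm.trans ((D.pt f2 w y).1 e2)⟩
  · rintro ⟨y, rfl⟩
    exact ⟨D.r U y, (hp U y).symm⟩

end GlueD

theorem GlueAbs {Z : Scheme.{u}} (D : GlueD ρ Y) (f : X ⟶ Z) (p : Z ⟶ Y)
    (hp : ∀ U, IsPullback (D.r U) (U.2.fromSpec ≫ f) (D.a U) p) (hs : ∀ U, Smooth (D.a U)) :
    ∃ (X' : Scheme.{u}) (f' : X' ⟶ Y) (ι : X ⟶ X') (ρ' : G →* Aut X'),
      Smooth f' ∧ IsPullback ι f f' p ∧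
        (∀ g, (ρ' g).hom ≫ f' = f') ∧ ∀ g, ι ≫ (ρ' g).hom = (ρ g).hom ≫ ι := by
  obtain ⟨f', hf⟩ := D.ex_f
  obtain ⟨ι, hι⟩ := D.ex_iota
  choose φ hφ using D.ex_phi
  have h1 : φ 1 = 𝟙 _ := D.ext fun V => by
    rw [hφ 1 V V (GlueLe ρ le_rfl) (GlueAct_one ρ V).symm, D.t1, Category.id_comp,
      Category.comp_id]
  have hm : ∀ g g', φ (g * g') = φ g' ≫ φ g := fun g g' => D.ext fun V => by
    have e := GlueAct_mul ρ g g' V
    have h := GlueAct_le ρ (g * g') V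
    rw [e] at h
    rw [hφ (g * g') V _ h e.symm, ← Category.assoc, hφ g' V _ (GlueAct_le ρ g' V) rfl,
      Category.assoc, hφ g _ _ (GlueAct_le ρ g _) rfl, ← Category.assoc, D.tc]
  let ρ' : G →* Aut (colimit D.F) := MonoidHom.mk'
    (fun g => ⟨φ g, φ g⁻¹, by rw [← hm, inv_mul_cancel, h1], by rw [← hm, mul_inv_cancel, h1]⟩)
    fun g g' => Iso.ext (hm g g')
  refine ⟨colimit D.F, f', ι, ρ', ?_, ?_, fun g => D.ext fun V => ?_,
    fun g => GlueD.xext fun V => ?_⟩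
  · have : IsZariskiLocalAtSource @Smooth.{u} := HasRingHomProperty.instIsZariskiLocalAtSource
    have key : ∀ U, Smooth (D.j U ≫ f') := fun U => by
      rw [hf]
      exact hs U
    exact IsZariskiLocalAtSource.of_openCover (P := @Smooth)
      (Scheme.IsLocallyDirected.openCover D.F) key
  · have key : ∀ U, IsPullback (pullback.snd ι (D.j U)) (pullback.fst ι (D.j U) ≫ f)
        (D.j U ≫ f') p := fun U => by
      rw [hf]
      have h := (D.pre hι U).flip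
      exact (hp U).of_iso h.isoPullback (Iso.refl _) (Iso.refl _) (Iso.refl _) (by simp) (by simp)
        (by simp) (by simp)
    exact Scheme.isPullback_of_openCover _ _ _ _ (Scheme.IsLocallyDirected.openCover D.F) key
  · change D.j V ≫ φ g ≫ f' = _
    rw [← Category.assoc, hφ g V _ (GlueAct_le ρ g V) rfl, Category.assoc, hf, hf, D.ta]
  · change V.2.fromSpec ≫ ι ≫ φ g = _
    rw [← Category.assoc, hι, Category.assoc, hφ g V _ (GlueAct_le ρ g V) rfl, ← Category.assoc,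
      D.tr, Category.assoc, ← hι, ← Category.assoc,
      IsAffineOpen.SpecMap_appLE_fromSpec _ _ V.2, Category.assoc]

end Pool.Agent.MP_deef5c_ag.O
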