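import Pool.Agent.MP_deef5c_ag.O.GAlg
import Pool.Agent.MP_deef5c_ag.O.GlueX

/-! Gluing flat lifts of the affine opens. -/

open CategoryTheory AlgebraicGeometry IsLocalRing Function
open scoped Polynomial PowerSeries

namespace Pool.Agent.MP_deef5c_ag.O

universe u

theorem GlueBij {A R' : Type u} [CommRing A] [IsLocalRing A] [IsArtinianRing A] [CommRing R']
    [Algebra A R'] {R : CommRingCat.{u}} (r : R' →+* R) (hr : Surjective r)
    (hk : RingHom.ker r = (maximalIdeal A).map (algebraMap A R')) :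
    Bijective (Spec.map (CommRingCat.ofHom r : CommRingCat.of R' ⟶ R)) := by
  have h : IsHomeomorph (PrimeSpectrum.comap r) := by
    refine PrimeSpectrum.isHomeomorph_comap r (fun x => ⟨1, one_pos, ?_⟩) ?_
    · rw [pow_one]
      exact hr x
    · rw [hk, Ideal.map_le_iff_le_comap]
      intro a ha
      have h1 : a ∈ nilradical A := by
        rw [nilradical, ← IsArtinianRing.jacobson_eq_radical,
          IsLocalRing.jacobson_eq_maximalIdeal _ (by simp)]
        exact ha
      exact mem_nilradical.2 ((mem_nilradical.1 h1).map (algebraMap A R'))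
  exact h.bijective

theorem GlueStr {k : Type u} [Field k] {X : Scheme.{u}} (f : X ⟶ Spec (.of k)) {U : X.Opens}
    (hU : IsAffineOpen U) :
    Spec.map ((Scheme.ΓSpecIso (.of k)).inv ≫ f.appLE ⊤ U le_top) = hU.fromSpec ≫ f := by
  rw [Spec.map_comp, ← IsAffineOpen.SpecMap_appLE_fromSpec f (isAffineOpen_top _) hU le_top,
    IsAffineOpen.fromSpec_top, Scheme.isoSpec_Spec_inv]

/-- Let `F : X.AffineZariskiSite ⥤ Scheme`, `U ↦ Spec (R U)`, with transition maps `T 1`.  They are open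
immersions (`away_of_flat`, `IsAffineOpen.isLocalization_of_eq_basicOpen`), and `F ⋙ forget` is locally
directed (for `D(h₁), D(h₂) ≤ U` use `D(h₁ h₂)`), so `X' = colimit F` has the open cover
`Scheme.IsLocallyDirected.openCover F`.  `f'` and `ι` are induced on colimits
(`Scheme.AffineZariskiSite.isColimitCocone`), `ι` from `U.isoSpec.hom ≫ Spec.map (red U)`, a bijection
on points (surjective with nilpotent kernel).  With `ι_eq_ι_iff`, `ι ⁻¹ (Spec (R U)) = U`, so
`IsOpenImmersion.isPullback` and `pushout_of_ker` give the cartesian square by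
`Scheme.isPullback_of_openCover`.  Smoothness is local on the source (`smooth_of_flat`).  `ρ' g` is
induced by `Spec.map (T g (gU) U) ≫ colimit.ι (gU)` with `gU = (ρ g⁻¹).hom ⁻¹ᵁ U`; first show
`colimit.ι U ≫ ρ' g = Spec.map (T g W U) ≫ colimit.ι W` whenever `W = gU`. -/
theorem glue {k : Type u} [Field k] {X : Scheme.{u}} (f : X ⟶ Spec (.of k)) [Smooth f]
    {G : Type*} [Group G] (ρ : G →* Aut X) {A : Type u} [CommRing A] [IsLocalRing A]
    [IsArtinianRing A] (π : A →+* k) (hπ : Surjective π)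
    (R : X.affineOpens → Type u) [∀ U, CommRing (R U)] [∀ U, Algebra A (R U)]
    (T : ∀ (g : G) (U V : X.affineOpens), V.1 ≤ (ρ g).hom ⁻¹ᵁ U.1 → (R U →ₐ[A] R V))
    (red : ∀ U, R U →+* Γ(X, U.1)) (hT1 : ∀ U h s, T 1 U U h s = s)
    (hT : ∀ g g' U V W h h' h'' s, T g' V W h' (T g U V h s) = T (g * g') U W h'' s)
    (hred : ∀ g U V h s, red V (T g U V h s) = ((ρ g).hom.appLE U.1 V.1 h).hom (red U s))
    (halg : ∀ U a, red U (algebraMap A (R U) a) =
      (f.appLE ⊤ U.1 le_top).hom ((Scheme.ΓSpecIso (.of k)).inv.hom (π a)))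
    (hsurj : ∀ U, Surjective (red U))
    (hker : ∀ U, RingHom.ker (red U) = (maximalIdeal A).map (algebraMap A (R U)))
    (hflat : ∀ U, Module.Flat A (R U)) : LiftsTo f ρ π := by
  let D : GlueD ρ (Spec (.of A)) :=
    { S := fun U => Spec (.of (R ⟨U.1, U.2⟩))
      t := fun g U V h => Spec.map (CommRingCat.ofHom (T g ⟨U.1, U.2⟩ ⟨V.1, V.2⟩ h).toRingHom)
      r := fun U => Spec.map (CommRingCat.ofHom (red ⟨U.1, U.2⟩) : _ ⟶ Γ(X, U.1))
      a := fun U => Spec.map (CommRingCat.ofHom (algebraMap A (R ⟨U.1, U.2⟩)))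
      t1 := fun U h => by
        rw [← Spec.map_id]
        exact congrArg Spec.map (CommRingCat.hom_ext (RingHom.ext fun s => hT1 _ h s))
      tc := fun g g' U V W h h' h'' => by
        rw [← Spec.map_comp]
        exact congrArg Spec.map
          (CommRingCat.hom_ext (RingHom.ext fun s => hT g g' _ _ _ h h' h'' s))
      tr := fun g U V h => by
        rw [← Spec.map_comp, ← Spec.map_comp]
        exact congrArg Spec.map (CommRingCat.hom_ext (RingHom.ext fun s => hred g _ _ h s))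
      ta := fun g U V h => by
        rw [← Spec.map_comp]
        exact congrArg Spec.map
          (CommRingCat.hom_ext (RingHom.ext fun a =>
            (T g ⟨U.1, U.2⟩ ⟨V.1, V.2⟩ h).commutes a))
      op := fun U V h hle => by
        obtain ⟨s, hs⟩ := hle
        obtain ⟨s', rfl⟩ := hsurj ⟨U.1, U.2⟩ s
        have i : V.1 ⟶ U.1 := homOfLE (Scheme.AffineZariskiSite.toOpens_mono ⟨_, hs⟩)
        have := hflat ⟨V.1, V.2⟩
        have h1 := away_of_flat (T 1 ⟨U.1, U.2⟩ ⟨V.1, V.2⟩ h) (X.presheaf.map i.op).hom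
          (red ⟨U.1, U.2⟩) (red ⟨V.1, V.2⟩) (hsurj _) (hsurj _) (hker _) (hker _)
          (fun s => by
            rw [← GlueApp _ (GlueOne ρ) h i]
            exact hred 1 _ _ h s) s' (U.2.isLocalization_of_eq_basicOpen _ i hs.symm)
        let := (T 1 ⟨U.1, U.2⟩ ⟨V.1, V.2⟩ h : R ⟨U.1, U.2⟩ →+* R ⟨V.1, V.2⟩).toAlgebra
        exact IsOpenImmersion.of_isLocalization (S := R ⟨V.1, V.2⟩) s'
      bij := fun U => GlueBij (red ⟨U.1, U.2⟩) (hsurj _) (hker _) }
  refine GlueAbs D f _ (fun U => ?_) fun U => ?_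
  · rw [← GlueStr f U.2]
    exact isPullback_SpecMap_of_isPushout _ _ _ _ (pushout_of_ker π hπ
      (algebraMap A (R ⟨U.1, U.2⟩)) ((Scheme.ΓSpecIso (.of k)).inv ≫ f.appLE ⊤ U.1 le_top).hom
      (red ⟨U.1, U.2⟩) (hsurj _) (hker _) (halg ⟨U.1, U.2⟩))
  · have h1 : Smooth (Spec.map ((Scheme.ΓSpecIso (.of k)).inv ≫ f.appLE ⊤ U.1 le_top)) := by
      rw [GlueStr f U.2]
      infer_instance
    have h2 := (HasRingHomProperty.Spec_iff (P := @Smooth)).1 h1
    let : Algebra k Γ(X, U.1) :=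
      ((Scheme.ΓSpecIso (.of k)).inv ≫ f.appLE ⊤ U.1 le_top).hom.toAlgebra
    have h3 : Algebra.Smooth k Γ(X, U.1) := h2
    have := hflat ⟨U.1, U.2⟩
    exact (HasRingHomProperty.Spec_iff (P := @Smooth)).2 (RingHom.smooth_algebraMap.2
      (smooth_of_flat π hπ (red ⟨U.1, U.2⟩) (hsurj _) (hker _) (halg ⟨U.1, U.2⟩)))

end Pool.Agent.MP_deef5c_ag.O
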