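import Pool.Agent.MP_deef5c_ag.O.Defs

/-! The lower ramification bound in an Artin-Schreier extension of valued fields. -/

open PowerSeries IsLocalRing Finset Function
open scoped Polynomial

namespace Pool.Agent.MP_deef5c_ag.O

universe u

theorem Las_sum {E Γ ι : Type*} [Field E] [LinearOrderedCommGroupWithZero Γ] (v : Valuation E Γ)
    {p : ℕ} (hp : p ≠ 0) {c : Γ} (s : Finset ι) (f : ι → E) (h : ∀ i ∈ s, v (f i) ^ p ≤ c) :
    v (∑ i ∈ s, f i) ^ p ≤ c := by
  induction s using Finset.cons_induction with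
  | empty => simp [hp]
  | cons a s ha ih =>
    rw [sum_cons]
    rcases le_max_iff.1 (v.map_add (f a) (∑ i ∈ s, f i)) with h' | h'
    · exact (pow_le_pow_left₀ zero_le h' p).trans (h a (mem_cons_self ..))
    · exact (pow_le_pow_left₀ zero_le h' p).trans (ih fun i hi => h i (mem_cons_of_mem hi))

theorem Las_nat {E Γ : Type*} [Field E] [LinearOrderedCommGroupWithZero Γ] (v : Valuation E Γ)
    (j : ℕ) : v (j : E) ≤ 1 := by
  induction j with
  | zero => simp
  | succ j ih =>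
    rw [Nat.cast_succ]
    exact v.map_add_le ih v.map_one.le

theorem Las_diff {E Γ : Type*} [Field E] [LinearOrderedCommGroupWithZero Γ] (v : Valuation E Γ)
    {x y : E} {c : Γ} (hx : v x ≤ c) (hy : v y ≤ c) (hxy : x - y = 1) (i : ℕ) :
    v (x ^ (i + 1) - y ^ (i + 1)) ≤ c ^ i := by
  rw [← (Commute.all x y).geom_sum₂_mul, hxy, mul_one]
  refine v.map_sum_le fun a ha => ?_
  have ha' : a ≤ i := Nat.lt_succ_iff.1 (mem_range.1 ha)
  rw [v.map_mul, v.map_pow, v.map_pow, Nat.add_sub_cancel]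
  calc v x ^ a * v y ^ (i - a) ≤ c ^ a * c ^ (i - a) :=
        mul_le_mul' (pow_le_pow_left₀ zero_le hx _) (pow_le_pow_left₀ zero_le hy _)
    _ = c ^ i := by rw [← pow_add, Nat.add_sub_cancel' ha']

theorem Las_ne {p lam i j : ℕ} (hp : p.Prime) (hl : ¬ p ∣ lam) (hi : i < p) (hj : j < p)
    {a b : ℤ} (h : p * a - i * lam = p * b - j * lam) : i = j := by
  have h1 : (p : ℤ) ∣ ((i : ℤ) - j) * lam := ⟨a - b, by linarith⟩
  rcases (Nat.prime_iff_prime_int.1 hp).dvd_or_dvd h1 with h2 | h2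
  · have := Int.eq_zero_of_abs_lt_dvd h2 (by rw [abs_lt]; constructor <;> omega)
    omega
  · exact absurd (Int.natCast_dvd_natCast.1 h2) hl

/-- The terms `A_i η^i` have `v(..)^p = g^(p a_i - i lam)`, exponents pairwise distinct mod `p`, so
each has valuation at most that of the sum: `p a_i - i lam ≥ 1` for `1 ≤ i < p`.  As `v η > 1`,
`v ((η+j+1)^i - (η+j)^i) ≤ (v η)^(i-1)`; so each factor has `v(..)^p ≤ g^(lam+1)`. -/
theorem las_abs (p : ℕ) [Fact p.Prime] {E Γ : Type u} [Field E] [CharP E p]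
    [LinearOrderedCommGroupWithZero Γ] (v : Valuation E Γ) (g : Γ) (hg0 : g ≠ 0) (hg1 : g < 1)
    (lam : ℕ) (hl : ¬ p ∣ lam) (A : E[X]) (hA : A.natDegree < p)
    (hc : ∀ i, A.coeff i = 0 ∨ ∃ a : ℤ, v (A.coeff i) = g ^ a) (η : E)
    (hη : v η ^ p * g ^ lam = 1) (hint : v (A.eval η) ≤ 1) :
    v (∏ j ∈ range p, (A.eval (η + ((j + 1 : ℕ) : E)) - A.eval (η + (j : E)))) ≤ g ^ (lam + 1) := by
  have hp : p.Prime := Fact.out
  have hp0 : p ≠ 0 := hp.ne_zero
  have hgp : 0 < g := zero_lt_iff.2 hg0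
  have anti := zpow_right_strictAnti₀ hgp hg1
  have hη' : v η ^ p = g ^ (-(lam : ℤ)) := by
    rw [zpow_neg, zpow_natCast]
    exact eq_inv_of_mul_eq_one_left hη
  have hη1 : 1 ≤ v η := by
    refine (pow_le_pow_iff_left₀ zero_le zero_le hp0).1 ?_
    rw [one_pow, hη', ← zpow_zero g]
    exact anti.antitone (by omega)
  have key : ∀ i, A.coeff i = 0 ∨
      ∃ a : ℤ, v (A.coeff i * η ^ i) ^ p = g ^ ((p : ℤ) * a - i * lam) := fun i => by
    refine (hc i).imp id fun ⟨a, ha⟩ => ⟨a, ?_⟩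
    rw [v.map_mul, v.map_pow, mul_pow, ← pow_mul, mul_comm i p, pow_mul, hη', ha,
      ← zpow_natCast, ← zpow_natCast, ← zpow_mul, ← zpow_mul, ← zpow_add₀ hg0]
    congr 1
    ring
  have hev : ∀ x : E, A.eval x = ∑ i ∈ range p, A.coeff i * x ^ i := fun x =>
    Polynomial.eval_eq_sum_range' hA x
  have hle : ∀ i ∈ range p, v (A.coeff i * η ^ i) ≤ 1 := by
    obtain ⟨j, hj, hmax⟩ := exists_max_image (range p) (fun i => v (A.coeff i * η ^ i))
      ⟨0, mem_range.2 hp.pos⟩
    rcases key j with h0 | ⟨b, hb⟩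
    · intro i hi
      refine (hmax i hi).trans ?_
      simp [h0]
    · have : v (A.eval η) = v (A.coeff j * η ^ j) := by
        rw [hev]
        refine v.map_sum_eq_of_lt hj fun i hi => ?_
        obtain ⟨hi1, hi2⟩ := mem_sdiff.1 hi
        refine lt_of_le_of_ne (hmax i hi1) fun e => ?_
        rcases key i with h0 | ⟨a, ha⟩
        · rw [← e, h0, zero_mul, v.map_zero, zero_pow hp0] at hb
          exact zpow_ne_zero _ hg0 hb.symm
        · rw [e, hb] at ha
          exact hi2 (mem_singleton.2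
            (Las_ne hp hl (mem_range.1 hi1) (mem_range.1 hj) (anti.injective ha).symm))
      exact fun i hi => (hmax i hi).trans (this ▸ hint)
  have hg : ∀ i, i + 1 ∈ range p → v (A.coeff (i + 1) * η ^ (i + 1)) ^ p ≤ g := fun i hi => by
    rcases key (i + 1) with h0 | ⟨a, ha⟩
    · simp [h0, hp0]
    · have h1 : g ^ ((p : ℤ) * a - (i + 1 : ℕ) * lam) ≤ g ^ (0 : ℤ) := by
        rw [← ha, zpow_zero]
        exact pow_le_one₀ zero_le (hle _ hi)
      have h2 := anti.le_iff_ge.1 h1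
      have h3 : (p : ℤ) * a - (i + 1 : ℕ) * lam ≠ 0 := fun e => by
        have := Las_ne (a := a) (b := 0) hp hl (mem_range.1 hi) hp.pos (by simpa using e)
        omega
      rw [ha, ← zpow_one g]
      simp only [zpow_one]
      nth_rewrite 2 [← zpow_one g]
      exact anti.antitone (by omega)
  have hx : ∀ j : ℕ, v (η + (j : E)) ≤ v η := fun j =>
    v.map_add_le le_rfl ((Las_nat v j).trans hη1)
  have hF : ∀ j ∈ range p,
      v (A.eval (η + ((j + 1 : ℕ) : E)) - A.eval (η + (j : E))) ^ p ≤ g ^ (lam + 1) := by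
    intro j _
    rw [hev, hev, ← sum_sub_distrib]
    refine Las_sum v hp0 _ _ fun i hi => ?_
    rw [← mul_sub]
    rcases i with _ | i
    · simp [hp0]
    · have h1 := Las_diff v (hx (j + 1)) (hx j) (by push_cast; ring) i
      have h2 : v (A.coeff (i + 1) * ((η + ((j + 1 : ℕ) : E)) ^ (i + 1) -
          (η + (j : E)) ^ (i + 1))) * v η ≤ v (A.coeff (i + 1) * η ^ (i + 1)) := by
        rw [v.map_mul, v.map_mul, v.map_pow, mul_assoc, pow_succ (v η)]
        exact mul_le_mul_right (mul_le_mul_left h1 _) _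
      have h3 := (pow_le_pow_left₀ zero_le h2 p).trans (hg i hi)
      have h4 := mul_le_mul_left h3 (g ^ lam)
      rwa [mul_pow, mul_assoc, hη, mul_one, ← pow_succ'] at h4
  refine (pow_le_pow_iff_left₀ zero_le zero_le hp0).1 ?_
  rw [map_prod, ← prod_pow]
  calc _ ≤ ∏ _j ∈ range p, g ^ (lam + 1) := prod_le_prod' hF
    _ = _ := by rw [prod_const, card_range]

end Pool.Agent.MP_deef5c_ag.O
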