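import Pool.Agent.MP_deef5c_ag.O.Defs

/-! The operator th and the valuation of Laurent series. -/

open PowerSeries IsLocalRing Finset Function
open scoped Polynomial

namespace Pool.Agent.MP_deef5c_ag.O

universe u

open WithZero

variable {k : Type u} [Field k]

theorem coeff_th (z : LaurentSeries k) (a : ℤ) : (th z).coeff a = (a : k) * z.coeff a := by
  have h : lc k X = HahnSeries.single 1 1 := HahnSeries.ofPowerSeries_X
  rw [th, h, HahnSeries.coeff_single_mul, LaurentSeries.derivative_apply,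
    LaurentSeries.hasseDeriv_coeff]
  simp

theorem th_add (y z : LaurentSeries k) : th (y + z) = th y + th z := by
  simp only [th, map_add, mul_add]

theorem LauA_supp (z : LaurentSeries k) : (th z).support ⊆ z.support := by
  intro a ha
  rw [HahnSeries.mem_support] at ha ⊢
  intro h
  apply ha
  rw [coeff_th, h, mul_zero]

/-- coefficientwise, with `HahnSeries.coeff_mul` -/
theorem th_mul (y z : LaurentSeries k) : th (y * z) = y * th z + z * th y := by
  ext a
  rw [mul_comm z, HahnSeries.coeff_add, coeff_th, HahnSeries.coeff_mul,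
    HahnSeries.coeff_mul_right' z.isPWO_support (LauA_supp z),
    HahnSeries.coeff_mul_left' y.isPWO_support (LauA_supp y), mul_sum, ← sum_add_distrib]
  refine sum_congr rfl fun ij hij => ?_
  have h := (Finset.mem_antidiagonal.mp hij).2.2
  rw [coeff_th, coeff_th, ← h]
  push_cast
  ring

theorem LauA_coeff_nat (f : k⟦X⟧) (n : ℕ) : (lc k f).coeff (n : ℤ) = coeff n f :=
  LaurentSeries.coeff_coe_powerSeries f n

theorem LauA_coeff_neg (f : k⟦X⟧) {a : ℤ} (ha : a < 0) : (lc k f).coeff a = 0 := by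
  have := PowerSeries.coeff_coe f a
  rw [if_pos ha] at this
  exact this

theorem th_lc (f : k⟦X⟧) : th (lc k f) = lc k (X * d⁄dX k f) := by
  ext a
  rw [coeff_th]
  rcases lt_or_ge a 0 with ha | ha
  · rw [LauA_coeff_neg _ ha, LauA_coeff_neg _ ha, mul_zero]
  · obtain ⟨n, rfl⟩ := Int.eq_ofNat_of_zero_le ha
    rw [LauA_coeff_nat, LauA_coeff_nat]
    cases n with
    | zero => simp
    | succ n =>
      rw [coeff_succ_X_mul, coeff_derivative]
      push_cast
      ring

theorem LauA_th_one : th (1 : LaurentSeries k) = 0 := by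
  have h := th_mul (1 : LaurentSeries k) 1
  simp only [one_mul] at h
  linear_combination -h

theorem LauA_th_pow (z : LaurentSeries k) (n : ℕ) :
    th (z ^ (n + 1)) = ((n + 1 : ℕ) : LaurentSeries k) * (z ^ n * th z) := by
  induction n with
  | zero => simp
  | succ n ih =>
    rw [pow_succ, th_mul, ih]
    push_cast
    ring

theorem th_pow_char (p : ℕ) [Fact p.Prime] [CharP k p] (z : LaurentSeries k) : th (z ^ p) = 0 := by
  have hp : p ≠ 0 := (Fact.out : p.Prime).ne_zero
  obtain ⟨n, hn⟩ := Nat.exists_eq_succ_of_ne_zero hp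
  have h := LauA_th_pow z n
  have h2 : ((p : ℕ) : LaurentSeries k) = 0 := by
    rw [← map_natCast (algebraMap k (LaurentSeries k)), CharP.cast_eq_zero, map_zero]
  rw [← Nat.succ_eq_add_one, ← hn, h2, zero_mul] at h
  exact h

theorem vv_lc_le (f : k⟦X⟧) : vv k (lc k f) ≤ 1 :=
  (LaurentSeries.val_le_one_iff_eq_coe k _).mpr ⟨f, rfl⟩

theorem exists_lc_of_le {z : LaurentSeries k} (hz : vv k z ≤ 1) : ∃ f, lc k f = z :=
  (LaurentSeries.val_le_one_iff_eq_coe k _).mp hz

theorem LauA_le_iff {z : LaurentSeries k} {a : ℤ} :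
    vv k z ≤ exp a ↔ ∀ b < -a, z.coeff b = 0 := by
  have := LaurentSeries.valuation_le_iff_coeff_lt_eq_zero k (D := -a) (f := z)
  rwa [neg_neg] at this

theorem LauA_lt_iff {x : WithZero (Multiplicative ℤ)} {a : ℤ} : x < exp a ↔ x ≤ WithZero.exp (a - 1) := by
  by_cases hx : x = 0
  · subst hx
    simp
  · rw [← exp_log hx, exp_lt_exp, exp_le_exp]
    omega

theorem vv_eq_iff {z : LaurentSeries k} {a : ℤ} :
    vv k z = exp a ↔ z.coeff (-a) ≠ 0 ∧ ∀ b < -a, z.coeff b = 0 := by
  constructor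
  · intro h
    have h1 := LauA_le_iff.mp h.le
    refine ⟨fun h0 => ?_, h1⟩
    have h2 : vv k z ≤ WithZero.exp (a - 1) := by
      refine LauA_le_iff.mpr fun b hb => ?_
      rcases lt_or_eq_of_le (show b ≤ -a by omega) with h3 | h3
      · exact h1 b h3
      · rw [h3, h0]
    rw [h, exp_le_exp] at h2
    omega
  · rintro ⟨h0, h1⟩
    refine (LauA_le_iff.mpr h1).eq_or_lt.resolve_right fun h2 => h0 ?_
    exact LauA_le_iff.mp (LauA_lt_iff.mp h2) _ (by omega)

theorem vv_lc_eq {f : k⟦X⟧} {d : ℕ} : vv k (lc k f) = exp (-(d : ℤ)) ↔ order f = d := by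
  rw [vv_eq_iff, neg_neg, order_eq_nat, LauA_coeff_nat]
  refine and_congr_right fun _ => ⟨fun h i hi => ?_, fun h b hb => ?_⟩
  · rw [← LauA_coeff_nat]
    exact h _ (by exact_mod_cast hi)
  · rcases lt_or_ge b 0 with ha | ha
    · exact LauA_coeff_neg _ ha
    · obtain ⟨n, rfl⟩ := Int.eq_ofNat_of_zero_le ha
      rw [LauA_coeff_nat]
      exact h n (by exact_mod_cast hb)

theorem vv_th_le (z : LaurentSeries k) : vv k (th z) ≤ vv k z := by
  by_cases hz : vv k z = 0
  · have : z = 0 := (Valuation.zero_iff _).mp hz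
    subst this
    simp [th]
  · rw [← exp_log hz]
    refine LauA_le_iff.mpr fun b hb => ?_
    rw [coeff_th, LauA_le_iff.mp (exp_log hz).ge b hb, mul_zero]

theorem vv_th_lt {z : LaurentSeries k} (hz : vv k z ≤ 1) : vv k (th z) < 1 := by
  rw [← WithZero.exp_zero] at hz ⊢
  refine LauA_lt_iff.mpr (LauA_le_iff.mpr fun b hb => ?_)
  rw [coeff_th]
  rcases lt_or_eq_of_le (show b ≤ 0 by omega) with h | h
  · rw [LauA_le_iff.mp hz b (by omega), mul_zero]
  · simp [h]

theorem vv_th_eq {z : LaurentSeries k} {a : ℤ} (hz : vv k z = exp a) (ha : (a : k) ≠ 0) :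
    vv k (th z) = exp a := by
  obtain ⟨h0, h1⟩ := vv_eq_iff.mp hz
  refine vv_eq_iff.mpr ⟨?_, fun b hb => ?_⟩
  · rw [coeff_th]
    exact mul_ne_zero (by simpa using ha) h0
  · rw [coeff_th, h1 b hb, mul_zero]

end Pool.Agent.MP_deef5c_ag.O
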