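import Pool.Agent.MP_deef5c_ag.O.Las
import Pool.Agent.MP_deef5c_ag.O.Abs
import Pool.Agent.MP_deef5c_ag.O.LauA

/-! The ramification bound at a point of the generic fibre. -/

open PowerSeries IsLocalRing Finset Function
open scoped Polynomial

namespace Pool.Agent.MP_deef5c_ag.O

universe u

open WithZero

theorem Lasc_val {Ω E : Type u} [Field Ω] [Field E] (ι : LaurentSeries Ω →+* E) :
    ∃ (Γ : Type u) (_ : LinearOrderedCommGroupWithZero Γ) (v : Valuation E Γ) (g : Γ),
      g ≠ 0 ∧ g < 1 ∧ (∀ f, v (ι (lc Ω f)) ≤ 1) ∧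
      ∀ (z : LaurentSeries Ω) (a : ℤ), vv Ω z = exp a → v (ι z) = g ^ (-a) := by
  obtain ⟨V, hV, hloc⟩ := IsLocalRing.exists_factor_valuationRing (ι.comp (lc Ω))
  have hX0 : lc Ω X ≠ 0 := fun h =>
    X_ne_zero (HahnSeries.ofPowerSeries_injective (h.trans (map_zero _).symm))
  have hg0 : V.valuation (ι (lc Ω X)) ≠ 0 := by
    rw [Valuation.ne_zero_iff]
    exact (map_ne_zero ι).2 hX0
  refine ⟨V.ValueGroup, inferInstance, V.valuation, V.valuation (ι (lc Ω X)), hg0, ?_,
    fun f => (V.valuation_le_one_iff _).2 (hV f), ?_⟩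
  · refine (V.valuation_lt_one_iff ⟨_, hV X⟩).1 ?_
    rw [mem_maximalIdeal, mem_nonunits_iff]
    intro h
    have h2 : IsUnit (X : Ω⟦X⟧) := hloc.map_nonunit X h
    rw [PowerSeries.isUnit_iff_constantCoeff] at h2
    simp at h2
  · intro z a hz
    have hX : vv Ω (lc Ω X) = exp (-1 : ℤ) := by
      have := (vv_lc_eq (k := Ω) (f := X) (d := 1)).2 (by simp)
      simpa using this
    have h1 : vv Ω (z * lc Ω X ^ a) = exp (-((0 : ℕ) : ℤ)) := by
      rw [map_mul, map_zpow₀, hz, hX, ← exp_zsmul, ← exp_add]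
      simp
    obtain ⟨f, hf⟩ := exists_lc_of_le (k := Ω) (z := z * lc Ω X ^ a) (by rw [h1]; simp)
    rw [← hf, vv_lc_eq] at h1
    have h2 : IsUnit f := by
      rw [PowerSeries.isUnit_iff_constantCoeff, isUnit_iff_ne_zero]
      have := (order_eq_nat.1 h1).1
      simpa using this
    have h3 : V.valuation (ι (lc Ω f)) = 1 :=
      (V.valuation_eq_one_iff ⟨_, hV f⟩).1
        (h2.map ((ι.comp (lc Ω)).codRestrict V.toSubring hV))
    rw [hf, map_mul, map_zpow₀, map_mul, map_zpow₀] at h3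
    rw [zpow_neg]
    exact eq_inv_of_mul_eq_one_left h3

theorem Lasc_lift {A B : Type u} [CommRing A] [CommRing B] (j : B →+* A) (ρ : A →+* A)
    (hfix : ∀ a, ρ a = a ↔ ∃ b, j b = a) {a : A[X]} (ha : a.map ρ = a) :
    a ∈ Polynomial.lifts j := by
  rw [Polynomial.lifts_iff_coeff_lifts]
  intro n
  refine (hfix _).1 ?_
  rw [← Polynomial.coeff_map, ha]

theorem Lasc_int {p : ℕ} (hp : 0 < p) {A B : Type u} [CommRing A] [CommRing B] (j : B →+* A)
    (ρ : A →+* A) (hρ : ∀ a, (ρ ^ p) a = a) (hfix : ∀ a, ρ a = a ↔ ∃ b, j b = a) (z : A) :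
    j.IsIntegralElem z := by
  let f : ℕ → A[X] := fun i => Polynomial.X - Polynomial.C ((ρ ^ i) z)
  have hm : (∏ i ∈ range p, f i).Monic :=
    Polynomial.monic_prod_of_monic _ _ fun i _ => Polynomial.monic_X_sub_C _
  have hf : (∏ i ∈ range p, f i).map ρ = ∏ i ∈ range p, f i := by
    rw [Polynomial.map_prod]
    have h1 : ∀ i ∈ range p, (f i).map ρ = f (i + 1) := by
      intro i _
      simp only [f, Polynomial.map_sub, Polynomial.map_X, Polynomial.map_C, Abs.Aux.pow_succ_apply]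
    rw [prod_congr rfl h1]
    have h2 := Finset.prod_range_succ f p
    have h3 := Finset.prod_range_succ' f p
    have h4 : f p = f 0 := by
      simp only [f, hρ]
      rfl
    rw [h2, h4] at h3
    exact ((Polynomial.monic_X_sub_C ((ρ ^ 0) z)).isRegular.right h3).symm
  obtain ⟨q, hq, -, hqm⟩ :=
    Polynomial.lifts_and_natDegree_eq_and_monic (Lasc_lift j ρ hfix hf) hm
  refine ⟨q, hqm, ?_⟩
  rw [Polynomial.eval₂_eq_eval_map, hq, Polynomial.eval_prod]
  refine prod_eq_zero (mem_range.2 hp) ?_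
  simp [f]

theorem Lasc_ext {A B E : Type u} [CommRing A] [IsDomain A] [CommRing B] [Field E]
    [IsAlgClosed E] (j : B →+* A) (hj : Injective j) (hi : ∀ z, j.IsIntegralElem z)
    (φ : B →+* E) (hφ : Injective φ) : ∃ ε : A →+* E, ∀ b, ε (j b) = φ b := by
  let _ : Algebra B A := j.toAlgebra
  let _ : Algebra B E := φ.toAlgebra
  have : IsDomain B := hj.isDomain j
  have : FaithfulSMul B A := (faithfulSMul_iff_algebraMap_injective B A).2 hj
  have : FaithfulSMul B E := (faithfulSMul_iff_algebraMap_injective B E).2 hφ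
  have : Algebra.IsIntegral B A := ⟨hi⟩
  let ε : A →ₐ[B] E := IsAlgClosed.lift
  exact ⟨ε, fun b => ε.commutes b⟩

theorem Lasc_le {A B E Γ : Type u} [CommRing A] [CommRing B] [Field E]
    [LinearOrderedCommGroupWithZero Γ] (v : Valuation E Γ) (j : B →+* A) (ε : A →+* E)
    (h : ∀ b, v (ε (j b)) ≤ 1) {z : A} (hz : j.IsIntegralElem z) : v (ε z) ≤ 1 := by
  obtain ⟨q, hq, hz⟩ := hz
  let ψ : B →+* v.integer := (ε.comp j).codRestrict v.integer h
  refine (Valuation.integer.integers v).isIntegral_iff_v_le_one.1 ⟨q.map ψ, hq.map ψ, ?_⟩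
  rw [Polynomial.eval₂_map]
  have h1 : (algebraMap v.integer E).comp ψ = ε.comp j := rfl
  rw [h1, ← Polynomial.hom_eval₂, hz, map_zero]

theorem Lasc_eta {E Γ : Type u} [Field E] [LinearOrderedCommGroupWithZero Γ] (v : Valuation E Γ)
    {p : ℕ} (hp : 1 < p) {g : Γ} (hg0 : g ≠ 0) (hg1 : g < 1) {lam : ℕ} (hl : lam ≠ 0) {η : E}
    (h : v (η ^ p - η) = g ^ (-(lam : ℤ))) : v η ^ p * g ^ lam = 1 := by
  have hgp : 0 < g := zero_lt_iff.2 hg0
  have h1 : 1 < v (η ^ p - η) := by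
    rw [h, zpow_neg, zpow_natCast]
    exact (one_lt_inv₀ (pow_pos hgp _)).2 (pow_lt_one₀ zero_le hg1 hl)
  have h2 : 1 < v η := by
    by_contra h3
    rw [not_lt] at h3
    refine absurd h1 (not_lt.2 (v.map_sub_le ?_ h3))
    rw [v.map_pow]
    exact pow_le_one₀ zero_le h3
  have h3 : v η < v (η ^ p) := by
    rw [v.map_pow]
    exact lt_self_pow₀ h2 hp
  rw [v.map_sub_eq_of_lt_left h3, v.map_pow, zpow_neg, zpow_natCast] at h
  rw [h]
  exact inv_mul_cancel₀ (pow_ne_zero _ hg0)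

/-- Let `E` be an algebraic closure of `Ω((X))`.  `A` is integral over `B` (`z` is a root of
`∏_i (T - ρ^i z)`), so `lc ∘ ev` extends to `ε : A → E` (`IsAlgClosed.lift`).  Choose a valuation subring
`V` of `E` dominating `Ω⟦X⟧` (`IsLocalRing.exists_factor_valuationRing`); it contains `ε A`; for a
Laurent series `z` with `vv z = exp a` one has `V.valuation z = g^(-a)`, `g` the value of `X`.  Put
`η = ε Y / ε (j e) - u`, so `η^p - η` has value `g^(-lam)`.  With `a` from `interp` (coefficients in the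
range of `j`), `A(T) = a(e (T + u)) / e^(p-1)` has Laurent coefficients and `A(η + i) = ε (ρ^i t)`.
Apply `las_abs`. -/
theorem lasc (p : ℕ) [Fact p.Prime] {A B Ω : Type u} [CommRing A] [IsDomain A] [CharP A p]
    [CommRing B] [Field Ω] [CharP Ω p] (j : B →+* A) (hj : Injective j) (ρ : A →+* A)
    (hρ : ∀ a, (ρ ^ p) a = a) (hfix : ∀ a, ρ a = a ↔ ∃ b, j b = a) (Y t : A) (e H G : B)
    (he : e ≠ 0) (hY : ρ Y = Y + j e) (hH : j H = Y ^ p - j e ^ (p - 1) * Y)
    (hG : j G = ∏ i ∈ range p, ((ρ ^ (i + 1)) t - (ρ ^ i) t))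
    (ev : B →+* Ω⟦X⟧) (hev : Injective ev) (lam : ℕ) (hl : ¬ p ∣ lam) (u : LaurentSeries Ω)
    (hu : vv Ω (lc Ω (ev H) / lc Ω (ev e) ^ p - (u ^ p - u)) = exp (lam : ℤ)) :
    ((lam + 1 : ℕ) : ℕ∞) ≤ order (ev G) := by
  have hp : p.Prime := Fact.out
  let K := LaurentSeries Ω
  let E := AlgebraicClosure K
  let ι : K →+* E := algebraMap K E
  let lv : B →+* K := (lc Ω).comp ev
  have hlv : Injective lv := HahnSeries.ofPowerSeries_injective.comp hev
  have hK : CharP K p := charP_of_injective_algebraMap (algebraMap Ω K).injective p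
  have hE : CharP E p := charP_of_injective_algebraMap ι.injective p
  obtain ⟨Γ, _, v, g, hg0, hg1, hle, hval⟩ := Lasc_val ι
  have hi := Lasc_int hp.pos j ρ hρ hfix
  obtain ⟨ε, hε⟩ := Lasc_ext j hj hi (ι.comp lv) (ι.injective.comp hlv)
  have hε' : ∀ b, ε (j b) = ι (lv b) := hε
  have hεj : ε.comp j = ι.comp lv := RingHom.ext hε
  have hεle : ∀ z, v (ε z) ≤ 1 := fun z =>
    Lasc_le v j ε (fun b => by rw [hε']; exact hle _) (hi z)
  have hje : ρ (j e) = j e := (hfix _).2 ⟨e, rfl⟩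
  obtain ⟨a, ha1, ha2, ha3⟩ := interp p ρ hρ Y (j e) hje hY t
  obtain ⟨a', ha'⟩ := (Polynomial.mem_lifts _).1 (Lasc_lift j ρ hfix ha2)
  have hdeg : a'.natDegree < p := by
    rwa [← ha', Polynomial.natDegree_map_eq_of_injective hj] at ha1
  have hev' : ∀ i : ℕ, a.eval (Y + (i : A) * j e) = j e ^ (p - 1) * (ρ ^ i) t := by
    intro i
    induction i with
    | zero => simpa using ha3
    | succ i ih =>
      have h1 := congrArg ρ ih
      rw [← Polynomial.eval_map_apply, ha2, map_mul, map_pow, hje, ← Abs.Aux.pow_succ_apply, map_add,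
        map_mul, map_natCast, hY, hje] at h1
      rw [← h1]
      congr 1
      push_cast
      ring
  have he0 : lv e ≠ 0 := (map_ne_zero_iff lv hlv).2 he
  have he1 : ι (lv e) ≠ 0 := (map_ne_zero ι).2 he0
  let η : E := ε Y / ι (lv e) - ι u
  let A₀ : K[X] := Polynomial.C (lv e ^ (p - 1))⁻¹ *
    (a'.map lv).comp (Polynomial.C (lv e) * (Polynomial.X + Polynomial.C u))
  have hA : ∀ i : ℕ, (A₀.map ι).eval (η + (i : E)) = ε ((ρ ^ i) t) := by
    intro i
    have h1 : ι (lv e) * (η + (i : E) + ι u) = ε (Y + (i : A) * j e) := by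
      rw [map_add, map_mul, map_natCast, hε']
      have h2 : ι (lv e) * (ε Y / ι (lv e)) = ε Y := mul_div_cancel₀ _ he1
      simp only [η]
      linear_combination h2
    rw [Polynomial.eval_map]
    simp only [A₀]
    rw [Polynomial.eval₂_mul, Polynomial.eval₂_C, Polynomial.eval₂_comp, Polynomial.eval₂_mul,
      Polynomial.eval₂_C, Polynomial.eval₂_add, Polynomial.eval₂_X, Polynomial.eval₂_C, h1,
      Polynomial.eval₂_map, ← hεj, ← Polynomial.hom_eval₂, Polynomial.eval₂_eq_eval_map, ha',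
      hev', map_mul, map_pow, hε', map_inv₀, map_pow]
    exact inv_mul_cancel_left₀ (pow_ne_zero _ he1) _
  have hAdeg : (A₀.map ι).natDegree < p := by
    refine lt_of_le_of_lt Polynomial.natDegree_map_le ?_
    refine lt_of_le_of_lt (Polynomial.natDegree_C_mul_le _ _) ?_
    refine lt_of_le_of_lt Polynomial.natDegree_comp_le ?_
    have h1 : (Polynomial.C (lv e) * (Polynomial.X + Polynomial.C u)).natDegree ≤ 1 :=
      (Polynomial.natDegree_C_mul_le _ _).trans (Polynomial.natDegree_X_add_C u).le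
    calc _ ≤ a'.natDegree * 1 := Nat.mul_le_mul Polynomial.natDegree_map_le h1
      _ < p := by rwa [mul_one]
  have hc : ∀ i, (A₀.map ι).coeff i = 0 ∨ ∃ a : ℤ, v ((A₀.map ι).coeff i) = g ^ a := by
    intro i
    rw [Polynomial.coeff_map]
    by_cases h0 : A₀.coeff i = 0
    · exact Or.inl (by rw [h0, map_zero])
    · exact Or.inr ⟨_, hval _ _ (exp_log ((Valuation.ne_zero_iff _).2 h0)).symm⟩
  have hη : η ^ p - η = ι (lc Ω (ev H) / lc Ω (ev e) ^ p - (u ^ p - u)) := by
    have h1 : ι (lv H) = ε Y ^ p - ι (lv e) ^ (p - 1) * ε Y := by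
      rw [← hε', hH, map_sub, map_mul, map_pow, map_pow, hε']
    have h2 : ι (lv e) ^ p = ι (lv e) ^ (p - 1) * ι (lv e) := by
      rw [← pow_succ, Nat.sub_add_cancel hp.one_le]
    change _ = ι (lv H / lv e ^ p - (u ^ p - u))
    rw [map_sub, map_sub, map_div₀, map_pow, map_pow, h1]
    simp only [η]
    rw [sub_pow_char, div_pow, sub_div, h2, mul_div_mul_left _ _ (pow_ne_zero _ he1)]
    ring
  have hl0 : lam ≠ 0 := fun h => hl (h ▸ dvd_zero p)
  have hη' : v η ^ p * g ^ lam = 1 :=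
    Lasc_eta v hp.one_lt hg0 hg1 hl0 (by rw [hη]; exact hval _ _ hu)
  have hint : v ((A₀.map ι).eval η) ≤ 1 := by
    have := hA 0
    rw [Nat.cast_zero, add_zero] at this
    rw [this]
    exact hεle _
  have key := las_abs p v g hg0 hg1 lam hl (A₀.map ι) hAdeg hc η hη' hint
  have h1 : ∏ i ∈ range p, ((A₀.map ι).eval (η + ((i + 1 : ℕ) : E)) -
      (A₀.map ι).eval (η + (i : E))) = ι (lc Ω (ev G)) := by
    change _ = ι (lv G)
    rw [← hε', hG, map_prod]
    refine prod_congr rfl fun i _ => ?_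
    rw [hA, hA, map_sub]
  rw [h1] at key
  by_cases hG0 : ev G = 0
  · rw [hG0, order_zero]
    exact le_top
  · obtain ⟨d, hd⟩ := ENat.ne_top_iff_exists.1 (order_eq_top.not.2 hG0)
    rw [hval _ _ (vv_lc_eq.2 hd.symm), neg_neg, zpow_natCast] at key
    rw [← hd, Nat.cast_le]
    by_contra h2
    exact absurd key (not_le.2 (pow_lt_pow_right_of_lt_one₀ (zero_lt_iff.2 hg0) hg1
      (not_le.1 h2)))

end Pool.Agent.MP_deef5c_ag.O
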