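import Pool.Agent.MP_deef5c_ag.O.Defs

/-! Linear compactness of complete Noetherian local rings. -/

open PowerSeries IsLocalRing Finset Function
open scoped Polynomial

namespace Pool.Agent.MP_deef5c_ag.O

universe u

theorem LinC_art (S : Type u) [CommRing S] [IsLocalRing S] [IsNoetherianRing S] (N : ℕ) :
    IsArtinianRing (S ⧸ maximalIdeal S ^ N) :=
  have : Ring.KrullDimLE 0 (S ⧸ maximalIdeal S ^ N) := Ring.krullDimLE_zero_iff.mpr fun J hJ =>
    Ideal.isMaximal_of_isIntegral_of_isMaximal_comap _ <| by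
      have h1 := hJ.comap (Ideal.Quotient.mk (maximalIdeal S ^ N))
      have h2 : maximalIdeal S ^ N ≤ J.comap (Ideal.Quotient.mk (maximalIdeal S ^ N)) :=
        le_trans (by simp) (Ideal.ker_le_comap _)
      have h3 := le_antisymm (le_maximalIdeal h1.1) (h1.le_of_pow_le h2)
      convert! IsLocalRing.maximalIdeal.isMaximal S
  IsNoetherianRing.isArtinianRing_of_krullDimLE_zero

theorem LinC_least {S : Type u} [CommRing S] [IsLocalRing S] [IsNoetherianRing S] {ι : Type u}
    [Nonempty ι] (J : ι → Ideal S) (hdir : ∀ i j, ∃ l, J l ≤ J i ∧ J l ≤ J j) (N : ℕ) :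
    ∃ i, ∀ j, J i ≤ J j ⊔ maximalIdeal S ^ N := by
  have := LinC_art S N
  let π := Ideal.Quotient.mk (maximalIdeal S ^ N)
  obtain ⟨_, ⟨i, rfl⟩, hi⟩ := (wellFounded_lt (α := Ideal (S ⧸ maximalIdeal S ^ N))).has_min
    (Set.range fun i => (J i).map π) (Set.range_nonempty _)
  refine ⟨i, fun j => ?_⟩
  obtain ⟨l, h1, h2⟩ := hdir i j
  have h3 : (J l).map π = (J i).map π :=
    eq_of_le_of_not_lt (Ideal.map_mono h1) (hi _ ⟨l, rfl⟩)
  have h4 : (J i).map π ≤ (J j).map π := h3 ▸ Ideal.map_mono h2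
  have h5 := Ideal.map_le_iff_le_comap.1 h4
  rwa [Ideal.comap_map_of_surjective π Ideal.Quotient.mk_surjective, ← RingHom.ker_eq_comap_bot,
    Ideal.mk_ker] at h5

theorem LinC_krull {S : Type u} [CommRing S] [IsLocalRing S] [IsNoetherianRing S] (J : Ideal S)
    {x : S} (h : ∀ N, x ∈ J ⊔ maximalIdeal S ^ N) : x ∈ J := by
  have h1 := (maximalIdeal S).iInf_pow_smul_eq_bot_of_isLocalRing (M := S ⧸ J)
    (maximalIdeal.isMaximal S).ne_top
  rw [← Ideal.Quotient.eq_zero_iff_mem, ← Submodule.mem_bot S, ← h1, Submodule.mem_iInf]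
  intro N
  obtain ⟨y, hy, z, hz, rfl⟩ := Submodule.mem_sup.1 (h N)
  rw [map_add, Ideal.Quotient.eq_zero_iff_mem.2 hy, zero_add]
  have := Submodule.smul_mem_smul hz (Submodule.mem_top (x := (1 : S ⧸ J)))
  rwa [← Algebra.algebraMap_eq_smul_one] at this

/-- Chevalley: with `J∞ = ⨅ J i`, for each `N` some `J i ≤ J∞ + m^N` (the images of the `J i` in the
Artinian ring `S ⧸ m^N` have a least element `K N`; the `K N` are compatible and by completeness
every element of `K N` is congruent mod `m^N` to an element of `⋂_N K N = J∞`).  Then choose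
`i N` decreasing with `J (i N) ≤ J∞ + m^N`, write `a (i (N+1)) - a (i N) = j N + x N` with
`x N ∈ m^N`, put `b = a (i 0) + ∑ x N`, and use `⋂_N (J i + m^N) = J i`. -/
theorem lin_compact {S : Type u} [CommRing S] [IsLocalRing S] [CL S] {ι : Type u} [Nonempty ι]
    (J : ι → Ideal S) (a : ι → S) (hdir : ∀ i j, ∃ l, J l ≤ J i ∧ J l ≤ J j)
    (hcomp : ∀ i j, J i ≤ J j → a i - a j ∈ J j) : ∃ b, ∀ i, b - a i ∈ J i := by
  choose t ht using LinC_least J hdir
  let P : ℕ → S → Prop := fun N x => ∀ i, x - a i ∈ J i ⊔ maximalIdeal S ^ N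
  have h0 : ∀ N, P N (a (t N)) := fun N i => by
    obtain ⟨l, h1, h2⟩ := hdir i (t N)
    have e : a (t N) - a i = (a l - a i) - (a l - a (t N)) := by ring
    rw [e]
    exact sub_mem (Ideal.mem_sup_left (hcomp l i h1)) (ht N i (hcomp l _ h2))
  have h1 : ∀ N x, P N x → ∃ y, P (N + 1) y ∧ x - y ∈ maximalIdeal S ^ N := fun N x hx => by
    obtain ⟨y, hy, z, hz, e⟩ := Submodule.mem_sup.1 (hx (t (N + 1)))
    refine ⟨a (t (N + 1)) + y, fun i => ?_, ?_⟩
    · rw [add_sub_right_comm]
      exact add_mem (h0 _ i) (ht _ i hy)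
    · rw [← sub_sub, ← e, add_sub_cancel_left]
      exact hz
  choose! f hf using h1
  let x : ℕ → S := fun N => Nat.rec (a (t 0)) f N
  have hx : ∀ N, P N (x N) := fun N => by
    induction N with
    | zero => exact h0 0
    | succ N ih => exact (hf N _ ih).1
  have hs : ∀ m n, m ≤ n → x m - x n ∈ maximalIdeal S ^ m := fun m n hmn => by
    induction n, hmn using Nat.le_induction with
    | base => simp
    | succ n hmn ih =>
      have := add_mem ih (Ideal.pow_le_pow_right hmn (hf n _ (hx n)).2)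
      rwa [sub_add_sub_cancel] at this
  obtain ⟨b, hb⟩ := IsPrecomplete.prec' (I := maximalIdeal S) x fun {m n} hmn => by
    rw [SModEq.sub_mem, smul_eq_mul, Ideal.mul_top]
    exact hs m n hmn
  refine ⟨b, fun i => LinC_krull _ fun N => ?_⟩
  have h2 := hb N
  rw [SModEq.sub_mem, smul_eq_mul, Ideal.mul_top] at h2
  have e : b - a i = (x N - a i) - (x N - b) := by ring
  rw [e]
  exact sub_mem (hx N i) (Ideal.mem_sup_right h2)

end Pool.Agent.MP_deef5c_ag.O
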