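import Pool.Agent.MP_deef5c_ag.O.Calc
import Pool.Agent.MP_deef5c_ag.O.Desc

/-! The refined obstruction space. -/

open PowerSeries IsLocalRing Finset Function
open scoped Polynomial

namespace Pool.Agent.MP_deef5c_ag.O

universe u

variable {k : Type u} [Field k] {p n m α : ℕ} [Fact p.Prime] [CharP k p] {ζ : k} {σ : En k}

variable {A : Type u} [CommRing A] [IsLocalRing A] [CL A]

theorem Obs1_conj {M : Type*} [Monoid M] {a b c : M} (h1 : a * c = 1) (h2 : c * a = 1) (i : ℕ) :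
    (a * b * c) ^ i = a * b ^ i * c := by
  induction i with
  | zero => rw [pow_zero, pow_zero, mul_one, h1]
  | succ i ih =>
    rw [pow_succ, ih, pow_succ]
    calc a * b ^ i * c * (a * b * c) = a * b ^ i * (c * a) * b * c := by simp only [mul_assoc]
      _ = _ := by rw [h2, mul_one]; simp only [mul_assoc]

theorem Obs1_pow_mem (φ : En A) (h : constantCoeff (φ X) ∈ maximalIdeal A) (i : ℕ) :
    constantCoeff ((φ ^ i) X) ∈ maximalIdeal A := by
  induction i with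
  | zero => simp
  | succ i ih =>
    rw [← SpA_succ]
    exact en_mem φ h ih

theorem Obs1_sub_X : sub (X : A⟦X⟧) = 1 := by
  have h : constantCoeff (X : A⟦X⟧) ∈ maximalIdeal A := by simp
  exact en_ext (sub_X h) (by rwa [sub_X h])

theorem Obs1_tay {φ : En A} {e : A⟦X⟧} (he : e * e = 0) (hm : constantCoeff e ∈ maximalIdeal A)
    (h : φ X = X + e) (f : A⟦X⟧) : φ f = f + e * d⁄dX A f := by
  have h1 : φ = sub (X + e) := by
    rw [← h]
    refine eq_sub φ ?_
    rw [h, map_add]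
    exact add_mem (by simp) hm
  rw [h1, sub_add X e (by simp) he, Obs1_sub_X]
  rfl

theorem Obs1_dvd (φ : En A) (h : constantCoeff (φ X) ∈ maximalIdeal A) (i : ℕ) :
    φ X - X ∣ (φ ^ i) X - X := by
  induction i with
  | zero => simp
  | succ i ih =>
    have h1 : φ X - X ∣ φ ((φ ^ i) X) - (φ ^ i) X := sub_dvd φ 1 h (by simp) _
    rw [← SpA_succ]
    have := dvd_add h1 ih
    rwa [sub_add_sub_cancel] at this

omit [Fact p.Prime] [CharP k p] in
theorem Obs1_coeff {x γ : k⟦X⟧} {q w j : ℕ} (hq : 0 < q) (hx : order x = q)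
    (h : ((q * w : ℕ) : ℕ∞) ≤ order (sub x γ)) (hj : j < w) : coeff j γ = 0 := by
  have h0 : constantCoeff x ∈ maximalIdeal k := Qb_mem (RingHom.id k) surjective_id x q hq (by simpa)
  rw [order_en (sub x) q hq (by rw [sub_X h0, hx])] at h
  refine coeff_of_lt_order j ?_
  by_contra h1
  rw [not_lt] at h1
  have h2 : ((q * w : ℕ) : ℕ∞) ≤ ((q * j : ℕ) : ℕ∞) := by
    refine h.trans ?_
    rw [Nat.cast_mul]
    gcongr
  have h3 : q * w ≤ q * j := by exact_mod_cast h2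
  have := Nat.le_of_mul_le_mul_left h3 hq
  omega

/-- Let `σ' = sub s`, `ō = map π o`, `x = xb p n σ`.  `σ'^q = sub (X + ε o)` commutes with `σ'`, so
(`sub_add`) `σ ō = ō * d (σ X)` and `ō * d x` is invariant, `= sub x γ`.  With `ρ' = σ'^(q/p)`,
`F = ρ' X - X`: `ε o = trc ρ' p F = F g` (`sub_dvd ρ' 1`); `cin_of_mul` modulo `(ε)` gives `g = ε g₁`, so
the reduction of `F` divides `ō`, and `order (ō * d x) ≥ l + 1 + β = q w` (`isW_spec`, `order_en`).
Equivariance: `κ = tau z⁻¹ * σ'^α * tau z` (`z⁻¹ = z^(m-1)`) has `κ X = s - ε tau z⁻¹ o₂`, and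
`κ^q X - X = z α ε tau z⁻¹ o`; by `calc_pow` this is `ε o + ε L q g`, so
`α ξ tau ζ⁻¹ (ō * d x) = ō * d x + trc σ q a` with `a ∈ M`, and `x^(c q) ∣ trc σ q a` (`SL.dvd`,
`dl_pow`).  Compare coefficients of `γ` below `c q`. -/
theorem obs1 (S : Sp p n m α ζ σ) (hn : 0 < n) {w : ℕ} (hw : IsW p n σ w) {c : ℕ → ℕ}
    (hc : SL p n σ c) (π : A →+* k) (hπ : Surjective π) {z ε : A} (hz : z ^ m = 1) (hπz : π z = ζ)
    (hε : ∀ a ∈ maximalIdeal A, a * ε = 0) (hεm : ε ∈ maximalIdeal A) (h0 : ε ≠ 0)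
    {s o o₂ : A⟦X⟧} (hs : PowerSeries.map π s = σ X) (ho : (sub s ^ p ^ n) X - X = C ε * o)
    (ho₂ : tau z s - (sub s ^ α) (C z * X) = C ε * o₂) :
    ∃ γ : k⟦X⟧, PowerSeries.map π o * d⁄dX k (xb p n σ) = sub (xb p n σ) γ ∧
      ∀ j < c (p ^ n), j ∉ JJ w (c (p ^ n)) (ζ ^ p ^ n) (α : k) → coeff j γ = 0 := by
  have hp : p.Prime := Fact.out
  have hq : 0 < p ^ n := pow_pos hp.pos n
  have hσ1 : order (σ X) = 1 := order_one hq S.pow
  have hσ0 : constantCoeff (σ X) = 0 := by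
    rw [← coeff_zero_eq_constantCoeff_apply]
    exact coeff_of_lt_order 0 (by rw [hσ1]; norm_num)
  have hσm : constantCoeff (σ X) ∈ maximalIdeal k := by rw [hσ0]; exact zero_mem _
  have hsm : constantCoeff s ∈ maximalIdeal A := Qb_mem π hπ s 1 one_pos (by rw [hs, hσ1]; rfl)
  have hsX : sub s X = s := sub_X hsm
  have hsm' : constantCoeff (sub s X) ∈ maximalIdeal A := by rwa [hsX]
  have hred : PowerSeries.map π (sub s X) = σ X := by rw [hsX, hs]
  have hεε : (C ε : A⟦X⟧) * C ε = 0 := by rw [← map_mul, hε ε hεm, map_zero]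
  have hee : ∀ g : A⟦X⟧, (C ε * g) * (C ε * g) = 0 := fun g => by
    rw [mul_mul_mul_comm, hεε, zero_mul]
  have hem : ∀ g : A⟦X⟧, constantCoeff (C ε * g) ∈ maximalIdeal A := fun g => by
    rw [map_mul, constantCoeff_C]
    exact Ideal.mul_mem_right _ _ hεm
  set x := xb p n σ with hxdef
  have hx : σ x = x := nrm_inv S.pow X
  have hxo : order x = ((p ^ n : ℕ) : ℕ∞) := S.order_xb
  have hxm : constantCoeff x ∈ maximalIdeal k :=
    Qb_mem (RingHom.id k) surjective_id x _ hq (by simpa using hxo)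
  have hdx : d⁄dX k x = σ (d⁄dX k x) * d⁄dX k (σ X) := by
    rw [← der_en σ hσm, hx]
  have ho' : (sub s ^ p ^ n) X = X + C ε * o := by rw [← ho]; ring
  have htay := Obs1_tay (hee o) (hem o) ho'
  -- invariance
  have hinv : σ (PowerSeries.map π o) = PowerSeries.map π o * d⁄dX k (σ X) := by
    have h1 : sub s ((sub s ^ p ^ n) X) = (sub s ^ p ^ n) (sub s X) := by
      rw [SpA_succ, pow_succ]
      rfl
    rw [htay (sub s X), ho', map_add, map_mul, Base_en_C, add_right_inj, mul_assoc] at h1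
    have h2 := eps_cancel π hπ h0 h1
    rwa [map_en π (sub s) σ hred hσm, map_mul, map_der, hred] at h2
  obtain ⟨γ, hγ⟩ := qinv (RingHom.id k) surjective_id x (p ^ n) hq (by simpa using hxo) σ hx
    (pow_X_inj hq S.ord) (PowerSeries.map π o * d⁄dX k x) (by
      rw [map_mul, hinv, mul_assoc, mul_comm (d⁄dX k (σ X)), ← hdx])
  refine ⟨γ, hγ.symm, fun j hj hJ => ?_⟩
  rcases lt_or_ge j w with hjw | hjw
  · -- the order estimate
    obtain ⟨β, l, -, hβ, hl, hw', -, -⟩ := S.isW_spec hn hw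
    obtain ⟨g, hg⟩ := Obs1_dvd (sub s ^ p ^ (n - 1)) (Obs1_pow_mem _ hsm' _) p
    rw [← pow_mul, ← pow_succ, Nat.sub_add_cancel hn, ho] at hg
    have hF : PowerSeries.map π ((sub s ^ p ^ (n - 1)) X - X) = (σ ^ p ^ (n - 1)) X - X := by
      rw [map_sub, map_en_pow π (sub s) σ hred hσm, map_X]
    have h1 : CIn (Ideal.span {ε}) g := by
      refine cin_of_mul π hπ _ ((sub s ^ p ^ (n - 1)) X - X) g ?_ ?_
      · rw [hF]
        intro h
        rw [h, order_zero] at hl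
        exact ENat.top_ne_natCast _ hl
      · exact (cin_span_singleton ε _).2 ⟨o, hg.symm⟩
    obtain ⟨g₁, rfl⟩ := (cin_span_singleton ε _).1 h1
    rw [mul_left_comm] at hg
    have h2 := eps_cancel π hπ h0 hg
    rw [map_mul, hF] at h2
    refine Obs1_coeff hq hxo ?_ hjw
    rw [hγ, h2, order_mul, order_mul, hl, hβ, hw', add_comm β, Nat.cast_add (l + 1)]
    gcongr
    exact le_self_add
  -- equivariance
  have hm1 : m - 1 + 1 = m := Nat.sub_add_cancel S.mpos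
  have hzz : z ^ (m - 1) * z = 1 := by rw [← pow_succ, hm1, hz]
  have ht1 : tau (z ^ (m - 1)) * tau z = 1 := by rw [tau_mul, hzz, tau_one]
  have ht2 : tau z * tau (z ^ (m - 1)) = 1 := by rw [tau_mul, mul_comm, hzz, tau_one]
  have ht3 : ∀ f : A⟦X⟧, tau (z ^ (m - 1)) (tau z f) = f := fun f =>
    (AlgHom.congr_fun ht1 f : _)
  have hκX : (tau (z ^ (m - 1)) * sub s ^ α * tau z) X =
      s + C ε * (-tau (z ^ (m - 1)) o₂) := by
    have h1 : (sub s ^ α) (C z * X) = tau z s - C ε * o₂ := by rw [← ho₂]; ring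
    change tau (z ^ (m - 1)) ((sub s ^ α) (tau z X)) = _
    rw [tau_X, h1, map_sub, ht3, map_mul, Base_en_C]
    ring
  have hκ : tau (z ^ (m - 1)) * sub s ^ α * tau z = sub (s + C ε * (-tau (z ^ (m - 1)) o₂)) := by
    rw [← hκX]
    refine eq_sub _ ?_
    rw [hκX, map_add]
    exact add_mem hsm (hem _)
  have hα : ∀ a : ℕ, ((sub s ^ p ^ n) ^ a) X = X + C ε * ((a : A⟦X⟧) * o) := by
    intro a
    induction a with
    | zero => simp
    | succ a ih =>
      rw [← SpA_succ, ih, map_add, map_mul, Base_en_C, ho', htay]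
      push_cast
      linear_combination (o * d⁄dX A ((a : A⟦X⟧) * o)) * hεε
  obtain ⟨L, hL1, hL2⟩ := calc_pow π hπ σ hσ0 x hx s hs
  have hI : Ideal.span {ε} * Ideal.span {ε} = (⊥ : Ideal A) := by
    rw [Ideal.span_singleton_mul_span_singleton, hε ε hεm, Ideal.span_singleton_eq_bot]
  have h1 := hL1 _ hI (C ε * (-tau (z ^ (m - 1)) o₂)) ((cin_span_singleton ε _).2 ⟨_, rfl⟩) (p ^ n)
  have hL3 : ∀ g, L (p ^ n) (C ε * g) = C ε * L (p ^ n) g := fun g => by
    rw [← smul_eq_C_mul, map_smul, smul_eq_C_mul]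
  rw [← hκ, Obs1_conj ht1 ht2, ← pow_mul, mul_comm α, pow_mul, ho', hL3] at h1
  have h2 : C ε * (C z * (α : A⟦X⟧) * tau (z ^ (m - 1)) o) =
      C ε * (o + L (p ^ n) (-tau (z ^ (m - 1)) o₂)) := by
    have h3 : (tau (z ^ (m - 1)) * (sub s ^ p ^ n) ^ α * tau z) X =
        X + C ε * (C z * (α : A⟦X⟧) * tau (z ^ (m - 1)) o) := by
      change tau (z ^ (m - 1)) (((sub s ^ p ^ n) ^ α) (tau z X)) = _
      have h4 : (C z : A⟦X⟧) * C (z ^ (m - 1)) = 1 := by rw [← map_mul, mul_comm, hzz, map_one]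
      rw [tau_X, map_mul, Base_en_C, hα, map_mul, Base_en_C, map_add, tau_X, map_mul, Base_en_C,
        map_mul, map_natCast]
      linear_combination X * h4
    rw [h3] at h1
    linear_combination h1
  have h3 := eps_cancel π hπ h0 h2
  have h4 := hL2 (p ^ n) (-tau (z ^ (m - 1)) o₂)
  rw [S.pow, AlgHom.one_apply] at h4
  rw [map_mul, map_mul, map_C, map_natCast, map_tau, map_pow, hπz, map_add] at h3
  have hτx : tau ζ x = C (ζ ^ p ^ n) * x := tau_nrm ⟨S.pow, S.rel⟩ (S.cop n)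
  have hτi : ∀ i : ℕ, tau (ζ ^ i) x = C ((ζ ^ p ^ n) ^ i) * x := by
    intro i
    induction i with
    | zero => simp [tau_one]
    | succ i ih =>
      rw [pow_succ, ← tau_mul, AlgHom.mul_apply, hτx, map_mul, Base_en_C, ih, pow_succ, map_mul]
      ring
  have hζ : ζ ^ (m - 1) * ζ = 1 := by rw [← pow_succ, hm1, S.prim.pow_eq_one]
  have hτd : C ζ * d⁄dX k x = C (ζ ^ p ^ n) * tau (ζ ^ (m - 1)) (d⁄dX k x) := by
    have h5 := der_tau ζ x
    rw [hτx, ← smul_eq_C_mul, Derivation.map_smul, smul_eq_C_mul] at h5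
    have h6 := congrArg (tau (ζ ^ (m - 1))) h5
    rw [map_mul, map_mul, Base_en_C, Base_en_C, ← AlgHom.mul_apply, tau_mul, hζ, tau_one,
      AlgHom.one_apply] at h6
    exact h6.symm
  have hτs : tau (ζ ^ (m - 1)) * sub x = sub x * tau ((ζ ^ p ^ n) ^ (m - 1)) := by
    have h5 : (tau (ζ ^ (m - 1)) * sub x) X = C ((ζ ^ p ^ n) ^ (m - 1)) * x := by
      rw [AlgHom.mul_apply, sub_X hxm, hτi]
    refine en_ext ?_ ?_
    · rw [h5, AlgHom.mul_apply, tau_X, map_mul, Base_en_C, sub_X hxm]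
    · rw [h5, map_mul]
      exact Ideal.mul_mem_left _ _ hxm
  set a := PowerSeries.map π (-tau (z ^ (m - 1)) o₂) * σ (d⁄dX k x) with ha
  have h5 : sub x (C ((α : k) * ζ ^ p ^ n) * tau ((ζ ^ p ^ n) ^ (m - 1)) γ - γ) =
      trc σ (p ^ n) a := by
    have h6 : sub x (tau ((ζ ^ p ^ n) ^ (m - 1)) γ) = tau (ζ ^ (m - 1)) (sub x γ) :=
      (AlgHom.congr_fun hτs γ).symm
    rw [map_sub, map_mul, Base_en_C, h6, hγ, ← h4, map_mul, map_mul, map_natCast]
    linear_combination (d⁄dX k x) * h3 -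
      (α : k⟦X⟧) * tau (ζ ^ (m - 1)) (PowerSeries.map π o) * hτd
  have h6 : d⁄dX k x ∣ a := by
    have h7 : IsUnit (d⁄dX k (σ X)) := by
      rw [isUnit_iff_constantCoeff, ← coeff_zero_eq_constantCoeff_apply, coeff_derivative]
      have h8 := (order_eq_nat.1 (hσ1.trans Nat.cast_one.symm)).1
      simpa using h8
    refine Dvd.dvd.mul_left ?_ _
    refine (h7.dvd_mul_right).1 ?_
    rw [← hdx]
  have h7 := hc.dvd (p ^ n - 1) (by omega) a h6 (by
    rw [Nat.sub_add_cancel hq]; exact (dl_pow p n S.pow a).2)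
  rw [Nat.sub_add_cancel hq, (dl_pow p n S.pow a).1, ← h5] at h7
  have h8 : coeff j (C ((α : k) * ζ ^ p ^ n) * tau ((ζ ^ p ^ n) ^ (m - 1)) γ - γ) = 0 := by
    refine Obs1_coeff hq hxo ?_ hj
    obtain ⟨b, hb⟩ := h7
    rw [hb, order_mul, order_pow, hxo, nsmul_eq_mul, ← Nat.cast_mul, mul_comm]
    exact le_self_add
  rw [map_sub, coeff_C_mul, coeff_tau] at h8
  by_contra h9
  apply hJ
  simp only [JJ, mem_filter, mem_Ico]
  refine ⟨⟨hjw, hj⟩, ?_⟩
  have h10 : (α : k) * ζ ^ p ^ n * ((ζ ^ p ^ n) ^ (m - 1)) ^ j = 1 :=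
    mul_right_cancel₀ h9 (by linear_combination h8)
  have h11 : ((ζ ^ p ^ n) ^ (m - 1)) ^ j * (ζ ^ p ^ n) ^ j = 1 := by
    rw [← mul_pow, ← pow_succ, hm1, (S.prim_pow n).pow_eq_one, one_pow]
  linear_combination (α : k) * ζ ^ p ^ n * h11 - (ζ ^ p ^ n) ^ j * h10

end Pool.Agent.MP_deef5c_ag.O
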