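import Pool.Agent.MP_deef5c_ag.O.Calc
import Pool.Agent.MP_deef5c_ag.O.Desc

/-! Lifting when the obstruction vanishes. -/

open PowerSeries IsLocalRing Finset Function
open scoped Polynomial

namespace Pool.Agent.MP_deef5c_ag.O

universe u

variable {k : Type u} [Field k] {p n m α : ℕ} [Fact p.Prime] [CharP k p] {ζ : k} {σ : En k}

variable {A : Type u} [CommRing A] [IsLocalRing A] [CL A]

theorem Obs2_conj {M : Type*} [Monoid M] {t u : M} (h1 : t * u = 1) (h2 : u * t = 1) (φ : M)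
    (j : ℕ) : (u * φ * t) ^ j = u * φ ^ j * t := by
  induction j with
  | zero => simp [h2]
  | succ j ih =>
    rw [pow_succ, ih, pow_succ]
    calc u * φ ^ j * t * (u * φ * t) = u * φ ^ j * (t * u) * φ * t := by simp only [mul_assoc]
      _ = u * (φ ^ j * φ) * t := by rw [h1]; simp only [mul_assoc, one_mul]

theorem Obs2_iter {M : Type*} [Monoid M] {t u : M} (h1 : t * u = 1) (h2 : u * t = 1) (α : ℕ)
    (φ : ℕ → M) (hφ : ∀ i, φ (i + 1) = u * φ i ^ α * t) (j : ℕ) :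
    φ j = u ^ j * φ 0 ^ α ^ j * t ^ j := by
  have hc : Commute t u := h1.trans h2.symm
  induction j with
  | zero => simp
  | succ j ih =>
    rw [hφ, ih, Obs2_conj (by rw [← hc.mul_pow, h1, one_pow])
      (by rw [← hc.symm.mul_pow, h2, one_pow]), ← pow_mul, ← pow_succ, pow_succ' u, pow_succ t]
    simp only [mul_assoc]

theorem Obs2_C (φ : En A) (a : A) (f : A⟦X⟧) : φ (C a * f) = C a * φ f := by
  rw [map_mul, Base_en_C]

theorem Obs2_lin (L : A⟦X⟧ →ₗ[A] A⟦X⟧) (a : A) (f : A⟦X⟧) : L (C a * f) = C a * L f := by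
  rw [← smul_eq_C_mul, ← smul_eq_C_mul, map_smul]

theorem Obs2_pow_mem (φ : En A) (hm : constantCoeff (φ X) ∈ maximalIdeal A) (j : ℕ) :
    constantCoeff ((φ ^ j) X) ∈ maximalIdeal A := by
  induction j with
  | zero => simp
  | succ j ih =>
    rw [pow_succ', AlgHom.mul_apply]
    exact en_mem φ hm ih

/-- averaging over the group generated by `tau z` -/
theorem Obs2_avg {q : ℕ} (hm : 0 < m) (hu : IsUnit (m : A)) (hα : α ^ m ≡ 1 [MOD q]) {z ε : A}
    (hz : z ^ m = 1) (hεm : ε ∈ maximalIdeal A) {s o o₂ : A⟦X⟧}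
    (hs : constantCoeff s ∈ maximalIdeal A) (L : ℕ → A⟦X⟧ →ₗ[A] A⟦X⟧)
    (hL : ∀ g a, (sub (s + C ε * g) ^ a) X = (sub s ^ a) X + C ε * L a g)
    (ho : (sub s ^ q) X - X = C ε * o) (ho₂ : tau z s - (sub s ^ α) (C z * X) = C ε * o₂)
    (g₀ : A⟦X⟧) (hg₀ : C ε * (o + L q g₀) = 0) : ∃ g, Rel q α z (sub (s + C ε * g)) := by
  have hmem : ∀ g, constantCoeff (s + C ε * g) ∈ maximalIdeal A := fun g => by
    rw [map_add, map_mul, constantCoeff_C]
    exact Ideal.add_mem _ hs (Ideal.mul_mem_right _ _ hεm)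
  have hX : ∀ g, sub (s + C ε * g) X = s + C ε * g := fun g => sub_X (hmem g)
  have hq : ∀ g, sub (s + C ε * g) ^ q = 1 ↔ C ε * (o + L q g) = 0 := fun g => by
    have h1 : (sub (s + C ε * g) ^ q) X = X + C ε * (o + L q g) := by
      rw [hL, mul_add, ← ho]
      ring
    constructor
    · intro h
      rw [h, AlgHom.one_apply] at h1
      exact left_eq_add.1 h1
    · intro h
      rw [h, add_zero] at h1
      exact en_ext h1 (by rw [h1]; simp)
  obtain ⟨y, hy⟩ : ∃ y : A, y = z ^ (m - 1) := ⟨_, rfl⟩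
  have hzy : z * y = 1 := by rw [hy, ← pow_succ', Nat.sub_add_cancel hm, hz]
  have h1 : tau z * tau y = 1 := by rw [tau_mul, hzy, tau_one]
  have h2 : tau y * tau z = 1 := by rw [tau_mul, mul_comm, hzy, tau_one]
  obtain ⟨Λ, hΛ⟩ : ∃ Λ : A⟦X⟧ →ₗ[A] A⟦X⟧, ∀ g, Λ g = C z * tau y (L α g) :=
    ⟨z • ((tau y).toLinearMap ∘ₗ L α), fun g => by rw [← smul_eq_C_mul]; rfl⟩
  have hK : ∀ g, sub (s + C ε * (Λ g - tau y o₂)) = tau y * sub (s + C ε * g) ^ α * tau z := by
    intro g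
    refine en_ext ?_ (by rw [hX]; exact hmem _)
    have h3 := congrArg (tau y) ho₂
    rw [map_sub, ← AlgHom.mul_apply, h2, AlgHom.one_apply, Obs2_C, Obs2_C, Obs2_C] at h3
    rw [hX, AlgHom.mul_apply, AlgHom.mul_apply, tau_X, Obs2_C, Obs2_C, hL, map_add, Obs2_C, hΛ,
      mul_sub, ← h3]
    ring
  let g : ℕ → A⟦X⟧ := fun i => (fun f => Λ f - tau y o₂)^[i] g₀
  have hg : ∀ i, g (i + 1) = Λ (g i) - tau y o₂ := fun i => iterate_succ_apply' _ _ _
  have hit := Obs2_iter h1 h2 α (fun i => sub (s + C ε * g i)) fun i => by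
    show sub (s + C ε * g (i + 1)) = _
    rw [hg, hK]
  have hq0 : sub (s + C ε * g 0) ^ q = 1 := (hq g₀).2 hg₀
  have hqi : ∀ i, sub (s + C ε * g i) ^ q = 1 := by
    intro i
    induction i with
    | zero => exact hq0
    | succ i ih => rw [hg, hK, Obs2_conj h1 h2, ← pow_mul, mul_comm α, pow_mul, ih, one_pow,
        mul_one, h2]
  have hgm : C ε * g m = C ε * g 0 := by
    have h3 := hit m
    have hym : y ^ m = 1 := by rw [hy, ← pow_mul, mul_comm, pow_mul, hz, one_pow]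
    rw [tau_pow, tau_pow, hz, hym, tau_one, one_mul, mul_one, pow_eq_pow_of_modEq hα hq0,
      pow_one] at h3
    have h4 := congrArg (fun φ : En A => φ X) h3
    simp only [hX] at h4
    exact add_left_cancel h4
  obtain ⟨v, hv⟩ := hu.exists_left_inv
  have hv' : (C v : A⟦X⟧) * m = 1 := by rw [← map_natCast (C (R := A)), ← map_mul, hv, map_one]
  refine ⟨C v * ∑ i ∈ range m, g i, (hq _).2 ?_, ?_⟩
  · have h3 : ∑ i ∈ range m, C ε * (o + L q (g i)) = 0 :=
      sum_eq_zero fun i _ => (hq _).1 (hqi i)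
    rw [← mul_sum, sum_add_distrib, sum_const, card_range, nsmul_eq_mul, ← map_sum] at h3
    rw [Obs2_lin]
    linear_combination C v * h3 - C ε * o * hv'
  · have h3 : ∑ i ∈ range m, g (i + 1) = ∑ i ∈ range m, g i + g m - g 0 := by
      rw [← sum_range_succ, sum_range_succ', add_sub_cancel_right]
    simp only [hg] at h3
    rw [sum_sub_distrib, sum_const, card_range, nsmul_eq_mul, ← map_sum] at h3
    have h4 : C ε * (Λ (C v * ∑ i ∈ range m, g i) - tau y o₂) =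
        C ε * (C v * ∑ i ∈ range m, g i) := by
      rw [Obs2_lin]
      linear_combination C ε * C v * h3 + C v * hgm + C ε * tau y o₂ * hv'
    have h5 := hK (C v * ∑ i ∈ range m, g i)
    rw [h4] at h5
    conv_lhs => rw [h5]
    rw [← mul_assoc, ← mul_assoc, h1, one_mul]

/-- Choose `g₀` with `map π g₀ * σ (d x) = - a`; `s₁ = s + ε g₀` has `(sub s₁)^q = 1` (`calc_pow`,
`d x ≠ 0`).  For lifts `s' = s₁ + e`, `e ∈ ε A⟦X⟧`, let `κ s' = (tau z⁻¹ * (sub s')^α * tau z) X`; then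
`κ (s₁ + e) = κ s₁ + Λ e` with `Λ e = z tau z⁻¹ (L α e)` linear, `κ s₁ - s₁ ∈ ε A⟦X⟧`,
`sub (κ s') = tau z⁻¹ * (sub s')^α * tau z`, so `κ` preserves `(sub s')^q = 1`, i.e. `L q e = 0`, and
`κ^m s₁ = s₁` (`Sp.apow`).  With `κ^i s₁ = s₁ + e i`, the average `s₁ + (1/m) ∑_{i<m} e i` is fixed by
`κ`; `m` is a unit of `A`. -/
theorem obs2 (S : Sp p n m α ζ σ) (hd : d⁄dX k (xb p n σ) ≠ 0) (π : A →+* k) (hπ : Surjective π)
    {z ε : A} (hz : z ^ m = 1) (hπz : π z = ζ) (hε : ∀ a ∈ maximalIdeal A, a * ε = 0)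
    (hεm : ε ∈ maximalIdeal A) {s o o₂ : A⟦X⟧} (hs : PowerSeries.map π s = σ X)
    (ho : (sub s ^ p ^ n) X - X = C ε * o) (ho₂ : tau z s - (sub s ^ α) (C z * X) = C ε * o₂)
    (a : k⟦X⟧) (ha : d⁄dX k (xb p n σ) ∣ a)
    (h : PowerSeries.map π o * d⁄dX k (xb p n σ) = trc σ (p ^ n) a) :
    ∃ g, Rel (p ^ n) α z (sub (s + C ε * g)) := by
  have hx : σ (xb p n σ) = xb p n σ := nrm_inv S.pow X
  have h0 : constantCoeff (σ X) = 0 := by
    have h1 := order_one (pow_pos (Fact.out : p.Prime).pos n) S.pow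
    rw [← coeff_zero_eq_constantCoeff_apply]
    exact coeff_of_lt_order 0 (by rw [h1]; simp)
  have hs0 : constantCoeff s ∈ maximalIdeal A := by
    rw [← pi_eq_zero_iff π hπ, ← h0, ← hs, ← coeff_zero_eq_constantCoeff_apply,
      ← coeff_zero_eq_constantCoeff_apply, coeff_map]
  obtain ⟨L, hL1, hL2⟩ := calc_pow π hπ σ h0 _ hx s hs
  obtain ⟨b, rfl⟩ := ha
  have hch := der_en σ (by rw [h0]; exact Ideal.zero_mem _) (xb p n σ)
  rw [hx] at hch
  obtain ⟨g₀, hg₀⟩ := PowerSeries.map_surjective π hπ (-(d⁄dX k (σ X) * b))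
  refine Obs2_avg S.mpos ?_ S.apow hz hεm hs0 L (fun g j => ?_) ho ho₂ g₀ ?_
  · by_contra hu
    have h1 := (pi_eq_zero_iff π hπ (m : A)).2 hu
    rw [map_natCast] at h1
    exact S.m_ne h1
  · rw [hL1 (Ideal.span {ε}) (by rw [Ideal.span_singleton_mul_span_singleton, hε ε hεm]; simp) _
      ((cin_span_singleton ε _).2 ⟨g, rfl⟩), Obs2_lin]
  · have h1 := hL2 (p ^ n) g₀
    have h2 : -(d⁄dX k (σ X) * b) * σ (d⁄dX k (xb p n σ)) = -(d⁄dX k (xb p n σ) * b) := by
      linear_combination b * hch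
    have h3 : ∀ f, trc σ (p ^ n) (-f) = -trc σ (p ^ n) f := fun f => by
      simp [trc]
    rw [hg₀, S.pow, AlgHom.one_apply, h2, h3, ← h] at h1
    have h4 : PowerSeries.map π (o + L (p ^ n) g₀) = PowerSeries.map π 0 := by
      rw [map_zero, map_add]
      exact (mul_eq_zero.1 (by linear_combination h1)).resolve_right hd
    rw [eps_mul_eq π hπ hε h4, mul_zero]

end Pool.Agent.MP_deef5c_ag.O
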