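import Pool.Agent.MP_deef5c_ag.O.Zorn
import Pool.Agent.MP_deef5c_ag.O.Gen
import Pool.Agent.MP_deef5c_ag.O.Obs1
import Pool.Agent.MP_deef5c_ag.O.Obs2

/-! The number of relations of the framed deformation ring. -/

open PowerSeries IsLocalRing Finset Function
open scoped Polynomial

namespace Pool.Agent.MP_deef5c_ag.O

universe u

variable {k : Type u} [Field k] {p n m α : ℕ} [Fact p.Prime] [CharP k p] {ζ : k} {σ : En k}

variable {R : Type u} [CommRing R] [IsLocalRing R] [CL R]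

theorem Low_c0 {D : Type u} [CommRing D] [IsLocalRing D] (S : Sp p n m α ζ σ) (π : D →+* k)
    (hπ : Surjective π) {s : D⟦X⟧} (hs : PowerSeries.map π s = σ X) :
    constantCoeff s ∈ maximalIdeal D := by
  have h := order_one (pow_pos (Fact.out : p.Prime).pos n) S.pow
  rw [← pi_eq_zero_iff π hπ, ← coeff_zero_eq_constantCoeff_apply, ← coeff_map, hs]
  exact coeff_of_lt_order 0 (by rw [h]; exact zero_lt_one)

theorem Low_trc (S : Sp p n m α ζ σ) {c : ℕ → ℕ} (hc : SL p n σ c) {γ : k⟦X⟧}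
    (hγ : ∀ j < c (p ^ n), coeff j γ = 0) :
    ∃ a, d⁄dX k (xb p n σ) ∣ a ∧ sub (xb p n σ) γ = trc σ (p ^ n) a := by
  have hq := pow_pos (Fact.out : p.Prime).pos n
  obtain ⟨γ₁, rfl⟩ := X_pow_dvd_iff.2 hγ
  obtain ⟨a, h1, -, h2⟩ := hc.ex (p ^ n - 1) (by omega)
  rw [(dl_pow p n S.pow a).1, Nat.sub_add_cancel hq] at h2
  have hx := sub_X (Qb_mem (RingHom.id k) surjective_id (xb p n σ) _ hq (by simpa using S.order_xb))
  have hm := Qb_mem (RingHom.id k) surjective_id (xb p n σ) _ hq (by simpa using S.order_xb)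
  have hi : σ (xb p n σ) = xb p n σ := nrm_inv S.pow X
  have h3 : σ * sub (xb p n σ) = sub (xb p n σ) :=
    en_ext (by rw [AlgHom.mul_apply, hx, hi]) (by rwa [AlgHom.mul_apply, hx, hi])
  have h4 : ∀ i, (σ ^ i) (sub (xb p n σ) γ₁) = sub (xb p n σ) γ₁ := fun i => by
    induction i with
    | zero => rfl
    | succ i ih => rw [← SpA_succ, ih, ← AlgHom.mul_apply, h3]
  refine ⟨sub (xb p n σ) γ₁ * a, h1.mul_left _, ?_⟩
  rw [map_mul, map_pow, hx, ← h2, mul_comm]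
  simp only [trc, map_mul, h4, mul_sum]

theorem Low_key (S : Sp p n m α ζ σ) (hn : 0 < n) {w : ℕ} (hw : IsW p n σ w) {c : ℕ → ℕ}
    (hc : SL p n σ c) [Algebra R k] (hπ : Surjective (algebraMap R k)) {z : R} (hz : z ^ m = 1)
    (hπz : algebraMap R k z = ζ) {J : Ideal R} (hJ : J ≠ ⊤) {s : R⟦X⟧}
    (hs : PowerSeries.map (algebraMap R k) s = σ X) (hg : Good (p ^ n) α z J s)
    (hmin : ∀ (J' : Ideal R) (s' : R⟦X⟧), J' ≤ J → CIn J (s' - s) → Good (p ^ n) α z J' s' → J' = J)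
    (l : J →ₗ[R] k) (hl : ∀ γ, (mk fun a => l ⟨_, hg.1 a⟩) * d⁄dX k (xb p n σ) = sub (xb p n σ) γ →
      ∀ j ∈ JJ w (c (p ^ n)) (ζ ^ p ^ n) (α : k), coeff j γ = 0) : l = 0 := by
  by_contra hne
  obtain ⟨e, he⟩ : ∃ e, l e = 1 := by
    obtain ⟨e, he⟩ := DFunLike.ne_iff.1 hne
    obtain ⟨r, hr⟩ := hπ (l e)⁻¹
    exact ⟨r • e, by rw [map_smul, Algebra.smul_def, hr, inv_mul_cancel₀ he]⟩
  set J' : Ideal R := (LinearMap.ker l).map J.subtype with hJ'
  have hle : J' ≤ J := Submodule.map_subtype_le _ _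
  have hmem : ∀ a : J, (a : R) ∈ J' ↔ l a = 0 := fun a =>
    ⟨fun ⟨b, hb, h⟩ => Subtype.ext h ▸ hb, fun h => ⟨a, h, rfl⟩⟩
  have hJt : J' ≠ ⊤ := ne_top_of_le_ne_top hJ hle
  have := local_quot J' hJt
  have hφ : Surjective (Ideal.Quotient.mk J') := Ideal.Quotient.mk_surjective
  have : CL (R ⧸ J') := CL.of_surj _ hφ
  obtain ⟨π', hπ', hc'⟩ := exists_pi_quot (algebraMap R k) hπ J' hJt
  have hε : ∀ a ∈ maximalIdeal (R ⧸ J'), a * Ideal.Quotient.mk J' e = 0 := fun a ha => by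
    obtain ⟨r, rfl⟩ := hφ a
    rw [← pi_eq_zero_iff π' hπ', hc'] at ha
    rw [← map_mul, Ideal.Quotient.eq_zero_iff_mem]
    exact (hmem (r • e)).2 (by rw [map_smul, Algebra.smul_def, ha, zero_mul])
  have hem : (e : R) ∈ maximalIdeal R := le_maximalIdeal hJ e.2
  have hεm : Ideal.Quotient.mk J' e ∈ maximalIdeal (R ⧸ J') := by
    rwa [← pi_eq_zero_iff π' hπ', hc', pi_eq_zero_iff _ hπ]
  have he' : (e : R) ∉ J' := fun h => one_ne_zero (he.symm.trans ((hmem e).1 h))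
  have hdec : ∀ (f : R⟦X⟧) (hf : CIn J f), ∃ o, PowerSeries.map (Ideal.Quotient.mk J') f =
      C (Ideal.Quotient.mk J' e) * o ∧ PowerSeries.map π' o = mk fun a => l ⟨_, hf a⟩ := by
    intro f hf
    choose r hr using fun a => hπ (l ⟨_, hf a⟩)
    refine ⟨mk fun a => Ideal.Quotient.mk J' (r a), ?_, ?_⟩
    · ext a
      rw [coeff_map, coeff_C_mul, coeff_mk, ← map_mul, Ideal.Quotient.eq, mul_comm]
      exact (hmem (⟨_, hf a⟩ - r a • e)).2 (by
        rw [map_sub, map_smul, Algebra.smul_def, hr, he, mul_one, sub_self])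
    · ext a
      rw [coeff_map, coeff_mk, coeff_mk, hc', hr]
  obtain ⟨o, ho, ho'⟩ := hdec _ hg.1
  obtain ⟨o₂, ho₂, -⟩ := hdec _ hg.2
  have hs' : PowerSeries.map π' (PowerSeries.map (Ideal.Quotient.mk J') s) = σ X := by
    rw [← hs]
    ext a
    simp only [coeff_map, hc']
  have m1 := Low_c0 S _ hπ hs
  have m2 := Low_c0 S _ hπ' hs'
  have hp := map_en_pow (Ideal.Quotient.mk J') (sub s) (sub (PowerSeries.map _ s))
    (by rw [sub_X m1, sub_X m2]) (by rwa [sub_X m2])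
  rw [map_sub, hp, map_X] at ho
  rw [map_sub, hp, map_tau, map_mul, map_C, map_X] at ho₂
  have hz' : Ideal.Quotient.mk J' z ^ m = 1 := by rw [← map_pow, hz, map_one]
  have hπz' : π' (Ideal.Quotient.mk J' z) = ζ := (hc' z).trans hπz
  obtain ⟨γ, h1, h2⟩ := obs1 S hn hw hc π' hπ' hz' hπz' hε hεm
    (fun h => he' (Ideal.Quotient.eq_zero_iff_mem.1 h)) hs' ho ho₂
  obtain ⟨a, h3, h4⟩ := Low_trc S hc (γ := γ) fun j hj => by
    by_cases h : j ∈ JJ w (c (p ^ n)) (ζ ^ p ^ n) (α : k)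
    exacts [hl γ (ho' ▸ h1) j h, h2 j hj h]
  obtain ⟨β, -, -, hβ, -⟩ := S.isW_spec hn hw
  obtain ⟨g, hg'⟩ := obs2 S (fun h => by simp [h] at hβ) π' hπ' hz' hπz' hε hεm hs' ho ho₂ a h3
    (h1.trans h4)
  obtain ⟨g, rfl⟩ := PowerSeries.map_surjective _ hφ g
  have h5 := (good_iff _ hφ (p ^ n) α z (s + C e.1 * g) (by
    rw [map_add, map_mul, constantCoeff_C]
    exact add_mem m1 (Ideal.mul_mem_right _ _ hem))).2 (by rwa [map_add, map_mul, map_C])
  rw [Ideal.mk_ker] at h5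
  refine he' ((hmin _ _ hle (fun a => ?_) h5).symm ▸ e.2)
  rw [add_sub_cancel_left, coeff_C_mul]
  exact J.mul_mem_right _ e.2

/-- Take `(J, s)` from `zorn_min`, `O = (sub s^q) X - X`, `letI := π.toAlgebra`.  For `λ : J →ₗ[R] k` let
`λ_* O = mk fun a => λ ⟨coeff a O, _⟩`, and `L λ j = coeff j (ret (λ_* O * d x))` for `j ∈ JJ`, where
`ret` is a linear left inverse of the injective `sub x`.  `gen_le` applies once `L` is injective.  If
`L λ = 0`, `λ ≠ 0`: let `J' = (ker λ).map J.subtype`, `A = R ⧸ J'`, `ε` the class of `e₀` with `λ e₀ = 1`;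
every `c ∈ J` is `≡ c' e₀` with `π c' = λ c`.  `obs1` gives `γ` with all coefficients below `c q` zero,
so `λ_* O * d x = x^(c q) sub x γ₁ = trc σ q (sub x γ₁ * a)` with `a` from `SL.ex` (`dl_pow`); `obs2` and
`good_iff` give a good pair `(J', s + e₀ g)`, contradicting minimality. -/
theorem low (S : Sp p n m α ζ σ) (hn : 0 < n) {w : ℕ} (hw : IsW p n σ w) {c : ℕ → ℕ}
    (hc : SL p n σ c) (π : R →+* k) (hπ : Surjective π) {z : R} (hz : z ^ m = 1) (hπz : π z = ζ)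
    (J₂ : Ideal R) (hJ₂ : J₂ ≠ ⊤) (s₂ : R⟦X⟧) (hs : PowerSeries.map π s₂ = σ X)
    (hg : Good (p ^ n) α z J₂ s₂) :
    ∃ (T : Finset R) (s : R⟦X⟧), T.card ≤ (JJ w (c (p ^ n)) (ζ ^ p ^ n) (α : k)).card ∧
      Ideal.span (T : Set R) ≤ J₂ ∧ CIn J₂ (s - s₂) ∧ Good (p ^ n) α z (Ideal.span (T : Set R)) s := by
  obtain ⟨J, s, h1, h2, h3, h4⟩ := zorn_min (p ^ n) α z J₂ hJ₂ s₂ (Low_c0 S π hπ hs) hg
  have hs' : PowerSeries.map π s = σ X := by
    rw [← hs]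
    ext a
    rw [coeff_map, coeff_map, ← sub_eq_zero, ← map_sub, ← map_sub]
    exact Quot_ker π hπ J₂ hJ₂ _ (h2 a)
  letI := π.toAlgebra
  obtain ⟨ret, hret⟩ := (sub (xb p n σ)).toLinearMap.exists_leftInverse_of_injective
    (LinearMap.ker_eq_bot.2 (sub_injective (RingHom.id k) surjective_id (xb p n σ) _
      (pow_pos (Fact.out : p.Prime).pos n) (by simpa using S.order_xb)))
  let P : (J →ₗ[R] k) →ₗ[k] k⟦X⟧ :=
    { toFun := fun l => mk fun a => l ⟨_, h3.1 a⟩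
      map_add' := fun _ _ => by ext a; simp
      map_smul' := fun _ _ => by ext a; simp }
  obtain ⟨T, hT, rfl⟩ := gen_le (k := k) hπ J
    (LinearMap.pi fun j : JJ w (c (p ^ n)) (ζ ^ p ^ n) (α : k) => coeff j.1 ∘ₗ ret ∘ₗ
      LinearMap.mulRight k (d⁄dX k (xb p n σ)) ∘ₗ P)
    ((injective_iff_map_eq_zero _).2 fun l hl =>
      Low_key S hn hw hc hπ hz hπz (ne_top_of_le_ne_top hJ₂ h1) hs' h3 h4 l fun γ hγ j hj => by
        have h5 : coeff j (ret (P l * d⁄dX k (xb p n σ))) = 0 := congrFun hl ⟨j, hj⟩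
        have h6 : ret (sub (xb p n σ) γ) = γ := LinearMap.congr_fun hret γ
        rw [← h6, ← hγ]
        exact h5)
  exact ⟨T, s, by simpa using hT, h1, h2, h3⟩

end Pool.Agent.MP_deef5c_ag.O
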