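import Pool.Agent.MP_deef5c_ag.O.Lau

/-! Displacement of a Laurent series. -/

open PowerSeries IsLocalRing Finset Function
open scoped Polynomial

namespace Pool.Agent.MP_deef5c_ag.O

universe u

open WithZero

theorem Vsub_int {K Γ : Type*} [Field K] [LinearOrderedCommGroupWithZero Γ] (v : Valuation K Γ)
    (n : ℤ) : v (n : K) ≤ 1 := by
  induction n with
  | zero => simp
  | succ n ih => push_cast at ih ⊢; exact v.map_add_le ih (by simp)
  | pred n ih => push_cast at ih ⊢; exact v.map_sub_le ih (by simp)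

theorem Vsub_zpow {K Γ : Type*} [Field K] [LinearOrderedCommGroupWithZero Γ] (v : Valuation K Γ)
    {e : K} (he : v e < 1) (n : ℤ) : v ((1 + e) ^ n - 1 - n * e) ≤ v e ^ 2 := by
  have h1 : v (1 + e) = 1 := v.map_one_add_of_lt he
  have h0 : (1 + e) ≠ 0 := fun h => by simp [h] at h1
  have hn : ∀ m : ℤ, v (m * e ^ 2) ≤ v e ^ 2 := fun m => by
    rw [map_mul, map_pow]
    exact mul_le_of_le_one_left' (Vsub_int v m)
  have key : ∀ m : ℤ, (1 + e) ^ (m + 1) - 1 - ((m + 1 : ℤ) : K) * e =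
      (1 + e) * ((1 + e) ^ m - 1 - m * e) + m * e ^ 2 := fun m => by
    rw [zpow_add_one₀ h0]; push_cast; ring
  induction n with
  | zero => simp
  | succ n ih =>
    rw [key]
    exact v.map_add_le (by rwa [map_mul, h1, one_mul]) (hn _)
  | pred n ih =>
    have h2 := key (-(n : ℤ) - 1)
    rw [sub_add_cancel] at h2
    have h3 := v.map_sub_le ih (hn (-(n : ℤ) - 1))
    rwa [h2, add_sub_cancel_right, map_mul, h1, one_mul] at h3

variable {k : Type u} [Field k]

theorem Vsub_cast {a : ℤ} (ha : (a : k) ≠ 0) : vv k (a : LaurentSeries k) = 1 := by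
  have h1 : (a : LaurentSeries k) = lc k (C (a : k)) := by
    rw [map_intCast, map_intCast]
  have h2 : order (C (a : k) : k⟦X⟧) = ((0 : ℕ) : ℕ∞) :=
    order_zero_of_unit ((Ne.isUnit ha).map C)
  rw [h1, vv_lc_eq.2 h2]
  simp

/-- `z = X^(-a) u` with `u` a unit; `ρ X = X (1 + c X^l + ..)` and `ρ u - u ∈ (ρ X - X)` (`sub_dvd`) -/
theorem vv_sub (ρ : En k) (l : ℕ) (hl : 0 < l) (hρ : order (ρ X - X) = ((l + 1 : ℕ) : ℕ∞))
    (z : LaurentSeries k) (a : ℤ) (hz : vv k z = exp a) :
    vv k (lext ρ z - z) ≤ exp (a - l) ∧ ((a : k) ≠ 0 → vv k (lext ρ z - z) = exp (a - l)) := by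
  set T : LaurentSeries k := lc k X with hT
  set δ : LaurentSeries k := lc k (ρ X - X) with hδ
  have vT : vv k T = exp (-1 : ℤ) := by
    have := (vv_lc_eq (f := (X : k⟦X⟧)) (d := 1)).2 (by simp)
    rwa [Nat.cast_one] at this
  have vδ : vv k δ = WithZero.exp (-((l : ℤ) + 1)) := by
    have := vv_lc_eq.2 hρ
    rwa [Nat.cast_add, Nat.cast_one] at this
  have hT0 : T ≠ 0 := fun h => by
    rw [h, map_zero] at vT
    exact exp_ne_zero vT.symm
  have hρX : lc k (ρ X) = T + δ := by rw [hδ, map_sub]; ring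
  have hord : order (ρ X) = ((1 : ℕ) : ℕ∞) := by
    refine vv_lc_eq.1 ?_
    rw [hρX, (vv k).map_add_eq_of_lt_left (by rw [vT, vδ, exp_lt_exp]; omega), vT]
    simp
  have hc : constantCoeff (ρ X) ∈ maximalIdeal k := by
    have := coeff_of_lt_order (φ := ρ X) 0 (by rw [hord]; simp)
    rw [coeff_zero_eq_constantCoeff_apply] at this
    rw [this]; exact zero_mem _
  have hinj : Injective ρ := by
    refine (injective_iff_map_eq_zero ρ).2 fun f hf => ?_
    have := order_en ρ 1 one_pos hord f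
    rw [hf, order_zero, Nat.cast_one, one_mul] at this
    exact order_eq_top.1 this.symm
  set e : LaurentSeries k := δ / T with he
  have ve : vv k e = exp (-(l : ℤ)) := by
    rw [he, map_div₀, vT, vδ, ← exp_sub]
    congr 1; ring
  have ve1 : vv k e < 1 := by
    rw [ve, ← exp_zero, exp_lt_exp]; omega
  have v1e : vv k (1 + e) = 1 := (vv k).map_one_add_of_lt ve1
  have hLT : lext ρ T = T * (1 + e) := by
    rw [show lext ρ T = T + δ from (lext_lc hinj X).trans hρX, he]; field_simp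
  have vTa : ∀ b : ℤ, vv k (T ^ b) = exp (-b) := fun b => by
    rw [map_zpow₀, vT, ← exp_zsmul]
    congr 1; simp
  have vu : vv k (z * T ^ a) = 1 := by
    rw [map_mul, hz, vTa, ← exp_add]; simp
  obtain ⟨f, hf⟩ := exists_lc_of_le vu.le
  rw [← hf] at vu
  have hzf : z = lc k f * T ^ (-a) := by
    rw [hf, mul_assoc, ← zpow_add₀ hT0]; simp
  have vL : vv k (lext ρ (lc k f) - lc k f) ≤ WithZero.exp (-((l : ℤ) + 1)) := by
    obtain ⟨g, hg⟩ := sub_dvd ρ 1 hc (by simp) f
    have hg' : ρ f - f = (ρ X - X) * g := hg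
    rw [lext_lc hinj, ← map_sub, hg', map_mul, map_mul, ← hδ, vδ]
    exact mul_le_of_le_one_right' (vv_lc_le g)
  set A : LaurentSeries k := (lext ρ (lc k f) - lc k f) * (1 + e) ^ (-a) +
    lc k f * ((1 + e) ^ (-a) - 1 - ((-a : ℤ) : LaurentSeries k) * e) with hA
  have vA : vv k A ≤ WithZero.exp (-((l : ℤ) + 1)) := by
    refine (vv k).map_add_le ?_ ?_
    · rwa [map_mul, map_zpow₀, v1e, one_zpow, mul_one]
    · rw [map_mul, vu, one_mul]
      refine (Vsub_zpow (vv k) ve1 (-a)).trans ?_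
      rw [ve, ← exp_nsmul, exp_le_exp]
      simp only [nsmul_eq_mul]; push_cast; omega
  have hdec : lext ρ z - z = T ^ (-a) * (A - lc k f * (a * e)) := by
    rw [hzf, map_mul, map_zpow₀, hLT, mul_zpow, hA]
    push_cast; ring
  have vB : vv k (lc k f * (a * e)) = vv k (a : LaurentSeries k) * exp (-(l : ℤ)) := by
    rw [map_mul, vu, one_mul, map_mul, ve]
  have hlt : (WithZero.exp (-((l : ℤ) + 1)) : WithZero (Multiplicative ℤ)) < exp (-(l : ℤ)) := by
    rw [exp_lt_exp]; omega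
  have hex : (exp (a - l) : WithZero (Multiplicative ℤ)) = exp a * exp (-(l : ℤ)) := by
    rw [← exp_add, sub_eq_add_neg]
  rw [hdec, map_mul, vTa, neg_neg, hex]
  refine ⟨mul_le_mul_right ((vv k).map_sub_le (vA.trans hlt.le) ?_) _, fun ha => ?_⟩
  · rw [vB]
    exact mul_le_of_le_one_left' (Vsub_int _ a)
  · rw [Vsub_cast ha, one_mul] at vB
    rw [(vv k).map_sub_eq_of_lt_right (by rw [vB]; exact vA.trans_lt hlt), vB]

end Pool.Agent.MP_deef5c_ag.O
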