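import Pool.Agent.MP_deef5c_ag.O.Desc
import Pool.Agent.MP_deef5c_ag.O.Vsub

/-! The symbols of the kernel filtration. -/

open PowerSeries IsLocalRing Finset Function
open scoped Polynomial

namespace Pool.Agent.MP_deef5c_ag.O

universe u

variable {k : Type u} [Field k] {p n m α : ℕ} [Fact p.Prime] [CharP k p] {ζ : k} {σ : En k}

theorem Sfl1_dvd_iff {f : k⟦X⟧} {b : ℕ} : X ^ b ∣ f ↔ (b : ℕ∞) ≤ order f := by
  rw [X_pow_dvd_iff]
  exact ⟨nat_le_order f b, fun h i hi =>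
    coeff_of_lt_order i (lt_of_lt_of_le (by exact_mod_cast hi) h)⟩

theorem Sfl1_assoc {f : k⟦X⟧} {b : ℕ} (h : order f = b) (a : k⟦X⟧) : f ∣ a ↔ X ^ b ∣ a := by
  have h0 : f ≠ 0 := by
    rintro rfl
    simp at h
  have h1 := X_pow_order_mul_divXPowOrder (f := f)
  rw [h, ENat.toNat_natCast] at h1
  rw [← h1]
  exact (isUnit_divided_by_X_pow_order h0).mul_right_dvd

theorem Sfl1_dl (σ : En k) (a : k⟦X⟧) : dl σ a = σ a - a := rfl

theorem Sfl1_dl_mul {h : k⟦X⟧} (hh : σ h = h) (i : ℕ) (a : k⟦X⟧) :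
    (dl σ ^ i) (h * a) = h * (dl σ ^ i) a := by
  induction i with
  | zero => simp
  | succ i ih =>
    rw [pow_succ', Module.End.mul_apply, Module.End.mul_apply, ih, Sfl1_dl, Sfl1_dl, map_mul, hh]
    ring

theorem Sfl1_dvd_en (hσ : X ∣ σ X) {b : ℕ} {a : k⟦X⟧} (h : X ^ b ∣ a) : X ^ b ∣ σ a := by
  obtain ⟨g, rfl⟩ := h
  rw [map_mul, map_pow]
  exact (pow_dvd_pow_of_dvd hσ b).mul_right _

theorem Sfl1_dvd_dl (hσ : X ∣ σ X) {b : ℕ} (i : ℕ) {a : k⟦X⟧} (h : X ^ b ∣ a) :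
    X ^ b ∣ (dl σ ^ i) a := by
  induction i with
  | zero => simpa using h
  | succ i ih =>
    rw [pow_succ', Module.End.mul_apply, Sfl1_dl]
    exact dvd_sub (Sfl1_dvd_en hσ ih) ih

theorem Sfl1_gain {ρ : En k} {l : ℕ} (hρ : X ^ (l + 1) ∣ ρ X - X) {b : ℕ} {a : k⟦X⟧}
    (h : X ^ b ∣ a) : X ^ (b + l) ∣ ρ a - a := by
  obtain ⟨g, rfl⟩ := h
  obtain ⟨e, he⟩ := hρ
  have h1 : ρ X = X * (1 + X ^ l * e) := by
    rw [sub_eq_iff_eq_add] at he
    rw [he]; ring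
  have h2 : constantCoeff (ρ X) ∈ maximalIdeal k := by
    rw [h1]; simp
  have h3 : ρ X - X ∣ ρ g - g := sub_dvd ρ 1 h2 (by simp) g
  have h4 : X ^ l ∣ ρ g - g :=
    ((pow_dvd_pow X (Nat.le_succ l)).trans ⟨e, he⟩).trans h3
  have h5 : X ^ l ∣ (1 + X ^ l * e) ^ b - 1 := by
    have := sub_dvd_pow_sub_pow (1 + X ^ l * e) 1 b
    rw [add_sub_cancel_left, one_pow] at this
    exact (Dvd.intro _ rfl).trans this
  have h6 : ρ (X ^ b * g) - X ^ b * g =
      X ^ b * (((1 + X ^ l * e) ^ b - 1) * ρ g + (ρ g - g)) := by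
    rw [map_mul, map_pow, h1, mul_pow]; ring
  rw [h6, pow_add]
  exact mul_dvd_mul_left _ (dvd_add (h5.mul_right _) h4)

theorem Sfl1_frob (p : ℕ) [Fact p.Prime] [CharP k p] (σ : En k) (j : ℕ) :
    dl σ ^ p ^ j = dl (σ ^ p ^ j) := by
  have : CharP (Module.End k k⟦X⟧) p :=
    charP_of_injective_algebraMap (algebraMap k (Module.End k k⟦X⟧)).injective p
  unfold dl
  rw [sub_pow_char_pow_of_commute p j (Commute.one_right _), one_pow]
  congr 1
  generalize p ^ j = N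
  induction N with
  | zero => rfl
  | succ N ih => rw [pow_succ, pow_succ, ih]; rfl

theorem Sfl1_trc {q : ℕ} (hq : 0 < q) (h : orderOf σ = q) : ∃ f, trc σ q f ≠ 0 := by
  by_contra hc
  push Not at hc
  let F : Fin q → (k⟦X⟧ →* k⟦X⟧) := fun i => ((σ ^ (i : ℕ) : En k) : k⟦X⟧ →* k⟦X⟧)
  have hF : Injective F := fun i j hij =>
    Fin.ext (pow_X_inj hq h i i.2 j j.2 (DFunLike.congr_fun hij X))
  have hli := (linearIndependent_monoidHom k⟦X⟧ k⟦X⟧).comp F hF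
  have := Fintype.linearIndependent_iff.1 hli (fun _ => 1) (by
    funext f
    have h1 := hc f
    rw [trc, Finset.sum_range] at h1
    simpa [F] using h1) ⟨0, hq⟩
  exact one_ne_zero this

theorem Sfl1_step (S : Sp p n m α ζ σ) {β : ℕ} {i : ℕ} (hi : i < p ^ n) :
    ∃ c : ℕ, (∀ a, X ^ β ∣ a → (dl σ ^ (i + 1)) a = 0 → xb p n σ ^ c ∣ (dl σ ^ i) a) ∧
      ∃ a, X ^ β ∣ a ∧ (dl σ ^ (i + 1)) a = 0 ∧ (dl σ ^ i) a = xb p n σ ^ c := by
  have hq : 0 < p ^ n := Nat.zero_lt_of_lt hi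
  have hx := S.order_xb
  have hxi : σ (xb p n σ) = xb p n σ := nrm_inv S.pow X
  set x := xb p n σ with hxd
  have hx0 : constantCoeff x = 0 := Lau_cc hq hx
  have hxm : constantCoeff x ∈ maximalIdeal k := by simp [hx0]
  have hσ0 : constantCoeff (σ X) = 0 := Lau_cc one_pos (order_one hq S.pow)
  have hσ : X ∣ σ X := X_dvd_iff.2 hσ0
  have hsub : ∀ g, σ (sub x g) = sub x g := fun g => by
    have : σ * sub x = sub x := en_ext (by
      show σ (sub x X) = _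
      rw [sub_X hxm, hxi]) (by
      show constantCoeff (σ (sub x X)) ∈ _
      rwa [sub_X hxm, hxi])
    exact DFunLike.congr_fun this g
  have hfix : ∀ a, (dl σ ^ (i + 1)) a = 0 → ∃ g, sub x g = (dl σ ^ i) a := fun a ha => by
    refine qinv (RingHom.id k) surjective_id x (p ^ n) hq (by simpa using hx) σ hxi
      (pow_X_inj hq S.ord) _ ?_
    rwa [pow_succ', Module.End.mul_apply, Sfl1_dl, sub_eq_zero] at ha
  let I : Ideal k⟦X⟧ :=
    { carrier := {g | ∃ a, X ^ β ∣ a ∧ (dl σ ^ (i + 1)) a = 0 ∧ (dl σ ^ i) a = sub x g}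
      zero_mem' := ⟨0, by simp, by simp, by simp⟩
      add_mem' := by
        rintro g g' ⟨a, h1, h2, h3⟩ ⟨a', h1', h2', h3'⟩
        exact ⟨a + a', dvd_add h1 h1', by rw [map_add, h2, h2', add_zero],
          by rw [map_add, h3, h3', map_add]⟩
      smul_mem' := by
        rintro h g ⟨a, h1, h2, h3⟩
        exact ⟨sub x h * a, h1.mul_left _, by rw [Sfl1_dl_mul (hsub h), h2, mul_zero],
          by rw [Sfl1_dl_mul (hsub h), h3, smul_eq_mul, map_mul]⟩ }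
  have hI : I ≠ ⊥ := by
    obtain ⟨f, hf⟩ := Sfl1_trc hq S.ord
    have hxne : x ≠ 0 := by
      intro h0
      rw [h0, order_zero] at hx
      exact ENat.top_ne_natCast _ hx
    have hxβ : σ (x ^ β) = x ^ β := by rw [map_pow, hxi]
    have h1 : X ^ β ∣ x ^ β * f := (pow_dvd_pow_of_dvd (X_dvd_iff.2 hx0) β).mul_right _
    have h2 : (dl σ ^ (i + 1)) ((dl σ ^ (p ^ n - 1 - i)) (x ^ β * f)) = 0 := by
      rw [← Module.End.mul_apply, ← pow_add, show i + 1 + (p ^ n - 1 - i) = p ^ n by omega]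
      exact (dl_pow p n S.pow _).2
    have h3 : (dl σ ^ i) ((dl σ ^ (p ^ n - 1 - i)) (x ^ β * f)) ≠ 0 := by
      rw [← Module.End.mul_apply, ← pow_add, show i + (p ^ n - 1 - i) = p ^ n - 1 by omega,
        Sfl1_dl_mul hxβ, (dl_pow p n S.pow _).1]
      exact mul_ne_zero (pow_ne_zero _ hxne) hf
    obtain ⟨g, hg⟩ := hfix _ h2
    intro h0
    have : g ∈ I := ⟨_, Sfl1_dvd_dl hσ _ h1, h2, hg.symm⟩
    rw [h0, Ideal.mem_bot] at this
    rw [this, map_zero] at hg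
    exact h3 hg.symm
  obtain ⟨c, hc⟩ := IsDiscreteValuationRing.ideal_eq_span_pow_irreducible hI X_irreducible
  refine ⟨c, fun a h1 h2 => ?_, ?_⟩
  · obtain ⟨g, hg⟩ := hfix a h2
    have : g ∈ I := ⟨a, h1, h2, hg.symm⟩
    rw [hc, Ideal.mem_span_singleton] at this
    obtain ⟨h, rfl⟩ := this
    rw [← hg, map_mul, map_pow, sub_X hxm]
    exact Dvd.intro _ rfl
  · have : (X : k⟦X⟧) ^ c ∈ I := by
      rw [hc]; exact Ideal.mem_span_singleton_self _
    obtain ⟨a, h1, h2, h3⟩ := this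
    exact ⟨a, h1, h2, by rw [h3, map_pow, sub_X hxm]⟩

/-- Let `x = xb p n σ`, `q = p^n`, `M = (d x) = (X^β)`, which is `σ`-stable.  For `i < q` the elements
`dl^i a` (`a ∈ M`, `dl^(i+1) a = 0`) are invariant, so `sub x g` (`qinv`); the `g` form an ideal of
`k⟦X⟧` (`dl` commutes with multiplication by `sub x h`), non-zero: by Dedekind
(`linearIndependent_monoidHom`) `trc σ q ≠ 0` on `k⟦X⟧`, so `trc σ q a₀ ≠ 0` for some `a₀ ∈ M` (multiply
by a power of `x`), and `dl^(q-1-i) a₀` works (`dl_pow`).  It is `(X^(c (i+1)))`; put `c 0 = 0`.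
Monotone: replace `a` by `dl a`.  Finally `trc σ q a = trc σ (q/p) (dl ρ^(p-1) a)` with
`ρ = σ^(q/p)` has order `≥ β + l = q w - 1`, so `q * c q ≥ q w - 1` and `c q ≥ w`. -/
theorem sfl1 (S : Sp p n m α ζ σ) (hn : 0 < n) {w : ℕ} (hw : IsW p n σ w) :
    ∃ c, SL p n σ c ∧ w ≤ c (p ^ n) := by
  obtain ⟨β, l, -, hβ, hl, hql, -, -⟩ := S.isW_spec hn hw
  have hp : 2 ≤ p := (Fact.out : p.Prime).two_le
  have hq : 0 < p ^ n := by positivity
  have hx := S.order_xb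
  have hσ : X ∣ σ X := X_dvd_iff.2 (Lau_cc one_pos (order_one hq S.pow))
  have hxne : xb p n σ ≠ 0 := by
    intro h0
    rw [h0, order_zero] at hx
    exact ENat.top_ne_natCast _ hx
  have hxu : ¬ IsUnit (xb p n σ) := by
    rw [isUnit_iff_constantCoeff, Lau_cc hq hx]
    exact not_isUnit_zero
  choose! c hc1 hc2 using fun i (hi : i < p ^ n) => Sfl1_step (β := β) S hi
  refine ⟨fun i => if i = 0 then 0 else c (i - 1), ⟨rfl, fun i hi => ?_, fun i hi a h1 h2 => ?_,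
    fun i hi => ?_⟩, ?_⟩
  · rcases i with _ | j
    · simp
    · obtain ⟨a, h1, h2, h3⟩ := hc2 (j + 1) hi
      have h4 := hc1 j (by omega) (dl σ a) (by simpa using Sfl1_dvd_dl hσ 1 h1)
        (by rw [← Module.End.mul_apply, ← pow_succ, h2])
      rw [← Module.End.mul_apply, ← pow_succ, h3, pow_dvd_pow_iff hxne hxu] at h4
      simpa using h4
  · simpa using hc1 i hi a ((Sfl1_assoc hβ a).1 h1) h2
  · obtain ⟨a, h1, h2, h3⟩ := hc2 i hi
    exact ⟨a, (Sfl1_assoc hβ a).2 h1, h2, by simpa using h3⟩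
  · obtain ⟨a, h1, -, h3⟩ := hc2 (p ^ n - 1) (by omega)
    have hq' : 0 < p ^ (n - 1) := by positivity
    have h4 : p ^ n = p * p ^ (n - 1) := by
      rw [← pow_succ']; congr 1; omega
    have h5 : 2 * p ^ (n - 1) ≤ p ^ n := by
      rw [h4]; exact Nat.mul_le_mul_right _ hp
    have h6 : X ^ (β + l) ∣ xb p n σ ^ c (p ^ n - 1) := by
      rw [← h3, show p ^ n - 1 = (p ^ n - 1 - p ^ (n - 1)) + p ^ (n - 1) by omega,
        pow_add (dl σ), Module.End.mul_apply, Sfl1_frob]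
      exact Sfl1_dvd_dl hσ _ (Sfl1_gain (Sfl1_dvd_iff.2 hl.ge) h1)
    rw [Sfl1_dvd_iff, order_pow, hx, nsmul_eq_mul] at h6
    have h7 : β + l ≤ c (p ^ n - 1) * p ^ n := by exact_mod_cast h6
    show w ≤ if p ^ n = 0 then 0 else c (p ^ n - 1)
    rw [if_neg hq.ne']
    by_contra h8
    have h9 := Nat.mul_le_mul_right (p ^ n) (show c (p ^ n - 1) + 1 ≤ w by omega)
    rw [add_mul, mul_comm w] at h9
    omega

end Pool.Agent.MP_deef5c_ag.O
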