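import Pool.Agent.MP_deef5c_ag.O.Desc

/-! Eigenvalues on the graded pieces. -/

open PowerSeries IsLocalRing Finset Function
open scoped Polynomial

namespace Pool.Agent.MP_deef5c_ag.O

universe u

variable {k : Type u} [Field k] {p n m α : ℕ} [Fact p.Prime] [CharP k p] {ζ : k} {σ : En k}

theorem Sfl2_dvd {f a : k⟦X⟧} {β : ℕ} (hf : order f = β) :
    f ∣ a ↔ ∀ i < β, coeff i a = 0 := by
  have h0 : f ≠ 0 := fun h => by simp [h] at hf
  have h1 : X ^ β * divXPowOrder f = f := by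
    have := X_pow_order_mul_divXPowOrder (f := f)
    rwa [hf, ENat.toNat_natCast] at this
  rw [← X_pow_dvd_iff, ← h1]
  exact (isUnit_divided_by_X_pow_order h0).mul_right_dvd

theorem Sfl2_lin {x : k⟦X⟧} (hx : σ x = x) (j : ℕ) (b : k⟦X⟧) :
    (dl σ ^ j) (x * b) = x * (dl σ ^ j) b := by
  induction j with
  | zero => simp
  | succ j ih =>
    rw [pow_succ', Module.End.mul_apply, Module.End.mul_apply, ih]
    simp [dl, hx, mul_sub]

theorem Sfl2_pow (j : ℕ) : (σ ^ j).toLinearMap = σ.toLinearMap ^ j := by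
  induction j with
  | zero => rfl
  | succ j ih => rw [pow_succ, pow_succ, ← ih]; rfl

theorem Sfl2_geom {y : k⟦X⟧} (hy : σ y = y) (a i : ℕ) :
    ((∑ j ∈ range a, σ.toLinearMap ^ j) ^ i) y = (a : k) ^ i • y := by
  have h1 : ∀ j, (σ.toLinearMap ^ j) y = y := by
    intro j
    induction j with
    | zero => rfl
    | succ j ih => rw [pow_succ, Module.End.mul_apply, AlgHom.toLinearMap_apply, hy, ih]
  induction i with
  | zero => simp
  | succ i ih =>
    rw [pow_succ', Module.End.mul_apply, ih, map_smul, LinearMap.sum_apply]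
    simp only [h1, sum_const, card_range]
    rw [pow_succ, mul_smul, Nat.cast_smul_eq_nsmul]

theorem Sfl2_tau (S : Sp p n m α ζ σ) {i : ℕ} (hi : i < p ^ n) {z : k⟦X⟧}
    (hz : σ ((dl σ ^ i) z) = (dl σ ^ i) z) :
    (α : k) ^ i • (dl σ ^ i) (tau ζ z) = tau ζ ((dl σ ^ i) z) := by
  obtain ⟨a, ha⟩ : ∃ a, α * a ≡ 1 [MOD p ^ n] :=
    ⟨α ^ (m - 1), by rw [← pow_succ', Nat.sub_add_cancel S.mpos]; exact S.apow⟩
  have h1 : tau ζ * σ ^ a = σ * tau ζ := by
    have h := rel_pow S.rel a 1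
    rw [pow_one, pow_one] at h
    rw [h]
    congr 1
    conv_rhs => rw [← pow_one σ]
    rw [← pow_mod_orderOf, ← pow_mod_orderOf σ 1, S.ord, ha]
  have h2 : SemiconjBy (tau ζ).toLinearMap (σ.toLinearMap ^ a - 1) (dl σ) := by
    rw [SemiconjBy, dl, mul_sub, sub_mul, mul_one, one_mul, ← Sfl2_pow]
    congr 1
    exact congrArg AlgHom.toLinearMap h1
  have h3 : Commute (∑ j ∈ range a, σ.toLinearMap ^ j) (dl σ) :=
    Commute.sum_left _ _ _ fun j _ =>
      ((Commute.refl _).sub_right (Commute.one_right _)).pow_left j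
  have h4 := LinearMap.congr_fun (h2.pow_right i).eq z
  rw [← geom_sum_mul, ← dl, h3.mul_pow] at h4
  simp only [Module.End.mul_apply, AlgHom.toLinearMap_apply] at h4
  rw [← h4, Sfl2_geom hz, map_smul, smul_smul, ← mul_pow]
  rcases Nat.eq_zero_or_pos n with rfl | hn
  · have : i = 0 := by simpa using hi
    simp [this]
  · have h5 : ((α * a : ℕ) : k) = ((1 : ℕ) : k) :=
      (CharP.natCast_eq_natCast k p).2 (ha.of_dvd (dvd_pow_self p hn.ne'))
    rw [← Nat.cast_mul, h5]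
    simp

/-- For `i < q` consider the `a` as in `SL.ex`.  Their order is `≥ β` and `< β + q` (else `a / x` lies in
`M` and contradicts `SL.dvd`); let `z i` have maximal order `v i`.  If `i < i'` and `v i = v i'`,
subtract a multiple of `z i` from `z i'` (killed by `dl^i'`).  From `τ σ = σ^α τ`:
`τ dl^i = (σ^α - 1)^i τ`, `σ^α - 1 = trc σ α ∘ dl`, and on invariants `trc σ α` is `α`; so
`α^i dl^i (τ z) = ξ^(c (i+1)) x^(c (i+1))`.  If `γ = ζ^v α^i / ξ^c ≠ 1` an affine combination of `z` and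
`(α^i / ξ^c) τ z` has larger order. -/
theorem sfl2 (S : Sp p n m α ζ σ) {c : ℕ → ℕ} (hc : SL p n σ c) {β : ℕ}
    (hβ : order (d⁄dX k (xb p n σ)) = β) :
    ∃ v : ℕ → ℕ, Set.InjOn v (range (p ^ n) : Finset ℕ) ∧ ∀ i < p ^ n, β ≤ v i ∧ v i < β + p ^ n ∧
      ζ ^ v i * (α : k) ^ i = (ζ ^ p ^ n) ^ c (i + 1) := by
  classical
  set x := xb p n σ with hx
  have hq : 0 < p ^ n := pow_pos (Fact.out : p.Prime).pos n
  have hox : order x = ((p ^ n : ℕ) : ℕ∞) := S.order_xb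
  have hx0 : x ≠ 0 := fun h => by
    rw [h, order_zero] at hox
    exact ENat.top_ne_natCast _ hox
  have hinv : σ x = x := nrm_inv S.pow X
  have htx : tau ζ x = C (ζ ^ p ^ n) * x := tau_nrm ⟨S.pow, S.rel⟩ (S.cop n)
  let A : ℕ → k⟦X⟧ → Prop := fun i a =>
    d⁄dX k x ∣ a ∧ (dl σ ^ (i + 1)) a = 0 ∧ (dl σ ^ i) a = x ^ c (i + 1)
  have hA : ∀ i < p ^ n, ∀ a, A i a → ∃ w : ℕ, order a = w ∧ β ≤ w ∧ w < β + p ^ n := by
    rintro i hi a ⟨h1, h2, h3⟩
    have ha0 : a ≠ 0 := fun h => pow_ne_zero _ hx0 (by rw [← h3, h, map_zero])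
    refine ⟨_, (coe_toNat_order ha0).symm, ?_, ?_⟩
    · by_contra h
      exact coeff_order ha0 ((Sfl2_dvd hβ).1 h1 _ (not_le.1 h))
    · by_contra h
      have h4 : order (x * d⁄dX k x) = ((β + p ^ n : ℕ) : ℕ∞) := by
        rw [order_mul, hox, hβ, add_comm, Nat.cast_add]
      obtain ⟨b, rfl⟩ := (Sfl2_dvd h4).2 fun j hj =>
        coeff_of_lt_order_toNat j (lt_of_lt_of_le hj (not_lt.1 h))
      rw [mul_assoc, Sfl2_lin hinv] at h2 h3
      obtain ⟨t, ht⟩ := hc.dvd i hi _ (dvd_mul_right _ b) ((mul_eq_zero.1 h2).resolve_left hx0)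
      rw [ht, ← hx, mul_left_comm] at h3
      have h5 : x * t = 1 := mul_left_cancel₀ (pow_ne_zero _ hx0) (by rw [h3, mul_one])
      have h6 := order_zero_of_unit (IsUnit.of_mul_eq_one _ h5)
      rw [hox] at h6
      exact hq.ne' (by exact_mod_cast h6)
  let P : ℕ → ℕ → Prop := fun i w => ∃ a, A i a ∧ order a = w
  let v : ℕ → ℕ := fun i => Nat.findGreatest (P i) (β + p ^ n)
  have hv : ∀ i < p ^ n, P i (v i) := by
    intro i hi
    obtain ⟨a, ha⟩ := hc.ex i hi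
    obtain ⟨w, h1, -, h2⟩ := hA i hi a ha
    exact Nat.findGreatest_spec h2.le ⟨a, ha, h1⟩
  have hb : ∀ i < p ^ n, β ≤ v i ∧ v i < β + p ^ n := by
    intro i hi
    obtain ⟨a, ha, h1⟩ := hv i hi
    obtain ⟨w, h2, h3⟩ := hA i hi a ha
    have : v i = w := by exact_mod_cast h1.symm.trans h2
    rwa [this]
  have key : ∀ i < p ^ n, ∀ b, (dl σ ^ i) b = 0 → (∀ j < v i, coeff j b = 0) →
      coeff (v i) b = 0 := by
    intro i hi b h1 h2
    by_contra h3
    obtain ⟨a, ⟨h4, h5, h6⟩, h7⟩ := hv i hi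
    have h8 : A i (a - (coeff (v i) a / coeff (v i) b) • b) := by
      refine ⟨dvd_sub h4 ((Sfl2_dvd hβ).2 fun j hj => ?_), ?_, ?_⟩
      · rw [map_smul, h2 j (lt_of_lt_of_le hj (hb i hi).1), smul_zero]
      · rw [map_sub, map_smul, h5, pow_succ', Module.End.mul_apply, h1]
        simp
      · rw [map_sub, map_smul, h6, h1]
        simp
    obtain ⟨w, h9, -, h10⟩ := hA i hi _ h8
    have h11 : w ≤ v i := Nat.le_findGreatest h10.le ⟨_, h8, h9⟩
    refine (order_eq_nat.1 h9).1 ?_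
    rw [map_sub, map_smul, smul_eq_mul]
    rcases h11.lt_or_eq with h | h
    · rw [(order_eq_nat.1 h7).2 w h, h2 w h, mul_zero, sub_zero]
    · rw [h, div_mul_cancel₀ _ h3, sub_self]
  have hne : ∀ i < p ^ n, ∀ i' < p ^ n, i < i' → v i ≠ v i' := by
    intro i hi i' hi' h h1
    obtain ⟨a, ⟨-, h5, -⟩, h7⟩ := hv i hi
    rw [h1] at h7
    refine (order_eq_nat.1 h7).1 (key i' hi' a ?_ (order_eq_nat.1 h7).2)
    obtain ⟨e, rfl⟩ := Nat.exists_eq_add_of_lt h
    rw [show i + e + 1 = e + (i + 1) by ring, pow_add, Module.End.mul_apply, h5, map_zero]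
  refine ⟨v, fun i hi i' hi' h => ?_, fun i hi => ⟨(hb i hi).1, (hb i hi).2, ?_⟩⟩
  · have h1 : i < p ^ n := by simpa using hi
    have h2 : i' < p ^ n := by simpa using hi'
    rcases lt_trichotomy i i' with h3 | h3 | h3
    · exact absurd h (hne i h1 i' h2 h3)
    · exact h3
    · exact absurd h.symm (hne i' h2 i h1 h3)
  · obtain ⟨a, ⟨-, -, h6⟩, h7⟩ := hv i hi
    have h1 := Sfl2_tau S hi (z := a) (by rw [h6, map_pow, hinv])
    rw [h6, map_pow, htx, mul_pow, ← map_pow, ← smul_eq_C_mul] at h1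
    have h2 := key i hi ((α : k) ^ i • tau ζ a - (ζ ^ p ^ n) ^ c (i + 1) • a)
      (by rw [map_sub, map_smul, map_smul, h1, h6, sub_self]) (fun j hj => by
        rw [map_sub, map_smul, map_smul, coeff_tau, (order_eq_nat.1 h7).2 j hj]
        simp)
    rw [map_sub, map_smul, map_smul, coeff_tau, smul_eq_mul, smul_eq_mul, ← mul_assoc,
      ← sub_mul] at h2
    rw [mul_comm]
    exact sub_eq_zero.1 ((mul_eq_zero.1 h2).resolve_right (order_eq_nat.1 h7).1)

end Pool.Agent.MP_deef5c_ag.O
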