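import Pool.Agent.MP_deef5c_ag.O.Calc
import Pool.Agent.MP_deef5c_ag.O.Desc

/-! The first order family satisfies the relations. -/

open PowerSeries IsLocalRing Finset Function
open scoped Polynomial

namespace Pool.Agent.MP_deef5c_ag.O

universe u

variable {k : Type u} [Field k] {p n m α : ℕ} [Fact p.Prime] [CharP k p] {ζ : k} {σ : En k}

variable {A : Type u} [CommRing A] [IsLocalRing A] [CL A] [Algebra k A]

/-- `s₀ = cst (σ X)` satisfies the relations (`Rel.map`).  By `calc_pow` with `I` the maximal ideal,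
`(sub s^a) X = (sub s₀^a) X + ∑ C (a t) * L a (cst (e t))`.  For `a = q` the reductions vanish
(`trc σ q = dl^(q-1)` kills, as `t.1 ≤ q - 1`, and `d x ≠ 0`); for `a = α` use `TV.eqv` and
`tau ζ (σ (d x)) * ζ = ξ * σ^α (d x)` (`der_tau`) to get `tau ζ (e t) = ζ * red (L α (cst (e t)))`. -/
theorem tan_good (S : Sp p n m α ζ σ) (hd : d⁄dX k (xb p n σ) ≠ 0) (π : A →ₐ[k] k)
    (h2 : maximalIdeal A * maximalIdeal A = ⊥) (T : Finset (ℕ × ℕ)) (e : ℕ × ℕ → k⟦X⟧)
    (a : ℕ × ℕ → A) (ha : ∀ t ∈ T, π (a t) = 0)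
    (he : ∀ t ∈ T, t.1 ≠ 0 → t.1 < p ^ n ∧ TV p n α ζ σ (t.1 - 1) t.2 (e t)) :
    Rel (p ^ n) α (algebraMap k A ζ) (sub (sfam σ T e a)) := by
  have hq : 0 < p ^ n := pow_pos (Fact.out : p.Prime).pos n
  have hπ : Surjective (π : A →+* k) := fun c => ⟨algebraMap k A c, π.commutes c⟩
  have hcst : ∀ g : k⟦X⟧, PowerSeries.map (π : A →+* k) (cst A g) = g := fun g => by
    ext i
    simp [coeff_map]
  have h0 : constantCoeff (σ X) = 0 := by
    have h1 := order_one hq S.pow
    rw [← coeff_zero_eq_constantCoeff_apply]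
    exact coeff_of_lt_order 0 (by rw [h1]; norm_num)
  have hx : σ (xb p n σ) = xb p n σ := nrm_inv S.pow X
  have hs0 : constantCoeff (cst A (σ X)) ∈ maximalIdeal A := by
    rw [← coeff_zero_eq_constantCoeff_apply, coeff_map, coeff_zero_eq_constantCoeff_apply, h0,
      map_zero]
    exact zero_mem _
  have ham : ∀ t ∈ T.filter (fun t => t.1 ≠ 0), a t ∈ maximalIdeal A := fun t ht =>
    (pi_eq_zero_iff (π : A →+* k) hπ _).1 (ha t (mem_filter.1 ht).1)
  have hε : ∀ t ∈ T.filter (fun t => t.1 ≠ 0), ∀ b ∈ maximalIdeal A, b * a t = 0 :=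
    fun t ht b hb => by
      have h1 := Ideal.mul_mem_mul hb (ham t ht)
      rwa [h2, Ideal.mem_bot] at h1
  have hE : CIn (maximalIdeal A) (∑ t ∈ T.filter (fun t => t.1 ≠ 0), C (a t) * cst A (e t)) := by
    intro i
    rw [map_sum]
    refine sum_mem fun t ht => ?_
    rw [coeff_C_mul]
    exact Ideal.mul_mem_right _ _ (ham t ht)
  have hs : constantCoeff (sfam σ T e a) ∈ maximalIdeal A := by
    rw [sfam, map_add]
    refine add_mem hs0 ?_
    rw [← coeff_zero_eq_constantCoeff_apply]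
    exact hE 0
  have hR0 : Rel (p ^ n) α (algebraMap k A ζ) (sub (cst A (σ X))) :=
    Rel.map (algebraMap k A) ⟨S.pow, S.rel⟩ hs0
  obtain ⟨L, hL1, hL2⟩ := calc_pow (π : A →+* k) hπ σ h0 _ hx (cst A (σ X)) (hcst _)
  have hL : ∀ b, (sub (sfam σ T e a) ^ b) X = (sub (cst A (σ X)) ^ b) X +
      ∑ t ∈ T.filter (fun t => t.1 ≠ 0), C (a t) * L b (cst A (e t)) := by
    intro b
    rw [sfam, hL1 _ h2 _ hE b, map_sum]
    refine congrArg _ (sum_congr rfl fun t _ => ?_)
    rw [← smul_eq_C_mul, map_smul, smul_eq_C_mul]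
  constructor
  · have h1 : (sub (sfam σ T e a) ^ p ^ n) X = X := by
      rw [hL, hR0.1, AlgHom.one_apply, sum_eq_zero, add_zero]
      intro t ht
      obtain ⟨ht1, ht2⟩ := mem_filter.1 ht
      obtain ⟨h3, h4⟩ := he t ht1 ht2
      rw [eps_mul_eq (π : A →+* k) hπ (hε t ht) (g' := 0), mul_zero]
      have h5 := hL2 (p ^ n) (cst A (e t))
      obtain ⟨c, hc⟩ : ∃ c, p ^ n - 1 = c + (t.1 - 1 + 1) := ⟨p ^ n - 1 - t.1, by omega⟩
      rw [hcst, S.pow, AlgHom.one_apply, ← (dl_pow p n S.pow _).1, hc, pow_add,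
        Module.End.mul_apply, h4.ker, map_zero] at h5
      rw [map_zero]
      exact (mul_eq_zero.1 h5).resolve_right hd
    refine en_ext h1 ?_
    rw [h1, constantCoeff_X]
    exact zero_mem _
  · have hζ : ζ ≠ 0 := S.prim.ne_zero S.mpos.ne'
    have hd1 : C (ζ ^ p ^ n) * (σ ^ α) (d⁄dX k (xb p n σ)) =
        C ζ * tau ζ (σ (d⁄dX k (xb p n σ))) := by
      have h3 := der_tau ζ (xb p n σ)
      have h4 : tau ζ (xb p n σ) = C (ζ ^ p ^ n) * xb p n σ := tau_nrm ⟨S.pow, S.rel⟩ (S.cop n)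
      rw [h4, ← smul_eq_C_mul, Derivation.map_smul, smul_eq_C_mul] at h3
      have h5 := congrArg (σ ^ α) h3
      rw [map_mul, map_mul, Base_en_C, Base_en_C, ← AlgHom.mul_apply, ← S.rel,
        AlgHom.mul_apply] at h5
      exact h5
    have hd2 : tau ζ (σ (d⁄dX k (xb p n σ))) ≠ 0 := by
      intro h3
      rw [h3, mul_zero] at hd1
      rcases mul_eq_zero.1 hd1 with h4 | h4
      · exact pow_ne_zero _ hζ (C_injective (by rw [h4, map_zero]))
      · have h5 : Injective (σ ^ α) := en_inj hq (by rw [← pow_mul, mul_comm, pow_mul, S.pow, one_pow])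
        exact hd (h5 (by rw [h4, map_zero]))
    refine en_ext ?_ ?_
    · have h3 := congrArg (fun φ : En A => φ X) hR0.2
      simp only [AlgHom.mul_apply] at h3
      rw [sub_X hs0, tau_X, map_mul, Base_en_C] at h3
      rw [AlgHom.mul_apply, AlgHom.mul_apply, sub_X hs, tau_X, map_mul, Base_en_C, hL, mul_add,
        ← h3, sfam, map_add, map_sum, mul_sum]
      refine congrArg _ (sum_congr rfl fun t ht => ?_)
      obtain ⟨ht1, ht2⟩ := mem_filter.1 ht
      obtain ⟨-, h4⟩ := he t ht1 ht2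
      rw [map_mul, Base_en_C, mul_left_comm]
      refine eps_mul_eq (π : A →+* k) hπ (hε t ht) ?_
      have h5 := h4.eqv
      have h6 := hL2 α (cst A (e t))
      rw [hcst] at h6
      rw [map_mul, ← h6, mul_left_comm, hd1, ← mul_assoc] at h5
      rw [map_tau, map_mul, map_C, hcst, RingHom.coe_coe, AlgHom.commutes, Algebra.algebraMap_self,
        RingHom.id_apply, mul_right_cancel₀ hd2 h5, mul_comm]
    · rw [AlgHom.mul_apply, sub_X hs]
      refine en_mem _ ?_ hs
      rw [tau_X, map_mul, constantCoeff_X, mul_zero]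
      exact zero_mem _

end Pool.Agent.MP_deef5c_ag.O
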