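import Pool.Agent.MP_deef5c_ag.O.Desc

/-! Equivariant tangent vectors. -/

open PowerSeries IsLocalRing Finset Function
open scoped Polynomial

namespace Pool.Agent.MP_deef5c_ag.O

universe u

theorem Tanv_geom {R : Type*} [Semiring R] (s : R) (a b : ℕ) :
    ∑ l ∈ range (a * b), s ^ l = (∑ l ∈ range b, (s ^ a) ^ l) * ∑ l ∈ range a, s ^ l := by
  induction b with
  | zero => simp
  | succ b ih =>
    rw [Nat.mul_succ, sum_range_add, ih, sum_range_succ, add_mul, ← pow_mul, mul_sum (range a) _ (s ^ _)]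
    simp only [pow_add]

theorem Tanv_pow {R K : Type*} [CommRing K] [Ring R] [Algebra K R] {s u : R} {α : ℕ}
    (h : u * s ^ α = s * u) (ξ : K) (b : ℕ) :
    (ξ • (u * ∑ l ∈ range α, s ^ l)) ^ b = ξ ^ b • (u ^ b * ∑ l ∈ range (α ^ b), s ^ l) := by
  have hs : SemiconjBy u (s ^ α) s := h
  have h1 : ∀ c : ℕ, (∑ l ∈ range c, s ^ l) * u = u * ∑ l ∈ range c, (s ^ α) ^ l := by
    intro c
    rw [sum_mul, mul_sum]
    exact sum_congr rfl fun l _ => (hs.pow_right l).eq.symm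
  induction b with
  | zero => simp
  | succ b ih =>
    rw [pow_succ, ih, smul_mul_smul_comm, ← pow_succ, pow_succ' α, Tanv_geom, pow_succ u,
      mul_assoc, ← mul_assoc _ u, h1]
    simp only [mul_assoc]

theorem Tanv_avg {K V : Type*} [Field K] [AddCommGroup V] [Module K V] {s t u : Module.End K V}
    {α m q r i : ℕ} (htu : t * u = 1) (h : u * s ^ α = s * u) (hum : u ^ m = 1) {ξ : K}
    (hξ : ξ ^ m = 1) (hm : (m : K) ≠ 0) (hα : α ^ m = q * r + 1) (N : Submodule K V)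
    (hNs : ∀ a ∈ N, s a ∈ N) (hNu : ∀ a ∈ N, u a ∈ N) {y : V} (hy : s y = y)
    (hyu : (ξ * (α : K) ^ (i + 1)) • u y = y) {a₀ : V} (ha : a₀ ∈ N)
    (hT : (∑ l ∈ range q, s ^ l) a₀ = 0) (h1 : ((s - 1) ^ i) a₀ = y) :
    ∃ a ∈ N, ((s - 1) ^ i) a = y ∧ t a = ξ • (∑ l ∈ range α, s ^ l) a := by
  set T : Module.End K V := ∑ l ∈ range α, s ^ l with hTd
  set μ : Module.End K V := ξ • (u * T) with hμ
  have hs : SemiconjBy u (s ^ α) s := h
  have hNp : ∀ l : ℕ, ∀ a ∈ N, (s ^ l) a ∈ N := by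
    intro l
    induction l with
    | zero => exact fun a ha => ha
    | succ l ih => exact fun a ha => by rw [pow_succ', Module.End.mul_apply]; exact hNs _ (ih a ha)
  have hNμ : ∀ a ∈ N, μ a ∈ N := by
    intro a ha
    rw [hμ, LinearMap.smul_apply, Module.End.mul_apply, hTd, LinearMap.sum_apply]
    exact N.smul_mem _ (hNu _ (N.sum_mem fun l _ => hNp l a ha))
  have hyp : ∀ l : ℕ, (s ^ l) y = y := by
    intro l
    induction l with
    | zero => rfl
    | succ l ih => rw [pow_succ', Module.End.mul_apply, ih, hy]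
  have hTy : T y = (α : K) • y := by
    rw [hTd, LinearMap.sum_apply, sum_congr rfl fun l _ => hyp l, sum_const, card_range,
      Nat.cast_smul_eq_nsmul]
  have hTk : ∀ l : ℕ, (T ^ l) y = (α : K) ^ l • y := by
    intro l
    induction l with
    | zero => simp
    | succ l ih => rw [pow_succ', Module.End.mul_apply, ih, map_smul, hTy, smul_smul, pow_succ]
  have hc : Commute T (s - 1) :=
    Commute.sum_left _ _ _ fun l _ => ((Commute.refl s).sub_right (Commute.one_right s)).pow_left l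
  have hδ : (s - 1) ^ i * (u * T) = u * (T ^ (i + 1) * (s - 1) ^ i) := by
    have h2 := ((hs.sub_right (SemiconjBy.one_right u)).pow_right i).eq
    rw [← mul_assoc, ← h2, ← geom_sum_mul, ← hTd, hc.mul_pow, mul_assoc, mul_assoc,
      ← (hc.pow_right i).eq, pow_succ, mul_assoc]
  have hμy : ∀ a, ((s - 1) ^ i) a = y → ((s - 1) ^ i) (μ a) = y := by
    intro a h2
    rw [hμ, LinearMap.smul_apply, map_smul, ← Module.End.mul_apply, hδ, Module.End.mul_apply,
      Module.End.mul_apply, h2, hTk, map_smul, smul_smul, hyu]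
  have hit : ∀ b : ℕ, (μ ^ b) a₀ ∈ N ∧ ((s - 1) ^ i) ((μ ^ b) a₀) = y := by
    intro b
    induction b with
    | zero => exact ⟨ha, h1⟩
    | succ b ih =>
      rw [pow_succ', Module.End.mul_apply]
      exact ⟨hNμ _ ih.1, hμy _ ih.2⟩
  have hper : (μ ^ m) a₀ = a₀ := by
    rw [hμ, hTd, Tanv_pow h, hξ, hum, one_smul, one_mul, hα, geom_sum_succ, Tanv_geom,
      LinearMap.add_apply, Module.End.mul_apply, Module.End.mul_apply, hT, map_zero, map_zero,
      zero_add, Module.End.one_apply]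
  have hfix : μ ((∑ b ∈ range m, μ ^ b) a₀) = (∑ b ∈ range m, μ ^ b) a₀ := by
    have h2 := congrArg (fun z : Module.End K V => z a₀) (mul_geom_sum μ m)
    simp only [Module.End.mul_apply, LinearMap.sub_apply, Module.End.one_apply, hper,
      sub_self] at h2
    exact sub_eq_zero.1 h2
  refine ⟨(m : K)⁻¹ • (∑ b ∈ range m, μ ^ b) a₀, ?_, ?_, ?_⟩
  · rw [LinearMap.sum_apply]
    exact N.smul_mem _ (N.sum_mem fun b _ => (hit b).1)
  · rw [map_smul, LinearMap.sum_apply, map_sum, sum_congr rfl fun b _ => (hit b).2, sum_const,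
      card_range, ← Nat.cast_smul_eq_nsmul K, smul_smul, inv_mul_cancel₀ hm, one_smul]
  · rw [map_smul, map_smul, smul_comm ξ]
    congr 1
    generalize (∑ b ∈ range m, μ ^ b) a₀ = z at hfix
    conv_lhs => rw [← hfix]
    rw [hμ, LinearMap.smul_apply, map_smul, ← Module.End.mul_apply, ← mul_assoc, htu, one_mul]

variable {k : Type u} [Field k] {p n m α : ℕ} [Fact p.Prime] [CharP k p] {ζ : k} {σ : En k}

theorem Tanv_trc (σ : En k) (a : ℕ) (f : k⟦X⟧) :
    (∑ l ∈ range a, (σ.toLinearMap : Module.End k k⟦X⟧) ^ l) f = trc σ a f := by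
  rw [LinearMap.sum_apply, trc]
  exact sum_congr rfl fun l _ => SpA_lin σ l f

theorem Tanv_dl_mul {y : k⟦X⟧} (hy : σ y = y) (l : ℕ) (a : k⟦X⟧) :
    (dl σ ^ l) (y * a) = y * (dl σ ^ l) a := by
  induction l with
  | zero => rfl
  | succ l ih =>
    rw [pow_succ', Module.End.mul_apply, Module.End.mul_apply, ih]
    change σ (y * (dl σ ^ l) a) - y * (dl σ ^ l) a = y * (σ ((dl σ ^ l) a) - (dl σ ^ l) a)
    rw [map_mul, hy, mul_sub]

/-- Start from `a₀ = x^(j - c (i+1)) a` with `a` from `SL.ex`.  Let `μ a = ξ τ⁻¹ (trc σ α a)` with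
`τ⁻¹ = tau ζ⁻¹`.  It preserves `M = (d x)` and the kernel of `dl^(i+1)`,
`μ^b a = ξ^b τ^(-b) (trc σ (α^b) a)`, so `μ^m a = a` when `trc σ q a = 0` (`Sp.apow`, `dl_pow`), and
`dl^i (μ a) = ξ α^(i+1) τ⁻¹ (dl^i a)`, which fixes `x^j`.  Average `a₀` over `μ^b`, `b < m`, and divide
by `σ (d x)`, an associate of `d x`. -/
theorem tanv (S : Sp p n m α ζ σ) {c : ℕ → ℕ} (hc : SL p n σ c) (i j : ℕ) (hi : i + 1 < p ^ n)
    (hj : c (i + 1) ≤ j) (hξ : (ζ ^ p ^ n) ^ j = ζ ^ p ^ n * (α : k) ^ (i + 1)) :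
    ∃ e, TV p n α ζ σ i j e := by
  have hq : 0 < p ^ n := by omega
  have hζ : ζ ≠ 0 := S.prim.ne_zero S.mpos.ne'
  have hξ0 : ζ ^ p ^ n ≠ 0 := pow_ne_zero _ hζ
  have htu : tau ζ * tau ζ⁻¹ = 1 := by rw [tau_mul, mul_inv_cancel₀ hζ, tau_one]
  have hut : tau ζ⁻¹ * tau ζ = 1 := by rw [tau_mul, inv_mul_cancel₀ hζ, tau_one]
  have hsu : tau ζ⁻¹ * σ ^ α = σ * tau ζ⁻¹ := by
    calc tau ζ⁻¹ * σ ^ α = tau ζ⁻¹ * (σ ^ α * tau ζ) * tau ζ⁻¹ := by
          rw [mul_assoc, mul_assoc, htu, mul_one]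
      _ = σ * tau ζ⁻¹ := by rw [← S.rel, ← mul_assoc, hut, one_mul]
  have hum : tau ζ⁻¹ ^ m = 1 := by rw [tau_pow, inv_pow, S.prim.pow_eq_one, inv_one, tau_one]
  set x := xb p n σ with hx
  have hσx : σ x = x := nrm_inv S.pow X
  have htx : tau ζ x = C (ζ ^ p ^ n) * x := tau_nrm ⟨S.pow, S.rel⟩ (S.cop n)
  have hux : tau ζ⁻¹ x = C (ζ ^ p ^ n)⁻¹ * x := by
    have h1 : tau ζ⁻¹ (tau ζ x) = x := by
      change (tau ζ⁻¹ * tau ζ) x = x
      rw [hut]
      rfl
    rw [htx, map_mul, Base_en_C] at h1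
    conv_rhs => rw [← h1]
    rw [← mul_assoc, ← map_mul, inv_mul_cancel₀ hξ0, map_one, one_mul]
  have ho := order_one hq S.pow
  have h0 : constantCoeff (σ X) = 0 := by
    rw [← coeff_zero_eq_constantCoeff_apply]
    exact coeff_of_lt_order 0 (by rw [ho]; exact zero_lt_one)
  have hder : d⁄dX k x = σ (d⁄dX k x) * d⁄dX k (σ X) := by
    have h1 := der_en σ (by rw [h0]; exact zero_mem _) x
    rwa [hσx] at h1
  have hun : IsUnit (d⁄dX k (σ X)) := by
    rw [isUnit_iff_constantCoeff, ← coeff_zero_eq_constantCoeff_apply, coeff_derivative]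
    have h1 : coeff 1 (σ X) ≠ 0 := by
      have h2 := coeff_order (φ := σ X) (by rintro h; rw [h, order_zero] at ho; simp at ho)
      rwa [ho] at h2
    simpa using h1
  have hd1 : d⁄dX k x ∣ σ (d⁄dX k x) := by
    conv_lhs => rw [hder]
    exact (IsUnit.mul_right_dvd hun).2 dvd_rfl
  have hd2 : d⁄dX k x ∣ tau ζ⁻¹ (d⁄dX k x) := by
    have h1 := der_tau ζ⁻¹ x
    rw [hux, ← smul_eq_C_mul, Derivation.map_smul, smul_eq_C_mul] at h1
    refine ⟨C ζ * C (ζ ^ p ^ n)⁻¹, ?_⟩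
    calc tau ζ⁻¹ (d⁄dX k x) = C ζ * (C ζ⁻¹ * tau ζ⁻¹ (d⁄dX k x)) := by
          rw [← mul_assoc, ← map_mul, mul_inv_cancel₀ hζ, map_one, one_mul]
      _ = _ := by rw [← h1]; ring
  obtain ⟨a₁, ha1, ha2, ha3⟩ := hc.ex i (by omega)
  have hα0 : 1 ≤ α ^ m := by
    refine Nat.one_le_pow _ _ (Nat.pos_of_ne_zero ?_)
    rintro rfl
    have h1 := S.alpha_pow
    rw [Nat.cast_zero, zero_pow S.mpos.ne'] at h1
    exact zero_ne_one h1
  obtain ⟨r, hr⟩ := (Nat.modEq_iff_dvd' hα0).1 S.apow.symm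
  have hpw : ∀ l : ℕ, σ (x ^ l) = x ^ l := fun l => by rw [map_pow, hσx]
  obtain ⟨a, haN, ha4, ha5⟩ := Tanv_avg (K := k) (V := k⟦X⟧) (s := σ.toLinearMap)
    (t := (tau ζ).toLinearMap) (u := (tau ζ⁻¹).toLinearMap) (α := α) (m := m) (q := p ^ n) (r := r)
    (i := i) (LinearMap.ext fun f => DFunLike.congr_fun htu f)
    (LinearMap.ext fun f => by
      have h1 := DFunLike.congr_fun hsu f
      rw [Module.End.mul_apply, SpA_lin]
      exact h1)
    (LinearMap.ext fun f => by rw [SpA_lin, hum]; rfl)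
    (S.prim_pow n).pow_eq_one S.m_ne (by omega)
    ((Ideal.span {d⁄dX k x}).restrictScalars k)
    (fun a ha => Ideal.mem_span_singleton.2
      (hd1.trans (map_dvd σ (Ideal.mem_span_singleton.1 ha))))
    (fun a ha => Ideal.mem_span_singleton.2
      (hd2.trans (map_dvd (tau ζ⁻¹) (Ideal.mem_span_singleton.1 ha))))
    (y := x ^ j) (hpw j)
    (by
      change _ • tau ζ⁻¹ (x ^ j) = _
      rw [map_pow, hux, mul_pow, ← map_pow, ← smul_eq_C_mul, smul_smul, ← hξ, inv_pow,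
        mul_inv_cancel₀ (pow_ne_zero _ hξ0), one_smul])
    (a₀ := x ^ (j - c (i + 1)) * a₁) (Ideal.mem_span_singleton.2 (ha1.mul_left _))
    (by
      obtain ⟨l, hl⟩ : ∃ l, p ^ n - 1 = l + (i + 1) := ⟨p ^ n - 1 - (i + 1), by omega⟩
      rw [Tanv_trc, ← (dl_pow p n S.pow _).1, Tanv_dl_mul (hpw _), hl, pow_add,
        Module.End.mul_apply, ha2, map_zero, mul_zero])
    (by
      change (dl σ ^ i) _ = _
      rw [Tanv_dl_mul (hpw _), ha3, ← pow_add, Nat.sub_add_cancel hj])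
  have hdv : σ (d⁄dX k x) ∣ a := (Dvd.intro _ hder.symm).trans (Ideal.mem_span_singleton.1 haN)
  obtain ⟨e, he⟩ := hdv
  rw [mul_comm] at he
  have ha6 : (dl σ ^ i) a = x ^ j := ha4
  refine ⟨e, ?_, ?_, ?_⟩
  · rw [← hx, ← he, pow_succ', Module.End.mul_apply, ha6]
    change σ (x ^ j) - x ^ j = 0
    rw [hpw, sub_self]
  · rw [← hx, ← he, ha6]
  · rw [← hx, ← he, ← smul_eq_C_mul, ← Tanv_trc]
    exact ha5

end Pool.Agent.MP_deef5c_ag.O
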