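import Pool.Agent.MP_deef5c_ag.O.Eff
import Pool.Agent.MP_deef5c_ag.O.Low
import Pool.Agent.MP_deef5c_ag.O.TanG
import Pool.Agent.MP_deef5c_ag.O.Tanv
import Pool.Agent.MP_deef5c_ag.O.Sfl1
import Pool.Agent.MP_deef5c_ag.O.Sfl2
import Pool.Agent.MP_deef5c_ag.O.Cnt2
import Pool.Agent.MP_deef5c_ag.O.ExS
import Pool.Agent.MP_deef5c_ag.O.FinQ
import Pool.Agent.MP_deef5c_ag.O.Dvr

/-! Lifting the two generators to characteristic zero. -/

open PowerSeries IsLocalRing Finset Function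
open scoped Polynomial

namespace Pool.Agent.MP_deef5c_ag.O

universe u

variable {k : Type u} [Field k] {p n m α : ℕ} [Fact p.Prime] [CharP k p] {ζ : k} {σ : En k}

namespace Main

variable (p) in
/-- coefficientwise Teichmuller lift -/
noncomputable def tl {S : Type u} [CommRing S] [Algebra (WittVector p k) S] (g : k⟦X⟧) : S⟦X⟧ :=
  PowerSeries.mk fun i => algebraMap (WittVector p k) S (WittVector.teichmuller p (coeff i g))

omit [CharP k p] in
theorem map_tl {S A : Type u} [CommRing S] [Algebra (WittVector p k) S] [CommRing A] [Algebra k A]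
    (ψ : S →+* A) (hψ : ∀ w : WittVector p k,
      algebraMap k A (w.coeff 0) = ψ (algebraMap (WittVector p k) S w)) (g : k⟦X⟧) :
    PowerSeries.map ψ (tl p g) = cst A g := by
  ext i
  simp [tl, ← hψ]

omit [CharP k p] in
theorem map_fam {S A : Type u} [CommRing S] [Algebra (WittVector p k) S] [CommRing A] [Algebra k A]
    (ψ : S →+* A) (hψ : ∀ w : WittVector p k,
      algebraMap k A (w.coeff 0) = ψ (algebraMap (WittVector p k) S w))
    (T : Finset (ℕ × ℕ)) (e : ℕ × ℕ → k⟦X⟧) (a : ℕ × ℕ → S) :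
    PowerSeries.map ψ (tl p (σ X) + ∑ t ∈ T.filter (fun t => t.1 ≠ 0), C (a t) * tl p (e t)) =
      sfam σ T e (fun t => ψ (a t)) := by
  simp only [sfam, map_add, map_sum, map_mul, map_tl ψ hψ, map_C]

theorem map_max {S A : Type u} [CommRing S] [IsLocalRing S] [CommRing A] [IsLocalRing A]
    (ψ : S →+* A) (hψ : Surjective ψ) : maximalIdeal A = (maximalIdeal S).map ψ := by
  have := IsLocalHom.of_surjective ψ hψ
  rw [← maximalIdeal_comap ψ, Ideal.map_comap_of_surjective ψ hψ]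

/-- quotients killed by `p` are `k`-algebras -/
theorem kquot [PerfectRing k p] {S : Type u} [CommRing S] [IsLocalRing S]
    [Algebra (WittVector p k) S] (π : S →+* k)
    (hπ : ∀ w, π (algebraMap (WittVector p k) S w) = w.coeff 0) (J : Ideal S) (hJ : J ≠ ⊤)
    (hp : (p : S) ∈ J) :
    ∃ (_ : Algebra k (S ⧸ J)) (π' : (S ⧸ J) →ₐ[k] k), (∀ a, π' (Ideal.Quotient.mk J a) = π a) ∧
      ∀ w : WittVector p k, algebraMap k (S ⧸ J) (w.coeff 0) =
        Ideal.Quotient.mk J (algebraMap (WittVector p k) S w) := by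
  have hs : Surjective π := fun c => ⟨_, (hπ (WittVector.teichmuller p c)).trans rfl⟩
  obtain ⟨ι, hι⟩ := exists_kalg p ((Ideal.Quotient.mk J).comp (algebraMap (WittVector p k) S))
    (by rw [← map_natCast (Ideal.Quotient.mk J)]; exact Ideal.Quotient.eq_zero_iff_mem.2 hp)
  obtain ⟨π', -, hπ'⟩ := exists_pi_quot π hs J hJ
  let := ι.toAlgebra
  refine ⟨inferInstance, { π' with commutes' := fun c => ?_ }, hπ', hι⟩
  have := hι (WittVector.teichmuller p c)
  rw [WittVector.teichmuller_coeff_zero] at this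
  change π' (ι c) = c
  rw [this, RingHom.comp_apply, hπ', hπ, WittVector.teichmuller_coeff_zero]

end Main

open Main in
/-- a domain of characteristic zero over which the relations have a solution -/
theorem exists_dom [IsAlgClosed k] (S : Sp p n m α ζ σ) (hn : 0 < n) :
    ∃ (R : Type u) (_ : CommRing R) (_ : IsDomain R) (_ : IsLocalRing R) (_ : CL R)
      (_ : Algebra (WittVector p k) R) (π : R →+* k) (z : R) (s : R⟦X⟧),
      (∀ w, π (algebraMap (WittVector p k) R w) = w.coeff 0) ∧ (p : R) ≠ 0 ∧ z ^ m = 1 ∧ π z = ζ ∧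
      PowerSeries.map π s = σ X ∧ Rel (p ^ n) α z (sub s) := by
  classical
  obtain ⟨w, hw⟩ := exists_isW S
  obtain ⟨c, hc, hwc⟩ := sfl1 S hn hw
  obtain ⟨β, l, -, hβ, -, -, hζβ, hξw⟩ := S.isW_spec hn hw
  obtain ⟨v, hv1, hv2⟩ := sfl2 S hc hβ
  have hcnt := cnt2 p n S.mpos S.prim S.hyp c v β w hc.zero hc.mono hwc hζβ hξw hv1 hv2
  have hd : d⁄dX k (xb p n σ) ≠ 0 := fun h => by simp [h] at hβ
  set T := TT (p ^ n) c (ζ ^ p ^ n) (α : k) with hT
  have hTm : ∀ t ∈ T, t.1 < p ^ n ∧ c t.1 ≤ t.2 ∧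
      (ζ ^ p ^ n) ^ t.2 = ζ ^ p ^ n * (α : k) ^ t.1 := fun t ht => by
    simp only [hT, TT, mem_filter, mem_product, mem_range] at ht
    exact ⟨ht.1.1, ht.2.1, ht.2.2.2⟩
  have he0 : ∀ t : ℕ × ℕ, ∃ e, t ∈ T → t.1 ≠ 0 → TV p n α ζ σ (t.1 - 1) t.2 e := fun t => by
    by_cases h : t ∈ T ∧ t.1 ≠ 0
    · obtain ⟨h1, h2, h3⟩ := hTm t h.1
      have e1 : t.1 - 1 + 1 = t.1 := by omega
      obtain ⟨e, he⟩ := tanv S hc (t.1 - 1) t.2 (by omega) (by rwa [e1]) (by rwa [e1])
      exact ⟨e, fun _ _ => he⟩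
    · exact ⟨0, fun h1 h2 => absurd ⟨h1, h2⟩ h⟩
  choose e he using he0
  obtain ⟨hW, hWm, hWd⟩ := witt_cl p k
  obtain ⟨S0, _, _, _, _, r, x, hr, hm, hdim⟩ := exists_S (WittVector p k) T.card
  let π : S0 →+* k := (WittVector.constantCoeff : WittVector p k →+* k).comp (r : S0 →+* _)
  have hπ : ∀ w, π (algebraMap (WittVector p k) S0 w) = w.coeff 0 := fun w => by
    simp [π]
  have hs : Surjective π := fun c => ⟨_, (hπ (WittVector.teichmuller p c)).trans rfl⟩
  let a : ℕ × ℕ → S0 := fun t => if h : t ∈ T then x (T.equivFin ⟨t, h⟩) else 0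
  have ha : ∀ t, π (a t) = 0 := fun t => by
    by_cases h : t ∈ T <;> simp [a, h, π, hr]
  have hax : a '' (T : Set (ℕ × ℕ)) = Set.range x := by
    ext y
    constructor
    · rintro ⟨t, ht, rfl⟩
      exact ⟨T.equivFin ⟨t, ht⟩, by simp [a, mem_coe.1 ht]⟩
    · rintro ⟨i, rfl⟩
      exact ⟨(T.equivFin.symm i).1, (T.equivFin.symm i).2, by simp [a]⟩
  let z : S0 := algebraMap (WittVector p k) S0 (WittVector.teichmuller p ζ)
  have hz : z ^ m = 1 := by
    rw [← map_pow, ← map_pow, S.prim.pow_eq_one, map_one, map_one]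
  have hπz : π z = ζ := hπ _
  let s₂ : S0⟦X⟧ := tl p (σ X) + ∑ t ∈ T.filter (fun t => t.1 ≠ 0), C (a t) * tl p (e t)
  have hs₂ : PowerSeries.map π s₂ = σ X := by
    rw [map_fam π (fun w => (hπ w).symm)]
    ext i
    simp [sfam, ha]
  have hσ0 : constantCoeff (σ X) = 0 := by
    have := order_one (pow_pos (Fact.out : p.Prime).pos n) S.pow
    exact coeff_zero_eq_constantCoeff_apply (σ X) ▸ coeff_of_lt_order 0 (by rw [this]; norm_num)
  have hcm : ∀ s : S0⟦X⟧, PowerSeries.map π s = σ X → constantCoeff s ∈ maximalIdeal S0 :=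
    fun s h => (pi_eq_zero_iff π hs _).1 (by
      rw [← hσ0, ← h, ← coeff_zero_eq_constantCoeff_apply, ← coeff_zero_eq_constantCoeff_apply,
        coeff_map])
  have hpm : (p : S0) ∈ maximalIdeal S0 := (pi_eq_zero_iff π hs _).1 (by simp)
  let J₂ : Ideal S0 := maximalIdeal S0 * maximalIdeal S0 ⊔ Ideal.span {(p : S0)}
  have hJ₂m : J₂ ≤ maximalIdeal S0 :=
    sup_le Ideal.mul_le_left ((Ideal.span_singleton_le_iff_mem _).2 hpm)
  have hJ₂ : J₂ ≠ ⊤ := fun h => (maximalIdeal.isMaximal S0).ne_top (top_le_iff.1 (h ▸ hJ₂m))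
  have hg : Good (p ^ n) α z J₂ s₂ := by
    have := local_quot J₂ hJ₂
    have := CL.of_surj (Ideal.Quotient.mk J₂) Ideal.Quotient.mk_surjective
    obtain ⟨_, π', h1, h2⟩ := kquot π hπ J₂ hJ₂
      (Ideal.mem_sup_right (Ideal.mem_span_singleton_self _))
    have h3 := (good_iff (Ideal.Quotient.mk J₂) Ideal.Quotient.mk_surjective (p ^ n) α z s₂
      (hcm _ hs₂)).2 (by
        rw [map_fam _ h2, ← h2, WittVector.teichmuller_coeff_zero]
        refine tan_good S hd π' ?_ T e _ (fun t _ => by rw [h1, ha])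
          fun t ht h0 => ⟨(hTm t ht).1, he t ht h0⟩
        rw [map_max _ (Ideal.Quotient.mk_surjective (I := J₂)), ← Ideal.map_mul,
          Ideal.map_eq_bot_iff_le_ker, Ideal.mk_ker]
        exact le_sup_left)
    rwa [Ideal.mk_ker] at h3
  obtain ⟨T', s, hcard, hle, hss, hgs⟩ := low S hn hw hc π hs hz hπz J₂ hJ₂ s₂ hs₂ hg
  have hJ : Ideal.span (T' : Set S0) ≠ ⊤ := fun h => hJ₂ (top_le_iff.1 (h ▸ hle))
  obtain ⟨Q, hQ, hJQ, hdQ⟩ := exists_prime_dim _ hJ
  have hd1 := ringKrullDim_le_ringKrullDim_quotient_add_card T' (fun y hy => by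
    rw [ringJacobson_eq_maximalIdeal]
    exact hJ₂m (hle (Ideal.subset_span hy)))
  have hs1 : PowerSeries.map π s = σ X := by
    rw [← hs₂, ← sub_eq_zero, ← map_sub]
    ext i
    rw [coeff_map, map_zero]
    exact (pi_eq_zero_iff π hs _).2 (hJ₂m (hss i))
  have := local_quot Q hQ.ne_top
  have := CL.of_surj (Ideal.Quotient.mk Q) Ideal.Quotient.mk_surjective
  have hrel : Rel (p ^ n) α (Ideal.Quotient.mk Q z)
      (sub (PowerSeries.map (Ideal.Quotient.mk Q) s)) :=
    (good_iff (Ideal.Quotient.mk Q) Ideal.Quotient.mk_surjective (p ^ n) α z s (hcm _ hs1)).1 (by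
      rw [Ideal.mk_ker]
      exact ⟨fun i => hJQ (hgs.1 i), fun i => hJQ (hgs.2 i)⟩)
  have hp : (p : S0) ∉ Q := fun hp => by
    obtain ⟨_, π', h1, h2⟩ := kquot π hπ Q hQ.ne_top hp
    have hp0 : Ideal.Quotient.mk Q (p : S0) = 0 := Ideal.Quotient.eq_zero_iff_mem.2 hp
    have h4 := eff S hw hc e he π' (fun t => Ideal.Quotient.mk Q (a t)) (by
        rw [map_max _ (Ideal.Quotient.mk_surjective (I := Q)), hm, hWm, Ideal.map_sup,
          Ideal.map_span, Ideal.map_span, Ideal.map_span, ← hax, Set.image_singleton,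
          Set.image_singleton, map_natCast, hp0, Set.image_image]
        simp [hT])
      (PowerSeries.map (Ideal.Quotient.mk Q) s) (fun i => by
        rw [← map_fam _ h2, ← map_sub, coeff_map,
          map_max _ (Ideal.Quotient.mk_surjective (I := Q)), ← Ideal.map_mul]
        obtain ⟨y, hy, y', hy', e1⟩ := Submodule.mem_sup.1 (hss i)
        obtain ⟨b, rfl⟩ := Ideal.mem_span_singleton'.1 hy'
        rw [← e1, map_add, map_mul, hp0, mul_zero, add_zero]
        exact Ideal.mem_map_of_mem _ hy)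
      (by rwa [← WittVector.teichmuller_coeff_zero p ζ, h2])
    rw [hWd] at hdim
    have h5 : (1 : WithBot ℕ∞) + (T.card : ℕ) ≤ ((w / m : ℕ) : WithBot ℕ∞) + (T'.card : ℕ) :=
      hdim.trans (hd1.trans (add_le_add_left (hdQ.trans h4) _))
    have h6 : 1 + T.card ≤ w / m + T'.card := by exact_mod_cast h5
    omega
  obtain ⟨π', -, h1⟩ := exists_pi_quot π hs Q hQ.ne_top
  refine ⟨S0 ⧸ Q, _, inferInstance, inferInstance, inferInstance, inferInstance, π',
    Ideal.Quotient.mk Q z, PowerSeries.map (Ideal.Quotient.mk Q) s, fun w => ?_, fun h => hp ?_,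
    by rw [← map_pow, hz, map_one], by rw [h1, hπz], ?_, hrel⟩
  · rw [← hπ, ← h1]; rfl
  · rwa [← Ideal.Quotient.eq_zero_iff_mem, map_natCast]
  · rw [← hs1]
    ext i
    simp [h1]

theorem main_sp [IsAlgClosed k] (S : Sp p n m α ζ σ) :
    ∃ (O : Type u) (_ : CommRing O) (_ : IsDomain O) (_ : IsDiscreteValuationRing O)
      (_ : IsAdicComplete (maximalIdeal O) O) (_ : CharZero O) (π : O →+* k) (z : O) (σO : En O),
      Surjective π ∧ z ^ m = 1 ∧ π z = ζ ∧ PowerSeries.map π (σO X) = σ X ∧ Rel (p ^ n) α z σO := by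
  have hσ0 : constantCoeff (σ X) = 0 := by
    have := order_one (pow_pos (Fact.out : p.Prime).pos n) S.pow
    exact coeff_zero_eq_constantCoeff_apply (σ X) ▸ coeff_of_lt_order 0 (by rw [this]; norm_num)
  obtain ⟨R, _, _, _, _, _, π, z, σR, hπ, hp, hz, hπz, hs, hr⟩ :
      ∃ (R : Type u) (_ : CommRing R) (_ : IsDomain R) (_ : IsLocalRing R) (_ : CL R)
      (_ : Algebra (WittVector p k) R) (π : R →+* k) (z : R) (σR : En R),
      (∀ w, π (algebraMap (WittVector p k) R w) = w.coeff 0) ∧ (p : R) ≠ 0 ∧ z ^ m = 1 ∧ π z = ζ ∧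
      PowerSeries.map π (σR X) = σ X ∧ Rel (p ^ n) α z σR := by
    rcases Nat.eq_zero_or_pos n with rfl | hn
    · have h1 : σ = 1 := by simpa using S.pow
      refine ⟨WittVector p k, _, inferInstance, inferInstance, (witt_cl p k).1, inferInstance,
        WittVector.constantCoeff, WittVector.teichmuller p ζ, 1, fun w => rfl,
        WittVector.p_nonzero p k, by rw [← map_pow, S.prim.pow_eq_one, map_one], rfl,
        by simp [h1], by simp [Rel]⟩
    · obtain ⟨R, _, _, _, _, _, π, z, s, hπ, hp, hz, hπz, hs, hr⟩ := exists_dom S hn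
      have hsj : Surjective π := fun c => ⟨_, (hπ (WittVector.teichmuller p c)).trans rfl⟩
      refine ⟨R, _, ‹_›, ‹_›, ‹_›, ‹_›, π, z, sub s, hπ, hp, hz, hπz, ?_, hr⟩
      rw [sub_X ((pi_eq_zero_iff π hsj _).1 (by
        rw [← hσ0, ← hs, ← coeff_zero_eq_constantCoeff_apply, ← coeff_zero_eq_constantCoeff_apply,
          coeff_map])), hs]
  have hsj : Surjective π := fun c => ⟨_, (hπ (WittVector.teichmuller p c)).trans rfl⟩
  obtain ⟨Q, hQ, hpQ, hfin⟩ := exists_fin_quot p k R π hπ hp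
  have := local_quot Q hQ.ne_top
  obtain ⟨π', -, h1⟩ := exists_pi_quot π hsj Q hQ.ne_top
  obtain ⟨O, _, _, _, _, _, πO, φ, hO, h2⟩ := exists_dvr p k (R ⧸ Q) π'
    (fun w => by rw [← hπ, ← h1]; rfl)
    (fun h => hpQ (by rwa [← Ideal.Quotient.eq_zero_iff_mem, map_natCast]))
  have : CL O := ⟨inferInstance, inferInstance⟩
  let ψ : R →+* O := φ.comp (Ideal.Quotient.mk Q)
  have hψ : ∀ a, πO (ψ a) = π a := fun a => by rw [← h1, ← h2]; rfl
  have h3 : PowerSeries.map πO (PowerSeries.map ψ (σR X)) = σ X := by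
    rw [← hs]
    ext i
    simp [hψ]
  have hm : constantCoeff (PowerSeries.map ψ (σR X)) ∈ maximalIdeal O :=
    (pi_eq_zero_iff πO hO _).1 (by
      rw [← hσ0, ← h3, ← coeff_zero_eq_constantCoeff_apply, ← coeff_zero_eq_constantCoeff_apply,
        coeff_map πO])
  exact ⟨O, _, ‹_›, ‹_›, ‹_›, ‹_›, πO, ψ z, _, hO, by rw [← map_pow, hz, map_one],
    by rw [hψ, hπz], by rw [sub_X hm, h3], hr.map ψ hm⟩

end Pool.Agent.MP_deef5c_ag.O
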