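import Pool.Agent.MP_deef5c_ag.O.Defs

/-! Quotients of complete Noetherian local rings. -/

open PowerSeries IsLocalRing Finset Function
open scoped Polynomial

namespace Pool.Agent.MP_deef5c_ag.O

universe u

/-- Hausdorff by Krull's intersection theorem, Cauchy sequences lift. -/
theorem CL.of_surj {S S' : Type u} [CommRing S] [IsLocalRing S] [CL S] [CommRing S']
    [IsLocalRing S'] (φ : S →+* S') (hφ : Surjective φ) : CL S' := by
  have hN : IsNoetherianRing S' := isNoetherianRing_of_surjective S S' φ hφ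
  let _ : Algebra S S' := φ.toAlgebra
  have hpre : IsPrecomplete (maximalIdeal S) S' := by
    rw [← AdicCompletion.of_surjective_iff]
    intro y
    obtain ⟨x, rfl⟩ := AdicCompletion.map_surjective (maximalIdeal S)
      (f := Algebra.linearMap S S') hφ y
    obtain ⟨a, rfl⟩ := AdicCompletion.of_surjective (maximalIdeal S) S x
    exact ⟨φ a, (AdicCompletion.map_of (maximalIdeal S) (Algebra.linearMap S S') a).symm⟩
  have hm : (maximalIdeal S).map (algebraMap S S') = maximalIdeal S' :=
    map_maximalIdeal_of_surjective φ hφ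
  have hpre' : IsPrecomplete (maximalIdeal S') S' := by
    rw [← hm, IsPrecomplete.map_algebraMap_iff]
    exact hpre
  exact ⟨hN, { toIsHausdorff := inferInstance, toIsPrecomplete := hpre' }⟩

theorem local_quot {S : Type u} [CommRing S] [IsLocalRing S] (J : Ideal S) (hJ : J ≠ ⊤) :
    IsLocalRing (S ⧸ J) := by
  have := Ideal.Quotient.nontrivial_iff.mpr hJ
  exact IsLocalRing.of_surjective' (Ideal.Quotient.mk J) Ideal.Quotient.mk_surjective

theorem Quot_ker {S k : Type u} [CommRing S] [IsLocalRing S] [Field k] (π : S →+* k)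
    (hπ : Surjective π) (J : Ideal S) (hJ : J ≠ ⊤) (a : S) (ha : a ∈ J) : π a = 0 := by
  have h1 : RingHom.ker π = maximalIdeal S :=
    eq_maximalIdeal (RingHom.ker_isMaximal_of_surjective π hπ)
  have h2 : a ∈ RingHom.ker π := h1 ▸ le_maximalIdeal hJ ha
  exact h2

/-- a residue map factors through every proper quotient -/
theorem exists_pi_quot {S k : Type u} [CommRing S] [IsLocalRing S] [Field k] (π : S →+* k)
    (hπ : Surjective π) (J : Ideal S) (hJ : J ≠ ⊤) :
    ∃ π' : S ⧸ J →+* k, Surjective π' ∧ ∀ a, π' (Ideal.Quotient.mk J a) = π a := by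
  refine ⟨Ideal.Quotient.lift J π (Quot_ker π hπ J hJ), fun y => ?_, fun a => rfl⟩
  obtain ⟨a, rfl⟩ := hπ y
  exact ⟨Ideal.Quotient.mk J a, rfl⟩

theorem exists_piAlg_quot {S k : Type u} [CommRing S] [IsLocalRing S] [Field k] [Algebra k S]
    (π : S →ₐ[k] k) (J : Ideal S) (hJ : J ≠ ⊤) :
    ∃ π' : (S ⧸ J) →ₐ[k] k, ∀ a, π' (Ideal.Quotient.mk J a) = π a := by
  have hπ : Surjective (π : S →+* k) := fun y => ⟨algebraMap k S y, π.commutes y⟩
  exact ⟨Ideal.Quotient.liftₐ J π (Quot_ker (π : S →+* k) hπ J hJ), fun a => rfl⟩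

/-- take the bottom prime of a chain of maximal length in `S ⧸ J` -/
theorem exists_prime_dim {S : Type u} [CommRing S] [IsLocalRing S] [IsNoetherianRing S]
    (J : Ideal S) (hJ : J ≠ ⊤) :
    ∃ Q : Ideal S, Q.IsPrime ∧ J ≤ Q ∧ ringKrullDim (S ⧸ J) ≤ ringKrullDim (S ⧸ Q) := by
  have := local_quot J hJ
  let l := LTSeries.longestOf (PrimeSpectrum (S ⧸ J))
  let e := J.primeSpectrumQuotientOrderIsoZeroLocus
  let l' : LTSeries (PrimeSpectrum S) :=
    l.map (fun P => (e P).1) fun _ _ h => e.strictMono h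
  have h1 : ringKrullDim (S ⧸ J) = l'.length :=
    Order.krullDim_eq_length_of_finiteDimensionalOrder
  refine ⟨l'.head.asIdeal, l'.head.isPrime, (e l.head).2, ?_⟩
  rw [h1, ringKrullDim_quotient]
  let l'' : LTSeries (PrimeSpectrum.zeroLocus (R := S) (l'.head.asIdeal : Set S)) :=
    LTSeries.mk l'.length (fun i => ⟨l' i, l'.head_le i⟩) fun _ _ h => l'.strictMono h
  exact Order.LTSeries.length_le_krullDim l''

end Pool.Agent.MP_deef5c_ag.O
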