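import Pool.Agent.MP_deef5c_ag.O.Base
import Pool.Agent.MP_deef5c_ag.O.Quot

/-! Non-zero-divisors and orders. -/

open PowerSeries IsLocalRing Finset Function
open scoped Polynomial

namespace Pool.Agent.MP_deef5c_ag.O

universe u

variable {D k : Type u} [CommRing D] [IsLocalRing D] [CL D] [Field k]

/-- a series with non-zero reduction is a non-zero-divisor modulo every ideal (pass to `D ⧸ J`, which
is trivial or Noetherian local, and use `IsWeierstrassDivisorAt.eq_zero_of_mul_eq`) -/
theorem cin_of_mul (π : D →+* k) (hπ : Surjective π) (J : Ideal D) (F g : D⟦X⟧)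
    (hF : PowerSeries.map π F ≠ 0) (h : CIn J (F * g)) : CIn J g := by
  rcases eq_or_ne J ⊤ with rfl | hJ
  · exact fun _ => Submodule.mem_top
  haveI := local_quot J hJ
  haveI : CL (D ⧸ J) := CL.of_surj (Ideal.Quotient.mk J) Ideal.Quotient.mk_surjective
  obtain ⟨π', hπ', hc⟩ := exists_pi_quot π hπ J hJ
  have e : PowerSeries.map π' (PowerSeries.map (Ideal.Quotient.mk J) F) = PowerSeries.map π F := by
    ext n
    simp only [coeff_map, hc]
  have h0 : PowerSeries.map (residue (D ⧸ J)) (PowerSeries.map (Ideal.Quotient.mk J) F) ≠ 0 := by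
    intro h0
    have h1 := order_map_residue π' hπ' (PowerSeries.map (Ideal.Quotient.mk J) F)
    rw [h0, order_zero, e, eq_comm, order_eq_top] at h1
    exact hF h1
  rw [cin_iff] at h ⊢
  rw [map_mul] at h
  refine (IsWeierstrassDivisorAt.eq_zero_of_mul_eq (IsWeierstrassDivisor.of_map_ne_zero h0)
    (r := 0) ?_ (by rw [h, Polynomial.coe_zero])).1
  rw [Polynomial.degree_zero]
  exact WithBot.bot_lt_coe _

/-- orders multiply under substitution (over a field) -/
theorem order_en (σ : En k) (d : ℕ) (hd : 0 < d) (hσ : order (σ X) = d) (f : k⟦X⟧) :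
    order (σ f) = d * order f := by
  rcases eq_or_ne f 0 with rfl | hf
  · rw [map_zero, order_zero, ENat.mul_top (by exact_mod_cast hd.ne')]
  have hu : IsUnit (divXPowOrder f) := by
    rw [isUnit_iff_constantCoeff, isUnit_iff_ne_zero]
    exact fun h => hf (constantCoeff_divXPowOrder_eq_zero_iff.1 h)
  have h0 := order_zero_of_unit (hu.map σ)
  conv_lhs => rw [← X_pow_order_mul_divXPowOrder (f := f), map_mul, map_pow, order_mul, order_pow,
    h0, hσ, add_zero]
  rw [nsmul_eq_mul, coe_toNat_order hf, mul_comm]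

end Pool.Agent.MP_deef5c_ag.O
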