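import Pool.Agent.MP_deef5c_ag.O.Quot

/-! Tangent vectors, and Witt vectors as a base ring. -/

open PowerSeries IsLocalRing Finset Function
open scoped Polynomial

namespace Pool.Agent.MP_deef5c_ag.O

universe u

/-- a non-trivial tangent vector of a local algebra which is not a field (Nakayama: `m ≠ m^2`) -/
theorem exists_eps {D k : Type u} [CommRing D] [IsLocalRing D] [IsNoetherianRing D] [Field k]
    [Algebra k D] (π : D →ₐ[k] k) (h : maximalIdeal D ≠ ⊥) :
    ∃ φ : D →ₐ[k] DualNumber k, (∀ a, (φ a).fst = π a) ∧ ∃ a, π a = 0 ∧ φ a ≠ 0 := by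
  have hs : Surjective π := fun c => ⟨algebraMap k D c, π.commutes c⟩
  have hm : ∀ a, a ∈ maximalIdeal D ↔ π a = 0 := fun a => by
    rw [← IsLocalRing.ker_eq_maximalIdeal (π : D →+* k) hs]; rfl
  have hlt : maximalIdeal D ^ 2 < maximalIdeal D :=
    (IsLocalRing.maximalIdeal_sq_lt_maximalIdeal D).2 fun hf =>
      h (IsLocalRing.isField_iff_maximalIdeal_eq.1 hf)
  obtain ⟨a, ha, ha2⟩ := SetLike.exists_of_lt hlt
  obtain ⟨f, hf, hW⟩ := Submodule.exists_le_ker_of_notMem
    (p := (maximalIdeal D ^ 2).restrictScalars k) (v := a)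
    (by rwa [Submodule.restrictScalars_mem])
  obtain ⟨g, hg⟩ : ∃ g : D →ₗ[k] k, ∀ x, g x = f x - π x * f 1 :=
    ⟨f - f 1 • π.toLinearMap, fun x => by simp [mul_comm]⟩
  have hmul : ∀ x y, g (x * y) = π x * g y + π y * g x := fun x y => by
    have hx : x - π x • (1 : D) ∈ maximalIdeal D := (hm _).2 (by simp)
    have hy : y - π y • (1 : D) ∈ maximalIdeal D := (hm _).2 (by simp)
    have h1 : f ((x - π x • (1 : D)) * (y - π y • (1 : D))) = 0 :=
      hW (show _ ∈ maximalIdeal D ^ 2 from pow_two (maximalIdeal D) ▸ Ideal.mul_mem_mul hx hy)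
    have h2 : (x - π x • (1 : D)) * (y - π y • (1 : D)) =
        x * y - π y • x - π x • y + (π x * π y) • (1 : D) := by
      simp only [Algebra.smul_def, map_mul]
      ring
    rw [h2] at h1
    simp only [map_add, map_sub, map_smul, smul_eq_mul] at h1
    rw [hg, hg, hg, map_mul π]
    linear_combination h1
  refine ⟨AlgHom.ofLinearMap ((TrivSqZeroExt.inlAlgHom k k k).toLinearMap ∘ₗ π.toLinearMap +
    TrivSqZeroExt.inrHom k k ∘ₗ g) ?_ fun x y => ?_, fun x => ?_, a, (hm a).1 ha, fun e => ?_⟩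
  · ext <;> simp [hg]
  · ext
    · simp
    · simp [hmul, mul_comm]
  · rw [AlgHom.ofLinearMap_apply]
    simp
  · have h1 := congrArg TrivSqZeroExt.snd e
    simp [hg, (hm a).1 ha] at h1
    exact hf h1

/-- a Witt vector algebra killed by `p` is a `k`-algebra (`WittVector.quotientPEquiv`) -/
theorem exists_kalg (p : ℕ) [Fact p.Prime] {k A : Type u} [Field k] [CharP k p] [PerfectRing k p]
    [CommRing A] (φ : WittVector p k →+* A) (hp : (p : A) = 0) :
    ∃ ι : k →+* A, ∀ w, ι (w.coeff 0) = φ w := by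
  have h : ∀ w ∈ Ideal.span {(p : WittVector p k)}, φ w = 0 := fun w hw => by
    obtain ⟨c, rfl⟩ := Ideal.mem_span_singleton'.1 hw
    rw [map_mul, map_natCast, hp, mul_zero]
  refine ⟨(Ideal.Quotient.lift _ φ h).comp (WittVector.quotientPEquiv (p := p) (k := k)).symm,
    fun w => ?_⟩
  have h1 : (WittVector.quotientPEquiv (p := p) (k := k)).symm (w.coeff 0) =
      Ideal.Quotient.mk _ w := (RingEquiv.symm_apply_eq _).2 rfl
  rw [RingHom.comp_apply, RingHom.coe_coe, h1, Ideal.Quotient.lift_mk]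

/-- the Witt vectors form a complete Noetherian local ring of dimension one -/
theorem witt_cl (p : ℕ) [Fact p.Prime] (k : Type u) [Field k] [CharP k p] [PerfectRing k p] :
    CL (WittVector p k) ∧ maximalIdeal (WittVector p k) = Ideal.span {(p : WittVector p k)} ∧
      ringKrullDim (WittVector p k) = 1 := by
  have h : maximalIdeal (WittVector p k) = Ideal.span {(p : WittVector p k)} :=
    (WittVector.irreducible p).maximalIdeal_eq
  exact ⟨⟨inferInstance, h ▸ WittVector.isAdicCompleteIdealSpanP⟩, h,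
    IsDiscreteValuationRing.ringKrullDim_eq_one _⟩

end Pool.Agent.MP_deef5c_ag.O
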