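import Pool.Agent.MP_deef5c_ag.O.Ws
import Pool.Agent.MP_deef5c_ag.O.Asd

/-! The special fibre data of one step. -/

open PowerSeries IsLocalRing Finset Function
open scoped Polynomial

namespace Pool.Agent.MP_deef5c_ag.O

universe u

variable {k : Type u} [Field k] {p n m α : ℕ} [Fact p.Prime] [CharP k p] {ζ : k} {σ σ' : En k}
  {s : k⟦X⟧}

/-- induction on `n` with `exists_desc` and `ws` -/
theorem exists_wd [IsAlgClosed k] (S : Sp p n m α ζ σ) :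
    ∃ y f r, WD p n σ y f r ∧ (0 < n → IsW p n σ (UU p (fun j => (r j).natDegree) n + 1)) := by
  induction n generalizing ζ σ with
  | zero =>
    exact ⟨0, 0, 0, ⟨fun j hj => absurd hj (Nat.not_lt_zero j),
      fun j hj => absurd hj (Nat.not_lt_zero j), fun j hj => absurd hj (Nat.not_lt_zero j),
      fun j hj => absurd hj (Nat.not_lt_zero j), fun h0 => absurd h0 (lt_irrefl 0)⟩,
      fun h0 => absurd h0 (lt_irrefl 0)⟩
  | succ n ih =>
    obtain ⟨σ', s, h, S'⟩ := exists_desc S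
    obtain ⟨y', f', r', W, hw⟩ := ih S'
    obtain ⟨y, f, r, W1, h1, -⟩ := ws S h S' W hw
    exact ⟨y, f, r, W1, fun _ => h1⟩

theorem exists_isW [IsAlgClosed k] (S : Sp p n m α ζ σ) : ∃ w, IsW p n σ w := by
  rcases Nat.eq_zero_or_pos n with hn | hn
  · exact ⟨0, Or.inl ⟨hn, rfl⟩⟩
  · obtain ⟨y, f, r, -, h⟩ := exists_wd S
    exact ⟨_, h hn⟩

/-- `exists_wd` for `σ'`, `ws`, `asd`, `isW_unique`, `isW_spec`; `0 < UU` from `PO.hc'` -/
theorem sf [IsAlgClosed k] (S : Sp p (n + 1) m α ζ σ) (h : Desc p n σ σ' s)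
    (S' : Sp p n m α (ζ ^ p) σ') {w w' : ℕ} (hw : IsW p (n + 1) σ w) (hw' : IsW p n σ' w') :
    ∃ (N : ℕ) (Y W G : k⟦X⟧) (κ u' l : ℕ) (c₀ z : LaurentSeries k) (r₀ : k[X]),
      ASD p n α ζ σ s N Y W G ∧ PO p (p ^ n) (xb p n σ') κ u' c₀ ∧ Red p r₀ ∧
      lc k G = lc k (xb p n σ') ^ (p * N) *
        (c₀ + Polynomial.aeval (lc k (xb p n σ'))⁻¹ r₀ + (z ^ p - z)) ∧
      order ((σ ^ p ^ n) X - X) = ((l + 1 : ℕ) : ℕ∞) ∧ p ^ n * w = κ + p ^ n + l ∧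
      (w' = 0 ∨ (0 < u' ∧ w' = u' + 1 ∧ (ζ ^ p ^ (n + 1)) ^ w' = (α : k) * ζ ^ p ^ (n + 1))) := by
  obtain ⟨y', f', r', W', hw0⟩ := exists_wd S'
  obtain ⟨y, f, r, W1, h1, c, κ, l, h2, h3, hPO, hl, heq⟩ := ws S h S' W' hw0
  obtain ⟨N, Y, W, G, z, hA, hG⟩ := asd S h S' _ _ h2 h3
  refine ⟨N, Y, W, G, κ, _, l, c, z, r n, hA, hPO, W1.red n (Nat.lt_succ_self n), hG, hl, ?_, ?_⟩
  · rw [S.isW_unique hw h1]
    exact heq
  · rcases Nat.eq_zero_or_pos n with hn | hn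
    · rcases hw' with ⟨-, h0⟩ | ⟨h0, -⟩
      · exact Or.inl h0
      · omega
    · have e1 := S'.isW_unique hw' (hw0 hn)
      obtain ⟨β, l', hl', hβ, -, e2, -, e3⟩ := S'.isW_spec hn hw'
      rw [← pow_mul ζ p, ← pow_succ'] at e3
      refine Or.inr ⟨?_, e1, e3⟩
      rcases hPO.hc' with ⟨h4, -, h5⟩ | ⟨h4, -⟩
      · exfalso
        have h6 := hPO.hκ
        rw [hβ, h5] at h6
        have h7 : β + 1 = 0 + p ^ n := by exact_mod_cast h6
        rw [e1, h4] at e2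
        omega
      · exact Nat.pos_of_ne_zero fun h0 => by rw [h0] at h4; omega

end Pool.Agent.MP_deef5c_ag.O
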