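import Pool.Agent.MP_deef5c_ag.O.SpB

/-! Numerical facts on the special fibre. -/

open PowerSeries IsLocalRing Finset Function
open scoped Polynomial

namespace Pool.Agent.MP_deef5c_ag.O

universe u

variable {k : Type u} [Field k]

variable {p n m α : ℕ} [Fact p.Prime] [CharP k p] {ζ : k} {σ : En k}

theorem Sp.pow (S : Sp p n m α ζ σ) : σ ^ p ^ n = 1 := by
  rw [← S.ord]
  exact pow_orderOf_eq_one σ

theorem Sp.m_ne (S : Sp p n m α ζ σ) : (m : k) ≠ 0 := by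
  haveI : NeZero m := ⟨S.mpos.ne'⟩
  exact S.prim.neZero'.out

theorem Sp.prim_pow (S : Sp p n m α ζ σ) (i : ℕ) : IsPrimitiveRoot (ζ ^ p ^ i) m := by
  refine S.prim.pow_of_coprime _ (Nat.Coprime.pow_left i ?_)
  rw [(Fact.out : p.Prime).coprime_iff_not_dvd, ← CharP.cast_eq_zero_iff k p]
  exact S.m_ne

theorem Sp.alpha_pow (S : Sp p n m α ζ σ) : (α : k) ^ m = 1 := by
  rcases S.hyp with h | h
  · rw [h, one_pow]
  · have h1 := congrArg (· ^ m) h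
    simp only [mul_pow, (S.prim_pow n).pow_eq_one, mul_one, one_pow] at h1
    exact h1

theorem Sp.cop (S : Sp p n m α ζ σ) (i : ℕ) : α.Coprime (p ^ i) := by
  refine Nat.Coprime.pow_right i (Nat.Coprime.symm ?_)
  rw [(Fact.out : p.Prime).coprime_iff_not_dvd, ← CharP.cast_eq_zero_iff k p]
  intro h
  have h1 := S.alpha_pow
  rw [h, zero_pow S.mpos.ne'] at h1
  exact zero_ne_one h1

/-- `rel_pow` with `j = m`, where `τ^m = 1` -/
theorem Sp.apow (S : Sp p n m α ζ σ) : α ^ m ≡ 1 [MOD p ^ n] := by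
  have h := rel_pow S.rel 1 m
  rw [tau_pow, S.prim.pow_eq_one, tau_one, one_mul, mul_one, mul_one] at h
  have hfin : IsOfFinOrder σ :=
    isOfFinOrder_iff_pow_eq_one.2 ⟨p ^ n, pow_pos (Fact.out : p.Prime).pos n, S.pow⟩
  rw [← S.ord]
  exact hfin.pow_eq_pow_iff_modEq.1 h.symm

theorem Sp.order_xb (S : Sp p n m α ζ σ) : order (xb p n σ) = ((p ^ n : ℕ) : ℕ∞) := by
  rw [xb, order_nrm (pow_pos (Fact.out : p.Prime).pos n) S.pow, order_X, mul_one]

theorem Sp.isW_unique (S : Sp p n m α ζ σ) {w w' : ℕ} (h : IsW p n σ w) (h' : IsW p n σ w') :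
    w = w' := by
  rcases h with ⟨h0, h1⟩ | ⟨h0, h1⟩ <;> rcases h' with ⟨h2, h3⟩ | ⟨h2, h3⟩
  · rw [h1, h3]
  · omega
  · omega
  · have h4 : p ^ n * w = p ^ n * w' := by exact_mod_cast h1.trans h3.symm
    exact Nat.eq_of_mul_eq_mul_left (pow_pos (Fact.out : p.Prime).pos n) h4

/-- leading coefficients in `der_tau` for `xb`, and `lead` for `σ^(p^(n-1))` -/
theorem Sp.isW_spec (S : Sp p n m α ζ σ) (hn : 0 < n) {w : ℕ} (h : IsW p n σ w) :
    ∃ β l : ℕ, 0 < l ∧ order (d⁄dX k (xb p n σ)) = β ∧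
      order ((σ ^ p ^ (n - 1)) X - X) = ((l + 1 : ℕ) : ℕ∞) ∧ p ^ n * w = β + (l + 1) ∧
      ζ ^ (β + 1) = ζ ^ p ^ n ∧ (ζ ^ p ^ n) ^ w = (α : k) * ζ ^ p ^ n := by
  have hp : p.Prime := Fact.out
  obtain ⟨n, rfl⟩ : ∃ n', n = n' + 1 := ⟨n - 1, by omega⟩
  rw [Nat.add_sub_cancel]
  have hW : ((p ^ (n + 1) * w : ℕ) : ℕ∞) =
      order (d⁄dX k (xb p (n + 1) σ)) + order ((σ ^ p ^ n) X - X) := by
    rcases h with ⟨h0, -⟩ | ⟨-, h1⟩
    · omega
    · exact h1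
  have h1 : (σ ^ p ^ n) ^ p ^ 1 = 1 := by
    rw [← pow_mul, ← pow_add]
    exact S.pow
  have h2 : σ ^ p ^ n ≠ 1 := by
    intro e
    have hd := orderOf_dvd_of_pow_eq_one e
    rw [S.ord, Nat.pow_dvd_pow_iff_le_right hp.one_lt] at hd
    omega
  obtain ⟨l, hl, hjump⟩ := exists_jump p 1 h1 h2
  have hne : order (d⁄dX k (xb p (n + 1) σ)) ≠ ⊤ := by
    intro e
    rw [e, top_add] at hW
    exact ENat.natCast_ne_top _ hW
  obtain ⟨β, hβ⟩ := ENat.ne_top_iff_exists.1 hne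
  have hw : p ^ (n + 1) * w = β + (l + 1) := by
    rw [← hβ, hjump] at hW
    exact_mod_cast hW
  have hc : coeff β (d⁄dX k (xb p (n + 1) σ)) ≠ 0 := (order_eq_nat.1 hβ.symm).1
  have heig : tau ζ (xb p (n + 1) σ) = C (ζ ^ p ^ (n + 1)) * xb p (n + 1) σ :=
    tau_nrm ⟨S.pow, S.rel⟩ (S.cop _)
  have hz : ζ ^ (β + 1) = ζ ^ p ^ (n + 1) := by
    have e := der_tau ζ (xb p (n + 1) σ)
    rw [heig, ← smul_eq_C_mul, Derivation.map_smul] at e
    have e' := congrArg (coeff β) e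
    rw [coeff_C_mul, coeff_tau, map_smul, smul_eq_mul] at e'
    refine mul_right_cancel₀ hc ?_
    rw [e']
    ring
  have hrel : tau ζ * σ ^ p ^ n = (σ ^ p ^ n) ^ α * tau ζ := by
    have e := rel_pow S.rel (p ^ n) 1
    rw [pow_one, pow_one, mul_comm α, pow_mul] at e
    exact e
  have hlead := lead hl hjump (τ := tau ζ) (by rw [tau_X]; simp) hrel
  have hc1 : coeff 1 (tau ζ X) = ζ := by rw [coeff_tau, coeff_one_X, pow_one, mul_one]
  rw [hc1] at hlead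
  refine ⟨β, l, hl, hβ.symm, hjump, hw, hz, ?_⟩
  rw [← pow_mul, hw, pow_add, hlead, ← hz]
  ring

end Pool.Agent.MP_deef5c_ag.O
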