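import Pool.Agent.MP_deef5c_ag.O.Qb

/-! Norms, traces and relations. -/

open PowerSeries IsLocalRing Finset Function
open scoped Polynomial

namespace Pool.Agent.MP_deef5c_ag.O

universe u

section Ring
variable {D : Type u} [CommRing D]

theorem SpA_succ (σ : En D) (i : ℕ) (f : D⟦X⟧) : σ ((σ ^ i) f) = (σ ^ (i + 1)) f := by
  rw [pow_succ', AlgHom.mul_apply]

theorem SpA_lin (σ : En D) (i : ℕ) (f : D⟦X⟧) : (σ.toLinearMap ^ i) f = (σ ^ i) f := by
  induction i with
  | zero => rfl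
  | succ i ih => rw [pow_succ', Module.End.mul_apply, ih, ← SpA_succ, AlgHom.toLinearMap_apply]

theorem en_inj {σ : En D} {N : ℕ} (hN : 0 < N) (h : σ ^ N = 1) : Injective σ := by
  obtain ⟨M, rfl⟩ : ∃ M, N = M + 1 := ⟨N - 1, by omega⟩
  refine LeftInverse.injective (g := (σ ^ M : En D)) fun f => ?_
  rw [← AlgHom.mul_apply, ← pow_succ, h, AlgHom.one_apply]

theorem nrm_inv {σ : En D} {q : ℕ} (h : σ ^ q = 1) (f : D⟦X⟧) : σ (nrm σ q f) = nrm σ q f := by
  cases q with
  | zero => simp [nrm]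
  | succ m =>
    simp only [nrm, map_prod, SpA_succ]
    rw [prod_range_succ, h, prod_range_succ', pow_zero]

theorem trc_inv {σ : En D} {q : ℕ} (h : σ ^ q = 1) (f : D⟦X⟧) : σ (trc σ q f) = trc σ q f := by
  cases q with
  | zero => simp [trc]
  | succ m =>
    simp only [trc, map_sum, SpA_succ]
    rw [sum_range_succ, h, sum_range_succ', pow_zero]

theorem pow_sub_eq_trc (σ : En D) (a : ℕ) (f : D⟦X⟧) : (σ ^ a) f - f = trc σ a (σ f - f) := by
  have := sum_range_sub (fun i => (σ ^ i) f) a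
  simp only [pow_zero, AlgHom.one_apply] at this
  rw [← this, trc]
  refine sum_congr rfl fun i _ => ?_
  rw [map_sub, pow_succ, AlgHom.mul_apply]

theorem rel_pow {τ σ : En D} {α : ℕ} (h : τ * σ = σ ^ α * τ) (i j : ℕ) :
    τ ^ j * σ ^ i = σ ^ (α ^ j * i) * τ ^ j := by
  have h1 : ∀ i : ℕ, τ * σ ^ i = σ ^ (α * i) * τ := by
    intro i
    induction i with
    | zero => simp
    | succ i ih => rw [pow_succ, ← mul_assoc, ih, mul_assoc, h, ← mul_assoc, ← pow_add, mul_add, mul_one]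
  induction j with
  | zero => simp
  | succ j ih =>
    rw [pow_succ', mul_assoc, ih, ← mul_assoc, h1, mul_assoc, ← mul_assoc α, ← pow_succ' α]

/-- `i ↦ α i` permutes the residues mod `q` -/
theorem tau_nrm {q α : ℕ} {z : D} {σ : En D} (h : Rel q α z σ) (hα : α.Coprime q) :
    tau z (nrm σ q X) = C (z ^ q) * nrm σ q X := by
  have h1 : ∀ i, tau z ((σ ^ i) X) = C z * (σ ^ (α * i % q)) X := by
    intro i
    have h2 := rel_pow h.2 i 1
    simp only [pow_one] at h2
    rw [← AlgHom.mul_apply, h2, AlgHom.mul_apply, tau_X, map_mul, ← pow_eq_pow_mod _ h.1]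
    congr 1
    exact (σ ^ (α * i)).commutes z
  simp only [nrm, map_prod, h1, prod_mul_distrib, prod_const, card_range, map_pow]
  congr 1
  have h3 : Set.MapsTo (fun i => α * i % q) (range q) (range q) := fun i hi =>
    mem_coe.2 (mem_range.2 (Nat.mod_lt _ (Nat.zero_lt_of_lt (mem_range.1 (mem_coe.1 hi)))))
  have h4 : Set.InjOn (fun i => α * i % q) (range q) := fun i hi j hj hij =>
    Nat.ModEq.eq_of_lt_of_lt (Nat.ModEq.cancel_left_of_coprime hα.symm hij)
      (mem_range.1 (mem_coe.1 hi)) (mem_range.1 (mem_coe.1 hj))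
  exact prod_nbij (fun i => α * i % q) h3 h4 (surjOn_of_injOn_of_card_le _ h3 h4 le_rfl)
    fun _ _ => rfl

/-- `(T - 1)^(q-1) = ∑_{i<q} T^i` and `(T-1)^q = T^q - 1` in characteristic `p` -/
theorem dl_pow (p n : ℕ) [Fact p.Prime] [CharP D p] {σ : En D} (h : σ ^ p ^ n = 1) (f : D⟦X⟧) :
    (dl σ ^ (p ^ n - 1)) f = trc σ (p ^ n) f ∧ (dl σ ^ p ^ n) f = 0 := by
  have hq : 0 < p ^ n := pow_pos (Fact.out : p.Prime).pos n
  have h1 : (Polynomial.X - 1 : D[X]) ^ p ^ n = Polynomial.X ^ p ^ n - 1 := by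
    rw [sub_pow_char_pow, one_pow]
  have h2 : (Polynomial.X - 1 : D[X]) ^ (p ^ n - 1) = ∑ i ∈ range (p ^ n), Polynomial.X ^ i := by
    refine (Polynomial.monic_X_sub_C (1 : D)).isRegular.right ?_
    simp only [Polynomial.C_1]
    rw [geom_sum_mul, ← pow_succ, Nat.sub_add_cancel hq, h1]
  have h3 := congrArg (Polynomial.aeval σ.toLinearMap) h1
  have h4 := congrArg (Polynomial.aeval σ.toLinearMap) h2
  simp only [map_pow, map_sub, map_sum, map_one, Polynomial.aeval_X] at h3 h4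
  rw [dl, h3, h4]
  simp [trc, SpA_lin, h]

end Ring

end Pool.Agent.MP_deef5c_ag.O
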