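import Pool.Agent.MP_deef5c_ag.O.SpA

/-! Automorphisms of finite order of a power series ring over a field. -/

open PowerSeries IsLocalRing Finset Function
open scoped Polynomial

namespace Pool.Agent.MP_deef5c_ag.O

universe u

variable {k : Type u} [Field k]

theorem SpB_le_iff (n : ℕ) (f : k⟦X⟧) : (n : ℕ∞) ≤ order f ↔ X ^ n ∣ f := by
  rw [X_pow_dvd_iff]
  exact ⟨fun h m hm => coeff_of_lt_order m (lt_of_lt_of_le (by exact_mod_cast hm) h),
    nat_le_order f n⟩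

/-- every endomorphism preserves the maximal ideal -/
theorem SpB_cc (σ : En k) : constantCoeff (σ X) = 0 := by
  by_contra h
  have h1 : IsUnit (X - C (constantCoeff (σ X)) : k⟦X⟧) := by
    rw [PowerSeries.isUnit_iff_constantCoeff, map_sub, constantCoeff_X, constantCoeff_C, zero_sub]
    exact (neg_ne_zero.2 h).isUnit
  have h2 := PowerSeries.isUnit_iff_constantCoeff.1 (h1.map σ)
  rw [map_sub, Base_en_C, map_sub, constantCoeff_C, sub_self] at h2
  exact not_isUnit_zero h2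

theorem SpB_mem (σ : En k) : constantCoeff (σ X) ∈ maximalIdeal k := by
  rw [SpB_cc]
  exact zero_mem _

theorem SpB_cc_map (σ : En k) (g : k⟦X⟧) : constantCoeff (σ g) = constantCoeff g := by
  conv_lhs => rw [eq_X_mul_shift_add_const g]
  rw [map_add, map_mul, Base_en_C, map_add, map_mul, SpB_cc, zero_mul, zero_add, constantCoeff_C]

theorem SpB_coeff (n : ℕ) (g : k⟦X⟧) : coeff n (X ^ n * g) = constantCoeff g := by
  have := coeff_X_pow_mul g n 0
  rwa [zero_add, coeff_zero_eq_constantCoeff_apply] at this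

theorem SpB_lead (σ : En k) {n : ℕ} {f : k⟦X⟧} (h : X ^ n ∣ f) :
    X ^ n ∣ σ f ∧ coeff n (σ f) = coeff 1 (σ X) ^ n * coeff n f := by
  obtain ⟨g, rfl⟩ := h
  obtain ⟨u, hu⟩ := X_dvd_iff.2 (SpB_cc σ)
  have h1 : σ (X ^ n * g) = X ^ n * (u ^ n * σ g) := by
    rw [map_mul, map_pow, hu, mul_pow, mul_assoc]
  have h2 : coeff 1 (σ X) = constantCoeff u := by
    rw [hu, ← SpB_coeff 1 u, pow_one]
  rw [h1, h2, SpB_coeff, SpB_coeff, map_mul, map_pow, SpB_cc_map]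
  exact ⟨dvd_mul_right _ _, rfl⟩

theorem SpB_one_mul (σ ψ : En k) :
    coeff 1 ((σ * ψ) X) = coeff 1 (σ X) * coeff 1 (ψ X) := by
  have h : (X : k⟦X⟧) ^ 1 ∣ ψ X := by rw [pow_one]; exact X_dvd_iff.2 (SpB_cc ψ)
  rw [AlgHom.mul_apply, (SpB_lead σ h).2, pow_one]

theorem SpB_one_pow (σ : En k) (i : ℕ) : coeff 1 ((σ ^ i) X) = coeff 1 (σ X) ^ i := by
  induction i with
  | zero => rw [pow_zero, pow_zero, AlgHom.one_apply, coeff_one_X]
  | succ i ih => rw [pow_succ, SpB_one_mul, ih, pow_succ]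

theorem SpB_root {σ : En k} {N : ℕ} (h : σ ^ N = 1) : coeff 1 (σ X) ^ N = 1 := by
  rw [← SpB_one_pow, h, AlgHom.one_apply, coeff_one_X]

/-- an automorphism preserves the maximal ideal generated by `X` -/
theorem order_one {σ : En k} {N : ℕ} (hN : 0 < N) (h : σ ^ N = 1) : order (σ X) = 1 := by
  refine (order_eq_nat (n := 1)).2 ⟨fun h0 => ?_, fun i hi => ?_⟩
  · have := SpB_root h
    rw [h0, zero_pow hN.ne'] at this
    exact zero_ne_one this
  · rw [Nat.lt_one_iff.1 hi, coeff_zero_eq_constantCoeff_apply, SpB_cc]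

theorem coeff_one_mul {σ ψ : En k} (hσ : constantCoeff (σ X) = 0) (hψ : constantCoeff (ψ X) = 0) :
    coeff 1 ((σ * ψ) X) = coeff 1 (σ X) * coeff 1 (ψ X) :=
  SpB_one_mul σ ψ

theorem pow_X_inj {σ : En k} {q : ℕ} (hq : 0 < q) (h : orderOf σ = q) :
    ∀ i < q, ∀ j < q, (σ ^ i) X = (σ ^ j) X → i = j := by
  intro i hi j hj e
  rw [← h] at hi hj
  exact pow_injOn_Iio_orderOf hi hj (en_ext e (SpB_mem _))

theorem order_nrm {σ : En k} {N : ℕ} (hN : 0 < N) (h : σ ^ N = 1) (q : ℕ) (f : k⟦X⟧) :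
    order (nrm σ q f) = q * order f := by
  have h1 : ∀ i, order ((σ ^ i) f) = order f := fun i => by
    have h2 : (σ ^ i) ^ N = 1 := by rw [← pow_mul, mul_comm, pow_mul, h, one_pow]
    rw [order_en (σ ^ i) 1 one_pos (order_one hN h2), Nat.cast_one, one_mul]
  rw [nrm, order_prod, sum_congr rfl fun i _ => h1 i, sum_const, card_range, nsmul_eq_mul]

/-- the linear coefficient is a `p^n`-th root of unity, so `1` -/
theorem exists_jump (p n : ℕ) [Fact p.Prime] [CharP k p] {σ : En k} (h : σ ^ p ^ n = 1)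
    (h1 : σ ≠ 1) : ∃ l : ℕ, 0 < l ∧ order (σ X - X) = ((l + 1 : ℕ) : ℕ∞) := by
  have h2 : coeff 1 (σ X) = 1 := by
    have h3 : (coeff 1 (σ X) - 1) ^ p ^ n = 0 := by
      rw [sub_pow_char_pow, SpB_root h, one_pow, sub_self]
    exact sub_eq_zero.1 (eq_zero_of_pow_eq_zero h3)
  have h4 : σ X - X ≠ 0 := fun e => h1 (en_ext (sub_eq_zero.1 e) (SpB_mem _))
  have h5 : ((2 : ℕ) : ℕ∞) ≤ order (σ X - X) := by
    refine nat_le_order _ 2 fun i hi => ?_
    interval_cases i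
    · rw [coeff_zero_eq_constantCoeff_apply, map_sub, SpB_cc, constantCoeff_X, sub_self]
    · rw [map_sub, h2, coeff_one_X, sub_self]
  rw [← coe_toNat_order h4] at h5 ⊢
  have h6 : 2 ≤ (order (σ X - X)).toNat := by exact_mod_cast h5
  exact ⟨(order (σ X - X)).toNat - 1, by omega, by rw [Nat.sub_add_cancel (by omega)]⟩

/-- `σ g - g` has order `> l + 1` when `g` has order `≥ 2` -/
theorem lead_pow {σ : En k} {l : ℕ} (hl : 0 < l) (hσ : ((l + 1 : ℕ) : ℕ∞) ≤ order (σ X - X))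
    (i : ℕ) : ((l + 1 : ℕ) : ℕ∞) ≤ order ((σ ^ i) X - X) ∧
      coeff (l + 1) ((σ ^ i) X - X) = (i : k) * coeff (l + 1) (σ X - X) := by
  rw [SpB_le_iff] at hσ ⊢
  have h1 : coeff 1 (σ X) = 1 := by
    have := X_pow_dvd_iff.1 hσ 1 (by omega)
    rwa [map_sub, coeff_one_X, sub_eq_zero] at this
  induction i with
  | zero =>
    rw [pow_zero σ, AlgHom.one_apply, sub_self, map_zero, Nat.cast_zero, zero_mul]
    exact ⟨dvd_zero _, rfl⟩
  | succ i ih =>
    have h2 : (σ ^ (i + 1)) X - X = σ ((σ ^ i) X - X) + (σ X - X) := by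
      rw [pow_succ' σ, AlgHom.mul_apply, map_sub, sub_add_sub_cancel]
    obtain ⟨h3, h4⟩ := SpB_lead σ ih.1
    rw [h2, map_add, h4, h1, one_pow, one_mul, ih.2, Nat.cast_succ, add_mul, one_mul]
    exact ⟨dvd_add h3 hσ, rfl⟩

theorem SpB_diff (ρ : En k) {n : ℕ} (h : X ^ n ∣ ρ X - X) (f : k⟦X⟧) :
    coeff n (ρ f - f) = coeff 1 f * coeff n (ρ X - X) := by
  obtain ⟨g, hg⟩ : (X : k⟦X⟧) ^ 2 ∣ f - C (coeff 0 f) - C (coeff 1 f) * X := by
    refine X_pow_dvd_iff.2 fun i hi => ?_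
    interval_cases i <;> simp
  have hf : f = C (coeff 0 f) + C (coeff 1 f) * X + X ^ 2 * g := by rw [← hg]; ring
  obtain ⟨u, hu⟩ := X_dvd_iff.2 (SpB_cc ρ)
  obtain ⟨w, hw⟩ := sub_dvd ρ 1 (SpB_mem _) (SpB_mem _) g
  rw [AlgHom.one_apply, AlgHom.one_apply] at hw
  have h1 : ρ f - f = C (coeff 1 f) * (ρ X - X) + (ρ X - X) * X * ((u + 1) * ρ g + X * w) := by
    have h2 := congrArg ρ hf
    rw [map_add, map_add, map_mul, map_mul, map_pow, Base_en_C, Base_en_C] at h2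
    linear_combination h2 - hf + X ^ 2 * hw + (ρ X - X) * ρ g * hu
  have h3 : X ^ (n + 1) ∣ (ρ X - X) * X * ((u + 1) * ρ g + X * w) := by
    rw [pow_succ]
    exact (mul_dvd_mul_right h X).mul_right _
  rw [h1, map_add, coeff_C_mul, X_pow_dvd_iff.1 h3 n (Nat.lt_succ_self n), add_zero]

/-- compare the coefficients of `X^(l+1)` in `τ (σ X - X) = σ^α (τ X) - τ X` -/
theorem lead {σ τ : En k} {l α : ℕ} (hl : 0 < l) (hσ : order (σ X - X) = ((l + 1 : ℕ) : ℕ∞))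
    (hτ : constantCoeff (τ X) = 0) (h : τ * σ = σ ^ α * τ) :
    coeff 1 (τ X) ^ (l + 1) = (α : k) * coeff 1 (τ X) := by
  obtain ⟨h1, h2⟩ := lead_pow hl hσ.ge α
  have h3 := (SpB_lead τ ((SpB_le_iff _ _).1 hσ.ge)).2
  have h4 := SpB_diff (σ ^ α) ((SpB_le_iff _ _).1 h1) (τ X)
  have h5 : τ (σ X - X) = (σ ^ α) (τ X) - τ X := by
    rw [map_sub, ← AlgHom.mul_apply, h, AlgHom.mul_apply]
  rw [h5, h4, h2] at h3
  refine mul_right_cancel₀ (order_eq_nat.1 hσ).1 ?_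
  rw [← h3]
  ring

end Pool.Agent.MP_deef5c_ag.O
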