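import Pool.Agent.MP_deef5c_ag.O.Uniq
import Pool.Agent.MP_deef5c_ag.O.Nf
import Pool.Agent.MP_deef5c_ag.O.Abs

/-! The normalised generator of a family. -/

open PowerSeries IsLocalRing Finset Function
open scoped Polynomial

namespace Pool.Agent.MP_deef5c_ag.O

universe u

variable {k : Type u} [Field k] {p n m α : ℕ} [Fact p.Prime] [CharP k p] {ζ : k} {σ σ' : En k}
  {s : k⟦X⟧}

variable {D : Type u} [CommRing D] [IsDomain D] [IsLocalRing D] [CL D] [Algebra k D]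

section General

variable {R : Type u} [CommRing R]

theorem St1_coe_pow (φ : En R) (i : ℕ) (f : R⟦X⟧) :
    ((φ : R⟦X⟧ →+* R⟦X⟧) ^ i) f = (φ ^ i) f := by
  rw [RingHom.coe_pow, AlgHom.coe_pow]
  rfl

theorem St1_pow_succ (φ : En R) (i : ℕ) (f : R⟦X⟧) : (φ ^ (i + 1)) f = φ ((φ ^ i) f) := by
  rw [pow_succ']
  rfl

theorem St1_pow_add (φ : En R) (i j : ℕ) (f : R⟦X⟧) : (φ ^ (i + j)) f = (φ ^ j) ((φ ^ i) f) := by
  rw [add_comm, pow_add]
  rfl

theorem St1_pow_fix (φ : En R) {f : R⟦X⟧} (h : φ f = f) (i : ℕ) : (φ ^ i) f = f := by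
  induction i with
  | zero => rfl
  | succ i ih => rw [St1_pow_succ, ih, h]

theorem St1_trc_mul (φ : En R) {a : ℕ} {f : R⟦X⟧} (h : (φ ^ a) f = f) (b : ℕ) :
    trc φ (a * b) f = (b : R⟦X⟧) * trc φ a f := by
  induction b with
  | zero => simp [trc]
  | succ b ih =>
    have h1 : (φ ^ (a * b)) f = f := by
      rw [pow_mul]
      exact St1_pow_fix _ h b
    have h2 : trc φ (a * (b + 1)) f = trc φ (a * b) f + trc φ a f := by
      unfold trc
      rw [Nat.mul_succ, Finset.sum_range_add]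
      congr 1
      refine Finset.sum_congr rfl fun i _ => ?_
      rw [St1_pow_add, h1]
    rw [h2, ih]
    push_cast
    ring

theorem St1_trc_smul (φ : En R) {e : R⟦X⟧} (h : φ e = e) (a : ℕ) (f : R⟦X⟧) :
    trc φ a (e * f) = e * trc φ a f := by
  unfold trc
  rw [Finset.mul_sum]
  refine Finset.sum_congr rfl fun i _ => ?_
  rw [map_mul, St1_pow_fix φ h]

theorem St1_trc_comm {R' : Type u} [CommRing R'] (φ : En R) (ψ : En R') (J : R⟦X⟧ →+* R'⟦X⟧)
    (h : ∀ g, J (φ g) = ψ (J g)) (a : ℕ) (f : R⟦X⟧) :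
    J ((φ ^ a) f) = (ψ ^ a) (J f) ∧ J (trc φ a f) = trc ψ a (J f) := by
  have h1 : ∀ i, J ((φ ^ i) f) = (ψ ^ i) (J f) := by
    intro i
    induction i with
    | zero => rfl
    | succ i ih => rw [St1_pow_succ, St1_pow_succ, h, ih]
  refine ⟨h1 a, ?_⟩
  unfold trc
  rw [map_sum]
  exact Finset.sum_congr rfl fun i _ => h1 i

theorem St1_aeval_fix (φ : En R) {x : R⟦X⟧} (h : φ x = x) (P : R[X]) :
    φ (Polynomial.aeval x P) = Polynomial.aeval x P := by
  rw [← Polynomial.aeval_algHom_apply, h]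

theorem St1_dist_pow {I : Ideal R} {f : R[X]} (hf : f.IsDistinguishedAt I) (N : ℕ) (hN : 0 < N) :
    (f ^ N).IsDistinguishedAt I := by
  induction N, hN using Nat.le_induction with
  | base => rwa [Nat.succ_eq_add_one, zero_add, pow_one]
  | succ N _ ih => rw [pow_succ]; exact ih.mul hf

theorem St1_dist_X [Nontrivial R] (I : Ideal R) : (Polynomial.X : R[X]).IsDistinguishedAt I := by
  refine ⟨⟨fun {i} hi => ?_⟩, Polynomial.monic_X⟩
  rw [Polynomial.natDegree_X] at hi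
  have h : i = 0 := by omega
  rw [h, Polynomial.coeff_X_zero]
  exact I.zero_mem

theorem St1_charP (p : ℕ) [CharP R p] : CharP R⟦X⟧ p :=
  charP_of_injective_ringHom (f := (C : R →+* R⟦X⟧)) C_injective p

end General

omit [IsDomain D] [IsLocalRing D] [CL D] in
theorem St1_surj (π : D →ₐ[k] k) : Surjective (π : D →+* k) := fun c =>
  ⟨algebraMap k D c, π.commutes c⟩

omit [IsDomain D] [IsLocalRing D] [CL D] in
theorem St1_red_cst (π : D →ₐ[k] k) (g : k⟦X⟧) :
    PowerSeries.map (π : D →+* k) (cst D g) = g := by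
  ext i
  rw [coeff_map, coeff_map]
  exact π.commutes _

omit [IsDomain D] [CL D] in
theorem St1_map_dist (π : D →ₐ[k] k) {f : D[X]} (hf : f.IsDistinguishedAt (maximalIdeal D)) :
    f.map (π : D →+* k) = Polynomial.X ^ f.natDegree := by
  ext i
  rw [Polynomial.coeff_map, Polynomial.coeff_X_pow]
  split_ifs with h
  · rw [h, hf.monic.coeff_natDegree, map_one]
  · rcases lt_or_gt_of_ne h with h | h
    · exact (pi_eq_zero_iff _ (St1_surj π) _).2 (hf.mem h)
    · rw [Polynomial.coeff_eq_zero_of_natDegree_lt h, map_zero]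

omit [IsDomain D] [CL D] in
theorem St1_red_aeval (π : D →ₐ[k] k) {f : D[X]} (hf : f.IsDistinguishedAt (maximalIdeal D))
    (x : D⟦X⟧) : PowerSeries.map (π : D →+* k) (Polynomial.aeval x f) =
      PowerSeries.map (π : D →+* k) x ^ f.natDegree := by
  rw [Polynomial.map_aeval_eq_aeval_map (φ := (π : D →+* k))
    (ψ := PowerSeries.map (π : D →+* k)) (RingHom.ext fun a => by
      change C (π a) = PowerSeries.map (π : D →+* k) (C a)
      rw [map_C]; rfl), St1_map_dist π hf, map_pow, Polynomial.aeval_X]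

omit [IsDomain D] in
theorem St1_red_sub (π : D →ₐ[k] k) {x : D⟦X⟧} {d : ℕ} (hd : 0 < d)
    (hx : order (PowerSeries.map (π : D →+* k) x) = d) (f : D⟦X⟧) :
    PowerSeries.map (π : D →+* k) (sub x f) =
      sub (PowerSeries.map (π : D →+* k) x) (PowerSeries.map (π : D →+* k) f) := by
  have h1 := Qb_mem (π : D →+* k) (St1_surj π) x d hd hx
  have h2 : constantCoeff (PowerSeries.map (π : D →+* k) x) ∈ maximalIdeal k :=
    Qb_mem (RingHom.id k) Function.surjective_id _ d hd (by rw [map_id]; exact hx)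
  refine map_en (π : D →+* k) (sub x) (sub _) ?_ ?_ f
  · rw [sub_X h1, sub_X h2]
  · rw [sub_X h2]; exact h2

theorem St1_sub_inj {x : k⟦X⟧} {d : ℕ} (hd : 0 < d) (hx : order x = d) : Injective (sub x) :=
  sub_injective (RingHom.id k) Function.surjective_id x d hd (by rw [map_id]; exact hx)

theorem St1_mem {σ : En k} {q : ℕ} (hq : 0 < q) (h : σ ^ q = 1) :
    constantCoeff (σ X) ∈ maximalIdeal k :=
  Qb_mem (RingHom.id k) Function.surjective_id _ 1 one_pos
    (by rw [map_id]; exact order_one hq h)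

/-- the two identities of the lower level -/
theorem St1_low (S : Sp p (n + 1) m α ζ σ) (h : Desc p n σ σ' s) {N : ℕ} {Y₀ W G : k⟦X⟧}
    (A : ASD p n α ζ σ s N Y₀ W G) :
    trc σ' (p ^ n) W = xb p n σ' ^ N ∧
      σ' G - G = W ^ p - (xb p n σ' ^ N) ^ (p - 1) * W := by
  have hp : p.Prime := Fact.out
  have := St1_charP (R := k) p
  have hinj : Injective (sub s) := St1_sub_inj hp.pos (h.order_s S)
  have hc : ∀ g, sub s (σ' g) = σ (sub s g) := fun g => congrArg (fun φ : En k => φ g) h.comm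
  constructor
  · apply hinj
    have h1 := (St1_trc_comm σ' σ (sub s : k⟦X⟧ →+* k⟦X⟧) hc (p ^ n) W).2
    rw [RingHom.coe_coe] at h1
    rw [h1, map_pow, h.hx, ← A.sig, ← pow_sub_eq_trc, A.rho, add_sub_cancel_left]
  · apply hinj
    have h1 : σ (xb p (n + 1) σ) = xb p (n + 1) σ := nrm_inv S.pow X
    have h2 : σ Y₀ = Y₀ + sub s W := by rw [← A.sig, add_sub_cancel]
    simp only [map_sub, map_mul, map_pow]
    rw [hc, ← A.art, h.hx]
    simp only [map_sub, map_mul, map_pow]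
    rw [h1, h2, add_pow_char]
    ring

/-- a solution of `σ Y - Y = Δ J W` with the right reduction -/
theorem St1_first (S : Sp p (n + 1) m α ζ σ) (h : Desc p n σ σ' s) (S' : Sp p n m α (ζ ^ p) σ')
    {π : D →ₐ[k] k} {σD : En D} {x sD : D⟦X⟧} (L : Lev p n α ζ σ σ' s π σD x sD)
    {N : ℕ} {Y₀ W G : k⟦X⟧} (A : ASD p n α ζ σ s N Y₀ W G) {l : ℕ} {ξ : D} {Wf : D[X]}
    {x' GF υ : D⟦X⟧} (B : WF p n l ξ σD x sD x' Wf GF υ) :
    trc σD (p ^ n) (sub sD (cst D W)) = x ^ N ∧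
      ∃ Y, σD Y - Y = Polynomial.aeval x Wf ^ N * sub sD (cst D W) ∧
      PowerSeries.map (π : D →+* k) Y = xb p (n + 1) σ ^ (N * (l + 1)) * Y₀ := by
  have hp : p.Prime := Fact.out
  have hq : 0 < p ^ (n + 1) := pow_pos hp.pos _
  have : CharP D p := charP_of_injective_algebraMap (algebraMap k D).injective p
  have := St1_charP (R := D) p
  have hJ := St1_trc_comm σ' σD ((sub sD : D⟦X⟧ →+* D⟦X⟧).comp (cst D)) L.comm (p ^ n) W
  simp only [RingHom.comp_apply, RingHom.coe_coe] at hJ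
  obtain ⟨hJ1, hJ2⟩ := hJ
  rw [S'.pow] at hJ1
  have hJ1' : (σD ^ p ^ n) (sub sD (cst D W)) = sub sD (cst D W) := hJ1.symm
  rw [(St1_low S h A).1, map_pow, map_pow, L.hx] at hJ2
  refine ⟨hJ2.symm, ?_⟩
  have h0 : trc σD (p ^ (n + 1)) (sub sD (cst D W)) = 0 := by
    rw [pow_succ, St1_trc_mul σD hJ1', CharP.cast_eq_zero, zero_mul]
  have hm := St1_mem hq S.pow
  have hσ : ∀ a, ((σD : D⟦X⟧ →+* D⟦X⟧) ^ p ^ (n + 1)) a = a := by
    intro a
    rw [St1_coe_pow, L.fam.rel.1]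
    rfl
  have hΔ : σD (Polynomial.aeval x Wf ^ N) = Polynomial.aeval x Wf ^ N := by
    rw [map_pow, St1_aeval_fix σD L.fam.inv]
  obtain ⟨Θ, hΘ⟩ := exists_trace (σD : D⟦X⟧ →+* D⟦X⟧) (p ^ (n + 1)) hq hσ X (by
      intro i hi j hj hij
      rw [St1_coe_pow, St1_coe_pow] at hij
      have h1 := congrArg (PowerSeries.map (π : D →+* k)) hij
      rw [map_en_pow _ σD σ L.fam.red hm, map_en_pow _ σD σ L.fam.red hm, map_X] at h1
      exact pow_X_inj hq S.ord i hi j hj h1) (Polynomial.aeval x Wf ^ N) hΔ (by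
      have h1 : ∏ j ∈ Ico 1 (p ^ (n + 1)), (X - ((σD : D⟦X⟧ →+* D⟦X⟧) ^ j) X) ∣
          ∏ _j ∈ Ico 1 (p ^ (n + 1)), Polynomial.aeval x Wf := by
        refine Finset.prod_dvd_prod_of_dvd _ _ fun j hj => ?_
        rw [St1_coe_pow]
        exact B.dvd j (mem_Ico.1 hj).1 (mem_Ico.1 hj).2
      rw [Finset.prod_const, Nat.card_Ico] at h1
      exact h1.trans (pow_dvd_pow _ ((Nat.sub_le _ _).trans A.hN)))
  obtain ⟨Y₁, hY₁⟩ := h90 (σD : D⟦X⟧ →+* D⟦X⟧) (p ^ (n + 1)) hσ Θ _ (sub sD (cst D W)) hΘ (by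
    rw [← h0]
    exact Finset.sum_congr rfl fun i _ => St1_coe_pow σD i _)
  rw [RingHom.coe_coe] at hY₁
  have hox : order (PowerSeries.map (π : D →+* k) x) = ((p ^ (n + 1) : ℕ) : ℕ∞) := by
    rw [L.fam.redx]; exact S.order_xb
  have hos : order (PowerSeries.map (π : D →+* k) sD) = p := by
    rw [L.red]; exact h.order_s S
  have hxk : σ (xb p (n + 1) σ) = xb p (n + 1) σ := nrm_inv S.pow X
  have hr := congrArg (PowerSeries.map (π : D →+* k)) hY₁
  rw [map_sub, map_en _ σD σ L.fam.red hm, map_mul, map_pow, St1_red_aeval π B.dist, B.deg,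
    L.fam.redx, St1_red_sub π hp.pos hos, L.red, St1_red_cst, ← pow_mul, mul_comm (l + 1) N,
    ← A.sig] at hr
  obtain ⟨g, hg⟩ := qinv (RingHom.id k) Function.surjective_id (xb p (n + 1) σ) (p ^ (n + 1)) hq
    (by rw [map_id]; exact S.order_xb) σ hxk (pow_X_inj hq S.ord)
    (PowerSeries.map (π : D →+* k) Y₁ - xb p (n + 1) σ ^ (N * (l + 1)) * Y₀) (by
      rw [map_sub, map_mul, map_pow, hxk]
      linear_combination hr)
  refine ⟨Y₁ - sub x (cst D g), ?_, ?_⟩
  · rw [map_sub, (L.fam.fix S _).2 ⟨_, rfl⟩, ← hY₁]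
    ring
  · rw [map_sub, St1_red_sub π hq hox, L.fam.redx, St1_red_cst, hg]
    ring

/-- Let `J g = sub sD (cst g)`, `Δ = (aeval x Wf)^N`, `q = p^(n+1)`, `q' = p^n`.  From `ASD`,
`sub s (trc σ' q' W) = ρ Y₀ - Y₀ = x^N`, so `trc σD q' (J W) = x^N` and `trc σD q (J W) = p x^N = 0`.
`exists_trace` (as `N ≥ q - 1`) and `h90` give `Y₁` with `σD Y₁ - Y₁ = Δ J W`.  The reduction of `Δ` is
`x^(N(l+1))`; `red Y₁ - x^(N(l+1)) Y₀` is `σ`-invariant, `= sub x g`; subtract `sub x (cst g)`.  Then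
`Y₂^p - g(x)^(p-1) Y₂ - (aeval x Wf)^(pN) J G` is invariant with zero reduction, `= sub x Ψ`; subtract
`sub x V` with `V` from `nf_exists` for the distinguished polynomial `(X Wf)^N`. -/
theorem exists_nf (S : Sp p (n + 1) m α ζ σ) (h : Desc p n σ σ' s) (S' : Sp p n m α (ζ ^ p) σ')
    {π : D →ₐ[k] k} {σD : En D} {x sD : D⟦X⟧} (L : Lev p n α ζ σ σ' s π σD x sD)
    {N : ℕ} {Y₀ W G : k⟦X⟧} (A : ASD p n α ζ σ s N Y₀ W G) {l : ℕ} {ξ : D} {Wf : D[X]}
    {x' GF υ : D⟦X⟧} (B : WF p n l ξ σD x sD x' Wf GF υ) :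
    ∃ P₀ Y, NF p n N π σD x sD G Wf P₀ Y ∧
      σD Y - Y = Polynomial.aeval x Wf ^ N * sub sD (cst D W) ∧
      PowerSeries.map (π : D →+* k) Y = xb p (n + 1) σ ^ (N * (l + 1)) * Y₀ := by
  have hp : p.Prime := Fact.out
  have hq : 0 < p ^ (n + 1) := pow_pos hp.pos _
  have : CharP D p := charP_of_injective_algebraMap (algebraMap k D).injective p
  have := St1_charP (R := D) p
  obtain ⟨htr, Y, hY, hr⟩ := St1_first S h S' L A B
  obtain ⟨p', hp'⟩ : ∃ p', p = p' + 1 := ⟨p - 1, (Nat.sub_add_cancel hp.pos).symm⟩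
  have hp1 : p - 1 = p' := by omega
  have hm := St1_mem hq S.pow
  have hox : order (PowerSeries.map (π : D →+* k) x) = ((p ^ (n + 1) : ℕ) : ℕ∞) := by
    rw [L.fam.redx]; exact S.order_xb
  have hos : order (PowerSeries.map (π : D →+* k) sD) = p := by
    rw [L.red]; exact h.order_s S
  have hxm := Qb_mem (π : D →+* k) (St1_surj π) x _ hq hox
  have hw : σD (Polynomial.aeval x Wf) = Polynomial.aeval x Wf := St1_aeval_fix σD L.fam.inv Wf
  have hrw : PowerSeries.map (π : D →+* k) (Polynomial.aeval x Wf) = xb p (n + 1) σ ^ (l + 1) := by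
    rw [St1_red_aeval π B.dist, B.deg, L.fam.redx]
  have he : Polynomial.aeval x ((Polynomial.X * Wf) ^ N) = (x * Polynomial.aeval x Wf) ^ N := by
    rw [map_pow, map_mul, Polynomial.aeval_X]
  have hG : σD (sub sD (cst D G)) = sub sD (cst D G) +
      (sub sD (cst D W) ^ p - (x ^ N) ^ (p - 1) * sub sD (cst D W)) := by
    have h1 := congrArg (fun g => sub sD (cst D g)) (St1_low S h A).2
    simp only [map_sub, map_mul, map_pow] at h1
    rw [L.comm, L.hx] at h1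
    rw [← h1, add_sub_cancel]
  have hY' : σD Y = Y + Polynomial.aeval x Wf ^ N * sub sD (cst D W) := by
    rw [← hY, add_sub_cancel]
  generalize hwd : Polynomial.aeval x Wf = w at hw hrw he hY hY'
  obtain ⟨Ψ, hΨ⟩ := (L.fam.fix S (Y ^ p - ((x * w) ^ N) ^ (p - 1) * Y -
      w ^ (p * N) * sub sD (cst D G))).1 (by
    simp only [map_sub, map_mul, map_pow]
    rw [hY', hG, hw, L.fam.inv, add_pow_char, hp1, mul_pow (w ^ N), ← pow_mul w N p,
      mul_comm N p]
    have h1 : w ^ (p * N) = (w ^ N) ^ p' * w ^ N := by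
      rw [← pow_succ, ← pow_mul, ← hp', mul_comm]
    rw [h1, mul_pow, mul_pow]
    ring)
  have hΨ0 : PowerSeries.map (π : D →+* k) Ψ = 0 := by
    apply St1_sub_inj hq S.order_xb
    rw [map_zero, ← L.fam.redx, ← St1_red_sub π hq hox, hΨ]
    simp only [map_sub, map_mul, map_pow]
    rw [hr, hrw, L.fam.redx, St1_red_sub π hp.pos hos, L.red, St1_red_cst, ← A.art, hp1]
    generalize xb p (n + 1) σ = z
    have h1 : z ^ (N * (l + 1)) = (z ^ (l + 1)) ^ N := by rw [← pow_mul, mul_comm]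
    have h2 : (z ^ (l + 1)) ^ (p * N) = ((z ^ (l + 1)) ^ N) ^ p := by
      rw [← pow_mul _ N, mul_comm N]
    rw [h1, h2, mul_pow z]
    generalize (z ^ (l + 1)) ^ N = u
    generalize z ^ N = v
    rw [mul_pow, mul_pow, hp', pow_succ u]
    ring
  obtain ⟨V, P, hV, hP, hdeg, hVP⟩ := nf_exists p (π : D →+* k) (St1_surj π)
    ((Polynomial.X * Wf) ^ N)
    (St1_dist_pow ((St1_dist_X _).mul B.dist) N (hq.trans_le A.hN)) Ψ hΨ0
  have hfix : σD (sub x V) = sub x V := (L.fam.fix S _).2 ⟨_, rfl⟩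
  refine ⟨P, Y - sub x V, ⟨?_, ?_, hdeg, hP⟩, ?_, ?_⟩
  · have h1 := pow_sub_eq_trc σD (p ^ n) Y
    rw [hY, St1_trc_smul σD (by rw [map_pow, hw]), htr] at h1
    rw [map_sub, St1_pow_fix σD hfix, he, mul_pow]
    linear_combination h1
  · have h1 := congrArg (sub x) hVP
    rw [hΨ, map_add, map_sub, map_mul, map_pow, map_pow, sub_coe hxm, sub_coe hxm, he] at h1
    rw [he, hwd, sub_pow_char]
    linear_combination h1
  · rw [map_sub, hfix, ← hY]
    ring
  · rw [map_sub, St1_red_sub π hq hox, hV, map_zero, sub_zero, hr]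

end Pool.Agent.MP_deef5c_ag.O
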