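import Pool.Agent.MP_deef5c_ag.O.Uniq
import Pool.Agent.MP_deef5c_ag.O.Nf

/-! Equivariance of the normal form. -/

open PowerSeries IsLocalRing Finset Function
open scoped Polynomial

namespace Pool.Agent.MP_deef5c_ag.O

universe u

variable {k : Type u} [Field k] {p n m α : ℕ} [Fact p.Prime] [CharP k p] {ζ : k} {σ σ' : En k}
  {s : k⟦X⟧}

variable {D : Type u} [CommRing D] [IsDomain D] [IsLocalRing D] [CL D] [Algebra k D]

theorem St2_trc {A B : Type u} [CommRing A] [CommRing B] (J : A⟦X⟧ →+* B⟦X⟧) (φ : En A)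
    (ψ : En B) (h : ∀ g, J (φ g) = ψ (J g)) (a : ℕ) (g : A⟦X⟧) :
    J (trc φ a g) = trc ψ a (J g) := by
  have h' : ∀ (i : ℕ) g, J ((φ ^ i) g) = (ψ ^ i) (J g) := by
    intro i
    induction i with
    | zero => intro g; simp
    | succ i ih => intro g; rw [pow_succ', pow_succ', AlgHom.mul_apply, AlgHom.mul_apply, h, ih]
  unfold trc
  rw [map_sum]
  exact Finset.sum_congr rfl fun i _ => h' i g

theorem St2_fix {B : Type u} [CommRing B] {ψ : En B} {f : B⟦X⟧} (h : ψ f = f) (i : ℕ) :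
    (ψ ^ i) f = f := by
  induction i with
  | zero => simp
  | succ i ih => rw [pow_succ', AlgHom.mul_apply, ih, h]

theorem St2_trc_mul {B : Type u} [CommRing B] {ψ : En B} {f : B⟦X⟧} (h : ψ f = f) (a : ℕ)
    (g : B⟦X⟧) : trc ψ a (f * g) = f * trc ψ a g := by
  unfold trc
  rw [Finset.mul_sum]
  exact Finset.sum_congr rfl fun i _ => by rw [map_mul, St2_fix h]

theorem St2_enC {B : Type u} [CommRing B] (ψ : En B) (a : B) : ψ (C a) = C a := ψ.commutes a

theorem St2_aeval {B : Type u} [CommRing B] {ψ : En B} {x : B⟦X⟧} {ξ : B} (h : ψ x = C ξ * x)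
    (P : B[X]) : ψ (Polynomial.aeval x P) =
      Polynomial.aeval x (P.comp (Polynomial.C ξ * Polynomial.X)) := by
  rw [← Polynomial.aeval_algHom_apply, h, Polynomial.aeval_comp, map_mul, Polynomial.aeval_C,
    Polynomial.aeval_X]
  rfl

theorem St2_dist {B : Type u} [CommRing B] [Nontrivial B] {I : Ideal B} {Wf : B[X]}
    (h : Wf.IsDistinguishedAt I) (N : ℕ) : ((Polynomial.X * Wf) ^ N).IsDistinguishedAt I := by
  have hX : (Polynomial.X : B[X]).IsDistinguishedAt I :=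
    ⟨⟨fun {n} hn => by
      rw [Polynomial.natDegree_X, Nat.lt_one_iff] at hn
      rw [hn, Polynomial.coeff_X_zero]; exact I.zero_mem⟩, Polynomial.monic_X⟩
  induction N with
  | zero =>
    rw [pow_zero]
    exact ⟨⟨fun {n} hn => by simp at hn⟩, Polynomial.monic_one⟩
  | succ N ih => rw [pow_succ]; exact ih.mul (hX.mul h)

theorem St2_natC (B : Type u) [CommRing B] [CharP B p] (a : ℕ) :
    (C (a : B) : B⟦X⟧) ^ p = C (a : B) := by
  rw [← map_pow, ← frobenius_def, map_natCast]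

theorem St2_art {R : Type u} [CommRing R] (a y g : R) :
    (a * y) ^ p - (a * g) ^ (p - 1) * (a * y) = a ^ p * (y ^ p - g ^ (p - 1) * y) := by
  obtain ⟨q, hq⟩ : ∃ q, p = q + 1 := ⟨p - 1, by have := (Fact.out : p.Prime).pos; omega⟩
  rw [hq, Nat.add_sub_cancel]
  ring

theorem St2_taux (S : Sp p (n + 1) m α ζ σ) :
    tau ζ (xb p (n + 1) σ) = C (ζ ^ p ^ (n + 1)) * xb p (n + 1) σ :=
  tau_nrm ⟨S.pow, S.rel⟩ (S.cop _)

theorem St2_inj (S : Sp p (n + 1) m α ζ σ) (h : Desc p n σ σ' s) : Injective (sub s) :=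
  sub_injective (RingHom.id k) surjective_id s p (Fact.out : p.Prime).pos
    (by rw [map_id]; exact h.order_s S)

theorem St2_W (S : Sp p (n + 1) m α ζ σ) (h : Desc p n σ σ' s) {N : ℕ} {Y₀ W G : k⟦X⟧}
    (A : ASD p n α ζ σ s N Y₀ W G) :
    C (α : k) * tau (ζ ^ p) W = C ((ζ ^ p ^ (n + 1)) ^ N) * trc σ' α W := by
  apply St2_inj S h
  have e1 : sub s (tau (ζ ^ p) W) = tau ζ (sub s W) := by
    rw [← AlgHom.mul_apply, ← h.tau_s S, AlgHom.mul_apply]
  have e2 : sub s (trc σ' α W) = trc σ α (sub s W) :=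
    St2_trc (sub s : k⟦X⟧ →+* k⟦X⟧) σ' σ (fun g => by
      change sub s (σ' g) = σ (sub s g)
      rw [← AlgHom.mul_apply, h.comm, AlgHom.mul_apply]) α W
  have e3 : tau ζ (σ Y₀) = (σ ^ α) (tau ζ Y₀) := by
    rw [← AlgHom.mul_apply, S.rel, AlgHom.mul_apply]
  have e4 := congrArg (σ ^ α) A.eig
  rw [map_mul, map_mul, St2_enC, St2_enC] at e4
  rw [map_mul, map_mul, St2_enC, St2_enC, e1, e2, ← A.sig, ← pow_sub_eq_trc, map_sub, e3, mul_sub,
    e4, A.eig, mul_sub]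

theorem St2_G (S : Sp p (n + 1) m α ζ σ) (h : Desc p n σ σ' s) {N : ℕ} {Y₀ W G : k⟦X⟧}
    (A : ASD p n α ζ σ s N Y₀ W G) :
    C (α : k) * tau (ζ ^ p) G = C ((ζ ^ p ^ (n + 1)) ^ N) ^ p * G := by
  apply St2_inj S h
  have e1 : sub s (tau (ζ ^ p) G) = tau ζ (sub s G) := by
    rw [← AlgHom.mul_apply, ← h.tau_s S, AlgHom.mul_apply]
  have e2 : (C (α : k) * tau ζ Y₀) ^ p = C (α : k) * tau ζ Y₀ ^ p := by
    rw [mul_pow, St2_natC]
  rw [map_mul, map_mul, map_pow (sub s), St2_enC, St2_enC, e1, ← A.art, ← St2_art, ← A.eig, e2,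
    map_sub, map_mul, map_pow (tau ζ), map_pow (tau ζ), map_pow (tau ζ), St2_taux S,
    map_pow C _ N]
  ring

/-- Let `E = N (l + 2)`, `τ = tau ζ`, `δ = α τ Y - ξ^E Y`.  Its reduction is zero (`ASD.eig`).  With
`α α' ≡ 1 mod p^(n+1)`, `σ τ = τ σ^α'`, `σD^α' Y - Y = Δ J (trc σ' α' W)` and
`α τ' (trc σ' α' W) = ξ^N W` (apply the injective `sub s`), so `δ` is `σD`-invariant, `δ = sub x V₁`.
Also `α τ' G = ξ^(pN) G`, so `δ^p - (ξ^E g(x))^(p-1) δ = α P₀(ξ x) - ξ^(pE) P₀(x)`; apply `nf_unique` to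
`ξ^(-E) V₁`. -/
theorem nf_eqv (S : Sp p (n + 1) m α ζ σ) (h : Desc p n σ σ' s) (S' : Sp p n m α (ζ ^ p) σ')
    {π : D →ₐ[k] k} {σD : En D} {x sD : D⟦X⟧} (L : Lev p n α ζ σ σ' s π σD x sD)
    {N : ℕ} {Y₀ W G : k⟦X⟧} (A : ASD p n α ζ σ s N Y₀ W G) {l : ℕ} {Wf : D[X]}
    {x' GF υ : D⟦X⟧} (B : WF p n l (algebraMap k D (ζ ^ p ^ (n + 1))) σD x sD x' Wf GF υ)
    {P₀ : D[X]} {Y : D⟦X⟧} (H : NF p n N π σD x sD G Wf P₀ Y)
    (h1 : σD Y - Y = Polynomial.aeval x Wf ^ N * sub sD (cst D W))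
    (h2 : PowerSeries.map (π : D →+* k) Y = xb p (n + 1) σ ^ (N * (l + 1)) * Y₀) :
    Polynomial.C (α : D) *
        P₀.comp (Polynomial.C (algebraMap k D (ζ ^ p ^ (n + 1))) * Polynomial.X) =
      Polynomial.C (algebraMap k D (ζ ^ p ^ (n + 1)) ^
        (p * ((Polynomial.X * Wf) ^ N).natDegree)) * P₀ := by
  classical
  have hπ : Surjective (π : D →+* k) := fun c => ⟨algebraMap k D c, π.commutes c⟩
  have : CharP D p := charP_of_injective_algebraMap (algebraMap k D).injective p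
  have : CharP D⟦X⟧ p := charP_of_injective_ringHom (C_injective (R := D)) p
  have F := L.fam
  set ξ₀ : k := ζ ^ p ^ (n + 1) with hξ₀
  set ξ : D := algebraMap k D ξ₀ with hξ
  set τ : En D := tau (algebraMap k D ζ) with hτ
  set g : D[X] := (Polynomial.X * Wf) ^ N with hg
  have hgd : g.IsDistinguishedAt (maximalIdeal D) := St2_dist B.dist N
  have hE : g.natDegree = N * (l + 2) := by
    rw [hg, (Polynomial.monic_X.mul B.dist.monic).natDegree_pow,
      Polynomial.monic_X.natDegree_mul B.dist.monic, Polynomial.natDegree_X, B.deg]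
    ring
  have hq : 0 < p ^ (n + 1) := pow_pos (Fact.out : p.Prime).pos _
  have hox : order (PowerSeries.map (π : D →+* k) x) = ((p ^ (n + 1) : ℕ) : ℕ∞) := by
    rw [F.redx]; exact S.order_xb
  have hxm : constantCoeff x ∈ maximalIdeal D := Qb_mem _ hπ x _ hq hox
  have hπξ : (π : D →+* k) ξ = ξ₀ := π.commutes _
  have cC : ∀ c : k, cst D (C c) = C (algebraMap k D c) := fun c => map_C _ _
  let J : k⟦X⟧ →+* D⟦X⟧ := (sub sD : D⟦X⟧ →+* D⟦X⟧).comp (cst D)
  have hJ : ∀ f, sub sD (cst D f) = J f := fun _ => rfl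
  have JC : ∀ c : k, J (C c) = C (algebraMap k D c) := fun c => by rw [← hJ, cC, St2_enC]
  have tW : τ (Polynomial.aeval x Wf) = C ξ ^ (l + 1) * Polynomial.aeval x Wf := by
    rw [St2_aeval F.eig, B.eqv, map_mul, Polynomial.aeval_C, map_pow]
    rfl
  have gx : Polynomial.aeval x g = (x * Polynomial.aeval x Wf) ^ N := by
    rw [hg, map_pow, map_mul, Polynomial.aeval_X]
  have tg : τ (Polynomial.aeval x g) = C ξ ^ (N * (l + 2)) * Polynomial.aeval x g := by
    rw [gx, map_pow, map_mul, tW, F.eig]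
    ring
  have sW : σD (Polynomial.aeval x Wf ^ N) = Polynomial.aeval x Wf ^ N := by
    rw [map_pow, ← Polynomial.aeval_algHom_apply, F.inv]
  have jW := congrArg J (St2_W S h A)
  have jG := congrArg J (St2_G S h A)
  rw [map_mul, map_mul, JC, JC, map_natCast (algebraMap k D), map_pow (algebraMap k D),
    St2_trc J σ' σD L.comm, ← hJ (tau _ W), L.tcomm, hJ, map_pow C] at jW
  rw [map_mul, map_mul, map_pow J, JC, JC, map_natCast (algebraMap k D), map_pow (algebraMap k D),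
    ← hJ (tau _ G), L.tcomm, hJ, map_pow C] at jG
  rw [← hξ₀, ← hξ, ← hτ] at jW jG
  set δ : D⟦X⟧ := C (α : D) * τ Y - C ξ ^ (N * (l + 2)) * Y with hδ
  have d1 : (σD ^ α) δ = δ := by
    have e1 : (σD ^ α) (τ Y) = τ (σD Y) := by
      rw [← AlgHom.mul_apply, ← F.rel.2, AlgHom.mul_apply]
    have e2 : σD Y = Y + Polynomial.aeval x Wf ^ N * J W := by rw [← hJ, ← h1]; ring
    have e3 : (σD ^ α) Y = Y + Polynomial.aeval x Wf ^ N * trc σD α (J W) := by
      rw [← St2_trc_mul sW, ← hJ, ← h1, ← pow_sub_eq_trc]; ring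
    rw [hδ, map_sub, map_mul, map_mul, map_pow (σD ^ α), St2_enC, St2_enC, e1, e2, e3, map_add,
      map_mul, map_pow, tW]
    linear_combination (C ξ ^ (l + 1) * Polynomial.aeval x Wf) ^ N * jW
  have d2 : σD δ = δ := by
    obtain ⟨m', hm'⟩ : ∃ m', m = m' + 1 := ⟨m - 1, by have := S.mpos; omega⟩
    have e1 : (σD ^ α ^ m) δ = δ := by
      rw [hm', pow_succ', pow_mul]; exact St2_fix d1 _
    have e2 : σD ^ α ^ m = σD ^ 1 := pow_eq_pow_of_modEq S.apow F.rel.1
    rwa [e2, pow_one] at e1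
  obtain ⟨V₁, hV₁⟩ := (F.fix S δ).1 d2
  have r1 : PowerSeries.map (π : D →+* k) δ = 0 := by
    have e1 : (π : D →+* k) (algebraMap k D ζ) = ζ := π.commutes _
    rw [hδ, map_sub, map_mul, map_mul, map_pow, map_C, map_C, hπξ, map_natCast (π : D →+* k), hτ,
      map_tau, e1, h2, map_mul, map_pow, St2_taux S]
    have e2 := A.eig
    rw [map_pow C] at e2
    rw [← hξ₀] at e2 ⊢
    linear_combination (C ξ₀ * xb p (n + 1) σ) ^ (N * (l + 1)) * e2
  have r2 : PowerSeries.map (π : D →+* k) V₁ = 0 := by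
    have hx0 : constantCoeff (xb p (n + 1) σ) ∈ maximalIdeal k := by
      rw [Lau_cc hq S.order_xb]; exact zero_mem _
    have e1 := map_en (π : D →+* k) (sub x) (sub (xb p (n + 1) σ))
      (by rw [sub_X hxm, sub_X hx0, F.redx]) (by rw [sub_X hx0]; exact hx0) V₁
    rw [hV₁, r1] at e1
    refine sub_injective (RingHom.id k) surjective_id (xb p (n + 1) σ) _ hq
      (by rw [map_id]; exact S.order_xb) ?_
    rw [← e1, map_zero]
  have hξ0 : ξ₀ ≠ 0 := pow_ne_zero _ (S.prim.ne_zero S.mpos.ne')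
  set η : D := algebraMap k D (ξ₀ ^ (N * (l + 2)))⁻¹ with hη
  have hηξ : (C η : D⟦X⟧) * C ξ ^ (N * (l + 2)) = 1 := by
    rw [← map_pow, ← map_mul, hη, hξ, ← map_pow, ← map_mul, inv_mul_cancel₀ (pow_ne_zero _ hξ0),
      map_one, map_one]
  have hη0 : η ≠ 0 := by
    rintro e
    rw [e, map_zero, zero_mul] at hηξ
    exact zero_ne_one hηξ
  set Q : D[X] := Polynomial.C (α : D) * P₀.comp (Polynomial.C ξ * Polynomial.X) -
    Polynomial.C (ξ ^ (p * g.natDegree)) * P₀ with hQ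
  have a1 : δ ^ p - (C ξ ^ (N * (l + 2)) * Polynomial.aeval x g) ^ (p - 1) * δ =
      Polynomial.aeval x Q := by
    have e1 := congrArg τ H.art
    rw [← hg, map_sub, map_mul, map_pow τ, map_pow τ, map_add, map_mul, map_pow τ, tW, tg, hJ,
      St2_aeval F.eig] at e1
    have e2 := St2_art (p := p) (C ξ ^ (N * (l + 2))) Y (Polynomial.aeval x g)
    rw [H.art, hJ] at e2
    have e3 : δ ^ p = C (α : D) * τ Y ^ p - (C ξ ^ (N * (l + 2)) * Y) ^ p := by
      rw [hδ, sub_pow_char, mul_pow, St2_natC]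
    have e4 : ∀ a : D, Polynomial.aeval x (Polynomial.C a) = C a := fun a => Polynomial.aeval_C _ _
    rw [e3, hQ, map_sub, map_mul, map_mul, e4, e4, hE, map_pow C, hδ]
    linear_combination C (α : D) * e1 - e2 +
      (C ξ ^ (l + 1) * Polynomial.aeval x Wf) ^ (p * N) * jG
  have a2 : (C η * V₁) ^ p - (g : D⟦X⟧) ^ (p - 1) * (C η * V₁) =
      ((Polynomial.C (η ^ p) * Q : D[X]) : D⟦X⟧) := by
    apply sub_injective _ hπ x _ hq hox
    have e4 : Polynomial.aeval x (Polynomial.C (η ^ p)) = C η ^ p := by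
      rw [← map_pow C]; exact Polynomial.aeval_C _ _
    rw [sub_coe hxm, map_sub, map_mul, map_pow (sub x), map_pow (sub x), map_mul, St2_enC, hV₁,
      sub_coe hxm, map_mul, e4, ← a1, ← St2_art, ← mul_assoc (C η) _ (Polynomial.aeval x g), hηξ,
      one_mul]
  have a3 : (Polynomial.C (η ^ p) * Q).degree < (((p - 1) * g.natDegree : ℕ) : WithBot ℕ) := by
    rw [Polynomial.degree_lt_iff_coeff_zero]
    intro j hj
    have e1 := (Polynomial.degree_lt_iff_coeff_zero _ _).1 H.deg j hj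
    rw [hQ, Polynomial.coeff_C_mul, Polynomial.coeff_sub, Polynomial.coeff_C_mul,
      Polynomial.coeff_C_mul, Polynomial.comp_C_mul_X_coeff, e1]
    ring
  have a4 := nf_unique p _ hπ g hgd (C η * V₁) _ (by rw [map_mul, r2, mul_zero]) a3 a2
  rw [a4, zero_pow (Fact.out : p.Prime).ne_zero, mul_zero, sub_zero, eq_comm,
    Polynomial.coe_eq_zero_iff, mul_eq_zero, Polynomial.C_eq_zero] at a2
  rcases a2 with a2 | a2
  · exact absurd a2 (pow_ne_zero _ hη0)
  · exact sub_eq_zero.1 a2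

end Pool.Agent.MP_deef5c_ag.O
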