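import Pool.Agent.MP_deef5c_ag.O.TrivA
import Pool.Agent.MP_deef5c_ag.O.Uniq

/-! A family with constant Artin-Schreier equation is trivial. -/

open PowerSeries IsLocalRing Finset Function
open scoped Polynomial

namespace Pool.Agent.MP_deef5c_ag.O

universe u

variable {k : Type u} [Field k] {p n m α : ℕ} [Fact p.Prime] [CharP k p] {ζ : k} {σ σ' : En k}
  {s : k⟦X⟧}

theorem TrivC_pow {R : Type u} [CommRing R] (φ : En R) (i : ℕ) (a : R⟦X⟧) :
    ((φ : R⟦X⟧ →+* R⟦X⟧) ^ i) a = (φ ^ i) a := by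
  induction i with
  | zero => rfl
  | succ i ih =>
    rw [pow_succ', pow_succ', RingHom.mul_def, RingHom.comp_apply, ih]
    rfl

theorem TrivC_map_cst {R : Type u} [CommRing R] [Algebra k R] (π : R →ₐ[k] k) (f : k⟦X⟧) :
    PowerSeries.map (π : R →+* k) (cst R f) = f := by
  ext a
  simp

theorem TrivC_eval {A B : Type u} [CommRing A] [CommRing B] (F G : A →+* B) (a : A[X]) (Y : A)
    (ha : ∀ i, F (a.coeff i) = G (a.coeff i)) (hY : F Y = G Y) : F (a.eval Y) = G (a.eval Y) := by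
  rw [Polynomial.eval_eq_sum_range, map_sum, map_sum]
  refine Finset.sum_congr rfl fun i _ => ?_
  rw [map_mul, map_mul, map_pow, map_pow, ha, hY]

variable {D : Type u} [CommRing D] [IsDomain D] [IsLocalRing D] [CL D] [Algebra k D]

/-- `triv_abs` with `A = A₀ = B = D⟦X⟧`, `j = sub sD`, `j₀ = sub (cst s)`, `Y₀ = cst (map π Y)`, `ϖ = X`
(`X_prime`), `Fam.rho_fix`.  `Ψ` is `D`-linear.  Apply `Ψ` to `j e^(p-1) X = ∑ j (a i) Y^i` (`interp`) and
reduce: `map π (Ψ X) = X`.  The inverse `Φ` of `Ψ` (`exists_inv`) sends `cst s` to `sD`, hence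
`cst x = sub (cst s) (cst x')` to `x`. -/
theorem triv_conc (S : Sp p (n + 1) m α ζ σ) (h : Desc p n σ σ' s) (S' : Sp p n m α (ζ ^ p) σ')
    {π : D →ₐ[k] k} {σD : En D} {x sD : D⟦X⟧} (L : Lev p n α ζ σ σ' s π σD x sD)
    (e g : k⟦X⟧) (he : e ≠ 0) (Y : D⟦X⟧) (hY : (σD ^ p ^ n) Y = Y + sub sD (cst D e))
    (hg : Y ^ p - sub sD (cst D e) ^ (p - 1) * Y = sub sD (cst D g)) :
    Triv π (xb p (n + 1) σ) x := by
  have hp : 0 < p := (Fact.out : p.Prime).pos
  have hπ : Surjective (π : D →+* k) := fun c => ⟨algebraMap k D c, π.commutes c⟩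
  have hid : Surjective (RingHom.id k) := fun c => ⟨c, rfl⟩
  have : CharP D⟦X⟧ p := charP_of_injective_algebraMap (algebraMap k D⟦X⟧).injective p
  have os : order s = p := h.order_s S
  have os0 : order (PowerSeries.map (RingHom.id k) s) = p := by rwa [PowerSeries.map_id]
  have osD : order (PowerSeries.map (π : D →+* k) sD) = p := by rwa [L.red]
  have osC : order (PowerSeries.map (π : D →+* k) (cst D s)) = p := by rwa [TrivC_map_cst]
  have ms := Qb_mem _ hid s p hp os0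
  have mD := Qb_mem _ hπ sD p hp osD
  have mC := Qb_mem _ hπ _ p hp osC
  have rD : ∀ f, PowerSeries.map (π : D →+* k) (sub sD f) =
      sub s (PowerSeries.map (π : D →+* k) f) :=
    map_en _ _ _ (by rw [sub_X mD, sub_X ms, L.red]) (by rwa [sub_X ms])
  have rC : ∀ f, PowerSeries.map (π : D →+* k) (sub (cst D s) f) =
      sub s (PowerSeries.map (π : D →+* k) f) :=
    map_en _ _ _ (by rw [sub_X mC, sub_X ms, TrivC_map_cst]) (by rwa [sub_X ms])
  have cC : ∀ f, cst D (sub s f) = sub (cst D s) (cst D f) :=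
    map_en _ _ _ (by rw [sub_X mC, sub_X ms]) (by rwa [sub_X mC])
  have hρ : ∀ a, (((σD ^ p ^ n : En D) : D⟦X⟧ →+* D⟦X⟧) ^ p) a = a := fun a => by
    rw [TrivC_pow, ← pow_mul, ← pow_succ, L.fam.rel.1]
    rfl
  have hfix := L.fam.rho_fix S h L.red L.inv
  have he' : cst D e ≠ 0 := fun h0 => he (by rw [← TrivC_map_cst π e, h0, map_zero])
  have hse : sub s e ≠ 0 := fun h0 =>
    he (sub_injective _ hid s p hp os0 (h0.trans (map_zero _).symm))
  have hg₀ : cst D (PowerSeries.map (π : D →+* k) Y) ^ p -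
      sub (cst D s) (cst D e) ^ (p - 1) * cst D (PowerSeries.map (π : D →+* k) Y) =
      sub (cst D s) (cst D g) := by
    have h1 := congrArg (fun f => cst D (PowerSeries.map (π : D →+* k) f)) hg
    simpa only [map_sub, map_mul, map_pow, rD, TrivC_map_cst, cC] using h1
  obtain ⟨M, hM⟩ := IsDiscreteValuationRing.associated_pow_irreducible hse
    (PowerSeries.X_irreducible (R := k))
  have hM' : sub (cst D s) (cst D e) ∣ X ^ M := by
    have h1 := map_dvd (cst D) hM.dvd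
    rwa [cC, map_pow, PowerSeries.map_X] at h1
  obtain ⟨Ψ, hΨ, hΨY⟩ := triv_abs p (sub sD : D⟦X⟧ →+* D⟦X⟧) (sub_injective _ hπ sD p hp osD)
    (sub (cst D s) : D⟦X⟧ →+* D⟦X⟧) ((σD ^ p ^ n : En D) : D⟦X⟧ →+* D⟦X⟧) hρ hfix Y
    (cst D (PowerSeries.map (π : D →+* k) Y)) (cst D e) (cst D g) he' hY hg hg₀ X
    PowerSeries.X_prime M hM'
  have hΨ' : ∀ b, Ψ (sub sD b) = sub (cst D s) b := hΨ
  let Ψ' : En D :=
    { Ψ with
      commutes' := fun a => by
        have h1 := hΨ' (C a)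
        rw [Base_en_C, Base_en_C] at h1
        exact h1 }
  have hΨe : ∀ f, Ψ' f = Ψ f := fun _ => rfl
  obtain ⟨a, -, ha, hev⟩ := interp p ((σD ^ p ^ n : En D) : D⟦X⟧ →+* D⟦X⟧) hρ Y
    (sub sD (cst D e)) ((hfix _).2 ⟨_, rfl⟩) hY X
  have hX : PowerSeries.map (π : D →+* k) (Ψ X) = X := by
    have h1 := TrivC_eval ((PowerSeries.map (π : D →+* k)).comp Ψ)
      (PowerSeries.map (π : D →+* k)) a Y (fun i => ?_) ?_
    · rw [hev, RingHom.comp_apply] at h1
      simp only [map_mul, map_pow, hΨ', rC, rD, TrivC_map_cst, PowerSeries.map_X] at h1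
      exact mul_left_cancel₀ (pow_ne_zero _ hse) h1
    · have h2 : (σD ^ p ^ n) (a.coeff i) = a.coeff i := by
        conv_rhs => rw [← ha, Polynomial.coeff_map]
        rfl
      obtain ⟨b, hb⟩ := (hfix _).1 h2
      rw [← hb, RingHom.comp_apply, hΨ', rC, rD]
    · rw [RingHom.comp_apply, hΨY, TrivC_map_cst]
  obtain ⟨Φ, h1, h2⟩ := exists_inv _ hπ Ψ' (by rw [hΨe, hX, order_X])
  refine ⟨Φ, ?_, ?_⟩
  · have h3 := map_en (π : D →+* k) Ψ' 1 hX (by simp) (Φ X)
    have h4 : Ψ' (Φ X) = X := by rw [← AlgHom.mul_apply, h1, AlgHom.one_apply]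
    rw [h4, PowerSeries.map_X, AlgHom.one_apply] at h3
    exact h3.symm
  · rw [← h.hx, cC, ← hΨ', L.hx, ← hΨe, ← AlgHom.mul_apply, h2, AlgHom.one_apply]

end Pool.Agent.MP_deef5c_ag.O
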