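import Pool.Agent.MP_deef5c_ag.O.Uniq

/-! The branch polynomial of the top step of a family. -/

open PowerSeries IsLocalRing Finset Function
open scoped Polynomial

namespace Pool.Agent.MP_deef5c_ag.O

universe u

section Aux

variable {D k : Type u} [CommRing D] [IsLocalRing D] [Field k]

theorem Wf_assoc (π : D →+* k) (hπ : Surjective π) {F g : D⟦X⟧} {d : ℕ} (h : F ∣ g)
    (hF : order (PowerSeries.map π F) = d) (hg : order (PowerSeries.map π g) = d) :
    Associated F g := by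
  obtain ⟨c, rfl⟩ := h
  rw [map_mul, order_mul, hF] at hg
  have h0 : order (PowerSeries.map π c) = 0 :=
    WithTop.add_left_cancel (ENat.natCast_ne_top d) (hg.trans (add_zero _).symm)
  have hc : IsUnit c := by
    rw [isUnit_of_map π hπ, PowerSeries.isUnit_iff_constantCoeff, isUnit_iff_ne_zero]
    exact fun h1 => order_ne_zero_iff_constCoeff_eq_zero.2 h1 h0
  exact ⟨hc.unit, rfl⟩

omit [IsLocalRing D] in
theorem Wf_coe (φ : En D) (P : D[X]) : φ (P : D⟦X⟧) = Polynomial.aeval (φ X) P := by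
  rw [Polynomial.aeval_algHom_apply, Polynomial.aeval_def, ← Polynomial.eval₂_C_X_eq_coe]
  rfl

omit [IsLocalRing D] in
theorem Wf_nrm {φ : En D} {F : D⟦X⟧} (h : ∀ i, Associated F ((φ ^ i) F)) (q : ℕ) :
    Associated (F ^ q) (nrm φ q F) := by
  have h1 := Associated.prod (range q) (fun _ => F) (fun i => (φ ^ i) F) fun i _ => h i
  rwa [prod_const, card_range] at h1

omit [IsLocalRing D] in
theorem Wf_inv [IsDomain D] (φ : En D) {a b u : D⟦X⟧} (ha : a ≠ 0) (h : a * u = b) (h1 : φ a = a)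
    (h2 : φ b = b) : φ u = u := by
  apply mul_left_cancel₀ ha
  rw [h, ← h2, ← h, map_mul, h1]

variable [CL D]

theorem Wf_pow_mem (φ : En D) (hm : constantCoeff (φ X) ∈ maximalIdeal D) (i : ℕ) :
    constantCoeff ((φ ^ i) X) ∈ maximalIdeal D := by
  induction i with
  | zero =>
    rw [pow_zero, AlgHom.one_apply, constantCoeff_X]
    exact zero_mem _
  | succ i ih =>
    rw [pow_succ', AlgHom.mul_apply]
    exact en_mem φ hm ih

theorem Wf_dvd_one (φ : En D) (hm : constantCoeff (φ X) ∈ maximalIdeal D) (f : D⟦X⟧) :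
    φ X - X ∣ φ f - f :=
  sub_dvd φ 1 hm (by rw [AlgHom.one_apply, constantCoeff_X]; exact zero_mem _) f

theorem Wf_dvd_pow (φ : En D) (hm : constantCoeff (φ X) ∈ maximalIdeal D) (c : ℕ) :
    φ X - X ∣ (φ ^ c) X - X := by
  induction c with
  | zero =>
    rw [pow_zero, AlgHom.one_apply, sub_self]
    exact dvd_zero _
  | succ c ih =>
    rw [pow_succ', AlgHom.mul_apply, ← sub_add_sub_cancel (φ ((φ ^ c) X)) ((φ ^ c) X) X]
    exact dvd_add (Wf_dvd_one φ hm _) ih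

theorem Wf_unit (φ : En D) (hm : constantCoeff (φ X) ∈ maximalIdeal D) {υ : D⟦X⟧}
    (h : IsUnit (φ υ)) : IsUnit υ := by
  by_contra h1
  exact (mem_maximalIdeal _).1 ((mem_max_iff _).2 (en_mem φ hm
    ((mem_max_iff _).1 ((mem_maximalIdeal _).2 h1)))) h

theorem Wf_eqv {W : D[X]} (hW : W.IsDistinguishedAt (maximalIdeal D)) (ξ : D) (υ : D⟦X⟧)
    (h : (W : D⟦X⟧) * υ = (W.comp (Polynomial.C ξ * Polynomial.X) : D[X])) :
    W.comp (Polynomial.C ξ * Polynomial.X) = Polynomial.C (ξ ^ W.natDegree) * W := by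
  have h1 : (W : D⟦X⟧).IsWeierstrassFactorizationAt W 1 (maximalIdeal D) :=
    ⟨hW, isUnit_one, (mul_one _).symm⟩
  have h2 := h1.natDegree_eq_toNat_order_map_of_ne_top (maximalIdeal.isMaximal D).ne_top
  refine sub_eq_zero.1 (hW.isWeierstrassDivisorAt'.eq_zero_of_mul_eq
    (q := υ - C (ξ ^ W.natDegree)) ?_ ?_).2
  · rw [← h2, Polynomial.degree_lt_iff_coeff_zero]
    intro j hj
    rw [Polynomial.coeff_sub, Polynomial.comp_C_mul_X_coeff, Polynomial.coeff_C_mul]
    rcases hj.eq_or_lt with rfl | hj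
    · rw [mul_comm, sub_self]
    · rw [Polynomial.coeff_eq_zero_of_natDegree_lt hj, zero_mul, mul_zero, sub_self]
  · rw [mul_sub, h, Polynomial.coe_sub, Polynomial.coe_mul, Polynomial.coe_C,
      mul_comm (W : D⟦X⟧)]

end Aux

theorem Wf_exp {M : Type u} [Monoid M] {p n j : ℕ} (hp : p.Prime) {a : M} (ha : a ^ p ^ (n + 1) = 1)
    (h0 : 0 < j) (hj : j < p ^ (n + 1)) : ∃ c, (a ^ j) ^ c = a ^ p ^ n := by
  have h1 : j.gcd (p ^ (n + 1)) < p ^ (n + 1) := (Nat.gcd_le_left _ h0).trans_lt hj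
  obtain ⟨c, -, hc⟩ := Nat.exists_mul_mod_eq_gcd h1
  obtain ⟨b, hb, hb'⟩ := (Nat.dvd_prime_pow hp).1 (Nat.gcd_dvd_right j (p ^ (n + 1)))
  have h2 : b ≤ n := by
    rw [hb'] at h1
    exact Nat.lt_succ_iff.1 ((Nat.pow_lt_pow_iff_right hp.one_lt).1 h1)
  refine ⟨c * p ^ (n - b), ?_⟩
  rw [pow_mul, ← pow_mul a, pow_eq_pow_mod (j * c) ha, hc, hb', ← pow_mul, ← pow_add,
    Nat.add_sub_cancel' h2]

variable {k : Type u} [Field k] {p n m α : ℕ} [Fact p.Prime] [CharP k p] {ζ : k} {σ σ' : En k}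
  {s : k⟦X⟧}

variable {D : Type u} [CommRing D] [IsDomain D] [IsLocalRing D] [CL D] [Algebra k D]

/-- Let `ρ = σD^(p^n)`, `F = ρ X - X`, `q = p^(n+1)`.  The elements `σD^i F` (`sub_dvd ρ 1`), `ρ^α X - X`
(`lead_pow`) and so `tau F` are multiples of `F` whose reductions have the same order `l + 1`, hence
unit multiples (`isUnit_of_map`).  `nrm σD q F = sub x g` (`Fam.fix`), `g` has reduction of order
`l + 1`; `Wf` is its Weierstrass polynomial.  A unit of `D⟦X⟧` relating two non-zero invariants is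
invariant, and `sub x υ` (or `sub sD υ`) is a unit only if `υ` is.  Uniqueness in Weierstrass
preparation gives `eqv`.  For `0 < j < q`, `ρ` is a power of `σD^j`, so `X - σD^j X ∣ F`. -/
theorem exists_wf (S : Sp p (n + 1) m α ζ σ) (h : Desc p n σ σ' s) (S' : Sp p n m α (ζ ^ p) σ')
    {π : D →ₐ[k] k} {σD : En D} {x sD : D⟦X⟧} (L : Lev p n α ζ σ σ' s π σD x sD) {l : ℕ}
    (hl : order ((σ ^ p ^ n) X - X) = ((l + 1 : ℕ) : ℕ∞)) :
    ∃ Wf GF υ, WF p n l (algebraMap k D (ζ ^ p ^ (n + 1))) σD x sD (cst D (xb p n σ')) Wf GF υ := by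
  have hp : p.Prime := Fact.out
  have hπ : Surjective (π : D →+* k) := fun a => ⟨algebraMap k D a, π.commutes a⟩
  have hq : 0 < p ^ (n + 1) := pow_pos hp.pos _
  have hid : ∀ (y : k⟦X⟧) (d : ℕ), 0 < d → order y = d → constantCoeff y ∈ maximalIdeal k :=
    fun y d hd hy => by
      rw [Lau_cc hd hy]
      exact zero_mem _
  have hσ1 : ∀ i, order ((σ ^ i) X) = (1 : ℕ) := fun i =>
    order_one hq (by rw [← pow_mul, mul_comm, pow_mul, S.pow, one_pow])
  have hσ1' : order (σ X) = (1 : ℕ) := by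
    have := hσ1 1
    rwa [pow_one] at this
  have hred := map_en_pow (π : D →+* k) σD σ L.fam.red (hid _ 1 one_pos hσ1')
  have hm : constantCoeff (σD X) ∈ maximalIdeal D :=
    Qb_mem _ hπ _ 1 one_pos (by rw [L.fam.red, hσ1'])
  have hmi := Wf_pow_mem σD hm
  have hxo : order (PowerSeries.map (π : D →+* k) x) = ((p ^ (n + 1) : ℕ) : ℕ∞) := by
    rw [L.fam.redx, S.order_xb]
  have hxm := Qb_mem _ hπ _ _ hq hxo
  have hso : order (PowerSeries.map (π : D →+* k) sD) = p := by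
    rw [L.red, Desc.order_s S h]
  have hsm := Qb_mem _ hπ _ _ hp.pos hso
  have hρ : (σD ^ p ^ n) ^ p = 1 := by rw [← pow_mul, ← pow_succ, L.fam.rel.1]
  obtain ⟨F, hFd⟩ : ∃ F, F = (σD ^ p ^ n) X - X := ⟨_, rfl⟩
  have hF : order (PowerSeries.map (π : D →+* k) F) = ((l + 1 : ℕ) : ℕ∞) := by
    rw [hFd, map_sub, hred, map_X, hl]
  have hF0 : F ≠ 0 := by
    rintro rfl
    rw [map_zero, order_zero] at hF
    exact ENat.top_ne_natCast _ hF
  have hA : ∀ i, Associated F ((σD ^ i) F) := fun i => by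
    refine Wf_assoc _ hπ ?_ hF ?_
    · have h1 : (σD ^ i) F = (σD ^ p ^ n) ((σD ^ i) X) - (σD ^ i) X := by
        rw [hFd, map_sub, ← AlgHom.mul_apply, pow_mul_comm, AlgHom.mul_apply]
      rw [h1, hFd]
      exact Wf_dvd_one _ (hmi _) _
    · rw [hred, order_en _ 1 one_pos (hσ1 i), hF, Nat.cast_one, one_mul]
  have hτ : Associated F (tau (algebraMap k D ζ) F) := by
    refine Wf_assoc _ hπ ?_ hF ?_
    · have h1 := rel_pow L.fam.rel.2 (p ^ n) 1
      rw [pow_one, pow_one, mul_comm α, pow_mul] at h1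
      have h2 : tau (algebraMap k D ζ) F = ((σD ^ p ^ n) ^ α) (tau (algebraMap k D ζ) X) -
          tau (algebraMap k D ζ) X := by
        rw [hFd, map_sub, ← AlgHom.mul_apply, h1, AlgHom.mul_apply]
      rw [h2, hFd]
      exact (Wf_dvd_pow _ (hmi _) α).trans (Wf_dvd_one _ (Wf_pow_mem _ (hmi _) α) _)
    · have h1 : (π : D →+* k) (algebraMap k D ζ) = ζ := π.commutes ζ
      have h2 : order (tau ζ X) = (1 : ℕ) := order_one S.mpos (by
        rw [tau_pow, S.prim.pow_eq_one, tau_one])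
      rw [map_tau, h1, order_en _ 1 one_pos h2, hF, Nat.cast_one, one_mul]
  obtain ⟨g, hg⟩ := (Fam.fix S L.fam _).1 (nrm_inv L.fam.rel.1 F)
  have hgo : order (PowerSeries.map (π : D →+* k) g) = ((l + 1 : ℕ) : ℕ∞) := by
    have hx' := hid _ _ hq S.order_xb
    have h1 := map_en (π : D →+* k) (sub x) (sub (xb p (n + 1) σ))
      (by rw [sub_X hxm, sub_X hx', L.fam.redx]) (by rw [sub_X hx']; exact hx') g
    have h2 : PowerSeries.map (π : D →+* k) (nrm σD (p ^ (n + 1)) F) =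
        nrm σ (p ^ (n + 1)) (PowerSeries.map (π : D →+* k) F) := by
      rw [nrm, nrm, map_prod]
      exact prod_congr rfl fun i _ => hred i F
    have h3 := order_en (sub (xb p (n + 1) σ)) _ hq (by rw [sub_X hx', S.order_xb])
      (PowerSeries.map (π : D →+* k) g)
    rw [← h1, hg, h2, order_nrm hq S.pow, hF] at h3
    have h4 : order (PowerSeries.map (π : D →+* k) g) ≠ ⊤ := by
      intro h5
      rw [h5, ENat.mul_top (Nat.cast_ne_zero.2 hq.ne'), ← Nat.cast_mul] at h3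
      exact ENat.natCast_ne_top _ h3
    obtain ⟨b, hb⟩ := ENat.ne_top_iff_exists.1 h4
    rw [← hb, ← Nat.cast_mul, ← Nat.cast_mul, Nat.cast_inj] at h3
    rw [← hb, Nat.eq_of_mul_eq_mul_left hq h3]
  obtain ⟨hg0, hg1⟩ := Qb_ord _ hπ g _ hgo
  obtain ⟨W, u, hW⟩ := exists_isWeierstrassFactorization hg0
  have hdeg : W.natDegree = l + 1 := hW.natDegree_eq_toNat_order_map.trans hg1
  have hsub : ∀ P : D[X], sub x (P : D⟦X⟧) = Polynomial.aeval x P := fun P => by
    rw [Wf_coe, sub_X hxm]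
  have hfix : ∀ (i : ℕ) (P : D[X]), (σD ^ i) (Polynomial.aeval x P) = Polynomial.aeval x P := by
    intro i P
    have h1 : (σD ^ i) x = x := by
      rw [AlgHom.coe_pow]
      exact iterate_fixed L.fam.inv i
    rw [← Polynomial.aeval_algHom_apply, h1]
  have hWA : Associated (F ^ p ^ (n + 1)) (Polynomial.aeval x W) := by
    refine (Wf_nrm hA _).trans ?_
    rw [← hg, hW.eq_mul, map_mul, hsub]
    exact associated_mul_unit_left _ _ (hW.isUnit.map _)
  have hW0 : Polynomial.aeval x W ≠ 0 := hWA.ne_zero_iff.1 (pow_ne_zero _ hF0)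
  obtain ⟨GF, hGF⟩ := (Fam.rho_fix S h L.fam L.red L.inv _).1 (nrm_inv hρ F)
  have hGA : Associated (F ^ p ^ (n + 1)) (sub sD (GF ^ p ^ n)) := by
    have h1 : Associated (F ^ p) (nrm (σD ^ p ^ n) p F) :=
      Wf_nrm (fun i => by rw [← pow_mul]; exact hA _) p
    rw [map_pow, hGF, pow_succ', pow_mul]
    exact h1.pow_pow
  obtain ⟨v, hv⟩ := hGA.symm.trans hWA
  obtain ⟨υ, hυ⟩ := (Fam.rho_fix S h L.fam L.red L.inv _).1 (Wf_inv (σD ^ p ^ n)
    (hGA.ne_zero_iff.1 (pow_ne_zero _ hF0)) hv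
    ((Fam.rho_fix S h L.fam L.red L.inv _).2 ⟨_, rfl⟩) (hfix _ W))
  refine ⟨W, GF, υ, hW.isDistinguishedAt, hdeg, ?_, fun j h0 hj => ?_, ?_, ?_, ?_⟩
  · have h1 : tau (algebraMap k D ζ) (Polynomial.aeval x W) = Polynomial.aeval x
        (W.comp (Polynomial.C (algebraMap k D (ζ ^ p ^ (n + 1))) * Polynomial.X)) := by
      rw [← Polynomial.aeval_algHom_apply, L.fam.eig, Polynomial.aeval_comp, map_mul,
        Polynomial.aeval_C, Polynomial.aeval_X]
      rfl
    have h2 := hWA.map (tau (algebraMap k D ζ))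
    rw [map_pow, h1] at h2
    obtain ⟨w, hw⟩ := hWA.symm.trans (hτ.pow_pow.trans h2)
    have h3 := Wf_inv (σD ^ 1) hW0 hw (hfix _ _) (hfix _ _)
    rw [pow_one] at h3
    obtain ⟨w', hw'⟩ := (Fam.fix S L.fam _).1 h3
    rw [← hdeg]
    refine Wf_eqv hW.isDistinguishedAt _ w' (sub_injective _ hπ x _ hq hxo ?_)
    rw [map_mul, hsub, hsub, hw', hw]
  · obtain ⟨c, hc⟩ := Wf_exp hp L.fam.rel.1 h0 hj
    have h1 := Wf_dvd_pow _ (hmi j) c
    rw [hc, ← hFd] at h1
    rw [← neg_sub, neg_dvd]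
    exact h1.trans ((dvd_pow_self F hq.ne').trans hWA.dvd)
  · rw [hGF, nrm]
    refine prod_congr rfl fun i _ => ?_
    rw [hFd, map_sub, pow_succ, AlgHom.mul_apply]
  · refine Wf_unit (sub sD) (by rw [sub_X hsm]; exact hsm) ?_
    rw [hυ]
    exact v.isUnit
  · refine sub_injective _ hπ sD _ hp.pos hso ?_
    rw [← Polynomial.aeval_algHom_apply, L.hx, map_mul, hυ, ← hv, mul_comm]

end Pool.Agent.MP_deef5c_ag.O
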