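import Pool.Agent.MP_deef5c_ag.O.Sf
import Pool.Agent.MP_deef5c_ag.O.Wf
import Pool.Agent.MP_deef5c_ag.O.St1
import Pool.Agent.MP_deef5c_ag.O.St2
import Pool.Agent.MP_deef5c_ag.O.Genf
import Pool.Agent.MP_deef5c_ag.O.Dim
import Pool.Agent.MP_deef5c_ag.O.TrivC

/-! One step of the upper bound. -/

open PowerSeries IsLocalRing Finset Function
open scoped Polynomial

namespace Pool.Agent.MP_deef5c_ag.O

universe u

variable {k : Type u} [Field k] {p n m α : ℕ} [Fact p.Prime] [CharP k p] {ζ : k} {σ σ' : En k}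
  {s : k⟦X⟧}

variable {D : Type u} [CommRing D] [IsDomain D] [IsLocalRing D] [CL D] [Algebra k D]

omit [IsDomain D] [IsLocalRing D] [CL D] in
theorem Step_surj (π : D →ₐ[k] k) : Surjective (π : D →+* k) :=
  fun y => ⟨algebraMap k D y, π.commutes y⟩

omit [IsDomain D] [IsLocalRing D] [CL D] in
theorem Step_mm {D₀ : Type u} [CommRing D₀] [Algebra k D₀] {π₀ : D₀ →ₐ[k] k} (φ : D₀ →ₐ[k] D)
    (π : D →ₐ[k] k) (hπ : ∀ a, π (φ a) = π₀ a) (f : D₀⟦X⟧) :
    PowerSeries.map (π : D →+* k) (PowerSeries.map (φ : D₀ →+* D) f) =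
      PowerSeries.map (π₀ : D₀ →+* k) f := by
  ext i
  simp only [coeff_map, RingHom.coe_coe, hπ]

omit [IsDomain D] [IsLocalRing D] [CL D] in
theorem Step_cst {D₀ : Type u} [CommRing D₀] [Algebra k D₀] (φ : D₀ →ₐ[k] D) (g : k⟦X⟧) :
    PowerSeries.map (φ : D₀ →+* D) (cst D₀ g) = cst D g := by
  ext i
  simp only [coeff_map, RingHom.coe_coe, AlgHom.commutes]

theorem Step_aeval {D₀ D₁ : Type u} [CommRing D₀] [CommRing D₁] (φ : D₀ →+* D₁) (x : D₀⟦X⟧)
    (P : D₀[X]) : PowerSeries.map φ (Polynomial.aeval x P) =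
      Polynomial.aeval (PowerSeries.map φ x) (P.map φ) := by
  refine Polynomial.map_aeval_eq_aeval_map (φ := φ) (ψ := PowerSeries.map φ) ?_ P x
  ext1 a
  show C (φ a) = PowerSeries.map φ (C a)
  rw [map_C]

/-- the base change of a family in which `Wf` becomes `X^(l+1)` and `P₀` vanishes is trivial -/
theorem Step_triv (S : Sp p (n + 1) m α ζ σ) (h : Desc p n σ σ' s) (S' : Sp p n m α (ζ ^ p) σ')
    {D₀ : Type u} [CommRing D₀] [IsLocalRing D₀] [CL D₀] [Algebra k D₀]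
    {π₀ : D₀ →ₐ[k] k} {σD : En D₀} {x sD : D₀⟦X⟧} (L : Lev p n α ζ σ σ' s π₀ σD x sD)
    {N l : ℕ} {G : k⟦X⟧} {Wf P₀ : D₀[X]} {Y : D₀⟦X⟧} (H : NF p n N π₀ σD x sD G Wf P₀ Y)
    (φ : D₀ →ₐ[k] D) (π : D →ₐ[k] k) (hπ : ∀ a, π (φ a) = π₀ a)
    (hW : Wf.map (φ : D₀ →+* D) = Polynomial.X ^ (l + 1)) (hP : P₀.map (φ : D₀ →+* D) = 0) :
    Triv π (xb p (n + 1) σ) (PowerSeries.map (φ : D₀ →+* D) x) := by
  have hp : 0 < p := (Fact.out : p.Prime).pos
  have F := Fam.map S L.fam φ π hπ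
  have hs : PowerSeries.map (π : D →+* k) (PowerSeries.map (φ : D₀ →+* D) sD) = s := by
    rw [Step_mm φ π hπ, L.red]
  have hm0 : constantCoeff sD ∈ maximalIdeal D₀ :=
    Qb_mem (π₀ : D₀ →+* k) (Step_surj π₀) sD p hp (by rw [L.red, Desc.order_s S h])
  have hm : constantCoeff (PowerSeries.map (φ : D₀ →+* D) sD) ∈ maximalIdeal D :=
    Qb_mem (π : D →+* k) (Step_surj π) _ p hp (by rw [hs, Desc.order_s S h])
  have hJ : ∀ g : k⟦X⟧, PowerSeries.map (φ : D₀ →+* D) (sub sD (cst D₀ g)) =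
      sub (PowerSeries.map (φ : D₀ →+* D) sD) (cst D g) := fun g => by
    rw [map_en (φ : D₀ →+* D) (sub sD) (sub (PowerSeries.map (φ : D₀ →+* D) sD))
      (by rw [sub_X hm0, sub_X hm]) (by rwa [sub_X hm]), Step_cst]
  have hx : sub (PowerSeries.map (φ : D₀ →+* D) sD) (cst D (xb p n σ')) =
      PowerSeries.map (φ : D₀ →+* D) x := by
    rw [← hJ, L.hx]
  have hσ : constantCoeff (PowerSeries.map (φ : D₀ →+* D) (σD X)) ∈ maximalIdeal D :=
    Qb_mem (π : D →+* k) (Step_surj π) _ 1 one_pos (by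
      rw [Step_mm φ π hπ, L.fam.red, order_one (pow_pos hp _) S.pow, Nat.cast_one])
  have L' := lev_of S h S' F hs hx
  have he : sub (PowerSeries.map (φ : D₀ →+* D) sD) (cst D (xb p n σ' ^ (N * (l + 2)))) =
      PowerSeries.map (φ : D₀ →+* D) (Polynomial.aeval x ((Polynomial.X * Wf) ^ N)) := by
    rw [map_pow, map_pow, hx, Step_aeval, Polynomial.map_pow, Polynomial.map_mul, hW,
      Polynomial.map_X, map_pow, map_mul, map_pow, Polynomial.aeval_X]
    ring
  refine triv_conc S h S' L' (xb p n σ' ^ (N * (l + 2))) (xb p n σ' ^ ((l + 1) * (p * N)) * G)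
    (pow_ne_zero _ fun h0 => ?_) (PowerSeries.map (φ : D₀ →+* D) Y) ?_ ?_
  · have h1 := S'.order_xb
    rw [h0, order_zero] at h1
    exact ENat.top_ne_natCast _ h1
  · rw [he, ← map_add, ← H.rho]
    exact (map_en_pow (φ : D₀ →+* D) σD _ (sub_X hσ).symm (by rwa [sub_X hσ]) _ Y).symm
  · have h1 := congrArg (PowerSeries.map (φ : D₀ →+* D)) H.art
    have h2 : PowerSeries.map (φ : D₀ →+* D) (Polynomial.aeval x Wf) =
        PowerSeries.map (φ : D₀ →+* D) x ^ (l + 1) := by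
      rw [Step_aeval, hW, map_pow, Polynomial.aeval_X]
    have h3 : PowerSeries.map (φ : D₀ →+* D) (Polynomial.aeval x P₀) = 0 := by
      rw [Step_aeval, hP, map_zero]
    rw [he]
    generalize Polynomial.aeval x ((Polynomial.X * Wf) ^ N) = a at h1 ⊢
    generalize Polynomial.aeval x Wf = b at h1 h2
    rw [map_add, h3, add_zero, map_sub, map_mul, map_mul, hJ, map_pow, map_pow, map_pow, h2,
      ← pow_mul] at h1
    rw [h1, map_mul, map_mul, map_pow, map_pow, hx]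

/-- `sf`, `exists_wf`, `exists_nf`, `nf_eqv`, `genf` with `Ω = AlgebraicClosure (FractionRing D)`, then
`dim_cut` for `T` the coefficients of `P₀` and the non-leading coefficients of `Wf`.  Over `D' = D ⧸ Q`
(`local_quot`, `CL.of_surj`, `exists_piAlg_quot`, `Fam.map`, `lev_of`) `Wf` becomes `X^(l+1)` and `P₀`
becomes `0`; apply `triv_conc` with `e = x'^(N(l+2))`, `g = x'^((l+1) p N) G`. -/
theorem step [IsAlgClosed k] (S : Sp p (n + 1) m α ζ σ) (h : Desc p n σ σ' s)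
    (S' : Sp p n m α (ζ ^ p) σ') {w w' : ℕ} (hw : IsW p (n + 1) σ w) (hw' : IsW p n σ' w')
    {π : D →ₐ[k] k} {σD : En D} {x sD : D⟦X⟧} (L : Lev p n α ζ σ σ' s π σD x sD) :
    ∃ d : ℕ, d + w' / m ≤ w / m ∧ TrivCut π d (xb p (n + 1) σ) x := by
  obtain ⟨N, Y₀, W, G, κ, u', l, c₀, z, r₀, A, O, hr, hG, hl, hw1, hw2⟩ := sf S h S' hw hw'
  obtain ⟨Wf, GF, υ, B⟩ := exists_wf S h S' L hl
  obtain ⟨P₀, Y, H, h1, h2⟩ := exists_nf S h S' L A B
  have hE := nf_eqv S h S' L A B H h1 h2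
  have hι : Injective (IsScalarTower.toAlgHom k D (AlgebraicClosure (FractionRing D))) := by
    intro a b hab
    have h3 : algebraMap (FractionRing D) (AlgebraicClosure (FractionRing D))
        (algebraMap D (FractionRing D) a) = algebraMap (FractionRing D)
          (AlgebraicClosure (FractionRing D)) (algebraMap D (FractionRing D) b) := by
      rw [← IsScalarTower.algebraMap_apply, ← IsScalarTower.algebraMap_apply]
      exact hab
    exact IsFractionRing.injective D (FractionRing D) ((algebraMap (FractionRing D) _).injective h3)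
  obtain ⟨P, hc, hP1, hP2⟩ := genf S h S' L B H hE O hr hG hw1 hw2 _ hι
  have hfin : ((fun i => P₀.coeff i) '' Set.Iic P₀.natDegree ∪
      (fun i => Wf.coeff i) '' Set.Iio (l + 1)).Finite :=
    ((Set.finite_Iic _).image _).union ((Set.finite_Iio _).image _)
  obtain ⟨Q, hQ, hTQ, hd⟩ := dim_cut π _ hι P _ hfin (by
      rintro a (⟨i, -, rfl⟩ | ⟨i, hi, rfl⟩)
      · have h3 := congrArg (fun R : k[X] => R.coeff i) H.red
        simp only [Polynomial.coeff_map, Polynomial.coeff_zero] at h3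
        exact h3
      · exact (pi_eq_zero_iff (π : D →+* k) (Step_surj π) _).2
          (B.dist.mem (by rw [B.deg]; exact hi))) (by
      rintro a (⟨i, -, rfl⟩ | ⟨i, -, rfl⟩)
      · exact hP2 i
      · exact hP1 i)
  haveI := local_quot Q hQ.ne_top
  haveI : CL (D ⧸ Q) := CL.of_surj (Ideal.Quotient.mk Q) Ideal.Quotient.mk_surjective
  obtain ⟨π', hπ'⟩ := exists_piAlg_quot π Q hQ.ne_top
  refine ⟨P.card, hc, D ⧸ Q, inferInstance, inferInstance, inferInstance, inferInstance,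
    inferInstance, Ideal.Quotient.mkₐ k Q, π', Ideal.Quotient.mk_surjective, hπ', hd, ?_⟩
  refine Step_triv (l := l) S h S' L H _ π' hπ' ?_ ?_
  · have hD : Wf.IsDistinguishedAt Q :=
      ⟨⟨fun {i} hi => hTQ (Or.inr ⟨i, by rwa [B.deg] at hi, rfl⟩)⟩, B.dist.monic⟩
    rw [← B.deg]
    exact hD.map_eq_X_pow
  · ext i
    rw [Polynomial.coeff_map, Polynomial.coeff_zero]
    rcases le_or_gt i P₀.natDegree with hi | hi
    · exact Ideal.Quotient.eq_zero_iff_mem.2 (hTQ (Or.inl ⟨i, hi, rfl⟩))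
    · rw [Polynomial.coeff_eq_zero_of_natDegree_lt hi, map_zero]

end Pool.Agent.MP_deef5c_ag.O
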