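import Pool.Agent.MP_deef5c_ag.O.Grp
import Pool.Agent.MP_deef5c_ag.O.Main
import Pool.Agent.MP_deef5c_ag.O.Stm

/-! Vanishing of the obstruction implies lifting to characteristic zero. -/

open PowerSeries IsLocalRing Finset Function
open scoped Polynomial

namespace Pool.Agent.MP_deef5c_ag.O

universe u

variable {k : Type u} [Field k] (p : ℕ) [Fact p.Prime] [CharP k p] {G : Type*} [Group G] [Finite G]

theorem ThreeOne_one (n : ℕ) {σ : En k} (h : σ ^ p ^ n = 1) : coeff 1 (σ X) = 1 := by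
  rcases eq_or_ne σ 1 with rfl | h1
  · simp
  obtain ⟨l, hl, ho⟩ := exists_jump p n h h1
  have := coeff_of_lt_order (φ := σ X - X) 1 (by rw [ho]; exact_mod_cast Nat.succ_lt_succ hl)
  rwa [map_sub, coeff_one_X, sub_eq_zero] at this

theorem ThreeOne_dvd {a b : ℕ} (ha : 0 < a) (h : (a : ℕ∞) ∣ (b : ℕ∞)) : a ∣ b := by
  obtain ⟨d, hd⟩ := h
  induction d with
  | top => simp [ENat.mul_top (Nat.cast_ne_zero.2 ha.ne')] at hd
  | coe d => exact ⟨d, by exact_mod_cast hd⟩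

/-- Take `σ₀, τ₀, α` from `grp`, `Φ, Ψ` from `lin`, `σ = Ψ * ρ σ₀ * Φ`; then `Sp p n m α ζ σ` holds: in the
non-cyclic case `n > 0` may be assumed (else `G` is generated by `τ₀`), `exists_jump`, `lead` give
`ζ^(l+1) = α ζ`, so `m ∣ l + 1` gives `α ζ = 1`, and `ζ^(p^n) = ζ` since `α^p = α`.  `main_sp` gives
`σO`, `z`; lift `Φ X` to `t ∈ O⟦X⟧`, `ΦO = sub t` is invertible (`exists_inv`), and
`ΦO σO ΦO⁻¹`, `ΦO (tau z) ΦO⁻¹` are units of `En O` (`AlgEquiv.algHomUnitsEquiv`); use `hom_of_rel`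
(`σ₀^i τ₀^j = 1` gives `ζ^j = 1` by `coeff_one_mul`) and `map_en`. -/
theorem three_one [IsAlgClosed k] (hG : ∀ P : Sylow p G, IsCyclic P)
    (ρ : G →* (k⟦X⟧ ≃ₐ[k] k⟦X⟧)) (hρ : Injective ρ)
    (h : IsCyclic G ∨ ∀ σ : G, orderOf σ = ordProj[p] (Nat.card G) →
      ((ordCompl[p] (Nat.card G) : ℕ) : ℕ∞) ∣ order (ρ σ X - X)) :
    ∃ (O : Type u) (_ : CommRing O) (_ : IsDomain O) (_ : IsDiscreteValuationRing O)
      (_ : IsAdicComplete (maximalIdeal O) O) (_ : CharZero O) (π : O →+* k),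
      Surjective π ∧ LocLifts ρ π := by
  obtain ⟨⟨σ₀, hσ₀⟩, H⟩ := grp p hG ρ hρ
  obtain ⟨τ₀, α, hτm, hrel, hprim, hgen, hcyc⟩ := H σ₀ hσ₀
  have hm : 0 < ordCompl[p] (Nat.card G) := Nat.ordCompl_pos p Nat.card_pos.ne'
  replace h := h.imp_right fun h => h σ₀ hσ₀
  generalize ordCompl[p] (Nat.card G) = m at *
  generalize (Nat.card G).factorization p = n at *
  have hq : 0 < p ^ n := pow_pos (Fact.out : p.Prime).pos n
  have hσq : σ₀ ^ p ^ n = 1 := hσ₀ ▸ pow_orderOf_eq_one σ₀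
  let r : G →* En k := (Units.coeHom _).comp
    ((AlgEquiv.algHomUnitsEquiv k k⟦X⟧).symm.toMonoidHom.comp ρ)
  have hr : ∀ g f, r g f = ρ g f := fun _ _ => rfl
  obtain ⟨Φ, Ψ, h1, h2, hΦ, hlin⟩ := lin (τ := r τ₀) hm (by rw [← map_pow, hτm, map_one]) hprim
  rw [hr] at hlin
  generalize coeff 1 (ρ τ₀ X) = ζ at *
  have h1' : ∀ f, Φ (Ψ f) = f := fun f => DFunLike.congr_fun h1 f
  have h2' : ∀ f, Ψ (Φ f) = f := fun f => DFunLike.congr_fun h2 f
  let c : G →* En k :=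
    { toFun := fun g => Ψ * r g * Φ
      map_one' := by rw [map_one, mul_one, h2]
      map_mul' := fun a b => by
        rw [map_mul]
        exact AlgHom.ext fun f => by simp only [AlgHom.mul_apply, h1'] }
  have hc : ∀ g f, c g f = Ψ (ρ g (Φ f)) := fun _ _ => rfl
  have hci : Injective c := fun a b e => hρ (AlgEquiv.ext fun f => by
    have := congrArg Φ (DFunLike.congr_fun e (Ψ f))
    simpa only [hc, h1'] using this)
  have hcτ : c τ₀ = tau ζ := by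
    change Ψ * r τ₀ * Φ = _
    rw [mul_assoc, hlin, ← mul_assoc, h2, one_mul]
  have hcq : ∀ i, (c σ₀ ^ i) ^ p ^ n = 1 := fun i => by
    rw [← pow_mul, mul_comm, pow_mul, ← map_pow, hσq, map_one, one_pow]
  have hc1 : c σ₀ ^ p ^ n = 1 := by simpa using hcq 1
  have hcrel : tau ζ * c σ₀ = c σ₀ ^ α * tau ζ := by
    rw [← hcτ, ← map_pow, ← map_mul, ← map_mul, hrel]
  have hτ0 : ∀ a : k, constantCoeff (tau a X) = 0 := fun a => by simp [tau_X]
  have hτ1 : ∀ a : k, coeff 1 (tau a X) = a := fun a => by simp [tau_X]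
  have S : Sp p n m α ζ (c σ₀) := by
    refine ⟨(orderOf_injective c hci σ₀).trans hσ₀, hm, hprim, hcrel, ?_⟩
    by_cases hcy : IsCyclic G
    · exact Or.inl (by rw [hcyc hcy, Nat.cast_one])
    have hne : c σ₀ ≠ 1 := fun e => hcy ⟨τ₀, fun g => by
      obtain ⟨i, j, rfl⟩ := hgen g
      exact ⟨j, by simp [(map_eq_one_iff c hci).1 e]⟩⟩
    obtain ⟨l, hl, ho⟩ := exists_jump p n hc1 hne
    have h3 := lead hl ho (hτ0 ζ) hcrel
    have h4 := h.resolve_left hcy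
    rw [← hr, ← order_conj h1 h2 hΦ (Lau_cc one_pos
      (order_one hq (by rw [← map_pow, hσq, map_one])))] at h4
    rw [hτ1, (hprim.pow_eq_one_iff_dvd _).2 (ThreeOne_dvd hm (ho ▸ h4))] at h3
    have h5 : (α : k) ^ p ^ n = α := map_natCast (iterateFrobenius k p n) α
    exact Or.inr (by rw [← h5, ← mul_pow, ← h3, one_pow])
  obtain ⟨O, _, _, _, _, _, π, z, σO, hπ, hz, hπz, hσO, hR⟩ := main_sp S
  have : CL O := ⟨inferInstance, inferInstance⟩
  have hΦ0 := Lau_cc one_pos hΦ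
  obtain ⟨t, ht⟩ := PowerSeries.map_surjective π hπ (Φ X)
  have ht' : PowerSeries.map π (sub t X) = Φ X := by
    rw [sub_X ((pi_eq_zero_iff π hπ _).1 (by
      rw [← hΦ0, ← ht, ← coeff_zero_eq_constantCoeff_apply, ← coeff_zero_eq_constantCoeff_apply,
        coeff_map])), ht]
  obtain ⟨Ψ', g1, g2⟩ := exists_inv π hπ (sub t) (by rw [ht', hΦ])
  have g3 := map_en π (sub t) Φ ht' (by simp [hΦ0])
  obtain ⟨φ, hφσ, hφτ⟩ := hom_of_rel σ₀ τ₀ (Units.ofPowEqOne σO _ hR.1 hq.ne')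
    (Units.ofPowEqOne (tau z) m (by rw [tau_pow, hz, tau_one]) hm.ne') (p ^ n) m α hq hm hσq hτm
    (Units.pow_ofPowEqOne _ _) (Units.pow_ofPowEqOne _ _) hrel (Units.ext hR.2) hgen fun i j e => by
      have e1 := congrArg (fun g => coeff 1 (c g X)) e
      simp only [map_mul, map_pow, map_one, hcτ, tau_pow] at e1
      rw [coeff_one_mul (Lau_cc one_pos (order_one hq (hcq i))) (hτ0 _), ThreeOne_one p n (hcq i),
        hτ1, one_mul, AlgHom.one_apply, coeff_one_X, hprim.pow_eq_one_iff_dvd] at e1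
      obtain ⟨j', rfl⟩ := e1
      rw [pow_mul, hτm, one_pow, mul_one] at e
      exact ⟨hσ₀ ▸ orderOf_dvd_of_pow_eq_one e, dvd_mul_right _ _⟩
  have hφ : ∀ g f, PowerSeries.map π ((φ g : En O) f) = c g (PowerSeries.map π f) := fun g f => by
    obtain ⟨i, j, rfl⟩ := hgen g
    simp only [map_mul, map_pow, hφσ, hφτ, hcτ, Units.val_mul, Units.val_pow_eq_pow_val,
      Units.val_ofPowEqOne, AlgHom.mul_apply, tau_pow]
    rw [map_en_pow π σO (c σ₀) hσO (by simp [Lau_cc one_pos (order_one hq hc1)]), map_tau, map_pow,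
      hπz]
  refine ⟨O, _, ‹_›, ‹_›, ‹_›, ‹_›, π, hπ, (AlgEquiv.algHomUnitsEquiv O O⟦X⟧).toMonoidHom.comp
    ((MulAut.conj (⟨sub t, Ψ', g1, g2⟩ : (En O)ˣ)).toMonoidHom.comp φ), fun g f => ?_⟩
  change PowerSeries.map π (sub t ((φ g : En O) (Ψ' f))) = _
  rw [g3, hφ, hc, h1', ← g3]
  exact congrArg (fun x => ρ g (PowerSeries.map π x)) (DFunLike.congr_fun g1 f)

end Pool.Agent.MP_deef5c_ag.O
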