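import Pool.Agent.MP_deef5c_ag.O.TrivAX

/-! Comparison of two integral models of an Artin-Schreier cover. -/

open PowerSeries IsLocalRing Finset Function
open scoped Polynomial

namespace Pool.Agent.MP_deef5c_ag.O

universe u

/-- Let `κ : B[T] → A`, `T ↦ Y`, and `κ₀ : B[T] → A₀`.  `ker κ` is generated by the monic
`T^p - e^(p-1) T - g` (a remainder of degree `< p` vanishing at `Y` vanishes at the `p` points
`Y + i e`), so `ker κ ≤ ker κ₀`.  By `interp`, `e^(p-1) z = κ a`; put `Ψ₀ z = κ₀ a / j₀ e^(p-1)` in the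
fraction field of `A₀`, a ring map.  `Ψ₀ z` is integral over `A₀` (`z` is a root of `∏ (T - ρ^i z)`) and
`ϖ^M' Ψ₀ z ∈ A₀`; as `ϖ` is prime, `Ψ₀ z ∈ A₀` (if `ϖ^M' w = u` with `M' > 0`, the integral equation
gives `ϖ ∣ u^d`). -/
theorem triv_abs (p : ℕ) [Fact p.Prime] {A A₀ B : Type u} [CommRing A] [IsDomain A] [CharP A p]
    [CommRing A₀] [IsDomain A₀] [CommRing B] (j : B →+* A) (hj : Injective j) (j₀ : B →+* A₀)
    (ρ : A →+* A) (hρ : ∀ a, (ρ ^ p) a = a) (hfix : ∀ a, ρ a = a ↔ ∃ b, j b = a)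
    (Y : A) (Y₀ : A₀) (e g : B) (he : e ≠ 0) (hY : ρ Y = Y + j e)
    (hg : Y ^ p - j e ^ (p - 1) * Y = j g) (hg₀ : Y₀ ^ p - j₀ e ^ (p - 1) * Y₀ = j₀ g)
    (ϖ : A₀) (hϖ : Prime ϖ) (M : ℕ) (hM : j₀ e ∣ ϖ ^ M) :
    ∃ Ψ : A →+* A₀, (∀ b, Ψ (j b) = j₀ b) ∧ Ψ Y = Y₀ := by
  have hfj : ∀ b, ρ (j b) = j b := fun b => (hfix _).2 ⟨b, rfl⟩
  have hker := TrivA.Aux.ker_le p j hj j₀ ρ hfj Y Y₀ e g he hY hg hg₀
  have heq : ∀ a a' : B[X], a.eval₂ j Y = a'.eval₂ j Y → a.eval₂ j₀ Y₀ = a'.eval₂ j₀ Y₀ := by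
    intro a a' h
    have := hker (a - a') (by rw [Polynomial.eval₂_sub, h, sub_self])
    rwa [Polynomial.eval₂_sub, sub_eq_zero] at this
  set s : B := e ^ (p - 1) with hs
  have hdvd : j₀ s ∣ ϖ ^ (M * (p - 1)) := by
    rw [hs, map_pow, pow_mul]
    exact pow_dvd_pow_of_dvd hM _
  have hs0 : j₀ s ≠ 0 := by
    intro h
    rw [h, zero_dvd_iff] at hdvd
    exact pow_ne_zero _ hϖ.ne_zero hdvd
  have hex : ∀ z : A, ∃ (w : A₀) (a : B[X]), a.eval₂ j Y = j s * z ∧ a.eval₂ j₀ Y₀ = j₀ s * w := by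
    intro z
    obtain ⟨a', -, h1, h2⟩ := interp p ρ hρ Y (j e) (hfj e) hY z
    obtain ⟨a, rfl⟩ := (Polynomial.mem_lifts _).1 (TrivA.Aux.lift_fix j ρ hfix h1)
    rw [Polynomial.eval_map, ← map_pow] at h2
    obtain ⟨Q, hQ, hQz⟩ := TrivA.Aux.integral p j ρ hρ hfix z
    have h3 := hker ((Q.scaleRoots s).comp a) (by
      rw [Polynomial.eval₂_comp, h2]
      exact Polynomial.scaleRoots_eval₂_eq_zero j hQz)
    rw [Polynomial.eval₂_comp, ← Polynomial.eval_map,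
      Polynomial.map_scaleRoots _ _ _ (by rw [hQ.leadingCoeff, map_one]; exact one_ne_zero)] at h3
    obtain ⟨w, hw⟩ := TrivA.Aux.dvd_root hϖ (hQ.map j₀) hdvd h3
    exact ⟨w, a, h2, hw⟩
  choose Ψ a ha ha₀ using hex
  have huniq : ∀ (z : A) (w : A₀) (b : B[X]), b.eval₂ j Y = j s * z → b.eval₂ j₀ Y₀ = j₀ s * w →
      Ψ z = w := by
    intro z w b h1 h2
    have := heq (a z) b (by rw [ha, h1])
    rw [ha₀, h2] at this
    exact mul_left_cancel₀ hs0 this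
  have hj' : ∀ b, Ψ (j b) = j₀ b := fun b => huniq _ _ (Polynomial.C (s * b)) (by simp) (by simp)
  refine ⟨{ toFun := Ψ, map_one' := ?_, map_mul' := ?_, map_zero' := ?_, map_add' := ?_ }, hj', ?_⟩
  · simpa using hj' 1
  · intro z z'
    have := heq (Polynomial.C s * a (z * z')) (a z * a z') (by
      simp only [Polynomial.eval₂_mul, Polynomial.eval₂_C, ha]; ring)
    simp only [Polynomial.eval₂_mul, Polynomial.eval₂_C, ha₀] at this
    apply mul_left_cancel₀ (mul_ne_zero hs0 hs0)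
    linear_combination this
  · simpa using hj' 0
  · intro z z'
    refine huniq _ _ (a z + a z') ?_ ?_
    · rw [Polynomial.eval₂_add, ha, ha, mul_add]
    · rw [Polynomial.eval₂_add, ha₀, ha₀, mul_add]
  · exact huniq _ _ (Polynomial.C s * Polynomial.X) (by simp) (by simp)

end Pool.Agent.MP_deef5c_ag.O
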