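import Pool.Agent.MP_deef5c_ag.O.Abs

/-! Auxiliary facts on polynomials for the comparison of integral models. -/

open Polynomial Finset Function

namespace Pool.Agent.MP_deef5c_ag.O

universe u

namespace TrivA.Aux

theorem pow_dvd {A : Type u} [CommRing A] [IsDomain A] {ϖ : A} (hϖ : Prime ϖ) {Q : A[X]}
    (hQ : Q.Monic) (M : ℕ) : ∀ u : A, (Q.scaleRoots (ϖ ^ M)).eval u = 0 → ϖ ^ M ∣ u := by
  induction M with
  | zero => intro u _; simp
  | succ M ih =>
    intro u hu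
    rw [pow_succ, scaleRoots_mul] at hu
    have hR : (Q.scaleRoots (ϖ ^ M)).Monic := (monic_scaleRoots_iff _).mpr hQ
    set R := Q.scaleRoots (ϖ ^ M) with hRdef
    have h1 : ϖ ∣ u := by
      have h2 := hu
      rw [eval_eq_sum_range, natDegree_scaleRoots, Finset.sum_range_succ,
        coeff_scaleRoots_natDegree, hR.leadingCoeff, one_mul, add_eq_zero_iff_neg_eq] at h2
      refine hϖ.dvd_of_dvd_pow (n := R.natDegree) ?_
      rw [← h2, dvd_neg]
      refine Finset.dvd_sum fun i hi => ?_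
      rw [coeff_scaleRoots]
      have := Finset.mem_range.mp hi
      exact Dvd.dvd.mul_right (Dvd.dvd.mul_left (dvd_pow_self _ (by omega)) _) _
    obtain ⟨u₁, rfl⟩ := h1
    rw [scaleRoots_eval_mul, mul_eq_zero] at hu
    have h3 := ih u₁ (hu.resolve_left (pow_ne_zero _ hϖ.ne_zero))
    rw [pow_succ']
    exact mul_dvd_mul_left _ h3

theorem dvd_root {A : Type u} [CommRing A] [IsDomain A] {ϖ : A} (hϖ : Prime ϖ) {Q : A[X]}
    (hQ : Q.Monic) {M : ℕ} {E u : A} (hE : E ∣ ϖ ^ M) (hu : (Q.scaleRoots E).eval u = 0) :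
    E ∣ u := by
  obtain ⟨t, ht⟩ := hE
  have ht0 : t ≠ 0 := by
    rintro rfl
    exact pow_ne_zero M hϖ.ne_zero (by simpa using ht)
  have h1 := pow_dvd hϖ hQ M (t * u) (by
    rw [ht, scaleRoots_mul, scaleRoots_eval_mul, hu, mul_zero])
  rw [ht, mul_comm] at h1
  exact (mul_dvd_mul_iff_left ht0).mp h1

theorem lift_fix {A B : Type u} [CommRing A] [CommRing B] (j : B →+* A) (ρ : A →+* A)
    (hfix : ∀ a, ρ a = a ↔ ∃ b, j b = a) {a : A[X]} (ha : a.map ρ = a) : a ∈ lifts j := by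
  rw [lifts_iff_coeff_lifts]
  intro n
  refine (hfix _).1 ?_
  rw [← coeff_map, ha]

theorem ker_le (p : ℕ) [Fact p.Prime] {A A₀ B : Type u} [CommRing A] [IsDomain A] [CharP A p]
    [CommRing A₀] [CommRing B] (j : B →+* A) (hj : Injective j) (j₀ : B →+* A₀)
    (ρ : A →+* A) (hρ : ∀ b, ρ (j b) = j b)
    (Y : A) (Y₀ : A₀) (e g : B) (he : e ≠ 0) (hY : ρ Y = Y + j e)
    (hg : Y ^ p - j e ^ (p - 1) * Y = j g) (hg₀ : Y₀ ^ p - j₀ e ^ (p - 1) * Y₀ = j₀ g)
    (a : B[X]) (ha : a.eval₂ j Y = 0) : a.eval₂ j₀ Y₀ = 0 := by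
  have hp : 1 < p := (Fact.out : p.Prime).one_lt
  have : Nontrivial B := j.domain_nontrivial
  let P : B[X] := X ^ p - (C (e ^ (p - 1)) * X + C g)
  have hlt : (C (e ^ (p - 1)) * X + C g : B[X]).degree < (p : ℕ) :=
    lt_of_le_of_lt degree_linear_le (by exact_mod_cast hp)
  have hP : P.Monic := monic_X_pow_sub hlt
  have hPd : P.degree = p := by
    rw [degree_sub_eq_left_of_degree_lt] <;> rw [degree_X_pow]
    exact hlt
  have hPY : P.eval₂ j Y = 0 := by
    simp only [P, eval₂_sub, eval₂_add, eval₂_mul, eval₂_C, eval₂_X, eval₂_X_pow]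
    rw [← hg, map_pow]; ring
  have hPY₀ : P.eval₂ j₀ Y₀ = 0 := by
    simp only [P, eval₂_sub, eval₂_add, eval₂_mul, eval₂_C, eval₂_X, eval₂_X_pow]
    rw [← hg₀, map_pow]; ring
  have hdiv := modByMonic_add_div a P
  have hr : (a %ₘ P).eval₂ j Y = 0 := by
    have := congrArg (eval₂ j Y) hdiv
    rwa [eval₂_add, eval₂_mul, hPY, zero_mul, add_zero, ha] at this
  have hr0 : a %ₘ P = 0 := by
    by_contra hne
    have hd : (a %ₘ P).natDegree < p := by
      have := degree_modByMonic_lt a hP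
      rw [hPd] at this
      exact (natDegree_lt_iff_degree_lt hne).mpr this
    have he' : j e ≠ 0 := (map_ne_zero_iff j hj).mpr he
    have h0 : (a %ₘ P).map j = 0 := by
      refine eq_zero_of_natDegree_lt_card_of_eval_eq_zero _
        (f := fun i : Fin p => Y + ((i : ℕ) : A) * j e) ?_ ?_ ?_
      · intro i i' h
        have h1 : ((i : ℕ) : A) = ((i' : ℕ) : A) := mul_right_cancel₀ he' (add_left_cancel h)
        exact Fin.ext (CharP.natCast_injOn_Iio A p i.2 i'.2 h1)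
      · intro i
        rw [eval_map, ← Abs.Aux.pow_shift ρ (hρ e) hY i]
        have h1 := congrArg (ρ ^ (i : ℕ)) hr
        rw [map_zero, hom_eval₂] at h1
        have h2 : (ρ ^ (i : ℕ)).comp j = j := RingHom.ext fun b => Abs.Aux.pow_fix ρ (hρ b) i
        rwa [h2] at h1
      · rw [Fintype.card_fin]
        exact lt_of_le_of_lt natDegree_map_le hd
    exact hne ((Polynomial.map_eq_zero_iff hj).mp h0)
  rw [← hdiv, hr0, zero_add, eval₂_mul, hPY₀, zero_mul]

theorem integral (p : ℕ) [Fact p.Prime] {A B : Type u} [CommRing A] [CommRing B] (j : B →+* A)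
    (ρ : A →+* A) (hρ : ∀ a, (ρ ^ p) a = a) (hfix : ∀ a, ρ a = a ↔ ∃ b, j b = a) (z : A) :
    ∃ Q : B[X], Q.Monic ∧ Q.eval₂ j z = 0 := by
  have hp : 0 < p := (Fact.out : p.Prime).pos
  let Q : A[X] := ∏ i ∈ range p, (X - C ((ρ ^ i) z))
  have hQ : Q.Monic := monic_prod_of_monic _ _ fun i _ => monic_X_sub_C _
  have hm : Q.map ρ = Q := by
    simp only [Q, Polynomial.map_prod, Polynomial.map_sub, map_X, map_C,
      ← Abs.Aux.pow_succ_apply]
    obtain ⟨q, rfl⟩ : ∃ q, p = q + 1 := ⟨p - 1, by omega⟩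
    rw [Finset.prod_range_succ, Finset.prod_range_succ' (fun i => X - C ((ρ ^ i) z)), hρ]
    rfl
  obtain ⟨Q', h1, -, h2⟩ := lifts_and_natDegree_eq_and_monic (lift_fix j ρ hfix hm) hQ
  refine ⟨Q', h2, ?_⟩
  rw [← eval_map, h1, eval_prod]
  exact Finset.prod_eq_zero (Finset.mem_range.mpr hp) (by simp)

end TrivA.Aux

end Pool.Agent.MP_deef5c_ag.O
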