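import Pool.Agent.MP_deef5c_ag.O.Step

/-! The upper bound for families in characteristic p. -/

open PowerSeries IsLocalRing Finset Function
open scoped Polynomial

namespace Pool.Agent.MP_deef5c_ag.O

universe u

theorem Up_mem {k D : Type u} [Field k] [CommRing D] [IsLocalRing D] [Algebra k D] (π : D →ₐ[k] k)
    {f : D⟦X⟧} (h : constantCoeff (PowerSeries.map (π : D →+* k) f) = 0) :
    constantCoeff f ∈ maximalIdeal D :=
  (pi_eq_zero_iff (π : D →+* k) (fun c => ⟨_, π.commutes c⟩) _).1 h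

/-- Induction on `n`.  `triv_zero`; for the step use `exists_desc`, `exists_isW`, `Fam.desc`, the
induction hypothesis (giving `φ : D → D'` and `Φ'`), `Fam.map`, `lev_of` with
`sD' = sub (map φ sD) (Φ' X)`, then `step` over `D'` and compose the surjections. -/
theorem up {k : Type u} [Field k] [IsAlgClosed k] {p m α : ℕ} [Fact p.Prime] [CharP k p] (n : ℕ) :
    ∀ {ζ : k} {σ : En k} (_ : Sp p n m α ζ σ) {w : ℕ} (_ : IsW p n σ w) (D : Type u) [CommRing D]
      [IsDomain D] [IsLocalRing D] [CL D] [Algebra k D] (π : D →ₐ[k] k) (σD : En D) (x : D⟦X⟧)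
      (_ : Fam p n α ζ σ π σD x), TrivCut π (w / m) (xb p n σ) x := by
  induction n with
  | zero =>
    intro ζ σ S w _ D _ _ _ _ _ π σD x F
    refine ⟨D, _, ‹_›, ‹_›, ‹_›, _, AlgHom.id k D, π, surjective_id, fun _ => rfl,
      le_add_of_nonneg_right (Nat.cast_nonneg _), ?_⟩
    exact triv_zero S F
  | succ n ih =>
    intro ζ σ S w hw D _ _ _ _ _ π σD x F
    obtain ⟨σ', s, h, S'⟩ := exists_desc S
    obtain ⟨w', hw'⟩ := exists_isW S'
    obtain ⟨σD', x', sD, F', hs, -, hx⟩ := F.desc S h S'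
    obtain ⟨D', _, _, _, _, _, φ, π', h1, h2, h3, Φ, h4, h5⟩ := ih S' hw' D π σD' x' F'
    have s0 : constantCoeff s = 0 := by
      refine coeff_zero_eq_constantCoeff_apply s ▸ coeff_of_lt_order 0 ?_
      rw [h.order_s S]
      exact_mod_cast (Fact.out : p.Prime).pos
    have s1 : constantCoeff s ∈ maximalIdeal k := s0 ▸ zero_mem _
    have e : PowerSeries.map (π' : D' →+* k) (PowerSeries.map (φ : D →+* D') sD) = s :=
      hs ▸ PowerSeries.ext fun i => h2 _
    have t0 := Up_mem π' (e ▸ s0)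
    have t1 := Up_mem π (hs ▸ s0)
    have t2 := Up_mem π' (h4 ▸ constantCoeff_X)
    have t3 := (sub_X t0).symm ▸ t0
    have L := lev_of S h S' (F.map S φ π' h2) (sD := sub (PowerSeries.map (φ : D →+* D') sD) (Φ X))
      (by rw [map_en _ _ (sub s) (by rw [sub_X t0, sub_X s1, e]) ((sub_X s1).symm ▸ s1), h4,
        sub_X s1])
      (by
        rw [← hx, map_en _ _ _ (by rw [sub_X t0, sub_X t1]) t3, ← h5]
        exact (DFunLike.congr_fun (eq_sub (_ * Φ) (en_mem _ t3 t2)) _).symm)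
    obtain ⟨d, hd, D'', _, _, _, _, _, φ', π'', g1, g2, g3, g4⟩ := step S h S' hw hw' L
    refine ⟨D'', _, ‹_›, ‹_›, ‹_›, _, φ'.comp φ, π'', g1.comp h1, fun a => (g2 _).trans (h2 a),
      h3.trans ((add_le_add_left g3 _).trans ?_), g4⟩
    rw [add_assoc, ← Nat.cast_add]
    exact add_le_add_right (Nat.cast_le.2 hd) _

end Pool.Agent.MP_deef5c_ag.O
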