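import Pool.Agent.MP_deef5c_ag.O.Defs

/-! An additive map on Witt vectors. -/

open PowerSeries IsLocalRing Finset Function
open scoped Polynomial

namespace Pool.Agent.MP_deef5c_ag.O

universe u

theorem Wv3_ghost (p : ℕ) [Fact p.Prime] {R : Type} [CommRing R] (D : Derivation ℤ R R)
    (x : WittVector p R) (i : ℕ) :
    D (WittVector.ghostComponent i x) =
      (p : R) ^ i * ∑ j ∈ range (i + 1), x.coeff j ^ (p ^ (i - j) - 1) * D (x.coeff j) := by
  rw [WittVector.ghostComponent_apply, aeval_wittPolynomial, map_sum, Finset.mul_sum]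
  refine Finset.sum_congr rfl fun j hj => ?_
  have hji : j ≤ i := Nat.lt_succ_iff.mp (mem_range.mp hj)
  have h0 : D ((p : R) ^ j) = 0 := by
    rw [← Nat.cast_pow]; exact D.map_natCast _
  rw [D.leibniz, h0, smul_zero, add_zero, D.leibniz_pow, smul_eq_mul, smul_eq_mul, nsmul_eq_mul]
  have : (p : R) ^ i = (p : R) ^ j * (p : R) ^ (i - j) := by
    rw [← pow_add, Nat.add_sub_cancel' hji]
  rw [this]
  push_cast
  ring

theorem Wv3_univ (p : ℕ) [Fact p.Prime] {R : Type} [CommRing R] [IsDomain R] [CharZero R]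
    (D : Derivation ℤ R R) (a b : WittVector p R) (i : ℕ) :
    ∑ j ∈ range (i + 1), (a + b).coeff j ^ (p ^ (i - j) - 1) * D ((a + b).coeff j) =
      ∑ j ∈ range (i + 1), a.coeff j ^ (p ^ (i - j) - 1) * D (a.coeff j) +
      ∑ j ∈ range (i + 1), b.coeff j ^ (p ^ (i - j) - 1) * D (b.coeff j) := by
  have hp : (p : R) ^ i ≠ 0 := pow_ne_zero _ (Nat.cast_ne_zero.mpr (Fact.out : p.Prime).ne_zero)
  apply mul_left_cancel₀ hp
  rw [mul_add, ← Wv3_ghost, ← Wv3_ghost, ← Wv3_ghost, map_add, map_add]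

/-- In a torsion-free ring with a derivation, `p^i` times this sum is the derivative of the `i`-th
ghost component, which is additive.  Reduce to the ring `R' = MvPolynomial ((Bool × ℕ) × ℕ) ℤ` with
the derivation `X (s, n) ↦ X (s, n+1)` and the ring map `Φ : X ((c, j), n) ↦ δ^[n] (coeff j of a or b)`,
which satisfies `Φ ∘ D = δ ∘ Φ`; use `WittVector.map Φ`. -/
theorem wv_eta (p : ℕ) [Fact p.Prime] {L : Type u} [CommRing L] (δ : L →+ L)
    (hδ : ∀ f g, δ (f * g) = f * δ g + g * δ f) (a b : WittVector p L) (i : ℕ) :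
    ∑ j ∈ range (i + 1), (a + b).coeff j ^ (p ^ (i - j) - 1) * δ ((a + b).coeff j) =
      ∑ j ∈ range (i + 1), a.coeff j ^ (p ^ (i - j) - 1) * δ (a.coeff j) +
      ∑ j ∈ range (i + 1), b.coeff j ^ (p ^ (i - j) - 1) * δ (b.coeff j) := by
  let D : Derivation ℤ (MvPolynomial ((Bool × ℕ) × ℕ) ℤ) (MvPolynomial ((Bool × ℕ) × ℕ) ℤ) :=
    MvPolynomial.mkDerivation ℤ fun s => MvPolynomial.X (s.1, s.2 + 1)
  let Φ : MvPolynomial ((Bool × ℕ) × ℕ) ℤ →+* L :=
    MvPolynomial.eval₂Hom (Int.castRingHom L) fun s =>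
      δ^[s.2] (if s.1.1 then a.coeff s.1.2 else b.coeff s.1.2)
  have h1 : δ 1 = 0 := by
    have := hδ 1 1
    simp only [mul_one, one_mul] at this
    exact left_eq_add.mp this
  have hΦ : ∀ P, Φ (D P) = δ (Φ P) := by
    intro P
    induction P using MvPolynomial.induction_on with
    | C c =>
      have e1 : D (MvPolynomial.C c) = 0 := D.map_algebraMap c
      have e2 : Φ (MvPolynomial.C c) = c • (1 : L) := by simp [Φ]
      rw [e1, map_zero, e2, map_zsmul, h1, smul_zero]
    | add P Q hP hQ => rw [map_add, map_add, hP, hQ, map_add, map_add]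
    | mul_X P s hP =>
      have e1 : D (MvPolynomial.X s) = MvPolynomial.X (s.1, s.2 + 1) :=
        MvPolynomial.mkDerivation_X _ _ _
      have e2 : Φ (MvPolynomial.X (s.1, s.2 + 1)) = δ (Φ (MvPolynomial.X s)) := by
        simp only [Φ, MvPolynomial.eval₂Hom_X', Function.iterate_succ_apply']
      rw [D.leibniz, smul_eq_mul, smul_eq_mul, map_add, map_mul, map_mul, hP, e1, e2, map_mul, hδ]
  let A : WittVector p (MvPolynomial ((Bool × ℕ) × ℕ) ℤ) :=
    WittVector.mk p fun j => MvPolynomial.X ((true, j), 0)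
  let B : WittVector p (MvPolynomial ((Bool × ℕ) × ℕ) ℤ) :=
    WittVector.mk p fun j => MvPolynomial.X ((false, j), 0)
  have hA : WittVector.map Φ A = a := by
    ext j
    simp [A, Φ, WittVector.map_coeff]
  have hB : WittVector.map Φ B = b := by
    ext j
    simp [B, Φ, WittVector.map_coeff]
  have h0 : ∑ j ∈ range (i + 1), (A + B).coeff j ^ (p ^ (i - j) - 1) * D ((A + B).coeff j) =
      ∑ j ∈ range (i + 1), A.coeff j ^ (p ^ (i - j) - 1) * D (A.coeff j) +
      ∑ j ∈ range (i + 1), B.coeff j ^ (p ^ (i - j) - 1) * D (B.coeff j) := Wv3_univ p D A B i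
  have h := congrArg Φ h0
  simp only [map_add, map_sum, map_mul, map_pow, hΦ, ← WittVector.map_coeff] at h
  rw [hA, hB] at h
  exact h

end Pool.Agent.MP_deef5c_ag.O
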