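import Pool.Agent.MP_deef5c_ag.O.Wv2
import Pool.Agent.MP_deef5c_ag.O.Wv3

/-! Pole orders in an Artin-Schreier-Witt tower. -/

open PowerSeries IsLocalRing Finset Function
open scoped Polynomial

namespace Pool.Agent.MP_deef5c_ag.O

universe u

open WittVector

theorem WaUU_mono (p : ℕ) (d : ℕ → ℕ) (j e : ℕ) : p ^ e * UU p d j ≤ UU p d (j + e) := by
  induction e with
  | zero => simp
  | succ e ih =>
    calc p ^ (e + 1) * UU p d j = p * (p ^ e * UU p d j) := by ring
      _ ≤ p * UU p d (j + e) := Nat.mul_le_mul_left _ ih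
      _ ≤ UU p d (j + e + 1) := le_max_left _ _

theorem WaUU_le (p : ℕ) (d : ℕ → ℕ) {i j : ℕ} (h : j < i) :
    p ^ (i - 1 - j) * UU p d (j + 1) ≤ UU p d i := by
  have := WaUU_mono p d (j + 1) (i - 1 - j)
  rwa [show j + 1 + (i - 1 - j) = i by omega] at this

theorem WaUU_d (p : ℕ) (d : ℕ → ℕ) (j : ℕ) : d j ≤ UU p d (j + 1) := le_max_right _ _

theorem WaUU_p (p : ℕ) (d : ℕ → ℕ) (j : ℕ) : p * UU p d j ≤ UU p d (j + 1) := le_max_left _ _

theorem WaUU_ex (p : ℕ) (d : ℕ → ℕ) (i : ℕ) (hi : 0 < i) :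
    ∃ j < i, UU p d i = p ^ (i - 1 - j) * d j := by
  induction i with
  | zero => omega
  | succ i ih =>
    rcases le_total (p * UU p d i) (d i) with h | h
    · exact ⟨i, by omega, by simp [UU, max_eq_right h]⟩
    · rcases Nat.eq_zero_or_pos i with rfl | hi'
      · refine ⟨0, by omega, ?_⟩
        simp [UU]
      · obtain ⟨j, hj, e⟩ := ih hi'
        refine ⟨j, by omega, ?_⟩
        rw [show UU p d (i + 1) = max (p * UU p d i) (d i) from rfl, max_eq_left h, e,
          show i + 1 - 1 - j = (i - 1 - j) + 1 by omega]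
        ring

theorem Wa_inj {p : ℕ} (hp : p.Prime) {a b m n : ℕ} (ha : ¬ p ∣ a) (hb : ¬ p ∣ b)
    (h : p ^ m * a = p ^ n * b) : m = n := by
  rcases lt_trichotomy m n with hl | hl | hl
  · exfalso
    obtain ⟨e, rfl⟩ := Nat.exists_eq_add_of_lt hl
    have : a = p ^ (e + 1) * b := by
      apply Nat.eq_of_mul_eq_mul_left (pow_pos hp.pos m)
      rw [h]; ring
    exact ha (this ▸ Dvd.dvd.mul_right (dvd_pow_self p (by omega)) b)
  · exact hl
  · exfalso
    obtain ⟨e, rfl⟩ := Nat.exists_eq_add_of_lt hl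
    have : b = p ^ (e + 1) * a := by
      apply Nat.eq_of_mul_eq_mul_left (pow_pos hp.pos n)
      rw [← h]; ring
    exact hb (this ▸ Dvd.dvd.mul_right (dvd_pow_self p (by omega)) a)

theorem Wa_one {L : Type*} [Field L] (δ : L →+ L)
    (hδ : ∀ f g, δ (f * g) = f * δ g + g * δ f) : δ 1 = 0 := by
  have := hδ 1 1
  simp only [mul_one, one_mul] at this
  exact left_eq_add.1 this

theorem Wa_pow {L : Type*} [Field L] (δ : L →+ L)
    (hδ : ∀ f g, δ (f * g) = f * δ g + g * δ f) (z : L) (n : ℕ) :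
    δ (z ^ (n + 1)) = ((n + 1 : ℕ) : L) * (z ^ n * δ z) := by
  induction n with
  | zero => simp
  | succ n ih =>
    rw [pow_succ z (n + 1), hδ, ih]
    push_cast
    ring

theorem Wa_frob (p : ℕ) [hp : Fact p.Prime] {L : Type*} [Field L] [CharP L p] (δ : L →+ L)
    (hδ : ∀ f g, δ (f * g) = f * δ g + g * δ f) (z : L) : δ (z ^ p) = 0 := by
  obtain ⟨n, hn⟩ : ∃ n, p = n + 1 := ⟨p - 1, by have := hp.out.pos; omega⟩
  have := Wa_pow δ hδ z n
  rw [← hn, CharP.cast_eq_zero, zero_mul] at this
  exact this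

theorem Wa_init_lt {p : ℕ} {L : Type*} [CommRing L] (y : WittVector p L) {i j : ℕ} (h : j < i) :
    (init i y).coeff j = y.coeff j := by
  simp [init, select, h]

theorem Wa_init_ge {p : ℕ} {L : Type*} [CommRing L] (y : WittVector p L) {i j : ℕ} (h : i ≤ j) :
    (init i y).coeff j = 0 := by
  simp [init, select, not_lt.2 h]

section step

variable (p : ℕ) [hp : Fact p.Prime] {L Γ : Type*} [Field L] [CharP L p]
    [LinearOrderedCommGroupWithZero Γ] (v : Valuation L Γ) (δ : L →+ L)
    (hδ : ∀ f g, δ (f * g) = f * δ g + g * δ f) (x : L) (hx : 1 < v x)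
    (y f : WittVector p L) (d : ℕ → ℕ)

include hx in
/-- the first claim from the bounds for the lower coefficients -/
theorem Wa_first (i : ℕ) (hy : ∀ j < i, v (y.coeff j) ^ p ≤ v x ^ UU p d (j + 1))
    (hf : ∀ j < i, v (f.coeff j) ≤ v x ^ d j) :
    v ((init i y + init i f).coeff i) ≤ v x ^ (p * UU p d i) := by
  have hx0 : x ≠ 0 := by
    rintro rfl
    simp at hx
  have hpp := hp.out.pos
  have key := wv_bound p v (x ^ (p * UU p d i)) (pow_ne_zero _ hx0)
    (WittVector.map (iterateFrobenius L p i) (init i y))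
    (WittVector.map (iterateFrobenius L p i) (init i f)) i ?_ ?_
  · rw [← map_add, WittVector.map_coeff, iterateFrobenius_def, map_pow, map_pow] at key
    exact (pow_le_pow_iff_left₀ zero_le zero_le (pow_pos hpp i).ne').1 key
  · intro j hj
    rw [WittVector.map_coeff]
    rcases hj.lt_or_eq with hj | rfl
    · rw [Wa_init_lt y hj, iterateFrobenius_def, map_pow, map_pow, ← pow_mul]
      have e : p ^ i = p * p ^ (i - 1) := by
        rw [← pow_succ']; congr 1; omega
      rw [e, pow_mul]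
      refine (pow_le_pow_left₀ zero_le (hy j hj) _).trans ?_
      rw [← pow_mul]
      refine pow_le_pow_right₀ hx.le ?_
      have h1 := WaUU_le p d hj
      have e2 : p ^ (i - 1) = p ^ (i - 1 - j) * p ^ j := by
        rw [← pow_add]; congr 1; omega
      calc UU p d (j + 1) * p ^ (i - 1) = (p ^ (i - 1 - j) * UU p d (j + 1)) * p ^ j := by
            rw [e2]; ring
        _ ≤ UU p d i * p ^ j := Nat.mul_le_mul_right _ h1
        _ ≤ p * UU p d i * p ^ j := Nat.mul_le_mul_right _ (Nat.le_mul_of_pos_left _ hpp)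
    · rw [Wa_init_ge y le_rfl, map_zero, map_zero]
      exact zero_le
  · intro j hj
    rw [WittVector.map_coeff]
    rcases hj.lt_or_eq with hj | rfl
    · rw [Wa_init_lt f hj, iterateFrobenius_def, map_pow, map_pow, ← pow_mul]
      refine (pow_le_pow_left₀ zero_le (hf j hj) _).trans ?_
      rw [← pow_mul]
      refine pow_le_pow_right₀ hx.le ?_
      have h1 := WaUU_le p d hj
      have h2 := WaUU_d p d j
      have e2 : p ^ i = p * p ^ (i - 1 - j) * p ^ j := by
        rw [← pow_succ', ← pow_add]; congr 1; omega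
      calc d j * p ^ i = p * (p ^ (i - 1 - j) * d j) * p ^ j := by
            rw [e2]; ring
        _ ≤ p * UU p d i * p ^ j :=
          Nat.mul_le_mul_right _ (Nat.mul_le_mul_left _ ((Nat.mul_le_mul_left _ h2).trans h1))
    · rw [Wa_init_ge f le_rfl, map_zero, map_zero]
      exact zero_le

include hx hδ in
/-- the second claim from the bounds for the lower coefficients -/
theorem Wa_second (i : ℕ) (hi : 0 < i) (hd : 0 < d 0)
    (hF : ∀ j < i, y.coeff j ^ p = (y + f).coeff j)
    (hf : ∀ j < i, (f.coeff j = 0 ∧ d j = 0) ∨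
      (¬ p ∣ d j ∧ v (f.coeff j) = v x ^ d j ∧ v (δ (f.coeff j)) = v x ^ d j))
    (hy : ∀ j < i, v (y.coeff j) ^ p ≤ v x ^ UU p d (j + 1))
    (hz : ∀ j < i, v (δ (y.coeff j)) ≤ v x ^ UU p d (j + 1)) :
    0 < UU p d i ∧ v (δ ((init i y + init i f).coeff i)) = v x ^ (p * UU p d i) := by
  have hpp := hp.out.pos
  have hU : 0 < UU p d i := by
    have h1 := WaUU_le p d hi
    have h2 := WaUU_d p d 0
    exact lt_of_lt_of_le (Nat.mul_pos (pow_pos hpp _) (lt_of_lt_of_le hd h2)) h1
  refine ⟨hU, ?_⟩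
  have hx0 : v x ^ (p * UU p d i) ≠ 0 := pow_ne_zero _ (lt_trans zero_lt_one hx).ne'
  have eta := wv_eta p δ hδ (init i y) (init i f) i
  have hlow := wv_congr p (a := init i y) (a' := y) (b := init i f) (b' := f) (i := i)
    (fun j hj => Wa_init_lt y hj) (fun j hj => Wa_init_lt f hj)
  rw [sum_range_succ, sum_range_succ, sum_range_succ, Wa_init_ge y le_rfl, Wa_init_ge f le_rfl,
    map_zero, mul_zero, add_zero, add_zero, Nat.sub_self, pow_zero, Nat.sub_self, pow_zero,
    one_mul, sum_eq_zero, zero_add] at eta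
  swap
  · intro j hj
    rw [mem_range] at hj
    rw [hlow j hj, ← hF j hj, Wa_frob p δ hδ, mul_zero]
  rw [eta]
  have hA : v (∑ j ∈ range i, (init i y).coeff j ^ (p ^ (i - j) - 1) * δ ((init i y).coeff j)) <
      v x ^ (p * UU p d i) := by
    refine v.map_sum_lt hx0 fun j hj => ?_
    rw [mem_range] at hj
    rw [Wa_init_lt y hj, map_mul, map_pow]
    refine lt_of_pow_lt_pow_left₀ p zero_le ?_
    rw [mul_pow, ← pow_mul, mul_comm (p ^ (i - j) - 1) p, pow_mul]
    refine lt_of_le_of_lt (mul_le_mul' (pow_le_pow_left₀ zero_le (hy j hj) _)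
      (pow_le_pow_left₀ zero_le (hz j hj) _)) ?_
    rw [← pow_mul, ← pow_mul, ← pow_add, ← pow_mul]
    refine pow_lt_pow_right₀ hx ?_
    have h1 := WaUU_le p d hj
    have e2 : p ^ (i - j) = p * p ^ (i - 1 - j) := by
      rw [← pow_succ']; congr 1; omega
    have h3 : UU p d (j + 1) ≤ UU p d i :=
      (Nat.le_mul_of_pos_left _ (pow_pos hpp _)).trans h1
    obtain ⟨r, hr⟩ : ∃ r, p ^ (i - j) = r + 1 := ⟨p ^ (i - j) - 1, by
      have := pow_pos hpp (i - j); omega⟩
    obtain ⟨q, hq⟩ : ∃ q, p = q + 2 := ⟨p - 2, by have := hp.out.two_le; omega⟩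
    have h4 : (r + 1) * UU p d (j + 1) ≤ p * UU p d i := by
      rw [← hr, e2, mul_assoc]
      exact Nat.mul_le_mul_left _ h1
    rw [hr, Nat.add_sub_cancel]
    generalize UU p d (j + 1) = W at *
    generalize UU p d i = U at *
    have h5 : (q + 1) * W ≤ (q + 1) * U := Nat.mul_le_mul_left _ h3
    rw [hq] at h4 ⊢
    nlinarith [Nat.zero_le (q * q * U), Nat.zero_le (q * U)]
  obtain ⟨j₀, hj₀, e₀⟩ := WaUU_ex p d i hi
  have hterm : ∀ j < i, ¬ p ∣ d j → v (f.coeff j) = v x ^ d j → v (δ (f.coeff j)) = v x ^ d j →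
      v ((init i f).coeff j ^ (p ^ (i - j) - 1) * δ ((init i f).coeff j)) =
        v x ^ (p * (p ^ (i - 1 - j) * d j)) := by
    intro j hj _ h2 h3
    rw [Wa_init_lt f hj, map_mul, map_pow, h2, h3, ← pow_succ, ← pow_mul]
    congr 1
    have e2 : p ^ (i - j) = p * p ^ (i - 1 - j) := by
      rw [← pow_succ']; congr 1; omega
    rw [Nat.sub_add_cancel (pow_pos hpp (i - j)), e2]
    ring
  have h0 : ¬ p ∣ d j₀ ∧ v (f.coeff j₀) = v x ^ d j₀ ∧ v (δ (f.coeff j₀)) = v x ^ d j₀ := by
    rcases hf j₀ hj₀ with h | h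
    · rw [h.2, mul_zero] at e₀
      omega
    · exact h
  have hB : v (∑ j ∈ range i, (init i f).coeff j ^ (p ^ (i - j) - 1) * δ ((init i f).coeff j)) =
      v x ^ (p * UU p d i) := by
    have hm := hterm j₀ hj₀ h0.1 h0.2.1 h0.2.2
    rw [← e₀] at hm
    rw [← add_sum_erase _ _ (mem_range.2 hj₀), v.map_add_eq_of_lt_left, hm]
    rw [hm]
    refine v.map_sum_lt hx0 fun j hj => ?_
    obtain ⟨hne, hj⟩ := mem_erase.1 hj
    rw [mem_range] at hj
    rcases hf j hj with h | h
    · rw [Wa_init_lt f hj, h.1, map_zero, mul_zero, map_zero]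
      exact zero_lt_iff.2 hx0
    · rw [hterm j hj h.1 h.2.1 h.2.2]
      refine pow_lt_pow_right₀ hx (Nat.mul_lt_mul_of_pos_left (lt_of_le_of_ne ?_ ?_) hpp)
      · exact (Nat.mul_le_mul_left _ (WaUU_d p d j)).trans (WaUU_le p d hj)
      · intro he
        rw [e₀] at he
        have := Wa_inj hp.out h.1 h0.1 he
        omega
  rw [v.map_add_eq_of_lt_right, hB]
  rw [hB]
  exact hA

end step

/-- Strong induction on `i`, carrying `v (y_j)^p ≤ v x ^ UU (j+1)` and `v (δ y_j) ≤ v x ^ UU (j+1)` for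
`j < i` (from `y_j^p = c_j + y_j + f_j`, `wv_add_init`, and `δ (y^p) = 0`).  First claim: apply
`wv_bound` to the images of `init i y`, `init i f` under the `i`-th power of Frobenius with
`γ = x^(p U)` (note `p^(i-1-j) UU (j+1) ≤ UU i`).  Second claim: `wv_eta` for `a = init i y`,
`b = init i f`; the lower coefficients of `a + b` are the `y_j^p`, so the left side is `δ c`.
The `b`-sum has valuation exactly `v x ^ (p U)` (the numbers `p^(i-j) d j` with `f_j ≠ 0` are
distinct, their maximum is `p U`), each term of the `a`-sum is smaller: raised to the `p`-th power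
its exponent is at most `UU (j+1) (p^(i-j) - 1 + p) < p^2 U`, as `U > 0`. -/
theorem wa (p : ℕ) [Fact p.Prime] {L Γ : Type*} [Field L] [CharP L p]
    [LinearOrderedCommGroupWithZero Γ] (v : Valuation L Γ) (δ : L →+ L)
    (hδ : ∀ f g, δ (f * g) = f * δ g + g * δ f) (x : L) (hx : 1 < v x) (i : ℕ)
    (y f : WittVector p L) (d : ℕ → ℕ) (hd : 0 < i → 0 < d 0)
    (hF : ∀ j < i, y.coeff j ^ p = (y + f).coeff j)
    (hf : ∀ j < i, (f.coeff j = 0 ∧ d j = 0) ∨
      (¬ p ∣ d j ∧ v (f.coeff j) = v x ^ d j ∧ v (δ (f.coeff j)) = v x ^ d j)) :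
    v ((init i y + init i f).coeff i) ≤ v x ^ (p * UU p d i) ∧
      (0 < i → 0 < UU p d i ∧ v (δ ((init i y + init i f).coeff i)) = v x ^ (p * UU p d i)) := by
  have hp : p.Prime := Fact.out
  have hfv : ∀ j < i, v (f.coeff j) ≤ v x ^ d j := by
    intro j hj
    rcases hf j hj with h | h
    · rw [h.1, map_zero]; exact zero_le
    · exact h.2.1.le
  have hfd : ∀ j < i, v (δ (f.coeff j)) ≤ v x ^ d j := by
    intro j hj
    rcases hf j hj with h | h
    · rw [h.1, map_zero, map_zero]; exact zero_le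
    · exact h.2.2.le
  have key : ∀ n ≤ i, ∀ j < n, v (y.coeff j) ^ p ≤ v x ^ UU p d (j + 1) ∧
      v (δ (y.coeff j)) ≤ v x ^ UU p d (j + 1) := by
    intro n
    induction n with
    | zero => intro _ j hj; omega
    | succ n ih =>
      intro hn j hj
      rcases (Nat.lt_succ_iff.1 hj).lt_or_eq with hj' | rfl
      · exact ih (by omega) j hj'
      have ih' := ih (by omega)
      have hji : j < i := by omega
      have h1 := Wa_first p v x hx y f d j (fun l hl => (ih' l hl).1)
        (fun l hl => hfv l (by omega))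
      have h2 : v (δ ((init j y + init j f).coeff j)) ≤ v x ^ (p * UU p d j) := by
        rcases Nat.eq_zero_or_pos j with rfl | hj0
        · rw [WittVector.add_coeff_zero, Wa_init_ge y le_rfl, Wa_init_ge f le_rfl, add_zero,
            map_zero, map_zero]
          exact zero_le
        · exact (Wa_second p v δ hδ x hx y f d j hj0 (hd (by omega)) (fun l hl => hF l (by omega))
            (fun l hl => hf l (by omega)) (fun l hl => (ih' l hl).1)
            (fun l hl => (ih' l hl).2)).2.le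
      have e := hF j hji
      rw [wv_add_init] at e
      have b1 : v x ^ (p * UU p d j) ≤ v x ^ UU p d (j + 1) :=
        pow_le_pow_right₀ hx.le (WaUU_p p d j)
      have b2 : v x ^ d j ≤ v x ^ UU p d (j + 1) := pow_le_pow_right₀ hx.le (WaUU_d p d j)
      constructor
      · rcases le_or_gt (v (y.coeff j)) 1 with h | h
        · exact (pow_le_one₀ zero_le h).trans (one_le_pow₀ hx.le)
        · have e' : y.coeff j ^ p - y.coeff j = (init j y + init j f).coeff j + f.coeff j := by
            rw [e]; ring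
          have hlt : v (y.coeff j) < v (y.coeff j ^ p) := by
            rw [map_pow]
            exact lt_self_pow₀ h hp.one_lt
          rw [← map_pow, ← v.map_sub_eq_of_lt_left hlt, e']
          exact v.map_add_le (h1.trans b1) ((hfv j hji).trans b2)
      · have e' := congrArg δ e
        rw [Wa_frob p δ hδ, map_add, map_add] at e'
        have e'' : δ (y.coeff j) = -(δ ((init j y + init j f).coeff j) + δ (f.coeff j)) := by
          linear_combination -e'
        rw [e'', v.map_neg]
        exact v.map_add_le (h2.trans b1) ((hfd j hji).trans b2)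
  have k1 := key i le_rfl
  exact ⟨Wa_first p v x hx y f d i (fun l hl => (k1 l hl).1) hfv, fun hi =>
    Wa_second p v δ hδ x hx y f d i hi (hd hi) hF hf (fun l hl => (k1 l hl).1)
      (fun l hl => (k1 l hl).2)⟩

end Pool.Agent.MP_deef5c_ag.O
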