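import Pool.Agent.MP_deef5c_ag.O.Defs

/-! Witt vector addition modulo powers of Verschiebung. -/

open PowerSeries IsLocalRing Finset Function
open scoped Polynomial

namespace Pool.Agent.MP_deef5c_ag.O

universe u

open WittVector

variable (p : ℕ) [Fact p.Prime]

omit [Fact p.Prime] in
theorem Wv1_init {R : Type u} [CommRing R] (a : WittVector p R) (i j : ℕ) :
    (init i a).coeff j = if j < i then a.coeff j else 0 := by
  simp only [init, select, coeff_mk]
  congr

omit [Fact p.Prime] in
theorem Wv1_tail {R : Type u} [CommRing R] (a : WittVector p R) (i j : ℕ) :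
    (tail i a).coeff j = if i ≤ j then a.coeff j else 0 := by
  simp only [tail, select, coeff_mk]
  congr

theorem Wv1_low {R : Type u} [CommRing R] {a z : WittVector p R} {i : ℕ}
    (ha : ∀ j < i, a.coeff j = 0) (hz : ∀ j < i, z.coeff j = 0) :
    (∀ j < i, (a + z).coeff j = 0) ∧ (a + z).coeff i = a.coeff i + z.coeff i := by
  have e : a + z = verschiebung^[i] (a.shift i + z.shift i) := by
    rw [iterate_map_add, ← eq_iterate_verschiebung ha, ← eq_iterate_verschiebung hz]
  refine ⟨fun j hj => e ▸ iterate_verschiebung_coeff_eq_zero _ hj, ?_⟩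
  have := iterate_verschiebung_coeff (a.shift i + z.shift i) i 0
  rwa [zero_add, ← e, add_coeff_zero] at this

/-- `a = init i a + tail i a`, the tail and `z` are `V^i` of something, use `coeff_add_of_disjoint` -/
theorem wv_add {R : Type u} [CommRing R] (a z : WittVector p R) (i : ℕ)
    (hz : ∀ j < i, z.coeff j = 0) :
    (∀ j < i, (a + z).coeff j = a.coeff j) ∧ (a + z).coeff i = a.coeff i + z.coeff i := by
  obtain ⟨h1, h2⟩ := Wv1_low p (a := tail i a) (fun j hj => by rw [Wv1_tail, if_neg hj.not_ge]) hz
  have e : ∀ j, (a + z).coeff j = (init i a).coeff j + (tail i a + z).coeff j := fun j => by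
    rw [← coeff_add_of_disjoint _ _ _ fun n => (lt_or_ge n i).symm.imp
      (fun h => by rw [Wv1_init, if_neg h.not_gt]) (h1 n), ← add_assoc, init_add_tail]
  refine ⟨fun j hj => ?_, ?_⟩
  · rw [e, h1 j hj, Wv1_init, if_pos hj, add_zero]
  · rw [e, h2, Wv1_init, if_neg (lt_irrefl i), Wv1_tail, if_pos le_rfl, zero_add]

theorem wv_add_init {R : Type u} [CommRing R] (a b : WittVector p R) (i : ℕ) :
    (a + b).coeff i = (init i a + init i b).coeff i + a.coeff i + b.coeff i := by
  obtain ⟨h1, h2⟩ := Wv1_low p (a := tail i a) (z := tail i b) (i := i)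
    (fun j hj => by rw [Wv1_tail, if_neg hj.not_ge]) fun j hj => by rw [Wv1_tail, if_neg hj.not_ge]
  rw [add_assoc, ← if_pos (c := i ≤ i) le_rfl (t := a.coeff i) (e := 0), ← Wv1_tail,
    ← if_pos (c := i ≤ i) le_rfl (t := b.coeff i) (e := 0), ← Wv1_tail, ← h2,
    ← (wv_add p _ _ i h1).2, add_add_add_comm, init_add_tail, init_add_tail]

/-- congruence modulo `V^i` is compatible with addition -/
theorem wv_congr {R : Type u} [CommRing R] {a a' b b' : WittVector p R} {i : ℕ}
    (ha : ∀ j < i, a.coeff j = a'.coeff j) (hb : ∀ j < i, b.coeff j = b'.coeff j) :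
    ∀ j < i, (a + b).coeff j = (a' + b').coeff j := by
  have h : ∀ x y : WittVector p R, (∀ j < i, x.coeff j = y.coeff j) ↔
      WittVector.truncate i x = WittVector.truncate i y := fun x y =>
    ⟨fun h => TruncatedWittVector.ext fun j => by simpa using h j j.2,
      fun h j hj => by simpa using congrArg (TruncatedWittVector.coeff ⟨j, hj⟩) h⟩
  rw [h] at ha hb ⊢
  rw [map_add, map_add, ha, hb]

end Pool.Agent.MP_deef5c_ag.O
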