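import Pool.Agent.MP_deef5c_ag.O.Desc
import Pool.Agent.MP_deef5c_ag.O.Asr
import Pool.Agent.MP_deef5c_ag.O.Abs
import Pool.Agent.MP_deef5c_ag.O.Wv1

/-! Extending Artin-Schreier-Witt data by one step. -/

open PowerSeries IsLocalRing Finset Function
open scoped Polynomial

namespace Pool.Agent.MP_deef5c_ag.O

universe u

open WittVector

namespace We.Aux

section

variable (p : ℕ) [Fact p.Prime] (L : Type u) [CommRing L]

/-- the vectors whose first `i` coefficients vanish -/
noncomputable def I (i : ℕ) : Ideal (WittVector p L) := RingHom.ker (WittVector.truncate i)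

variable {L}

/-- the vector with the single coefficient `c` in place `n` -/
def V (n : ℕ) (c : L) : WittVector p L := WittVector.mk p fun j => if j = n then c else 0

variable {p}

theorem mem_I {i : ℕ} {z : WittVector p L} : z ∈ I p L i ↔ ∀ j < i, z.coeff j = 0 :=
  mem_ker_truncate _ _

theorem sub_mem_I {i : ℕ} {a b : WittVector p L} :
    a - b ∈ I p L i ↔ ∀ j < i, a.coeff j = b.coeff j := by
  rw [I, RingHom.mem_ker, map_sub, sub_eq_zero]
  constructor
  · intro h j hj
    have := congrArg (TruncatedWittVector.coeff ⟨j, hj⟩) h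
    rwa [coeff_truncate, coeff_truncate] at this
  · intro h
    ext j
    rw [coeff_truncate, coeff_truncate, h j j.2]

theorem map_mem_I (φ : L →+* L) {i : ℕ} {z : WittVector p L} (hz : z ∈ I p L i) :
    WittVector.map φ z ∈ I p L i :=
  mem_I.2 fun j hj => by rw [map_coeff, mem_I.1 hz j hj, map_zero]

theorem mem_succ {i : ℕ} {z : WittVector p L} :
    z ∈ I p L (i + 1) ↔ z ∈ I p L i ∧ z.coeff i = 0 := by
  rw [mem_I, mem_I]
  constructor
  · exact fun h => ⟨fun j hj => h j (by omega), h i (by omega)⟩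
  · rintro ⟨h1, h2⟩ j hj
    rcases Nat.lt_succ_iff_lt_or_eq.1 hj with h | rfl
    · exact h1 j h
    · exact h2

theorem co_add {i : ℕ} (a : WittVector p L) {z : WittVector p L} (hz : z ∈ I p L i) :
    (a + z).coeff i = a.coeff i + z.coeff i := (wv_add p a z i (mem_I.1 hz)).2

theorem co_low {i j : ℕ} (a : WittVector p L) {z : WittVector p L} (hz : z ∈ I p L i)
    (hj : j < i) : (a + z).coeff j = a.coeff j := (wv_add p a z i (mem_I.1 hz)).1 j hj

theorem co_sub {i : ℕ} (a : WittVector p L) {z : WittVector p L} (hz : z ∈ I p L i) :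
    (a - z).coeff i = a.coeff i - z.coeff i := by
  have := co_add (a - z) hz
  rw [sub_add_cancel] at this
  rw [this, add_sub_cancel_right]

theorem co_sum {i : ℕ} (z : ℕ → WittVector p L) (hz : ∀ a, z a ∈ I p L i) (N : ℕ) :
    (∑ a ∈ range N, z a).coeff i = ∑ a ∈ range N, (z a).coeff i := by
  induction N with
  | zero => simp
  | succ N ih => rw [sum_range_succ, sum_range_succ, co_add _ (hz N), ih]

omit [Fact p.Prime] in
theorem V_coeff (n : ℕ) (c : L) : (V p n c).coeff n = c := by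
  simp [V]

theorem V_mem (n : ℕ) (c : L) : V p n c ∈ I p L n :=
  mem_I.2 fun j hj => by simp [V, hj.ne]

theorem map_V (φ : L →+* L) (n : ℕ) (c : L) : WittVector.map φ (V p n c) = V p n (φ c) := by
  ext j
  rw [map_coeff]
  simp only [V, coeff_mk]
  split_ifs <;> simp

theorem init_sub (n : ℕ) (a : WittVector p L) : init n a - a ∈ I p L n :=
  sub_mem_I.2 fun j hj => by rw [Wv1_init, if_pos hj]

theorem map_comm {φ ψ φ' ψ' : L →+* L} (h : ∀ z, φ (ψ z) = ψ' (φ' z)) (a : WittVector p L) :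
    WittVector.map φ (WittVector.map ψ a) = WittVector.map ψ' (WittVector.map φ' a) := by
  ext j
  simp only [map_coeff, h]

theorem map_succ (σ : L →+* L) (i : ℕ) (a : WittVector p L) :
    WittVector.map (σ ^ (i + 1)) a = WittVector.map (σ ^ i) (WittVector.map σ a) := by
  ext j
  simp only [map_coeff, pow_succ]
  rfl

theorem map_zero' (σ : L →+* L) (a : WittVector p L) : WittVector.map (σ ^ 0) a = a := by
  ext j
  simp only [map_coeff, pow_zero]
  rfl

theorem tele (σ : L →+* L) (a : WittVector p L) (N : ℕ) :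
    ∑ i ∈ range N, WittVector.map (σ ^ i) (WittVector.map σ a - a - 1) =
      WittVector.map (σ ^ N) a - a - (N : WittVector p L) := by
  induction N with
  | zero => rw [map_zero', sum_range_zero, sub_self, Nat.cast_zero, sub_zero]
  | succ N ih =>
    rw [sum_range_succ, ih, map_succ, map_sub, map_sub, map_one]
    push_cast
    ring

variable [CharP L p]

theorem pow_mem (n : ℕ) : ((p ^ n : ℕ) : WittVector p L) ∈ I p L n :=
  mem_I.2 fun j hj => by
    rw [Nat.cast_pow]
    exact coeff_p_pow_eq_zero p L hj.ne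

theorem pow_coeff (n : ℕ) : ((p ^ n : ℕ) : WittVector p L).coeff n = 1 := by
  rw [Nat.cast_pow]
  exact coeff_p_pow p L n

theorem step1 {n : ℕ} (σ : L →+* L) (hσ : ∀ a, (σ ^ p ^ (n + 1)) a = a) (Θ : L)
    (hΘ : ∑ i ∈ range (p ^ (n + 1)), (σ ^ i) Θ = 1) (a : WittVector p L)
    (ha : WittVector.map σ a - a - 1 ∈ I p L n) :
    ∃ t, σ t - t = -(WittVector.map σ a - a - 1).coeff n := by
  have h1 := tele σ a (p ^ (n + 1))
  have h2 : WittVector.map (σ ^ p ^ (n + 1)) a = a := by
    ext j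
    rw [map_coeff, hσ]
  rw [h2, sub_self, zero_sub] at h1
  have h3 := co_sum (fun i => WittVector.map (σ ^ i) (WittVector.map σ a - a - 1))
    (fun i => map_mem_I _ ha) (p ^ (n + 1))
  rw [h1, (mem_succ.1 (neg_mem (pow_mem (n + 1)))).2] at h3
  obtain ⟨t, ht⟩ := h90 σ _ hσ Θ 1 (-(WittVector.map σ a - a - 1).coeff n) hΘ (by
    simp only [map_neg, sum_neg_distrib, neg_eq_zero]
    exact h3.symm)
  exact ⟨t, by rw [ht, one_mul]⟩

omit [CharP L p] in
theorem step2 {n : ℕ} (σ : L →+* L) (a : WittVector p L)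
    (ha : WittVector.map σ a - a - 1 ∈ I p L n) {t : L}
    (ht : σ t - t = -(WittVector.map σ a - a - 1).coeff n) :
    WittVector.map σ (a + V p n t) - (a + V p n t) - 1 ∈ I p L (n + 1) := by
  have e : WittVector.map σ (a + V p n t) - (a + V p n t) - 1 =
      WittVector.map σ a - a - 1 + V p n (σ t) - V p n t := by
    rw [map_add, map_V]
    ring
  rw [e, mem_succ]
  refine ⟨sub_mem (add_mem ha (V_mem _ _)) (V_mem _ _), ?_⟩
  rw [co_sub _ (V_mem _ _), co_add _ (V_mem _ _), V_coeff, V_coeff, add_sub_assoc, ht,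
    add_neg_cancel]

theorem step3 {n : ℕ} (σ : L →+* L) (y : WittVector p L)
    (hy : WittVector.map σ y - y - 1 ∈ I p L (n + 1)) :
    (σ ^ p ^ n) (y.coeff n) = y.coeff n + 1 := by
  have h1 : WittVector.map (σ ^ p ^ n) y - y - ((p ^ n : ℕ) : WittVector p L) ∈ I p L (n + 1) := by
    rw [← tele]
    exact Ideal.sum_mem _ fun i _ => map_mem_I _ hy
  rw [sub_sub, sub_mem_I] at h1
  have h2 := h1 n (Nat.lt_succ_self n)
  rwa [map_coeff, co_add _ (pow_mem n), pow_coeff] at h2

theorem main {n : ℕ} (σ σ' j ξ : L →+* L) (hσ : ∀ a, (σ ^ p ^ (n + 1)) a = a) (Θ : L)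
    (hΘ : ∑ i ∈ range (p ^ (n + 1)), (σ ^ i) Θ = 1) (hj : ∀ z, σ (j z) = j (σ' z))
    (hξ : ∀ z, σ (ξ z) = ξ z) (hfix : ∀ z, σ z = z → ∃ w, ξ w = z) {y' f' : WittVector p L}
    (hsig : ∀ i < n, σ' (y'.coeff i) = (y' + 1).coeff i)
    (hfrob : ∀ i < n, y'.coeff i ^ p = (y' + f').coeff i)
    (hf : ∀ i < n, σ' (f'.coeff i) = f'.coeff i) (P : L → Prop)
    (hP : ∀ z, ∃ ρ u, P ρ ∧ z = ρ + (u ^ p - u)) :
    ∃ (y f : WittVector p L) (ρ : L), P ρ ∧ (∀ i < n + 1, σ (y.coeff i) = (y + 1).coeff i) ∧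
      (∀ i < n + 1, y.coeff i ^ p = (y + f).coeff i) ∧ (∀ i < n, f.coeff i = j (f'.coeff i)) ∧
      f.coeff n = ξ ρ ∧ (σ ^ p ^ n) (y.coeff n) = y.coeff n + 1 ∧
      y.coeff n ^ p - y.coeff n = j ((init n y' + init n f').coeff n) + ξ ρ := by
  obtain ⟨F, hF⟩ : ∃ F : L →+* L, ∀ z, F z = z ^ p := ⟨_root_.frobenius L p, fun _ => rfl⟩
  have hFc : ∀ (φ : L →+* L) (a : WittVector p L),
      WittVector.map F (WittVector.map φ a) = WittVector.map φ (WittVector.map F a) :=
    fun φ a => map_comm (fun z => by rw [hF, hF, map_pow]) a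
  obtain ⟨a, ha⟩ : ∃ a, a = WittVector.map j (init n y') := ⟨_, rfl⟩
  obtain ⟨b, hb⟩ : ∃ b, b = WittVector.map j (init n f') := ⟨_, rfl⟩
  have hea : WittVector.map σ a - a - 1 ∈ I p L n := by
    have h1 : WittVector.map σ' y' - (y' + 1) ∈ I p L n := sub_mem_I.2 hsig
    have h2 := map_mem_I j (sub_mem (add_mem (map_mem_I σ' (init_sub n y')) h1) (init_sub n y'))
    rw [ha, map_comm hj]
    convert h2 using 1
    simp only [map_sub, map_add, map_one]
    ring
  have hg : WittVector.map F a - a - b ∈ I p L n := by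
    have h1 : WittVector.map F y' - (y' + f') ∈ I p L n :=
      sub_mem_I.2 fun i hi => by rw [map_coeff, hF, hfrob i hi]
    have h2 := map_mem_I j (sub_mem (sub_mem (add_mem (map_mem_I F (init_sub n y')) h1)
      (init_sub n y')) (init_sub n f'))
    rw [ha, hb, hFc]
    convert h2 using 1
    simp only [map_sub, map_add]
    ring
  have hσb : WittVector.map σ b = b := by
    rw [hb, map_comm hj]
    congr 1
    ext i
    rw [map_coeff, Wv1_init]
    split_ifs with hi
    · exact hf i hi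
    · exact map_zero _
  have hgt : ∀ t, WittVector.map F (a + V p n t) - (a + V p n t) - b ∈ I p L n ∧
      (WittVector.map F (a + V p n t) - (a + V p n t) - b).coeff n =
        (WittVector.map F a - a - b).coeff n + (t ^ p - t) := by
    intro t
    have e : WittVector.map F (a + V p n t) - (a + V p n t) - b =
        WittVector.map F a - a - b + V p n (t ^ p) - V p n t := by
      rw [map_add, map_V, hF]
      ring
    rw [e]
    refine ⟨sub_mem (add_mem hg (V_mem _ _)) (V_mem _ _), ?_⟩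
    rw [co_sub _ (V_mem _ _), co_add _ (V_mem _ _), V_coeff, V_coeff, add_sub_assoc]
  obtain ⟨t, ht⟩ := step1 σ hσ Θ hΘ a hea
  have hinv : σ ((WittVector.map F a - a - b).coeff n + (t ^ p - t)) =
      (WittVector.map F a - a - b).coeff n + (t ^ p - t) := by
    have h1 := step2 σ a hea ht
    rw [← (hgt t).2]
    generalize a + V p n t = y at h1
    have h2 : WittVector.map σ (WittVector.map F y - y - b) - (WittVector.map F y - y - b) ∈
        I p L (n + 1) := by
      convert sub_mem (map_mem_I F h1) h1 using 1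
      simp only [map_sub, map_one, hσb, hFc]
      ring
    exact sub_mem_I.1 h2 n (Nat.lt_succ_self n)
  obtain ⟨z, hz⟩ := hfix _ hinv
  obtain ⟨ρ, u, hρ, hu⟩ := hP z
  have ht1 : σ (t - ξ u) - (t - ξ u) = -(WittVector.map σ a - a - 1).coeff n := by
    rw [map_sub, hξ, ← ht]
    ring
  have hy1 := step2 σ a hea ht1
  have hc : (WittVector.map F a - a - b).coeff n + ((t - ξ u) ^ p - (t - ξ u)) = ξ ρ := by
    rw [hu, map_add, map_sub, map_pow] at hz
    rw [sub_pow_char]
    linear_combination -hz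
  have hy2 : WittVector.map F (a + V p n (t - ξ u)) - (a + V p n (t - ξ u) + (b + V p n (ξ ρ))) ∈
      I p L (n + 1) := by
    have e : ∀ y : WittVector p L, WittVector.map F y - (y + (b + V p n (ξ ρ))) =
        WittVector.map F y - y - b - V p n (ξ ρ) := fun y => by ring
    rw [e, mem_succ]
    refine ⟨sub_mem (hgt _).1 (V_mem _ _), ?_⟩
    rw [co_sub _ (V_mem _ _), (hgt _).2, hc, V_coeff, sub_self]
  have hfr : ∀ i < n + 1, (a + V p n (t - ξ u)).coeff i ^ p =
      (a + V p n (t - ξ u) + (b + V p n (ξ ρ))).coeff i := fun i hi => by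
    rw [← sub_mem_I.1 hy2 i hi, map_coeff, hF]
  have hinit : ∀ (c : WittVector p L) (w : L),
      init n (WittVector.map j (init n c) + V p n w) = WittVector.map j (init n c) := by
    intro c w
    ext i
    rw [Wv1_init]
    split_ifs with hi
    · exact co_low _ (V_mem _ _) hi
    · rw [map_coeff, Wv1_init, if_neg hi, map_zero]
  have hfn : (b + V p n (ξ ρ)).coeff n = ξ ρ := by
    rw [co_add _ (V_mem _ _), V_coeff, hb, map_coeff, Wv1_init, if_neg (lt_irrefl n), map_zero,
      zero_add]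
  refine ⟨a + V p n (t - ξ u), b + V p n (ξ ρ), ρ, hρ, fun i hi => ?_, hfr, fun i hi => ?_, hfn,
    step3 σ _ hy1, ?_⟩
  · rw [sub_sub] at hy1
    exact sub_mem_I.1 hy1 i hi
  · rw [co_low _ (V_mem _ _) hi, hb, map_coeff, Wv1_init, if_pos hi]
  · rw [hfr n (Nat.lt_succ_self n), wv_add_init, hfn, ha, hb, hinit, hinit, ← map_add, map_coeff]
    ring

end

theorem lext_aeval {k : Type u} [Field k] {φ : En k} (hφ : Injective φ) (x : k⟦X⟧) (r : k[X]) :
    lext φ (Polynomial.aeval (lc k x)⁻¹ r) = Polynomial.aeval (lc k (φ x))⁻¹ r := by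
  let ψ : LaurentSeries k →ₐ[k] LaurentSeries k :=
    { lext φ with commutes' := lext_algebraMap hφ }
  have e : ψ (lc k x)⁻¹ = (lc k (φ x))⁻¹ := by
    show lext φ _ = _
    rw [map_inv₀, lext_lc hφ]
  rw [← e, Polynomial.aeval_algHom_apply]
  rfl

end We.Aux

open We.Aux

variable {k : Type u} [Field k] {p n m α : ℕ} [Fact p.Prime] [CharP k p] {ζ : k} {σ σ' : En k}
  {s : k⟦X⟧}

/-- Let `ĵ = lext (sub s)`, `σ̂ = lext σ`, `a = map ĵ (init n y')`.  The coefficients `< n` of
`e = map σ̂ a - a - 1` vanish (`WD.sig`, `Desc.comm`, `wv_congr`), and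
`∑_{i<q} map σ̂^i e = - q` (`q = p^(n+1)`) has zero `n`-th coefficient; by `wv_add` the trace of
`e.coeff n` is zero, so `h90` (with `exists_trace` for `t = lc X`, `Δ = 1`) gives `y₀` with
`σ̂ y₀ - y₀ = - e.coeff n`.  Let `y = a + V^n [y₀]`, so `map σ̂ y ≡ y + 1` in the coefficients `≤ n`.
`g = F y - y - map ĵ (init n f')` has vanishing coefficients `< n` and is `σ̂`-invariant in the
coefficients `≤ n`, so `g.coeff n = lext (sub x) z` (`linv`); write `z = r(1/X) + u^p - u` (`asr`) and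
replace `y₀` by `y₀ - lext (sub x) u`.  Iterating `p^n` times, `map σ̂^(p^n) y ≡ y + p^n` and
`p^n = V^n 1`.  If `n = 0` and `r 0 = 0` then `y₀^p = y₀` lies in the prime field, absurd. -/
theorem we [IsAlgClosed k] (S : Sp p (n + 1) m α ζ σ) (h : Desc p n σ σ' s)
    (S' : Sp p n m α (ζ ^ p) σ') {y' f' : WittVector p (LaurentSeries k)} {r' : ℕ → k[X]}
    (W : WD p n σ' y' f' r') :
    ∃ y f r, WD p (n + 1) σ y f r ∧ (∀ j < n, r j = r' j) ∧
      lext (σ ^ p ^ n) (y.coeff n) = y.coeff n + 1 ∧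
      y.coeff n ^ p - y.coeff n = lext (sub s) ((init n y' + init n f').coeff n +
        Polynomial.aeval (lc k (xb p n σ'))⁻¹ (r n)) := by
  have hp : p.Prime := Fact.out
  have : CharP (LaurentSeries k) p :=
    charP_of_injective_algebraMap (algebraMap k (LaurentSeries k)).injective p
  have hq : 0 < p ^ (n + 1) := pow_pos hp.pos _
  have hq' : 0 < p ^ n := pow_pos hp.pos _
  have hσi : Injective σ := en_inj hq S.pow
  have hσi' : Injective σ' := en_inj hq' S'.pow
  have hs0 : sub s X = s := sub_X (by simp [Lau_cc hp.pos (h.order_s S)])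
  have hsi : Injective (sub s) := Lau_inj hp.pos (by rw [hs0]; exact h.order_s S)
  have hx0 : constantCoeff (xb p (n + 1) σ) ∈ maximalIdeal k := by simp [Lau_cc hq S.order_xb]
  have hxX : sub (xb p (n + 1) σ) X = xb p (n + 1) σ := sub_X hx0
  have hxi : Injective (sub (xb p (n + 1) σ)) := Lau_inj hq (by rw [hxX]; exact S.order_xb)
  have hσx : σ (xb p (n + 1) σ) = xb p (n + 1) σ := nrm_inv S.pow X
  have hσx' : σ' (xb p n σ') = xb p n σ' := nrm_inv S'.pow X
  have hinj := pow_X_inj hq S.ord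
  have hσ : ∀ a, (lext σ ^ p ^ (n + 1)) a = a := fun a => by
    rw [← lext_pow hσi, S.pow, lext_one]
  have hpi : ∀ i : ℕ, Injective (σ ^ i : En k) := fun i =>
    en_inj hq (by rw [← pow_mul, mul_comm, pow_mul, S.pow, one_pow])
  have hinj' : ∀ i < p ^ (n + 1), ∀ j < p ^ (n + 1),
      (lext σ ^ i) (lc k X) = (lext σ ^ j) (lc k X) → i = j := by
    intro i hi j hj e
    rw [← lext_pow hσi, ← lext_pow hσi, lext_lc (hpi i), lext_lc (hpi j)] at e
    exact hinj i hi j hj (HahnSeries.ofPowerSeries_injective e)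
  obtain ⟨Θ, hΘ⟩ := exists_trace (lext σ) _ hq hσ (lc k X) hinj' 1 (map_one _) (by
    refine (IsUnit.mk0 _ (prod_ne_zero_iff.2 fun j hj e => ?_)).dvd
    rw [mem_Ico] at hj
    have := hinj' 0 hq j hj.2 (sub_eq_zero.1 e)
    omega)
  have hj : ∀ z, lext σ (lext (sub s) z) = lext (sub s) (lext σ' z) := fun z => by
    rw [← lext_mul hσi hsi, ← lext_mul hsi hσi', h.comm]
  have hξ : ∀ z, lext σ (lext (sub (xb p (n + 1) σ)) z) = lext (sub (xb p (n + 1) σ)) z := by
    intro z
    have e : σ * sub (xb p (n + 1) σ) = sub (xb p (n + 1) σ) := by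
      have e1 : (σ * sub (xb p (n + 1) σ)) X = xb p (n + 1) σ := by
        rw [AlgHom.mul_apply, hxX, hσx]
      exact en_ext (by rw [e1, hxX]) (by rw [e1]; exact hx0)
    rw [← lext_mul hσi hxi, e]
  obtain ⟨y, f, ρ, ⟨r, hr, rfl⟩, h1, h2, h3, h4, h5, h6⟩ := main (lext σ) (lext σ') (lext (sub s))
    (lext (sub (xb p (n + 1) σ))) hσ Θ hΘ hj hξ
    (linv _ _ hq S.order_xb σ hσi hσx hinj) W.sig W.frob
    (fun i hi => by rw [W.hf i hi, lext_aeval hσi', hσx'])
    (fun ρ => ∃ r : k[X], Red p r ∧ ρ = Polynomial.aeval (lc k X)⁻¹ r)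
    (fun z => by
      obtain ⟨r, u, hr, e⟩ := asr p z
      exact ⟨_, u, ⟨r, hr, rfl⟩, e⟩)
  rw [lext_aeval hxi, hxX] at h4 h6
  have hup : ∀ i < n, update r' n r i = r' i := fun i hi => update_of_ne hi.ne _ _
  refine ⟨y, f, update r' n r, ⟨h1, h2, fun i hi => ?_, fun i hi => ?_, fun _ h0 => ?_⟩, hup, ?_, ?_⟩
  · rcases Nat.lt_succ_iff_lt_or_eq.1 hi with hi | rfl
    · rw [h3 i hi, W.hf i hi, lext_aeval hsi, h.hx, hup i hi]
    · rw [h4, update_self]
  · rcases Nat.lt_succ_iff_lt_or_eq.1 hi with hi | rfl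
    · rw [hup i hi]
      exact W.red i hi
    · rw [update_self]
      exact hr
  · rcases Nat.eq_zero_or_pos n with rfl | hn
    · rw [update_self] at h0
      have e1 := h1 0 Nat.one_pos
      have e2 := h2 0 Nat.one_pos
      rw [add_coeff_zero, one_coeff_zero] at e1
      rw [add_coeff_zero, h4, h0, map_zero, add_zero,
        ← Subfield.mem_bot_iff_pow_eq_self, mem_bot_iff_intCast p] at e2
      obtain ⟨c, hc⟩ := e2
      rw [← hc, map_intCast] at e1
      exact one_ne_zero (left_eq_add.1 e1)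
    · rw [hup 0 hn] at h0
      exact W.pos hn h0
  · rw [lext_pow hσi]
    exact h5
  · rw [update_self, map_add, lext_aeval hsi, h.hx]
    exact h6

end Pool.Agent.MP_deef5c_ag.O
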