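import Pool.Agent.MP_deef5c_ag.O.We
import Pool.Agent.MP_deef5c_ag.O.Wa
import Pool.Agent.MP_deef5c_ag.O.RedP
import Pool.Agent.MP_deef5c_ag.O.Vsub

/-! The jumps of a cyclic tower. -/

open PowerSeries IsLocalRing Finset Function
open scoped Polynomial

namespace Pool.Agent.MP_deef5c_ag.O

universe u

open WittVector WithZero

variable {k : Type u} [Field k] {p n m α : ℕ} [Fact p.Prime] [CharP k p] {ζ : k} {σ σ' : En k}
  {s : k⟦X⟧}

theorem WsUU (p : ℕ) {d d' : ℕ → ℕ} (i : ℕ) (h : ∀ j < i, d j = d' j) : UU p d i = UU p d' i := by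
  induction i with
  | zero => rfl
  | succ i ih =>
    show max (p * UU p d i) (d i) = max (p * UU p d' i) (d' i)
    rw [ih fun j hj => h j (by omega), h i (by omega)]

omit [Fact p.Prime] [CharP k p] in
theorem WsOrd (f : k⟦X⟧) (a : ℕ) :
    vv k (th (lc k f)) = exp (-(a : ℤ)) ↔ order (d⁄dX k f) + 1 = (a : ℕ∞) := by
  rw [th_lc, vv_lc_eq, order_mul, order_X, add_comm]

omit [Fact p.Prime] [CharP k p] in
theorem WsExp (a : ℤ) (d : ℕ) :
    (exp a : WithZero (Multiplicative ℤ)) ^ d = exp ((d : ℤ) * a) := by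
  rw [← exp_nsmul, nsmul_eq_mul]

/-- the order of the derivative of the coordinate of the quotient -/
theorem WsKap (S' : Sp p n m α ζ σ') (u' : ℕ) (hw : 0 < n → IsW p n σ' (u' + 1)) :
    ∃ κ : ℕ, order (d⁄dX k (xb p n σ')) + 1 = ((κ + p ^ n : ℕ) : ℕ∞) ∧ (n = 0 → κ = 0) ∧
      (0 < n → κ < p ^ n * u') := by
  rcases Nat.eq_zero_or_pos n with rfl | hn
  · refine ⟨0, ?_, fun _ => rfl, fun h => absurd h (lt_irrefl 0)⟩
    simp [xb, nrm, derivative_X]
  · obtain ⟨β, l, hl, hβ, -, hq, -⟩ := S'.isW_spec hn (hw hn)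
    have h1 : vv k (th (lc k (xb p n σ'))) = exp (-((β + 1 : ℕ) : ℤ)) :=
      (WsOrd _ _).2 (by rw [hβ]; push_cast; rfl)
    have h2 := vv_th_le (lc k (xb p n σ'))
    rw [h1, vv_lc_eq.2 S'.order_xb, exp_le_exp] at h2
    have h3 : p ^ n ≤ β + 1 := by omega
    refine ⟨β + 1 - p ^ n, ?_, fun h => by omega, fun _ => ?_⟩
    · rw [Nat.sub_add_cancel h3, hβ]; push_cast; rfl
    · rw [mul_add, mul_one] at hq
      omega

/-- the pole orders of the term coming from the lower levels -/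
theorem WsPO (S' : Sp p n m α ζ σ') {y' f' : WittVector p (LaurentSeries k)} {r' : ℕ → k[X]}
    (W : WD p n σ' y' f' r')
    (hw : 0 < n → IsW p n σ' (UU p (fun j => (r' j).natDegree) n + 1)) :
    (0 < n → 0 < UU p (fun j => (r' j).natDegree) n) ∧
    ∃ κ : ℕ, PO p (p ^ n) (xb p n σ') κ (UU p (fun j => (r' j).natDegree) n)
      ((init n y' + init n f').coeff n) := by
  have hp : p.Prime := Fact.out
  have : CharP (LaurentSeries k) p :=
    charP_of_injective_algebraMap (algebraMap k (LaurentSeries k)).injective p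
  obtain ⟨κ, hκ, hκ0, hκ1⟩ := WsKap S' _ hw
  have hq : 0 < p ^ n := pow_pos hp.pos n
  have hx := S'.order_xb
  set x' := xb p n σ' with hx'
  have v1 : vv k (lc k x') = exp (-((p ^ n : ℕ) : ℤ)) := vv_lc_eq.2 hx
  have v2 : vv k (th (lc k x')) = exp (-((κ + p ^ n : ℕ) : ℤ)) := (WsOrd _ _).2 hκ
  have v3 : vv k (lc k x' / th (lc k x')) = exp (κ : ℤ) := by
    rw [map_div₀, v1, v2, ← exp_sub]
    congr 1
    push_cast
    ring
  have v4 : vv k (lc k x')⁻¹ = exp ((p ^ n : ℕ) : ℤ) := by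
    rw [map_inv₀, v1, ← exp_neg, neg_neg]
  let δ : LaurentSeries k →+ LaurentSeries k :=
    AddMonoidHom.mk' (fun z => th z * (lc k x' / th (lc k x'))) fun a b => by
      rw [th_add, add_mul]
  have hδ : ∀ z, δ z = th z * (lc k x' / th (lc k x')) := fun _ => rfl
  have h := wa p (vv k) δ (fun f g => by rw [hδ, hδ, hδ, th_mul]; ring) (lc k x')⁻¹
    (by rw [v4]; exact RedP_one_lt (by exact_mod_cast hq)) n y' f' (fun j => (r' j).natDegree)
    (fun hn => Nat.pos_of_ne_zero fun h0 =>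
      (vv_red p x' (p ^ n) κ hq hx hκ _ (W.red 0 hn) (W.pos hn)).1 (by rw [h0]; exact dvd_zero p))
    W.frob (fun j hj => by
      by_cases h0 : r' j = 0
      · left
        rw [W.hf j hj, h0]
        simp
      · right
        obtain ⟨a1, a2, a3⟩ := vv_red p x' (p ^ n) κ hq hx hκ _ (W.red j hj) h0
        refine ⟨a1, ?_, ?_⟩
        · rw [W.hf j hj, a2, v4, WsExp]
          congr 1
          push_cast
          ring
        · rw [W.hf j hj, hδ, map_mul, a3, v3, v4, WsExp, ← exp_add]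
          congr 1
          push_cast
          ring)
  rw [v4, WsExp] at h
  refine ⟨fun hn => (h.2 hn).1, κ, hκ, h.1.trans_eq ?_, ?_⟩
  · congr 1
    push_cast
    ring
  · rcases Nat.eq_zero_or_pos n with hn | hn
    · left
      refine ⟨by rw [hn]; rfl, ?_, hκ0 hn⟩
      subst hn
      rw [WittVector.add_coeff_zero, Wa_init_ge y' le_rfl, Wa_init_ge f' le_rfl, add_zero]
    · right
      refine ⟨hκ1 hn, ?_⟩
      have h2 := (h.2 hn).2
      rw [hδ, map_mul, v3] at h2
      rw [eq_div_of_mul_eq exp_ne_zero h2, ← exp_sub]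
      congr 1
      push_cast
      ring

omit [CharP k p] in
/-- the valuation of a root of an Artin-Schreier equation -/
theorem WsAS (y : LaurentSeries k) (a : ℕ) (ha : 0 < a)
    (h : vv k (y ^ p - y) = exp ((p : ℤ) * a)) : vv k y = exp (a : ℤ) := by
  have hp : p.Prime := Fact.out
  have hp0 : (0 : ℤ) < p := by exact_mod_cast hp.pos
  have ha0 : (0 : ℤ) < a := by exact_mod_cast ha
  have h1 : 1 < vv k y := by
    by_contra h1
    push Not at h1
    have h2 : vv k (y ^ p - y) ≤ 1 :=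
      (vv k).map_sub_le (by rw [map_pow]; exact pow_le_one₀ zero_le h1) h1
    rw [h] at h2
    exact absurd (RedP_one_lt (mul_pos hp0 ha0)) (not_lt.2 h2)
  have hlt : vv k y < vv k (y ^ p) := by
    rw [map_pow]
    exact lt_self_pow₀ h1 hp.one_lt
  rw [(vv k).map_sub_eq_of_lt_left hlt, map_pow] at h
  have h0 : vv k y ≠ 0 := (zero_lt_one.trans h1).ne'
  rw [← exp_log h0, WsExp] at h
  rw [← exp_log h0, mul_left_cancel₀ hp0.ne' (exp_injective h)]

/-- the jump and the different of the top step -/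
theorem WsTop (S : Sp p (n + 1) m α ζ σ) (h : Desc p n σ σ' s) (y g : LaurentSeries k) (lam : ℕ)
    (hl : ¬ p ∣ lam) (hg : vv k g = exp (lam : ℤ)) (hy : lext (σ ^ p ^ n) y = y + 1)
    (hyg : y ^ p - y = lext (sub s) g) :
    order ((σ ^ p ^ n) X - X) = ((lam + 1 : ℕ) : ℕ∞) ∧
      vv k (th (lc k s)) = exp ((lam : ℤ) - p - p * lam) := by
  have hp : p.Prime := Fact.out
  have hs := h.order_s S
  have hsX : sub s X = s := sub_X (by rw [Lau_cc hp.pos hs]; exact zero_mem _)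
  have hs' : order (sub s X) = p := by rw [hsX, hs]
  have hl0 : 0 < lam := Nat.pos_of_ne_zero fun h0 => hl (by rw [h0]; exact dvd_zero p)
  have hlk : (((lam : ℕ) : ℤ) : k) ≠ 0 := by
    rw [Int.cast_natCast]
    exact fun h0 => hl ((CharP.cast_eq_zero_iff k p lam).1 h0)
  have vy : vv k y = exp (lam : ℤ) :=
    WsAS (p := p) y lam hl0 (by rw [hyg, vv_lext hp.pos hs', hg, WsExp])
  constructor
  · have h1 : (σ ^ p ^ n) ^ p ^ 1 = 1 := by rw [← pow_mul, ← pow_add, S.pow]
    have h2 : σ ^ p ^ n ≠ 1 := fun h2 => by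
      have h3 := Nat.le_of_dvd (pow_pos hp.pos n) (orderOf_dvd_of_pow_eq_one h2)
      rw [S.ord] at h3
      exact absurd (Nat.pow_lt_pow_right hp.one_lt (Nat.lt_succ_self n)) (not_lt.2 h3)
    obtain ⟨l, hl1, hl2⟩ := exists_jump p 1 h1 h2
    have h3 := (vv_sub _ l hl1 hl2 y lam vy).2 hlk
    rw [hy, add_sub_cancel_left, map_one, ← exp_zero] at h3
    have h4 := exp_injective h3
    have h5 : lam = l := by omega
    rw [h5, hl2]
  · have h1 := congrArg (vv k) (th_lext hp.pos hs' g)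
    rw [← hyg, RedP_th_sub, th_pow_char p, zero_sub, map_mul, map_mul, Valuation.map_neg,
      vv_th_eq vy hlk, vv_lext hp.pos hs', vv_th_eq hg hlk, hsX, vv_lc_eq.2 hs, WsExp,
      mul_comm (exp ((p : ℤ) * lam))] at h1
    rw [eq_div_of_mul_eq exp_ne_zero h1.symm, ← exp_add, ← exp_sub]
    congr 1

/-- Take `y, f, r` from `we`, `c = (init n y' + init n f').coeff n`, `x' = xb p n σ'` of order `q' = p^n`,
`order (d x') + 1 = κ + q'` (for `n = 0`, `x' = X`, `κ = 0`; else `isW_spec` gives `q' U' = κ + l'`).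
Apply `wa` in `k((X))` with `δ z = th z * (lc x' / th (lc x'))`, `x = (lc x')⁻¹`, `d j = deg (r' j)` and
`vv_red`.  `loc0` with `h = 0` gives `lam + κ = q' U`, `U = UU (n+1)`, and `u`; `y₁ = y_n - ĵ u` has
`ρ y₁ = y₁ + 1` and `vv y₁ = exp lam` (`vv_lext`), so `lam = l` by `vv_sub`.  `th_lext` applied to
`th y₁ = - th (ĵ f_red)` gives `order (d s) = (p-1)(l+1)`, and `d x = sub s (d x') * d s`. -/
theorem ws [IsAlgClosed k] (S : Sp p (n + 1) m α ζ σ) (h : Desc p n σ σ' s)
    (S' : Sp p n m α (ζ ^ p) σ') {y' f' : WittVector p (LaurentSeries k)} {r' : ℕ → k[X]}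
    (W : WD p n σ' y' f' r')
    (hw : 0 < n → IsW p n σ' (UU p (fun j => (r' j).natDegree) n + 1)) :
    ∃ y f r, WD p (n + 1) σ y f r ∧
      IsW p (n + 1) σ (UU p (fun j => (r j).natDegree) (n + 1) + 1) ∧
      ∃ (c : LaurentSeries k) (κ l : ℕ), lext (σ ^ p ^ n) (y.coeff n) = y.coeff n + 1 ∧
        y.coeff n ^ p - y.coeff n =
          lext (sub s) (c + Polynomial.aeval (lc k (xb p n σ'))⁻¹ (r n)) ∧
        PO p (p ^ n) (xb p n σ') κ (UU p (fun j => (r' j).natDegree) n) c ∧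
        order ((σ ^ p ^ n) X - X) = ((l + 1 : ℕ) : ℕ∞) ∧
        p ^ n * (UU p (fun j => (r j).natDegree) (n + 1) + 1) = κ + p ^ n + l := by
  have hp : p.Prime := Fact.out
  have : CharP (LaurentSeries k) p :=
    charP_of_injective_algebraMap (algebraMap k (LaurentSeries k)).injective p
  obtain ⟨y, f, r, Wn, hr, hρ, hy⟩ := we S h S' W
  obtain ⟨hu, κ, P⟩ := WsPO S' W hw
  have hq : 0 < p ^ n := pow_pos hp.pos n
  have hx := S'.order_xb
  have hUU : UU p (fun j => (r j).natDegree) (n + 1) =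
      max (p * UU p (fun j => (r' j).natDegree) n) (r n).natDegree := by
    show max (p * UU p (fun j => (r j).natDegree) n) (r n).natDegree = _
    rw [WsUU p (d' := fun j => (r' j).natDegree) n fun j hj => by rw [hr j hj]]
  have hU : 0 < max (p * UU p (fun j => (r' j).natDegree) n) (r n).natDegree := by
    rcases Nat.eq_zero_or_pos n with hn | hn
    · refine lt_max_of_lt_right (Nat.pos_of_ne_zero fun h0 => ?_)
      refine (vv_red p _ (p ^ n) κ hq hx P.hκ (r n) (Wn.red n (Nat.lt_succ_self n)) ?_).1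
        (by rw [h0]; exact dvd_zero p)
      rw [hn]
      exact Wn.pos (Nat.succ_pos _)
    · exact lt_max_of_lt_left (Nat.mul_pos hp.pos (hu hn))
  obtain ⟨lam, u, e1, e2, e3⟩ := loc0 p _ (p ^ n) κ _ hq hx P.hκ _ 0 P.hc P.hc' (by simp) (r n)
    (Wn.red n (Nat.lt_succ_self n)) hU
  rw [← hUU] at e1
  obtain ⟨t1, t2⟩ := WsTop S h (y.coeff n - lext (sub s) u) _ lam e2 e3
    (by rw [map_sub, hρ, (h.lfix S _).2 ⟨u, rfl⟩]; ring)
    (by rw [sub_pow_char, add_zero, map_sub, ← hy, map_sub, map_pow]; ring)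
  refine ⟨y, f, r, Wn, Or.inr ⟨Nat.succ_pos n, ?_⟩, _, κ, lam, hρ, hy, P, t1, ?_⟩
  · have hs := h.order_s S
    have hsX : sub s X = s := sub_X (by rw [Lau_cc hp.pos hs]; exact zero_mem _)
    have hs' : order (sub s X) = p := by rw [hsX, hs]
    have h1 := congrArg (vv k) (th_lext hp.pos hs' (lc k (xb p n σ')))
    rw [lext_lc (Lau_inj hp.pos hs'), h.hx, map_mul, map_mul, vv_lext hp.pos hs',
      (WsOrd _ _).2 P.hκ, hsX, t2, vv_lc_eq.2 hs, WsExp] at h1
    set U := UU p (fun j => (r j).natDegree) (n + 1) with hUdef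
    have hle : lam ≤ p ^ (n + 1) * (U + 1) := by
      have a1 : lam ≤ p ^ n * U := by omega
      have a2 : p ^ n * U ≤ p ^ (n + 1) * (U + 1) :=
        Nat.mul_le_mul (Nat.pow_le_pow_right hp.pos (Nat.le_succ n)) (Nat.le_succ U)
      omega
    have h2 : vv k (th (lc k (xb p (n + 1) σ))) =
        exp (-((p ^ (n + 1) * (U + 1) - lam : ℕ) : ℤ)) := by
      rw [eq_div_of_mul_eq exp_ne_zero h1, ← exp_add, ← exp_sub, Nat.cast_sub hle]
      congr 1
      have a1 : ((lam + κ : ℕ) : ℤ) = ((p ^ n * U : ℕ) : ℤ) := by rw [e1]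
      push_cast at a1 ⊢
      linear_combination (-(p : ℤ)) * a1
    have h3 := (WsOrd _ _).1 h2
    rw [Nat.add_sub_cancel, t1, ← Nat.sub_add_cancel hle, Nat.cast_add, ← h3, Nat.cast_add,
      Nat.cast_one, add_assoc, add_comm (1 : ℕ∞)]
  · rw [mul_add, mul_one, ← e1]
    ring

end Pool.Agent.MP_deef5c_ag.O
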