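import Pool.Agent.MP_deef5c_ag.O.Wv1

/-! A valuation bound for Witt vector addition. -/

open PowerSeries IsLocalRing Finset Function
open scoped Polynomial

namespace Pool.Agent.MP_deef5c_ag.O

universe u

open WittVector

variable (p : ℕ) [Fact p.Prime]

/-- multiply the `j`-th coefficient by `γ^(p^j)` -/
def Wv2sc {R : Type*} [CommRing R] (γ : R) (x : WittVector p R) : WittVector p R :=
  WittVector.mk p fun j => γ ^ p ^ j * x.coeff j

omit [Fact p.Prime] in
theorem Wv2sc_coeff {R : Type*} [CommRing R] (γ : R) (x : WittVector p R) (j : ℕ) :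
    (Wv2sc p γ x).coeff j = γ ^ p ^ j * x.coeff j := rfl

theorem Wv2sc_map {R S : Type*} [CommRing R] [CommRing S] (f : R →+* S) (γ : R)
    (x : WittVector p R) :
    WittVector.map f (Wv2sc p γ x) = Wv2sc p (f γ) (WittVector.map f x) := by
  ext j
  simp only [WittVector.map_coeff, Wv2sc_coeff, map_mul, map_pow]

theorem Wv2sc_ghost {R : Type*} [CommRing R] (γ : R) (x : WittVector p R) (n : ℕ) :
    ghostComponent n (Wv2sc p γ x) = γ ^ p ^ n * ghostComponent n x := by
  rw [ghostComponent_apply, ghostComponent_apply, aeval_wittPolynomial, aeval_wittPolynomial,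
    Finset.mul_sum]
  refine Finset.sum_congr rfl fun i hi => ?_
  have hi' : i + (n - i) = n := by
    have := Finset.mem_range.1 hi
    omega
  rw [Wv2sc_coeff, mul_pow, ← pow_mul, ← pow_add, hi']
  ring

theorem Wv2sc_add_rat {R : Type*} (γ : MvPolynomial R ℚ) (x y : WittVector p (MvPolynomial R ℚ)) :
    Wv2sc p γ (x + y) = Wv2sc p γ x + Wv2sc p γ y := by
  apply (ghostMap.bijective_of_invertible p (MvPolynomial R ℚ)).1
  rw [map_add]
  ext1 n
  simp only [Pi.add_apply, ghostMap_apply, Wv2sc_ghost, map_add, mul_add]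

theorem Wv2sc_add_int {R : Type*} (γ : MvPolynomial R ℤ) (x y : WittVector p (MvPolynomial R ℤ)) :
    Wv2sc p γ (x + y) = Wv2sc p γ x + Wv2sc p γ y := by
  refine WittVector.map_injective (MvPolynomial.map (Int.castRingHom ℚ))
    (MvPolynomial.map_injective _ Int.cast_injective) ?_
  simp only [Wv2sc_map, map_add, Wv2sc_add_rat]

theorem Wv2sc_add {R : Type*} [CommRing R] (γ : R) (x y : WittVector p R) :
    Wv2sc p γ (x + y) = Wv2sc p γ x + Wv2sc p γ y := by
  obtain ⟨γ, rfl⟩ := MvPolynomial.counit_surjective R γ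
  obtain ⟨x, rfl⟩ := WittVector.map_surjective (p := p) (MvPolynomial.counit R)
    (MvPolynomial.counit_surjective R) x
  obtain ⟨y, rfl⟩ := WittVector.map_surjective (p := p) (MvPolynomial.counit R)
    (MvPolynomial.counit_surjective R) y
  rw [← map_add, ← Wv2sc_map, ← Wv2sc_map, ← Wv2sc_map, Wv2sc_add_int, map_add]

/-- a vector with bounded coefficients agrees in low degrees with a rescaled integral vector -/
theorem Wv2_exists {L Γ : Type*} [Field L] [LinearOrderedCommGroupWithZero Γ]
    (v : Valuation L Γ) (γ : L) (hγ : γ ≠ 0) (a : WittVector p L) (i : ℕ)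
    (ha : ∀ j ≤ i, v (a.coeff j) ≤ v γ ^ p ^ j) :
    ∃ a' : WittVector p v.integer,
      init (i + 1) a = init (i + 1) (Wv2sc p γ (WittVector.map v.integer.subtype a')) := by
  have hmem : ∀ j, (if j ≤ i then a.coeff j / γ ^ p ^ j else 0) ∈ v.integer := by
    intro j
    split_ifs with hj
    · rw [Valuation.mem_integer_iff, map_div₀, map_pow]
      exact div_le_one_of_le₀ (ha j hj) zero_le
    · exact zero_mem _
  refine ⟨WittVector.mk p fun j => ⟨_, hmem j⟩, ?_⟩
  ext j
  simp only [init, select, coeff_mk]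
  split_ifs with hj
  · rw [Wv2sc_coeff, WittVector.map_coeff, coeff_mk]
    have hj' : j ≤ i := by omega
    simp only [Subring.coe_subtype, if_pos hj']
    rw [mul_div_cancel₀ _ (pow_ne_zero _ hγ)]
  · rfl

omit [Fact p.Prime] in
theorem Wv2_init_coeff {R : Type*} [CommRing R] (a : WittVector p R) (i : ℕ) :
    (init (i + 1) a).coeff i = a.coeff i := by
  simp only [init, select, coeff_mk]
  rw [if_pos (Nat.lt_succ_self i)]

/-- Multiplication by the Teichmuller lift of `γ` multiplies the `j`-th coefficient by `γ^(p^j)`;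
divide by it, and note that vectors with coefficients in the valuation ring come from
`WittVector.map` of the inclusion of `v.integer`. -/
theorem wv_bound {L Γ : Type*} [Field L] [CharP L p] [LinearOrderedCommGroupWithZero Γ]
    (v : Valuation L Γ) (γ : L) (hγ : γ ≠ 0) (a b : WittVector p L) (i : ℕ)
    (ha : ∀ j ≤ i, v (a.coeff j) ≤ v γ ^ p ^ j) (hb : ∀ j ≤ i, v (b.coeff j) ≤ v γ ^ p ^ j) :
    v ((a + b).coeff i) ≤ v γ ^ p ^ i := by
  obtain ⟨a', ha'⟩ := Wv2_exists p v γ hγ a i ha
  obtain ⟨b', hb'⟩ := Wv2_exists p v γ hγ b i hb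
  rw [← Wv2_init_coeff, init_add, ha', hb', ← init_add, Wv2_init_coeff, ← Wv2sc_add, ← map_add,
    Wv2sc_coeff, WittVector.map_coeff, map_mul, map_pow]
  exact mul_le_of_le_one_right' ((Valuation.mem_integer_iff v _).1 ((a' + b').coeff i).2)

end Pool.Agent.MP_deef5c_ag.O
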