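import Pool.Agent.MP_deef5c_ag.O.Calc
import Pool.Agent.MP_deef5c_ag.O.LinC

/-! A minimal ideal modulo which the relations can be solved. -/

open PowerSeries IsLocalRing Finset Function
open scoped Polynomial

namespace Pool.Agent.MP_deef5c_ag.O

universe u

variable {R : Type u} [CommRing R] [IsLocalRing R] [CL R]

/-- Zorn's lemma for the pairs `(J, s)` with `J ≤ J₂`, `s ≡ s₂ mod J₂`, `Good J s`, ordered by
`(J', s') ≤ (J, s)` iff `J' ≤ J` and `s' ≡ s mod J`.  For a non-empty chain take `J = ⨅ J i` and each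
coefficient of `s` from `lin_compact`; `good_congr`. -/
theorem zorn_min (q α : ℕ) (z : R) (J₂ : Ideal R) (hJ₂ : J₂ ≠ ⊤) (s₂ : R⟦X⟧)
    (hs : constantCoeff s₂ ∈ maximalIdeal R) (hg : Good q α z J₂ s₂) :
    ∃ (J : Ideal R) (s : R⟦X⟧), J ≤ J₂ ∧ CIn J₂ (s - s₂) ∧ Good q α z J s ∧
      ∀ (J' : Ideal R) (s' : R⟦X⟧), J' ≤ J → CIn J (s' - s) → Good q α z J' s' → J' = J := by
  have tr : ∀ {I J : Ideal R} {f g h : R⟦X⟧}, I ≤ J → CIn I (f - g) → CIn J (g - h) →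
      CIn J (f - h) := fun hI h1 h2 a => by
    have := add_mem (hI (h1 a)) (h2 a)
    rwa [← map_add, sub_add_sub_cancel] at this
  have rf : ∀ (I : Ideal R) (f : R⟦X⟧), CIn I (f - f) := fun I f a => by simp
  let T := {p : Ideal R × R⟦X⟧ // p.1 ≤ J₂ ∧ CIn J₂ (p.2 - s₂) ∧ Good q α z p.1 p.2}
  have : Nonempty T := ⟨⟨(J₂, s₂), le_rfl, rf _ _, hg⟩⟩
  obtain ⟨m, hm⟩ := exists_maximal_of_nonempty_chains_bounded
    (r := fun a b : T => b.1.1 ≤ a.1.1 ∧ CIn a.1.1 (b.1.2 - a.1.2)) (fun c hc ⟨i₀, hi₀⟩ => by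
      have : Nonempty c := ⟨⟨i₀, hi₀⟩⟩
      have tot : ∀ i j : c, (j.1.1.1 ≤ i.1.1.1 ∧ CIn i.1.1.1 (j.1.1.2 - i.1.1.2)) ∨
          (i.1.1.1 ≤ j.1.1.1 ∧ CIn j.1.1.1 (i.1.1.2 - j.1.1.2)) := fun i j => by
        by_cases h : i.1 = j.1
        · exact Or.inl (h ▸ ⟨le_rfl, rf _ _⟩)
        · exact hc i.2 j.2 h
      choose b hb using fun n => lin_compact (fun i : c => i.1.1.1) (fun i => coeff n i.1.1.2)
        (fun i j => (tot i j).elim (fun h => ⟨j, h.1, le_rfl⟩) fun h => ⟨i, le_rfl, h.1⟩)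
        fun i j h => (tot i j).elim
          (fun h' => h (by simpa using neg_mem (h'.2 n))) fun h' => by simpa using h'.2 n
      have h1 : ∀ i : c, CIn i.1.1.1 (mk b - i.1.1.2) := fun i n => by simpa using hb n i
      have h2 : ∀ i : c, Good q α z i.1.1.1 (mk b) := fun i => by
        refine good_congr (ne_top_of_le_ne_top hJ₂ i.1.2.1) ?_ (h1 i) i.1.2.2.2
        simpa using add_mem (le_maximalIdeal hJ₂ (i.1.2.2.1 0)) hs
      exact ⟨⟨(⨅ i : c, i.1.1.1, mk b), iInf_le_of_le ⟨i₀, hi₀⟩ i₀.2.1,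
        tr le_rfl (fun n => i₀.2.1 (h1 ⟨i₀, hi₀⟩ n)) i₀.2.2.1,
        fun n => Ideal.mem_iInf.2 fun i => (h2 i).1 n,
        fun n => Ideal.mem_iInf.2 fun i => (h2 i).2 n⟩,
        fun a ha => ⟨iInf_le (fun i : c => i.1.1.1) ⟨a, ha⟩, h1 ⟨a, ha⟩⟩⟩)
    fun h h' => ⟨h'.1.trans h.1, tr h.1 h'.2 h.2⟩
  exact ⟨m.1.1, m.1.2, m.2.1, m.2.2.1, m.2.2.2, fun J' s' h1 h2 h3 => le_antisymm h1
    (hm ⟨(J', s'), h1.trans m.2.1, tr m.2.1 h2 m.2.2.1, h3⟩ ⟨h1, h2⟩).1⟩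

end Pool.Agent.MP_deef5c_ag.O
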